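import Pool.Agent.Work.MP_bf98aa_gt.Ns.Base

/-!
The standard model, linear Darboux theorem, transvections.
Hints. ld: build families a i, b i (i < k) with the symplectic relations together with the first pair (p = the vector with b p = -phi or +phi, q with phi q = 1) by induction on k <= m: the common kernel of
the 2k+2 forms b (a i), b (b i), b p, b q is nonzero by dimension; pick a there, pick b0 with b a b0 = 1, project b0 to the common kernel. The map L defined by the basis pulls b back to ws, is injective (nd_ws), hence bijective.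
sp_ind: induct over a basis. If g fixes the span S of the first k basis vectors and u is the next one, u' = g u <> u: if b u' u <> 0 the transvection along u - u' maps u' to u and fixes S;
otherwise pass through w = u + z, z b-orthogonal to S with b u' z <> 0 and b z u <> 0 (u, u' are not in S = the double orthogonal of S). The inverse of tv b c v is tv b (-c) v.
-/

set_option autoImplicit false
set_option maxSynthPendingDepth 3
set_option linter.unusedSectionVars false
set_option linter.unusedVariables false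

open Set Filter Topology Metric
open scoped Manifold ContDiff

noncomputable section
namespace Pool.Agent.Work.MP_bf98aa_gt.Ns

open Pool.Agent.Work.MP_8c604c_gt

variable {V V' V'' : Type} [NormedAddCommGroup V] [NormedSpace ℝ V] [FiniteDimensional ℝ V]
  [NormedAddCommGroup V'] [NormedSpace ℝ V'] [FiniteDimensional ℝ V']
  [NormedAddCommGroup V''] [NormedSpace ℝ V''] [FiniteDimensional ℝ V''] {m : ℕ}

theorem finrank_XX : Module.finrank ℝ (XX m) = 2 * m := by
  simp [two_mul]

theorem finrank_VV : Module.finrank ℝ (VV m) = 2 * m + 2 := by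
  rw [Module.finrank_prod, finrank_XX]
  simp

theorem dt_apply (y : VV m) : dt m y = y.2.1 := rfl

theorem ds_apply (y : VV m) : ds m y = y.2.2 := rfl

theorem dx_apply (y : VV m) : dx m y = y.1 := rfl

theorem wD_apply (u v : XX m) :
    wD m u v = ∑ i, (u (Sum.inl i) * v (Sum.inr i) - u (Sum.inr i) * v (Sum.inl i)) := by
  simp only [wD, ContinuousLinearMap.sum_apply, wedge_apply, ContinuousLinearMap.proj_apply]

theorem ws_apply (u v : VV m) : ws m u v = wD m u.1 v.1 + (u.2.2 * v.2.1 - u.2.1 * v.2.2) := by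
  simp only [ws, ContinuousLinearMap.add_apply, pb_apply, wedge_apply, dt_apply, ds_apply, dx_apply]

theorem skew_wD : Skew (wD m) := by
  exact skew_sum _ fun i _ => skew_wedge _ _

theorem nd_wD : Nd (wD m) := by
  intro u h
  funext i
  rcases i with i | i
  · simpa [wD_apply, Pi.single_apply] using h (Pi.single (Sum.inr i) 1)
  · simpa [wD_apply, Pi.single_apply] using h (Pi.single (Sum.inl i) 1)

theorem skew_ws : Skew (ws m) := by
  exact (skew_pb skew_wD _).add (skew_wedge _ _)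

theorem nd_ws : Nd (ws m) := by
  intro u h
  refine Prod.ext (nd_wD _ fun v => ?_) (Prod.ext ?_ ?_)
  · simpa [ws_apply] using h (v, 0, 0)
  · simpa [ws_apply] using h (0, 0, 1)
  · simpa [ws_apply] using h (0, 1, 0)

theorem ds_ne_zero : ds m ≠ 0 := by
  intro h
  have : ds m (0, 0, 1) = 0 := by rw [h]; rfl
  simp [ds_apply] at this

theorem norm_VV (y : VV m) : ‖y‖ = max (lat y) |y.2.2| := by
  simp only [Prod.norm_def, lat, max_assoc, Real.norm_eq_abs]

theorem continuous_lat : Continuous (lat : VV m → ℝ) := by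
  unfold lat
  fun_prop

/-- The lateral projection. -/
def lin_pr (m : ℕ) : VV m →L[ℝ] XX m × ℝ := (dx m).prod (dt m)

theorem lin_lat (y : VV m) : lat y = ‖lin_pr m y‖ := rfl

theorem lat_add_le (y z : VV m) : lat (y + z) ≤ lat y + lat z := by
  rw [lin_lat, lin_lat, lin_lat, map_add]
  exact norm_add_le _ _

theorem lat_add_es (y : VV m) (r : ℝ) : lat (y + r • es m) = lat y := by
  simp [lat, es]

theorem lat_sub_es (y : VV m) (r : ℝ) : lat (y - r • es m) = lat y := by
  simp [lat, es]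

theorem lin_box (R a b : ℝ) :
    box m R a b = lin_pr m ⁻¹' closedBall 0 R ∩ ds m ⁻¹' Icc a b := by
  ext y
  simp only [box, mem_setOf_eq, mem_inter_iff, mem_preimage, mem_closedBall_zero_iff, mem_Icc,
    lin_lat, ds_apply]

theorem isCompact_box (R a b : ℝ) : IsCompact (box m R a b) := by
  refine Metric.isCompact_of_isClosed_isBounded ?_ ?_
  · rw [lin_box]
    exact (isClosed_closedBall.preimage (lin_pr m).continuous).inter
      (isClosed_Icc.preimage (ds m).continuous)
  · refine isBounded_iff_forall_norm_le.2 ⟨max R (max |a| |b|), fun y hy => ?_⟩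
    rw [norm_VV]
    exact max_le_max hy.1 (abs_le_max_abs_abs hy.2.1 hy.2.2)

theorem convex_box (R a b : ℝ) : Convex ℝ (box m R a b) := by
  rw [lin_box]
  exact ((convex_closedBall 0 R).linear_preimage (lin_pr m : VV m →ₗ[ℝ] XX m × ℝ)).inter
    ((convex_Icc a b).linear_preimage (ds m : VV m →ₗ[ℝ] ℝ))

theorem isCompact_beam (R η L a : ℝ) : IsCompact (beam m R η L a) := by
  exact ((isCompact_box _ _ _).union (isCompact_box _ _ _)).union (isCompact_box _ _ _)

theorem isPreconnected_beam {R η L a : ℝ} (hR : 0 ≤ R) (hη : 0 ≤ η) (hL : 0 ≤ L) (ha : 0 ≤ a) :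
    IsPreconnected (beam m R η L a) := by
  have mem : ∀ r x y s : ℝ, 0 ≤ r → x ≤ s → s ≤ y → ((0, 0, s) : VV m) ∈ box m r x y :=
    fun r x y s hr h1 h2 => ⟨by simpa [lat] using hr, h1, h2⟩
  refine IsPreconnected.union (0, 0, -L) (Or.inr (mem _ _ _ _ hη le_rfl (by linarith)))
    (mem _ _ _ _ hR (by linarith) le_rfl) ?_ (convex_box _ _ _).isPreconnected
  exact IsPreconnected.union (0, 0, L) (mem _ _ _ _ hR le_rfl (by linarith))
    (mem _ _ _ _ hη (by linarith) le_rfl) (convex_box _ _ _).isPreconnected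
    (convex_box _ _ _).isPreconnected

/-- A box is an affine image of the unit ball. -/
theorem box_eq_image {R a b : ℝ} (hR : 0 < R) (h : a < b) :
    ∃ (L : VV m ≃L[ℝ] VV m) (c : VV m), box m R a b = (fun y => L y + c) '' closedBall 0 1 := by
  obtain ⟨k, hk, ek⟩ : ∃ k : ℝ, 0 < k ∧ b - a = 2 * k := ⟨(b - a) / 2, by linarith, by ring⟩
  let L : VV m ≃ₗ[ℝ] VV m :=
    { toFun := fun y => (R • y.1, R * y.2.1, k * y.2.2)
      invFun := fun y => (R⁻¹ • y.1, R⁻¹ * y.2.1, k⁻¹ * y.2.2)
      map_add' := fun x y => by simp [mul_add]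
      map_smul' := fun c x => by simp [smul_comm c R, mul_left_comm]
      left_inv := fun y => by simp [hR.ne', hk.ne']
      right_inv := fun y => by simp [hR.ne', hk.ne'] }
  have key : ∀ z : VV m, L z + (0, 0, a + k) ∈ box m R a b ↔ z ∈ closedBall (0 : VV m) 1 := by
    intro z
    have e1 : lat (L z + (0, 0, a + k)) = R * lat z := by
      simp [L, lat, norm_smul, abs_of_pos hR, mul_max_of_nonneg _ _ hR.le]
    have e2 : (L z + ((0, 0, a + k) : VV m)).2.2 = k * z.2.2 + (a + k) := rfl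
    rw [mem_closedBall_zero_iff, norm_VV, max_le_iff, abs_le]
    simp only [box, mem_setOf_eq, e1, e2]
    rw [mul_le_iff_le_one_right hR]
    refine and_congr_right fun _ => and_congr ⟨fun h => ?_, fun h => ?_⟩ ⟨fun h => ?_, fun h => ?_⟩
    all_goals nlinarith
  refine ⟨L.toContinuousLinearEquiv, (0, 0, a + k), ?_⟩
  ext y
  refine ⟨fun hy => ⟨L.symm (y - (0, 0, a + k)), (key _).1 (by simpa using hy), by simp⟩, ?_⟩
  rintro ⟨z, hz, rfl⟩
  exact (key z).2 hz

/-- The symplectic relations. -/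
structure lin_Rel {ι : Type} (b : B2 V) (a c : ι → V) : Prop where
  aa : ∀ i j, b (a i) (a j) = 0
  cc : ∀ i j, b (c i) (c j) = 0
  ac : ∀ i, b (a i) (c i) = 1
  ne : ∀ i j, i ≠ j → b (a i) (c j) = 0

theorem lin_sum_c {ι : Type} [Fintype ι] {b : B2 V} {a c : ι → V} (h : lin_Rel b a c) (β : ι → ℝ)
    (i : ι) : b (a i) (∑ j, β j • c j) = β i := by
  rw [map_sum, Finset.sum_eq_single i (fun j _ hj => by simp [h.ne i j hj.symm]) (by simp)]
  simp [h.ac]

theorem lin_sum_a {ι : Type} [Fintype ι] {b : B2 V} (hs : Skew b) {a c : ι → V}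
    (h : lin_Rel b a c) (α : ι → ℝ) (i : ι) : b (c i) (∑ j, α j • a j) = -α i := by
  rw [map_sum, Finset.sum_eq_single i (fun j _ hj => by simp [hs (c i), h.ne j i hj]) (by simp)]
  simp [hs (c i), h.ac]

theorem lin_comp {ι : Type} [Fintype ι] {b : B2 V} (hs : Skew b) {a c : ι → V}
    (h : lin_Rel b a c) (α β α' β' : ι → ℝ) :
    b (∑ i, α i • a i + ∑ i, β i • c i) (∑ i, α' i • a i + ∑ i, β' i • c i) =
      ∑ i, (α i * β' i - β i * α' i) := by
  have e1 : ∀ i, b (a i) (∑ i, α' i • a i + ∑ i, β' i • c i) = β' i := fun i => by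
    rw [map_add, lin_sum_c h]; simp [h.aa]
  have e2 : ∀ i, b (c i) (∑ i, α' i • a i + ∑ i, β' i • c i) = -α' i := fun i => by
    rw [map_add, lin_sum_a hs h]; simp [h.cc]
  generalize ∑ i, α' i • a i + ∑ i, β' i • c i = w at e1 e2
  simp [e1, e2, sub_eq_add_neg, Finset.sum_add_distrib]

theorem lin_ext {ι : Type} [Fintype ι] {b : B2 V} (hs : Skew b) (hn : Nd b) {a c : ι → V}
    (h : lin_Rel b a c) (hd : 2 * Fintype.card ι < Module.finrank ℝ V) :
    ∃ x y, b x y = 1 ∧ (∀ i, b (a i) x = 0) ∧ (∀ i, b (c i) x = 0) ∧ (∀ i, b (a i) y = 0) ∧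
      ∀ i, b (c i) y = 0 := by
  let T : V →ₗ[ℝ] (ι → ℝ) × (ι → ℝ) :=
    (LinearMap.pi fun i => (b (a i) : V →ₗ[ℝ] ℝ)).prod (LinearMap.pi fun i => (b (c i) : V →ₗ[ℝ] ℝ))
  obtain ⟨x, hx, x0⟩ := (Submodule.ne_bot_iff _).1 (LinearMap.ker_ne_bot_of_finrank_lt (f := T)
    (by simpa [two_mul] using hd))
  have xa : ∀ i, b (a i) x = 0 := fun i => congrFun (congrArg Prod.fst (LinearMap.mem_ker.1 hx)) i
  have xc : ∀ i, b (c i) x = 0 := fun i => congrFun (congrArg Prod.snd (LinearMap.mem_ker.1 hx)) i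
  obtain ⟨y, hy⟩ : ∃ y, b x y = 1 := by
    obtain ⟨y, hy⟩ := not_forall.1 fun h => x0 (hn x h)
    exact ⟨(b x y)⁻¹ • y, by rw [map_smul, smul_eq_mul, inv_mul_cancel₀ hy]⟩
  refine ⟨x, y + (∑ i, b (c i) y • a i - ∑ i, b (a i) y • c i), ?_, xa, xc, fun i => ?_, fun i => ?_⟩
  · simp [hy, hs x (a _), hs x (c _), xa, xc]
  · rw [map_add, map_sub, lin_sum_c h]; simp [h.aa]
  · rw [map_add, map_sub, lin_sum_a hs h]; simp [h.cc]

theorem lin_fam {b : B2 V} (hs : Skew b) (hn : Nd b) {q p : V} (h : b q p = 1) (k : ℕ) :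
    2 * k + 2 ≤ Module.finrank ℝ V → ∃ a c : Fin (k + 1) → V, lin_Rel b a c ∧
      a (Fin.last k) = q ∧ c (Fin.last k) = p := by
  induction k with
  | zero =>
    exact fun _ => ⟨fun _ => q, fun _ => p, ⟨fun _ _ => hs.self _, fun _ _ => hs.self _, fun _ => h,
      fun i j hij => (hij (Fin.ext (by omega))).elim⟩, rfl, rfl⟩
  | succ k ih =>
    intro hk
    obtain ⟨a, c, r, ha, hc⟩ := ih (by omega)
    obtain ⟨x, y, xy, ax, cx, ay, cy⟩ := lin_ext hs hn r (by rw [Fintype.card_fin]; omega)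
    refine ⟨Fin.cons x a, Fin.cons y c, ⟨fun i j => ?_, fun i j => ?_, fun i => ?_, fun i j => ?_⟩,
      ha, hc⟩
    · refine Fin.cases ?_ (fun i => ?_) i <;> refine Fin.cases ?_ (fun j => ?_) j <;>
        simp [hs.self, hs x (a _), ax, r.aa]
    · refine Fin.cases ?_ (fun i => ?_) i <;> refine Fin.cases ?_ (fun j => ?_) j <;>
        simp [hs.self, hs y (c _), cy, r.cc]
    · refine Fin.cases ?_ (fun i => ?_) i <;> simp [xy, r.ac]
    · refine Fin.cases ?_ (fun i => ?_) i <;> refine Fin.cases ?_ (fun j => ?_) j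
      · simp
      · simp [hs x (c _), cx]
      · simp [ay]
      · exact fun hij => r.ne i j fun e => hij (congrArg _ e)

/-- Linear Darboux theorem with a prescribed covector. -/
theorem ld (hV : Module.finrank ℝ V = 2 * m + 2) {b : B2 V} (hs : Skew b) (hn : Nd b) {φ : B1 V}
    (hφ : φ ≠ 0) : ∃ L : VV m ≃L[ℝ] V, pb (L : VV m →L[ℝ] V) b = ws m ∧
      φ.comp (L : VV m →L[ℝ] V) = ds m := by
  obtain ⟨q, hq⟩ : ∃ q, φ q = 1 := by
    obtain ⟨x, hx⟩ := DFunLike.ne_iff.1 hφ
    exact ⟨(φ x)⁻¹ • x, by rw [map_smul, smul_eq_mul, inv_mul_cancel₀ hx]⟩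
  have hp : ∀ x, φ x = b x (sharp b (-φ)) := fun x => by
    rw [hs x, sharp_spec hn]; simp
  generalize sharp b (-φ) = p at hp
  obtain ⟨a, c, h, ha, hc⟩ := lin_fam hs hn (hp q ▸ hq) m hV.ge
  let L : VV m →ₗ[ℝ] V :=
    { toFun := fun y => ∑ i, y.1 (Sum.inl i) • a i.castSucc + y.2.2 • a (Fin.last m) +
        (∑ i, y.1 (Sum.inr i) • c i.castSucc + y.2.1 • c (Fin.last m))
      map_add' := fun x y => by
        simp only [Prod.fst_add, Prod.snd_add, Pi.add_apply, add_smul, Finset.sum_add_distrib]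
        abel
      map_smul' := fun r x => by
        simp only [Prod.smul_fst, Prod.smul_snd, Pi.smul_apply, smul_eq_mul, mul_smul, smul_add,
          Finset.smul_sum, RingHom.id_apply] }
  have eL : ∀ y, L y =
      ∑ i, (Fin.snoc (α := fun _ => ℝ) (fun i => y.1 (Sum.inl i)) y.2.2 i) • a i +
      ∑ i, (Fin.snoc (α := fun _ => ℝ) (fun i => y.1 (Sum.inr i)) y.2.1 i) • c i := fun y => by
    rw [Fin.sum_univ_castSucc, Fin.sum_univ_castSucc]
    simp only [Fin.snoc_castSucc, Fin.snoc_last]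
    rfl
  have hL : ∀ u v, b (L u) (L v) = ws m u v := fun u v => by
    rw [eL, eL, lin_comp hs h, Fin.sum_univ_castSucc, ws_apply, wD_apply]
    simp only [Fin.snoc_castSucc, Fin.snoc_last]
  have inj : Function.Injective L := (injective_iff_map_eq_zero L).2 fun u hu =>
    nd_ws u fun v => by rw [← hL, hu]; simp
  refine ⟨(L.linearEquivOfInjective inj (by rw [hV, finrank_VV])).toContinuousLinearEquiv,
    b2_ext fun u v => ?_, ContinuousLinearMap.ext fun y => ?_⟩
  · rw [pb_apply]; exact hL u v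
  · have e : L (0, 1, 0) = p := by simp [L, hc]
    have := hL y (0, 1, 0)
    rw [e, ← hp, ws_apply] at this
    rw [ds_apply]
    refine Eq.trans this ?_
    simp

theorem ld' (hV : Module.finrank ℝ V = 2 * m + 2) {b : B2 V} (hs : Skew b) (hn : Nd b) :
    ∃ L : VV m ≃L[ℝ] V, pb (L : VV m →L[ℝ] V) b = ws m := by
  have : Nontrivial V := Module.nontrivial_of_finrank_pos (R := ℝ) (by omega)
  obtain ⟨x, hx⟩ := exists_ne (0 : V)
  obtain ⟨L, h, -⟩ := ld hV hs hn (φ := b x) fun h => hx (hn x fun v => by rw [h]; rfl)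
  exact ⟨L, h⟩

theorem tv_apply (b : B2 V) (c : ℝ) (v y : V) : tv b c v y = y + (c * b v y) • v := by
  simp [tv, mul_smul]

theorem pb_tv {b : B2 V} (hs : Skew b) (c : ℝ) (v : V) : pb (tv b c v) b = b := by
  refine b2_ext fun x y => ?_
  rw [pb_apply, tv_apply, tv_apply]
  simp only [map_add, map_smul, ContinuousLinearMap.add_apply, ContinuousLinearMap.smul_apply,
    smul_eq_mul, hs.self v, hs x v]
  ring

theorem tv_add {b : B2 V} (hs : Skew b) (c c' : ℝ) (v : V) :
    tv b (c + c') v = (tv b c v).comp (tv b c' v) := by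
  ext y
  rw [ContinuousLinearMap.comp_apply, tv_apply, tv_apply, tv_apply]
  simp only [map_add, map_smul, hs.self v, smul_zero, add_zero, add_mul, add_smul]
  abel

theorem lin_tv0 (b : B2 V) (v : V) : tv b 0 v = ContinuousLinearMap.id ℝ V := by
  simp [tv]

/-- The fixed space. -/
def lin_fix (g : V →L[ℝ] V) : Submodule ℝ V := LinearMap.eqLocus (g : V →ₗ[ℝ] V) LinearMap.id

theorem lin_move {b : B2 V} (hs : Skew b) {S : Submodule ℝ V} {x y : V} (h : b x y ≠ 0)
    (hS : ∀ s ∈ S, b x s = b y s) : ∃ c v, tv b c v x = y ∧ ∀ s ∈ S, tv b c v s = s := by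
  refine ⟨(b (y - x) x)⁻¹, y - x, ?_, fun s h' => ?_⟩
  · have : b (y - x) x ≠ 0 := by simpa [hs.self, hs y x] using h
    rw [tv_apply, inv_mul_cancel₀ this, one_smul, add_sub_cancel]
  · simp [tv_apply, hS s h']

theorem lin_one {b : B2 V} (hn : Nd b) {S : Submodule ℝ V} {x : V} (h : x ∉ S) :
    ∃ z, (∀ s ∈ S, b z s = 0) ∧ b z x ≠ 0 := by
  obtain ⟨f, h1, h2⟩ := Submodule.exists_le_ker_of_notMem h
  refine ⟨sharp b (LinearMap.toContinuousLinearMap f), fun s hs => ?_, ?_⟩
  · rw [sharp_spec hn]; exact h2 hs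
  · rw [sharp_spec hn]; exact h1

theorem lin_two {b : B2 V} (hn : Nd b) {S : Submodule ℝ V} {x y : V} (hx : x ∉ S) (hy : y ∉ S) :
    ∃ z, (∀ s ∈ S, b z s = 0) ∧ b z x ≠ 0 ∧ b z y ≠ 0 := by
  obtain ⟨z, a1, a2⟩ := lin_one hn hx
  obtain ⟨w, b1, b2⟩ := lin_one hn hy
  by_cases h1 : b z y = 0
  · by_cases h2 : b w x = 0
    · exact ⟨z + w, fun s hs => by simp [a1 s hs, b1 s hs], by simpa [h2] using a2,
        by simpa [h1] using b2⟩
    · exact ⟨w, b1, h2, b2⟩
  · exact ⟨z, a1, a2, h1⟩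

/-- The symplectic group is generated by transvections. -/
theorem sp_ind {b : B2 V} (hs : Skew b) (hn : Nd b) {Q : (V →L[ℝ] V) → Prop}
    (h1 : Q (ContinuousLinearMap.id ℝ V)) (hT : ∀ c v L, Q L → Q ((tv b c v).comp L))
    {L : V →L[ℝ] V} (hL : pb L b = b) : Q L := by
  have back : ∀ c v g, Q ((tv b c v).comp g) → Q g := fun c v g h => by
    have := hT (-c) v _ h
    rwa [← ContinuousLinearMap.comp_assoc, ← tv_add hs, neg_add_cancel, lin_tv0,
      ContinuousLinearMap.id_comp] at this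
  have pres : ∀ c v g, pb g b = b → pb ((tv b c v).comp g) b = b := fun c v g h => by
    rw [pb_comp, pb_tv hs, h]
  have step : ∀ g : V →L[ℝ] V, pb g b = b → g = ContinuousLinearMap.id ℝ V ∨
      ∃ g' : V →L[ℝ] V, pb g' b = b ∧ (Q g' → Q g) ∧
        Module.finrank ℝ (lin_fix g) < Module.finrank ℝ (lin_fix g') := by
    intro g hg
    by_cases h0 : ∀ u, g u = u
    · exact Or.inl (ContinuousLinearMap.ext h0)
    obtain ⟨u, hu⟩ := not_forall.1 h0
    have gb : ∀ x y, b (g x) (g y) = b x y := fun x y => by rw [← pb_apply, hg]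
    have inj : Function.Injective g := inj_of_nd_pb (by rw [hg]; exact hn)
    have lt : ∀ g' : V →L[ℝ] V, g' u = u → (∀ s, g s = s → g' s = s) →
        Module.finrank ℝ (lin_fix g) < Module.finrank ℝ (lin_fix g') := fun g' e1 e2 =>
      Submodule.finrank_lt_finrank_of_lt (SetLike.lt_iff_le_and_exists.2 ⟨e2, u, e1, hu⟩)
    have eS : ∀ s ∈ lin_fix g, b (g u) s = b u s := fun s (h : g s = s) => by
      rw [← gb u s, h]
    right
    by_cases hb : b (g u) u = 0
    · obtain ⟨z, z0, z1, z2⟩ := lin_two hn (S := lin_fix g) (x := u) (y := g u) hu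
        fun h => hu (inj h)
      obtain ⟨c, v, e1, e2⟩ := lin_move hs (S := lin_fix g) (x := g u) (y := u + z)
        (by rw [map_add, hb, zero_add, hs]; exact neg_ne_zero.2 z2)
        fun s h => by rw [eS s h]; simp [z0 s h]
      obtain ⟨c', v', e1', e2'⟩ := lin_move hs (S := lin_fix g) (x := u + z) (y := u)
        (by simpa [hs.self] using z1) fun s h => by simp [z0 s h]
      refine ⟨(tv b c' v').comp ((tv b c v).comp g), pres _ _ _ (pres _ _ _ hg),
        fun h => back _ _ _ (back _ _ _ h), lt _ ?_ fun s h => ?_⟩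
      · simp only [ContinuousLinearMap.comp_apply, e1, e1']
      · simp only [ContinuousLinearMap.comp_apply, h, e2 s h, e2' s h]
    · obtain ⟨c, v, e1, e2⟩ := lin_move hs (S := lin_fix g) hb eS
      refine ⟨(tv b c v).comp g, pres _ _ _ hg, back _ _ _, lt _ e1 fun s h => ?_⟩
      simp only [ContinuousLinearMap.comp_apply, h, e2 s h]
  have main : ∀ n : ℕ, ∀ g : V →L[ℝ] V, pb g b = b →
      Module.finrank ℝ V ≤ Module.finrank ℝ (lin_fix g) + n → Q g := by
    intro n
    induction n with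
    | zero =>
      intro g hg hr
      rcases step g hg with rfl | ⟨g', -, -, h⟩
      · exact h1
      · have := Submodule.finrank_le (lin_fix g')
        omega
    | succ n ih =>
      intro g hg hr
      rcases step g hg with rfl | ⟨g', a1, a2, h⟩
      · exact h1
      · exact a2 (ih g' a1 (by omega))
  exact main _ L hL (Nat.le_add_left _ _)

end Pool.Agent.Work.MP_bf98aa_gt.Ns
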