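import Pool.Agent.Work.MP_bf98aa_gt.Ns.Cut

/-!
Flows, invariance of forms, flow boxes.
Hints. exists_Flow: as in Work/MP_8c604c_gt/ODE (odeAux_smooth): SpunKnot.FlowAAux.core for the field (s,(tau,x)) -> (0, tau X x) cut off in tau, or directly: core needs Lipschitz in the space variable for s in [0,1];
existence for all time from Picard-Lindelof or from core, uniqueness FlowAAux.unique / ode_unique; add from uniqueness.
inv_const: the derivative in s of Omega(s, phi)(D u, D v) is dOmega/ds + fderiv Omega (X) + Omega(DX a, b) + Omega(a, DX b), by symmetry of the second derivative of phi; closedness and he make it zero.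
box_dif: the derivative is D phi_t applied to j(v) Y(z) + pi v, because D phi_t (Y z) = Y (phi_t z); bijective by monotonicity of j along orbits (IVT); dif_of_bij.
-/

set_option autoImplicit false
set_option maxSynthPendingDepth 3
set_option linter.unusedSectionVars false
set_option linter.unusedVariables false

open Set Filter Topology Metric
open scoped Manifold ContDiff

noncomputable section
namespace Pool.Agent.Work.MP_bf98aa_gt.Ns

open Pool.Agent.Work.MP_8c604c_gt

variable {V V' V'' : Type} [NormedAddCommGroup V] [NormedSpace ℝ V] [FiniteDimensional ℝ V]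
  [NormedAddCommGroup V'] [NormedSpace ℝ V'] [FiniteDimensional ℝ V']
  [NormedAddCommGroup V''] [NormedSpace ℝ V''] [FiniteDimensional ℝ V''] {m : ℕ}

theorem flow_uniq {X : V → V} (hX : ContDiff ℝ ∞ X) {c c' : ℝ → V}
    (hc : ∀ t, HasDerivAt c (X (c t)) t) (hc' : ∀ t, HasDerivAt c' (X (c' t)) t)
    (h0 : c 0 = c' 0) (t : ℝ) : c t = c' t :=
  ode_unique isOpen_univ (hX.of_le (by exact_mod_cast le_top)).contDiffOn (a := -(|t| + 1))
    (b := |t| + 1) (t₀ := 0) ⟨by linarith [abs_nonneg t], by linarith [abs_nonneg t]⟩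
    (fun r _ => ⟨mem_univ _, hc r⟩) (fun r _ => ⟨mem_univ _, hc' r⟩) h0 t
    ⟨by linarith [neg_abs_le t], by linarith [le_abs_self t]⟩

theorem flow_smooth {X : V → V} (hX : ContDiff ℝ ∞ X) {K : NNReal} (hL : LipschitzWith K X)
    {γ : ℝ → V → ℝ → V} (g0 : ∀ τ x, γ τ x 0 = x)
    (hγ : ∀ τ x, ∀ s ∈ Icc (0 : ℝ) 1, HasDerivAt (γ τ x) (τ • X (γ τ x s)) s) :
    ContDiff ℝ ∞ fun p : ℝ × V => γ p.1 p.2 1 := by
  have : CompleteSpace V := FiniteDimensional.complete ℝ V
  refine contDiff_iff_contDiffAt.2 fun ⟨t₀, x₀⟩ => ?_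
  obtain ⟨T, hT⟩ : ∃ T, T = |t₀| + 1 := ⟨_, rfl⟩
  have T0 : 0 ≤ T := by rw [hT]; positivity
  obtain ⟨M, hM⟩ : ∃ M, M = gronwallBound (‖x₀‖ + 1) (T * K) (T * ‖X 0‖) 1 := ⟨_, rfl⟩
  have bd : ∀ τ ∈ closedBall t₀ 1, ∀ x ∈ closedBall x₀ 1, ∀ s ∈ Icc (0 : ℝ) 1, ‖γ τ x s‖ ≤ M := by
    intro τ hτ x hx s hs
    have h1 : |τ| ≤ T := by
      rw [mem_closedBall, Real.dist_eq] at hτ
      have := abs_add_le (τ - t₀) t₀
      rw [sub_add_cancel] at this
      linarith
    have h2 := norm_le_gronwallBound_of_norm_deriv_right_le (f := γ τ x) (δ := ‖x₀‖ + 1)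
      (K := T * K) (ε := T * ‖X 0‖) (fun r hr => (hγ τ x r hr).continuousAt.continuousWithinAt)
      (fun r hr => (hγ τ x r (Ico_subset_Icc_self hr)).hasDerivWithinAt)
      (by
        rw [g0]
        rw [mem_closedBall, dist_eq_norm] at hx
        have := norm_add_le (x - x₀) x₀
        rw [sub_add_cancel] at this
        linarith)
      (fun r _ => by
        have k1 := hL.dist_le_mul (γ τ x r) 0
        rw [dist_eq_norm, dist_zero_right] at k1
        have k2 := norm_add_le (X (γ τ x r) - X 0) (X 0)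
        rw [sub_add_cancel] at k2
        rw [norm_smul, Real.norm_eq_abs, mul_assoc, ← mul_add]
        exact mul_le_mul h1 (by linarith) (norm_nonneg _) T0) s hs
    rw [hM]
    exact h2.trans (gronwallBound_mono (by positivity) (by positivity) (by positivity)
      (by linarith [hs.2]))
  have M0 : 0 ≤ M := (norm_nonneg _).trans
    (bd t₀ (mem_closedBall_self zero_le_one) x₀ (mem_closedBall_self zero_le_one) 0
      ⟨le_rfl, zero_le_one⟩)
  obtain ⟨G, sG, g1, g2, -⟩ := exists_ball_cut (0 : V) M0 (lt_add_one M)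
  let b : ContDiffBump t₀ := ⟨1, 2, one_pos, one_lt_two⟩
  obtain ⟨v, hv⟩ : ∃ v : ℝ × ℝ × V → ℝ × V,
      v = fun z => (0, (b z.2.1 * z.2.1) • G z.2.2 • X z.2.2) := ⟨_, rfl⟩
  have sv : ContDiff ℝ ∞ v := by
    rw [hv]
    exact contDiff_const.prodMk (((b.contDiff.comp contDiff_snd.fst).mul contDiff_snd.fst).smul
      ((sG.smul hX).comp contDiff_snd.snd))
  obtain ⟨L, hK⟩ := SpunKnot.FlowAAux.exists_lip sv ((isCompact_closedBall t₀ 2).prod
    (isCompact_closedBall (0 : V) (M + 1))) (by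
    rintro s ⟨τ, x⟩ hz
    rw [hv]
    by_cases h : x ∈ closedBall (0 : V) (M + 1)
    · have h1 : b.rOut ≤ dist τ t₀ := (not_le.1 fun h' => hz ⟨h', h⟩).le
      simp [b.zero_of_le_dist h1]
    · rw [mem_closedBall, dist_eq_norm, not_le] at h
      simp [g2 x h.le])
  obtain ⟨Ξ, sΞ, hΞ⟩ := SpunKnot.FlowAAux.core sv hK
  refine (sΞ.snd.contDiffAt (x := (t₀, x₀))).congr_of_eventuallyEq ?_
  filter_upwards [prod_mem_nhds (closedBall_mem_nhds t₀ one_pos) (closedBall_mem_nhds x₀ one_pos)]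
    with ⟨τ, x⟩ ⟨hτ, hx⟩
  obtain ⟨δ, δ0, δ1, hδ⟩ := hΞ (τ, x)
  have := SpunKnot.FlowAAux.unique hK hδ (δ := fun s => (τ, γ τ x s)) (fun s hs => by
    have a3 : G (γ τ x s) = 1 := g1 _ (by rw [sub_zero]; exact bd τ hτ x hx s hs)
    have a4 : b τ = 1 := b.one_of_mem_closedBall hτ
    refine ((hasDerivAt_const s τ).prodMk (hγ τ x s hs)).congr_deriv ?_
    simp only [hv, a3, a4, one_mul, one_smul]) (by simp [δ0, g0])
  rw [← δ1, this]

theorem exists_Flow {X : V → V} (hX : ContDiff ℝ ∞ X) {K : NNReal} (hL : LipschitzWith K X) :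
    Nonempty (Flow X) := by
  have : CompleteSpace V := FiniteDimensional.complete ℝ V
  have lip : ∀ τ : ℝ, ∀ s ∈ Icc (0 : ℝ) 1,
      LipschitzWith (‖τ‖₊ * K) fun x => (fun z : ℝ × V => τ • X z.2) (s, x) := fun τ s _ =>
    (lipschitzWith_smul τ).comp hL
  have hex : ∀ (τ : ℝ) (x : V), ∃ γ : ℝ → V, γ 0 = x ∧
      ∀ s ∈ Icc (0 : ℝ) 1, HasDerivAt γ (τ • X (γ s)) s := fun τ x => by
    obtain ⟨Ξ, -, h⟩ := SpunKnot.FlowAAux.core (v := fun z : ℝ × V => τ • X z.2)
      (contDiff_const.smul (hX.comp contDiff_snd)) (lip τ)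
    obtain ⟨γ, h0, -, h1⟩ := h x
    exact ⟨γ, h0, h1⟩
  choose γ g0 hγ using hex
  have sm : ContDiff ℝ ∞ fun p : ℝ × V => γ p.1 p.2 1 := flow_smooth hX hL g0 hγ
  have resc : ∀ τ x, ∀ s ∈ Icc (0 : ℝ) 1, γ (τ * s) x 1 = γ τ x s := fun τ x s hs => by
    have := SpunKnot.FlowAAux.unique (v := fun z : ℝ × V => (τ * s) • X z.2) (lip (τ * s))
      (γ := γ (τ * s) x) (hγ (τ * s) x) (δ := fun r => γ τ x (s * r)) (fun r hr => by
        have a1 : HasDerivAt (fun r : ℝ => s * r) s r := by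
          simpa using (hasDerivAt_id r).const_mul s
        have a2 := (hγ τ x (s * r) ⟨mul_nonneg hs.1 hr.1, mul_le_one₀ hs.2 hr.1 hr.2⟩).scomp r a1
        refine a2.congr_deriv ?_
        rw [smul_smul, mul_comm s τ]) (by simp [g0])
    simpa using this
  have d1 : ∀ x t, t ≠ 0 → HasDerivAt (fun s => γ s x 1) (X (γ t x 1)) t := fun x t ht => by
    have h2 : (2 * t) ≠ 0 := mul_ne_zero two_ne_zero ht
    have e : t / (2 * t) = 1 / 2 := by field_simp
    have a1 : HasDerivAt (fun r : ℝ => r / (2 * t)) (1 / (2 * t)) t :=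
      (hasDerivAt_id t).div_const _
    have a2 := hγ (2 * t) x (1 / 2) ⟨by norm_num, by norm_num⟩
    have a3 : γ t x 1 = γ (2 * t) x (1 / 2) := by
      rw [← resc (2 * t) x (1 / 2) ⟨by norm_num, by norm_num⟩]
      congr 1
      ring
    rw [← e] at a2
    have a4 := a2.scomp t a1
    rw [smul_smul, one_div_mul_cancel h2, one_smul, e, ← a3] at a4
    refine a4.congr_of_eventuallyEq ?_
    have n : ∀ᶠ r in 𝓝 t, r / (2 * t) ∈ Icc (0 : ℝ) 1 :=
      a1.continuousAt.preimage_mem_nhds (by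
        rw [e]
        exact Icc_mem_nhds (by norm_num) (by norm_num))
    filter_upwards [n] with r hr
    rw [Function.comp_apply, ← resc (2 * t) x _ hr, mul_div_cancel₀ _ h2]
  have d2 : ∀ t x, HasDerivAt (fun s => γ s x 1) (X (γ t x 1)) t := fun t x => by
    have s1 : ContDiff ℝ ∞ fun s => γ s x 1 := sm.comp (contDiff_id.prodMk contDiff_const)
    have e := Continuous.ext_on (dense_compl_singleton (0 : ℝ)) (s1.continuous_deriv (by simp))
      (hX.continuous.comp s1.continuous) fun r hr => (d1 x r hr).deriv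
    have := (s1.differentiable (by simp) t).hasDerivAt
    rwa [e] at this
  have z0 : ∀ x, γ 0 x 1 = x := fun x => by
    have := resc 1 x 0 ⟨le_rfl, zero_le_one⟩
    rwa [mul_zero, g0] at this
  refine ⟨⟨fun t x => γ t x 1, sm, z0, d2, fun s t y => ?_⟩⟩
  refine flow_uniq hX (c := fun s => γ (s + t) y 1) (c' := fun s => γ s (γ t y 1) 1)
    (fun r => (d2 (r + t) y).comp_add_const r t) (fun r => d2 r _) ?_ s
  rw [zero_add, z0]

theorem lip_of_const {X : V → V} (hX : ContDiff ℝ ∞ X) {K : Set V} (hK : IsCompact K) {c : V}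
    (h : ∀ y, y ∉ K → X y = c) : ∃ L : NNReal, LipschitzWith L X := by
  have hs : HasCompactSupport fun y => X y - c :=
    HasCompactSupport.intro hK fun y hy => by rw [h y hy, sub_self]
  obtain ⟨L, hL⟩ := (hX.sub contDiff_const).lipschitzWith_of_hasCompactSupport hs (by simp)
  exact ⟨L, LipschitzWith.of_dist_le_mul fun x y => by
    simpa only [dist_sub_right] using hL.dist_le_mul x y⟩

theorem Flow.fixed {X : V → V} (F : Flow X) (hX : ContDiff ℝ ∞ X) {y : V} (h : X y = 0) (t : ℝ) :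
    F.φ t y = y := by
  exact flow_uniq hX (c := fun s => F.φ s y) (c' := fun _ => y) (fun r => F.deriv r y)
    (fun r => by rw [h]; exact hasDerivAt_const r y) (F.zero y) t

theorem Flow.disp {X : V → V} (F : Flow X) (l : V →L[ℝ] V') {C : ℝ} (h : ∀ y, ‖l (X y)‖ ≤ C)
    (t : ℝ) (y : V) : ‖l (F.φ t y) - l y‖ ≤ C * |t| := by
  have := Convex.norm_image_sub_le_of_norm_hasDerivWithin_le (f := fun s => l (F.φ s y))
    (f' := fun s => l (X (F.φ s y))) (s := univ) (x := 0) (y := t)
    (fun s _ => (l.hasFDerivAt.comp_hasDerivAt s (F.deriv s y)).hasDerivWithinAt)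
    (fun s _ => h _) convex_univ (mem_univ _) (mem_univ _)
  simpa only [F.zero, sub_zero, Real.norm_eq_abs] using this

theorem Flow.mono {X : V → V} (F : Flow X) (j : B1 V) {c : ℝ} (h : ∀ y, c ≤ j (X y)) {s t : ℝ}
    (hst : s ≤ t) (y : V) : c * (t - s) ≤ j (F.φ t y) - j (F.φ s y) := by
  have := monotone_of_hasDerivAt_nonneg (f := fun s => j (F.φ s y) - c * s)
    (f' := fun s => j (X (F.φ s y)) - c * 1)
    (fun r => (j.hasFDerivAt.comp_hasDerivAt r (F.deriv r y)).sub ((hasDerivAt_id r).const_mul c))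
    (fun r => by simpa using h _) hst
  simp only at this
  linarith

theorem flow_slice {f : ℝ × V → V'} {s : ℝ} {z : V} (h : DifferentiableAt ℝ f (s, z)) :
    HasFDerivAt (fun z => f (s, z)) ((fderiv ℝ f (s, z)).comp (ContinuousLinearMap.inr ℝ ℝ V)) z :=
  h.hasFDerivAt.comp z (hasFDerivAt_prodMk_right s z)

theorem flow_time {f : ℝ × V → V'} {s : ℝ} {z : V} (h : DifferentiableAt ℝ f (s, z)) :
    HasDerivAt (fun s => f (s, z)) (fderiv ℝ f (s, z) (1, 0)) s :=
  h.hasFDerivAt.comp_hasDerivAt s ((hasDerivAt_id s).prodMk (hasDerivAt_const s z))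

theorem flow_skew {w : V' → B2 V} {p : V'} (h : DifferentiableAt ℝ w p)
    (hs : ∀ᶠ q in 𝓝 p, Skew (w q)) (q : V') : Skew (fderiv ℝ w p q) := fun u v => by
  have a : ∀ u v : V, HasFDerivAt (fun q => w q u v) _ p := fun u v =>
    (h.hasFDerivAt.clm_apply (hasFDerivAt_const u p)).clm_apply (hasFDerivAt_const v p)
  have e := ((a v u).neg.congr_of_eventuallyEq (f₁ := fun q => w q u v)
    (hs.mono fun q hq => hq u v)).unique (a u v)
  simpa using (congrArg (fun L => L q) e).symm

theorem inv_const {φ : ℝ × V → V} {X : ℝ × V → V} {Ω : ℝ × V → B2 V} {O : Set (ℝ × V)}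
    (hO : IsOpen O) (hφ : ContDiff ℝ ∞ φ) (hX : ContDiff ℝ ∞ X)
    (hd : ∀ t y, HasDerivAt (fun s => φ (s, y)) (X (t, φ (t, y))) t) (hΩ : ContDiffOn ℝ ∞ Ω O)
    (hs : ∀ p ∈ O, Skew (Ω p)) (hc : ∀ p ∈ O, ClosedAt (fun z => Ω (p.1, z)) p.2)
    (he : ∀ p ∈ O, fderiv ℝ Ω p (1, 0) + dd (fun z => Ω (p.1, z) (X (p.1, z))) p.2 = 0)
    {a b : ℝ} {y : V} (hy : ∀ s ∈ uIcc a b, (s, φ (s, y)) ∈ O) :
    pull2 (fun z => φ (b, z)) (fun z => Ω (b, z)) y =
      pull2 (fun z => φ (a, z)) (fun z => Ω (a, z)) y := by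
  have dφ : Differentiable ℝ φ := hφ.differentiable (by simp)
  have dX : Differentiable ℝ X := hX.differentiable (by simp)
  have dD : Differentiable ℝ (fderiv ℝ φ) :=
    (hφ.fderiv_right (m := ∞) (by simp)).differentiable (by simp)
  have e1 : ∀ s z u, fderiv ℝ (fun z => φ (s, z)) z u = fderiv ℝ φ (s, z) (0, u) := fun s z u => by
    rw [(flow_slice (dφ (s, z))).fderiv]
    rfl
  have e2 : (fun p => fderiv ℝ φ p (1, 0)) = fun p => X (p.1, φ p) := by
    funext ⟨t, z⟩
    exact (flow_time (dφ (t, z))).unique (hd t z)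
  have e3 : ∀ s u, HasDerivAt (fun s => fderiv ℝ φ (s, y) (0, u))
      (fderiv ℝ X (s, φ (s, y)) (0, fderiv ℝ φ (s, y) (0, u))) s := fun s u => by
    have a1 := (flow_time (dD (s, y))).clm_apply (hasDerivAt_const s ((0, u) : ℝ × V))
    refine a1.congr_deriv ?_
    rw [map_zero, add_zero, (hφ.contDiffAt.isSymmSndFDerivAt (by
      rw [minSmoothness_of_isRCLikeNormedField]; exact WithTop.coe_le_coe.2 le_top)).eq]
    have a2 := ((dD (s, y)).hasFDerivAt.clm_apply (hasFDerivAt_const ((1, 0) : ℝ × V) _)).fderiv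
    have a3 : HasFDerivAt (fun p : ℝ × V => X (p.1, φ p)) _ (s, y) :=
      (dX (s, φ (s, y))).hasFDerivAt.comp (s, y)
        (hasFDerivAt_fst.prodMk (dφ (s, y)).hasFDerivAt)
    rw [e2, a3.fderiv] at a2
    simpa using (congrArg (fun L => L (0, u)) a2).symm
  refine b2_ext fun u v => ?_
  simp only [pull2, pb_apply, e1]
  have key : ∀ s ∈ uIcc a b, HasDerivAt (fun s => Ω (s, φ (s, y)) (fderiv ℝ φ (s, y) (0, u))
      (fderiv ℝ φ (s, y) (0, v))) 0 s := fun s hs' => by
    have hp := hy s hs'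
    have dΩ : DifferentiableAt ℝ Ω (s, φ (s, y)) :=
      (hΩ.contDiffAt (hO.mem_nhds hp)).differentiableAt (by simp)
    have a1 := dΩ.hasFDerivAt.comp_hasDerivAt s ((hasDerivAt_id s).prodMk (hd s y))
    refine ((a1.clm_apply (e3 s u)).clm_apply (e3 s v)).congr_deriv ?_
    simp only [id, Function.comp_apply, add_apply]
    generalize fderiv ℝ φ (s, y) (0, u) = u'
    generalize fderiv ℝ φ (s, y) (0, v) = v'
    generalize φ (s, y) = z at *
    have k1 := congrArg (fun L => L u' v') (he _ hp)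
    have k2 := hc _ hp (X (s, z)) u' v'
    have k3 := flow_skew dΩ (mem_of_superset (hO.mem_nhds hp) hs) (0, u') v' (X (s, z))
    have k4 := hs _ hp u' (fderiv ℝ X (s, z) (0, v'))
    have k5 := ((flow_slice dΩ).clm_apply (flow_slice (dX (s, z)))).fderiv
    have k6 : ((1, X (s, z)) : ℝ × V) = (1, 0) + (0, X (s, z)) := by simp
    simp only [add_apply, dd_apply, k5] at k1
    simp only [(flow_slice dΩ).fderiv] at k2
    rw [k6, map_add]
    simp at k1 k2 ⊢
    linarith
  have := Convex.norm_image_sub_le_of_norm_hasDerivWithin_le (C := 0) (x := a) (y := b)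
    (fun s hs' => (key s hs').hasDerivWithinAt) (fun _ _ => by simp) (convex_uIcc a b)
    left_mem_uIcc right_mem_uIcc
  rwa [zero_mul, norm_le_zero_iff, sub_eq_zero] at this

theorem flow_dif {X : V → V} (F : Flow X) (t : ℝ) (z : V) : DifferentiableAt ℝ (F.φ t) z :=
  (flow_slice (F.smooth.differentiable (by simp) (t, z))).differentiableAt

theorem flow_box {X : V → V} (F : Flow X) (j : B1 V) (e : V) (c : ℝ) (y : V) :
    HasFDerivAt (F.box j e c) ((fderiv ℝ (F.φ (j y)) (y - j y • e + c • e)).comp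
      (j.smulRight (X (y - j y • e + c • e)) + (ContinuousLinearMap.id ℝ V - j.smulRight e))) y := by
  have a1 : HasFDerivAt (fun y : V => y - j y • e + c • e)
      (ContinuousLinearMap.id ℝ V - j.smulRight e) y :=
    ((ContinuousLinearMap.id ℝ V - j.smulRight e).hasFDerivAt (x := y)).add_const (c • e)
  have dΦ := F.smooth.differentiable (by simp) (j y, y - j y • e + c • e)
  have a2 := dΦ.hasFDerivAt.comp y (j.hasFDerivAt.prodMk a1)
  have a3 : fderiv ℝ (F.φ (j y)) (y - j y • e + c • e) = _ := (flow_slice dΦ).fderiv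
  have a4 := (flow_time dΦ).unique (F.deriv (j y) (y - j y • e + c • e))
  generalize y - j y • e + c • e = z at *
  have a5 : fderiv ℝ (F.φ (j y)) z (X z) = X (F.φ (j y) z) := by
    have b1 := F.deriv 0 z
    have b2 := (flow_dif F (j y) (F.φ 0 z)).hasFDerivAt.comp_hasDerivAt 0 b1
    have b3 := (F.deriv (j y + 0) z).comp_const_add (j y) 0
    simp only [F.add] at b3
    have := b2.unique b3
    rwa [F.zero] at this
  refine a2.congr_fderiv ?_
  ext v
  have b4 : ∀ w : V, ((j v, w) : ℝ × V) = j v • ((1, 0) : ℝ × V) + (0, w) := fun w => by simp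
  simp only [ContinuousLinearMap.comp_apply, ContinuousLinearMap.prod_apply,
    add_apply, ContinuousLinearMap.smulRight_apply, map_add, map_smul, a5]
  rw [b4, map_add, map_smul, a4, a3]
  rfl

theorem Flow.box_dif {X : V → V} (F : Flow X) (hX : ContDiff ℝ ∞ X) {j : B1 V} {e : V}
    (hj : j e = 1) (c : ℝ) {c0 : ℝ} (h0 : 0 < c0) (h : ∀ y, c0 ≤ j (X y)) :
    ∃ Ψ : Dif V, ∀ y, Ψ y = F.box j e c y := by
  have jz : ∀ y : V, j (y - j y • e + c • e) = c := fun y => by simp [hj]
  have inv : ∀ t z, F.φ (-t) (F.φ t z) = z := fun t z => by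
    rw [← F.add, neg_add_cancel, F.zero]
  have lt : ∀ t1 t2 z1 z2, F.φ t1 z1 = F.φ t2 z2 → j z1 = j z2 → t2 ≤ t1 := by
    intro t1 t2 z1 z2 k1 k2
    by_contra k
    have k3 := F.mono j h (show 0 ≤ -t1 + t2 by linarith) z2
    rw [F.add, ← k1, inv, F.zero] at k3
    nlinarith
  refine dif_of_bij (F.smooth.comp (j.contDiff.prodMk
    ((contDiff_id.sub (j.contDiff.smul contDiff_const)).add contDiff_const))) ⟨?_, ?_⟩ ?_
  · intro y1 y2 k
    have k1 : F.φ (j y1) (y1 - j y1 • e + c • e) = F.φ (j y2) (y2 - j y2 • e + c • e) := k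
    have k2 : j y1 = j y2 := le_antisymm (lt _ _ _ _ k1.symm (by rw [jz, jz]))
      (lt _ _ _ _ k1 (by rw [jz, jz]))
    have k3 := congrArg (F.φ (-j y2)) k1
    rw [inv, k2, inv] at k3
    simpa using k3
  · intro x
    obtain ⟨T, hT⟩ : ∃ T, T = |c - j x| / c0 := ⟨_, rfl⟩
    have T0 : 0 ≤ T := by rw [hT]; positivity
    have T1 : c0 * T = |c - j x| := by rw [hT]; field_simp
    have k1 := F.mono j h T0 x
    have k2 := F.mono j h (show -T ≤ 0 by linarith) x
    rw [F.zero] at k1 k2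
    have hc : Continuous fun t => j (F.φ t x) :=
      j.continuous.comp (F.smooth.continuous.comp (continuous_id.prodMk continuous_const))
    obtain ⟨t, -, ht⟩ := intermediate_value_Icc (show -T ≤ T by linarith) hc.continuousOn
      (show c ∈ Icc _ _ from ⟨by linarith [neg_abs_le (c - j x)],
        by linarith [le_abs_self (c - j x)]⟩)
    have ht' : j (F.φ t x) = c := ht
    have k3 : j (F.φ t x - c • e - t • e) = -t := by simp [hj, ht']
    refine ⟨F.φ t x - c • e - t • e, ?_⟩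
    show F.φ (j (F.φ t x - c • e - t • e)) (F.φ t x - c • e - t • e -
      j (F.φ t x - c • e - t • e) • e + c • e) = x
    rw [k3, show F.φ t x - c • e - t • e - -t • e + c • e = F.φ t x by module, inv]
  · intro y
    refine (injective_iff_map_eq_zero _).2 fun v hv => ?_
    have k1 := (flow_box F j e c y).fderiv
    have k2 : fderiv ℝ (F.box j e c) y v = 0 := hv
    have k3 := ((flow_dif F (-j y) _).hasFDerivAt.comp (y - j y • e + c • e)
      (flow_dif F (j y) _).hasFDerivAt).unique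
      ((hasFDerivAt_id _).congr_of_eventuallyEq (Eventually.of_forall fun z => inv (j y) z))
    rw [k1, ContinuousLinearMap.comp_apply] at k2
    have k4 := congrArg (fun L => L ((j.smulRight (X (y - j y • e + c • e)) +
      (ContinuousLinearMap.id ℝ V - j.smulRight e)) v)) k3
    simp only [ContinuousLinearMap.comp_apply, k2, map_zero] at k4
    have k5 : j v • X (y - j y • e + c • e) + (v - j v • e) = 0 := by simpa using k4.symm
    have k6 := congrArg j k5
    simp only [map_add, map_sub, map_smul, hj, smul_eq_mul, mul_one, sub_self, add_zero,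
      map_zero] at k6
    have k7 : j v = 0 :=
      (mul_eq_zero.1 k6).resolve_right (h0.trans_le (h (y - j y • e + c • e))).ne'
    simpa [k7] using k5

theorem Flow.box_pull {X : V → V} (F : Flow X) (hX : ContDiff ℝ ∞ X) {j : B1 V} {e : V}
    (hj : j e = 1) (c : ℝ) {U : Set V} (hU : IsOpen U) {Ω : V → B2 V} (hΩ : Form2On U Ω) {θ : B1 V}
    (hθ : ∀ z ∈ U, Ω z (X z) = θ) {y : V}
    (hy : ∀ s ∈ uIcc 0 (j y), F.φ s (y - j y • e + c • e) ∈ U) :
    pull2 (F.box j e c) Ω y =
      pb (ContinuousLinearMap.id ℝ V - j.smulRight e) (Ω (y - j y • e + c • e)) +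
        wedge j (θ.comp (ContinuousLinearMap.id ℝ V - j.smulRight e)) := by
  have hz : y - j y • e + c • e ∈ U := by simpa only [F.zero] using hy 0 left_mem_uIcc
  have k := inv_const (φ := fun p => F.φ p.1 p.2) (X := fun p => X p.2) (Ω := fun p => Ω p.2)
    (O := Prod.snd ⁻¹' U) (hU.preimage continuous_snd) F.smooth (hX.comp contDiff_snd) F.deriv
    (hΩ.smooth.comp contDiffOn_snd fun p hp => hp) (fun p hp => hΩ.skew _ hp)
    (fun p hp => hΩ.closed _ hp) (fun p hp => by
      have a1 := ((hΩ.smooth.contDiffAt (hU.mem_nhds hp)).differentiableAt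
        (by simp)).hasFDerivAt.comp p hasFDerivAt_snd
      have a2 : dd (fun z => Ω z (X z)) p.2 = 0 := by
        rw [dd_congr (θ' := fun _ => θ) (mem_of_superset (hU.mem_nhds hp) hθ), dd_const]
      have a3 : fderiv ℝ (fun p : ℝ × V => Ω p.2) p = _ := a1.fderiv
      simp only [a2, a3]
      simp) hy
  have k1 : pull2 (F.φ (j y)) Ω (y - j y • e + c • e) = Ω (y - j y • e + c • e) := by
    refine k.trans ?_
    simp only [F.zero, pull2, fderiv_fun_id, pb_id]
  rw [pull2, (flow_box F j e c y).fderiv, pb_comp]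
  change pb _ (pull2 (F.φ (j y)) Ω (y - j y • e + c • e)) = _
  rw [k1]
  generalize y - j y • e + c • e = z at *
  generalize ContinuousLinearMap.id ℝ V - j.smulRight e = P
  refine b2_ext fun u v => ?_
  have s1 := hΩ.skew z hz (P u) (X z)
  have s2 := (hΩ.skew z hz).self (X z)
  rw [hθ z hz] at s1 s2
  simp only [pb_apply, wedge_apply, add_apply, ContinuousLinearMap.comp_apply,
    ContinuousLinearMap.smulRight_apply, map_add, map_smul, smul_apply,
    smul_eq_mul, hθ z hz, s1, s2]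
  ring

end Pool.Agent.Work.MP_bf98aa_gt.Ns
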