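import Pool.Agent.Work.MP_bf98aa_gt.Ns.Defs
import Pool.Agent.Work.MP_8c604c_gt.ODE

/-!
Calculus of forms of degree one and two on vector spaces.
Hints. Evaluate on vectors. Symmetry of second derivatives: ContDiffAt.isSymmSndFDerivAt.
Form2On.pull: fderiv of y -> w (phi y) (D y b) (D y c) has three terms; the terms with second derivatives of phi cancel in the cyclic sum by symmetry and skewness.
sharp: Nd b makes b injective, hence (finite dimension, finrank of the dual) a continuous linear equivalence; contDiffAt_map_inverse.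
-/

set_option autoImplicit false
set_option maxSynthPendingDepth 3
set_option linter.unusedSectionVars false
set_option linter.unusedVariables false

open Set Filter Topology Metric
open scoped Manifold ContDiff

noncomputable section
namespace Pool.Agent.Work.MP_bf98aa_gt.Ns

open Pool.Agent.Work.MP_8c604c_gt

variable {V V' V'' : Type} [NormedAddCommGroup V] [NormedSpace ℝ V] [FiniteDimensional ℝ V]
  [NormedAddCommGroup V'] [NormedSpace ℝ V'] [FiniteDimensional ℝ V']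
  [NormedAddCommGroup V''] [NormedSpace ℝ V''] [FiniteDimensional ℝ V''] {m : ℕ}

theorem wedge_apply (θ φ : B1 V) (u v : V) : wedge θ φ u v = θ u * φ v - φ u * θ v :=
  rfl

theorem pb_apply (L : V →L[ℝ] V') (b : B2 V') (u v : V) : pb L b u v = b (L u) (L v) :=
  rfl

theorem dd_apply (θ : V → B1 V) (y u v : V) :
    dd θ y u v = fderiv ℝ θ y u v - fderiv ℝ θ y v u :=
  rfl

theorem b2_ext {b c : B2 V} (h : ∀ u v, b u v = c u v) : b = c :=
  ContinuousLinearMap.ext fun u => ContinuousLinearMap.ext (h u)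

theorem skew_wedge (θ φ : B1 V) : Skew (wedge θ φ) :=
  fun _ _ => by rw [wedge_apply, wedge_apply]; ring

theorem skew_dd (θ : V → B1 V) (y : V) : Skew (dd θ y) :=
  fun _ _ => (neg_sub _ _).symm

theorem Skew.add {b c : B2 V} (hb : Skew b) (hc : Skew c) : Skew (b + c) :=
  fun u v => show b u v + c u v = -(b v u + c v u) by rw [hb u v, hc u v, neg_add]

theorem Skew.sub {b c : B2 V} (hb : Skew b) (hc : Skew c) : Skew (b - c) :=
  fun u v => show b u v - c u v = -(b v u - c v u) by rw [hb u v, hc u v, neg_sub']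

theorem Skew.smul {b : B2 V} (hb : Skew b) (r : ℝ) : Skew (r • b) :=
  fun u v => show r * b u v = -(r * b v u) by rw [hb u v, mul_neg]

theorem skew_zero : Skew (0 : B2 V) :=
  fun _ _ => neg_zero.symm

theorem skew_sum {κ : Type} (s : Finset κ) {b : κ → B2 V} (h : ∀ i ∈ s, Skew (b i)) :
    Skew (∑ i ∈ s, b i) :=
  Finset.sum_induction b Skew (fun _ _ => Skew.add) skew_zero h

theorem Skew.self {b : B2 V} (hb : Skew b) (u : V) : b u u = 0 := by
  linarith [hb u u]

theorem skew_pb {b : B2 V'} (hb : Skew b) (L : V →L[ℝ] V') : Skew (pb L b) :=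
  fun _ _ => hb _ _

theorem nd_pb {b : B2 V'} (hb : Nd b) {L : V →L[ℝ] V'} (hL : Function.Bijective L) :
    Nd (pb L b) :=
  fun u h => hL.1 ((hb _ fun v => by obtain ⟨w, rfl⟩ := hL.2 v; exact h w).trans L.map_zero.symm)

theorem nd_of_pb {b : B2 V'} {L : V →L[ℝ] V'} (hL : Function.Surjective L) (hb : Nd (pb L b))
    (hi : Function.Injective L) : Nd b := by
  intro u h
  obtain ⟨w, rfl⟩ := hL u
  rw [hb w fun v => h _, map_zero]

theorem inj_of_nd_pb {b : B2 V'} {L : V →L[ℝ] V'} (hb : Nd (pb L b)) : Function.Injective L :=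
  (injective_iff_map_eq_zero L).2 fun u h => hb u fun v => by rw [pb_apply, h, map_zero]; rfl

theorem pb_add (L : V →L[ℝ] V') (b c : B2 V') : pb L (b + c) = pb L b + pb L c :=
  b2_ext fun _ _ => rfl

theorem pb_sub (L : V →L[ℝ] V') (b c : B2 V') : pb L (b - c) = pb L b - pb L c :=
  b2_ext fun _ _ => rfl

theorem pb_smul (L : V →L[ℝ] V') (r : ℝ) (b : B2 V') : pb L (r • b) = r • pb L b :=
  b2_ext fun _ _ => rfl

theorem pb_zero (L : V →L[ℝ] V') : pb L (0 : B2 V') = 0 :=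
  b2_ext fun _ _ => rfl

theorem pb_sum {κ : Type} (L : V →L[ℝ] V') (s : Finset κ) (b : κ → B2 V') :
    pb L (∑ i ∈ s, b i) = ∑ i ∈ s, pb L (b i) :=
  b2_ext fun _ _ => by simp only [pb_apply, _root_.sum_apply]

theorem pb_id (b : B2 V) : pb (ContinuousLinearMap.id ℝ V) b = b :=
  b2_ext fun _ _ => rfl

theorem pb_comp (L : V →L[ℝ] V') (L' : V' →L[ℝ] V'') (b : B2 V'') :
    pb (L'.comp L) b = pb L (pb L' b) :=
  b2_ext fun _ _ => rfl

theorem pb_wedge (L : V →L[ℝ] V') (θ φ : B1 V') :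
    pb L (wedge θ φ) = wedge (θ.comp L) (φ.comp L) :=
  b2_ext fun _ _ => rfl

theorem wedge_add_right (θ φ φ' : B1 V) : wedge θ (φ + φ') = wedge θ φ + wedge θ φ' :=
  b2_ext fun _ _ => by simp only [wedge_apply, _root_.add_apply]; ring

theorem wedge_sub_right (θ φ φ' : B1 V) : wedge θ (φ - φ') = wedge θ φ - wedge θ φ' :=
  b2_ext fun _ _ => by simp only [wedge_apply, _root_.sub_apply]; ring

theorem wedge_smul_right (θ φ : B1 V) (r : ℝ) : wedge θ (r • φ) = r • wedge θ φ :=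
  b2_ext fun _ _ => by simp only [wedge_apply, _root_.smul_apply, smul_eq_mul]; ring

theorem wedge_add_left (θ θ' φ : B1 V) : wedge (θ + θ') φ = wedge θ φ + wedge θ' φ :=
  b2_ext fun _ _ => by simp only [wedge_apply, _root_.add_apply]; ring

theorem wedge_sub_left (θ θ' φ : B1 V) : wedge (θ - θ') φ = wedge θ φ - wedge θ' φ :=
  b2_ext fun _ _ => by simp only [wedge_apply, _root_.sub_apply]; ring

theorem wedge_smul_left (θ φ : B1 V) (r : ℝ) : wedge (r • θ) φ = r • wedge θ φ :=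
  b2_ext fun _ _ => by simp only [wedge_apply, _root_.smul_apply, smul_eq_mul]; ring

theorem wedge_zero_right (θ : B1 V) : wedge θ 0 = 0 :=
  b2_ext fun _ _ => by simp [wedge_apply]

theorem wedge_zero_left (θ : B1 V) : wedge 0 θ = 0 :=
  b2_ext fun _ _ => by simp [wedge_apply]

theorem wedge_self (θ : B1 V) : wedge θ θ = 0 :=
  sub_self _

theorem wedge_comm (θ φ : B1 V) : wedge θ φ = -wedge φ θ :=
  (neg_sub _ _).symm

theorem wedge_sum_right {κ : Type} (θ : B1 V) (s : Finset κ) (φ : κ → B1 V) :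
    wedge θ (∑ i ∈ s, φ i) = ∑ i ∈ s, wedge θ (φ i) :=
  b2_ext fun _ _ => by
    simp only [wedge_apply, _root_.sum_apply, Finset.sum_sub_distrib, Finset.mul_sum,
      Finset.sum_mul]

theorem norm_wedge_le (θ φ : B1 V) : ‖wedge θ φ‖ ≤ 2 * ‖θ‖ * ‖φ‖ := by
  refine (norm_sub_le _ _).trans_eq ?_
  rw [ContinuousLinearMap.norm_smulRight_apply, ContinuousLinearMap.norm_smulRight_apply]
  ring

theorem contDiff_wedge : ContDiff ℝ ∞ fun p : B1 V × B1 V => wedge p.1 p.2 :=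
  (contDiff_fst.smulRight contDiff_snd).sub (contDiff_snd.smulRight contDiff_fst)

theorem contDiff_pb : ContDiff ℝ ∞ fun p : (V →L[ℝ] V') × B2 V' => pb p.1 p.2 :=
  (ContinuousLinearMap.flipₗᵢ ℝ V V ℝ).contDiff.comp
    (((ContinuousLinearMap.flipₗᵢ ℝ V V' ℝ).contDiff.comp
      (contDiff_snd.clm_comp contDiff_fst)).clm_comp contDiff_fst)

theorem dd_congr {θ θ' : V → B1 V} {y : V} (h : θ =ᶠ[𝓝 y] θ') : dd θ y = dd θ' y := by
  rw [dd, dd, h.fderiv_eq]

theorem dd_const (c : B1 V) (y : V) : dd (fun _ => c) y = 0 :=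
  b2_ext fun _ _ => by simp [dd_apply]

theorem dd_add {θ θ' : V → B1 V} {y : V} (h : DifferentiableAt ℝ θ y)
    (h' : DifferentiableAt ℝ θ' y) : dd (fun z => θ z + θ' z) y = dd θ y + dd θ' y :=
  b2_ext fun _ _ => by
    simp only [dd_apply, fderiv_fun_add h h', _root_.add_apply]; ring

theorem dd_sub {θ θ' : V → B1 V} {y : V} (h : DifferentiableAt ℝ θ y)
    (h' : DifferentiableAt ℝ θ' y) : dd (fun z => θ z - θ' z) y = dd θ y - dd θ' y :=
  b2_ext fun _ _ => by
    simp only [dd_apply, fderiv_fun_sub h h', _root_.sub_apply]; ring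

theorem dd_sum {κ : Type} (s : Finset κ) {θ : κ → V → B1 V} {y : V}
    (h : ∀ i ∈ s, DifferentiableAt ℝ (θ i) y) :
    dd (fun z => ∑ i ∈ s, θ i z) y = ∑ i ∈ s, dd (θ i) y :=
  b2_ext fun _ _ => by
    simp only [dd_apply, fderiv_fun_sum h, _root_.sum_apply, Finset.sum_sub_distrib]

theorem dd_smul {g : V → ℝ} {θ : V → B1 V} {y : V} (hg : DifferentiableAt ℝ g y)
    (h : DifferentiableAt ℝ θ y) :
    dd (fun z => g z • θ z) y = wedge (fderiv ℝ g y) (θ y) + g y • dd θ y :=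
  b2_ext fun _ _ => by
    simp only [dd_apply, wedge_apply, fderiv_fun_smul hg h, _root_.add_apply,
      _root_.smul_apply, ContinuousLinearMap.smulRight_apply, smul_eq_mul]
    ring

theorem dd_smul_const {g : V → ℝ} {y : V} (hg : DifferentiableAt ℝ g y) (c : B1 V) :
    dd (fun z => g z • c) y = wedge (fderiv ℝ g y) c := by
  rw [dd_smul hg (differentiableAt_const c), dd_const, smul_zero, add_zero]

theorem base_sym {φ : V → V'} {y : V} (h : ContDiffAt ℝ ∞ φ y) (u v : V) :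
    fderiv ℝ (fderiv ℝ φ) y u v = fderiv ℝ (fderiv ℝ φ) y v u :=
  (h.isSymmSndFDerivAt (by simp; norm_cast)).eq u v

theorem base_d2 {φ : V → V'} {y : V} (h : ContDiffAt ℝ ∞ φ y) :
    DifferentiableAt ℝ (fderiv ℝ φ) y :=
  (h.fderiv_right (m := ∞) le_rfl).differentiableAt (by simp)

theorem dd_fderiv {g : V → ℝ} {y : V} (hg : ContDiffAt ℝ ∞ g y) : dd (fderiv ℝ g) y = 0 :=
  b2_ext fun u v => sub_eq_zero.2 (base_sym hg u v)

/-- The primitive `1/2 b y` of a constant form. -/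
theorem dd_half {b : B2 V} (hb : Skew b) (y : V) : dd (fun z => (1 / 2 : ℝ) • b z) y = b := by
  refine b2_ext fun u v => ?_
  rw [dd_apply, show fderiv ℝ (fun z => (1 / 2 : ℝ) • b z) y = _ from ((1 / 2 : ℝ) • b).fderiv]
  show 1 / 2 * b u v - 1 / 2 * b v u = b u v
  linarith [hb u v]

/-- Antisymmetrisation. -/
def base_alt : B2 V →L[ℝ] B2 V := ContinuousLinearMap.id ℝ _ -
  (ContinuousLinearMap.flipₗᵢ ℝ V V ℝ).toContinuousLinearEquiv.toContinuousLinearMap

theorem contDiffOn_dd {U : Set V} (hU : IsOpen U) {θ : V → B1 V} (h : ContDiffOn ℝ ∞ θ U) :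
    ContDiffOn ℝ ∞ (dd θ) U :=
  base_alt.contDiff.comp_contDiffOn (h.fderiv_of_isOpen hU le_rfl)

theorem form_dd {U : Set V} (hU : IsOpen U) {θ : V → B1 V} (h : ContDiffOn ℝ ∞ θ U) :
    Form2On U (dd θ) := by
  refine ⟨contDiffOn_dd hU h, fun y _ => skew_dd θ y, fun y hy a b c => ?_⟩
  have k := h.contDiffAt (hU.mem_nhds hy)
  have e : ∀ a b c, fderiv ℝ (dd θ) y a b c =
      fderiv ℝ (fderiv ℝ θ) y a b c - fderiv ℝ (fderiv ℝ θ) y a c b := fun a b c => by
    rw [show fderiv ℝ (dd θ) y = _ from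
      (base_alt.hasFDerivAt.comp y (base_d2 k).hasFDerivAt).fderiv]
    rfl
  rw [e, e, e, base_sym k b a, base_sym k c a, base_sym k c b]
  ring

theorem form_const {b : B2 V} (hb : Skew b) (U : Set V) : Form2On U fun _ => b :=
  ⟨contDiffOn_const, fun _ _ => hb, fun _ _ _ _ _ => by simp⟩

theorem base_diff {U : Set V} (hU : IsOpen U) {φ : V → V'} (h : ContDiffOn ℝ ∞ φ U) {y : V}
    (hy : y ∈ U) : DifferentiableAt ℝ φ y :=
  (h.contDiffAt (hU.mem_nhds hy)).differentiableAt (by simp)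

theorem Form2On.add {U : Set V} (hU : IsOpen U) {w w' : V → B2 V} (h : Form2On U w)
    (h' : Form2On U w') : Form2On U fun y => w y + w' y := by
  refine ⟨h.smooth.add h'.smooth, fun y hy => (h.skew y hy).add (h'.skew y hy),
    fun y hy a b c => ?_⟩
  simp only [fderiv_fun_add (base_diff hU h.smooth hy) (base_diff hU h'.smooth hy),
    _root_.add_apply]
  linarith [h.closed y hy a b c, h'.closed y hy a b c]

theorem Form2On.sub {U : Set V} (hU : IsOpen U) {w w' : V → B2 V} (h : Form2On U w)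
    (h' : Form2On U w') : Form2On U fun y => w y - w' y := by
  refine ⟨h.smooth.sub h'.smooth, fun y hy => (h.skew y hy).sub (h'.skew y hy),
    fun y hy a b c => ?_⟩
  simp only [fderiv_fun_sub (base_diff hU h.smooth hy) (base_diff hU h'.smooth hy),
    _root_.sub_apply]
  linarith [h.closed y hy a b c, h'.closed y hy a b c]

theorem Form2On.smul {U : Set V} (hU : IsOpen U) {w : V → B2 V} (h : Form2On U w) (r : ℝ) :
    Form2On U fun y => r • w y := by
  refine ⟨h.smooth.const_smul r, fun y hy => (h.skew y hy).smul r, fun y hy a b c => ?_⟩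
  simp only [fderiv_fun_const_smul (base_diff hU h.smooth hy), _root_.smul_apply,
    smul_eq_mul]
  rw [← mul_add, ← mul_add, h.closed y hy, mul_zero]

theorem Form2On.mono {U U' : Set V} {w : V → B2 V} (h : Form2On U w) (hU : U' ⊆ U) :
    Form2On U' w :=
  ⟨h.smooth.mono hU, fun y hy => h.skew y (hU hy), fun y hy => h.closed y (hU hy)⟩

theorem Form2On.congr {U : Set V} (hU : IsOpen U) {w w' : V → B2 V} (h : Form2On U w)
    (e : ∀ y ∈ U, w' y = w y) : Form2On U w' := by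
  refine ⟨h.smooth.congr e, fun y hy => e y hy ▸ h.skew y hy, fun y hy a b c => ?_⟩
  rw [EventuallyEq.fderiv_eq (eventually_of_mem (hU.mem_nhds hy) e : w' =ᶠ[𝓝 y] w)]
  exact h.closed y hy a b c

theorem form_of_local {U : Set V} {w : V → B2 V}
    (h : ∀ y ∈ U, ∃ O, IsOpen O ∧ y ∈ O ∧ Form2On O w) : Form2On U w :=
  ⟨contDiffOn_of_locally_contDiffOn fun y hy =>
      let ⟨O, o, a, f⟩ := h y hy; ⟨O, o, a, f.smooth.mono inter_subset_right⟩,
    fun y hy => let ⟨_, _, a, f⟩ := h y hy; f.skew y a,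
    fun y hy => let ⟨_, _, a, f⟩ := h y hy; f.closed y a⟩

theorem contDiffOn_pull1 {U : Set V} {U' : Set V'} (hU : IsOpen U) {φ : V → V'}
    (hφ : ContDiffOn ℝ ∞ φ U) (hm : MapsTo φ U U') {θ : V' → B1 V'} (h : ContDiffOn ℝ ∞ θ U') :
    ContDiffOn ℝ ∞ (pull1 φ θ) U :=
  (h.comp hφ hm).clm_comp (hφ.fderiv_of_isOpen hU le_rfl)

theorem contDiffOn_pull2 {U : Set V} {U' : Set V'} (hU : IsOpen U) {φ : V → V'}
    (hφ : ContDiffOn ℝ ∞ φ U) (hm : MapsTo φ U U') {w : V' → B2 V'} (h : ContDiffOn ℝ ∞ w U') :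
    ContDiffOn ℝ ∞ (pull2 φ w) U :=
  (contDiff_pb.comp_contDiffOn ((hφ.fderiv_of_isOpen hU le_rfl).prodMk (h.comp hφ hm)) :)

theorem dd_pull1 {φ : V → V'} {θ : V' → B1 V'} {y : V} (hφ : ContDiffAt ℝ ∞ φ y)
    (h : DifferentiableAt ℝ θ (φ y)) : dd (pull1 φ θ) y = pull2 φ (dd θ) y := by
  have e : ∀ u v, fderiv ℝ (pull1 φ θ) y u v = θ (φ y) (fderiv ℝ (fderiv ℝ φ) y u v) +
      fderiv ℝ θ (φ y) (fderiv ℝ φ y u) (fderiv ℝ φ y v) := fun u v => by
    rw [show fderiv ℝ (pull1 φ θ) y = _ from ((h.hasFDerivAt.comp y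
      (hφ.differentiableAt (by simp)).hasFDerivAt).clm_comp (base_d2 hφ).hasFDerivAt).fderiv]
    rfl
  refine b2_ext fun u v => ?_
  rw [dd_apply, e, e, base_sym hφ v u]
  exact add_sub_add_left_eq_sub _ _ _

theorem base_ev {w : V → B2 V'} {y : V} (h : DifferentiableAt ℝ w y) (a : V) (b c : V') :
    fderiv ℝ w y a b c = fderiv ℝ (fun z => w z b c) y a := by
  rw [show fderiv ℝ (fun z => w z b c) y = _ from (((ContinuousLinearMap.apply ℝ ℝ c).comp
    (ContinuousLinearMap.apply ℝ (B1 V') b)).hasFDerivAt.comp y h.hasFDerivAt).fderiv]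
  rfl

theorem Form2On.pull {U : Set V} {U' : Set V'} (hU : IsOpen U) (hU' : IsOpen U') {φ : V → V'}
    (hφ : ContDiffOn ℝ ∞ φ U) (hm : MapsTo φ U U') {w : V' → B2 V'} (h : Form2On U' w) :
    Form2On U (pull2 φ w) := by
  have s := contDiffOn_pull2 hU hφ hm h.smooth
  refine ⟨s, fun y hy => skew_pb (h.skew _ (hm hy)) _, fun y hy a b c => ?_⟩
  have k := hφ.contDiffAt (hU.mem_nhds hy)
  have h1 := (base_diff hU' h.smooth (hm hy)).hasFDerivAt.comp y (base_diff hU hφ hy).hasFDerivAt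
  have h2 := fun v => (base_d2 k).hasFDerivAt.clm_apply (hasFDerivAt_const v y)
  have e : ∀ a b c, fderiv ℝ (pull2 φ w) y a b c =
      w (φ y) (fderiv ℝ φ y b) (fderiv ℝ (fderiv ℝ φ) y a c) +
      (w (φ y) (fderiv ℝ (fderiv ℝ φ) y a b) (fderiv ℝ φ y c) +
      fderiv ℝ w (φ y) (fderiv ℝ φ y a) (fderiv ℝ φ y b) (fderiv ℝ φ y c)) := fun a b c => by
    rw [base_ev (base_diff hU s hy), show fderiv ℝ (fun z => pull2 φ w z b c) y = _ from
      ((h1.clm_apply (h2 b)).clm_apply (h2 c)).fderiv]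
    simp
  have z := h.skew _ (hm hy)
  rw [e, e, e, base_sym k b a, base_sym k c a, base_sym k c b, z (fderiv ℝ (fderiv ℝ φ) y a b),
    z (fderiv ℝ (fderiv ℝ φ) y b c), z (fderiv ℝ (fderiv ℝ φ) y a c)]
  linarith [h.closed _ (hm hy) (fderiv ℝ φ y a) (fderiv ℝ φ y b) (fderiv ℝ φ y c)]

theorem pull2_comp {φ : V → V'} {ψ : V' → V''} {y : V} (hφ : DifferentiableAt ℝ φ y)
    (hψ : DifferentiableAt ℝ ψ (φ y)) (w : V'' → B2 V'') :
    pull2 (fun z => ψ (φ z)) w y = pull2 φ (pull2 ψ w) y := by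
  rw [pull2, fderiv_fun_comp y hψ hφ, pb_comp]
  rfl

theorem pull2_congr {φ φ' : V → V'} {y : V} (h : φ =ᶠ[𝓝 y] φ') (w : V' → B2 V') :
    pull2 φ w y = pull2 φ' w y := by
  rw [pull2, pull2, h.fderiv_eq, h.eq_of_nhds]

theorem base_inv {b : B2 V} : Nd b ↔ b.IsInvertible := by
  constructor
  · intro hb
    have i : Function.Injective b.toLinearMap :=
      (injective_iff_map_eq_zero b).2 fun u h => hb u fun v => by rw [h]; rfl
    exact ⟨(LinearMap.linearEquivOfInjective _ i (Subspace.dual_finrank_eq.symm.trans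
      LinearMap.toContinuousLinearMap.finrank_eq)).toContinuousLinearEquiv, rfl⟩
  · rintro ⟨e, rfl⟩ u h
    exact e.map_eq_zero_iff.1 (ContinuousLinearMap.ext h)

theorem sharp_spec {b : B2 V} (hb : Nd b) (θ : B1 V) : b (sharp b θ) = θ :=
  ((base_inv.1 hb).inverse_apply_eq.1 rfl).symm

theorem sharp_eq {b : B2 V} (hb : Nd b) {θ : B1 V} {v : V} (h : b v = θ) : sharp b θ = v :=
  (base_inv.1 hb).inverse_apply_eq.2 h.symm

theorem sharp_zero (b : B2 V) : sharp b 0 = 0 :=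
  map_zero _

theorem isOpen_nd : IsOpen {b : B2 V | Nd b} := by
  have := FiniteDimensional.complete ℝ V
  simp only [base_inv]
  exact ContinuousLinearEquiv.isOpen

theorem contDiffOn_sharp :
    ContDiffOn ℝ ∞ (fun p : B2 V × B1 V => sharp p.1 p.2) {p | Nd p.1} := by
  have := FiniteDimensional.complete ℝ V
  exact fun p hp => (((base_inv.1 hp).contDiffAt_map_inverse.comp p contDiffAt_fst).clm_apply
    contDiffAt_snd).contDiffWithinAt

theorem nd_margin {K : Set (B2 V)} (hK : IsCompact K) (h : ∀ b ∈ K, Nd b) :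
    ∃ ε : ℝ, 0 < ε ∧ ∀ b ∈ K, ∀ c : B2 V, ‖c‖ ≤ ε → Nd (b + c) := by
  obtain ⟨ε, h1, h2⟩ := hK.exists_cthickening_subset_open isOpen_nd h
  exact ⟨ε, h1, fun b hb c hc => h2 (mem_cthickening_of_dist_le _ b _ _ hb
    (by rwa [dist_eq_norm, add_sub_cancel_left]))⟩

theorem sharp_bound {b0 : B2 V} (h : Nd b0) : ∃ δ C : ℝ, 0 < δ ∧ 0 < C ∧
    ∀ b : B2 V, ‖b - b0‖ ≤ δ → Nd b ∧ ∀ θ, ‖sharp b θ‖ ≤ C * ‖θ‖ := by
  have := FiniteDimensional.complete ℝ V
  obtain ⟨δ, h1, h2⟩ := nhds_basis_closedBall.eventually_iff.1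
    ((show ∀ᶠ b in 𝓝 b0, Nd b from isOpen_nd.mem_nhds h).and
      (((base_inv.1 h).contDiffAt_map_inverse (n := 0)).continuousAt.norm.eventually
        (gt_mem_nhds (lt_add_one _))))
  refine ⟨δ, ‖b0.inverse‖ + 1, h1, by positivity, fun b hb => ?_⟩
  obtain ⟨k1, k2⟩ := h2 (mem_closedBall_iff_norm.2 hb)
  exact ⟨k1, fun θ => b.inverse.le_of_opNorm_le k2.le θ⟩

end Pool.Agent.Work.MP_bf98aa_gt.Ns
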