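import Pool.Agent.Work.MP_bf98aa_gt.Ns.Flow

-- merged part: Pool.Agent.Work.MP_bf98aa_gt.Ns.Moser
section
/-!
Poincare lemmas on a ball, the Moser argument, Darboux theorem with control of the displacement.
Hints. poin2: l y = integral over s in [0,1] of s * w (c + s (y - c)) (y - c); to use contDiffOn_integral / hasFDerivAt_integral of Work/MP_8c604c_gt/ODE (they want smoothness for all real s) replace s by a smooth clamp
or substitute s = S(tau) with the step S of exists_step. dd l = integral of d/ds (s^2 w (c + s(y-c))) by closedness.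
moser: field on R x V: (1, - S'(tau) chi(y) sharp (w0 + S(tau) dd l) (l)), S a step from 0 to 1 on [0,1]; smooth (contDiff_of_supp), constant off a compact set, so it has a Flow; phi y = second component at time 1 from (0,y);
inv_const with Omega(tau,z) = w0 z + S(tau) dd l z on univ x O. Displacement: the derivative has norm <= C S'(tau).
darb: poin2 for w - w0 on the ball of radius 3R, sharp_bound, cut-off 1 on radius 2.5 R, support in radius 2.75 R.
-/

set_option autoImplicit false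
set_option maxSynthPendingDepth 3
set_option linter.unusedSectionVars false
set_option linter.unusedVariables false

open Set Filter Topology Metric
open scoped Manifold ContDiff

noncomputable section
namespace Pool.Agent.Work.MP_bf98aa_gt.Ns

open Pool.Agent.Work.MP_8c604c_gt

variable {V V' V'' : Type} [NormedAddCommGroup V] [NormedSpace ℝ V] [FiniteDimensional ℝ V]
  [NormedAddCommGroup V'] [NormedSpace ℝ V'] [FiniteDimensional ℝ V']
  [NormedAddCommGroup V''] [NormedSpace ℝ V''] [FiniteDimensional ℝ V''] {m : ℕ}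

theorem moser_mem {c y : V} {r s : ℝ} (hy : y ∈ ball c r) (hs : 0 ≤ s ∧ s ≤ 1) :
    c + s • (y - c) ∈ ball c r :=
  (convex_ball c r).add_smul_sub_mem (mem_ball_self (pos_of_mem_ball hy)) hy hs

theorem moser_rad {W : Type} [NormedAddCommGroup W] [NormedSpace ℝ W] [CompleteSpace W] {c : V}
    {r : ℝ} {w : V → V →L[ℝ] W} (hw : ContDiffOn ℝ ∞ w (ball c r)) {S a : ℝ → ℝ}
    (hS : ContDiff ℝ ∞ S) (h1 : ∀ x, 0 ≤ S x ∧ S x ≤ 1) (ha : ContDiff ℝ ∞ a) :
    ContDiffOn ℝ ∞ (fun y => ∫ t in (0 : ℝ)..1, a t • w (c + S t • (y - c)) (y - c)) (ball c r) ∧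
      ∀ y ∈ ball c r, ∀ u, ∃ D : ℝ → W, Continuous D ∧
        fderiv ℝ (fun y => ∫ t in (0 : ℝ)..1, a t • w (c + S t • (y - c)) (y - c)) y u =
          ∫ t in (0 : ℝ)..1, D t ∧ ∀ t, D t = a t • (w (c + S t • (y - c)) u +
            S t • fderiv ℝ w (c + S t • (y - c)) u (y - c)) := by
  have hO : IsOpen {p : ℝ × V | p.2 ∈ ball c r} := isOpen_ball.preimage continuous_snd
  have hF : ContDiffOn ℝ ∞ (fun p : ℝ × V => a p.1 • w (c + S p.1 • (p.2 - c)) (p.2 - c))
      {p | p.2 ∈ ball c r} :=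
    (ha.comp contDiff_fst).contDiffOn.smul ((hw.comp (contDiff_const.add ((hS.comp contDiff_fst).smul
      (contDiff_snd.sub contDiff_const))).contDiffOn fun p hp => moser_mem hp (h1 _)).clm_apply
      (contDiff_snd.sub contDiff_const).contDiffOn)
  refine ⟨contDiffOn_integral isOpen_ball hF 0 1, fun y hy u => ?_⟩
  have k1 := (hasFDerivAt_integral isOpen_ball (hF.of_le (by simp)) 0 1 hy).fderiv
  have k2 := ((hF.continuousOn_fderiv_of_isOpen hO (by simp)).comp_continuous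
    (continuous_id.prodMk continuous_const) fun t => hy).clm_comp
    (continuous_const (y := ContinuousLinearMap.inr ℝ ℝ V))
  refine ⟨_, k2.clm_apply (continuous_const (y := u)), (congrArg (· u) k1).trans
    (ContinuousLinearMap.intervalIntegral_apply (k2.intervalIntegrable 0 1) u), fun t => ?_⟩
  have k3 := ((hF.contDiffAt (hO.mem_nhds (x := (t, y)) hy)).differentiableAt
    (by simp)).hasFDerivAt.comp y (hasFDerivAt_prodMk_right t y)
  have k4 := (hasFDerivAt_id (𝕜 := ℝ) y).sub_const c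
  have k5 := (((((hw.contDiffAt (isOpen_ball.mem_nhds (moser_mem hy (h1 t)))).differentiableAt
    (by simp)).hasFDerivAt.comp y ((k4.const_smul (S t)).const_add c)).clm_apply k4).const_smul (a t))
  refine (congrArg (· u) (k3.unique k5)).trans ?_
  simp

theorem moser_der {W : Type} [NormedAddCommGroup W] [NormedSpace ℝ W] {c y : V} {r : ℝ}
    {w : V → W} (hw : ContDiffOn ℝ ∞ w (ball c r)) {S : ℝ → ℝ} (hS : ContDiff ℝ ∞ S)
    (h1 : ∀ x, 0 ≤ S x ∧ S x ≤ 1) (hy : y ∈ ball c r) (t : ℝ) :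
    HasDerivAt (fun t => w (c + S t • (y - c)))
      (deriv S t • fderiv ℝ w (c + S t • (y - c)) (y - c)) t := by
  rw [← map_smul]
  exact ((hw.contDiffAt (isOpen_ball.mem_nhds (moser_mem hy (h1 t)))).differentiableAt
    (by simp)).hasFDerivAt.comp_hasDerivAt t
    (((hS.differentiable (by simp) t).hasDerivAt.smul_const (y - c)).const_add c)

theorem moser_skew {U : Set V} (hU : IsOpen U) {w : V → B2 V} (hw : Form2On U w) {y : V}
    (hy : y ∈ U) (a u v : V) : fderiv ℝ w y a u v = -fderiv ℝ w y a v u := by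
  have k := ((hw.smooth.contDiffAt (hU.mem_nhds hy)).differentiableAt (by simp)).hasFDerivAt
  have k1 := fun u v : V => (k.clm_apply (hasFDerivAt_const u y)).clm_apply (hasFDerivAt_const v y)
  have k2 := (k1 u v).unique ((k1 v u).neg.congr_of_eventuallyEq
    (mem_of_superset (hU.mem_nhds hy) fun z hz => hw.skew z hz u v))
  simpa using congrArg (· a) k2

theorem poin2 {c : V} {r : ℝ} {w : V → B2 V} (hw : Form2On (ball c r) w) :
    ∃ l : V → B1 V, ContDiffOn ℝ ∞ l (ball c r) ∧ (∀ y ∈ ball c r, dd l y = w y) ∧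
      ∀ δ : ℝ, (∀ y ∈ ball c r, ‖w y‖ ≤ δ) → ∀ y ∈ ball c r, ‖l y‖ ≤ δ * ‖y - c‖ := by
  obtain ⟨S, hS, S0, S1, h1, h2⟩ := exists_step (zero_lt_one' ℝ)
  obtain ⟨hS', hd⟩ := contDiff_infty_iff_deriv.1 hS
  obtain ⟨k1, k2⟩ := moser_rad hw.smooth hS h1 (hd.mul hS)
  refine ⟨_, k1, fun y hy => b2_ext fun u v => ?_, fun δ hδ y hy => ?_⟩
  · obtain ⟨D, d1, d2, d3⟩ := k2 y hy u
    obtain ⟨E, e1, e2, e3⟩ := k2 y hy v
    have d4 := d1.clm_apply (continuous_const (y := v))
    have e4 := e1.clm_apply (continuous_const (y := u))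
    rw [dd_apply, d2, e2, ContinuousLinearMap.intervalIntegral_apply (d1.intervalIntegrable 0 1),
      ContinuousLinearMap.intervalIntegral_apply (e1.intervalIntegrable 0 1),
      ← intervalIntegral.integral_sub (d4.intervalIntegrable 0 1) (e4.intervalIntegrable 0 1),
      intervalIntegral.integral_eq_sub_of_hasDerivAt
        (f := fun t => S t * S t * w (c + S t • (y - c)) u v) (f' := fun t => D t v - E t u)
        (fun t _ => ?_)
        ((d4.sub e4).intervalIntegrable 0 1)]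
    · simp [S0, S1]
    · have m := moser_mem hy (h1 t)
      refine (((hS' t).hasDerivAt.mul (hS' t).hasDerivAt).mul
        (((moser_der hw.smooth hS h1 hy t).clm_apply (hasDerivAt_const t u)).clm_apply
          (hasDerivAt_const t v))).congr_deriv ?_
      have q1 := hw.closed _ m u (y - c) v
      have q2 := moser_skew isOpen_ball hw m v (y - c) u
      have q3 := moser_skew isOpen_ball hw m (y - c) v u
      have q4 := hw.skew _ m v u
      simp only [d3, e3, smul_apply, add_apply, smul_eq_mul,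
        map_zero, add_zero, Pi.mul_apply]
      rw [q2, q4]
      linear_combination -(deriv S t * S t * S t) * (q1 - q3)
  · refine (intervalIntegral.norm_integral_le_of_norm_le (g := fun t => deriv S t * (δ * ‖y - c‖))
      zero_le_one (.of_forall fun t _ => ?_)
      ((hd.continuous.mul continuous_const).intervalIntegrable 0 1)).trans_eq ?_
    · have m := hδ _ (moser_mem hy (h1 t))
      rw [norm_smul, Real.norm_of_nonneg (mul_nonneg (h2 t) (h1 t).1)]
      exact mul_le_mul (mul_le_of_le_one_right (h2 t) (h1 t).2)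
        ((ContinuousLinearMap.le_opNorm _ _).trans (by gcongr)) (norm_nonneg _) (h2 t)
    · rw [intervalIntegral.integral_mul_const, intervalIntegral.integral_deriv_eq_sub
        (fun t _ => hS' t) (hd.continuous.intervalIntegrable 0 1)]
      simp [S0, S1]

theorem poin1 {c : V} {r : ℝ} {l : V → B1 V} (hl : ContDiffOn ℝ ∞ l (ball c r))
    (h : ∀ y ∈ ball c r, dd l y = 0) :
    ∃ g : V → ℝ, ContDiffOn ℝ ∞ g (ball c r) ∧ ∀ y ∈ ball c r, fderiv ℝ g y = l y := by
  obtain ⟨S, hS, S0, S1, h1, -⟩ := exists_step (zero_lt_one' ℝ)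
  obtain ⟨hS', hd⟩ := contDiff_infty_iff_deriv.1 hS
  obtain ⟨k1, k2⟩ := moser_rad hl hS h1 hd
  refine ⟨_, k1, fun y hy => ContinuousLinearMap.ext fun u => ?_⟩
  obtain ⟨D, d1, d2, d3⟩ := k2 y hy u
  rw [d2, intervalIntegral.integral_eq_sub_of_hasDerivAt
    (f := fun t => S t * l (c + S t • (y - c)) u) (fun t _ => ?_) (d1.intervalIntegrable 0 1)]
  · simp [S0, S1]
  · refine ((hS' t).hasDerivAt.mul
      ((moser_der hl hS h1 hy t).clm_apply (hasDerivAt_const t u))).congr_deriv ?_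
    have q := dd_apply l (c + S t • (y - c)) u (y - c)
    rw [h _ (moser_mem hy (h1 t))] at q
    simp only [d3, smul_apply, zero_apply, smul_eq_mul,
      map_zero, add_zero] at q ⊢
    linear_combination (deriv S t * S t) * q

theorem moser_flow {Y : ℝ × V → V} (hY : ContDiff ℝ ∞ Y) {K : Set (ℝ × V)} (hK : IsCompact K)
    (h0 : ∀ p, p ∉ K → Y p = 0) : ∃ (φ : ℝ × V → V) (ψ : Dif V), ContDiff ℝ ∞ φ ∧
      (∀ y, φ (0, y) = y) ∧ (∀ y, ψ y = φ (1, y)) ∧
      (∀ t y, HasDerivAt (fun s => φ (s, y)) (Y (t, φ (t, y))) t) ∧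
      ∀ y, (∀ t, Y (t, y) = 0) → ψ y = y := by
  have hX : ContDiff ℝ ∞ fun p => ((1 : ℝ), Y p) := contDiff_const.prodMk hY
  obtain ⟨L, hL⟩ := lip_of_const hX hK (c := (1, 0)) fun p hp => by rw [h0 p hp]
  obtain ⟨F⟩ := exists_Flow hX hL
  have k1 : ∀ t p, (F.φ t p).1 = t + p.1 := fun t p => by
    have d : ∀ s, HasDerivAt (fun s => (F.φ s p).1 - s) (1 - 1) s := fun s =>
      ((ContinuousLinearMap.fst ℝ ℝ V).hasFDerivAt.comp_hasDerivAt s (F.deriv s p)).sub
        (hasDerivAt_id s)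
    have e := is_const_of_deriv_eq_zero (fun s => (d s).differentiableAt)
      (fun s => (d s).deriv.trans (sub_self _)) t 0
    rw [F.zero] at e
    linarith
  have k2 : ∀ t a y b, t + a = b → (b, (F.φ t (a, y)).2) = F.φ t (a, y) := fun t a y b h =>
    Prod.ext (h ▸ (k1 t (a, y)).symm) rfl
  have k3 : ∀ a : ℝ, ContDiff ℝ ∞ fun p : ℝ × V => (F.φ p.1 (a, p.2)).2 := fun a =>
    (F.smooth.comp (contDiff_fst.prodMk (contDiff_const.prodMk contDiff_snd))).snd
  refine ⟨fun p => (F.φ p.1 (0, p.2)).2, ⟨⟨fun y => (F.φ 1 (0, y)).2, fun y => (F.φ (-1) (1, y)).2,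
    fun y => ?_, fun y => ?_⟩, (k3 0).comp (contDiff_prodMk_right 1),
    (k3 1).comp (contDiff_prodMk_right (-1))⟩, k3 0, fun y => ?_, fun y => rfl, fun t y => ?_,
    fun y hy => ?_⟩
  · simp only
    rw [k2 1 0 y 1 (add_zero 1), ← F.add, neg_add_cancel, F.zero]
  · simp only
    rw [k2 (-1) 1 y 0 (neg_add_cancel 1), ← F.add, add_neg_cancel, F.zero]
  · simp only [F.zero]
  · simp only
    rw [k2 t 0 y t (add_zero t)]
    exact (ContinuousLinearMap.snd ℝ ℝ V).hasFDerivAt.comp_hasDerivAt t (F.deriv t (0, y))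
  · exact congrArg Prod.snd (ode_unique isOpen_univ (hX.of_le (by simp)).contDiffOn (a := -1) (b := 2)
      (t₀ := 0) (by norm_num) (c := fun t => F.φ t (0, y)) (c' := fun t => (t, y))
      (fun t _ => ⟨trivial, F.deriv t _⟩) (fun t _ => ⟨trivial, by
        rw [hy]; exact (hasDerivAt_id t).prodMk (hasDerivAt_const t y)⟩) (F.zero _) 1 (by norm_num))

theorem moser {U : Set V} (hU : IsOpen U) {w0 : V → B2 V} (h0 : Form2On U w0) {l : V → B1 V}
    (hl : ContDiffOn ℝ ∞ l U) (hn : ∀ s ∈ Icc (0 : ℝ) 1, ∀ y ∈ U, Nd (w0 y + s • dd l y))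
    {χ : V → ℝ} (hχ : ContDiff ℝ ∞ χ) {K : Set V} (hK : IsCompact K) (hKU : K ⊆ U)
    (hχ0 : ∀ y, y ∉ K → χ y = 0) (hχ1 : ∀ y, 0 ≤ χ y ∧ χ y ≤ 1) {C : ℝ} (hC0 : 0 ≤ C)
    (hC : ∀ s ∈ Icc (0 : ℝ) 1, ∀ y ∈ K, ‖sharp (w0 y + s • dd l y) (l y)‖ ≤ C) :
    ∃ φ : Dif V, (∀ y, ‖φ y - y‖ ≤ C) ∧ (∀ y, y ∉ K ∨ l y = 0 → φ y = y) ∧
      ∀ O, IsOpen O → O ⊆ U → (∀ z ∈ O, χ z • l z = l z) → ∀ y, closedBall y C ⊆ O →
        pull2 φ (fun z => w0 z + dd l z) y = w0 y := by
  obtain ⟨S, hS, S0, S1, h1, h2⟩ := exists_step (zero_lt_one' ℝ)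
  obtain ⟨hS', hd⟩ := contDiff_infty_iff_deriv.1 hS
  have hO : IsOpen (Prod.snd ⁻¹' U : Set (ℝ × V)) := hU.preimage continuous_snd
  have hΩ : ContDiffOn ℝ ∞ (fun p : ℝ × V => w0 p.2 + S p.1 • dd l p.2) (Prod.snd ⁻¹' U) :=
    (h0.smooth.comp contDiffOn_snd fun _ hp => hp).add ((hS.comp contDiff_fst).contDiffOn.smul
      ((contDiffOn_dd hU hl).comp contDiffOn_snd fun _ hp => hp))
  obtain ⟨Y, hY⟩ : ∃ Y : ℝ × V → V, ∀ p, Y p =
      (-deriv S p.1 * χ p.2) • sharp (w0 p.2 + S p.1 • dd l p.2) (l p.2) := ⟨_, fun _ => rfl⟩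
  have Y0 : ∀ p, p ∉ Icc (0 : ℝ) 1 ×ˢ K → Y p = 0 := fun p hp => by
    rw [hY]
    by_cases k : p.2 ∈ K
    · have e : deriv S p.1 = 0 := by
        rcases lt_or_ge p.1 0 with q | q
        · exact (EventuallyEq.deriv_eq (mem_of_superset (Iio_mem_nhds q) fun x hx =>
            S0 x hx.le)).trans (deriv_const _ _)
        · exact (EventuallyEq.deriv_eq (mem_of_superset (Ioi_mem_nhds
            (not_le.1 fun q' => hp ⟨⟨q, q'⟩, k⟩)) fun x hx => S1 x hx.le)).trans (deriv_const _ _)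
      simp [e]
    · simp [hχ0 _ k]
  have Y1 : ContDiff ℝ ∞ Y := by
    refine contDiff_of_supp hO (isClosed_Icc.prod hK.isClosed) (fun p hp => hKU hp.2) ?_ Y0
    rw [funext hY]
    exact ((hd.comp contDiff_fst).neg.mul (hχ.comp contDiff_snd)).contDiffOn.smul
      (contDiffOn_sharp.comp (hΩ.prodMk (hl.comp contDiffOn_snd fun _ hp => hp))
        fun p hp => hn _ (h1 _) _ hp)
  obtain ⟨φ, ψ, f1, f2, f3, f4, f5⟩ := moser_flow Y1 (isCompact_Icc.prod hK) Y0
  have dis : ∀ y, ∀ t ∈ Icc (0 : ℝ) 1, ‖φ (t, y) - y‖ ≤ C := fun y t ht => by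
    have d := fun t => (f4 t y).sub_const y
    refine (image_norm_le_of_norm_deriv_right_le_deriv_boundary (B := fun t => S t * C)
      (fun t _ => (d t).continuousAt.continuousWithinAt) (fun t _ => (d t).hasDerivWithinAt)
      (by simp [f2, S0]) (fun t => (hS' t).hasDerivAt.mul_const C) (fun t _ => ?_) ht).trans
      (mul_le_of_le_one_left hC0 (h1 t).2)
    rw [hY]
    by_cases k : φ (t, y) ∈ K
    · rw [norm_smul, neg_mul, norm_neg, Real.norm_of_nonneg (mul_nonneg (h2 _) (hχ1 _).1)]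
      exact mul_le_mul (mul_le_of_le_one_right (h2 _) (hχ1 _).2) (hC _ (h1 _) _ k) (norm_nonneg _)
        (h2 _)
    · simpa [hχ0 _ k] using mul_nonneg (h2 t) hC0
  refine ⟨ψ, fun y => f3 y ▸ dis y 1 (by simp), fun y hy => f5 y fun t => ?_,
    fun O o1 o2 o3 y hy => ?_⟩
  · rcases hy with hy | hy
    · exact Y0 _ fun k => hy k.2
    · simp [hY, hy, sharp_zero]
  have k := inv_const (O := Prod.snd ⁻¹' O) (o1.preimage continuous_snd) f1 Y1 f4
    (hΩ.mono fun p hp => o2 hp)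
    (fun p hp => (h0.skew _ (o2 hp)).add ((skew_dd l _).smul _))
    (fun p hp => (h0.add hU ((form_dd hU hl).smul hU (S p.1))).closed _ (o2 hp))
    (fun p hp => ?_) (a := 0) (b := 1) (y := y) fun s hs =>
      hy (mem_closedBall_iff_norm.2 (dis y s (by simpa using hs)))
  · simp only [S0 0 le_rfl, S1 1 le_rfl, one_smul, zero_smul, add_zero, f2, ← f3] at k
    rw [k, pull2, fderiv_fun_id, pb_id]
  · obtain ⟨t, z⟩ := p
    have e1 := ((hΩ.contDiffAt (hO.mem_nhds (o2 hp))).differentiableAt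
      (by simp)).hasFDerivAt.comp_hasDerivAt t ((hasDerivAt_id t).prodMk (hasDerivAt_const t z))
    have e2 := e1.unique (((hS' t).hasDerivAt.smul_const (dd l z)).const_add (w0 z))
    have e3 : (fun z => (w0 z + S t • dd l z) (Y (t, z))) =ᶠ[𝓝 z] fun z => -deriv S t • l z :=
      mem_of_superset (o1.mem_nhds hp) fun x hx => by
        change (w0 x + S t • dd l x) (Y (t, x)) = -deriv S t • l x
        rw [hY, map_smul, sharp_spec (hn _ (h1 _) _ (o2 hx)), mul_smul, o3 x hx]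
    rw [e2, dd_congr e3, dd_smul (differentiableAt_const _)
      ((hl.contDiffAt (hU.mem_nhds (o2 hp))).differentiableAt (by simp)), fderiv_fun_const,
      Pi.zero_apply, wedge_zero_left, zero_add, neg_smul, add_neg_cancel]

theorem darb {w0 : B2 V} (hs : Skew w0) (hn : Nd w0) {κ : ℝ} (hκ : 0 < κ) : ∃ δ : ℝ, 0 < δ ∧
    ∀ R : ℝ, 0 < R → ∀ w : V → B2 V, Form2On (ball 0 (3 * R)) w →
      (∀ y ∈ ball (0 : V) (3 * R), ‖w y - w0‖ ≤ δ) → ∃ φ : Dif V, (∀ y, ‖φ y - y‖ ≤ κ * R) ∧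
        ∀ y, ‖y‖ ≤ 2 * R → φ y ∈ ball (0 : V) (3 * R) ∧ pull2 φ w y = w0 := by
  obtain ⟨δ, C, hδ, hC, h⟩ := sharp_bound hn
  have hk : 0 < min κ (1 / 4) := lt_min hκ (by norm_num)
  refine ⟨min δ (min κ (1 / 4) / (3 * C)), lt_min hδ (by positivity), fun R hR w hw hb => ?_⟩
  obtain ⟨l, l1, l2, l3⟩ := poin2 (hw.sub isOpen_ball (form_const hs _))
  obtain ⟨χ, c1, c2, c3, c4⟩ := exists_ball_cut (0 : V) (r := 5 / 2 * R) (R := 11 / 4 * R)
    (by positivity) (by linarith)
  have k1 : ∀ s ∈ Icc (0 : ℝ) 1, ∀ y ∈ ball (0 : V) (3 * R), ‖w0 + s • dd l y - w0‖ ≤ δ :=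
    fun s hs y hy => by
      rw [add_sub_cancel_left, l2 y hy, norm_smul, Real.norm_of_nonneg hs.1]
      exact (mul_le_of_le_one_left (norm_nonneg _) hs.2).trans ((hb y hy).trans (min_le_left _ _))
  have k2 : closedBall (0 : V) (11 / 4 * R) ⊆ ball 0 (3 * R) := closedBall_subset_ball (by linarith)
  obtain ⟨φ, f1, -, f3⟩ := moser isOpen_ball (form_const hs _) l1 (fun s hs y hy => (h _ (k1 s hs y hy)).1)
    c1 (isCompact_closedBall _ _) k2 (fun y hy => c3 y (not_le.1 (mt mem_closedBall_iff_norm.2 hy)).le)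
    c4 (C := min κ (1 / 4) * R) (by positivity) fun s hs y hy => by
      refine ((h _ (k1 s hs y (k2 hy))).2 _).trans ?_
      have q1 := l3 _ (fun z hz => (hb z hz).trans (min_le_right _ _)) y (k2 hy)
      have q2 := (mem_ball_iff_norm.1 (k2 hy)).le
      calc C * ‖l y‖ ≤ C * (min κ (1 / 4) / (3 * C) * (3 * R)) := by gcongr; exact q1.trans (by gcongr)
        _ = _ := by field_simp
  have k3 : min κ (1 / 4) * R ≤ 1 / 4 * R := by gcongr; exact min_le_right _ _
  refine ⟨φ, fun y => (f1 y).trans (by gcongr; exact min_le_left _ _), fun y hy => ?_⟩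
  have k4 : φ y ∈ ball (0 : V) (3 * R) := by
    rw [mem_ball_zero_iff]
    linarith [norm_le_norm_add_norm_sub' (φ y) y, f1 y]
  refine ⟨k4, Eq.trans ?_ (f3 (ball 0 (5 / 2 * R)) isOpen_ball (ball_subset_ball (by linarith))
    (fun z hz => by rw [c2 z (mem_ball_iff_norm.1 hz).le, one_smul]) y
    (closedBall_subset_ball' (by rw [dist_zero_right]; linarith)))⟩
  rw [pull2, pull2, l2 _ k4, add_sub_cancel]

end Pool.Agent.Work.MP_bf98aa_gt.Ns
end
end

-- merged part: Pool.Agent.Work.MP_bf98aa_gt.Ns.Cor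
section
/-!
The corrugation step and the step at a critical point, in a chart.
cor_one. delta = - sharp T nu (zero off K), xi = T ef, R = C chi with chi = 1 on K (exists_cut) and C > 2 sup |j delta|, d(y,sig) = 2 sig^2 delta + R sig ef, u = ep + d, u' = - j(u) ep + p(u) ef,
G v = v - p(v) ep - j(v) ef + p(v) u + j(v) u' is injective because (p u, j u) <> 0. For a, b in ker j: pb G T a b = (T + wedge p (T d)) a b, T d = -2 sig^2 nu + sig R xi. S = pb G T - T - wedge p (T d) is skew and vanishes on ker j, so S = wedge j (S ef).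
sig = sin (p y / eps), gamma = eps (1/2 sin (2 p y/eps) nu - cos (p y/eps) R xi), theta = S ef; the new form is pb G T + eps E with E = 1/2 sin(2..) dd nu - cos(..) dd (R xi) bounded. Homotopy: sig -> lambda sig, eps -> lambda eps; nd_margin on the compact family (y in K', sig in [-1,1]).
cor_all. Take a basis e i adapted to j (a vector ef with j ef = 1 and a basis of ker j, dual covectors p i): beta = 1/2 sum wedge (p i) (beta (e i)) + 1/2 wedge j (beta ef). Induct over a Finset of indices with cor_one, HtpE.trans.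
crit. On a small ball around c all convex combinations of tau y and tau c are Nd; beta = chi (tau c - tau y); gamma = chi * poin2 primitive of (tau c - w).
-/

set_option autoImplicit false
set_option maxSynthPendingDepth 3
set_option linter.unusedSectionVars false
set_option linter.unusedVariables false

open Set Filter Topology Metric
open scoped Manifold ContDiff

noncomputable section
namespace Pool.Agent.Work.MP_bf98aa_gt.Ns

open Pool.Agent.Work.MP_8c604c_gt

variable {V V' V'' : Type} [NormedAddCommGroup V] [NormedSpace ℝ V] [FiniteDimensional ℝ V]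
  [NormedAddCommGroup V'] [NormedSpace ℝ V'] [FiniteDimensional ℝ V']
  [NormedAddCommGroup V''] [NormedSpace ℝ V''] [FiniteDimensional ℝ V''] {m : ℕ}

theorem HtpE.refl {U : Set V} {T : V → B2 V} (hc : ContinuousOn T U)
    (h : ∀ y ∈ U, Skew (T y) ∧ Nd (T y)) (K : Set V) : HtpE U K T T := by
  exact ⟨fun _ y => T y, hc.comp continuousOn_snd fun p hp => hp.2, fun y _ => ⟨rfl, rfl⟩,
    fun _ _ y hy => h y hy, fun _ _ _ _ _ => rfl⟩

theorem HtpE.trans {U K K' : Set V} {T T' T'' : V → B2 V} (h : HtpE U K T T')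
    (h' : HtpE U K' T' T'') : HtpE U (K ∪ K') T T'' := by
  obtain ⟨H, c1, e1, n1, k1⟩ := h
  obtain ⟨H', c2, e2, n2, k2⟩ := h'
  have m1 : ∀ t ∈ Icc (0 : ℝ) 1, min (2 * t) 1 ∈ Icc (0 : ℝ) 1 := fun t ht =>
    ⟨le_min (by linarith [ht.1]) zero_le_one, min_le_right _ _⟩
  have m2 : ∀ t ∈ Icc (0 : ℝ) 1, max (2 * t - 1) 0 ∈ Icc (0 : ℝ) 1 := fun t ht =>
    ⟨le_max_right _ _, max_le (by linarith [ht.2]) zero_le_one⟩
  have m0 : (0 : ℝ) ∈ Icc (0 : ℝ) 1 := ⟨le_rfl, zero_le_one⟩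
  have m3 : (1 : ℝ) ∈ Icc (0 : ℝ) 1 := ⟨zero_le_one, le_rfl⟩
  refine ⟨fun t y => H (min (2 * t) 1) y + H' (max (2 * t - 1) 0) y - H' 0 y, ?_, ?_, ?_, ?_⟩
  · have a1 : ContinuousOn (fun p : ℝ × V => H (min (2 * p.1) 1) p.2) (Icc 0 1 ×ˢ U) :=
      c1.comp (f := fun p : ℝ × V => (min (2 * p.1) 1, p.2)) (by fun_prop)
        fun p hp => ⟨m1 _ hp.1, hp.2⟩
    have a2 : ContinuousOn (fun p : ℝ × V => H' (max (2 * p.1 - 1) 0) p.2) (Icc 0 1 ×ˢ U) :=
      c2.comp (f := fun p : ℝ × V => (max (2 * p.1 - 1) 0, p.2)) (by fun_prop)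
        fun p hp => ⟨m2 _ hp.1, hp.2⟩
    have a3 : ContinuousOn (fun p : ℝ × V => H' 0 p.2) (Icc 0 1 ×ˢ U) :=
      c2.comp (f := fun p : ℝ × V => ((0 : ℝ), p.2)) (by fun_prop) fun p hp => ⟨m0, hp.2⟩
    exact (a1.add a2).sub a3
  · intro y hy
    constructor
    · have a1 : min (2 * (0 : ℝ)) 1 = 0 := by norm_num
      have a2 : max (2 * (0 : ℝ) - 1) 0 = 0 := by norm_num
      simp only [a1, a2]
      rw [add_sub_cancel_right, (e1 y hy).1]
    · have a1 : min (2 * (1 : ℝ)) 1 = 1 := by norm_num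
      have a2 : max (2 * (1 : ℝ) - 1) 0 = 1 := by norm_num
      simp only [a1, a2]
      rw [(e1 y hy).2, (e2 y hy).1, (e2 y hy).2, add_sub_cancel_left]
  · intro t ht y hy
    rcases le_total (2 * t) 1 with h | h
    · have a2 : max (2 * t - 1) 0 = 0 := max_eq_right (by linarith)
      simp only [a2]
      rw [add_sub_cancel_right]
      exact n1 _ (m1 t ht) y hy
    · have a1 : min (2 * t) 1 = 1 := min_eq_right h
      simp only [a1]
      rw [(e1 y hy).2, (e2 y hy).1, add_sub_cancel_left]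
      exact n2 _ (m2 t ht) y hy
  · intro t ht y hy hK
    have h1 : y ∉ K := fun h => hK (Or.inl h)
    have h2 : y ∉ K' := fun h => hK (Or.inr h)
    simp only
    rw [k1 _ (m1 t ht) y hy h1, k2 _ (m2 t ht) y hy h2, k2 _ m0 y hy h2, add_sub_cancel_right]

theorem HtpE.nd {U K : Set V} {T T' : V → B2 V} (h : HtpE U K T T') :
    ∀ y ∈ U, Skew (T' y) ∧ Nd (T' y) := by
  obtain ⟨H, -, e1, n1, -⟩ := h
  intro y hy
  rw [← (e1 y hy).2]
  exact n1 1 ⟨zero_le_one, le_rfl⟩ y hy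

theorem cor_congr {U K : Set V} {T T' T'' : V → B2 V} (h : HtpE U K T T')
    (e : ∀ y ∈ U, T' y = T'' y) : HtpE U K T T'' := by
  obtain ⟨H, c1, e1, n1, k1⟩ := h
  exact ⟨H, c1, fun y hy => ⟨(e1 y hy).1, (e1 y hy).2.trans (e y hy)⟩, n1, k1⟩

/-- The correction of the second vector. -/
def cor_e (p j : B1 V) (ep ef d : V) : V := p d • ef - j d • ep

/-- The covector that goes with `j`. -/
def cor_th (p j : B1 V) (ep ef : V) (T : B2 V) (d : V) : B1 V :=
  T (cor_e p j ep ef d) + T (cor_e p j ep ef d) d • p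

/-- The pulled back form. -/
def cor_Phi (p j : B1 V) (ep ef : V) (T : B2 V) (d : V) : B2 V :=
  T + wedge p (T d) + wedge j (cor_th p j ep ef T d)

theorem cor_th_zero (p j : B1 V) (ep ef : V) (T : B2 V) : cor_th p j ep ef T 0 = 0 := by
  simp [cor_th, cor_e]

theorem cor_Phi_zero (p j : B1 V) (ep ef : V) (T : B2 V) : cor_Phi p j ep ef T 0 = T := by
  rw [cor_Phi, cor_th_zero, map_zero, wedge_zero_right, wedge_zero_right, add_zero, add_zero]

theorem cor_th_cd (p j : B1 V) (ep ef : V) :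
    ContDiff ℝ ∞ fun q : B2 V × V => cor_th p j ep ef q.1 q.2 := by
  have h1 : ContDiff ℝ ∞ fun q : B2 V × V => cor_e p j ep ef q.2 :=
    ((p.contDiff.comp contDiff_snd).smul contDiff_const).sub
      ((j.contDiff.comp contDiff_snd).smul contDiff_const)
  have h2 : ContDiff ℝ ∞ fun q : B2 V × V => q.1 (cor_e p j ep ef q.2) :=
    contDiff_fst.clm_apply h1
  exact h2.add ((h2.clm_apply contDiff_snd).smul contDiff_const)

theorem cor_wedge_cd {X : Type} [NormedAddCommGroup X] [NormedSpace ℝ X] (q : B1 V)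
    {f : X → B1 V} (hf : ContDiff ℝ ∞ f) : ContDiff ℝ ∞ fun y => wedge q (f y) := by
  have h := contDiff_wedge.comp ((contDiff_const (c := q)).prodMk hf)
  simpa only [Function.comp_def] using h

theorem cor_Phi_cont (p j : B1 V) (ep ef : V) :
    Continuous fun q : B2 V × V => cor_Phi p j ep ef q.1 q.2 := by
  have h1 := cor_wedge_cd p (f := fun q : B2 V × V => q.1 q.2) (contDiff_fst.clm_apply contDiff_snd)
  have h2 := cor_wedge_cd j (cor_th_cd p j ep ef)
  have h3 := ((contDiff_fst.add h1).add h2).continuous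
  simpa only [cor_Phi] using h3

theorem cor_Phi_skew (p j : B1 V) (ep ef : V) {T : B2 V} (hs : Skew T) (d : V) :
    Skew (cor_Phi p j ep ef T d) :=
  (hs.add (skew_wedge _ _)).add (skew_wedge _ _)

theorem cor_Phi_nd {p j : B1 V} {ep ef : V} (h1 : p ep = 1) (h2 : j ep = 0) (h3 : p ef = 0)
    (h4 : j ef = 1) {T : B2 V} (hs : Skew T) (hn : Nd T) {d : V} (h : 1 + p d ≠ 0 ∨ j d ≠ 0) :
    Nd (cor_Phi p j ep ef T d) := by
  let G : V →L[ℝ] V :=
    ContinuousLinearMap.id ℝ V + p.smulRight d + j.smulRight (cor_e p j ep ef d)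
  have hG : ∀ v, G v = v + p v • d + j v • cor_e p j ep ef d := fun v => rfl
  have hp : p (cor_e p j ep ef d) = -j d := by simp [cor_e, h1, h3]
  have hj : j (cor_e p j ep ef d) = p d := by simp [cor_e, h2, h4]
  have hinj : Function.Injective G := by
    rw [injective_iff_map_eq_zero]
    intro v hv
    have a1 := congrArg p hv
    have a2 := congrArg j hv
    rw [hG, map_add, map_add, map_smul, map_smul, map_zero] at a1 a2
    rw [hp, smul_eq_mul, smul_eq_mul] at a1
    rw [hj, smul_eq_mul, smul_eq_mul] at a2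
    have a3 : (1 + p d) ^ 2 + j d ^ 2 ≠ 0 := by
      rcases h with h | h <;> positivity
    have a4 : p v = 0 := by
      apply mul_left_cancel₀ a3
      linear_combination (1 + p d) * a1 + j d * a2
    have a5 : j v = 0 := by
      apply mul_left_cancel₀ a3
      linear_combination (1 + p d) * a2 - j d * a1
    rw [hG, a4, a5, zero_smul, zero_smul, add_zero, add_zero] at hv
    exact hv
  have hbij : Function.Bijective G :=
    ⟨hinj, (LinearMap.injective_iff_surjective (f := (G : V →ₗ[ℝ] V))).1 hinj⟩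
  have e : cor_Phi p j ep ef T d = pb G T := by
    refine b2_ext fun a b => ?_
    rw [pb_apply, hG, hG, cor_Phi, cor_th]
    generalize cor_e p j ep ef d = e
    simp only [add_apply, wedge_apply, map_add, map_smul,
      smul_apply, smul_eq_mul]
    rw [hs.self d, hs.self e, hs a d, hs a e, hs d e]
    ring
  rw [e]
  exact nd_pb hn hbij

theorem cor_alg {p j : B1 V} {ep ef : V} (h1 : p ep = 1) (h2 : j ep = 0) (h3 : p ef = 0)
    (h4 : j ef = 1) : ∃ (Φ : B2 V × V → B2 V) (θ : B2 V × V → B1 V), Continuous Φ ∧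
      ContDiff ℝ ∞ θ ∧ (∀ T, θ (T, 0) = 0) ∧ (∀ T, Φ (T, 0) = T) ∧
      (∀ T d, Φ (T, d) = T + wedge p (T d) + wedge j (θ (T, d))) ∧
      (∀ T d, Skew T → Skew (Φ (T, d))) ∧
      ∀ T d, Skew T → Nd T → 1 + p d ≠ 0 ∨ j d ≠ 0 → Nd (Φ (T, d)) :=
  ⟨fun q => cor_Phi p j ep ef q.1 q.2, fun q => cor_th p j ep ef q.1 q.2, cor_Phi_cont p j ep ef,
    cor_th_cd p j ep ef, cor_th_zero p j ep ef, cor_Phi_zero p j ep ef, fun _ _ => rfl,
    fun _ d hs => cor_Phi_skew p j ep ef hs d, fun _ _ hs hn h => cor_Phi_nd h1 h2 h3 h4 hs hn h⟩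

theorem cor_dd_zero {K : Set V} (hK : IsClosed K) {θ : V → B1 V} (h : ∀ y, y ∉ K → θ y = 0)
    {y : V} (hy : y ∉ K) : dd θ y = 0 := by
  have e : θ =ᶠ[𝓝 y] fun _ => 0 :=
    Filter.eventually_of_mem (hK.isOpen_compl.mem_nhds hy) fun z hz => h z hz
  rw [dd_congr e, dd_const]

theorem cor_dd_gam (p : B1 V) {ν ρ : V → B1 V} (hν : ContDiff ℝ ∞ ν) (hρ : ContDiff ℝ ∞ ρ)
    {ε : ℝ} (hε : ε ≠ 0) (y : V) :
    dd (fun z => (ε / 2 * Real.sin (2 * (p z / ε))) • ν z - (ε * Real.cos (p z / ε)) • ρ z) y =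
      wedge p (ν y) + wedge p (Real.sin (p y / ε) • ρ y - (2 * Real.sin (p y / ε) ^ 2) • ν y) +
        ε • ((1 / 2 * Real.sin (2 * (p y / ε))) • dd ν y - Real.cos (p y / ε) • dd ρ y) := by
  have d0 : HasFDerivAt (fun z => p z / ε) (ε⁻¹ • p) y := by
    have := p.hasFDerivAt (x := y) |>.const_smul ε⁻¹
    refine this.congr_of_eventuallyEq (Filter.Eventually.of_forall fun z => ?_)
    simp [div_eq_inv_mul]
  have d1 := ((d0.const_mul 2).sin).const_mul (ε / 2)
  have d2 := (d0.cos).const_mul ε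
  have dν : DifferentiableAt ℝ ν y := hν.differentiable (by simp) y
  have dρ : DifferentiableAt ℝ ρ y := hρ.differentiable (by simp) y
  rw [dd_sub (d1.differentiableAt.fun_smul dν) (d2.differentiableAt.fun_smul dρ),
    dd_smul d1.differentiableAt dν, dd_smul d2.differentiableAt dρ, d1.fderiv, d2.fderiv]
  refine b2_ext fun a b => ?_
  simp only [add_apply, sub_apply, wedge_apply,
    smul_apply, smul_eq_mul, Real.cos_two_mul, Real.cos_sq']
  field_simp
  ring

theorem cor_one {U : Set V} (hU : IsOpen U) {T : V → B2 V} (hT : ContDiffOn ℝ ∞ T U)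
    (hn : ∀ y ∈ U, Skew (T y) ∧ Nd (T y)) {ν : V → B1 V} (hν : ContDiff ℝ ∞ ν) {K : Set V}
    (hK : IsCompact K) (hKU : K ⊆ U) (h0 : ∀ y, y ∉ K → ν y = 0) {p j : B1 V} {ep ef : V}
    (h1 : p ep = 1) (h2 : j ep = 0) (h3 : p ef = 0) (h4 : j ef = 1) :
    ∃ (γ θ : V → B1 V) (K' : Set V), IsCompact K' ∧ K' ⊆ U ∧ ContDiff ℝ ∞ γ ∧ ContDiff ℝ ∞ θ ∧
      (∀ y, y ∉ K' → γ y = 0 ∧ θ y = 0) ∧
      HtpE U K' T fun y => T y - wedge p (ν y) + dd γ y + wedge j (θ y) := by
  obtain ⟨χ, K', O, hχ, hK', hK'U, -, hKO, hOK', hχ1, hχ0, -⟩ := exists_cut hK hU hKU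
  have hKK' : K ⊆ K' := hKO.trans hOK'
  obtain ⟨δ, hδ, hδ0, hδT⟩ : ∃ δ : V → V, ContDiff ℝ ∞ δ ∧ (∀ y, y ∉ K → δ y = 0) ∧
      ∀ y ∈ U, T y (δ y) = -ν y := by
    have a0 : ∀ y, y ∉ K → -sharp (T y) (ν y) = 0 := fun y hy => by
      rw [h0 y hy, sharp_zero, neg_zero]
    refine ⟨fun y => -sharp (T y) (ν y), contDiff_of_supp hU hK.isClosed hKU ?_ a0, a0,
      fun y hy => by rw [map_neg, sharp_spec (hn y hy).2]⟩
    exact (contDiffOn_sharp.comp (hT.prodMk hν.contDiffOn) fun y hy => (hn y hy).2).neg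
  obtain ⟨C0, hC0⟩ := hK.exists_bound_of_continuousOn
    (j.continuous.comp hδ.continuous).continuousOn
  obtain ⟨R, hR, hR0, hRK⟩ : ∃ R : V → ℝ, ContDiff ℝ ∞ R ∧ (∀ y, y ∉ K' → R y = 0) ∧
      ∀ y ∈ K, 2 * |j (δ y)| < R y := by
    refine ⟨fun y => (2 * C0 + 1) * χ y, contDiff_const.mul hχ,
      fun y hy => by simp only [hχ0 y hy, mul_zero], fun y hy => ?_⟩
    have := hC0 y hy
    rw [Function.comp_apply, Real.norm_eq_abs] at this
    simp only [hχ1 y (hKO hy)]
    linarith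
  have hρ0 : ∀ y, y ∉ K' → R y • T y ef = 0 := fun y hy => by rw [hR0 y hy, zero_smul]
  have hρ : ContDiff ℝ ∞ fun y => R y • T y ef :=
    contDiff_of_supp hU hK'.isClosed hK'U
      (hR.contDiffOn.smul (hT.clm_apply contDiffOn_const)) hρ0
  obtain ⟨d, hd, hd0, hdz, hdT, hdn⟩ : ∃ d : V × ℝ → V, ContDiff ℝ ∞ d ∧
      (∀ y s, y ∉ K' → d (y, s) = 0) ∧ (∀ y, d (y, 0) = 0) ∧
      (∀ y ∈ U, ∀ s, T y (d (y, s)) = s • (R y • T y ef) - (2 * s ^ 2) • ν y) ∧
      ∀ y s, |s| ≤ 1 → 1 + p (d (y, s)) ≠ 0 ∨ j (d (y, s)) ≠ 0 := by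
    refine ⟨fun q => (2 * q.2 ^ 2) • δ q.1 + (q.2 * R q.1) • ef, ?_, ?_, ?_, ?_, ?_⟩
    · exact ((contDiff_const.mul (contDiff_snd.pow 2)).smul (hδ.comp contDiff_fst)).add
        ((contDiff_snd.mul (hR.comp contDiff_fst)).smul contDiff_const)
    · intro y s hy
      simp [hδ0 y fun h => hy (hKK' h), hR0 y hy]
    · intro y
      simp
    · intro y hy s
      simp only [map_add, map_smul, hδT y hy, smul_smul, smul_neg]
      abel
    · intro y s hs
      simp only [map_add, map_smul, h3, h4, smul_eq_mul, mul_zero, add_zero, mul_one]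
      by_cases hy : y ∈ K
      · by_cases hs0 : s = 0
        · left
          simp [hs0]
        · right
          have a1 : |s * j (δ y)| ≤ |j (δ y)| := by
            rw [abs_mul]
            exact mul_le_of_le_one_left (abs_nonneg _) hs
          have a2 := hRK y hy
          have a3 : 2 * (s * j (δ y)) + R y ≠ 0 := by
            have := neg_abs_le (s * j (δ y))
            apply ne_of_gt
            linarith
          have a4 : 2 * s ^ 2 * j (δ y) + s * R y = s * (2 * (s * j (δ y)) + R y) := by ring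
          rw [a4]
          exact mul_ne_zero hs0 a3
      · left
        simp [hδ0 y hy]
  obtain ⟨Φ, θ, cΦ, cθ, θz, Φz, Φe, Φs, Φn⟩ := cor_alg h1 h2 h3 h4
  have hΦ : ContinuousOn (fun q : V × ℝ => Φ (T q.1, d q)) (U ×ˢ univ) :=
    cΦ.comp_continuousOn
      ((hT.continuousOn.comp continuousOn_fst fun q hq => hq.1).prodMk
        hd.continuous.continuousOn)
  obtain ⟨ε0, hε0, hmar⟩ := nd_margin
    ((hK'.prod (isCompact_Icc (a := (-1 : ℝ)) (b := 1))).image_of_continuousOn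
      (hΦ.mono (prod_mono hK'U (subset_univ _)))) (by
      rintro _ ⟨⟨y, s⟩, ⟨hy, hs⟩, rfl⟩
      exact Φn _ _ (hn y (hK'U hy)).1 (hn y (hK'U hy)).2 (hdn y s (abs_le.2 hs)))
  have cν : Continuous (dd ν) :=
    (contDiffOn_univ.1 (contDiffOn_dd isOpen_univ hν.contDiffOn)).continuous
  have cρ : Continuous (dd fun y => R y • T y ef) :=
    (contDiffOn_univ.1 (contDiffOn_dd isOpen_univ hρ.contDiffOn)).continuous
  obtain ⟨B0, hB0⟩ := hK'.exists_bound_of_continuousOn (cν.norm.add cρ.norm).continuousOn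
  obtain ⟨ε, hε, hεB⟩ : ∃ ε : ℝ, 0 < ε ∧ ε * B0 ≤ ε0 := by
    have a1 : 0 < |B0| + 1 := by positivity
    refine ⟨ε0 / (|B0| + 1), by positivity, ?_⟩
    rw [div_mul_eq_mul_div, div_le_iff₀ a1]
    have := le_abs_self B0
    nlinarith
  obtain ⟨E, hE⟩ : ∃ E : V → B2 V, E = fun y => (1 / 2 * Real.sin (2 * (p y / ε))) • dd ν y -
      Real.cos (p y / ε) • dd (fun y => R y • T y ef) y := ⟨_, rfl⟩
  have cE : Continuous E := by
    rw [hE]
    have c0 : Continuous fun y => p y / ε := p.continuous.div_const ε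
    have c1 : Continuous fun y => 1 / 2 * Real.sin (2 * (p y / ε)) :=
      continuous_const.mul (Real.continuous_sin.comp (continuous_const.mul c0))
    have c2 : Continuous fun y => Real.cos (p y / ε) := Real.continuous_cos.comp c0
    exact (c1.smul cν).sub (c2.smul cρ)
  have sE : ∀ y, Skew (E y) := fun y => by
    rw [hE]
    exact ((skew_dd _ _).smul _).sub ((skew_dd _ _).smul _)
  have zE : ∀ y, y ∉ K' → E y = 0 := fun y hy => by
    rw [hE]
    simp only
    rw [cor_dd_zero hK'.isClosed hρ0 hy,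
      cor_dd_zero hK.isClosed h0 fun h => hy (hKK' h), smul_zero, smul_zero, sub_zero]
  have bE : ∀ y ∈ K', ‖E y‖ ≤ B0 := fun y hy => by
    have a1 := hB0 y hy
    rw [Pi.add_apply, Real.norm_eq_abs] at a1
    refine le_trans ?_ ((le_abs_self _).trans a1)
    rw [hE]
    refine (norm_sub_le _ _).trans (add_le_add ?_ ?_)
    · rw [norm_smul]
      refine mul_le_of_le_one_left (norm_nonneg _) ?_
      rw [Real.norm_eq_abs, abs_mul]
      have := Real.abs_sin_le_one (2 * (p y / ε))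
      rw [abs_of_pos (by norm_num : (0 : ℝ) < 1 / 2)]
      linarith
    · rw [norm_smul]
      exact mul_le_of_le_one_left (norm_nonneg _) (Real.abs_cos_le_one _)
  have hσ : ContDiff ℝ ∞ fun y => Real.sin (p y / ε) := (p.contDiff.div_const ε).sin
  have hoff : ∀ t : ℝ, ∀ y, y ∉ K' →
      Φ (T y, d (y, t * Real.sin (p y / ε))) + (t * ε) • E y = T y := by
    intro t y hy
    rw [hd0 y _ hy, Φz, zE y hy, smul_zero, add_zero]
  have hθ0 : ∀ y, y ∉ K' → θ (T y, d (y, Real.sin (p y / ε))) = 0 :=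
    fun y hy => by rw [hd0 y _ hy, θz]
  refine ⟨fun z => (ε / 2 * Real.sin (2 * (p z / ε))) • ν z -
      (ε * Real.cos (p z / ε)) • (R z • T z ef),
    fun y => θ (T y, d (y, Real.sin (p y / ε))), K', hK', hK'U, ?_, ?_, ?_,
    fun t y => Φ (T y, d (y, t * Real.sin (p y / ε))) + (t * ε) • E y,
    ?_, ?_, ?_, fun t _ y _ hy => hoff t y hy⟩
  · exact ((contDiff_const.mul (contDiff_const.mul (p.contDiff.div_const ε)).sin).smul hν).sub
      ((contDiff_const.mul (p.contDiff.div_const ε).cos).smul hρ)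
  · exact contDiff_of_supp hU hK'.isClosed hK'U (cθ.comp_contDiffOn
      (hT.prodMk (hd.comp (contDiff_id.prodMk hσ)).contDiffOn)) hθ0
  · intro y hy
    refine ⟨?_, hθ0 y hy⟩
    simp only
    rw [hρ0 y hy, h0 y fun h => hy (hKK' h), smul_zero, smul_zero, sub_zero]
  · have c1 := hσ.continuous
    refine ContinuousOn.add (hΦ.comp
      (f := fun q : ℝ × V => (q.2, q.1 * Real.sin (p q.2 / ε)))
      (continuous_snd.prodMk (continuous_fst.mul (c1.comp continuous_snd))).continuousOn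
      fun q hq => ⟨hq.2, trivial⟩) ?_
    exact ((continuous_fst.mul continuous_const).smul (cE.comp continuous_snd)).continuousOn
  · intro y hy
    constructor
    · simp only
      rw [zero_mul, zero_mul, hdz, Φz, zero_smul, add_zero]
    · simp only
      rw [one_mul, one_mul, cor_dd_gam p hν hρ hε.ne', Φe, hdT y hy, hE]
      abel
  · intro t ht y hy
    refine ⟨(Φs _ _ (hn y hy).1).add ((sE y).smul _), ?_⟩
    by_cases hyK : y ∈ K'
    · refine hmar _ ⟨(y, t * Real.sin (p y / ε)), ⟨hyK, abs_le.1 ?_⟩, rfl⟩ _ ?_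
      · rw [abs_mul, abs_of_nonneg ht.1]
        exact mul_le_one₀ ht.2 (abs_nonneg _) (Real.abs_sin_le_one _)
      · rw [norm_smul, Real.norm_eq_abs, abs_of_nonneg (mul_nonneg ht.1 hε.le)]
        calc t * ε * ‖E y‖ ≤ 1 * ε * ‖E y‖ := by gcongr; exact ht.2
          _ ≤ ε * B0 := by rw [one_mul]; gcongr; exact bE y hyK
          _ ≤ ε0 := hεB
    · simp only
      rw [hoff t y hyK]
      exact (hn y hy).2

theorem cor_basis {j : B1 V} (hj : j ≠ 0) : ∃ (n : ℕ) (ef : V) (p : Fin n → B1 V)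
    (e : Fin n → V), j ef = 1 ∧ (∀ i, p i (e i) = 1 ∧ j (e i) = 0 ∧ p i ef = 0) ∧
      ∀ v, v = ∑ i, p i v • e i + j v • ef := by
  obtain ⟨v0, hv0⟩ : ∃ v0, j v0 ≠ 0 := by
    by_contra h
    push Not at h
    exact hj (ContinuousLinearMap.ext h)
  obtain ⟨ef, hef⟩ : ∃ ef, j ef = 1 :=
    ⟨(j v0)⁻¹ • v0, by rw [map_smul, smul_eq_mul, inv_mul_cancel₀ hv0]⟩
  let W : Submodule ℝ V := LinearMap.ker (j : V →ₗ[ℝ] ℝ)
  let b := Module.finBasis ℝ W
  let π : V →ₗ[ℝ] W := LinearMap.codRestrict W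
    (LinearMap.id - (j : V →ₗ[ℝ] ℝ).smulRight ef) fun v => by simp [W, hef]
  have hπ : ∀ v, (π v : V) = v - j v • ef := fun v => rfl
  have hb : ∀ i, j (b i : V) = 0 := fun i => (b i).2
  refine ⟨_, ef, fun i => LinearMap.toContinuousLinearMap ((b.coord i).comp π),
    fun i => (b i : V), hef, fun i => ⟨?_, hb i, ?_⟩, fun v => ?_⟩
  · have a1 : π (b i : V) = b i := Subtype.ext (by rw [hπ, hb, zero_smul, sub_zero])
    show b.coord i (π (b i : V)) = 1
    rw [a1]
    simp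
  · have a1 : π ef = 0 := Subtype.ext (by rw [hπ, hef, one_smul, sub_self]; rfl)
    show b.coord i (π ef) = 0
    rw [a1, map_zero]
  · have a1 := congrArg (fun w : W => (w : V)) (b.sum_repr (π v))
    simp only [Submodule.coe_sum, Submodule.coe_smul] at a1
    rw [hπ] at a1
    exact (eq_sub_iff_add_eq.1 a1).symm

theorem cor_split {n : ℕ} {j : B1 V} {ef : V} {p : Fin n → B1 V} {e : Fin n → V}
    (h : ∀ v, v = ∑ i, p i v • e i + j v • ef) {β : B2 V} (hs : Skew β) :
    β = ∑ i, wedge (p i) ((1 / 2 : ℝ) • β (e i)) + wedge j ((1 / 2 : ℝ) • β ef) := by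
  have a1 : ∀ u v, β u v = ∑ i, p i u * β (e i) v + j u * β ef v := fun u v => by
    conv_lhs => rw [h u]
    simp only [map_add, map_sum, map_smul, add_apply,
      sum_apply, smul_apply, smul_eq_mul]
  refine b2_ext fun u v => ?_
  have a2 : ∀ i, wedge (p i) ((1 / 2 : ℝ) • β (e i)) u v =
      1 / 2 * (p i u * β (e i) v) - 1 / 2 * (p i v * β (e i) u) := fun i => by
    rw [wedge_apply, smul_apply, smul_apply, smul_eq_mul,
      smul_eq_mul]
    ring
  simp only [add_apply, sum_apply, a2]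
  rw [Finset.sum_sub_distrib, ← Finset.mul_sum, ← Finset.mul_sum, wedge_apply,
    smul_apply, smul_apply, smul_eq_mul, smul_eq_mul]
  linear_combination 1 / 2 * a1 u v - 1 / 2 * a1 v u + 1 / 2 * hs u v

theorem cor_all {U : Set V} (hU : IsOpen U) {T : V → B2 V} (hT : ContDiffOn ℝ ∞ T U)
    (hn : ∀ y ∈ U, Skew (T y) ∧ Nd (T y)) {β : V → B2 V} (hβ : ContDiff ℝ ∞ β)
    (hs : ∀ y, Skew (β y)) {K : Set V} (hK : IsCompact K) (hKU : K ⊆ U)
    (h0 : ∀ y, y ∉ K → β y = 0) {j : B1 V} (hj : j ≠ 0) :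
    ∃ (γ θ : V → B1 V) (K' : Set V), IsCompact K' ∧ K' ⊆ U ∧ K ⊆ K' ∧ ContDiff ℝ ∞ γ ∧
      ContDiff ℝ ∞ θ ∧ (∀ y, y ∉ K' → γ y = 0 ∧ θ y = 0) ∧
      HtpE U K' T fun y => T y - β y + dd γ y + wedge j (θ y) := by
  classical
  obtain ⟨n, ef, p, e, hef, hp, hv⟩ := cor_basis hj
  have hν : ∀ v : V, ContDiff ℝ ∞ fun y => (1 / 2 : ℝ) • β y v := fun v =>
    (hβ.clm_apply contDiff_const).const_smul _
  have hν0 : ∀ v y : V, y ∉ K → (1 / 2 : ℝ) • β y v = 0 := fun v y hy => by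
    rw [h0 y hy, zero_apply, smul_zero]
  have key : ∀ s : Finset (Fin n), ∃ (γ θ : V → B1 V) (K' : Set V), IsCompact K' ∧ K' ⊆ U ∧
      K ⊆ K' ∧ ContDiff ℝ ∞ γ ∧ ContDiff ℝ ∞ θ ∧ (∀ y, y ∉ K' → γ y = 0 ∧ θ y = 0) ∧
      HtpE U K' T fun y => T y - ∑ i ∈ s, wedge (p i) ((1 / 2 : ℝ) • β y (e i)) + dd γ y +
        wedge j (θ y) := by
    intro s
    induction s using Finset.induction_on with
    | empty =>
      refine ⟨fun _ => 0, fun _ => 0, K, hK, hKU, subset_rfl, contDiff_const, contDiff_const,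
        fun _ _ => ⟨rfl, rfl⟩, cor_congr (HtpE.refl hT.continuousOn hn K) fun y _ => ?_⟩
      rw [Finset.sum_empty, dd_const, wedge_zero_right, sub_zero, add_zero, add_zero]
    | insert a s ha ih =>
      obtain ⟨γ, θ, K1, k1, k2, k3, k4, k5, k6, k7⟩ := ih
      have hT' : ContDiffOn ℝ ∞ (fun y => T y - ∑ i ∈ s, wedge (p i) ((1 / 2 : ℝ) • β y (e i)) +
          dd γ y + wedge j (θ y)) U :=
        ((hT.sub (ContDiff.sum fun i _ => cor_wedge_cd (p i) (hν (e i))).contDiffOn).add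
          (contDiffOn_dd hU k4.contDiffOn)).add (cor_wedge_cd j k5).contDiffOn
      obtain ⟨γ', θ', K2, l1, l2, l4, l5, l6, l7⟩ := cor_one hU hT' k7.nd (hν (e a)) hK hKU
        (hν0 (e a)) (hp a).1 (hp a).2.1 (hp a).2.2 hef
      refine ⟨fun y => γ y + γ' y, fun y => θ y + θ' y, K1 ∪ K2, k1.union l1, union_subset k2 l2,
        k3.trans subset_union_left, k4.add l4, k5.add l5, fun y hy => ?_,
        cor_congr (k7.trans l7) fun y _ => ?_⟩
      · have a1 := k6 y fun h => hy (Or.inl h)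
        have a2 := l6 y fun h => hy (Or.inr h)
        simp only [a1.1, a1.2, a2.1, a2.2, add_zero, and_self]
      · rw [Finset.sum_insert ha, dd_add (k4.differentiable (by simp) y)
          (l4.differentiable (by simp) y), wedge_add_right]
        abel
  obtain ⟨γ, θ, K1, k1, k2, k3, k4, k5, k6, k7⟩ := key Finset.univ
  refine ⟨γ, fun y => θ y + (1 / 2 : ℝ) • β y ef, K1, k1, k2, k3, k4, k5.add (hν ef),
    fun y hy => ⟨(k6 y hy).1, ?_⟩, cor_congr k7 fun y _ => ?_⟩
  · simp only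
    rw [(k6 y hy).2, hν0 ef y fun h => hy (k3 h), add_zero]
  · have a1 := cor_split hv (hs y)
    rw [wedge_add_right, eq_sub_of_add_eq a1.symm]
    abel

theorem crit {U : Set V} (hU : IsOpen U) {c : V} (hc : c ∈ U) {τ w : V → B2 V}
    (hτ : ContDiffOn ℝ ∞ τ U) (hn : ∀ y ∈ U, Skew (τ y) ∧ Nd (τ y)) (hw : Form2On U w) :
    ∃ (γ : V → B1 V) (β : V → B2 V) (K : Set V), IsCompact K ∧ K ⊆ U ∧ ContDiff ℝ ∞ γ ∧
      ContDiff ℝ ∞ β ∧ (∀ y, y ∉ K → γ y = 0 ∧ β y = 0) ∧ HtpE U K τ (fun y => τ y + β y) ∧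
      ∀ᶠ y in 𝓝 c, τ y + β y = w y + dd γ y := by
  obtain ⟨ε, hε, hmar⟩ := nd_margin (isCompact_singleton (x := τ c)) (by
    rintro _ rfl
    exact (hn c hc).2)
  have hcont : ContinuousAt τ c := hτ.continuousOn.continuousAt (hU.mem_nhds hc)
  obtain ⟨r, hr, hball⟩ := Metric.mem_nhds_iff.1
    (inter_mem (hU.mem_nhds hc) (hcont (closedBall_mem_nhds (τ c) hε)))
  have hbU : ball c r ⊆ U := fun y hy => (hball hy).1
  have hbε : ∀ y ∈ ball c r, ‖τ y - τ c‖ ≤ ε := fun y hy => by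
    have := (hball hy).2
    rwa [mem_preimage, mem_closedBall, dist_eq_norm] at this
  obtain ⟨χ, K, O, hχ, hK, hKb, hO, hcO, -, hχ1, hχ0, hχ01⟩ :=
    exists_cut (isCompact_singleton (x := c)) isOpen_ball
      (singleton_subset_iff.2 (mem_ball_self hr))
  obtain ⟨l, hl, hdl, -⟩ := poin2 ((form_const (hn c hc).1 (ball c r)).sub isOpen_ball
    (hw.mono hbU))
  have hγ0 : ∀ y, y ∉ K → χ y • l y = 0 := fun y hy => by rw [hχ0 y hy, zero_smul]
  have hβ0 : ∀ y, y ∉ K → χ y • (τ c - τ y) = 0 := fun y hy => by rw [hχ0 y hy, zero_smul]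
  have hβ : ContDiff ℝ ∞ fun y => χ y • (τ c - τ y) :=
    contDiff_of_supp hU hK.isClosed (hKb.trans hbU)
      (hχ.contDiffOn.smul (contDiffOn_const.sub hτ)) hβ0
  have hoff : ∀ t : ℝ, ∀ y, y ∉ K → τ y + t • χ y • (τ c - τ y) = τ y := fun t y hy => by
    rw [hβ0 y hy, smul_zero, add_zero]
  refine ⟨fun y => χ y • l y, fun y => χ y • (τ c - τ y), K, hK, hKb.trans hbU,
    contDiff_of_supp isOpen_ball hK.isClosed hKb (hχ.contDiffOn.smul hl) hγ0, hβ,
    fun y hy => ⟨hγ0 y hy, hβ0 y hy⟩,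
    ⟨fun t y => τ y + t • χ y • (τ c - τ y), ?_, ?_, ?_, fun t _ y _ hy => hoff t y hy⟩, ?_⟩
  · exact (hτ.continuousOn.comp continuousOn_snd fun q hq => hq.2).add
      (continuous_fst.smul (hβ.continuous.comp continuous_snd)).continuousOn
  · intro y _
    simp only [zero_smul, add_zero, one_smul, and_self]
  · intro t ht y hy
    refine ⟨(hn y hy).1.add ((((hn c hc).1.sub (hn y hy).1).smul _).smul _), ?_⟩
    by_cases hyK : y ∈ K
    · have a1 : τ y + t • χ y • (τ c - τ y) = τ c + (1 - t * χ y) • (τ y - τ c) := by module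
      simp only
      rw [a1]
      refine hmar _ rfl _ ?_
      have a2 : 0 ≤ t * χ y := mul_nonneg ht.1 (hχ01 y).1
      have a3 : t * χ y ≤ 1 := mul_le_one₀ ht.2 (hχ01 y).1 (hχ01 y).2
      rw [norm_smul, Real.norm_eq_abs, abs_of_nonneg (by linarith)]
      exact (mul_le_of_le_one_left (norm_nonneg _) (by linarith)).trans (hbε y (hKb hyK))
    · simp only
      rw [hoff t y hyK]
      exact (hn y hy).2
  · filter_upwards [hO.mem_nhds (hcO rfl), ball_mem_nhds c hr] with y hy hy'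
    have e : (fun y => χ y • l y) =ᶠ[𝓝 y] l :=
      Filter.eventually_of_mem (hO.mem_nhds hy) fun z hz => by
        simp only [hχ1 z hz, one_smul]
    rw [dd_congr e, hdl y hy', hχ1 y hy, one_smul]
    abel

end Pool.Agent.Work.MP_bf98aa_gt.Ns
end
end
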