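import Pool.Agent.Work.MP_bf98aa_gt.Ns.Morse
import Pool.Agent.Work.MP_bf98aa_gt.Ns.Cor

-- merged part: Pool.Agent.Work.MP_bf98aa_gt.Ns.CoreA
section
-- merged part: Pool.Agent.Work.MP_bf98aa_gt.Ns.Htp
section
/-!
Homotopies of nondegenerate forms on a manifold, and steps 1 and 2 of the proof.
Hints. htp_push: H t z = w z + push2 e (H' t - loc2 e w) z; continuity in the chart at p: near points of e.target by loc2_tr (continuity of the derivative of the transition map), and off the closed set e '' K the family is constant = w.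
Htp.rat_pos: t -> pf (loc2 (chart x) (H t) centre) is continuous and nonzero (pf_ne), chart_D_center.
step12 (uses morse from Morse.lean as the hypothesis hf). Induct over the finite critical set with crit in the chart at z restricted (par_restr) to the complement of the other critical points:
invariant Sm1 alpha, Sm2 T, Htp univ tau T, T - w - dM alpha = 0 near the points treated. Then B = T - w - dM alpha vanishes on an open set O containing Crit; cover the compact complement by finitely many adapted parametrisations,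
exists_pou for these targets and O; induct over the charts with cor_all (j = ds, beta = loc2 e (chi B) extended by zero, contDiff_of_supp); invariant T' = w + dM alpha' + wedge df theta' + sum of the remaining chi B.
-/

set_option autoImplicit false
set_option maxSynthPendingDepth 3
set_option linter.unusedSectionVars false
set_option linter.unusedVariables false

open Set Filter Topology Metric MeasureTheory
open scoped Manifold ContDiff

noncomputable section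
namespace Pool.Agent.Work.MP_bf98aa_gt.Ns

open Pool.Agent.Work.MP_8c604c_gt

variable {V V' E : Type} [NormedAddCommGroup V] [NormedSpace ℝ V] [FiniteDimensional ℝ V]
  [NormedAddCommGroup V'] [NormedSpace ℝ V'] [FiniteDimensional ℝ V']
  [NormedAddCommGroup E] [NormedSpace ℝ E] [FiniteDimensional ℝ E] {M : Type} [TopologicalSpace M]
  [ChartedSpace E M] [IsManifold 𝓘(ℝ, E) ∞ M] {m : ℕ}

theorem Htp.mono {U U' : Set M} {w w' : M → B2 E} (h : Htp U w w') (hU : U' ⊆ U) :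
    Htp U' w w' := by
  obtain ⟨H, h1, h2, h3⟩ := h
  exact ⟨H, fun p => (h1 p).mono (prod_mono le_rfl (inter_subset_inter_right _ (preimage_mono hU))),
    fun x hx => h2 x (hU hx), fun t ht x hx => h3 t ht x (hU hx)⟩

theorem Htp.congr {U : Set M} {w w' v v' : M → B2 E} (h : Htp U w w') (e : ∀ x ∈ U, v x = w x)
    (e' : ∀ x ∈ U, v' x = w' x) : Htp U v v' := by
  obtain ⟨H, h1, h2, h3⟩ := h
  exact ⟨H, h1, fun x hx => ⟨(h2 x hx).1.trans (e x hx).symm, (h2 x hx).2.trans (e' x hx).symm⟩, h3⟩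

theorem htp_rep {F : ℝ → V → B2 V} {S : Set V}
    (h : ContinuousOn (fun z : ℝ × V => F z.1 z.2) (Icc 0 1 ×ˢ S)) {φ : ℝ → ℝ} (hφ : Continuous φ)
    (hm : ∀ t ∈ Icc (0 : ℝ) 1, φ t ∈ Icc (0 : ℝ) 1) :
    ContinuousOn (fun z : ℝ × V => F (φ z.1) z.2) (Icc 0 1 ×ˢ S) :=
  h.comp (f := fun z : ℝ × V => (φ z.1, z.2))
    ((hφ.comp continuous_fst).prodMk continuous_snd).continuousOn fun z hz => ⟨hm _ hz.1, hz.2⟩

theorem Htp.trans {U : Set M} {w w' w'' : M → B2 E} (h : Htp U w w') (h' : Htp U w' w'') :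
    Htp U w w'' := by
  obtain ⟨H, h1, h2, h3⟩ := h
  obtain ⟨G, g1, g2, g3⟩ := h'
  have m1 : ∀ t ∈ Icc (0 : ℝ) 1, min (2 * t) 1 ∈ Icc (0 : ℝ) 1 := fun t ht =>
    ⟨le_min (by linarith [ht.1]) zero_le_one, min_le_right _ _⟩
  have m2 : ∀ t ∈ Icc (0 : ℝ) 1, max (2 * t - 1) 0 ∈ Icc (0 : ℝ) 1 := fun t ht =>
    ⟨le_max_right _ _, max_le (by linarith [ht.2]) zero_le_one⟩
  refine ⟨fun t z => H (min (2 * t) 1) z + G (max (2 * t - 1) 0) z - H 1 z, fun p => ?_,
    fun x hx => ⟨?_, ?_⟩, fun t ht x hx => ?_⟩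
  · refine (((htp_rep (F := fun t => loc2 (Par.chart E p) (H t)) (h1 p) (by fun_prop) m1).add
      (htp_rep (F := fun t => loc2 (Par.chart E p) (G t)) (g1 p) (by fun_prop) m2)).sub
      (htp_rep (F := fun t => loc2 (Par.chart E p) (H t)) (h1 p) (φ := fun _ => 1) continuous_const
        fun _ _ => ⟨zero_le_one, le_rfl⟩)).congr fun z _ => ?_
    exact (pb_sub _ _ _).trans (congrArg (· - _) (pb_add _ _ _))
  · norm_num [(h2 x hx).1, (h2 x hx).2, (g2 x hx).1]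
  · norm_num [(h2 x hx).2, (g2 x hx).2]
  · rcases le_total (2 * t) 1 with h | h
    · have := h3 _ (m1 t ht) x hx
      simpa only [max_eq_right (sub_nonpos.2 h), (h2 x hx).2, (g2 x hx).1, add_sub_cancel_right]
    · have := g3 _ (m2 t ht) x hx
      simpa only [min_eq_right h, add_sub_cancel_left]

theorem Htp.nd {U : Set M} {w w' : M → B2 E} (h : Htp U w w') :
    ∀ x ∈ U, Skew (w' x) ∧ Nd (w' x) := by
  obtain ⟨H, -, h2, h3⟩ := h
  exact fun x hx => (h2 x hx).2 ▸ h3 1 ⟨zero_le_one, le_rfl⟩ x hx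

theorem htp_linear {U : Set M} {w v : M → B2 E} (hw : Sm2 w) (hv : Sm2 v)
    (h : ∀ t ∈ Icc (0 : ℝ) 1, ∀ x ∈ U, Skew (w x + t • v x) ∧ Nd (w x + t • v x)) :
    Htp U w fun x => w x + v x := by
  refine ⟨fun t x => w x + t • v x, fun p => ?_,
    fun x _ => ⟨(congrArg (w x + ·) (zero_smul ℝ _)).trans (add_zero _),
      congrArg (w x + ·) (one_smul ℝ _)⟩, h⟩
  have k : ∀ {u : M → B2 E}, Sm2 u → ContinuousOn (fun z : ℝ × E => loc2 (Par.chart E p) u z.2)
      (Icc 0 1 ×ˢ ((chartAt E p).target ∩ (chartAt E p).symm ⁻¹' U)) := fun hu =>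
    (hu p).continuousOn.comp continuousOn_snd fun z hz => hz.2.1
  have k2 : ContinuousOn (fun z : ℝ × E => loc2 (Par.chart E p) w z.2 +
      z.1 • loc2 (Par.chart E p) v z.2) _ := (k hw).add (continuousOn_fst.smul (k hv))
  refine k2.congr fun z _ => (pb_add _ _ _).trans ?_
  rw [pb_smul]
  rfl

theorem htp_refl {U : Set M} {w : M → B2 E} (hw : Sm2 w) (hn : ∀ z ∈ U, Skew (w z) ∧ Nd (w z)) :
    Htp U w w :=
  (htp_linear hw sm2_zero fun t _ x hx => by simpa using hn x hx).congr (fun _ _ => rfl)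
    fun x _ => (add_zero _).symm

theorem htp_out (e : Par V E M) (β : V → B2 V) {z : M} (hz : z ∉ e.target) : push2 e β z = 0 :=
  if_neg hz

theorem htp_cg (e : Par V E M) {β β' : V → B2 V} (h : ∀ y ∈ e.source, β y = β' y) (z : M) :
    push2 e β z = push2 e β' z := by
  by_cases hz : z ∈ e.target
  · rw [push2, push2, if_pos hz, if_pos hz, h _ (e.map_tgt hz)]
  · rw [htp_out _ _ hz, htp_out _ _ hz]

theorem htp_nd (e : Par V E M) {w : M → B2 E} (hn : ∀ z, Skew (w z) ∧ Nd (w z)) :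
    ∀ y ∈ e.source, Skew (loc2 e w y) ∧ Nd (loc2 e w y) := fun y hy =>
  ⟨skew_pb (hn _).1 _, nd_pb (hn _).2 (e.D_bij hy)⟩

theorem htp_push [T2Space M] (e : Par V E M) {w : M → B2 E} (hw : Sm2 w)
    (hn : ∀ z, Skew (w z) ∧ Nd (w z)) {K : Set V} (hK : IsCompact K) (hKe : K ⊆ e.source)
    {T : V → B2 V} (h : HtpE e.source K (loc2 e w) T) :
    Htp univ w fun z => w z + push2 e (fun y => T y - loc2 e w y) z := by
  obtain ⟨H, h1, h2, h3, h4⟩ := h
  refine ⟨fun t z => w z + push2 e (fun y => H t y - loc2 e w y) z, fun p => ?_,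
    fun x _ => ⟨?_, ?_⟩, fun t ht x _ => ⟨?_, ?_⟩⟩
  · refine (((hw p).continuousOn.comp continuousOn_snd fun z hz => hz.2.1).add
      (g := fun z : ℝ × E => loc2 (Par.chart E p) (push2 e fun y => H z.1 y - loc2 e w y) z.2)
      (continuousOn_of_locally_continuousOn fun z hz => ?_)).congr fun z _ => pb_add _ _ _
    by_cases hz' : Par.chart E p z.2 ∈ e.target
    · have hO := isOpen_tr (Par.chart E p) e
      have hφ := contDiffOn_tr (Par.chart E p) e
      refine ⟨_, isOpen_univ.prod hO, ⟨trivial, hz.2.1, hz'⟩, ?_⟩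
      have k1 : ContinuousOn (fun z : ℝ × E => e.inv (Par.chart E p z.2)) _ :=
        hφ.continuousOn.comp (s := (Icc (0 : ℝ) 1 ×ˢ ((chartAt E p).target ∩
          (chartAt E p).symm ⁻¹' univ)) ∩ univ ×ˢ ((Par.chart E p).source ∩
            Par.chart E p ⁻¹' e.target)) continuousOn_snd fun z hz => hz.2.2
      refine (contDiff_pb.continuous.comp_continuousOn
        (((hφ.continuousOn_fderiv_of_isOpen hO (by simp)).comp continuousOn_snd
          fun z hz => hz.2.2).prodMk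
        ((h1.comp (continuousOn_fst.prodMk k1) fun z hz => ⟨hz.1.1, e.map_tgt hz.2.2.2⟩).sub
          ((hw.loc e).continuousOn.comp k1 fun z hz => e.map_tgt hz.2.2.2)))).congr fun z hz => ?_
      rw [loc2_tr _ e hz.2.2.1 hz.2.2.2, pull2, loc2_push2 e _ (e.map_tgt hz.2.2.2)]
      rfl
    · refine ⟨_, isOpen_univ.prod ((Par.chart E p).cont.isOpen_inter_preimage
        (Par.chart E p).open_source (e.isCompact_image hK hKe).isClosed.isOpen_compl),
        ⟨trivial, hz.2.1, fun ⟨y, hy, e1⟩ => hz' (e1 ▸ e.map_src (hKe hy))⟩, ?_⟩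
      refine (continuousOn_const (c := 0)).congr fun z hz => ?_
      rw [loc2, push2_zero e (fun y hy hy' => sub_eq_zero.2 (h4 _ hz.1.1 y hy hy')) hz.2.2.2,
        pb_zero]
  · exact (congrArg (w x + ·) (push2_zero e (K := ∅)
      (fun y hy _ => sub_eq_zero.2 (h2 y hy).1) (by simp))).trans (add_zero _)
  · exact congrArg (w x + ·) (htp_cg e (fun y hy => by rw [(h2 y hy).2]) x)
  · exact (hn x).1.add (skew_push2 e (fun y hy => (h3 t ht y hy).1.sub (htp_nd e hn y hy).1) x)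
  · by_cases hx : x ∈ e.target
    · obtain ⟨y, hy, rfl⟩ : ∃ y ∈ e.source, e y = x := ⟨_, e.map_tgt hx, e.apply_inv hx⟩
      refine nd_of_pb (e.D_bij hy).2 ?_ (e.D_bij hy).1
      rw [pb_add]
      change Nd (loc2 e w y + loc2 e (push2 e _) y)
      rw [loc2_push2 e _ hy, add_sub_cancel]
      exact (h3 t ht y hy).2
    · beta_reduce
      rw [htp_out _ _ hx, add_zero]
      exact (hn x).2

theorem htp_ctr (w : M → B2 E) (x : M) : loc2 (Par.chart E x) w (chartAt E x x) = w x := by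
  rw [loc2, chart_D_center, pb_id, chart_apply, (chartAt E x).left_inv (mem_chart_source E x)]

theorem Htp.rat_pos (hE : Module.finrank ℝ E = 2 * m + 2) {U : Set M} {τ w : M → B2 E}
    (h : Htp U τ w) {x : M} (hx : x ∈ U) : 0 < rat w τ x := by
  obtain ⟨H, h1, h2, h3⟩ := h
  have hc : ContinuousOn (fun t => pf (H t x) / pf (τ x)) (Icc 0 1) := by
    refine ((contDiff_pf.continuous.comp_continuousOn ((h1 x).comp
      (f := fun t : ℝ => (t, chartAt E x x)) (by fun_prop) fun t ht =>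
        ⟨ht, mem_chart_target E x, ?_⟩)).congr fun t _ => ?_).div_const _
    · rw [mem_preimage, (chartAt E x).left_inv (mem_chart_source E x)]
      exact hx
    · exact congrArg pf (htp_ctr _ x).symm
  have h0 : ∀ t ∈ Icc (0 : ℝ) 1, pf (H t x) ≠ 0 := fun t ht =>
    pf_ne hE (h3 t ht x hx).1 (h3 t ht x hx).2
  have h4 : pf (τ x) ≠ 0 := (h2 x hx).1 ▸ h0 0 ⟨le_rfl, zero_le_one⟩
  by_contra hn
  obtain ⟨t, ht, e⟩ := intermediate_value_Icc' zero_le_one hc (a := 0) (by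
    rw [(h2 x hx).1, (h2 x hx).2, div_self h4]
    exact ⟨not_lt.1 hn, zero_le_one⟩)
  exact div_ne_zero (h0 t ht) h4 e

theorem continuous_rat {w τ : M → B2 E} (hw : Sm2 w) (hτ : Sm2 τ) (h : ∀ z, pf (τ z) ≠ 0) :
    Continuous (rat w τ) := by
  refine continuous_iff_continuousAt.2 fun z => ContinuousOn.continuousAt ?_
    ((chartAt E z).open_source.mem_nhds (mem_chart_source E z))
  have k : ∀ {v : M → B2 E}, Sm2 v →
      ContinuousOn (fun x => pf (loc2 (Par.chart E z) v (chartAt E z x))) (chartAt E z).source :=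
    fun hv => contDiff_pf.continuous.comp_continuousOn ((hv z).continuousOn.comp
      (chartAt E z).continuousOn fun x hx => (chartAt E z).map_source hx)
  refine ((k hw).div (k hτ) fun x hx => ?_).congr fun x hx => ?_
  · obtain ⟨κ, h1, h2⟩ := pf_bij ((Par.chart E z).D_bij ((chartAt E z).map_source hx))
    rw [loc2, h2]
    exact mul_ne_zero h1 (h _)
  · have e := pf_ratio ((Par.chart E z).D_bij ((chartAt E z).map_source hx)) (w x) (τ x)
    rw [Pi.div_apply, loc2, loc2, chart_apply, (chartAt E z).left_inv hx, e, rat]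

theorem htp_dd {γ : V → B1 V} {K : Set V} (hK : IsCompact K) (h : ∀ y, y ∉ K → γ y = 0) {y : V}
    (hy : y ∉ K) : dd γ y = 0 :=
  (dd_congr (mem_of_superset (hK.isClosed.isOpen_compl.mem_nhds hy) h)).trans (dd_const 0 y)

theorem htp_crit [T2Space M] {τ w : M → B2 E} (hτ : Sm2 τ) (hn : ∀ z, Skew (τ z) ∧ Nd (τ z))
    (hw : Cl2 w) (s : Finset M) : ∃ (α : M → B1 E) (T : M → B2 E), Sm1 α ∧ Sm2 T ∧ Htp univ τ T ∧
      ∀ z ∈ s, ∀ᶠ x in 𝓝 z, T x = w x + dM α x := by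
  classical
  induction s using Finset.induction_on with
  | empty => exact ⟨_, τ, sm1_zero, hτ, htp_refl hτ fun z _ => hn z, by simp⟩
  | insert z s hz ih =>
    obtain ⟨α, T, hα, hT, hH, hs⟩ := ih
    have hn' : ∀ x, Skew (T x) ∧ Nd (T x) := fun x => hH.nd x trivial
    obtain ⟨e, he, he'⟩ := par_restr (Par.chart E z) ((Par.chart E z).cont.isOpen_inter_preimage
      (Par.chart E z).open_source s.finite_toSet.isClosed.isOpen_compl)
    have hz0 : Par.chart E z (chartAt E z z) = z := (chartAt E z).left_inv (mem_chart_source E z)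
    have hc : chartAt E z z ∈ e.source := by
      rw [he]
      exact ⟨mem_chart_target E z, mem_chart_target E z, by rwa [mem_preimage, hz0]⟩
    obtain ⟨γ, β, K, hK, hKe, hγ, hβ, h0, hE, hev⟩ := crit e.open_source hc (hT.loc e)
      (htp_nd e hn') ((hw.add (cl2_dM hα)).loc e)
    have h1 := sm1_push1 e hK hKe hγ.contDiffOn fun y _ hy => (h0 y hy).1
    have h2 := dM_push1 e hK hKe hγ.contDiffOn fun y _ hy => (h0 y hy).1
    refine ⟨fun x => α x + push1 e γ x, fun x => T x + push2 e β x, hα.add h1,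
      hT.add (sm2_push2 e hK hKe hβ.contDiffOn fun y _ hy => (h0 y hy).2),
      hH.trans ((htp_push e hT hn' hK hKe hE).congr (fun _ _ => rfl) fun x _ => by
        simp only [add_sub_cancel_left]), fun x hx => ?_⟩
    simp only [dM_add hα h1, h2]
    rcases Finset.mem_insert.1 hx with rfl | hx
    · have k := e.toOpenPartialHomeomorph.map_nhds_eq hc
      change map e _ = 𝓝 (e _) at k
      rw [he', hz0] at k
      rw [← k, eventually_map]
      filter_upwards [hev, e.open_source.mem_nhds hc] with y hy hy'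
      refine eq_of_loc2 e hy' ?_
      rw [← add_assoc, pb_add, pb_add]
      change loc2 e T y + loc2 e (push2 e β) y = _ + loc2 e (push2 e (dd γ)) y
      rw [loc2_push2 e _ hy', loc2_push2 e _ hy', hy]
      rfl
    · have k : x ∉ e '' K := fun ⟨y, hy, e1⟩ => by
        have := hKe hy
        rw [he] at this
        exact this.2.2 (by rwa [← he', e1])
      filter_upwards [hs x hx, (e.isCompact_image hK hKe).isClosed.isOpen_compl.mem_nhds k] with
        y hy hy'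
      rw [push2_zero e (fun y _ hy => (h0 y hy).2) hy',
        push2_zero e (fun y _ hy => htp_dd hK (fun y hy => (h0 y hy).1) hy) hy', hy, add_zero,
        add_zero]

/-- The form vanishes or is supported in an adapted parametrisation. -/
def htp_Good (m : ℕ) (f : M → ℝ) (B : M → B2 E) : Prop :=
  Sm2 B ∧ (∀ z, Skew (B z)) ∧ ((∀ z, B z = 0) ∨ ∃ (e : Par (VV m) E M) (K : Set M), IsCompact K ∧
    K ⊆ e.target ∧ (∀ z, z ∉ K → B z = 0) ∧ ∀ x ∈ e.source, f (e x) = x.2.2)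

theorem htp_one [T2Space M] {f : M → ℝ} (hf : Sm0 E f) {T B : M → B2 E} (hT : Sm2 T)
    (hn : ∀ z, Skew (T z) ∧ Nd (T z)) (hB : htp_Good m f B) : ∃ α θ : M → B1 E, Sm1 α ∧ Sm1 θ ∧
      Htp univ T fun z => T z - B z + dM α z + wedge (dfM E f z) (θ z) := by
  obtain ⟨hB, hs, h0 | ⟨e, K, hK, hKe, h0, hl⟩⟩ := hB
  · exact ⟨_, _, sm1_zero, sm1_zero, (htp_refl hT fun z _ => hn z).congr (fun _ _ => rfl)
      fun z _ => by rw [h0, dM_zero, wedge_zero_right, sub_zero, add_zero, add_zero]⟩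
  obtain ⟨K', hK', hK'e, rfl⟩ := e.exists_compact hK hKe
  have k0 : ∀ y, y ∉ K' → e.source.indicator (loc2 e B) y = 0 := fun y hy => by
    by_cases hy' : y ∈ e.source
    · rw [indicator_of_mem hy', loc2, h0 _ fun ⟨x, hx, e1⟩ => hy (e.inj (hK'e hx) hy' e1 ▸ hx),
        pb_zero]
    · exact indicator_of_notMem hy' _
  obtain ⟨γ, θ, L, hL, hLe, -, hγ, hθ, h1, hH⟩ := cor_all e.open_source (hT.loc e) (htp_nd e hn)
    (contDiff_of_supp e.open_source hK'.isClosed hK'e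
      ((hB.loc e).congr fun y hy => indicator_of_mem hy _) k0) (fun y => by
      by_cases hy' : y ∈ e.source
      · rw [indicator_of_mem hy']
        exact skew_pb (hs _) _
      · rw [indicator_of_notMem hy']
        exact skew_zero) hK' hK'e k0 (j := ds m) fun h =>
      one_ne_zero (show (1 : ℝ) = 0 from DFunLike.congr_fun h (es m))
  refine ⟨push1 e γ, push1 e θ, sm1_push1 e hL hLe hγ.contDiffOn fun y _ hy => (h1 y hy).1,
    sm1_push1 e hL hLe hθ.contDiffOn fun y _ hy => (h1 y hy).2,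
    (htp_push e hT hn hL hLe hH).congr (fun _ _ => rfl) fun x _ => ?_⟩
  rw [dM_push1 e hL hLe hγ.contDiffOn fun y _ hy => (h1 y hy).1]
  by_cases hx : x ∈ e.target
  · obtain ⟨y, hy, rfl⟩ : ∃ y ∈ e.source, e y = x := ⟨_, e.map_tgt hx, e.apply_inv hx⟩
    refine eq_of_loc2 e hy ?_
    rw [pb_add, pb_add, pb_add, pb_sub, pb_wedge]
    change loc2 e T y - loc2 e B y + loc2 e (push2 e _) y +
      wedge (loc1 e (dfM E f) y) (loc1 e (push1 e θ) y) = loc2 e T y + loc2 e (push2 e _) y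
    have k : fderiv ℝ (fun z => f (e z)) y = ds m :=
      (Filter.EventuallyEq.fderiv_eq (f := ds m)
        (mem_of_superset (e.open_source.mem_nhds hy) hl)).trans (ds m).fderiv
    rw [loc2_push2 e _ hy, loc2_push2 e _ hy, loc1_push1 e _ hy, loc1_dfM hf e hy, k,
      indicator_of_mem hy]
    abel
  · rw [htp_out _ _ hx, htp_out _ _ hx, h0 x fun h => hx (hKe h), push1, if_neg hx,
      wedge_zero_right, sub_zero, add_zero]

theorem htp_all [T2Space M] {f : M → ℝ} (hf : Sm0 E f) {T : M → B2 E} (hT : Sm2 T)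
    (hn : ∀ z, Skew (T z) ∧ Nd (T z)) {κ : Type} {B : κ → M → B2 E} (hB : ∀ i, htp_Good m f (B i))
    (s : Finset κ) : ∃ α θ : M → B1 E, Sm1 α ∧ Sm1 θ ∧
      Htp univ T fun z => T z - ∑ i ∈ s, B i z + dM α z + wedge (dfM E f z) (θ z) := by
  classical
  induction s using Finset.induction_on with
  | empty =>
    exact ⟨_, _, sm1_zero, sm1_zero, (htp_refl hT fun z _ => hn z).congr (fun _ _ => rfl)
      fun z _ => by rw [Finset.sum_empty, dM_zero, wedge_zero_right, sub_zero, add_zero, add_zero]⟩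
  | insert a s ha ih =>
    obtain ⟨α, θ, hα, hθ, hH⟩ := ih
    obtain ⟨α', θ', hα', hθ', hH'⟩ := htp_one hf (((hT.sub (sm2_sum s fun i _ => (hB i).1)).add
      (cl2_dM hα).sm2).add (sm2_wedge (sm1_dfM hf) hθ)) (fun z => hH.nd z trivial) (hB a)
    refine ⟨_, _, hα.add hα', hθ.add hθ', (hH.trans hH').congr (fun _ _ => rfl) fun z _ => ?_⟩
    rw [Finset.sum_insert ha, dM_add hα hα', wedge_add_right]
    abel

theorem step12 [CompactSpace M] [T2Space M] (hE : Module.finrank ℝ E = 2 * m + 2) {f : M → ℝ}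
    (hf : Sm0 E f) (hc : {z | dfM E f z = 0}.Finite) {τ w : M → B2 E} (hτ : Sm2 τ)
    (hn : ∀ z, Skew (τ z) ∧ Nd (τ z)) (hw : Cl2 w) : ∃ α θ : M → B1 E, Sm1 α ∧ Sm1 θ ∧
      Htp univ τ fun z => w z + dM α z + wedge (dfM E f z) (θ z) := by
  obtain ⟨α, T, hα, hT, hH, hs⟩ := htp_crit hτ hn hw hc.toFinset
  have hn' : ∀ x, Skew (T x) ∧ Nd (T x) := fun x => hH.nd x trivial
  have hw' := hw.add (cl2_dM hα)
  have hU : ∀ z, ∃ U : Set M, IsOpen U ∧ z ∈ U ∧ ((∀ x ∈ U, T x - (w x + dM α x) = 0) ∨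
      ∃ e : Par (VV m) E M, U = e.target ∧ ∀ x ∈ e.source, f (e x) = x.2.2) := fun z => by
    by_cases hz : dfM E f z = 0
    · obtain ⟨U, h1, h2, h3⟩ := eventually_nhds_iff.1 (hs z (hc.mem_toFinset.2 hz))
      exact ⟨U, h2, h3, Or.inl fun x hx => sub_eq_zero.2 (h1 x hx)⟩
    · obtain ⟨e, y, hy, rfl, -, hl⟩ := adapted hE hf hz (hn z).1 (hn z).2
      exact ⟨_, e.open_target, e.map_src hy, Or.inr ⟨e, rfl, hl⟩⟩
  choose U h1 h2 h3 using hU
  obtain ⟨t, -, ht⟩ := isCompact_univ.elim_nhds_subcover U fun z _ => (h1 z).mem_nhds (h2 z)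
  obtain ⟨χ, K, hχ, -, hsum, hK, hKU, h0⟩ := exists_pou (E := E) (U := fun i : t => U i)
    (fun i => h1 i) fun z => by
      obtain ⟨i, hi, hz⟩ := mem_iUnion₂.1 (ht (mem_univ z))
      exact ⟨⟨i, hi⟩, hz⟩
  obtain ⟨α', θ, hα', hθ, hH'⟩ := htp_all (m := m) hf hT hn'
    (B := fun i z => χ i z • (T z - (w z + dM α z))) (fun i => ⟨(hT.sub hw'.sm2).smul (hχ i),
      fun z => ((hn' z).1.sub (hw'.skew z)).smul _, (h3 i).imp (fun h z => by
        by_cases hz : z ∈ K i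
        · simp only [h z (hKU i hz), smul_zero]
        · simp only [h0 i z hz, zero_smul]) fun ⟨e, he, hl⟩ =>
      ⟨e, K i, hK i, he ▸ hKU i, fun z hz => by simp only [h0 i z hz, zero_smul], hl⟩⟩)
    Finset.univ
  refine ⟨_, θ, hα.add hα', hθ, (hH.trans hH').congr (fun _ _ => rfl) fun z _ => ?_⟩
  rw [← Finset.sum_smul, hsum, one_smul, dM_add hα hα']
  abel

end Pool.Agent.Work.MP_bf98aa_gt.Ns
end
end

-- merged part: Pool.Agent.Work.MP_bf98aa_gt.Ns.Defs2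
section
/-!
Definitions for the lenses and for the model.
-/

set_option autoImplicit false
set_option maxSynthPendingDepth 3
set_option linter.unusedSectionVars false
set_option linter.unusedVariables false

open Set Filter Topology Metric MeasureTheory
open scoped Manifold ContDiff

noncomputable section
namespace Pool.Agent.Work.MP_bf98aa_gt.Ns

open Pool.Agent.Work.MP_8c604c_gt

variable {V V' E : Type} [NormedAddCommGroup V] [NormedSpace ℝ V] [FiniteDimensional ℝ V]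
  [NormedAddCommGroup V'] [NormedSpace ℝ V'] [FiniteDimensional ℝ V']
  [NormedAddCommGroup E] [NormedSpace ℝ E] [FiniteDimensional ℝ E] {M : Type} [TopologicalSpace M]
  [ChartedSpace E M] [IsManifold 𝓘(ℝ, E) ∞ M] {m : ℕ}

/-- The properties of the saw. -/
structure SawOk (η : ℝ) (saw S : ℝ → ℝ) : Prop where
  sm : ContDiff ℝ ∞ saw
  smS : ContDiff ℝ ∞ S
  S0 : ∀ x, x ≤ 0 → S x = 0
  S1 : ∀ x, η ≤ x → S x = 1
  S01 : ∀ x, 0 ≤ S x ∧ S x ≤ 1
  bd : ∀ x, |saw x| ≤ 1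
  eq : ∀ (k : ℤ) (x : ℝ), k - 1 + η < x → x < k + 1 → saw x = x - k - S (x - k)
  le : ∀ x, deriv saw x ≤ 1
  ne : ∀ x, deriv saw x ≠ 1 → ∃ k : ℤ, (k : ℝ) ≤ x ∧ x ≤ k + η

namespace Teeth
variable (T : Teeth m E M)

/-- The phases. -/
def ph (j : Fin T.N) : ℝ := (j.1 : ℝ) / T.N

/-- The height of a layer. -/
def ht (ε : ℝ) (j : Fin T.N) (k : ℤ) : ℝ := ε * (k + T.ph j)

/-- The 1-form with the teeth. -/
def al (f : M → ℝ) (ε : ℝ) (saw : ℝ → ℝ) (z : M) : B1 E :=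
  ∑ j, (ε * T.amp j * saw (f z / ε - T.ph j)) • T.lam j z

/-- The points off the negative drops. -/
def good (κ : ℝ) (f : M → ℝ) (ε η : ℝ) : Set M :=
  {z | ∀ j, T.neg j = true → ∀ k : ℤ, z ∈ T.e j '' closedBall (T.c j) ((1 + κ) * T.Rm) →
    ¬(T.ht ε j k ≤ f z ∧ f z ≤ T.ht ε j k + ε * η)}

end Teeth

/-- The polynomial gauge. -/
def PX (k : ℕ) (x : XX m) : ℝ := ∑ i, x i ^ (2 * k)

def QQ (k : ℕ) (y : VV m) : R3 := (PX k y.1, y.2.1, y.2.2)

def ph (k : ℕ) (N : R3 → ℝ) (y : VV m) : ℝ := N (QQ k y) ^ (1 / (2 * k : ℝ))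

/-- The new projection to the base. -/
def pr (k : ℕ) (N : R3 → ℝ) (y : VV m) : XX m := ph k N y • y.1

/-- The volume form `dr ∧ ds ∧ dt` with its first argument `Y`. -/
def vol3 (Y a b : R3) : ℝ :=
  Y.1 * (a.2.2 * b.2.1 - a.2.1 * b.2.2) + Y.2.2 * (a.2.1 * b.1 - a.1 * b.2.1) +
    Y.2.1 * (a.1 * b.2.2 - a.2.2 * b.1)

def mu0 (k : ℕ) (N A B C : R3 → ℝ) (y : VV m) : B1 (VV m) :=
  ((ph k N y ^ 2 - 1) / 2) • (wD m y.1).comp (dx m) + pull1 (QQ k) (lam3 A B C) y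

def W0 (k : ℕ) (N A B C : R3 → ℝ) (y : VV m) : B2 (VV m) := ws m + dd (mu0 k N A B C) y

end Pool.Agent.Work.MP_bf98aa_gt.Ns
end
end

-- merged part: Pool.Agent.Work.MP_bf98aa_gt.Ns.CoreA
section
/-!
The model form W0 on VV m: formula and nondegeneracy.
Hints. W0_apply: dd of (ph^2/2) (wD x o dx) is pull2 (pr) wD (it is pull1 pr of z -> (1/2) wD z, since wD x x = 0; dd_pull1, dd_half), dd (pull1 QQ lam3) = pull2 QQ (dd lam3), dd lam3 + wedge d3s d3t = vol3 (fld A B).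
PX_pr: ph^(2k) = N. fderiv PX at ph x is ph^(2k-1) fderiv PX at x, fderiv PX x x = 2k PX x. nd_W0: let J = fderiv pr y, Q = fderiv QQ y, J v = ph v.1 + (fderiv ph y v) x, fderiv ph y factors through Q. If PX x < u the form is ws near y.
Otherwise suppose W0 v = 0; test on (u,0,0) with dPX u = 0: wD (J v) = g dPX; dPX (J u) = ph^(1-2k) dH (Q u); Q is onto, take Q u = Y: g = 0; so J v = 0, Q v is parallel to Y, dH (Q v) = 0, Q v = 0, v = 0.
-/

set_option autoImplicit false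
set_option maxSynthPendingDepth 3
set_option linter.unusedSectionVars false
set_option linter.unusedVariables false

open Set Filter Topology Metric MeasureTheory
open scoped Manifold ContDiff

noncomputable section
namespace Pool.Agent.Work.MP_bf98aa_gt.Ns

open Pool.Agent.Work.MP_8c604c_gt

variable {V V' V'' : Type} [NormedAddCommGroup V] [NormedSpace ℝ V] [FiniteDimensional ℝ V]
  [NormedAddCommGroup V'] [NormedSpace ℝ V'] [FiniteDimensional ℝ V']
  [NormedAddCommGroup V''] [NormedSpace ℝ V''] [FiniteDimensional ℝ V''] {m : ℕ}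

variable {L a η P0 P1 P2 R : ℝ} {k : ℕ}

theorem contDiff_PX (k : ℕ) : ContDiff ℝ ∞ (PX k : XX m → ℝ) :=
  ContDiff.sum fun i _ => (contDiff_apply ℝ ℝ i).pow _

theorem contDiff_QQ (k : ℕ) : ContDiff ℝ ∞ (QQ k : VV m → R3) :=
  ((contDiff_PX k).comp contDiff_fst).prodMk (contDiff_snd.fst.prodMk contDiff_snd.snd)

theorem PX_nonneg (k : ℕ) (x : XX m) : 0 ≤ PX k x :=
  Finset.sum_nonneg fun i _ => (even_two_mul k).pow_nonneg _

theorem corea_le (k : ℕ) (x : XX m) (i : Fin m ⊕ Fin m) : x i ^ (2 * k) ≤ PX k x :=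
  Finset.single_le_sum (f := fun i => x i ^ (2 * k)) (fun i _ => (even_two_mul k).pow_nonneg _)
    (Finset.mem_univ i)

theorem le_PX (hm : 1 ≤ m) (k : ℕ) (x : XX m) : ‖x‖ ^ (2 * k) ≤ PX k x := by
  obtain ⟨i, -, hi⟩ := Finset.exists_max_image Finset.univ (fun i => ‖x i‖)
    ⟨Sum.inl ⟨0, hm⟩, Finset.mem_univ _⟩
  have h : ‖x‖ ≤ |x i| :=
    (pi_norm_le_iff_of_nonneg (abs_nonneg _)).2 fun j => hi j (Finset.mem_univ j)
  refine le_trans ?_ (corea_le k x i)
  rw [← (even_two_mul k).pow_abs]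
  exact pow_le_pow_left₀ (abs_nonneg _) (by rwa [abs_norm]) _ |>.trans
    ((even_two_mul k).pow_abs _).le

theorem PX_le (k : ℕ) (x : XX m) : PX k x ≤ 2 * m * ‖x‖ ^ (2 * k) := by
  have h : ∀ i ∈ (Finset.univ : Finset (Fin m ⊕ Fin m)), x i ^ (2 * k) ≤ ‖x‖ ^ (2 * k) := by
    intro i _
    rw [← (even_two_mul k).pow_abs (x i)]
    exact pow_le_pow_left₀ (abs_nonneg _) (norm_le_pi_norm x i) _
  refine (Finset.sum_le_card_nsmul _ _ _ h).trans_eq ?_
  rw [Finset.card_univ, Fintype.card_sum, Fintype.card_fin, nsmul_eq_mul, Nat.cast_add,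
    two_mul (m : ℝ)]

theorem PX_smul (k : ℕ) (c : ℝ) (x : XX m) : PX k (c • x) = c ^ (2 * k) * PX k x := by
  simp only [PX, Pi.smul_apply, smul_eq_mul, mul_pow, Finset.mul_sum]

theorem corea_dP (k : ℕ) (x v : XX m) :
    fderiv ℝ (PX k) x v = ∑ i, 2 * k * x i ^ (2 * k - 1) * v i := by
  have h : HasFDerivAt (PX k : XX m → ℝ) (∑ i, ((2 * k) • x i ^ (2 * k - 1)) •
      ContinuousLinearMap.proj (R := ℝ) (φ := fun _ : Fin m ⊕ Fin m => ℝ) i) x :=
    HasFDerivAt.fun_sum fun i _ => (hasFDerivAt_apply i x).pow (2 * k)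
  rw [h.fderiv, sum_apply]
  refine Finset.sum_congr rfl fun i _ => ?_
  simp

theorem fderiv_PX_self (k : ℕ) (x : XX m) : fderiv ℝ (PX k) x x = 2 * k * PX k x := by
  rw [corea_dP, PX, Finset.mul_sum]
  refine Finset.sum_congr rfl fun i _ => ?_
  rcases Nat.eq_zero_or_pos k with h | h
  · simp [h]
  · rw [mul_assoc, ← pow_succ, Nat.sub_add_cancel (by omega)]

theorem fderiv_PX_smul (hk : 1 ≤ k) (c : ℝ) (x : XX m) :
    fderiv ℝ (PX k) (c • x) = c ^ (2 * k - 1) • fderiv ℝ (PX k) x := by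
  refine ContinuousLinearMap.ext fun v => ?_
  rw [smul_apply, corea_dP, corea_dP, smul_eq_mul, Finset.mul_sum]
  refine Finset.sum_congr rfl fun i _ => ?_
  rw [Pi.smul_apply, smul_eq_mul, mul_pow]
  ring

theorem corea_diff {W : Type} [NormedAddCommGroup W] [NormedSpace ℝ W] {f : V → W}
    (hf : ContDiff ℝ ∞ f) (y : V) : DifferentiableAt ℝ f y :=
  (hf.differentiable (by simp)).differentiableAt

theorem fderiv_QQ (k : ℕ) (y v : VV m) :
    fderiv ℝ (QQ k) y v = (fderiv ℝ (PX k) y.1 v.1, v.2.1, v.2.2) := by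
  have h1 := (corea_diff (contDiff_PX (m := m) k) y.1).hasFDerivAt.comp y (dx m).hasFDerivAt
  have h2 := h1.prodMk ((dt m).hasFDerivAt.prodMk (ds m).hasFDerivAt)
  exact congrArg (fun l : VV m →L[ℝ] R3 => l v) h2.fderiv

theorem one_le_ph (D : M3 L a η P0 P1 P2 R) (y : VV m) : 1 ≤ ph k D.N y :=
  Real.one_le_rpow (D.one_le _) (by positivity)

theorem contDiff_ph (D : M3 L a η P0 P1 P2 R) : ContDiff ℝ ∞ (ph k D.N : VV m → ℝ) :=
  (D.smN.comp (contDiff_QQ k)).rpow_const_of_ne fun y =>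
    (one_pos.trans_le (D.one_le (QQ k y))).ne'

theorem contDiff_pr (D : M3 L a η P0 P1 P2 R) : ContDiff ℝ ∞ (pr k D.N : VV m → XX m) :=
  (contDiff_ph D).smul contDiff_fst

theorem PX_pr (hk : 1 ≤ k) (D : M3 L a η P0 P1 P2 R) (y : VV m) :
    PX k (pr k D.N y) = hgt D.N (QQ k y) := by
  have e : (1 / (2 * k : ℝ)) = ((2 * k : ℕ) : ℝ)⁻¹ := by
    rw [one_div, Nat.cast_mul, Nat.cast_ofNat]
  rw [pr, PX_smul, ph, e, Real.rpow_inv_natCast_pow (zero_le_one.trans (D.one_le _)) (by omega),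
    mul_comm]
  rfl

theorem fderiv_pr (D : M3 L a η P0 P1 P2 R) (y v : VV m) :
    fderiv ℝ (pr k D.N) y v = ph k D.N y • v.1 + fderiv ℝ (ph k D.N) y v • y.1 := by
  have h := (corea_diff (contDiff_ph (m := m) (k := k) D) y).hasFDerivAt.smul (dx m).hasFDerivAt
  exact congrArg (fun l : VV m →L[ℝ] XX m => l v) h.fderiv

theorem fderiv_ph_zero (D : M3 L a η P0 P1 P2 R) {y v : VV m} (h : fderiv ℝ (QQ k) y v = 0) :
    fderiv ℝ (ph k D.N) y v = 0 := by
  have h1 : ContDiff ℝ ∞ fun p => D.N p ^ (1 / (2 * k : ℝ)) :=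
    D.smN.rpow_const_of_ne fun p => (one_pos.trans_le (D.one_le p)).ne'
  have h2 := (corea_diff h1 (QQ k y)).hasFDerivAt.comp y (corea_diff (contDiff_QQ k) y).hasFDerivAt
  refine (congrArg (fun l : B1 (VV m) => l v) h2.fderiv).trans ?_
  simp only [ContinuousLinearMap.comp_apply, h, map_zero]

theorem corea_lam (D : M3 L a η P0 P1 P2 R) : ContDiff ℝ ∞ (lam3 D.A D.B D.C) :=
  ((D.smA.smul contDiff_const).add (D.smB.smul contDiff_const)).sub
    (D.smC.fderiv_right (m := ∞) le_rfl)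

theorem corea_pl (D : M3 L a η P0 P1 P2 R) :
    ContDiff ℝ ∞ (pull1 (QQ k) (lam3 D.A D.B D.C) : VV m → B1 (VV m)) :=
  contDiffOn_univ.1 (contDiffOn_pull1 isOpen_univ (contDiff_QQ k).contDiffOn (mapsTo_univ _ _)
    (corea_lam D).contDiffOn)

theorem corea_th : ContDiff ℝ ∞ fun y : VV m => (wD m y.1).comp (dx m) :=
  ((wD m).contDiff.comp contDiff_fst).clm_comp contDiff_const

theorem corea_g (D : M3 L a η P0 P1 P2 R) :
    ContDiff ℝ ∞ fun y : VV m => (ph k D.N y ^ 2 - 1) / 2 :=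
  (((contDiff_ph D).pow 2).sub contDiff_const).div_const _

theorem contDiff_mu0 (D : M3 L a η P0 P1 P2 R) :
    ContDiff ℝ ∞ (mu0 k D.N D.A D.B D.C : VV m → B1 (VV m)) :=
  ((corea_g D).smul corea_th).add (corea_pl D)

theorem corea_lin (l : B1 R3) (p : R3) :
    l p = p.1 * l (1, 0, 0) + p.2.1 * l (0, 1, 0) + p.2.2 * l (0, 0, 1) := by
  have e : p = p.1 • ((1, 0, 0) : R3) + p.2.1 • ((0, 1, 0) : R3) + p.2.2 • ((0, 0, 1) : R3) := by
    ext <;> simp
  conv_lhs => rw [e]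
  simp only [map_add, map_smul, smul_eq_mul]

theorem corea_dlam (D : M3 L a η P0 P1 P2 R) (p u v : R3) :
    dd (lam3 D.A D.B D.C) p u v + (u.2.2 * v.2.1 - u.2.1 * v.2.2) =
      vol3 (fld D.A D.B p) u v := by
  have hA : ContDiff ℝ ∞ fun q => D.A q • d3t := D.smA.smul contDiff_const
  have hB : ContDiff ℝ ∞ fun q => D.B q • d3s := D.smB.smul contDiff_const
  have e : dd (lam3 D.A D.B D.C) p =
      wedge (fderiv ℝ D.A p) d3t + wedge (fderiv ℝ D.B p) d3s := by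
    have h1 := dd_sub (corea_diff (hA.add hB) p) (corea_diff (D.smC.fderiv_right (m := ∞) le_rfl) p)
    rw [dd_add (corea_diff hA p) (corea_diff hB p), dd_smul_const (corea_diff D.smA p),
      dd_smul_const (corea_diff D.smB p), dd_fderiv D.smC.contDiffAt, sub_zero] at h1
    exact h1
  have t : ∀ q : R3, d3t q = q.2.1 := fun q => rfl
  have s : ∀ q : R3, d3s q = q.2.2 := fun q => rfl
  rw [e, add_apply, add_apply, wedge_apply, wedge_apply, t, t, s, s,
    corea_lin (fderiv ℝ D.A p) u, corea_lin (fderiv ℝ D.A p) v, corea_lin (fderiv ℝ D.B p) u,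
    corea_lin (fderiv ℝ D.B p) v]
  simp only [vol3, fld]
  ring

theorem corea_dth (y u v : VV m) :
    dd (fun y : VV m => (wD m y.1).comp (dx m)) y u v = 2 * wD m u.1 v.1 := by
  have h : HasFDerivAt (fun y : VV m => (wD m y.1).comp (dx m)) (pb (dx m) (wD m)) y :=
    (pb (dx m) (wD m)).hasFDerivAt
  rw [dd_apply, h.fderiv, pb_apply, pb_apply, skew_wD (dx m v), dx_apply, dx_apply]
  ring

theorem corea_dg (D : M3 L a η P0 P1 P2 R) (y u : VV m) :
    fderiv ℝ (fun y : VV m => (ph k D.N y ^ 2 - 1) / 2) y u =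
      ph k D.N y * fderiv ℝ (ph k D.N) y u := by
  have h := (((corea_diff (contDiff_ph (m := m) (k := k) D) y).hasFDerivAt.pow 2).sub_const
    1).mul_const (2 : ℝ)⁻¹
  refine (congrArg (fun l : B1 (VV m) => l u) h.fderiv).trans ?_
  simp only [smul_apply, smul_eq_mul, nsmul_eq_mul, Nat.cast_ofNat, Nat.add_one_sub_one, pow_one]
  ring

theorem W0_apply (D : M3 L a η P0 P1 P2 R) (y u v : VV m) : W0 k D.N D.A D.B D.C y u v =
    wD m (fderiv ℝ (pr k D.N) y u) (fderiv ℝ (pr k D.N) y v) +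
      vol3 (fld D.A D.B (QQ k y)) (fderiv ℝ (QQ k) y u) (fderiv ℝ (QQ k) y v) := by
  have h1 := dd_add (corea_diff ((corea_g (m := m) (k := k) D).smul corea_th) y)
    (corea_diff (corea_pl (k := k) D) y)
  have h2 := dd_smul (corea_diff (corea_g (m := m) (k := k) D) y) (corea_diff corea_th y)
  have h3 := dd_pull1 (contDiff_QQ k).contDiffAt (corea_diff (corea_lam D) (QQ k y))
  have h4 : dd (mu0 k D.N D.A D.B D.C) y = _ := h1.trans (congrArg₂ (· + ·) h2 h3)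
  rw [W0, h4, ← corea_dlam, fderiv_pr, fderiv_pr]
  simp only [add_apply, smul_apply, wedge_apply, corea_dth, corea_dg, pull2, pb_apply, ws_apply,
    map_add, map_smul, smul_eq_mul, ContinuousLinearMap.comp_apply, dx_apply, fderiv_QQ,
    skew_wD.self y.1, skew_wD u.1 y.1]
  ring

theorem corea_chain (hk : 1 ≤ k) (D : M3 L a η P0 P1 P2 R) (y v : VV m) :
    ph k D.N y ^ (2 * k - 1) * fderiv ℝ (PX k) y.1 (fderiv ℝ (pr k D.N) y v) =
      fderiv ℝ (hgt D.N) (QQ k y) (fderiv ℝ (QQ k) y v) := by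
  have hH : ContDiff ℝ ∞ (hgt D.N) := contDiff_fst.mul D.smN
  have h1 := (corea_diff (contDiff_PX (m := m) k) (pr k D.N y)).hasFDerivAt.comp y
    (corea_diff (contDiff_pr D) y).hasFDerivAt
  have h2 := (corea_diff hH (QQ k y)).hasFDerivAt.comp y (corea_diff (contDiff_QQ k) y).hasFDerivAt
  have e : PX k ∘ pr k D.N = hgt D.N ∘ (QQ k : VV m → R3) := funext (PX_pr hk D)
  rw [e] at h1
  have h3 := congrArg (fun l : B1 (VV m) => l v) (h1.unique h2)
  simp only [ContinuousLinearMap.comp_apply] at h3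
  rw [← h3, pr, fderiv_PX_smul hk, smul_apply, smul_eq_mul]

theorem corea_fin (D : M3 L a η P0 P1 P2 R) {y v : VV m} (hJ : fderiv ℝ (pr k D.N) y v = 0)
    (hQ : fderiv ℝ (QQ k) y v = 0) : v = 0 := by
  rw [fderiv_pr, fderiv_ph_zero D hQ, zero_smul, add_zero,
    smul_eq_zero_iff_right (one_pos.trans_le (one_le_ph D y)).ne'] at hJ
  rw [fderiv_QQ] at hQ
  exact Prod.ext hJ (congrArg (fun p : R3 => p.2) hQ)

theorem corea_par {l : B1 R3} {Y p : R3} (hY : 0 < l Y) (hp : l p = 0)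
    (h : ∀ q, vol3 Y p q = 0) : p = 0 := by
  have h1 := h (1, 0, 0)
  have h2 := h (0, 1, 0)
  have h3 := h (0, 0, 1)
  simp only [vol3] at h1 h2 h3
  rw [corea_lin] at hY hp
  refine Prod.ext ?_ (Prod.ext ?_ ?_)
  · refine (mul_eq_zero_iff_right hY.ne').1 ?_
    linear_combination Y.1 * hp + l (0, 1, 0) * h3 - l (0, 0, 1) * h2
  · refine (mul_eq_zero_iff_right hY.ne').1 ?_
    linear_combination Y.2.1 * hp - l (1, 0, 0) * h3 + l (0, 0, 1) * h1
  · refine (mul_eq_zero_iff_right hY.ne').1 ?_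
    linear_combination Y.2.2 * hp + l (1, 0, 0) * h2 - l (0, 1, 0) * h1

theorem corea_x0 (hk : 1 ≤ k) {x : XX m} (h : PX k x = 0) : x = 0 := by
  funext i
  exact pow_eq_zero_iff (by omega : 2 * k ≠ 0) |>.1
    (le_antisymm (h ▸ corea_le k x i) ((even_two_mul k).pow_nonneg _))

theorem corea_nd0 (hk : 1 ≤ k) (D : M3 L a η P0 P1 P2 R) {y : VV m}
    (hY : 0 < fderiv ℝ (hgt D.N) (QQ k y) (fld D.A D.B (QQ k y))) (h0 : PX k y.1 = 0) :
    Nd (W0 k D.N D.A D.B D.C y) := by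
  intro v hv
  have hx := corea_x0 hk h0
  have hp := (one_pos.trans_le (one_le_ph (k := k) D y)).ne'
  have hd : ∀ u, fderiv ℝ (PX k) y.1 u = 0 := fun u => by
    have := fderiv_PX_smul hk 0 y.1
    rw [zero_smul, zero_pow (by omega), zero_smul] at this
    rw [hx, this, zero_apply]
  have h1 : (fld D.A D.B (QQ k y)).1 ≠ 0 := fun h1 => by
    have h2 := (hasFDerivAt_fst (𝕜 := ℝ) (p := QQ k y)).mul (corea_diff D.smN (QQ k y)).hasFDerivAt
    have h3 := congrArg (fun l : B1 R3 => l (fld D.A D.B (QQ k y))) h2.fderiv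
    have h4 : (QQ k y).1 = 0 := h0
    simp only [add_apply, smul_apply, ContinuousLinearMap.coe_fst', h1, h4, smul_zero, zero_smul,
      add_zero] at h3
    exact hY.ne' h3
  have hw : ∀ w : VV m, ph k D.N y * (ph k D.N y * wD m v.1 w.1) +
      (fld D.A D.B (QQ k y)).1 * (v.2.2 * w.2.1 - v.2.1 * w.2.2) = 0 := fun w => by
    have := hv w
    rw [W0_apply, fderiv_pr, fderiv_pr, fderiv_QQ, fderiv_QQ, hd, hd, hx] at this
    simpa only [smul_zero, add_zero, map_smul, smul_apply, smul_eq_mul, vol3, mul_zero, zero_mul,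
      sub_zero] using this
  refine Prod.ext (nd_wD _ fun u => ?_) (Prod.ext ?_ ?_)
  · simpa [hp] using hw (u, 0, 0)
  · simpa [h1] using hw (0, 0, 1)
  · simpa [h1] using hw (0, 1, 0)

theorem nd_W0 (hk : 1 ≤ k) (D : M3 L a η P0 P1 P2 R) {y : VV m}
    (h : ¬(D.e (PX k y.1) = 0 ∧ y.2.1 = 0 ∧ y.2.2 = 0)) : Nd (W0 k D.N D.A D.B D.C y) := by
  have hY := D.pos (QQ k y) h
  by_cases h0 : PX k y.1 = 0
  · exact corea_nd0 hk D hY h0
  intro v hv
  have hp := one_pos.trans_le (one_le_ph (k := k) D y)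
  have hD : fderiv ℝ (PX k) y.1 y.1 ≠ 0 := by
    rw [fderiv_PX_self]
    exact mul_ne_zero (by positivity) h0
  have onto : ∀ q : R3, ∃ w : VV m, fderiv ℝ (QQ k) y w = q := fun q =>
    ⟨((q.1 / fderiv ℝ (PX k) y.1 y.1) • y.1, q.2.1, q.2.2), by
      rw [fderiv_QQ, map_smul, smul_eq_mul, div_mul_cancel₀ _ hD]⟩
  have ker : ∀ u, fderiv ℝ (PX k) y.1 u = 0 → wD m (fderiv ℝ (pr k D.N) y v) u = 0 := by
    intro u hu
    have hQ : fderiv ℝ (QQ k) y (u, 0, 0) = 0 := by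
      rw [fderiv_QQ, hu]
      rfl
    have := hv (u, 0, 0)
    rw [W0_apply, hQ, fderiv_pr D y (u, 0, 0), fderiv_ph_zero D hQ] at this
    simpa [vol3, hp.ne'] using this
  have all : ∀ z, wD m (fderiv ℝ (pr k D.N) y v) z = fderiv ℝ (PX k) y.1 z /
      fderiv ℝ (PX k) y.1 y.1 * wD m (fderiv ℝ (pr k D.N) y v) y.1 := fun z => by
    have := ker (z - (fderiv ℝ (PX k) y.1 z / fderiv ℝ (PX k) y.1 y.1) • y.1)
      (by rw [map_sub, map_smul, smul_eq_mul, div_mul_cancel₀ _ hD, sub_self])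
    rwa [map_sub, map_smul, smul_eq_mul, sub_eq_zero] at this
  have g0 : wD m (fderiv ℝ (pr k D.N) y v) y.1 = 0 := by
    obtain ⟨w, hw⟩ := onto (fld D.A D.B (QQ k y))
    have h1 := hv w
    have h2 : ∀ Y p : R3, vol3 Y p Y = 0 := fun Y p => by
      simp only [vol3]
      ring
    rw [W0_apply, hw, h2, add_zero, all] at h1
    refine (mul_eq_zero.1 h1).resolve_left (div_ne_zero (fun h3 => ?_) hD)
    rw [← hw, ← corea_chain hk, h3, mul_zero] at hY
    exact lt_irrefl _ hY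
  have hJ : fderiv ℝ (pr k D.N) y v = 0 := nd_wD _ fun z => by rw [all, g0, mul_zero]
  refine corea_fin D hJ (corea_par hY ?_ fun q => ?_)
  · rw [← corea_chain hk, hJ, map_zero, mul_zero]
  · obtain ⟨w, hw⟩ := onto q
    have := hv w
    rwa [W0_apply, hJ, map_zero, zero_apply, zero_add, hw] at this

/-- In the column the projection together with `t`, `s` is a local diffeomorphism. -/
theorem inj_col (hk : 1 ≤ k) (D : M3 L a η P0 P1 P2 R) {y : VV m}
    (h : 0 < fderiv ℝ (hgt D.N) (QQ k y) (1, 0, 0)) {v : VV m} (hv : fderiv ℝ (pr k D.N) y v = 0)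
    (ht : v.2.1 = 0) (hs : v.2.2 = 0) : v = 0 := by
  refine corea_fin D hv ?_
  have h1 := corea_chain hk D y v
  rw [hv, map_zero, mul_zero, corea_lin, fderiv_QQ, ht, hs, zero_mul, zero_mul, add_zero,
    add_zero] at h1
  rw [fderiv_QQ, ht, hs]
  exact Prod.ext ((mul_eq_zero_iff_right h.ne').1 h1.symm) rfl

end Pool.Agent.Work.MP_bf98aa_gt.Ns
end
end

-- merged part: Pool.Agent.Work.MP_bf98aa_gt.Ns.LensA
section
/-!
The form with teeth: positivity and homotopy off the negative drops.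
Hints. lam j is Sm1 (sm1_push1, support closedBall (c j) ((1+kappa) rad j)). dM al z = wedge df (sum amp j saw'(..) lam j) + eps sum amp j saw(..) dM (lam j) (dM_sum, dM_smul, dfM_comp), so w + dM al = pert w eps sigma + wedge df theta2, sigma j = saw(..).
theta2 = slope - sum amp j (1 - saw') lam j; pf_add_wedge, jj linear: est1 plus terms -amp j (1 - saw') jj >= 0 for positive j (est2); for negative j the term vanishes on good (SawOk.ne, push1_zero).
Homotopy: from w + wedge df theta to w + wedge df theta2 by htp_linear (pf is affine along the segment, use eps = 0), then add t eps (..) by htp_linear with t eps in [0, eps0]; nd_of_pf.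
-/

set_option autoImplicit false
set_option maxSynthPendingDepth 3
set_option linter.unusedSectionVars false
set_option linter.unusedVariables false

open Set Filter Topology Metric MeasureTheory
open scoped Manifold ContDiff

noncomputable section
namespace Pool.Agent.Work.MP_bf98aa_gt.Ns

open Pool.Agent.Work.MP_8c604c_gt

variable {V V' E : Type} [NormedAddCommGroup V] [NormedSpace ℝ V] [FiniteDimensional ℝ V]
  [NormedAddCommGroup V'] [NormedSpace ℝ V'] [FiniteDimensional ℝ V']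
  [NormedAddCommGroup E] [NormedSpace ℝ E] [FiniteDimensional ℝ E] {M : Type} [TopologicalSpace M]
  [ChartedSpace E M] [IsManifold 𝓘(ℝ, E) ∞ M] {m : ℕ}

theorem lensa_rad {T : Teeth m E M} {κ δ : ℝ} {f : M → ℝ} {w τ : M → B2 E}
    (h : T.Ok κ δ f w τ) (h0 : 0 < κ) (h1 : κ < 1 / 10) (j : Fin T.N) :
    (1 + κ) * T.rad j ≤ 5 * T.Rp := by
  have a := h.Rm_pos
  have b := h.Rp_eq
  have c : 0 < κ * T.Rm := mul_pos h0 a
  unfold Teeth.rad
  split_ifs
  · nlinarith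
  · have d : 0 < T.Rp := by nlinarith
    nlinarith

theorem lensa_supp {T : Teeth m E M} {κ δ : ℝ} {f : M → ℝ} {w τ : M → B2 E}
    (h : T.Ok κ δ f w τ) (j : Fin T.N) (y : VV m)
    (hy : y ∉ closedBall (T.c j) ((1 + κ) * T.rad j)) : T.ρ j y • dt m = 0 := by
  rw [mem_closedBall, dist_eq_norm, not_le] at hy
  rw [(h.bump j).2.2.2 y hy.le, zero_smul]

theorem Teeth.sm_lam [T2Space M] {T : Teeth m E M} {κ δ : ℝ} {f : M → ℝ} {w τ : M → B2 E}
    (h : T.Ok κ δ f w τ) (h0 : 0 < κ) (h1 : κ < 1 / 10) (j : Fin T.N) : Sm1 (T.lam j) := by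
  refine sm1_push1 (T.e j) (isCompact_closedBall (T.c j) ((1 + κ) * T.rad j))
    ((closedBall_subset_closedBall (lensa_rad h h0 h1 j)).trans (h.sub j)) ?_
    fun y _ hy => lensa_supp h j y hy
  exact ((h.bump j).1.smul contDiff_const).contDiffOn

theorem lensa_G {saw : ℝ → ℝ} (hs : ContDiff ℝ ∞ saw) (a ε c : ℝ) :
    ContDiff ℝ ∞ fun x : ℝ => a * saw (x / ε - c) :=
  contDiff_const.mul (hs.comp ((contDiff_id.div_const ε).sub contDiff_const))

theorem lensa_sm0 {f : M → ℝ} (hf : Sm0 E f) {g : ℝ → ℝ} (hg : ContDiff ℝ ∞ g) :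
    Sm0 E fun z => g (f z) := hg.contMDiff.comp hf

theorem Teeth.sm_al [T2Space M] {T : Teeth m E M} {κ δ : ℝ} {f : M → ℝ} {w τ : M → B2 E}
    (h : T.Ok κ δ f w τ) (h0 : 0 < κ) (h1 : κ < 1 / 10) (hf : Sm0 E f) (ε : ℝ) {saw : ℝ → ℝ}
    (hs : ContDiff ℝ ∞ saw) : Sm1 (T.al f ε saw) := by
  exact sm1_sum Finset.univ fun j _ =>
    Sm1.smul (lensa_sm0 hf (lensa_G hs (ε * T.amp j) ε (T.ph j))) (Teeth.sm_lam h h0 h1 j)

/-- The slope of the teeth. -/
def lensa_th (T : Teeth m E M) (f : M → ℝ) (ε : ℝ) (saw : ℝ → ℝ) (z : M) : B1 E :=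
  ∑ j, (T.amp j * deriv saw (f z / ε - T.ph j)) • T.lam j z

theorem lensa_sm_th [T2Space M] {T : Teeth m E M} {κ δ : ℝ} {f : M → ℝ} {w τ : M → B2 E}
    (h : T.Ok κ δ f w τ) (h0 : 0 < κ) (h1 : κ < 1 / 10) (hf : Sm0 E f) (ε : ℝ) {saw : ℝ → ℝ}
    (hs : ContDiff ℝ ∞ saw) : Sm1 (lensa_th T f ε saw) :=
  sm1_sum Finset.univ fun j _ =>
    Sm1.smul (lensa_sm0 hf (lensa_G (contDiff_infty_iff_deriv.1 hs).2 (T.amp j) ε (T.ph j)))
      (Teeth.sm_lam h h0 h1 j)

theorem lensa_deriv {saw : ℝ → ℝ} (hs : ContDiff ℝ ∞ saw) (a c : ℝ) {ε : ℝ} (hε : ε ≠ 0) (x : ℝ) :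
    deriv (fun x : ℝ => ε * a * saw (x / ε - c)) x = a * deriv saw (x / ε - c) := by
  have h1 : HasDerivAt (fun x : ℝ => x / ε - c) (1 / ε) x :=
    ((hasDerivAt_id x).div_const ε).sub_const c
  have h2 := (((contDiff_infty_iff_deriv.1 hs).1 (x / ε - c)).hasDerivAt.comp x h1).const_mul (ε * a)
  refine h2.deriv.trans ?_
  field_simp

theorem lensa_dM [T2Space M] {T : Teeth m E M} {κ δ : ℝ} {f : M → ℝ} {w τ : M → B2 E}
    (h : T.Ok κ δ f w τ) (h0 : 0 < κ) (h1 : κ < 1 / 10) (hf : Sm0 E f) {ε : ℝ} (hε : ε ≠ 0)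
    {saw : ℝ → ℝ} (hs : ContDiff ℝ ∞ saw) (z : M) :
    dM (T.al f ε saw) z = wedge (dfM E f z) (lensa_th T f ε saw z) +
      ε • ∑ j, (T.amp j * saw (f z / ε - T.ph j)) • dM (T.lam j) z := by
  have e := dM_sum Finset.univ
    (α := fun j z => (ε * T.amp j * saw (f z / ε - T.ph j)) • T.lam j z) (fun j _ =>
      Sm1.smul (lensa_sm0 hf (lensa_G hs (ε * T.amp j) ε (T.ph j))) (Teeth.sm_lam h h0 h1 j)) z
  refine e.trans ?_
  rw [lensa_th, wedge_sum_right, Finset.smul_sum, ← Finset.sum_add_distrib]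
  refine Finset.sum_congr rfl fun j _ => ?_
  rw [dM_smul (lensa_sm0 hf (lensa_G hs (ε * T.amp j) ε (T.ph j))) (Teeth.sm_lam h h0 h1 j),
    dfM_comp hf (lensa_G hs (ε * T.amp j) ε (T.ph j)), lensa_deriv hs _ _ hε, wedge_smul_left,
    wedge_smul_right, smul_smul, mul_assoc]

theorem lensa_key (hE : Module.finrank ℝ E = 2 * m + 2) {T : Teeth m E M} {κ δ : ℝ}
    {f : M → ℝ} {w τ : M → B2 E} (h : T.Ok κ δ f w τ) {ε η : ℝ} (hε : 0 < ε)
    {saw S : ℝ → ℝ} (hs : SawOk η saw S) {ε' : ℝ} (hε' : ε' ∈ Icc 0 T.ε0) {σ : Fin T.N → ℝ}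
    (hσ : ∀ j, |σ j| ≤ 2) {z : M} (hz : z ∈ T.good κ f ε η) :
    0 < pf (T.pert w ε' σ z + wedge (dfM E f z) (lensa_th T f ε saw z)) / pf (τ z) := by
  have e : lensa_th T f ε saw z = T.slope z +
      ∑ j, (T.amp j * (deriv saw (f z / ε - T.ph j) - 1)) • T.lam j z := by
    rw [lensa_th, Teeth.slope, ← Finset.sum_add_distrib]
    refine Finset.sum_congr rfl fun j _ => ?_
    rw [← add_smul]
    congr 1
    ring
  have k1 := h.est1 ε' hε' σ hσ z
  rw [pf_add_wedge] at k1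
  rw [e, pf_add_wedge, jj_add hE, jj_sum hE, ← add_assoc, add_div, Finset.sum_div]
  refine add_pos_of_pos_of_nonneg k1 (Finset.sum_nonneg fun j _ => ?_)
  rw [jj_smul hE, mul_div_assoc]
  cases hn : T.neg j with
  | false =>
    refine mul_nonneg ?_ (h.est2 ε' hε' σ hσ j z)
    have a1 : T.amp j = -T.dp := by simp [Teeth.amp, hn]
    have a2 := hs.le (f z / ε - T.ph j)
    have a3 := h.dm_pos.trans h.dm_lt
    rw [a1]
    nlinarith
  | true =>
    by_cases hd : deriv saw (f z / ε - T.ph j) = 1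
    · rw [hd, sub_self, mul_zero, zero_mul]
    · obtain ⟨k, b1, b2⟩ := hs.ne _ hd
      have a1 : T.rad j = T.Rm := by simp [Teeth.rad, hn]
      have a2 : T.lam j z = 0 := by
        refine push1_zero (T.e j) (K := closedBall (T.c j) ((1 + κ) * T.rad j))
          (fun y _ hy => lensa_supp h j y hy) fun hm => ?_
        rw [a1] at hm
        refine hz j hn k hm ⟨?_, ?_⟩
        · rw [le_sub_iff_add_le, le_div_iff₀ hε] at b1
          rw [Teeth.ht]
          linarith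
        · rw [sub_le_iff_le_add, div_le_iff₀ hε] at b2
          rw [Teeth.ht]
          linarith
      rw [a2, jj_zero, zero_div, mul_zero]

theorem lensa_bd {η : ℝ} {saw S : ℝ → ℝ} (hs : SawOk η saw S) (x : ℝ) : |saw x| ≤ 2 :=
  (hs.bd x).trans one_le_two

theorem lensA_pos [T2Space M] (hE : Module.finrank ℝ E = 2 * m + 2) {T : Teeth m E M} {κ δ : ℝ}
    {f : M → ℝ} {w τ : M → B2 E} (h : T.Ok κ δ f w τ) (h0 : 0 < κ) (h1 : κ < 1 / 10)
    (hf : Sm0 E f) {ε η : ℝ} (hε : 0 < ε) (hε0 : ε ≤ T.ε0) {saw S : ℝ → ℝ} (hs : SawOk η saw S) :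
    ∀ z ∈ T.good κ f ε η, 0 < rat (fun x => w x + dM (T.al f ε saw) x) τ z := by
  intro z hz
  have k := lensa_key hE h hε hs ⟨hε.le, hε0⟩ (σ := fun j => saw (f z / ε - T.ph j))
    (fun j => lensa_bd hs _) hz
  change 0 < pf (w z + dM (T.al f ε saw) z) / pf (τ z)
  rw [lensa_dM h h0 h1 hf hε.ne' hs.sm, add_comm (wedge _ _), ← add_assoc]
  exact k

theorem lensA_htp [T2Space M] (hE : Module.finrank ℝ E = 2 * m + 2) {T : Teeth m E M} {κ δ : ℝ}
    {f : M → ℝ} {w τ : M → B2 E} (h : T.Ok κ δ f w τ) (h0 : 0 < κ) (h1 : κ < 1 / 10)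
    (hf : Sm0 E f) (hw : Cl2 w) {θ : M → B1 E} (hθ : Sm1 θ)
    (hT : Htp univ τ fun z => w z + wedge (dfM E f z) (θ z)) {ε η : ℝ} (hε : 0 < ε)
    (hε0 : ε ≤ T.ε0) {saw S : ℝ → ℝ} (hs : SawOk η saw S) :
    Htp (T.good κ f ε η) τ fun x => w x + dM (T.al f ε saw) x := by
  have s2 := lensa_sm_th h h0 h1 hf ε hs.sm
  have sd := sm1_dfM hf
  have H1 : Htp (T.good κ f ε η) (fun z => w z + wedge (dfM E f z) (θ z)) fun z =>
      w z + wedge (dfM E f z) (θ z) + wedge (dfM E f z) (lensa_th T f ε saw z - θ z) := by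
    refine htp_linear (hw.sm2.add (sm2_wedge sd hθ)) (sm2_wedge sd (s2.sub hθ)) fun t ht x hx => ?_
    have sk : Skew (w x + wedge (dfM E f x) (θ x) +
        t • wedge (dfM E f x) (lensa_th T f ε saw x - θ x)) :=
      ((hw.skew x).add (skew_wedge _ _)).add ((skew_wedge _ _).smul t)
    refine ⟨sk, nd_of_pf hE sk fun e => ?_⟩
    have k0 := hT.rat_pos hE (mem_univ x)
    have k1 := lensa_key hE h hε hs ⟨le_rfl, h.ε0_pos.le⟩ (σ := fun _ => 0) (fun j => by simp) hx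
    rw [Teeth.pert, zero_smul, add_zero, pf_add_wedge] at k1
    unfold rat at k0
    rw [pf_add_wedge] at k0
    have e1 : lensa_th T f ε saw x = θ x + (lensa_th T f ε saw x - θ x) := by abel
    rw [e1, jj_add hE] at k1
    rw [add_assoc, ← wedge_smul_right, ← wedge_add_right, pf_add_wedge, jj_add hE, jj_smul hE] at e
    generalize jj (w x) (dfM E f x) (lensa_th T f ε saw x - θ x) = c at k1 e
    generalize jj (w x) (dfM E f x) (θ x) = b at k0 k1 e
    generalize pf (w x) = a at k0 k1 e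
    have e2 : (1 - t) * ((a + b) / pf (τ x)) + t * ((a + (b + c)) / pf (τ x)) =
        (a + (b + t * c)) / pf (τ x) := by ring
    rw [e, zero_div] at e2
    rcases ht.1.eq_or_lt with rfl | h2
    · linarith
    · have := mul_pos h2 k1
      have := mul_nonneg (sub_nonneg.2 ht.2) k0.le
      linarith
  have H2 : Htp (T.good κ f ε η) (fun z => w z + wedge (dfM E f z) (lensa_th T f ε saw z)) fun z =>
      w z + wedge (dfM E f z) (lensa_th T f ε saw z) +
        (dM (T.al f ε saw) z - wedge (dfM E f z) (lensa_th T f ε saw z)) := by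
    have ca := cl2_dM (Teeth.sm_al h h0 h1 hf ε hs.sm)
    refine htp_linear (hw.sm2.add (sm2_wedge sd s2)) (ca.sm2.sub (sm2_wedge sd s2))
      fun t ht x hx => ?_
    have sk : Skew (w x + wedge (dfM E f x) (lensa_th T f ε saw x) +
        t • (dM (T.al f ε saw) x - wedge (dfM E f x) (lensa_th T f ε saw x))) :=
      ((hw.skew x).add (skew_wedge _ _)).add (((ca.skew x).sub (skew_wedge _ _)).smul t)
    refine ⟨sk, nd_of_pf hE sk fun e => ?_⟩
    have k := lensa_key hE h hε hs (ε' := t * ε)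
      ⟨mul_nonneg ht.1 hε.le, (mul_le_of_le_one_left hε.le ht.2).trans hε0⟩
      (σ := fun j => saw (f x / ε - T.ph j)) (fun j => lensa_bd hs _) hx
    rw [lensa_dM h h0 h1 hf hε.ne' hs.sm, add_sub_cancel_left, smul_smul, add_right_comm] at e
    rw [Teeth.pert, e, zero_div] at k
    exact lt_irrefl _ k
  refine (hT.mono (subset_univ _)).trans (Htp.trans (H1.congr (fun _ _ => rfl) fun x _ => ?_)
    (H2.congr (fun _ _ => rfl) fun x _ => ?_))
  · rw [wedge_sub_right]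
    abel
  · abel

end Pool.Agent.Work.MP_bf98aa_gt.Ns
end
end

-- merged part: Pool.Agent.Work.MP_bf98aa_gt.Ns.NF
section
/-!
The normal form near a level slice.
Plan (WLOG by translation c.1 = 0, c.2.1 = 0, or carry c). kappa may be replaced by min kappa (1/10).
Step A. On a neighbourhood of the compact slice S = {lat (y - c) <= 4R, s = c.s} the form is nondegenerate, X = sharp W dt is smooth, X.t = 0 (skew), X.s > 0 (cross_pos, JJ_close). Y = chi X + (1 - chi) es with a cut-off chi (exists_cut) supported where X.s > 0;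
Y.s >= c0 > 0 by compactness, Y.t = 0. PsiA = box of the flow of Y with j = ds, e = es (box_dif; box_pull with theta = dt on the open set O where chi = 1; for small |u| orbits from S stay in O by Flow.disp and a Lebesgue number).
So pull2 PsiA W = sigma + ds ^ dt, sigma(x,t) = restriction of W to the slice (a closed form on XX x R: Form2On.pull by the affine inclusion).
Step B. On XX m x R: Z = (- chi sharp (sigma_xx) (sigma((0,1), .) restricted to XX), 1), sigma Z = 0 where chi = 1, horizontal part of norm <= C delta. PsiB = box with j = snd, e = (0,1), c = 0, theta = 0: the pull-back is sigma0(x) = W on the slice t = 0.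
Step C. darb on XX m for sigma0 and wD (apply it with a radius a little larger than R). Psi = translate o PsiA o (PsiB x id) o (phi x id x id); build product maps as Dif by hand.
-/

set_option autoImplicit false
set_option maxSynthPendingDepth 3
set_option linter.unusedSectionVars false
set_option linter.unusedVariables false

open Set Filter Topology Metric
open scoped Manifold ContDiff

noncomputable section
namespace Pool.Agent.Work.MP_bf98aa_gt.Ns

open Pool.Agent.Work.MP_8c604c_gt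

variable {V V' V'' : Type} [NormedAddCommGroup V] [NormedSpace ℝ V] [FiniteDimensional ℝ V]
  [NormedAddCommGroup V'] [NormedSpace ℝ V'] [FiniteDimensional ℝ V']
  [NormedAddCommGroup V''] [NormedSpace ℝ V''] [FiniteDimensional ℝ V''] {m : ℕ}

theorem nf_flow {X : V → V} (hX : ContDiff ℝ ∞ X) {K : Set V} (hK : IsCompact K) {c : V}
    (h : ∀ y, y ∉ K → X y = c) : Nonempty (Flow X) := by
  obtain ⟨L, hL⟩ := lip_of_const hX hK h
  exact exists_Flow hX hL

theorem nf_bdd {X : V → V} (hX : Continuous X) {K : Set V} (hK : IsCompact K) {c : V}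
    (h : ∀ y, y ∉ K → X y = c) : ∃ C : ℝ, 0 < C ∧ ∀ y, ‖X y‖ ≤ C := by
  obtain ⟨C, hC⟩ := hK.exists_bound_of_continuousOn hX.continuousOn
  refine ⟨max (max C ‖c‖) 1, lt_of_lt_of_le one_pos (le_max_right _ _), fun y => ?_⟩
  by_cases hy : y ∈ K
  · exact (hC y hy).trans ((le_max_left _ _).trans (le_max_left _ _))
  · rw [h y hy]
    exact (le_max_right _ _).trans (le_max_left _ _)

theorem nf_abs {a s : ℝ} (h : s ∈ uIcc 0 a) : |s| ≤ |a| := by
  rcases mem_uIcc.1 h with h | h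
  · rw [abs_of_nonneg h.1]
    exact h.2.trans (le_abs_self a)
  · rw [abs_of_nonpos h.2]
    exact (neg_le_neg h.1).trans (neg_le_abs a)

theorem nf_smooth (φ : Dif V) : ContDiff ℝ ∞ φ := φ.smooth

theorem nf_diff (φ : Dif V) (y : V) : DifferentiableAt ℝ φ y :=
  (φ.smooth.differentiable (by simp)).differentiableAt

/-- The cut-off Hamiltonian field of `t`. -/
theorem nf_A0 {R : ℝ} {U : Set (VV m)} {W : VV m → B2 (VV m)} (hU : IsOpen U) (hW : Form2On U W)
    (h : ∀ y : VV m, lat y ≤ R → y.2.2 = 0 → y ∈ U ∧ 0 < PP (W y) ∧ 0 < JJ (W y)) :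
    ∃ (Y : VV m → VV m) (K O : Set (VV m)) (c0 : ℝ), ContDiff ℝ ∞ Y ∧ IsCompact K ∧
      (∀ y, y ∉ K → Y y = es m) ∧ IsOpen O ∧ box m R 0 0 ⊆ O ∧ O ⊆ U ∧
      (∀ z ∈ O, W z (Y z) = dt m) ∧ 0 < c0 ∧ (∀ y, c0 ≤ (Y y).2.2) ∧ ∀ y, (Y y).2.1 = 0 := by
  have hc : ContinuousOn W U := hW.smooth.continuousOn
  have hU1 : IsOpen (U ∩ W ⁻¹' {b | 0 < PP b ∧ 0 < JJ b}) :=
    hc.isOpen_inter_preimage hU
      ((isOpen_lt continuous_const continuous_PP).inter (isOpen_lt continuous_const continuous_JJ))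
  have hS : box m R 0 0 ⊆ U ∩ W ⁻¹' {b | 0 < PP b ∧ 0 < JJ b} := fun y hy =>
    h y hy.1 (le_antisymm hy.2.2 hy.2.1)
  have hnd : ∀ y ∈ U ∩ W ⁻¹' {b | 0 < PP b ∧ 0 < JJ b}, Nd (W y) := fun y hy =>
    nd_of_PP (hW.skew y hy.1) hy.2.1.ne'
  have hX : ContDiffOn ℝ ∞ (fun y => sharp (W y) (dt m)) (U ∩ W ⁻¹' {b | 0 < PP b ∧ 0 < JJ b}) :=
    contDiffOn_sharp.comp ((hW.smooth.mono inter_subset_left).prodMk contDiffOn_const) hnd
  have hXs : ∀ y ∈ U ∩ W ⁻¹' {b | 0 < PP b ∧ 0 < JJ b}, 0 < (sharp (W y) (dt m)).2.2 := fun y hy =>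
    cross_pos (hW.skew y hy.1) hy.2.1 hy.2.2 (sharp_spec (hnd y hy) _)
  have hXt : ∀ y ∈ U ∩ W ⁻¹' {b | 0 < PP b ∧ 0 < JJ b}, (sharp (W y) (dt m)).2.1 = 0 := by
    intro y hy
    rw [← dt_apply, ← sharp_spec (hnd y hy) (dt m), sharp_eq (hnd y hy) rfl]
    exact (hW.skew y hy.1).self _
  obtain ⟨χ, K, O, hχ, hK, hKU, hO, hSO, hOK, h1, h0, h01⟩ := exists_cut (isCompact_box R 0 0) hU1 hS
  obtain ⟨c1, hc1, hc1'⟩ : ∃ c1 : ℝ, 0 < c1 ∧ ∀ y ∈ K, c1 ≤ (sharp (W y) (dt m)).2.2 := by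
    rcases K.eq_empty_or_nonempty with he | hne
    · exact ⟨1, one_pos, fun y hy => absurd (he ▸ hy) (notMem_empty y)⟩
    · obtain ⟨y0, hy0, hmin⟩ := hK.exists_isMinOn hne
        (continuous_snd.snd.comp_continuousOn (hX.continuousOn.mono hKU))
      exact ⟨_, hXs y0 (hKU hy0), fun y hy => hmin hy⟩
  have hf : ContDiff ℝ ∞ fun y => χ y • (sharp (W y) (dt m) - es m) :=
    contDiff_of_supp hU1 hK.isClosed hKU (hχ.contDiffOn.smul (hX.sub contDiffOn_const))
      fun y hy => by rw [h0 y hy, zero_smul]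
  refine ⟨fun y => es m + χ y • (sharp (W y) (dt m) - es m), K, O, min c1 1, contDiff_const.add hf,
    hK, fun y hy => by simp only [h0 y hy, zero_smul, add_zero], hO, hSO,
    fun y hy => (hKU (hOK hy)).1, fun z hz => ?_, lt_min hc1 one_pos, fun y => ?_, fun y => ?_⟩
  · simp only [h1 z hz, one_smul, add_sub_cancel]
    exact sharp_spec (hnd z (hKU (hOK hz))) _
  · change min c1 1 ≤ 1 + χ y * ((sharp (W y) (dt m)).2.2 - 1)
    by_cases hy : y ∈ K
    · have a1 := (min_le_left c1 1).trans (hc1' y hy)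
      have a2 := min_le_right c1 1
      obtain ⟨a3, a4⟩ := h01 y
      nlinarith [mul_nonneg a3 (sub_nonneg.2 a1), mul_nonneg (sub_nonneg.2 a4) (sub_nonneg.2 a2)]
    · rw [h0 y hy, zero_mul, add_zero]
      exact min_le_right _ _
  · change 0 + χ y * ((sharp (W y) (dt m)).2.1 - 0) = 0
    by_cases hy : y ∈ K
    · rw [hXt y (hKU hy), sub_zero, mul_zero, add_zero]
    · rw [h0 y hy, zero_mul, add_zero]

theorem nf_slice (y : VV m) : y - ds m y • es m + (0 : ℝ) • es m = (y.1, y.2.1, 0) := by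
  rw [ds_apply]
  ext <;> simp [es]

theorem nf_proj (u : VV m) :
    (ContinuousLinearMap.id ℝ (VV m) - (ds m).smulRight (es m)) u = (u.1, u.2.1, 0) := by
  rw [sub_apply, ContinuousLinearMap.id_apply,
    ContinuousLinearMap.smulRight_apply, ds_apply]
  ext <;> simp [es]

/-- The flow box of the Hamiltonian field of `t`. -/
theorem nf_A {R ε : ℝ} (hε : 0 < ε) {U : Set (VV m)} {W : VV m → B2 (VV m)} (hU : IsOpen U)
    (hW : Form2On U W)
    (h : ∀ y : VV m, lat y ≤ R → y.2.2 = 0 → y ∈ U ∧ 0 < PP (W y) ∧ 0 < JJ (W y)) :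
    ∃ (Ψ : Dif (VV m)) (a0 c0 : ℝ), 0 < a0 ∧ 0 < c0 ∧ (∀ y, (Ψ y).2.1 = y.2.1) ∧
      (∀ x t, Ψ (x, t, 0) = (x, t, 0)) ∧
      (∀ x t u u', u ≤ u' → c0 * (u' - u) ≤ (Ψ (x, t, u')).2.2 - (Ψ (x, t, u)).2.2) ∧
      (∀ y : VV m, |y.2.2| ≤ a0 → ‖(Ψ y).1 - y.1‖ ≤ ε) ∧
      ∀ y : VV m, lat y ≤ R → |y.2.2| ≤ a0 → Ψ y ∈ U ∧ ∀ u v, pull2 Ψ W y u v =
        W (y.1, y.2.1, 0) (u.1, u.2.1, 0) (v.1, v.2.1, 0) + (u.2.2 * v.2.1 - u.2.1 * v.2.2) := by
  obtain ⟨Y, K, O, c0, hY, hK, hYK, hO, hSO, hOU, hθ, hc0, hs, ht⟩ := nf_A0 hU hW h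
  obtain ⟨F⟩ := nf_flow hY hK hYK
  obtain ⟨C, hC, hYC⟩ := nf_bdd hY.continuous hK hYK
  obtain ⟨ρ, hρ, hρO⟩ := (isCompact_box (m := m) R 0 0).exists_cthickening_subset_open hO hSO
  have hj : ds m (es m) = 1 := rfl
  obtain ⟨Ψ, hΨ⟩ := F.box_dif hY hj 0 hc0 hs
  have hΨ' : ∀ y, Ψ y = F.φ y.2.2 (y.1, y.2.1, 0) := fun y => by
    rw [hΨ, Flow.box, nf_slice, ds_apply]
  have hd : ∀ s y, |s| ≤ min ρ ε / C → ‖F.φ s y - y‖ ≤ min ρ ε := fun s y hs => by
    have := F.disp (ContinuousLinearMap.id ℝ (VV m)) hYC s y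
    rw [le_div_iff₀ hC, mul_comm] at hs
    exact le_trans this hs
  have hin : ∀ y : VV m, lat y ≤ R → ∀ s, |s| ≤ min ρ ε / C → F.φ s (y.1, y.2.1, 0) ∈ O := by
    intro y hy s hs
    refine hρO (mem_cthickening_of_dist_le _ (y.1, y.2.1, 0) ρ _ ⟨hy, le_rfl, le_rfl⟩ ?_)
    rw [dist_eq_norm]
    exact (hd s _ hs).trans (min_le_left _ _)
  refine ⟨Ψ, min ρ ε / C, c0, div_pos (lt_min hρ hε) hC, hc0, fun y => ?_, fun x t => ?_,
    fun x t u u' hu => ?_, fun y hy => ?_, fun y hy hy' => ⟨?_, fun u v => ?_⟩⟩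
  · have := F.disp (dt m) (C := 0) (fun z => by rw [dt_apply, ht, norm_zero]) y.2.2 (y.1, y.2.1, 0)
    rw [zero_mul, norm_le_zero_iff, sub_eq_zero] at this
    rw [hΨ']
    exact this
  · rw [hΨ', F.zero]
  · rw [hΨ', hΨ']
    exact F.mono (ds m) hs hu (x, t, 0)
  · rw [hΨ']
    exact (norm_fst_le (F.φ y.2.2 (y.1, y.2.1, 0) - (y.1, y.2.1, 0))).trans
      ((hd _ _ hy).trans (min_le_right _ _))
  · rw [hΨ']
    exact hOU (hin y hy _ hy')
  · have e : (Ψ : VV m → VV m) = F.box (ds m) (es m) 0 := funext hΨ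
    have := F.box_pull hY hj 0 hO (hW.mono hOU) hθ (y := y) fun s hs => by
      rw [nf_slice]
      exact hin y hy s ((nf_abs hs).trans hy')
    rw [e, this, nf_slice, add_apply, add_apply, pb_apply,
      wedge_apply, ContinuousLinearMap.comp_apply, ContinuousLinearMap.comp_apply, nf_proj, nf_proj]
    rfl

theorem nf_xx {w0 : B2 V} {b : B2 (V × ℝ)} {δ : ℝ} (hδ : 0 ≤ δ)
    (h : ∀ u v, |b u v - w0 u.1 v.1| ≤ δ * ‖u‖ * ‖v‖) :
    ‖pb (ContinuousLinearMap.inl ℝ V ℝ) b - w0‖ ≤ δ := by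
  refine ContinuousLinearMap.opNorm_le_bound₂ _ hδ fun u v => ?_
  have := h (u, 0) (v, 0)
  rw [Prod.norm_mk, Prod.norm_mk, norm_zero, max_eq_left (norm_nonneg u),
    max_eq_left (norm_nonneg v)] at this
  rw [sub_apply, sub_apply, pb_apply]
  exact this

theorem nf_xt {w0 : B2 V} {b : B2 (V × ℝ)} {δ : ℝ} (hδ : 0 ≤ δ)
    (h : ∀ u v, |b u v - w0 u.1 v.1| ≤ δ * ‖u‖ * ‖v‖) :
    ‖(b (0, 1)).comp (ContinuousLinearMap.inl ℝ V ℝ)‖ ≤ δ := by
  refine ContinuousLinearMap.opNorm_le_bound _ hδ fun v => ?_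
  have := h (0, 1) (v, 0)
  rw [Prod.norm_mk, Prod.norm_mk, norm_zero, norm_zero, norm_one, max_eq_left (norm_nonneg v),
    max_eq_right zero_le_one, mul_one, map_zero, zero_apply, sub_zero] at this
  exact this

theorem nf_ker {b : B2 (V × ℝ)} (hs : Skew b) (hn : Nd (pb (ContinuousLinearMap.inl ℝ V ℝ) b)) :
    b (-sharp (pb (ContinuousLinearMap.inl ℝ V ℝ) b)
      ((b (0, 1)).comp (ContinuousLinearMap.inl ℝ V ℝ)), 1) = 0 := by
  generalize hh : sharp (pb (ContinuousLinearMap.inl ℝ V ℝ) b)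
    ((b (0, 1)).comp (ContinuousLinearMap.inl ℝ V ℝ)) = h
  have h1 : ∀ v, b (h, 0) (v, 0) = b (0, 1) (v, 0) := fun v => by
    have := congrArg (fun l : B1 V => l v)
      (sharp_spec hn ((b (0, 1)).comp (ContinuousLinearMap.inl ℝ V ℝ)))
    rw [hh] at this
    simp only [pb_apply] at this
    exact this
  have h2 : ∀ v, b (-h, 1) (v, 0) = 0 := fun v => by
    have e : ((-h, 1) : V × ℝ) = (0, 1) - (h, 0) := by ext <;> simp
    rw [e, map_sub, sub_apply, h1, sub_self]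
  refine ContinuousLinearMap.ext fun p => ?_
  have e : p = (p.1 + p.2 • h, 0) + p.2 • ((-h, 1) : V × ℝ) := by ext <;> simp
  rw [e, map_add, map_smul, h2, hs.self, smul_zero, add_zero, zero_apply]

theorem nf_pbs {U : Set V''} {σ : V'' → B2 V'} (h : ContDiffOn ℝ ∞ σ U) (L : V →L[ℝ] V') :
    ContDiffOn ℝ ∞ (fun p => pb L (σ p)) U :=
  (contDiff_pb (V := V) (V' := V')).comp_contDiffOn (f := fun p => (L, σ p))
    (contDiffOn_const.prodMk h)

theorem nf_shs {U : Set V'} {σ : V' → B2 V} {θ : V' → B1 V} (h : ContDiffOn ℝ ∞ σ U)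
    (h' : ContDiffOn ℝ ∞ θ U) (hn : ∀ p ∈ U, Nd (σ p)) :
    ContDiffOn ℝ ∞ (fun p => sharp (σ p) (θ p)) U :=
  (contDiffOn_sharp (V := V)).comp (f := fun p => (σ p, θ p)) (h.prodMk h') hn

theorem nf_B00 {w0 : B2 V} (hn : Nd w0) {κ : ℝ} (hκ : 0 < κ) : ∃ δ : ℝ, 0 < δ ∧
    ∀ (U : Set (V × ℝ)) (σ : V × ℝ → B2 (V × ℝ)), Form2On U σ →
      (∀ p ∈ U, ∀ u v, |σ p u v - w0 u.1 v.1| ≤ δ * ‖u‖ * ‖v‖) →
      ∃ g : V × ℝ → V, ContDiffOn ℝ ∞ g U ∧ (∀ p ∈ U, σ p (g p, 1) = 0) ∧ ∀ p ∈ U, ‖g p‖ ≤ κ := by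
  obtain ⟨δ, C, hδ, hC, hb⟩ := sharp_bound hn
  have hδ' : 0 < min δ (κ / C) := lt_min hδ (div_pos hκ hC)
  refine ⟨min δ (κ / C), hδ', fun U σ hσ h => ?_⟩
  have hb' : ∀ p ∈ U, Nd (pb (ContinuousLinearMap.inl ℝ V ℝ) (σ p)) ∧
      ∀ θ, ‖sharp (pb (ContinuousLinearMap.inl ℝ V ℝ) (σ p)) θ‖ ≤ C * ‖θ‖ := fun p hp =>
    hb _ ((nf_xx hδ'.le (h p hp)).trans (min_le_left _ _))
  have h2 : ContDiffOn ℝ ∞ (fun p => (σ p (0, 1)).comp (ContinuousLinearMap.inl ℝ V ℝ)) U :=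
    (hσ.smooth.clm_apply contDiffOn_const).clm_comp contDiffOn_const
  have hX := (nf_shs (nf_pbs hσ.smooth _) h2 fun p hp => (hb' p hp).1).neg
  refine ⟨_, hX, fun p hp => nf_ker (hσ.skew p hp) (hb' p hp).1, fun p hp => ?_⟩
  have a1 := (hb' p hp).2 ((σ p (0, 1)).comp (ContinuousLinearMap.inl ℝ V ℝ))
  have a2 := (nf_xt hδ'.le (h p hp)).trans (min_le_right _ _)
  rw [le_div_iff₀ hC, mul_comm] at a2
  rw [norm_neg]
  exact a1.trans a2

/-- The cut-off characteristic field of the slice. -/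
theorem nf_B0 {w0 : B2 V} (hn : Nd w0) {κ : ℝ} (hκ : 0 < κ) : ∃ δ : ℝ, 0 < δ ∧
    ∀ (R : ℝ) (σ : V × ℝ → B2 (V × ℝ)), 0 < R → Form2On (ball 0 (4 * R)) σ →
      (∀ p ∈ ball (0 : V × ℝ) (4 * R), ∀ u v, |σ p u v - w0 u.1 v.1| ≤ δ * ‖u‖ * ‖v‖) →
      ∃ (Z : V × ℝ → V × ℝ) (K O : Set (V × ℝ)), ContDiff ℝ ∞ Z ∧ IsCompact K ∧
        (∀ p, p ∉ K → Z p = (0, 1)) ∧ IsOpen O ∧ closedBall 0 (7 / 2 * R) ⊆ O ∧
        O ⊆ ball 0 (4 * R) ∧ (∀ p ∈ O, σ p (Z p) = 0) ∧ (∀ p, (Z p).2 = 1) ∧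
        ∀ p, ‖(Z p).1‖ ≤ κ := by
  obtain ⟨δ, hδ, hb⟩ := nf_B00 hn hκ
  refine ⟨δ, hδ, fun R σ hR hσ h => ?_⟩
  obtain ⟨g, hg, hg0, hgκ⟩ := hb _ σ hσ h
  obtain ⟨χ, K, O, hχ, hK, hKU, hO, hSO, hOK, k1, k0, k01⟩ :=
    exists_cut (isCompact_closedBall (0 : V × ℝ) (7 / 2 * R)) isOpen_ball
      (closedBall_subset_ball (by linarith : 7 / 2 * R < 4 * R))
  have hf : ContDiff ℝ ∞ fun p => χ p • g p :=
    contDiff_of_supp isOpen_ball hK.isClosed hKU (hχ.contDiffOn.smul hg)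
      fun y hy => by rw [k0 y hy, zero_smul]
  refine ⟨fun p => (χ p • g p, 1), K, O, hf.prodMk contDiff_const, hK,
    fun p hp => by simp only [k0 p hp, zero_smul], hO, hSO, hOK.trans hKU, fun p hp => ?_,
    fun p => rfl, fun p => ?_⟩
  · simp only [k1 p hp, one_smul]
    exact hg0 p (hKU (hOK hp))
  · by_cases hp : p ∈ K
    · simp only [norm_smul, Real.norm_of_nonneg (k01 p).1]
      exact (mul_le_of_le_one_left (norm_nonneg _) (k01 p).2).trans (hgκ p (hKU hp))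
    · simp only [k0 p hp, zero_smul, norm_zero]
      exact hκ.le

theorem nf_slice' (p : V × ℝ) :
    p - ContinuousLinearMap.snd ℝ V ℝ p • ((0, 1) : V × ℝ) + (0 : ℝ) • ((0, 1) : V × ℝ) =
      (p.1, 0) := by
  ext <;> simp

theorem nf_proj' (p : V × ℝ) : (ContinuousLinearMap.id ℝ (V × ℝ) -
    (ContinuousLinearMap.snd ℝ V ℝ).smulRight ((0, 1) : V × ℝ)) p = (p.1, 0) := by
  ext <;> simp

/-- The flow box of the characteristic field. -/
theorem nf_B {w0 : B2 V} (hn : Nd w0) {κ : ℝ} (hκ : 0 < κ) (hκ' : κ ≤ 1 / 4) : ∃ δ : ℝ, 0 < δ ∧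
    ∀ (R : ℝ) (σ : V × ℝ → B2 (V × ℝ)), 0 < R → Form2On (ball 0 (4 * R)) σ →
      (∀ p ∈ ball (0 : V × ℝ) (4 * R), ∀ u v, |σ p u v - w0 u.1 v.1| ≤ δ * ‖u‖ * ‖v‖) →
      ∃ H : Dif (V × ℝ), (∀ p, (H p).2 = p.2) ∧ (∀ p, ‖(H p).1 - p.1‖ ≤ κ * |p.2|) ∧
        ∀ p : V × ℝ, ‖p.1‖ ≤ 3 * R → |p.2| ≤ 2 * R → ∀ u v,
          pull2 H σ p u v = σ (p.1, 0) (u.1, 0) (v.1, 0) := by
  obtain ⟨δ, hδ, hb⟩ := nf_B0 hn hκ
  refine ⟨δ, hδ, fun R σ hR hσ h => ?_⟩
  obtain ⟨Z, K, O, hZ, hK, hZK, hO, hSO, hOU, hθ, h2, h1⟩ := hb R σ hR hσ h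
  obtain ⟨F⟩ := nf_flow hZ hK hZK
  have hj : ContinuousLinearMap.snd ℝ V ℝ ((0, 1) : V × ℝ) = 1 := rfl
  obtain ⟨H, hH⟩ := F.box_dif hZ hj 0 one_pos fun p => (h2 p).ge
  have hH' : ∀ p, H p = F.φ p.2 (p.1, 0) := fun p => by
    rw [hH, Flow.box, nf_slice']
    rfl
  have e2 : ∀ {s t : ℝ}, s ≤ t → ∀ p, (F.φ t p).2 - (F.φ s p).2 = t - s := fun {s t} hst p => by
    have a1 := F.mono (ContinuousLinearMap.snd ℝ V ℝ) (c := 1) (fun p => (h2 p).ge) hst p
    have a2 := F.mono (-ContinuousLinearMap.snd ℝ V ℝ) (c := -1)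
      (fun p => (neg_inj.2 (h2 p)).ge) hst p
    simp only [neg_apply, ContinuousLinearMap.coe_snd'] at a1 a2
    linarith
  have e3 : ∀ s p, (F.φ s p).2 = p.2 + s := fun s p => by
    rcases le_total 0 s with hs | hs
    · have := e2 hs p
      rw [F.zero] at this
      linarith
    · have := e2 hs p
      rw [F.zero] at this
      linarith
  have e1 : ∀ s p, ‖(F.φ s p).1 - p.1‖ ≤ κ * |s| := fun s p =>
    F.disp (ContinuousLinearMap.fst ℝ V ℝ) h1 s p
  refine ⟨H, fun p => by rw [hH', e3, zero_add], fun p => ?_, fun p hp hp' u v => ?_⟩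
  · rw [hH']
    exact e1 p.2 (p.1, 0)
  · have e : (H : V × ℝ → V × ℝ) = F.box (ContinuousLinearMap.snd ℝ V ℝ) (0, 1) 0 := funext hH
    have := F.box_pull hZ hj 0 hO (hσ.mono hOU) hθ (y := p) fun s hs => by
      rw [nf_slice']
      have hs' : |s| ≤ 2 * R := (nf_abs hs).trans hp'
      refine hSO (mem_closedBall_zero_iff.2 (norm_prod_le_iff.2 ⟨?_, ?_⟩))
      · have a1 := e1 s (p.1, 0)
        have a2 := norm_le_insert' (F.φ s (p.1, 0)).1 p.1
        nlinarith [abs_nonneg s]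
      · rw [e3, zero_add, Real.norm_eq_abs]
        linarith
    rw [e, this, nf_slice', ContinuousLinearMap.zero_comp, wedge_zero_right, add_zero, pb_apply,
      nf_proj', nf_proj']

theorem nf_prod (φ : Dif V) : ∃ Φ : Dif (V × ℝ), (∀ p, Φ p = (φ p.1, p.2)) ∧
    ∀ p u, (fderiv ℝ Φ p u).1 = fderiv ℝ φ p.1 u.1 := by
  refine ⟨⟨φ.toEquiv.prodCongr (Equiv.refl ℝ), (φ.smooth.comp contDiff_fst).prodMk contDiff_snd,
    (φ.smooth_inv.comp contDiff_fst).prodMk contDiff_snd⟩, fun p => rfl, fun p u => ?_⟩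
  have h : HasFDerivAt (fun q : V × ℝ => (φ q.1, q.2))
      (((fderiv ℝ φ p.1).comp (ContinuousLinearMap.fst ℝ V ℝ)).prod
        (ContinuousLinearMap.snd ℝ V ℝ)) p :=
    ((nf_diff φ p.1).hasFDerivAt.comp p hasFDerivAt_fst).prodMk hasFDerivAt_snd
  change (fderiv ℝ (fun q : V × ℝ => (φ q.1, q.2)) p u).1 = _
  rw [h.fderiv]
  rfl

theorem nf_pull (φ : V → V') (w : V' → B2 V') (y u v : V) :
    pull2 φ w y u v = w (φ y) (fderiv ℝ φ y u) (fderiv ℝ φ y v) := pb_apply _ _ _ _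

theorem nf_pull_lin (L : V →L[ℝ] V') (w : V' → B2 V') (y : V) :
    pull2 L w y = pb L (w (L y)) := by
  rw [pull2, L.fderiv]

theorem nf_trans (φ ψ : Dif V) (w : V → B2 V) (y : V) :
    pull2 (φ.trans ψ) w y = pull2 φ (pull2 ψ w) y :=
  pull2_comp (nf_diff φ y) (nf_diff ψ (φ y)) w

/-- The normal form of the slice. -/
theorem nf_C {w0 : B2 V} (hs : Skew w0) (hn : Nd w0) {κ : ℝ} (hκ : 0 < κ) : ∃ δ : ℝ, 0 < δ ∧
    ∀ (R : ℝ) (σ : V × ℝ → B2 (V × ℝ)), 0 < R → Form2On (ball 0 (4 * R)) σ →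
      (∀ p ∈ ball (0 : V × ℝ) (4 * R), ∀ u v, |σ p u v - w0 u.1 v.1| ≤ δ * ‖u‖ * ‖v‖) →
      ∃ H : Dif (V × ℝ), (∀ p, (H p).2 = p.2) ∧
        (∀ p : V × ℝ, |p.2| ≤ 2 * R → ‖(H p).1 - p.1‖ ≤ κ * R) ∧
        ∀ p : V × ℝ, ‖p.1‖ ≤ 2 * R → |p.2| ≤ 2 * R → ‖(H p).1‖ ≤ 4 * R ∧
          ∀ u v, pull2 H σ p u v = w0 u.1 v.1 := by
  obtain ⟨δ1, hδ1, hB⟩ := nf_B hn (κ := min (κ / 4) (1 / 4)) (by positivity) (min_le_right _ _)
  obtain ⟨δ2, hδ2, hC⟩ := darb hs hn (half_pos hκ)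
  have hδ := lt_min hδ1 hδ2
  refine ⟨min δ1 δ2, hδ, fun R σ hR hσ h => ?_⟩
  obtain ⟨H, h2, h1, hp⟩ := hB R σ hR hσ fun p hp u v => (h p hp u v).trans
    (mul_le_mul_of_nonneg_right (mul_le_mul_of_nonneg_right (min_le_left _ _) (norm_nonneg _))
      (norm_nonneg _))
  have hm : MapsTo (ContinuousLinearMap.inl ℝ V ℝ) (ball 0 (3 * R)) (ball 0 (4 * R)) := by
    intro x hx
    rw [mem_ball_zero_iff] at hx ⊢
    rw [ContinuousLinearMap.inl_apply, Prod.norm_mk, norm_zero, max_eq_left (norm_nonneg x)]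
    linarith
  obtain ⟨φ, k1, k2⟩ := hC R hR (pull2 (ContinuousLinearMap.inl ℝ V ℝ) σ)
    (hσ.pull isOpen_ball isOpen_ball (ContinuousLinearMap.contDiff _).contDiffOn hm) fun x hx => by
      rw [nf_pull_lin]
      exact (nf_xx hδ.le (h _ (hm hx))).trans (min_le_right _ _)
  obtain ⟨Φ, hΦ, hD⟩ := nf_prod φ
  have e : ∀ p, Φ.trans H p = H (φ p.1, p.2) := fun p => by
    rw [← hΦ]
    rfl
  have d : ∀ p : V × ℝ, |p.2| ≤ 2 * R → ‖(H (φ p.1, p.2)).1 - φ p.1‖ ≤ κ / 2 * R ∧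
      ‖(H (φ p.1, p.2)).1 - φ p.1‖ ≤ R := fun p hp' => by
    have a1 := h1 (φ p.1, p.2)
    have a2 := mul_le_mul (min_le_left (κ / 4) (1 / 4)) hp' (abs_nonneg _) (by positivity)
    have a3 := mul_le_mul (min_le_right (κ / 4) (1 / 4)) hp' (abs_nonneg _) (by positivity)
    exact ⟨by linarith, by linarith⟩
  refine ⟨Φ.trans H, fun p => by rw [e, h2], fun p hp' => ?_, fun p hx hp' => ⟨?_, fun u v => ?_⟩⟩
  · rw [e]
    have := norm_sub_le_norm_sub_add_norm_sub (H (φ p.1, p.2)).1 (φ p.1) p.1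
    linarith [(d p hp').1, k1 p.1]
  · rw [e]
    have := norm_le_insert' (H (φ p.1, p.2)).1 (φ p.1)
    linarith [(d p hp').2, mem_ball_zero_iff.1 (k2 p.1 hx).1]
  · rw [nf_trans, nf_pull, hΦ, hp (φ p.1, p.2) (mem_ball_zero_iff.1 (k2 p.1 hx).1).le hp', hD, hD,
      ← (k2 p.1 hx).2, nf_pull, nf_pull_lin, pb_apply]
    rfl

theorem nf_snd (H : Dif (V × ℝ)) (h : ∀ p, (H p).2 = p.2) (p u : V × ℝ) :
    (fderiv ℝ H p u).2 = u.2 := by
  have h1 : HasFDerivAt (fun q : V × ℝ => (H q).2)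
      ((ContinuousLinearMap.snd ℝ V ℝ).comp (fderiv ℝ H p)) p := (nf_diff H p).hasFDerivAt.snd
  rw [funext h] at h1
  exact congrArg (fun l : B1 (V × ℝ) => l u) (h1.unique hasFDerivAt_snd)

theorem nf_lift (H : Dif (XX m × ℝ)) : ∃ G : Dif (VV m),
    (∀ y, G y = ((H (y.1, y.2.1)).1, (H (y.1, y.2.1)).2, y.2.2)) ∧
    ∀ y u, fderiv ℝ G y u = ((fderiv ℝ H (y.1, y.2.1) (u.1, u.2.1)).1,
      (fderiv ℝ H (y.1, y.2.1) (u.1, u.2.1)).2, u.2.2) := by
  have hP : ContDiff ℝ ∞ fun y : VV m => (y.1, y.2.1) := contDiff_fst.prodMk contDiff_snd.fst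
  have hs : ∀ f : XX m × ℝ → XX m × ℝ, ContDiff ℝ ∞ f →
      ContDiff ℝ ∞ fun y : VV m => ((f (y.1, y.2.1)).1, (f (y.1, y.2.1)).2, y.2.2) := fun f hf =>
    (hf.comp hP).fst.prodMk ((hf.comp hP).snd.prodMk contDiff_snd.snd)
  refine ⟨⟨⟨fun y => ((H (y.1, y.2.1)).1, (H (y.1, y.2.1)).2, y.2.2),
    fun y => ((H.invFun (y.1, y.2.1)).1, (H.invFun (y.1, y.2.1)).2, y.2.2), fun y => ?_,
    fun y => ?_⟩, hs _ H.smooth, hs _ H.smooth_inv⟩, fun y => rfl, fun y u => ?_⟩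
  · simp only [Prod.mk.eta, H.left_inv (y.1, y.2.1)]
  · simp only [Prod.mk.eta, H.right_inv (y.1, y.2.1)]
  · have h0 : HasFDerivAt (fun y : VV m => (y.1, y.2.1)) ((dx m).prod (dt m)) y :=
      ((dx m).prod (dt m)).hasFDerivAt
    have h1 := (nf_diff H (y.1, y.2.1)).hasFDerivAt.comp y h0
    have h2 := h1.fst.prodMk (h1.snd.prodMk (ds m).hasFDerivAt)
    exact congrArg (fun l : VV m →L[ℝ] VV m => l u) h2.fderiv

/-- The normal form for a slice through the origin. -/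
theorem nf_zero (m : ℕ) {κ : ℝ} (hκ : 0 < κ) : ∃ δ : ℝ, 0 < δ ∧ ∀ (R : ℝ) (U : Set (VV m))
    (W : VV m → B2 (VV m)), 0 < R → IsOpen U → Form2On U W →
    (∀ y : VV m, lat y ≤ 4 * R → y.2.2 = 0 → y ∈ U ∧ 0 < PP (W y) ∧ LevClose δ (W y)) →
    ∃ (Ψ : Dif (VV m)) (a0 c0 : ℝ), 0 < a0 ∧ 0 < c0 ∧ (∀ y, (Ψ y).2.1 = y.2.1) ∧
      (∀ x t, (Ψ (x, t, 0)).2.2 = 0) ∧
      (∀ x t u u', u ≤ u' → c0 * (u' - u) ≤ (Ψ (x, t, u')).2.2 - (Ψ (x, t, u)).2.2) ∧
      (∀ y : VV m, |y.2.1| ≤ 2 * R → |y.2.2| ≤ a0 → ‖(Ψ y).1 - y.1‖ ≤ κ * R) ∧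
      ∀ y : VV m, lat y ≤ 2 * R → |y.2.2| ≤ a0 → Ψ y ∈ U ∧ pull2 Ψ W y = ws m := by
  obtain ⟨δ1, hδ1, hJ⟩ := JJ_close m one_half_pos
  obtain ⟨δ2, hδ2, hC⟩ := nf_C (skew_wD (m := m)) nd_wD (half_pos hκ)
  refine ⟨min δ1 δ2, lt_min hδ1 hδ2, fun R U W hR hU hW h => ?_⟩
  have hle : ∀ {δ : ℝ} {b : B2 (VV m)}, min δ1 δ2 ≤ δ → LevClose (min δ1 δ2) b → LevClose δ b :=
    fun hδ hb u v hu hv => (hb u v hu hv).trans
      (mul_le_mul_of_nonneg_right (mul_le_mul_of_nonneg_right hδ (norm_nonneg _)) (norm_nonneg _))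
  obtain ⟨A, a0, c0, ha0, hc0, At, A0, As, Ax, Ap⟩ :=
    nf_A (R := 4 * R) (ε := κ / 2 * R) (by positivity) hU hW fun y hy hy' => by
      obtain ⟨a1, a2, a3⟩ := h y hy hy'
      have := abs_le.1 (hJ _ (hW.skew y a1) (hle (min_le_left _ _) a3))
      exact ⟨a1, a2, by linarith [this.1]⟩
  obtain ⟨I, hI⟩ : ∃ I : XX m × ℝ →L[ℝ] VV m, ∀ p, I p = (p.1, p.2, 0) :=
    ⟨(ContinuousLinearMap.fst ℝ _ _).prod ((ContinuousLinearMap.snd ℝ _ _).prod 0), fun p => rfl⟩
  have hl : ∀ p, lat (I p) = ‖p‖ := fun p => by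
    rw [hI]
    rfl
  have hn : ∀ p, ‖I p‖ = ‖p‖ := fun p => by
    rw [norm_VV, hl, hI, abs_zero, max_eq_left (norm_nonneg p)]
  have h' := fun p (hp : p ∈ ball (0 : XX m × ℝ) (4 * R)) =>
    h (I p) (by rw [hl]; exact (mem_ball_zero_iff.1 hp).le) (by rw [hI])
  obtain ⟨H, Ht, Hx, Hp⟩ := hC R (pull2 I W) hR
    (hW.pull isOpen_ball hU I.contDiff.contDiffOn fun p hp => (h' p hp).1) fun p hp u v => by
      have := hle (min_le_right _ _) (h' p hp).2.2 (I u) (I v) (by rw [hI]) (by rw [hI])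
      rw [hn, hn, ws_apply] at this
      rw [nf_pull_lin, pb_apply]
      simpa only [hI, zero_mul, mul_zero, sub_zero, add_zero] using this
  obtain ⟨G, hG, hD⟩ := nf_lift H
  have e : ∀ y, G.trans A y = A ((H (y.1, y.2.1)).1, y.2.1, y.2.2) := fun y => by
    change A (G y) = _
    rw [hG, Ht]
  refine ⟨G.trans A, a0, c0, ha0, hc0, fun y => by rw [e, At], fun x t => by rw [e, A0],
    fun x t u u' hu => ?_, fun y hy hy' => ?_, fun y hy hy' => ?_⟩
  · rw [e, e]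
    exact As _ _ _ _ hu
  · rw [e]
    have a1 := Ax ((H (y.1, y.2.1)).1, y.2.1, y.2.2) hy'
    have a2 := Hx (y.1, y.2.1) hy
    have := norm_sub_le_norm_sub_add_norm_sub (A ((H (y.1, y.2.1)).1, y.2.1, y.2.2)).1
      (H (y.1, y.2.1)).1 y.1
    linarith
  · have hy1 : ‖y.1‖ ≤ 2 * R := (le_max_left _ _).trans hy
    have hy2 : |y.2.1| ≤ 2 * R := (le_max_right _ _).trans hy
    obtain ⟨a1, a2⟩ := Hp (y.1, y.2.1) hy1 hy2
    obtain ⟨a3, a4⟩ := Ap (G y) (by rw [hG, Ht]; exact max_le a1 (by linarith))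
      (by rw [hG]; exact hy')
    refine ⟨a3, b2_ext fun u v => ?_⟩
    have a5 := a2 (u.1, u.2.1) (v.1, v.2.1)
    rw [nf_pull, nf_pull_lin, pb_apply, hI, hI, hI] at a5
    rw [nf_trans, nf_pull, a4, hD, hD, hG, ws_apply, ← a5, nf_snd H Ht, nf_snd H Ht]

theorem nf (m : ℕ) {κ : ℝ} (hκ : 0 < κ) : ∃ δ : ℝ, 0 < δ ∧ ∀ (R : ℝ) (c : VV m) (U : Set (VV m))
    (W : VV m → B2 (VV m)), 0 < R → IsOpen U → Form2On U W →
    (∀ y : VV m, lat (y - c) ≤ 4 * R → y.2.2 = c.2.2 → y ∈ U ∧ 0 < PP (W y) ∧ LevClose δ (W y)) →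
    ∃ (Ψ : Dif (VV m)) (a0 c0 : ℝ), 0 < a0 ∧ 0 < c0 ∧ (∀ y, (Ψ y).2.1 = y.2.1 + c.2.1) ∧
      (∀ x t, (Ψ (x, t, 0)).2.2 = c.2.2) ∧
      (∀ x t u u', u ≤ u' → c0 * (u' - u) ≤ (Ψ (x, t, u')).2.2 - (Ψ (x, t, u)).2.2) ∧
      (∀ y : VV m, |y.2.1| ≤ 2 * R → |y.2.2| ≤ a0 → ‖(Ψ y).1 - c.1 - y.1‖ ≤ κ * R) ∧
      ∀ y : VV m, lat y ≤ 2 * R → |y.2.2| ≤ a0 → Ψ y ∈ U ∧ pull2 Ψ W y = ws m := by
  obtain ⟨δ, hδ, h0⟩ := nf_zero m hκ
  refine ⟨δ, hδ, fun R c U W hR hU hW h => ?_⟩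
  have hT : ContDiff ℝ ∞ fun y : VV m => y + c := contDiff_id.add contDiff_const
  have hp : ∀ y, pull2 (fun y : VV m => y + c) W y = W (y + c) := fun y => by
    have hd : HasFDerivAt (fun y : VV m => y + c) (ContinuousLinearMap.id ℝ (VV m)) y :=
      (hasFDerivAt_id y).add_const c
    rw [pull2, hd.fderiv, pb_id]
  obtain ⟨Ψ, a0, c0, ha0, hc0, At, A0, As, Ax, Ap⟩ := h0 R ((fun y => y + c) ⁻¹' U)
    (pull2 (fun y : VV m => y + c) W) hR (hU.preimage hT.continuous)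
    (hW.pull (hU.preimage hT.continuous) hU hT.contDiffOn fun y hy => hy) fun y hy hy' => by
      rw [hp]
      exact h (y + c) (by rwa [add_sub_cancel_right])
        (by rw [Prod.snd_add, Prod.snd_add, hy', zero_add])
  obtain ⟨T, hT'⟩ := dif_affine (ContinuousLinearEquiv.refl ℝ (VV m)) c
  have e : ∀ y, Ψ.trans T y = Ψ y + c := fun y => hT' _
  refine ⟨Ψ.trans T, a0, c0, ha0, hc0, fun y => ?_, fun x t => ?_, fun x t u u' hu => ?_,
    fun y hy hy' => ?_, fun y hy hy' => ⟨?_, ?_⟩⟩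
  · rw [e, Prod.snd_add, Prod.fst_add, At]
  · rw [e, Prod.snd_add, Prod.snd_add, A0, zero_add]
  · rw [e, e, Prod.snd_add, Prod.snd_add, Prod.snd_add, Prod.snd_add, add_sub_add_right_eq_sub]
    exact As x t u u' hu
  · rw [e, Prod.fst_add, add_sub_cancel_right]
    exact Ax y hy hy'
  · rw [e]
    exact (Ap y hy hy').1
  · have e' : (T : VV m → VV m) = fun y => y + c := funext hT'
    rw [nf_trans, e']
    exact (Ap y hy hy').2

end Pool.Agent.Work.MP_bf98aa_gt.Ns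
end
end

-- merged part: Pool.Agent.Work.MP_bf98aa_gt.Ns.LensB
section
/-!
The normal form at one layer.
Hints. On the slab |f - ht j k| < eps/(3N) every x j' = f/eps - ph j' satisfies saw (x j') = x j' - n j' for j' <> j with the integer n j' = floor (k + ph j - ph j') + 1 (SawOk.eq; the fractional part is in [2/(3N), 1 - 2/(3N)]), and saw (x j) = x j - k - S (x j - k).
Let aE = sum eps amp j' (x j' - n j') lam j' (n j = k), a smooth 1-form on M that does not depend on eta; w + dM aE = pert w eps sigma + wedge df slope with |sigma| <= 2 on the slab. Apply nf to W = loc2 (e j) (w + dM aE), U = source inter slab, centre (c.1, c.2.1, ht), radius rad j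
(PP > 0 by est1, ori, rat_loc; LevClose by est3 since wedge ds vanishes on levels). On the slab al = aE - eps amp j S(..) lam j; dM_congr, loc2_dM, dd_pull1, and pull1 Psi dt = dt. The orientation: PP_pb gives det * PP W = 1.
-/

set_option autoImplicit false
set_option maxSynthPendingDepth 3
set_option linter.unusedSectionVars false
set_option linter.unusedVariables false

open Set Filter Topology Metric MeasureTheory
open scoped Manifold ContDiff

noncomputable section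
namespace Pool.Agent.Work.MP_bf98aa_gt.Ns

open Pool.Agent.Work.MP_8c604c_gt

variable {V V' E : Type} [NormedAddCommGroup V] [NormedSpace ℝ V] [FiniteDimensional ℝ V]
  [NormedAddCommGroup V'] [NormedSpace ℝ V'] [FiniteDimensional ℝ V']
  [NormedAddCommGroup E] [NormedSpace ℝ E] [FiniteDimensional ℝ E] {M : Type} [TopologicalSpace M]
  [ChartedSpace E M] [IsManifold 𝓘(ℝ, E) ∞ M] {m : ℕ}

theorem lensb_pos {N : ℕ} (j : Fin N) : (0 : ℝ) < N := Nat.cast_pos.2 j.pos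

theorem lensb_x {N : ℕ} (j i : Fin N) (k : ℤ) {x : ℝ} (hx : |x - (k + (j.1 : ℝ) / N)| < 1 / (3 * N)) :
    1 / (3 * N) - 1 < x - (i.1 : ℝ) / N - ((if i < j then k + 1 else k : ℤ) : ℝ) ∧
      x - (i.1 : ℝ) / N - ((if i < j then k + 1 else k : ℤ) : ℝ) < 1 ∧
      (i ≠ j → x - (i.1 : ℝ) / N - ((if i < j then k + 1 else k : ℤ) : ℝ) ≤ 0) := by
  have hN := lensb_pos j
  have hq : (0 : ℝ) < 1 / N := by positivity
  have e : (1 : ℝ) / (3 * N) = 1 / N / 3 := by field_simp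
  have e1 : (N : ℝ) * (1 / N) = 1 := by field_simp
  have hi : (i.1 : ℝ) + 1 ≤ N := by exact_mod_cast i.2
  have hj : (j.1 : ℝ) + 1 ≤ N := by exact_mod_cast j.2
  have hi0 : (0 : ℝ) ≤ i.1 := Nat.cast_nonneg _
  have hj0 : (0 : ℝ) ≤ j.1 := Nat.cast_nonneg _
  rw [e, abs_lt, div_eq_mul_one_div (j.1 : ℝ)] at hx
  rw [e, div_eq_mul_one_div (i.1 : ℝ)]
  generalize (1 : ℝ) / N = q at *
  have a1 := mul_le_mul_of_nonneg_right hi hq.le
  have a2 := mul_le_mul_of_nonneg_right hj hq.le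
  have a3 := mul_nonneg hi0 hq.le
  have a4 := mul_nonneg hj0 hq.le
  split_ifs with h
  · have a5 : (i.1 : ℝ) + 1 ≤ j.1 := by exact_mod_cast h
    have a6 := mul_le_mul_of_nonneg_right a5 hq.le
    push_cast
    exact ⟨by linarith [hx.1], by linarith [hx.2], fun _ => by linarith [hx.2]⟩
  · have a5 : (j.1 : ℝ) ≤ i.1 := by exact_mod_cast not_lt.1 h
    have a6 := mul_le_mul_of_nonneg_right a5 hq.le
    refine ⟨by linarith [hx.1], by linarith [hx.2], fun hij => ?_⟩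
    have a7 : (j.1 : ℝ) + 1 ≤ i.1 := by exact_mod_cast lt_of_le_of_ne (not_lt.1 h) hij.symm
    have a8 := mul_le_mul_of_nonneg_right a7 hq.le
    linarith [hx.2]

theorem lensb_d {f : M → ℝ} (hf : Sm0 E f) {ε : ℝ} (hε : ε ≠ 0) (a b c : ℝ) :
    Sm0 E (fun z => ε * a * (f z / ε - b - c)) ∧
      ∀ z, dfM E (fun z => ε * a * (f z / ε - b - c)) z = a • dfM E f z := by
  have hg : ContDiff ℝ ∞ fun s : ℝ => ε * a * (s / ε - b - c) := by fun_prop
  refine ⟨hg.contMDiff.comp hf, fun z => (dfM_comp hf hg z).trans ?_⟩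
  have := ((((hasDerivAt_id' (f z)).div_const ε).sub_const b).sub_const c).const_mul (ε * a)
  rw [this.deriv, show ε * a * (1 / ε) = a by field_simp]

theorem lensb_E [T2Space M] {T : Teeth m E M} (hl : ∀ j, Sm1 (T.lam j)) {f : M → ℝ} (hf : Sm0 E f)
    {ε : ℝ} (hε : ε ≠ 0) (n : Fin T.N → ℝ) (w : M → B2 E) (z : M) :
    w z + dM (fun x => ∑ i, (ε * T.amp i * (f x / ε - T.ph i - n i)) • T.lam i x) z =
      T.pert w ε (fun i => f z / ε - T.ph i - n i) z + wedge (dfM E f z) (T.slope z) := by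
  rw [dM_sum _ fun i _ => (hl i).smul (lensb_d hf hε _ _ _).1, Teeth.pert, Teeth.slope,
    wedge_sum_right, Finset.smul_sum, add_assoc, ← Finset.sum_add_distrib]
  refine congrArg _ (Finset.sum_congr rfl fun i _ => ?_)
  rw [dM_smul (lensb_d hf hε _ _ _).1 (hl i), (lensb_d hf hε _ _ _).2, wedge_smul_left,
    wedge_smul_right, smul_smul, add_comm, mul_assoc]

theorem lensb_ds {f : M → ℝ} (hf : Sm0 E f) (e : Par (VV m) E M)
    (h : ∀ y ∈ e.source, f (e y) = y.2.2) {y : VV m} (hy : y ∈ e.source) :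
    (dfM E f (e y)).comp (e.D y) = ds m := by
  refine (loc1_dfM hf e hy).trans ?_
  have : (fun z => f (e z)) =ᶠ[𝓝 y] ds m := by
    filter_upwards [e.open_source.mem_nhds hy] with z hz using h z hz
  rw [this.fderiv_eq, ContinuousLinearMap.fderiv]

theorem lensb_dt (Ψ : Dif (VV m)) {c : ℝ} (h : ∀ y, (Ψ y).2.1 = y.2.1 + c) (y : VV m) :
    (dt m).comp (fderiv ℝ Ψ y) = dt m := by
  have h1 : HasFDerivAt (fun y => (Ψ y).2.1) ((dt m).comp (fderiv ℝ Ψ y)) y :=
    (dt m).hasFDerivAt.comp y (nf_diff Ψ y).hasFDerivAt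
  rw [funext h] at h1
  exact h1.unique ((dt m).hasFDerivAt.add_const c)

theorem lensb_loc {f : M → ℝ} (hf : Sm0 E f) (e : Par (VV m) E M)
    (h : ∀ y ∈ e.source, f (e y) = y.2.2) {ρ : VV m → ℝ} (hρ : ContDiff ℝ ∞ ρ)
    (hl : Sm1 (push1 e fun y => ρ y • dt m)) {g : ℝ → ℝ} (hg : ContDiff ℝ ∞ g) {y : VV m}
    (hy : y ∈ e.source) :
    pb (e.D y) (dM (fun x => g (f x) • push1 e (fun y => ρ y • dt m) x) (e y)) =
      wedge (fderiv ℝ (fun x : VV m => g x.2.2 * ρ x) y) (dt m) := by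
  refine (loc2_dM (hl.smul (hg.contMDiff.comp hf)) e hy).trans ?_
  refine (dd_congr ?_).trans
    (dd_smul_const (((hg.comp contDiff_snd.snd).mul hρ).differentiable (by simp) y) _)
  filter_upwards [e.open_source.mem_nhds hy] with z hz
  have := loc1_push1 e (fun y => ρ y • dt m) hz
  rw [loc1] at this ⊢
  rw [ContinuousLinearMap.smul_comp, this, smul_smul, Function.comp_apply, Function.comp_apply,
    h z hz]

theorem lensB [T2Space M] (hE : Module.finrank ℝ E = 2 * m + 2) {κ : ℝ} (h0 : 0 < κ)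
    (h1 : κ < 1 / 10) : ∃ δ : ℝ, 0 < δ ∧ ∀ (T : Teeth m E M) (f : M → ℝ) (w τ : M → B2 E),
    T.Ok κ δ f w τ → Sm0 E f → Cl2 w → ∀ ε : ℝ, 0 < ε → ε ≤ T.ε0 → ∀ (j : Fin T.N) (k : ℤ),
    |T.ht ε j k - (T.c j).2.2| ≤ 2 * T.Rp →
    ∃ (Ψ : Dif (VV m)) (a0 c0 : ℝ), 0 < a0 ∧ 0 < c0 ∧ (∀ y, (Ψ y).2.1 = y.2.1 + (T.c j).2.1) ∧
      (∀ x t, (Ψ (x, t, 0)).2.2 = T.ht ε j k) ∧
      (∀ x t u u', u ≤ u' → c0 * (u' - u) ≤ (Ψ (x, t, u')).2.2 - (Ψ (x, t, u)).2.2) ∧
      (∀ y : VV m, |y.2.1| ≤ 2 * T.rad j → |y.2.2| ≤ a0 →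
        ‖(Ψ y).1 - (T.c j).1 - y.1‖ ≤ κ * T.rad j) ∧
      ∀ y : VV m, lat y ≤ 2 * T.rad j → |y.2.2| ≤ a0 → Ψ y ∈ (T.e j).source ∧
        |(Ψ y).2.2 - T.ht ε j k| < ε / (3 * T.N) ∧ 0 < PP (pull2 Ψ (loc2 (T.e j) τ) y) ∧
        ∀ (η : ℝ) (saw S : ℝ → ℝ), η < 1 / (3 * T.N) → SawOk η saw S →
          pull2 Ψ (loc2 (T.e j) fun x => w x + dM (T.al f ε saw) x) y =
            ws m - wedge (fderiv ℝ (fun x => ε * T.amp j * S ((Ψ x).2.2 / ε - T.ph j - k) *
              T.ρ j (Ψ x)) y) (dt m) := by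
  obtain ⟨δ, hδ, hnf⟩ := nf m h0
  refine ⟨δ, hδ, fun T f w τ hT hf hw ε hε hε0 j k hk => ?_⟩
  have hN := lensb_pos j
  have hl := Teeth.sm_lam hT h0 h1
  obtain ⟨n, hn⟩ : ∃ n : Fin T.N → ℤ, ∀ i, n i = if i < j then k + 1 else k := ⟨_, fun _ => rfl⟩
  have hx : ∀ s : ℝ, |s - T.ht ε j k| < ε / (3 * T.N) → ∀ i,
      1 / (3 * T.N) - 1 < s / ε - T.ph i - n i ∧ s / ε - T.ph i - n i < 1 ∧
        (i ≠ j → s / ε - T.ph i - n i ≤ 0) := fun s hs i => by
    rw [hn]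
    refine lensb_x j i k ?_
    have e : s / ε - (k + (j.1 : ℝ) / T.N) = (s - T.ht ε j k) / ε := by
      rw [Teeth.ht, Teeth.ph]
      field_simp
    rw [e, abs_div, abs_of_pos hε, div_lt_iff₀ hε, one_div_mul_eq_div]
    exact hs
  have hσ : ∀ s : ℝ, |s - T.ht ε j k| < ε / (3 * T.N) → ∀ i, |s / ε - T.ph i - n i| ≤ 2 :=
    fun s hs i => by
      have : (0 : ℝ) < 1 / (3 * T.N) := by positivity
      exact abs_le.2 ⟨by linarith [(hx s hs i).1], by linarith [(hx s hs i).2.1]⟩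
  obtain ⟨aE, ha⟩ : ∃ aE : M → B1 E,
    aE = fun x => ∑ i, (ε * T.amp i * (f x / ε - T.ph i - n i)) • T.lam i x := ⟨_, rfl⟩
  have sa : Sm1 aE := ha ▸ sm1_sum _ fun i _ => (hl i).smul (lensb_d hf hε.ne' _ _ _).1
  have da : ∀ z, w z + dM aE z = T.pert w ε (fun i => f z / ε - T.ph i - n i) z +
      wedge (dfM E f z) (T.slope z) := ha ▸ lensb_E hl hf hε.ne' _ w
  have hr : ∀ y ∈ (T.e j).source, |y.2.2 - T.ht ε j k| < ε / (3 * T.N) →
      0 < PP (loc2 (T.e j) (fun z => w z + dM aE z) y) / PP (loc2 (T.e j) τ y) := fun y hy hs => by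
    rw [← rat_loc _ hy, rat, da]
    exact hT.est1 ε ⟨hε.le, hε0⟩ _ (hσ _ (by rwa [hT.lev j y hy])) _
  have hRm := hT.Rm_pos
  have hRp : T.Rm ≤ T.Rp := by
    rw [hT.Rp_eq]
    nlinarith
  have hR : 0 < T.rad j ∧ T.rad j ≤ T.Rp := by
    rw [Teeth.rad]
    split_ifs
    exacts [⟨hRm, hRp⟩, ⟨hRm.trans_le hRp, le_rfl⟩]
  obtain ⟨Ψ, a0, c0, ha0, hc0, At, A0, As, Ax, Ap⟩ := hnf (T.rad j)
    ((T.c j).1, (T.c j).2.1, T.ht ε j k)
    ((T.e j).source ∩ {y | |y.2.2 - T.ht ε j k| < ε / (3 * T.N)}) _ hR.1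
    ((T.e j).open_source.inter (isOpen_lt (by fun_prop) continuous_const))
    (((hw.add (cl2_dM sa)).loc (T.e j)).mono inter_subset_left) fun y hy hy' => by
      have hs : |y.2.2 - T.ht ε j k| < ε / (3 * T.N) := by
        rw [hy', sub_self, abs_zero]
        positivity
      have hb : y ∈ closedBall (T.c j) (5 * T.Rp) := by
        rw [mem_closedBall, dist_eq_norm, norm_VV]
        refine max_le (le_trans hy (by linarith [hR.1, hR.2])) ?_
        rw [Prod.snd_sub, Prod.snd_sub, hy']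
        exact hk.trans (by linarith)
      have hy0 := hT.sub j hb
      refine ⟨⟨hy0, hs⟩, (div_pos_iff_of_pos_right (hT.ori j y hb)).1 (hr y hy0 hs),
        fun u v hu hv => ?_⟩
      rw [loc2, da, pb_add, pb_wedge, lensb_ds hf _ (hT.lev j) hy0, add_apply,
        add_apply, wedge_apply, ds_apply, ds_apply, hu, hv, zero_mul, mul_zero,
        sub_zero, add_zero]
      exact hT.est3 ε ⟨hε.le, hε0⟩ _ (hσ _ (by rwa [hT.lev j y hy0])) j y hb u v hu hv
  refine ⟨Ψ, a0, c0, ha0, hc0, At, A0, As, Ax, fun y hy hy' => ?_⟩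
  obtain ⟨⟨b1, b2⟩, b3⟩ := Ap y hy hy'
  refine ⟨b1, b2, ?_, fun η saw S hη hs => ?_⟩
  · have b4 := congrArg PP b3
    have b5 := hr _ b1 b2
    rw [pull2, PP_pb, PP_ws] at b4
    rw [← mul_div_mul_left _ _ (left_ne_zero_of_mul_eq_one b4), b4, one_div_pos] at b5
    rwa [pull2, PP_pb]
  · have hg : ContDiff ℝ ∞ fun s : ℝ => ε * T.amp j * S (s / ε - T.ph j - k) :=
      contDiff_const.mul (hs.smS.comp (by fun_prop))
    have ev : T.al f ε saw =ᶠ[𝓝 (T.e j (Ψ y))]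
        fun x => aE x - (ε * T.amp j * S (f x / ε - T.ph j - k)) • T.lam j x := by
      have hO : IsOpen {z | |f z - T.ht ε j k| < ε / (3 * T.N)} :=
        isOpen_lt (hf.continuous.sub continuous_const).abs continuous_const
      filter_upwards [hO.mem_nhds (show |f _ - _| < _ by rwa [hT.lev j _ b1])] with z hz
      rw [congrFun ha z, Teeth.al, eq_sub_iff_add_eq, ← Finset.add_sum_erase _ _ (Finset.mem_univ j),
        ← Finset.add_sum_erase _ _ (Finset.mem_univ j), add_right_comm, ← add_smul]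
      have he : ∀ i, saw (f z / ε - T.ph i) =
          f z / ε - T.ph i - n i - S (f z / ε - T.ph i - n i) := fun i =>
        hs.eq _ _ (by linarith [(hx _ hz i).1]) (by linarith [(hx _ hz i).2.1])
      refine congrArg₂ _ ?_ (Finset.sum_congr rfl fun i hi => ?_)
      · rw [he, hn, if_neg (lt_irrefl j), ← mul_add, sub_add_cancel]
      · rw [he, hs.S0 _ ((hx _ hz i).2.2 (Finset.ne_of_mem_erase hi)), sub_zero]
    have hd := ((hg.comp contDiff_snd.snd).mul (hT.bump j).1).differentiable (by simp) (Ψ y)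
    rw [← b3, pull2, pull2, loc2, loc2, (dM_congr ev).trans
      (dM_sub sa ((hl j).smul (hg.contMDiff.comp hf)) _), ← add_sub_assoc, pb_sub, pb_sub]
    refine congrArg _ ?_
    refine (congrArg _ (lensb_loc hf _ (hT.lev j) (hT.bump j).1 (hl j) hg b1)).trans ?_
    rw [pb_wedge, lensb_dt Ψ At]
    exact congrArg (fun l => wedge l (dt m)) (fderiv_comp y hd (nf_diff Ψ y)).symm

end Pool.Agent.Work.MP_bf98aa_gt.Ns
end
end
end

-- merged part: Pool.Agent.Work.MP_bf98aa_gt.Ns.CoreZ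
section
/-!
The model form along its singular set.
Hints. At y = (x,0,0) with e (PX x) = 0: Y = 0, dH = 0, J kills (x,0,0), et, es, and J (c,0,0) = ph c for c = sharp wD (fderiv PX x). Take k 0 = (c,0,0), k 1 = (x,0,0), k 2 = et, k 3 = es. Kernel: wD (J v) kills the image of J = ker dPX.
fderiv W0 y v a b = wD (D2 pr v a) (J b) + wD (J a) (D2 pr v b) + vol3 (DY (Q v)) (Q a) (Q b) (differentiate W0_apply; the terms with second derivatives of QQ carry the factor Y = 0).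
Differentiating PX o pr = hgt o QQ twice: dPX (pr y) (D2 pr v a) + D2PX (J v) (J a) = D2H (Q v) (Q a). For a in {k 1, k 2, k 3} J a = 0. Q (k 0) = 0. The determinant of a skew 4 x 4 matrix is the square of a01 a23 - a02 a13 + a03 a12, which is a nonzero multiple of D2H (Q v) (DY (Q v)).
SubAt: g y = ![e (PX y.1), t, s].
-/

set_option autoImplicit false
set_option maxSynthPendingDepth 3
set_option linter.unusedSectionVars false
set_option linter.unusedVariables false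

open Set Filter Topology Metric MeasureTheory
open scoped Manifold ContDiff

noncomputable section
namespace Pool.Agent.Work.MP_bf98aa_gt.Ns

open Pool.Agent.Work.MP_8c604c_gt

variable {V V' V'' : Type} [NormedAddCommGroup V] [NormedSpace ℝ V] [FiniteDimensional ℝ V]
  [NormedAddCommGroup V'] [NormedSpace ℝ V'] [FiniteDimensional ℝ V']
  [NormedAddCommGroup V''] [NormedSpace ℝ V''] [FiniteDimensional ℝ V''] {m : ℕ}

variable {L a η P0 P1 P2 R : ℝ} {k : ℕ}

theorem corez_det (G : Fin 4 → Fin 4 → ℝ) (h : ∀ i j, G j i = -G i j) :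
    Matrix.det (Matrix.of G) = (G 0 1 * G 2 3 - G 0 2 * G 1 3 + G 0 3 * G 1 2) ^ 2 := by
  have d : ∀ i, G i i = 0 := fun i => by linarith [h i i]
  have e : Matrix.of G = !![0, G 0 1, G 0 2, G 0 3; -G 0 1, 0, G 1 2, G 1 3;
      -G 0 2, -G 1 2, 0, G 2 3; -G 0 3, -G 1 3, -G 2 3, 0] := by
    ext i j
    fin_cases i <;> fin_cases j <;> first | exact d _ | rfl | exact h _ _
  rw [e]
  simp [Matrix.det_succ_row_zero, Fin.sum_univ_succ, Fin.succAbove]
  ring

theorem corez_vol {Y A B : V → R3} {y : V} {Y' : V →L[ℝ] R3} (hY : HasFDerivAt Y Y' y)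
    (h0 : Y y = 0) (hA : DifferentiableAt ℝ A y) (hB : DifferentiableAt ℝ B y) :
    ∃ L : V →L[ℝ] ℝ, HasFDerivAt (fun z => vol3 (Y z) (A z) (B z)) L y ∧
      ∀ v, L v = vol3 (Y' v) (A y) (B y) := by
  have a1 : DifferentiableAt ℝ (fun z => (A z).2.2 * (B z).2.1 - (A z).2.1 * (B z).2.2) y := by
    fun_prop
  have a2 : DifferentiableAt ℝ (fun z => (A z).2.1 * (B z).1 - (A z).1 * (B z).2.1) y := by
    fun_prop
  have a3 : DifferentiableAt ℝ (fun z => (A z).1 * (B z).2.2 - (A z).2.2 * (B z).1) y := by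
    fun_prop
  refine ⟨_, ((hY.fst.mul a1.hasFDerivAt).add (hY.snd.snd.mul a2.hasFDerivAt)).add
    (hY.snd.fst.mul a3.hasFDerivAt), fun v => ?_⟩
  simp [h0, vol3]
  ring

theorem corez_two {g : V' → ℝ} {φ : V → V'} (hg : ContDiff ℝ ∞ g) (hφ : ContDiff ℝ ∞ φ)
    (y a v : V) : fderiv ℝ (fun z => fderiv ℝ (fun w => g (φ w)) z a) y v =
      fderiv ℝ (fderiv ℝ g) (φ y) (fderiv ℝ φ y v) (fderiv ℝ φ y a) +
        fderiv ℝ g (φ y) (fderiv ℝ (fderiv ℝ φ) y v a) := by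
  have h1 : Differentiable ℝ φ := hφ.differentiable (by simp)
  have h2 : Differentiable ℝ g := hg.differentiable (by simp)
  have e : (fun z => fderiv ℝ (fun w => g (φ w)) z a) =
      fun z => fderiv ℝ g (φ z) (fderiv ℝ φ z a) := funext fun z => by
    rw [fderiv_fun_comp z (h2 _) (h1 z)]; rfl
  have h3 := (base_d2 (hg.contDiffAt (x := φ y))).hasFDerivAt.comp y (h1 y).hasFDerivAt
  have h4 := (base_d2 (hφ.contDiffAt (x := y))).hasFDerivAt.clm_apply (hasFDerivAt_const a y)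
  rw [e, show fderiv ℝ (fun z => fderiv ℝ g (φ z) (fderiv ℝ φ z a)) y = _ from
    (h3.clm_apply h4).fderiv]
  simp
  ring

theorem corez_fld (D : M3 L a η P0 P1 P2 R) : Differentiable ℝ (fld D.A D.B) := by
  have hA : Differentiable ℝ (fderiv ℝ D.A) := fun p => base_d2 D.smA.contDiffAt
  have hB : Differentiable ℝ (fderiv ℝ D.B) := fun p => base_d2 D.smB.contDiffAt
  unfold fld
  fun_prop

theorem corez_hgt (D : M3 L a η P0 P1 P2 R) : ContDiff ℝ ∞ (hgt D.N) :=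
  contDiff_fst.mul D.smN

theorem corez_deriv (D : M3 L a η P0 P1 P2 R) {y : VV m} (h0 : fld D.A D.B (QQ k y) = 0)
    (v b c : VV m) : fderiv ℝ (W0 k D.N D.A D.B D.C) y v b c =
      wD m (fderiv ℝ (fderiv ℝ (pr k D.N)) y v b) (fderiv ℝ (pr k D.N) y c) +
      wD m (fderiv ℝ (pr k D.N) y b) (fderiv ℝ (fderiv ℝ (pr k D.N)) y v c) +
      vol3 (fderiv ℝ (fld D.A D.B) (QQ k y) (fderiv ℝ (QQ k) y v)) (fderiv ℝ (QQ k) y b)
        (fderiv ℝ (QQ k) y c) := by
  have hW : DifferentiableAt ℝ (W0 k D.N D.A D.B D.C) y :=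
    (differentiableAt_const _).add (base_diff isOpen_univ
      (contDiffOn_dd isOpen_univ (contDiff_mu0 D).contDiffOn) (mem_univ y))
  have hQ : DifferentiableAt ℝ (QQ k : VV m → R3) y := (contDiff_QQ k).differentiable (by simp) y
  have hQ2 := base_d2 ((contDiff_QQ (m := m) k).contDiffAt (x := y))
  obtain ⟨L, hL, hL'⟩ := corez_vol (Y := fun z => fld D.A D.B (QQ k z))
    (A := fun z => fderiv ℝ (QQ k) z b) (B := fun z => fderiv ℝ (QQ k) z c)
    ((corez_fld D _).hasFDerivAt.comp y hQ.hasFDerivAt) h0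
    (hQ2.clm_apply (differentiableAt_const _)) (hQ2.clm_apply (differentiableAt_const _))
  have h2 := fun u : VV m => (base_d2 ((contDiff_pr (k := k) (m := m) D).contDiffAt
    (x := y))).hasFDerivAt.clm_apply (hasFDerivAt_const u y)
  have h3 := (((wD m).hasFDerivAt.comp y (h2 b)).clm_apply (h2 c)).add hL
  rw [base_ev hW, show (fun z => W0 k D.N D.A D.B D.C z b c) = _ from
    funext fun z => W0_apply D z b c]
  refine (congrArg (fun L : VV m →L[ℝ] ℝ => L v) h3.fderiv).trans ?_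
  simp [hL']
  ring

theorem fold_W0 (hk : 1 ≤ k) (D : M3 L a η P0 P1 P2 R) {y : VV m} (h : D.e (PX k y.1) = 0)
    (ht : y.2.1 = 0) (hs : y.2.2 = 0) : FoldAt (W0 k D.N D.A D.B D.C) y := by
  obtain ⟨hu, -, -, hY, hH, -, hpos⟩ := D.zer _ h
  have hp : QQ k y = (PX k y.1, 0, 0) := by rw [QQ, ht, hs]
  rw [← hp] at hY hH hpos
  have hr : 0 < 2 * k * PX k y.1 := by
    have : (1 : ℝ) ≤ k := by exact_mod_cast hk
    have := D.u_pos
    apply mul_pos <;> linarith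
  set dP := fderiv ℝ (PX k) y.1 with hdP
  set φ := ph k D.N y with hφ
  have φ0 : 0 < φ := lt_of_lt_of_le one_pos (one_le_ph D y)
  set J := fderiv ℝ (pr k D.N) y with hJ
  set Q := fderiv ℝ (QQ k : VV m → R3) y with hQ
  set D2 := fderiv ℝ (fderiv ℝ (pr k D.N)) y with hD2
  obtain ⟨x, hx⟩ : ∃ x : XX m, x = (2 * k * PX k y.1)⁻¹ • y.1 := ⟨_, rfl⟩
  have dx1 : dP x = 1 := by
    rw [hx, map_smul, hdP, fderiv_PX_self, smul_eq_mul, inv_mul_cancel₀ hr.ne']
  set c := sharp (wD m) dP with hc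
  have wc : wD m c = dP := sharp_spec nd_wD dP
  have dc : dP c = 0 := by rw [← wc]; exact skew_wD.self c
  have c0 : c ≠ 0 := fun e => by
    rw [e, map_zero] at wc
    rw [← wc] at dx1
    simp at dx1
  have eH : (fun w : VV m => PX k (pr k D.N w)) = fun w => hgt D.N (QQ k w) :=
    funext fun w => PX_pr hk D w
  have dpr : fderiv ℝ (PX k) (pr k D.N y) = φ ^ (2 * k - 1) • dP := fderiv_PX_smul hk φ y.1
  have φk : φ ^ (2 * k - 1) ≠ 0 := pow_ne_zero _ φ0.ne'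
  have PJ : ∀ v, dP (J v) = 0 := fun v => by
    have e := congrArg (fun f : VV m → ℝ => fderiv ℝ f y v) eH
    rw [fderiv_fun_comp y ((contDiff_PX k).differentiable (by simp) _)
      ((contDiff_pr D).differentiable (by simp) y),
      fderiv_fun_comp y ((corez_hgt D).differentiable (by simp) _)
      ((contDiff_QQ k).differentiable (by simp) y), hH, dpr] at e
    simpa [φ0.ne'] using e
  have Jv : ∀ v : VV m, J v = φ • (v.1 - dP v.1 • x) := fun v => by
    have e1 : J v = φ • v.1 + fderiv ℝ (ph k D.N) y v • y.1 := fderiv_pr D y v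
    have e2 := PJ v
    rw [e1, map_add, map_smul, map_smul, hdP, fderiv_PX_self, ← hdP, smul_eq_mul,
      smul_eq_mul] at e2
    have e3 : fderiv ℝ (ph k D.N) y v = -(φ * (dP v.1 * (2 * k * PX k y.1)⁻¹)) := by
      have := mul_inv_cancel₀ hr.ne'
      linear_combination (2 * k * PX k y.1)⁻¹ * e2 - fderiv ℝ (ph k D.N) y v * this
    rw [e1, e3, hx]
    module
  have Qv : ∀ v : VV m, Q v = (dP v.1, v.2.1, v.2.2) := fun v => fderiv_QQ k y v
  have S : ∀ v b, φ ^ (2 * k - 1) * dP (D2 v b) =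
      fderiv ℝ (fderiv ℝ (hgt D.N)) (QQ k y) (Q v) (Q b) -
        fderiv ℝ (fderiv ℝ (PX k)) (pr k D.N y) (J v) (J b) := fun v b => by
    have e1 := corez_two (contDiff_PX (m := m) k) (contDiff_pr (k := k) D) y b v
    have e2 := corez_two (corez_hgt D) (contDiff_QQ (m := m) k) y b v
    rw [eH, e2, hH, dpr] at e1
    simp only [zero_apply, add_zero, smul_apply,
      smul_eq_mul] at e1
    linarith
  have W : ∀ u v, W0 k D.N D.A D.B D.C y u v = wD m (J u) (J v) := fun u v => by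
    rw [W0_apply, hY]
    simp [vol3, hJ]
  have F := corez_deriv D hY
  rw [← hJ, ← hQ, ← hD2] at F
  let κ : Fin 4 → VV m := ![(c, 0, 0), (x, 0, 0), (0, 1, 0), (0, 0, 1)]
  have J0 : J (c, 0, 0) = φ • c := by rw [Jv]; simp [dc]
  have J1 : J (x, 0, 0) = 0 := by rw [Jv]; simp [dx1]
  have J2 : J (0, 1, 0) = 0 := by rw [Jv]; simp
  have J3 : J (0, 0, 1) = 0 := by rw [Jv]; simp
  have Q0 : Q (c, 0, 0) = 0 := by rw [Qv]; simp [dc]
  have Q1 : Q (x, 0, 0) = (1, 0, 0) := by rw [Qv]; simp [dx1]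
  have Q2 : Q (0, 1, 0) = (0, 1, 0) := by rw [Qv]; simp
  have Q3 : Q (0, 0, 1) = (0, 0, 1) := by rw [Qv]; simp
  have sk : ∀ v b b', fderiv ℝ (W0 k D.N D.A D.B D.C) y v b' b =
      -fderiv ℝ (W0 k D.N D.A D.B D.C) y v b b' := fun v b b' => by
    rw [F, F, skew_wD (D2 v b') (J b), skew_wD (J b') (D2 v b)]
    simp only [vol3]
    ring
  have F0 : ∀ v b, J b = 0 → φ ^ (2 * k - 1) * fderiv ℝ (W0 k D.N D.A D.B D.C) y v (c, 0, 0) b =
      φ * fderiv ℝ (fderiv ℝ (hgt D.N)) (QQ k y) (Q v) (Q b) := fun v b hb => by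
    have e := S v b
    rw [F, hb, J0, Q0, map_smul, wc]
    rw [hb] at e
    simp only [vol3, map_zero, smul_apply, smul_eq_mul, Prod.fst_zero,
      Prod.snd_zero, sub_zero] at e ⊢
    rw [← e]
    ring
  have F1 : ∀ v b b', J b = 0 → J b' = 0 → fderiv ℝ (W0 k D.N D.A D.B D.C) y v b b' =
      vol3 (fderiv ℝ (fld D.A D.B) (QQ k y) (Q v)) (Q b) (Q b') := fun v b b' hb hb' => by
    rw [F, hb, hb']
    simp
  have Jκ : ∀ i : Fin 4, i ≠ 0 → J (κ i) = 0 := fun i hi => by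
    fin_cases i
    exacts [absurd rfl hi, J1, J2, J3]
  have sumκ : ∀ g : Fin 4 → ℝ, ∑ i, g i • κ i = (g 0 • c + g 1 • x, g 2, g 3) := fun g => by
    simp [κ, Fin.sum_univ_four]
  refine ⟨κ, Fintype.linearIndependent_iff.2 fun g hg i => ?_, fun u => ⟨fun hu => ?_, fun hu v => ?_⟩,
    fun i j => ?_, fun g g0 g1 => ?_⟩
  · rw [sumκ] at hg
    have e1 : g 0 • c + g 1 • x = 0 := congrArg Prod.fst hg
    have e2 : g 1 = 0 := by simpa [dc, dx1] using congrArg dP e1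
    have e3 : g 0 = 0 := by simpa [e2, c0] using e1
    fin_cases i
    exacts [e3, e2, congrArg (fun q : VV m => q.2.1) hg, congrArg (fun q : VV m => q.2.2) hg]
  · have e1 : J u - wD m (J u) x • c = 0 := nd_wD _ fun w => by
      have e := hu (w, 0, 0)
      rw [W, Jv (w, 0, 0), map_smul, map_sub, map_smul] at e
      simp only [smul_eq_mul, mul_eq_zero, φ0.ne', false_or] at e
      rw [map_sub, map_smul, wc]
      simp only [sub_apply, smul_apply, smul_eq_mul]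
      linarith
    have e2 : u = ∑ i, (![φ⁻¹ * wD m (J u) x, dP u.1, u.2.1, u.2.2] : Fin 4 → ℝ) i • κ i := by
      rw [sumκ]
      refine Prod.ext ?_ rfl
      have e3 : u.1 - dP u.1 • x = φ⁻¹ • J u := by
        rw [Jv u, inv_smul_smul₀ φ0.ne']
      have e4 := sub_eq_zero.1 e1
      generalize wD m (J u) x = r at e4
      rw [e4, smul_smul] at e3
      exact sub_eq_iff_eq_add.1 e3
    rw [e2]
    exact Submodule.sum_mem _ fun i _ => Submodule.smul_mem _ _ (Submodule.subset_span ⟨i, rfl⟩)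
  · obtain ⟨g, rfl⟩ := (Submodule.mem_span_range_iff_exists_fun ℝ).1 hu
    rw [W, map_sum, Fin.sum_univ_four, map_smul, map_smul, map_smul, map_smul,
      Jκ 1 (by decide), Jκ 2 (by decide), Jκ 3 (by decide), show J (κ 0) = φ • c from J0]
    simp [wc, PJ]
  · have z : ∀ j : Fin 4, j ≠ 0 →
        fderiv ℝ (W0 k D.N D.A D.B D.C) y (κ 0) (κ 0) (κ j) = 0 := fun j hj => by
      have e := F0 (c, 0, 0) (κ j) (Jκ j hj)
      rw [Q0] at e
      simpa [φ0.ne', κ] using e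
    by_cases hi : i = 0
    · by_cases hj : j = 0
      · subst hi hj
        linarith [sk (κ 0) (κ 0) (κ 0)]
      · subst hi
        exact z j hj
    · by_cases hj : j = 0
      · subst hj
        rw [sk, z i hi, neg_zero]
      · rw [F1 _ _ _ (Jκ i hi) (Jκ j hj), show Q (κ 0) = 0 from Q0]
        simp [vol3]
  · set v := ∑ i, g i • κ i with hv
    have q0 : Q v ≠ 0 := fun e => g1 <| funext fun i => by
      rw [hv, sumκ, Qv] at e
      have e1 : g 1 = 0 := by simpa [dc, dx1] using congrArg Prod.fst e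
      fin_cases i
      exacts [g0, e1, congrArg (fun q : R3 => q.2.1) e, congrArg (fun q : R3 => q.2.2) e]
    have hq := hpos _ q0
    set Y := fderiv ℝ (fld D.A D.B) (QQ k y) (Q v) with hYv
    set B := fderiv ℝ (fderiv ℝ (hgt D.N)) (QQ k y) (Q v) with hB
    have eY : B Y = Y.1 * B (1, 0, 0) + Y.2.1 * B (0, 1, 0) + Y.2.2 * B (0, 0, 1) := by
      have : Y = Y.1 • ((1, 0, 0) : R3) + Y.2.1 • ((0, 1, 0) : R3) + Y.2.2 • ((0, 0, 1) : R3) := by
        ext <;> simp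
      conv_lhs => rw [this]
      simp only [map_add, map_smul, smul_eq_mul]
    rw [corez_det _ fun i j => sk v (κ i) (κ j)]
    refine pow_ne_zero _ fun e => ?_
    have a1 := F0 v _ J1
    have a2 := F0 v _ J2
    have a3 := F0 v _ J3
    have b12 := F1 v _ _ J1 J2
    have b13 := F1 v _ _ J1 J3
    have b23 := F1 v _ _ J2 J3
    rw [Q1] at a1 b12 b13
    rw [Q2] at a2 b12 b23
    rw [Q3] at a3 b13 b23
    simp only [vol3, ← hYv, ← hB] at a1 a2 a3 b12 b13 b23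
    have e' := congrArg (fun r => φ ^ (2 * k - 1) * r) e
    simp only [κ, Matrix.cons_val_zero, Matrix.cons_val_one, Matrix.cons_val, mul_add, mul_sub,
      ← mul_assoc, a1, a2, a3, b12, b13, b23] at e'
    have : φ * B Y = 0 := by rw [eY]; linarith
    exact (mul_pos φ0 hq).ne' this

theorem sub_W0 (hk : 1 ≤ k) (D : M3 L a η P0 P1 P2 R) {y : VV m} (h : D.e (PX k y.1) = 0)
    (ht : y.2.1 = 0) (hs : y.2.2 = 0) :
    SubAt {z : VV m | D.e (PX k z.1) = 0 ∧ z.2.1 = 0 ∧ z.2.2 = 0} y := by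
  obtain ⟨hu, -, he, -⟩ := D.zer _ h
  have hr : 0 < 2 * k * PX k y.1 := by
    have : (1 : ℝ) ≤ k := by exact_mod_cast hk
    have := D.u_pos
    apply mul_pos <;> linarith
  have s1 : ContDiff ℝ ∞ fun z : VV m => D.e (PX k z.1) :=
    D.sme.comp ((contDiff_PX k).comp contDiff_fst)
  have s2 : ContDiff ℝ ∞ fun z : VV m => z.2.1 := contDiff_fst.comp contDiff_snd
  have s3 : ContDiff ℝ ∞ fun z : VV m => z.2.2 := contDiff_snd.comp contDiff_snd
  let g : Fin 3 → VV m → ℝ := ![fun z => D.e (PX k z.1), fun z => z.2.1, fun z => z.2.2]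
  have sg : ∀ i, ContDiff ℝ ∞ (g i) := fun i => by
    fin_cases i
    exacts [s1, s2, s3]
  have d1 : HasFDerivAt (fun z : VV m => D.e (PX k z.1)) _ y :=
    (D.sme.differentiable (by simp) (PX k y.1)).hasDerivAt.comp_hasFDerivAt y
      (((contDiff_PX k).differentiable (by simp) y.1).hasFDerivAt.comp y hasFDerivAt_fst)
  refine ⟨univ, fun z i => g i z, isOpen_univ, mem_univ y, (contDiff_pi.2 sg).contDiffOn,
    fun w => ⟨((w 0 * (deriv D.e (PX k y.1) * (2 * k * PX k y.1))⁻¹) • y.1, w 1, w 2), ?_⟩,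
    fun z _ => ?_⟩
  · rw [fderiv_pi fun i => (sg i).differentiable (by simp) y]
    funext i
    fin_cases i
    · show fderiv ℝ (fun z : VV m => D.e (PX k z.1)) y _ = w 0
      rw [d1.fderiv]
      have : PX k y.1 ≠ 0 := fun e => by simp [e] at hr
      have : (k : ℝ) ≠ 0 := fun e => by simp [e] at hr
      simp [fderiv_PX_self]
      field_simp
    · show fderiv ℝ (dt m) y _ = w 1
      rw [ContinuousLinearMap.fderiv]; rfl
    · show fderiv ℝ (ds m) y _ = w 2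
      rw [ContinuousLinearMap.fderiv]; rfl
  · constructor
    · rintro ⟨h1, h2, h3⟩
      funext i
      fin_cases i
      exacts [h1, h2, h3]
    · intro e
      exact ⟨congrFun e 0, congrFun e 1, congrFun e 2⟩

end Pool.Agent.Work.MP_bf98aa_gt.Ns
end
end
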