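import Pool.Agent.Work.MP_bf98aa_gt.Ns.Base

/-!
Cut-off functions, primitives, ramps, diffeomorphisms, transport of the fold condition.
Hints. exists_cut: exists_contDiff_tsupport_subset type lemmas or exists_smooth_support_eq / exists_contMDiff_zero_one; exists_compact_between.
dif_of_bij: ContDiffAt.toOpenPartialHomeomorph gives a smooth local inverse, which agrees with the global inverse near the point.
dif_of_lip: SpunKnot.FlowAAux.smooth_fixed (Work/MP_e1e788_gt/FlowA) applied to -g.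
FoldAt.pull: use k' i = L.symm (k i); in the derivative of pull2 the two terms with second derivatives of phi vanish because k i is in the kernel (use skewness at the point for the other slot).
saw: y - floor y - S((y - floor y)/eta) with S = Real.smoothTransition; smooth because of the local formula.
-/

set_option autoImplicit false
set_option maxSynthPendingDepth 3
set_option linter.unusedSectionVars false
set_option linter.unusedVariables false

open Set Filter Topology Metric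
open scoped Manifold ContDiff

noncomputable section
namespace Pool.Agent.Work.MP_bf98aa_gt.Ns

open Pool.Agent.Work.MP_8c604c_gt

variable {V V' V'' : Type} [NormedAddCommGroup V] [NormedSpace ℝ V] [FiniteDimensional ℝ V]
  [NormedAddCommGroup V'] [NormedSpace ℝ V'] [FiniteDimensional ℝ V']
  [NormedAddCommGroup V''] [NormedSpace ℝ V''] [FiniteDimensional ℝ V''] {m : ℕ}

theorem contDiff_of_supp {W : Type} [NormedAddCommGroup W] [NormedSpace ℝ W] {U K : Set V}
    (hU : IsOpen U) (hK : IsClosed K) (hKU : K ⊆ U) {f : V → W} (hf : ContDiffOn ℝ ∞ f U)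
    (h0 : ∀ y, y ∉ K → f y = 0) : ContDiff ℝ ∞ f := by
  refine contDiff_iff_contDiffAt.2 fun y => ?_
  by_cases hy : y ∈ U
  · exact hf.contDiffAt (hU.mem_nhds hy)
  · have h1 : Kᶜ ∈ 𝓝 y := hK.isOpen_compl.mem_nhds fun h => hy (hKU h)
    exact (contDiffAt_const (c := (0 : W))).congr_of_eventuallyEq
      (mem_of_superset h1 fun z hz => h0 z hz)

theorem cut_sep {s t : Set V} (hs : IsClosed s) (ht : IsClosed t) (hd : Disjoint s t) :
    ∃ χ : V → ℝ, ContDiff ℝ ∞ χ ∧ (∀ y ∈ s, χ y = 0) ∧ (∀ y ∈ t, χ y = 1) ∧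
      ∀ y, 0 ≤ χ y ∧ χ y ≤ 1 := by
  obtain ⟨f, h1, h2, h3⟩ := exists_contMDiffMap_zero_one_of_isClosed (n := ⊤) 𝓘(ℝ, V) hs ht hd
  exact ⟨f, f.contMDiff.contDiff, fun y hy => h1 hy, fun y hy => h2 hy, fun y => h3 y⟩

theorem exists_cut {K U : Set V} (hK : IsCompact K) (hU : IsOpen U) (hKU : K ⊆ U) :
    ∃ (χ : V → ℝ) (K' O : Set V), ContDiff ℝ ∞ χ ∧ IsCompact K' ∧ K' ⊆ U ∧ IsOpen O ∧ K ⊆ O ∧
      O ⊆ K' ∧ (∀ y ∈ O, χ y = 1) ∧ (∀ y, y ∉ K' → χ y = 0) ∧ ∀ y, 0 ≤ χ y ∧ χ y ≤ 1 := by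
  obtain ⟨L, hL, hKL, hLU⟩ := exists_compact_between hK hU hKU
  obtain ⟨L', hL', hKL', hLL⟩ := exists_compact_between hK isOpen_interior hKL
  obtain ⟨χ, h1, h2, h3, h4⟩ := cut_sep (s := (interior L)ᶜ) isOpen_interior.isClosed_compl
    hL'.isClosed (disjoint_compl_left_iff_subset.2 hLL)
  exact ⟨χ, L, interior L', h1, hL, hLU, isOpen_interior, hKL',
    interior_subset.trans (hLL.trans interior_subset), fun y hy => h3 y (interior_subset hy),
    fun y hy => h2 y fun h => hy (interior_subset h), h4⟩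

/-- A cut-off for balls of the given norm. -/
theorem exists_ball_cut (c : V) {r R : ℝ} (hr : 0 ≤ r) (h : r < R) : ∃ χ : V → ℝ, ContDiff ℝ ∞ χ ∧
    (∀ y, ‖y - c‖ ≤ r → χ y = 1) ∧ (∀ y, R ≤ ‖y - c‖ → χ y = 0) ∧ ∀ y, 0 ≤ χ y ∧ χ y ≤ 1 := by
  have hc : Continuous fun y : V => ‖y - c‖ := by fun_prop
  obtain ⟨χ, h1, h2, h3, h4⟩ := cut_sep (s := {y : V | R ≤ ‖y - c‖}) (t := {y : V | ‖y - c‖ ≤ r})
    (isClosed_le continuous_const hc) (isClosed_le hc continuous_const)
    (Set.disjoint_left.2 fun y (k1 : R ≤ ‖y - c‖) (k2 : ‖y - c‖ ≤ r) => by linarith)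
  exact ⟨χ, h1, h3, h2, h4⟩

theorem contDiff_prim {g : ℝ → ℝ} (hg : ContDiff ℝ ∞ g) (a : ℝ) :
    ContDiff ℝ ∞ (fun x => ∫ s in a..x, g s) ∧ ∀ x, HasDerivAt (fun x => ∫ s in a..x, g s) (g x) x := by
  have h : ∀ x, HasDerivAt (fun x => ∫ s in a..x, g s) (g x) x := fun x =>
    (hg.continuous.integral_hasStrictDerivAt a x).hasDerivAt
  refine ⟨contDiff_infty_iff_deriv.2 ⟨fun x => (h x).differentiableAt, ?_⟩, h⟩
  rw [show deriv (fun x => ∫ s in a..x, g s) = g from funext fun x => (h x).deriv]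
  exact hg

/-- A monotone step from `0` to `1`. -/
theorem exists_step {a b : ℝ} (h : a < b) : ∃ S : ℝ → ℝ, ContDiff ℝ ∞ S ∧ (∀ x, x ≤ a → S x = 0) ∧
    (∀ x, b ≤ x → S x = 1) ∧ (∀ x, 0 ≤ S x ∧ S x ≤ 1) ∧ ∀ x, 0 ≤ deriv S x := by
  have hp : 0 < b - a := sub_pos.2 h
  refine ⟨fun x => Real.smoothTransition ((x - a) / (b - a)),
    Real.smoothTransition.contDiff.comp (by fun_prop), fun x hx => ?_, fun x hx => ?_,
    fun x => ⟨Real.smoothTransition.nonneg _, Real.smoothTransition.le_one _⟩, fun x => ?_⟩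
  · exact Real.smoothTransition.zero_of_nonpos (div_nonpos_of_nonpos_of_nonneg (by linarith) hp.le)
  · exact Real.smoothTransition.one_of_one_le ((one_le_div hp).2 (by linarith))
  · refine Monotone.deriv_nonneg fun u v huv => Real.smoothTransition.monotone ?_
    exact div_le_div_of_nonneg_right (by linarith) hp.le

/-- A step of small slope. -/
theorem exists_ramp {a b K : ℝ} (hK : 0 < K) (h : K < b - a) : ∃ S : ℝ → ℝ, ContDiff ℝ ∞ S ∧
    (∀ x, x ≤ a → S x = 0) ∧ (∀ x, b ≤ x → S x = 1) ∧ ∀ x, 0 ≤ deriv S x ∧ K * deriv S x < 1 := by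
  obtain ⟨r, hr1, hr2⟩ := exists_between (show K / 2 < (b - a) / 2 by linarith)
  obtain ⟨ρ, h1, h2, h3, h4⟩ := exists_ball_cut ((a + b) / 2) (r := r) (by linarith) hr2
  simp only [Real.norm_eq_abs] at h2 h3
  obtain ⟨p1, p2⟩ := contDiff_prim h1 a
  have hi : ∀ u v, IntervalIntegrable ρ MeasureTheory.volume u v := fun u v =>
    h1.continuous.intervalIntegrable u v
  have hI : K < ∫ s in a..b, ρ s := by
    have e1 : ∫ s in ((a + b) / 2 - r)..((a + b) / 2 + r), ρ s = 2 * r := by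
      rw [intervalIntegral.integral_congr (g := fun _ => (1 : ℝ))]
      · simp only [intervalIntegral.integral_const, smul_eq_mul]; ring
      · intro s hs
        rw [uIcc_of_le (by linarith)] at hs
        exact h2 s (abs_le.2 ⟨by linarith [hs.1], by linarith [hs.2]⟩)
    have e2 := intervalIntegral.integral_add_adjacent_intervals (hi a ((a + b) / 2 - r))
      (hi ((a + b) / 2 - r) ((a + b) / 2 + r))
    have e3 := intervalIntegral.integral_add_adjacent_intervals (hi a ((a + b) / 2 + r))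
      (hi ((a + b) / 2 + r) b)
    have e4 : 0 ≤ ∫ s in a..((a + b) / 2 - r), ρ s :=
      intervalIntegral.integral_nonneg (by linarith) fun s _ => (h4 s).1
    have e5 : 0 ≤ ∫ s in ((a + b) / 2 + r)..b, ρ s :=
      intervalIntegral.integral_nonneg (by linarith) fun s _ => (h4 s).1
    linarith
  have hI0 : 0 < ∫ s in a..b, ρ s := hK.trans hI
  refine ⟨fun x => (∫ s in a..x, ρ s) / ∫ s in a..b, ρ s, p1.div_const _, fun x hx => ?_,
    fun x hx => ?_, fun x => ?_⟩
  · have : ∫ s in a..x, ρ s = 0 := by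
      rw [intervalIntegral.integral_congr (g := fun _ => (0 : ℝ))]
      · simp
      · intro s hs
        rw [uIcc_of_ge hx] at hs
        exact h3 s (le_abs.2 (Or.inr (by linarith [hs.2])))
    simp only [this, zero_div]
  · have : ∫ s in b..x, ρ s = 0 := by
      rw [intervalIntegral.integral_congr (g := fun _ => (0 : ℝ))]
      · simp
      · intro s hs
        rw [uIcc_of_le hx] at hs
        exact h3 s (le_abs.2 (Or.inl (by linarith [hs.1])))
    have e := intervalIntegral.integral_add_adjacent_intervals (hi a b) (hi b x)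
    rw [this, add_zero] at e
    simp only [← e]
    exact div_self hI0.ne'
  · rw [((p2 x).div_const _).deriv]
    refine ⟨div_nonneg (h4 x).1 hI0.le, ?_⟩
    rw [← mul_div_assoc, div_lt_one hI0]
    nlinarith [(h4 x).2]

/-- The saw with drops on the intervals `[k, k + η]`. -/
theorem exists_saw {η : ℝ} (h0 : 0 < η) (h1 : η < 1) : ∃ saw S : ℝ → ℝ, ContDiff ℝ ∞ saw ∧
    ContDiff ℝ ∞ S ∧ (∀ x, x ≤ 0 → S x = 0) ∧ (∀ x, η ≤ x → S x = 1) ∧ (∀ x, 0 ≤ S x ∧ S x ≤ 1) ∧
    (∀ x, |saw x| ≤ 1) ∧ (∀ (k : ℤ) (x : ℝ), k - 1 + η < x → x < k + 1 → saw x = x - k - S (x - k)) ∧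
    (∀ x, deriv saw x ≤ 1) ∧ ∀ x, deriv saw x ≠ 1 → ∃ k : ℤ, (k : ℝ) ≤ x ∧ x ≤ k + η := by
  obtain ⟨S, s1, s2, s3, s4, s5⟩ := exists_step h0
  obtain ⟨saw, hsaw⟩ : ∃ saw : ℝ → ℝ, saw = fun x => x - ⌊x⌋ - S (x - ⌊x⌋) := ⟨_, rfl⟩
  have key : ∀ (k : ℤ) (x : ℝ), k - 1 + η < x → x < k + 1 → saw x = x - k - S (x - k) := by
    intro k x k1 k2
    rw [hsaw]
    rcases le_or_gt (k : ℝ) x with k3 | k3
    · simp only [Int.floor_eq_iff.2 ⟨k3, k2⟩]
    · have : ⌊x⌋ = k - 1 := Int.floor_eq_iff.2 ⟨by push_cast; linarith, by push_cast; linarith⟩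
      simp only [this]
      push_cast
      rw [s3 _ (by linarith), s2 _ (by linarith)]
      ring
  have loc : ∀ x : ℝ, saw =ᶠ[𝓝 x] fun z => z - ⌊x⌋ - S (z - ⌊x⌋) := fun x => by
    have k1 := Int.floor_le x
    have k2 := Int.lt_floor_add_one x
    filter_upwards [Ioo_mem_nhds (show (⌊x⌋ : ℝ) - 1 + η < x by linarith) k2] with z hz
    exact key _ z hz.1 hz.2
  have hd : ∀ x : ℝ, deriv saw x = 1 - deriv S (x - ⌊x⌋) := fun x => by
    rw [(loc x).deriv_eq]
    have k1 : HasDerivAt S (deriv S (x - ⌊x⌋)) (x - ⌊x⌋) :=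
      (s1.differentiable (by simp) _).hasDerivAt
    exact (((hasDerivAt_id' x).sub_const _).sub (k1.comp_sub_const x _)).deriv
  refine ⟨saw, S, contDiff_iff_contDiffAt.2 fun x => ?_, s1, s2, s3, s4, fun x => ?_, key,
    fun x => ?_, fun x hx => ⟨⌊x⌋, Int.floor_le x, ?_⟩⟩
  · refine ContDiffAt.congr_of_eventuallyEq ?_ (loc x)
    exact ((contDiff_id.sub contDiff_const).sub
      (s1.comp (contDiff_id.sub contDiff_const))).contDiffAt
  · have k1 := Int.floor_le x
    have k2 := Int.lt_floor_add_one x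
    have k3 := s4 (x - ⌊x⌋)
    rw [hsaw]
    exact abs_le.2 ⟨by linarith [k3.2], by linarith [k3.1]⟩
  · rw [hd]; linarith [s5 (x - ⌊x⌋)]
  · by_contra k
    refine hx ?_
    have k1 : S =ᶠ[𝓝 (x - ⌊x⌋)] fun _ => 1 := by
      filter_upwards [Ioi_mem_nhds (show η < x - ⌊x⌋ by linarith [not_le.1 k])] with z hz
      exact s3 z (le_of_lt hz)
    rw [hd, k1.deriv_eq, deriv_const, sub_zero]

theorem cut_bij {L : V →L[ℝ] V} (h : Function.Injective L) : Function.Bijective L :=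
  ⟨h, (LinearMap.injective_iff_surjective (f := (L : V →ₗ[ℝ] V))).1 h⟩

theorem cut_equiv {L : V →L[ℝ] V'} (h : Function.Bijective L) :
    ∃ e : V ≃L[ℝ] V', (e : V →L[ℝ] V') = L :=
  ⟨(LinearEquiv.ofBijective (L : V →ₗ[ℝ] V') h).toContinuousLinearEquiv, by ext v; rfl⟩

theorem Dif.bij (φ : Dif V) (y : V) : Function.Bijective (fderiv ℝ φ y) := by
  have h1 : HasFDerivAt φ.toFun (fderiv ℝ φ.toFun y) y :=
    (φ.smooth.differentiable (by simp) y).hasFDerivAt
  have h2 : HasFDerivAt φ.invFun (fderiv ℝ φ.invFun (φ.toFun y)) (φ.toFun y) :=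
    (φ.smooth_inv.differentiable (by simp) _).hasFDerivAt
  have h3 := h2.comp y h1
  rw [show φ.invFun ∘ φ.toFun = id from funext φ.left_inv] at h3
  have h4 := h3.unique (hasFDerivAt_id y)
  refine cut_bij (Function.LeftInverse.injective (g := fderiv ℝ φ.invFun (φ.toFun y)) fun v => ?_)
  exact congrArg (fun L : V →L[ℝ] V => L v) h4

theorem dif_of_bij {f : V → V} (hf : ContDiff ℝ ∞ f) (hb : Function.Bijective f)
    (hd : ∀ y, Function.Injective (fderiv ℝ f y)) : ∃ φ : Dif V, ∀ y, φ y = f y := by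
  have : CompleteSpace V := FiniteDimensional.complete ℝ V
  choose e he using fun y => cut_equiv (cut_bij (hd y))
  have h1 : ∀ y, HasFDerivAt f (e y : V →L[ℝ] V) y := fun y => by
    rw [he]; exact (hf.differentiable (by simp) y).hasFDerivAt
  have h2 : IsOpenMap f := isOpenMap_of_hasStrictFDerivAt_equiv (f' := e) fun y =>
    hf.contDiffAt.hasStrictFDerivAt' (h1 y) (by simp)
  have h3 := ((Equiv.ofBijective f hb).toHomeomorphOfContinuousOpen hf.continuous
    h2).contDiff_symm (n := ∞) h1 hf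
  exact ⟨⟨Equiv.ofBijective f hb, hf, h3⟩, fun y => rfl⟩

theorem dif_of_lip {g : V → V} (hg : ContDiff ℝ ∞ g) (hd : ∀ y, ‖fderiv ℝ g y‖ ≤ 1 / 2) :
    ∃ φ : Dif V, ∀ y, φ y = y + g y := by
  have : CompleteSpace V := FiniteDimensional.complete ℝ V
  have hL : LipschitzWith (1 / 2) g :=
    lipschitzWith_of_nnnorm_fderiv_le (hg.differentiable (by simp)) fun y => by
      rw [← NNReal.coe_le_coe]; simpa using hd y
  obtain ⟨Γ, h1, h2⟩ := SpunKnot.FlowAAux.smooth_fixed (T := fun y => -g y) hg.neg hL.neg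
  have h3 : ∀ y, Γ y + g (Γ y) = y := fun y => by
    have := h2 y
    rw [← sub_eq_add_neg] at this
    exact eq_sub_iff_add_eq.1 this
  have h4 : Function.Injective fun y => y + g y := fun u v (h : u + g u = v + g v) => by
    have k1 := hL.dist_le_mul v u
    have k2 : u - v = g v - g u := by rw [sub_eq_sub_iff_add_eq_add, h, add_comm]
    rw [dist_eq_norm, dist_eq_norm, ← k2, norm_sub_rev v u] at k1
    have k3 : ‖u - v‖ ≤ 0 := by
      have : ((1 / 2 : NNReal) : ℝ) = 1 / 2 := by simp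
      rw [this] at k1
      linarith
    exact sub_eq_zero.1 (norm_le_zero_iff.1 k3)
  exact ⟨⟨⟨fun y => y + g y, Γ, fun y => h4 (h3 _), h3⟩, contDiff_id.add hg, h1⟩, fun y => rfl⟩

theorem dif_affine (L : V ≃L[ℝ] V) (c : V) : ∃ φ : Dif V, ∀ y, φ y = L y + c := by
  refine ⟨⟨⟨fun y => L y + c, fun z => L.symm (z - c), fun y => by simp, fun z => by simp⟩,
    L.contDiff.add contDiff_const, L.symm.contDiff.comp (contDiff_id.sub contDiff_const)⟩,
    fun y => rfl⟩

theorem FoldAt.congr {w w' : V → B2 V} {y : V} (h : FoldAt w y) (e : w =ᶠ[𝓝 y] w') :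
    FoldAt w' y := by
  unfold FoldAt at h ⊢
  rw [← e.fderiv_eq, ← e.self_of_nhds]
  exact h

theorem cut_pull_deriv {φ : V → V'} {w : V' → B2 V'} {y : V} (hφ : ContDiffAt ℝ ∞ φ y)
    (hw : DifferentiableAt ℝ w (φ y)) (a u v : V) :
    fderiv ℝ (pull2 φ w) y a u v =
      fderiv ℝ w (φ y) (fderiv ℝ φ y a) (fderiv ℝ φ y u) (fderiv ℝ φ y v) +
        w (φ y) (fderiv ℝ (fderiv ℝ φ) y a u) (fderiv ℝ φ y v) +
        w (φ y) (fderiv ℝ φ y u) (fderiv ℝ (fderiv ℝ φ) y a v) := by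
  have h1 : HasFDerivAt φ (fderiv ℝ φ y) y := (hφ.differentiableAt (by simp)).hasFDerivAt
  have h2 : HasFDerivAt (fderiv ℝ φ) (fderiv ℝ (fderiv ℝ φ) y) y :=
    ((hφ.fderiv_right (m := ∞) le_rfl).differentiableAt (by simp)).hasFDerivAt
  have h3 : HasFDerivAt (fun z => w (φ z)) ((fderiv ℝ w (φ y)).comp (fderiv ℝ φ y)) y :=
    hw.hasFDerivAt.comp y h1
  have h0 : Differentiable ℝ fun p : (V →L[ℝ] V') × B2 V' => pb p.1 p.2 :=
    contDiff_pb.differentiable (by simp)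
  have h4 : DifferentiableAt ℝ (pull2 φ w) y :=
    DifferentiableAt.comp (g := fun p : (V →L[ℝ] V') × B2 V' => pb p.1 p.2)
      (f := fun z => (fderiv ℝ φ z, w (φ z))) y (h0 _)
      (h2.differentiableAt.prodMk h3.differentiableAt)
  have h5 := (h4.hasFDerivAt.clm_apply (hasFDerivAt_const u y)).clm_apply (hasFDerivAt_const v y)
  have h6 := (h3.clm_apply (h2.clm_apply (hasFDerivAt_const u y))).clm_apply
    (h2.clm_apply (hasFDerivAt_const v y))
  have e : (fun z => pull2 φ w z u v) = fun z => w (φ z) (fderiv ℝ φ z u) (fderiv ℝ φ z v) :=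
    funext fun z => pb_apply _ _ _ _
  rw [e] at h5
  have h7 := congrArg (fun L : V →L[ℝ] ℝ => L a) (h5.unique h6)
  simp only [add_apply, ContinuousLinearMap.comp_apply,
    ContinuousLinearMap.flip_apply, zero_apply, map_zero, zero_add] at h7
  rw [h7]
  ring

theorem FoldAt.pull {φ : V → V'} {w : V' → B2 V'} {y : V} (hφ : ContDiffAt ℝ ∞ φ y)
    (hb : Function.Bijective (fderiv ℝ φ y)) (hw : DifferentiableAt ℝ w (φ y))
    (hs : Skew (w (φ y))) (h : FoldAt w (φ y)) : FoldAt (pull2 φ w) y := by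
  obtain ⟨k, k1, k2, k3, k4⟩ := h
  obtain ⟨L, hL⟩ := cut_equiv hb
  have hLL : ∀ v, fderiv ℝ φ y (L.symm v) = v := fun v => by
    rw [← hL]; exact L.apply_symm_apply v
  have hk : ∀ i v, w (φ y) (k i) v = 0 := fun i =>
    (k2 (k i)).2 (Submodule.subset_span ⟨i, rfl⟩)
  have key : ∀ a i j, fderiv ℝ (pull2 φ w) y (L.symm a) (L.symm (k i)) (L.symm (k j)) =
      fderiv ℝ w (φ y) a (k i) (k j) := fun a i j => by
    rw [cut_pull_deriv hφ hw, hLL, hLL, hLL, hk, hs, hk]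
    simp
  refine ⟨fun i => L.symm (k i), k1.map' (L.symm : V' →ₗ[ℝ] V) L.symm.toLinearEquiv.ker,
    fun u => ?_, fun i j => ?_, fun c c0 c1 => ?_⟩
  · have e1 : (∀ v, pull2 φ w y u v = 0) ↔ ∀ v, w (φ y) (L u) v = 0 := by
      simp only [pull2, pb_apply, ← hL]
      exact ⟨fun h v => by simpa using h (L.symm v), fun h v => h _⟩
    have e2 : (Set.range fun i => L.symm (k i)) = (L.symm : V' →ₗ[ℝ] V) '' Set.range k := by
      rw [← Set.range_comp]; rfl
    rw [e1, k2, e2, ← Submodule.map_span, Submodule.mem_map]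
    exact ⟨fun h => ⟨L u, h, L.symm_apply_apply u⟩, fun ⟨v, h1, h2⟩ => by
      rw [← h2]; simpa using h1⟩
  · rw [key, k3]
  · have e : ∑ a, c a • L.symm (k a) = L.symm (∑ a, c a • k a) := by simp
    simp only [e, key]
    exact k4 c c0 c1

theorem SubAt.congr {Z Z' : Set V} {y : V} (h : SubAt Z y) (e : ∀ᶠ z in 𝓝 y, z ∈ Z ↔ z ∈ Z') :
    SubAt Z' y := by
  obtain ⟨U, g, h1, h2, h3, h4, h5⟩ := h
  obtain ⟨O, o1, o2, o3⟩ := _root_.eventually_nhds_iff.1 e
  exact ⟨U ∩ O, g, h1.inter o2, ⟨h2, o3⟩, h3.mono inter_subset_left, h4,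
    fun z hz => (o1 z hz.2).symm.trans (h5 z hz.1)⟩

theorem SubAt.pull {φ : V → V'} {Z : Set V'} {y : V} {U : Set V} (hU : IsOpen U) (hy : y ∈ U)
    (hφ : ContDiffOn ℝ ∞ φ U) (hb : Function.Surjective (fderiv ℝ φ y)) (h : SubAt Z (φ y)) :
    SubAt (φ ⁻¹' Z) y := by
  obtain ⟨O, g, h1, h2, h3, h4, h5⟩ := h
  refine ⟨U ∩ φ ⁻¹' O, g ∘ φ, hφ.continuousOn.isOpen_inter_preimage hU h1, ⟨hy, h2⟩,
    h3.comp (hφ.mono inter_subset_left) fun z hz => hz.2, ?_, fun z hz => h5 _ hz.2⟩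
  rw [fderiv_comp y ((h3.contDiffAt (h1.mem_nhds h2)).differentiableAt (by simp))
    ((hφ.contDiffAt (hU.mem_nhds hy)).differentiableAt (by simp))]
  exact h4.comp hb

end Pool.Agent.Work.MP_bf98aa_gt.Ns
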