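import Pool.Agent.Work.MP_8c604c_gt.Lam

/-!
Working definitions for the near-symplectic existence theorem: forms of degree one and two on
vector spaces and on a manifold, parametrisations, the Pfaffian, the standard model space.
-/

set_option autoImplicit false
set_option maxSynthPendingDepth 3

open Set Filter Topology Metric
open scoped Manifold ContDiff

noncomputable section
namespace Pool.Agent.Work.MP_bf98aa_gt.Ns

open Pool.Agent.Work.MP_8c604c_gt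

/-- Covectors. -/
abbrev B1 (V : Type) [NormedAddCommGroup V] [NormedSpace ℝ V] : Type := V →L[ℝ] ℝ

/-- Bilinear forms. -/
abbrev B2 (V : Type) [NormedAddCommGroup V] [NormedSpace ℝ V] : Type := V →L[ℝ] V →L[ℝ] ℝ

section Euc
variable {V V' : Type} [NormedAddCommGroup V] [NormedSpace ℝ V] [NormedAddCommGroup V']
  [NormedSpace ℝ V']

def Skew (b : B2 V) : Prop := ∀ u v, b u v = -b v u

def Nd (b : B2 V) : Prop := ∀ u, (∀ v, b u v = 0) → u = 0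

/-- `wedge θ φ u v = θ u * φ v - φ u * θ v`. -/
def wedge (θ φ : B1 V) : B2 V := θ.smulRight φ - φ.smulRight θ

/-- The exterior derivative of a 1-form. -/
def dd (θ : V → B1 V) (y : V) : B2 V := fderiv ℝ θ y - (fderiv ℝ θ y).flip

def ClosedAt (w : V → B2 V) (y : V) : Prop :=
  ∀ a b c, fderiv ℝ w y a b c + fderiv ℝ w y b c a + fderiv ℝ w y c a b = 0

/-- Linear pull-back. -/
def pb (L : V →L[ℝ] V') (b : B2 V') : B2 V := b.bilinearComp L L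

def pull1 (φ : V → V') (θ : V' → B1 V') (y : V) : B1 V := (θ (φ y)).comp (fderiv ℝ φ y)

def pull2 (φ : V → V') (w : V' → B2 V') (y : V) : B2 V := pb (fderiv ℝ φ y) (w (φ y))

/-- A smooth closed 2-form on `U`. -/
structure Form2On (U : Set V) (w : V → B2 V) : Prop where
  smooth : ContDiffOn ℝ ∞ w U
  skew : ∀ y ∈ U, Skew (w y)
  closed : ∀ y ∈ U, ClosedAt w y

/-- The vector `v` with `b v = θ`. -/
def sharp (b : B2 V) (θ : B1 V) : V := b.inverse θ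

/-- A transvection. -/
def tv (b : B2 V) (c : ℝ) (v : V) : V →L[ℝ] V :=
  ContinuousLinearMap.id ℝ V + c • (b v).smulRight v

/-- Diffeomorphisms of a vector space. -/
structure Dif (V : Type) [NormedAddCommGroup V] [NormedSpace ℝ V] extends V ≃ V where
  smooth : ContDiff ℝ ∞ toFun
  smooth_inv : ContDiff ℝ ∞ invFun

instance : CoeFun (Dif V) fun _ => V → V := ⟨fun φ => φ.toFun⟩

def Dif.refl (V : Type) [NormedAddCommGroup V] [NormedSpace ℝ V] : Dif V :=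
  ⟨Equiv.refl V, contDiff_id, contDiff_id⟩

def Dif.symm (φ : Dif V) : Dif V := ⟨φ.toEquiv.symm, φ.smooth_inv, φ.smooth⟩

/-- First `φ`, then `ψ`. -/
def Dif.trans (φ ψ : Dif V) : Dif V :=
  ⟨φ.toEquiv.trans ψ.toEquiv, ψ.smooth.comp φ.smooth, φ.smooth_inv.comp ψ.smooth_inv⟩

/-- A smooth global flow. -/
structure Flow (X : V → V) where
  φ : ℝ → V → V
  smooth : ContDiff ℝ ∞ fun p : ℝ × V => φ p.1 p.2
  zero : ∀ y, φ 0 y = y
  deriv : ∀ t y, HasDerivAt (fun s => φ s y) (X (φ t y)) t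
  add : ∀ s t y, φ (s + t) y = φ s (φ t y)

/-- The flow box map. -/
def Flow.box {X : V → V} (F : Flow X) (j : B1 V) (e : V) (c : ℝ) (y : V) : V :=
  F.φ (j y) (y - j y • e + c • e)

/-- A homotopy of nondegenerate forms over `U` that is constant off `K`. -/
def HtpE (U K : Set V) (T T' : V → B2 V) : Prop :=
  ∃ H : ℝ → V → B2 V, ContinuousOn (fun p : ℝ × V => H p.1 p.2) (Icc 0 1 ×ˢ U) ∧
    (∀ y ∈ U, H 0 y = T y ∧ H 1 y = T' y) ∧
    (∀ t ∈ Icc (0 : ℝ) 1, ∀ y ∈ U, Skew (H t y) ∧ Nd (H t y)) ∧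
    ∀ t ∈ Icc (0 : ℝ) 1, ∀ y ∈ U, y ∉ K → H t y = T y

/-- A symplectic diffeomorphism for the constant form `b`, supported in the ball of radius `ρ`. -/
def SympC (b : B2 V) (ρ : ℝ) (k : Dif V) : Prop :=
  (∀ y, pull2 k (fun _ => b) y = b) ∧ ∀ y, ρ ≤ ‖y‖ → k y = y

/-- The near-symplectic transversality condition. -/
def FoldAt (w : V → B2 V) (y : V) : Prop :=
  ∃ k : Fin 4 → V, LinearIndependent ℝ k ∧
    (∀ u, (∀ v, w y u v = 0) ↔ u ∈ Submodule.span ℝ (Set.range k)) ∧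
    (∀ i j, fderiv ℝ w y (k 0) (k i) (k j) = 0) ∧
    ∀ c : Fin 4 → ℝ, c 0 = 0 → c ≠ 0 →
      Matrix.det (Matrix.of fun i j => fderiv ℝ w y (∑ a, c a • k a) (k i) (k j)) ≠ 0

/-- Near `y` the set is cut out by a submersion to `ℝ³`. -/
def SubAt (Z : Set V) (y : V) : Prop :=
  ∃ (U : Set V) (g : V → Fin 3 → ℝ), IsOpen U ∧ y ∈ U ∧ ContDiffOn ℝ ∞ g U ∧
    Function.Surjective (fderiv ℝ g y) ∧ ∀ z ∈ U, z ∈ Z ↔ g z = 0

/-- A plateau bump. -/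
def Bump (κ R : ℝ) (c : V) (ρ : V → ℝ) : Prop :=
  ContDiff ℝ ∞ ρ ∧ (∀ y, 0 ≤ ρ y ∧ ρ y ≤ 1) ∧ (∀ y, ‖y - c‖ ≤ (1 - κ) * R → ρ y = 1) ∧
    ∀ y, (1 + κ) * R ≤ ‖y - c‖ → ρ y = 0

variable [FiniteDimensional ℝ V]

/-- The Pfaffian, up to a nonzero constant that depends only on `V`. -/
def pf (b : B2 V) : ℝ := Lam.top (Lam.dop (Lam.io.comp b) ^ (Module.finrank ℝ V / 2))

/-- The increment of the Pfaffian under a rank two change. -/
def jj (b : B2 V) (φ θ : B1 V) : ℝ := pf (b + wedge φ θ) - pf b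

end Euc

/-! The standard model space, coordinates `(x, t, s)`. -/

abbrev XX (m : ℕ) : Type := Fin m ⊕ Fin m → ℝ

abbrev VV (m : ℕ) : Type := XX m × ℝ × ℝ

section Std
variable {m : ℕ}

def wD (m : ℕ) : B2 (XX m) :=
  ∑ i : Fin m, wedge (ContinuousLinearMap.proj (R := ℝ) (φ := fun _ : Fin m ⊕ Fin m => ℝ) (Sum.inl i))
    (ContinuousLinearMap.proj (R := ℝ) (φ := fun _ : Fin m ⊕ Fin m => ℝ) (Sum.inr i))

def dx (m : ℕ) : VV m →L[ℝ] XX m := ContinuousLinearMap.fst ℝ (XX m) (ℝ × ℝ)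

def dt (m : ℕ) : B1 (VV m) :=
  (ContinuousLinearMap.fst ℝ ℝ ℝ).comp (ContinuousLinearMap.snd ℝ (XX m) (ℝ × ℝ))

def ds (m : ℕ) : B1 (VV m) :=
  (ContinuousLinearMap.snd ℝ ℝ ℝ).comp (ContinuousLinearMap.snd ℝ (XX m) (ℝ × ℝ))

def et (m : ℕ) : VV m := (0, 1, 0)

def es (m : ℕ) : VV m := (0, 0, 1)

/-- The standard symplectic form. -/
def ws (m : ℕ) : B2 (VV m) := pb (dx m) (wD m) + wedge (ds m) (dt m)

/-- The normalised Pfaffian. -/
def PP (b : B2 (VV m)) : ℝ := pf b / pf (ws m)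

/-- The normalised increment under `ds ∧ dt`. -/
def JJ (b : B2 (VV m)) : ℝ := jj b (ds m) (dt m) / pf (ws m)

/-- On the levels of `s` the form is close to the standard one. -/
def LevClose (δ : ℝ) (b : B2 (VV m)) : Prop :=
  ∀ u v : VV m, u.2.2 = 0 → v.2.2 = 0 → |b u v - ws m u v| ≤ δ * ‖u‖ * ‖v‖

/-- The lateral size. -/
def lat (y : VV m) : ℝ := max ‖y.1‖ |y.2.1|

/-- A closed box. -/
def box (m : ℕ) (R a b : ℝ) : Set (VV m) := {y | lat y ≤ R ∧ a ≤ y.2.2 ∧ y.2.2 ≤ b}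

/-- Two boxes joined by a thin one. -/
def beam (m : ℕ) (R η L a : ℝ) : Set (VV m) :=
  box m R L (L + a) ∪ box m η (-L) L ∪ box m R (-L - a) (-L)

end Std

/-! Manifolds. -/

/-- A parametrisation of an open subset of `M` by an open subset of `V`. -/
structure Par (V : Type) [NormedAddCommGroup V] [NormedSpace ℝ V] (E : Type) [NormedAddCommGroup E]
    [NormedSpace ℝ E] (M : Type) [TopologicalSpace M] [ChartedSpace E M]
    extends OpenPartialHomeomorph V M where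
  sm : ContMDiffOn 𝓘(ℝ, V) 𝓘(ℝ, E) ∞ toFun source
  sm' : ContMDiffOn 𝓘(ℝ, E) 𝓘(ℝ, V) ∞ invFun target

section Man
variable {V E : Type} [NormedAddCommGroup V] [NormedSpace ℝ V] [NormedAddCommGroup E]
  [NormedSpace ℝ E] {M : Type} [TopologicalSpace M] [ChartedSpace E M]

instance : CoeFun (Par V E M) fun _ => V → M := ⟨fun e => e.toFun⟩

/-- The inverse map. -/
def Par.inv (e : Par V E M) : M → V := e.invFun

/-- The differential of any map to the manifold. -/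
def mD (E : Type) [NormedAddCommGroup E] [NormedSpace ℝ E] {M : Type} [TopologicalSpace M]
    [ChartedSpace E M] (F : V → M) (y : V) : V →L[ℝ] E := mfderiv 𝓘(ℝ, V) 𝓘(ℝ, E) F y

/-- The differential of a self-map. -/
def mE (E : Type) [NormedAddCommGroup E] [NormedSpace ℝ E] {M : Type} [TopologicalSpace M]
    [ChartedSpace E M] (g : M → M) (z : M) : E →L[ℝ] E := mfderiv 𝓘(ℝ, E) 𝓘(ℝ, E) g z

def Par.D (e : Par V E M) (y : V) : V →L[ℝ] E := mD E e y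

def Par.D' (e : Par V E M) (z : M) : E →L[ℝ] V := mfderiv 𝓘(ℝ, E) 𝓘(ℝ, V) e.inv z

def loc1 (e : Par V E M) (α : M → B1 E) (y : V) : B1 V := (α (e y)).comp (e.D y)

def loc2 (e : Par V E M) (w : M → B2 E) (y : V) : B2 V := pb (e.D y) (w (e y))

open Classical in
def push0 (e : Par V E M) (g : V → ℝ) (z : M) : ℝ := if z ∈ e.target then g (e.inv z) else 0

open Classical in
def push1 (e : Par V E M) (θ : V → B1 V) (z : M) : B1 E :=
  if z ∈ e.target then (θ (e.inv z)).comp (e.D' z) else 0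

open Classical in
def push2 (e : Par V E M) (β : V → B2 V) (z : M) : B2 E :=
  if z ∈ e.target then pb (e.D' z) (β (e.inv z)) else 0

/-- The differential of a function. -/
def dfM (E : Type) [NormedAddCommGroup E] [NormedSpace ℝ E] {M : Type} [TopologicalSpace M]
    [ChartedSpace E M] (f : M → ℝ) (z : M) : B1 E := mfderiv 𝓘(ℝ, E) 𝓘(ℝ, ℝ) f z

/-- Smooth functions. -/
abbrev Sm0 (E : Type) [NormedAddCommGroup E] [NormedSpace ℝ E] {M : Type} [TopologicalSpace M]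
    [ChartedSpace E M] (f : M → ℝ) : Prop := ContMDiff 𝓘(ℝ, E) 𝓘(ℝ, ℝ) ∞ f

/-- A closed cell. -/
def Cell (V : Type) [NormedAddCommGroup V] [NormedSpace ℝ V] (E : Type) [NormedAddCommGroup E]
    [NormedSpace ℝ E] {M : Type} [TopologicalSpace M] [ChartedSpace E M] (C : Set M) : Prop :=
  ∃ e : Par V E M, closedBall 0 1 ⊆ e.source ∧ C = e '' closedBall 0 1

variable [IsManifold 𝓘(ℝ, E) ∞ M]

/-- The parametrisation given by the chart at `p`. -/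
def Par.chart (E : Type) [NormedAddCommGroup E] [NormedSpace ℝ E] {M : Type} [TopologicalSpace M]
    [ChartedSpace E M] [IsManifold 𝓘(ℝ, E) ∞ M] (p : M) : Par E E M where
  toOpenPartialHomeomorph := (chartAt E p).symm
  sm := contMDiffOn_chart_symm
  sm' := contMDiffOn_chart

def Sm1 (α : M → B1 E) : Prop :=
  ∀ p : M, ContDiffOn ℝ ∞ (loc1 (Par.chart E p) α) (chartAt E p).target

def Sm2 (w : M → B2 E) : Prop :=
  ∀ p : M, ContDiffOn ℝ ∞ (loc2 (Par.chart E p) w) (chartAt E p).target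

/-- A smooth closed 2-form on `M`. -/
def Cl2 (w : M → B2 E) : Prop :=
  ∀ p : M, Form2On (chartAt E p).target (loc2 (Par.chart E p) w)

/-- The exterior derivative on `M`. -/
def dM (α : M → B1 E) (z : M) : B2 E := dd (loc1 (Par.chart E z) α) (chartAt E z z)

/-- Homotopic through nondegenerate forms over `U`. -/
def Htp (U : Set M) (w w' : M → B2 E) : Prop :=
  ∃ H : ℝ → M → B2 E,
    (∀ p : M, ContinuousOn (fun z : ℝ × E => loc2 (Par.chart E p) (H z.1) z.2)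
      (Icc 0 1 ×ˢ ((chartAt E p).target ∩ (chartAt E p).symm ⁻¹' U))) ∧
    (∀ x ∈ U, H 0 x = w x ∧ H 1 x = w' x) ∧
    ∀ t ∈ Icc (0 : ℝ) 1, ∀ x ∈ U, Skew (H t x) ∧ Nd (H t x)

def FoldM (w : M → B2 E) (z : M) : Prop := FoldAt (loc2 (Par.chart E z) w) (chartAt E z z)

def SubM (E : Type) [NormedAddCommGroup E] [NormedSpace ℝ E] {M : Type} [TopologicalSpace M]
    [ChartedSpace E M] (Z : Set M) (z : M) : Prop :=
  SubAt ((chartAt E z).symm ⁻¹' Z) (chartAt E z z)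

/-- A diffeomorphism of `M` that preserves `w` and has compact support in `W`. -/
structure Sym (w : M → B2 E) (W : Set M) extends M ≃ M where
  sm : ContMDiff 𝓘(ℝ, E) 𝓘(ℝ, E) ∞ toFun
  sm' : ContMDiff 𝓘(ℝ, E) 𝓘(ℝ, E) ∞ invFun
  pres : ∀ z, pb (mE E toFun z) (w (toFun z)) = w z
  supp : ∃ K, IsCompact K ∧ K ⊆ W ∧ ∀ z, z ∉ K → toFun z = z

variable [FiniteDimensional ℝ E]

/-- The quotient of top powers. -/
def rat (w τ : M → B2 E) (z : M) : ℝ := pf (w z) / pf (τ z)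

open MeasureTheory in
/-- The measure is the volume of `τ`, read in all parametrisations by the model space. -/
def Vol (m : ℕ) [MeasurableSpace M] (τ : M → B2 E) (μ : Measure M) : Prop :=
  IsFiniteMeasure μ ∧ ∃ c : ℝ, 0 < c ∧ ∀ (e : Par (VV m) E M) (K : Set (VV m)), IsCompact K →
    K ⊆ e.source → ∀ h : M → ℝ, Continuous h → (∀ z, z ∉ e '' K → h z = 0) →
      ∫ z, h z ∂μ = c * ∫ y in K, h (e y) * |PP (loc2 e τ y)|

/-- Data of a finite family of teeth. -/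
structure Teeth (m : ℕ) (E : Type) [NormedAddCommGroup E] [NormedSpace ℝ E] (M : Type)
    [TopologicalSpace M] [ChartedSpace E M] where
  N : ℕ
  neg : Fin N → Bool
  e : Fin N → Par (VV m) E M
  c : Fin N → VV m
  ρ : Fin N → VV m → ℝ
  Rm : ℝ
  Rp : ℝ
  dm : ℝ
  dp : ℝ
  ε0 : ℝ

namespace Teeth
variable {m : ℕ} (T : Teeth m E M)

def rad (j : Fin T.N) : ℝ := if T.neg j then T.Rm else T.Rp

def amp (j : Fin T.N) : ℝ := if T.neg j then T.dm else -T.dp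

def lam (j : Fin T.N) : M → B1 E := push1 (T.e j) fun y => T.ρ j y • dt m

def slope (z : M) : B1 E := ∑ j, T.amp j • T.lam j z

def pert (w : M → B2 E) (ε : ℝ) (σ : Fin T.N → ℝ) (z : M) : B2 E :=
  w z + ε • ∑ j, (T.amp j * σ j) • dM (T.lam j) z

/-- The properties of the teeth. -/
structure Ok (κ δ : ℝ) (f : M → ℝ) (w τ : M → B2 E) : Prop where
  Rm_pos : 0 < T.Rm
  Rp_eq : T.Rp = (1 + 5 * κ) * T.Rm
  dm_pos : 0 < T.dm
  dm_lt : T.dm < T.dp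
  ε0_pos : 0 < T.ε0
  bump : ∀ j, Bump κ (T.rad j) (T.c j) (T.ρ j)
  sub : ∀ j, closedBall (T.c j) (5 * T.Rp) ⊆ (T.e j).source
  lev : ∀ j, ∀ y ∈ (T.e j).source, f (T.e j y) = y.2.2
  ori : ∀ j, ∀ y ∈ closedBall (T.c j) (5 * T.Rp), 0 < PP (loc2 (T.e j) τ y)
  count : ((Finset.univ.filter fun j => T.neg j = true).card : ℝ) * ((1 + 2 * κ) * T.Rm) ≤
    ((Finset.univ.filter fun j => T.neg j = false).card : ℝ) * ((1 - κ) * T.Rp)
  est1 : ∀ ε ∈ Icc 0 T.ε0, ∀ σ : Fin T.N → ℝ, (∀ j, |σ j| ≤ 2) → ∀ z,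
    0 < pf (T.pert w ε σ z + wedge (dfM E f z) (T.slope z)) / pf (τ z)
  est2 : ∀ ε ∈ Icc 0 T.ε0, ∀ σ : Fin T.N → ℝ, (∀ j, |σ j| ≤ 2) → ∀ j z,
    0 ≤ jj (T.pert w ε σ z) (dfM E f z) (T.lam j z) / pf (τ z)
  est3 : ∀ ε ∈ Icc 0 T.ε0, ∀ σ : Fin T.N → ℝ, (∀ j, |σ j| ≤ 2) → ∀ j,
    ∀ y ∈ closedBall (T.c j) (5 * T.Rp), LevClose δ (pb ((T.e j).D y) (T.pert w ε σ (T.e j y)))

end Teeth

/-- Negative lenses in normal form, each with its own reservoir. -/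
structure Lenses (m : ℕ) (w τ : M → B2 E) where
  N : ℕ
  eA : Fin N → Par (VV m) E M
  eB : Fin N → Par (VV m) E M
  GA : Fin N → VV m → ℝ
  GB : Fin N → VV m → ℝ
  a : ℝ
  R : ℝ
  r : ℝ
  Km : ℝ
  Kp : ℝ
  a_pos : 0 < a
  r_pos : 0 < r
  r_lt : r < R
  Km_pos : 0 < Km
  Km_lt : Km < Kp
  srcA : ∀ i, box m R 0 a ⊆ (eA i).source
  srcB : ∀ i, box m R (-a) 0 ⊆ (eB i).source
  smA : ∀ i, ContDiff ℝ ∞ (GA i)
  smB : ∀ i, ContDiff ℝ ∞ (GB i)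
  locA : ∀ i, ∀ y ∈ (eA i).source, loc2 (eA i) w y = ws m - wedge (fderiv ℝ (GA i) y) (dt m)
  locB : ∀ i, ∀ y ∈ (eB i).source, loc2 (eB i) w y = ws m + wedge (fderiv ℝ (GB i) y) (dt m)
  A0 : ∀ i, ∀ y ∈ (eA i).source, y.2.2 ≤ a / 2 ∨ r ≤ lat y → GA i y = 0
  Ale : ∀ i, ∀ y ∈ (eA i).source, GA i y ≤ Km
  Ad : ∀ i, ∀ y ∈ (eA i).source, 3 * a / 4 ≤ y.2.2 → fderiv ℝ (GA i) y (es m) < 1
  B0 : ∀ i, ∀ y ∈ (eB i).source, -a / 4 ≤ y.2.2 → GB i y = 0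
  B1 : ∀ i, ∀ y ∈ (eB i).source, y.2.2 ≤ -a / 2 → GB i y = -Kp
  Bd : ∀ i, ∀ y ∈ (eB i).source, 0 < 1 + fderiv ℝ (GB i) y (es m)
  disjAA : ∀ i j, i ≠ j → Disjoint (eA i '' box m R 0 a) (eA j '' box m R 0 a)
  disjBB : ∀ i j, i ≠ j → Disjoint (eB i '' box m R (-a) 0) (eB j '' box m R (-a) 0)
  disjAB : ∀ i j, Disjoint (eA i '' box m R 0 a) (eB j '' box m R (-a) 0)
  pos : ∀ z, (∀ i, z ∉ eA i '' box m r (a / 2) (3 * a / 4)) → 0 < rat w τ z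
  htp : Htp (⋃ i, eA i '' box m r (a / 2) (3 * a / 4))ᶜ τ w

end Man

/-! The three-dimensional reduction of the model, coordinates `(r, t, s)`. -/

abbrev R3 : Type := ℝ × ℝ × ℝ

def d3r : B1 R3 := ContinuousLinearMap.fst ℝ ℝ (ℝ × ℝ)

def d3t : B1 R3 := (ContinuousLinearMap.fst ℝ ℝ ℝ).comp (ContinuousLinearMap.snd ℝ ℝ (ℝ × ℝ))

def d3s : B1 R3 := (ContinuousLinearMap.snd ℝ ℝ ℝ).comp (ContinuousLinearMap.snd ℝ ℝ (ℝ × ℝ))

/-- The height function `r * N`. -/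
def hgt (N : R3 → ℝ) (p : R3) : ℝ := p.1 * N p

/-- The 1-form `A dt + B ds - dC`. -/
def lam3 (A B C : R3 → ℝ) (p : R3) : B1 R3 := A p • d3t + B p • d3s - fderiv ℝ C p

/-- The vector field dual to `ds ∧ dt + d (A dt + B ds)`. -/
def fld (A B : R3 → ℝ) (p : R3) : R3 :=
  (1 + fderiv ℝ A p (0, 0, 1) - fderiv ℝ B p (0, 1, 0), fderiv ℝ B p (1, 0, 0),
    -fderiv ℝ A p (1, 0, 0))

/-- The three-dimensional model. -/
structure M3 (L a η P0 P1 P2 R : ℝ) where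
  N : R3 → ℝ
  A : R3 → ℝ
  B : R3 → ℝ
  C : R3 → ℝ
  ψ : R3 → ℝ
  μ : ℝ → ℝ
  e : ℝ → ℝ
  u : ℝ
  u_pos : 0 < u
  smN : ContDiff ℝ ∞ N
  smA : ContDiff ℝ ∞ A
  smB : ContDiff ℝ ∞ B
  smC : ContDiff ℝ ∞ C
  smψ : ContDiff ℝ ∞ ψ
  smμ : ContDiff ℝ ∞ μ
  sme : ContDiff ℝ ∞ e
  one_le : ∀ p, 1 ≤ N p
  low : ∀ p : R3, p.1 ≤ u → N p = 1 ∧ A p = 0 ∧ B p = 0 ∧ C p = 0
  out : ∀ p : R3, P2 ≤ p.1 ∨ η ≤ |p.2.1| ∨ L + a / 2 ≤ |p.2.2| ∨ (|p.2.2| ≤ L ∧ P0 ≤ p.1) →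
    N p = 1 ∧ lam3 A B C p = 0
  pos : ∀ p : R3, ¬(e p.1 = 0 ∧ p.2.1 = 0 ∧ p.2.2 = 0) → 0 < fderiv ℝ (hgt N) p (fld A B p)
  zer : ∀ r, e r = 0 → u < r ∧ r < P0 ∧ deriv e r ≠ 0 ∧ fld A B (r, 0, 0) = 0 ∧
    fderiv ℝ (hgt N) (r, 0, 0) = 0 ∧ ψ =ᶠ[𝓝 (r, 0, 0)] (fun _ => 0) ∧ ∀ v : R3, v ≠ 0 →
      0 < fderiv ℝ (fderiv ℝ (hgt N)) (r, 0, 0) v (fderiv ℝ (fld A B) (r, 0, 0) v)
  col : ∀ p : R3, |μ p.2.2 * p.2.1| ≤ R → hgt N p ≤ P1 → ψ =ᶠ[𝓝 p] (fun _ => 0) ∨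
    (ψ =ᶠ[𝓝 p] (fun _ => 1) ∧ fld A B p = (1, 0, 0) ∧ 0 < fderiv ℝ (hgt N) p (1, 0, 0))
  mu_ge : ∀ s, 1 ≤ μ s
  mu_in : ∀ s, |s| ≤ L → R ≤ μ s * η
  mu_far : ∀ s, L + 3 * a / 4 ≤ |s| → μ s = 1
  psi_far : ∀ p : R3, L + a ≤ |p.2.2| → p.1 ≤ P1 → ψ p = 1
  psi_in : ∀ p : R3, |p.2.2| ≤ L → P0 ≤ p.1 → ψ p = 0

end Pool.Agent.Work.MP_bf98aa_gt.Ns
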