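import Pool.Agent.Work.MP_bf98aa_gt.Ns.CoreZ

/-!
From the teeth to the lenses.
-/

set_option autoImplicit false
set_option maxSynthPendingDepth 3
set_option linter.unusedSectionVars false
set_option linter.unusedVariables false

open Set Filter Topology Metric MeasureTheory
open scoped Manifold ContDiff

noncomputable section
namespace Pool.Agent.Work.MP_bf98aa_gt.Ns

open Pool.Agent.Work.MP_8c604c_gt

variable {V V' E : Type} [NormedAddCommGroup V] [NormedSpace ℝ V] [FiniteDimensional ℝ V]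
  [NormedAddCommGroup V'] [NormedSpace ℝ V'] [FiniteDimensional ℝ V']
  [NormedAddCommGroup E] [NormedSpace ℝ E] [FiniteDimensional ℝ E] {M : Type} [TopologicalSpace M]
  [ChartedSpace E M] [IsManifold 𝓘(ℝ, E) ∞ M] {m : ℕ}

theorem lens_min {ι : Type} [Finite ι] {g : ι → ℝ} (h : ∀ i, 0 < g i) :
    ∃ a : ℝ, 0 < a ∧ ∀ i, a ≤ g i := by
  cases isEmpty_or_nonempty ι
  · exact ⟨1, one_pos, fun i => isEmptyElim i⟩
  · obtain ⟨i, hi⟩ := Finite.exists_min g
    exact ⟨g i, h i, hi⟩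

theorem lens_sep (T : Teeth m E M) {ε : ℝ} (hε : 0 < ε) {j j' : Fin T.N} {k k' : ℤ}
    (h : |T.ht ε j k - T.ht ε j' k'| < ε / T.N) : (j, k) = (j', k') := by
  have hN : (0 : ℝ) < T.N := by exact_mod_cast j.pos
  have e : T.ht ε j k - T.ht ε j' k' =
      ε / T.N * (((T.N : ℤ) * k + (j.1 : ℤ) - ((T.N : ℤ) * k' + (j'.1 : ℤ)) : ℤ) : ℝ) := by
    simp only [Teeth.ht, Teeth.ph]
    push_cast
    field_simp
  rw [e, abs_mul, abs_of_pos (div_pos hε hN), mul_lt_iff_lt_one_right (div_pos hε hN)] at h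
  have h1 : |(T.N : ℤ) * k + (j.1 : ℤ) - ((T.N : ℤ) * k' + (j'.1 : ℤ))| < 1 := by exact_mod_cast h
  have h2 : (T.N : ℤ) * k + (j.1 : ℤ) = (T.N : ℤ) * k' + (j'.1 : ℤ) :=
    sub_eq_zero.1 (Int.abs_lt_one_iff.1 h1)
  have a1 : (j.1 : ℤ) < T.N := by exact_mod_cast j.2
  have a2 : (j'.1 : ℤ) < T.N := by exact_mod_cast j'.2
  have a3 : (0 : ℤ) ≤ j.1 := Int.natCast_nonneg _
  have a4 : (0 : ℤ) ≤ j'.1 := Int.natCast_nonneg _
  have h3 : k = k' := by
    rcases lt_trichotomy k k' with h4 | h4 | h4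
    · have : (T.N : ℤ) * (k + 1) ≤ T.N * k' := mul_le_mul_of_nonneg_left h4 (by omega)
      linarith only [h2, a1, this]
    · exact h4
    · have : (T.N : ℤ) * (k' + 1) ≤ T.N * k := mul_le_mul_of_nonneg_left h4 (by omega)
      linarith only [h2, a2, this]
  rw [h3] at h2
  have h5 : j = j' := Fin.ext (by exact_mod_cast add_left_cancel h2)
  rw [h3, h5]

theorem lens_count {T : Teeth m E M} {κ δ : ℝ} {f : M → ℝ} {w τ : M → B2 E}
    (h : T.Ok κ δ f w τ) (h0 : 0 < κ) (h1 : κ < 1 / 10) : ∃ (ε : ℝ) (N : ℕ)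
      (A B : Fin N → Fin T.N × ℤ), 0 < ε ∧ ε ≤ T.ε0 ∧ Function.Injective A ∧ Function.Injective B ∧
      (∀ i, T.neg (A i).1 = true) ∧ (∀ i, T.neg (B i).1 = false) ∧
      (∀ i, |T.ht ε (A i).1 (A i).2 - (T.c (A i).1).2.2| ≤ 2 * T.Rp) ∧
      (∀ i, |T.ht ε (B i).1 (B i).2 - (T.c (B i).1).2.2| ≤ (1 - κ) * T.Rp - ε) ∧
      ∀ j, T.neg j = true → ∀ (k : ℤ) (s : ℝ), |s - (T.c j).2.2| ≤ (1 + κ) * T.Rm →
        T.ht ε j k ≤ s → s ≤ T.ht ε j k + ε → ∃ i, A i = (j, k) := by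
  classical
  have hR := h.Rm_pos
  have hp := h.Rp_eq
  have hN : (0 : ℝ) ≤ T.N := Nat.cast_nonneg _
  obtain ⟨ε, hε, hε0, hε1⟩ : ∃ ε : ℝ, 0 < ε ∧ ε ≤ T.ε0 ∧ ε * (8 * (T.N + 1)) ≤ κ * T.Rm :=
    ⟨min T.ε0 (κ * T.Rm / (8 * (T.N + 1))), lt_min h.ε0_pos (by positivity), min_le_left _ _,
      (le_div_iff₀ (by positivity)).1 (min_le_right _ _)⟩
  have hε2 : 8 * ε ≤ κ * T.Rm := by linarith only [hε1, hε, mul_nonneg_of_nonpos_of_nonpos (Mathlib.Tactic.Linarith.sub_nonpos_of_le (Mathlib.Tactic.Linarith.natCast_nonneg ℝ T.N)) (le_of_lt (Mathlib.Tactic.Linarith.sub_neg_of_lt hε))]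
  have hκR : κ * T.Rm ≤ T.Rm / 10 := by linarith only [h1, hR, mul_pos_of_neg_of_neg (Mathlib.Tactic.Linarith.sub_neg_of_lt h1) (Mathlib.Tactic.Linarith.sub_neg_of_lt hR)]
  have hRp : T.Rm ≤ T.Rp := by rw [hp]; linarith only [hε, hε2]
  obtain ⟨ρ, hρ⟩ : ∃ ρ, ρ = (1 + κ) * T.Rm := ⟨_, rfl⟩
  obtain ⟨ρ', hρ'⟩ : ∃ ρ', ρ' = (1 - κ) * T.Rp - ε := ⟨_, rfl⟩
  have ρ0 : 0 < ρ := by rw [hρ]; positivity
  have ρ0' : 0 < ρ' := by rw [hρ']; linarith only [hp, hε, hε2, hκR, h0, Mathlib.Tactic.Linarith.mul_zero_eq (Mathlib.Tactic.Linarith.sub_neg_of_lt h0) (sub_eq_zero_of_eq hp), mul_nonneg_of_nonpos_of_nonpos (le_of_lt (Mathlib.Tactic.Linarith.sub_neg_of_lt h0)) (Mathlib.Tactic.Linarith.sub_nonpos_of_le hκR)]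
  let nm : ℕ := ⌈2 * ρ / ε⌉₊ + 3
  let np : ℕ := ⌊2 * ρ' / ε⌋₊
  let k0 : Fin T.N → ℤ := fun j => ⌊((T.c j).2.2 - ρ) / ε - T.ph j⌋ - 1
  let k1 : Fin T.N → ℤ := fun j => ⌈((T.c j).2.2 - ρ') / ε - T.ph j⌉
  have b1 : (nm : ℝ) ≤ 2 * ρ / ε + 4 := by
    have := Nat.ceil_lt_add_one (show 0 ≤ 2 * ρ / ε by positivity)
    simp only [nm]; push_cast; linarith only [this]
  have b1' : 2 * ρ / ε + 3 ≤ (nm : ℝ) := by
    have := Nat.le_ceil (2 * ρ / ε)
    simp only [nm]; push_cast; linarith only [this]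
  have b2 : 2 * ρ' / ε - 1 ≤ (np : ℝ) := by
    have := Nat.lt_floor_add_one (2 * ρ' / ε)
    simp only [np]; linarith only [this]
  have b2' : (np : ℝ) ≤ 2 * ρ' / ε := Nat.floor_le (by positivity)
  have hcard : Fintype.card ({j // T.neg j = true} × Fin nm) ≤
      Fintype.card ({j // T.neg j = false} × Fin np) := by
    rw [Fintype.card_prod, Fintype.card_prod, Fintype.card_fin, Fintype.card_fin,
      Fintype.card_subtype, Fintype.card_subtype]
    have hc := h.count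
    have c1 : ((Finset.univ.filter fun j => T.neg j = true).card : ℝ) ≤ T.N := by
      exact_mod_cast (Finset.card_filter_le _ _).trans (by simp)
    have c2 : ((Finset.univ.filter fun j => T.neg j = false).card : ℝ) ≤ T.N := by
      exact_mod_cast (Finset.card_filter_le _ _).trans (by simp)
    generalize (Finset.univ.filter fun j => T.neg j = true).card = a at hc c1
    generalize (Finset.univ.filter fun j => T.neg j = false).card = b at hc c2
    rcases Nat.eq_zero_or_pos a with ha | ha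
    · rw [ha, zero_mul]; exact Nat.zero_le _
    have ha' : (1 : ℝ) ≤ a := by exact_mod_cast ha
    have hb' : (0 : ℝ) ≤ b := Nat.cast_nonneg _
    have d1 : (nm : ℝ) * ε ≤ 2 * ρ + 4 * ε := by
      have := mul_le_mul_of_nonneg_right b1 hε.le
      rwa [add_mul, div_mul_cancel₀ _ hε.ne'] at this
    have d2 : 2 * ρ' - ε ≤ (np : ℝ) * ε := by
      have := mul_le_mul_of_nonneg_right b2 hε.le
      rwa [sub_mul, div_mul_cancel₀ _ hε.ne', one_mul] at this
    have d3 : (a : ℝ) * nm * ε ≤ b * np * ε := by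
      have e1 := mul_le_mul_of_nonneg_left d1 (zero_le_one.trans ha')
      have e2 := mul_le_mul_of_nonneg_left d2 hb'
      have e3 := mul_le_mul_of_nonneg_right c1 hε.le
      have e4 := mul_le_mul_of_nonneg_right c2 hε.le
      have e5 := mul_le_mul_of_nonneg_right ha' (mul_pos h0 hR).le
      rw [hρ] at e1
      rw [hρ'] at e2
      linarith only [hε, hε1, hε2, hc, e1, e2, e3, e4, e5]
    exact_mod_cast le_of_mul_le_mul_right d3 hε
  obtain ⟨emb⟩ := Function.Embedding.nonempty_of_card_le hcard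
  let eq := (Fintype.equivFin ({j // T.neg j = true} × Fin nm)).symm
  have inj : ∀ {b : Bool} {n : ℕ} (k : Fin T.N → ℤ), Function.Injective
      fun p : {j // T.neg j = b} × Fin n => (p.1.1, k p.1.1 + (p.2.1 : ℤ)) := by
    rintro b n k ⟨⟨j, hj⟩, i⟩ ⟨⟨j', hj'⟩, i'⟩ e
    obtain ⟨e1, e2⟩ := Prod.mk.inj e
    have e1' : j = j' := e1
    subst e1'
    have e3 : i = i' := Fin.ext (by exact_mod_cast add_left_cancel e2)
    rw [e3]
  have ht' : ∀ (j : Fin T.N) (k : ℤ) (x : ℝ), T.ht ε j k - x = ε * (k - (x / ε - T.ph j)) := by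
    intro j k x
    simp only [Teeth.ht]
    field_simp
    ring
  refine ⟨ε, _, fun i => ((eq i).1.1, k0 (eq i).1.1 + ((eq i).2.1 : ℤ)),
    fun i => ((emb (eq i)).1.1, k1 (emb (eq i)).1.1 + ((emb (eq i)).2.1 : ℤ)), hε, hε0,
    (inj k0).comp eq.injective, (inj k1).comp (emb.injective.comp eq.injective),
    fun i => (eq i).1.2, fun i => (emb (eq i)).1.2, fun i => ?_, fun i => ?_, ?_⟩
  · dsimp only
    generalize eq i = p
    obtain ⟨⟨j, hj⟩, l⟩ := p
    have l1 : (l.1 : ℝ) + 1 ≤ nm := by exact_mod_cast l.2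
    have l0 : (0 : ℝ) ≤ l.1 := Nat.cast_nonneg _
    have f1 := Int.floor_le (((T.c j).2.2 - ρ) / ε - T.ph j)
    have f2 := Int.lt_floor_add_one (((T.c j).2.2 - ρ) / ε - T.ph j)
    have e := ht' j (k0 j + (l.1 : ℤ)) ((T.c j).2.2 - ρ)
    have g1 : ε * (2 * ρ / ε) = 2 * ρ := by field_simp
    have u1 : -2 ≤ ((k0 j + (l.1 : ℤ) : ℤ) : ℝ) - (((T.c j).2.2 - ρ) / ε - T.ph j) := by
      simp only [k0]; push_cast; linarith only [f2]
    have u2 : ((k0 j + (l.1 : ℤ) : ℤ) : ℝ) - (((T.c j).2.2 - ρ) / ε - T.ph j) ≤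
        2 * ρ / ε + 2 := by
      simp only [k0]; push_cast; linarith only [b1, l1, f1]
    have v1 := mul_le_mul_of_nonneg_left u1 hε.le
    have v2 := mul_le_mul_of_nonneg_left u2 hε.le
    rw [← e] at v1 v2
    rw [mul_add, g1] at v2
    change |T.ht ε j (k0 j + (l.1 : ℤ)) - (T.c j).2.2| ≤ _
    rw [abs_le]
    constructor <;> linarith only [hp, hε, hε2, hκR, hρ, v1, v2]
  · dsimp only
    generalize emb (eq i) = p
    obtain ⟨⟨j, hj⟩, l⟩ := p
    have l1 : (l.1 : ℝ) + 1 ≤ np := by exact_mod_cast l.2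
    have l0 : (0 : ℝ) ≤ l.1 := Nat.cast_nonneg _
    have f1 := Int.le_ceil (((T.c j).2.2 - ρ') / ε - T.ph j)
    have f2 := Int.ceil_lt_add_one (((T.c j).2.2 - ρ') / ε - T.ph j)
    have e := ht' j (k1 j + (l.1 : ℤ)) ((T.c j).2.2 - ρ')
    have g1 : ε * (2 * ρ' / ε) = 2 * ρ' := by field_simp
    have u1 : 0 ≤ ((k1 j + (l.1 : ℤ) : ℤ) : ℝ) - (((T.c j).2.2 - ρ') / ε - T.ph j) := by
      simp only [k1]; push_cast; linarith only [f1]
    have u2 : ((k1 j + (l.1 : ℤ) : ℤ) : ℝ) - (((T.c j).2.2 - ρ') / ε - T.ph j) ≤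
        2 * ρ' / ε := by
      simp only [k1]; push_cast; linarith only [b2', l1, f2]
    have v1 := mul_le_mul_of_nonneg_left u1 hε.le
    have v2 := mul_le_mul_of_nonneg_left u2 hε.le
    rw [← e] at v1 v2
    rw [g1] at v2
    change |T.ht ε j (k1 j + (l.1 : ℤ)) - (T.c j).2.2| ≤ _
    rw [abs_le, ← hρ']
    constructor <;> linarith only [v1, v2]
  · intro j hj k s hs s1 s2
    rw [← hρ, abs_le] at hs
    have f1 := Int.floor_le (((T.c j).2.2 - ρ) / ε - T.ph j)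
    have f2 := Int.lt_floor_add_one (((T.c j).2.2 - ρ) / ε - T.ph j)
    have e := ht' j k ((T.c j).2.2 - ρ)
    have g1 : ε * (2 * ρ / ε) = 2 * ρ := by field_simp
    have u1 : ((k0 j : ℤ) : ℝ) ≤ k := by
      simp only [k0]; push_cast
      by_contra hc
      linarith only [hs, s2, e, hε, f1, hc, not_le.1 hc, mul_nonneg_of_nonpos_of_nonpos (le_of_lt (Mathlib.Tactic.Linarith.sub_neg_of_lt hε)) (Mathlib.Tactic.Linarith.sub_nonpos_of_le f1), mul_pos_of_neg_of_neg (Mathlib.Tactic.Linarith.sub_neg_of_lt hε) (Mathlib.Tactic.Linarith.sub_neg_of_lt (lt_of_not_ge hc))]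
    have u2 : (k : ℝ) < k0 j + nm := by
      simp only [k0]; push_cast
      by_contra hc
      linarith only [hs, s1, e, g1, h0, hε, h1, b1', f2, hc, not_lt.1 hc, mul_pos_of_neg_of_neg (Mathlib.Tactic.Linarith.sub_neg_of_lt h0) (Mathlib.Tactic.Linarith.sub_neg_of_lt hε), mul_pos_of_neg_of_neg (Mathlib.Tactic.Linarith.sub_neg_of_lt h1) (Mathlib.Tactic.Linarith.sub_neg_of_lt hε), mul_nonneg_of_nonpos_of_nonpos (le_of_lt (Mathlib.Tactic.Linarith.sub_neg_of_lt hε)) (Mathlib.Tactic.Linarith.sub_nonpos_of_le b1'), mul_pos_of_neg_of_neg (Mathlib.Tactic.Linarith.sub_neg_of_lt hε) (Mathlib.Tactic.Linarith.sub_neg_of_lt f2), mul_nonneg_of_nonpos_of_nonpos (le_of_lt (Mathlib.Tactic.Linarith.sub_neg_of_lt hε)) (Mathlib.Tactic.Linarith.sub_nonpos_of_le (le_of_not_gt hc))]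
    have u1' : k0 j ≤ k := by exact_mod_cast u1
    have u2' : k < k0 j + nm := by exact_mod_cast u2
    refine ⟨eq.symm (⟨j, hj⟩, ⟨(k - k0 j).toNat, by omega⟩), ?_⟩
    simp only [Equiv.apply_symm_apply]
    refine Prod.ext rfl ?_
    change k0 j + ((k - k0 j).toNat : ℤ) = k
    omega

theorem lens_par (e : Par (VV m) E M) (Ψ : Dif (VV m)) {R a : ℝ} (σ : ℝ)
    (h : ∀ y : VV m, lat y < R → |y.2.2| < a → Ψ y ∈ e.source) : ∃ e' : Par (VV m) E M,
      (∀ y, y ∈ e'.source ↔ lat y < R ∧ |y.2.2 + σ| < a) ∧ (∀ y, e' y = e (Ψ (y + σ • es m))) ∧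
      ∀ (w : M → B2 E), ∀ y ∈ e'.source, loc2 e' w y = pull2 Ψ (loc2 e w) (y + σ • es m) := by
  obtain ⟨φ, hφ⟩ := dif_affine (ContinuousLinearEquiv.refl ℝ (VV m)) (σ • es m)
  obtain ⟨e1, s1, a1⟩ := par_dif e (φ.trans Ψ)
  have hO : IsOpen {y : VV m | lat y < R ∧ |y.2.2 + σ| < a} :=
    (isOpen_lt continuous_lat continuous_const).inter
      (isOpen_lt (continuous_snd.snd.add continuous_const).abs continuous_const)
  obtain ⟨e2, s2, a2⟩ := par_restr e1 hO
  have t1 : ∀ y, (φ.trans Ψ) y = Ψ (y + σ • es m) := fun y => congrArg Ψ (hφ y)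
  have t2 : ∀ y : VV m, lat y < R ∧ |y.2.2 + σ| < a → Ψ (y + σ • es m) ∈ e.source := fun y hy =>
    h _ (by rw [lat_add_es]; exact hy.1) (by simpa [es] using hy.2)
  have t3 : ∀ y, y ∈ e2.source ↔ lat y < R ∧ |y.2.2 + σ| < a := fun y => by
    rw [s2, s1]
    exact ⟨fun hy => hy.2, fun hy => ⟨by rw [mem_preimage, t1]; exact t2 y hy, hy⟩⟩
  have t4 : ∀ y, e2 y = e (Ψ (y + σ • es m)) := fun y => by rw [a2, a1, t1]
  refine ⟨e2, t3, t4, fun w y hy => ?_⟩
  have d1 : HasFDerivAt (fun x : VV m => x + σ • es m) (ContinuousLinearMap.id ℝ (VV m)) y :=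
    (hasFDerivAt_id y).add_const _
  have d2 : DifferentiableAt ℝ Ψ (y + σ • es m) := Ψ.smooth.differentiable (by simp) _
  rw [loc2_comp e2 e (φ := fun x => Ψ (x + σ • es m)) (Filter.Eventually.of_forall t4)
    (d2.comp y d1.differentiableAt) (t2 y ((t3 y).1 hy)),
    pull2_comp (φ := fun x => x + σ • es m) d1.differentiableAt d2, pull2, d1.fderiv, pb_id]

theorem lens_fderiv_shift (c : VV m) {G : VV m → ℝ} (hG : ContDiff ℝ ∞ G) (y : VV m) :
    fderiv ℝ (fun x => G (x + c)) y = fderiv ℝ G (y + c) := by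
  have h1 : HasFDerivAt (fun x : VV m => x + c) (ContinuousLinearMap.id ℝ (VV m)) y :=
    (hasFDerivAt_id y).add_const c
  have h2 := ((hG.differentiable (by simp)) (y + c)).hasFDerivAt.comp y h1
  rw [ContinuousLinearMap.comp_id] at h2
  exact h2.fderiv

theorem lens_norm (y c : VV m) : ‖y - c‖ = max (max ‖y.1 - c.1‖ |y.2.1 - c.2.1|) |y.2.2 - c.2.2| :=
  norm_VV (y - c)

theorem lenses [T2Space M] (hE : Module.finrank ℝ E = 2 * m + 2) {κ : ℝ} (h0 : 0 < κ)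
    (h1 : κ < 1 / 10) : ∃ δ : ℝ, 0 < δ ∧ ∀ (T : Teeth m E M) (f : M → ℝ) (w τ : M → B2 E)
    (θ : M → B1 E), T.Ok κ δ f w τ → Sm0 E f → Cl2 w → Sm1 θ →
    (Htp univ τ fun z => w z + wedge (dfM E f z) (θ z)) →
    ∃ α : M → B1 E, Sm1 α ∧ Nonempty (Lenses m (fun z => w z + dM α z) τ) := by
  obtain ⟨δ, hδ, hB⟩ := lensB (M := M) hE h0 h1
  refine ⟨δ, hδ, fun T f w τ θ h hf hw hθ hT => ?_⟩
  obtain ⟨ε, N, A, B, hε, hε0, iA, iB, nA, nB, bA, bB, cov⟩ := lens_count h h0 h1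
  have hR := h.Rm_pos
  have hp := h.Rp_eq
  have hκR : 0 < κ * T.Rm := mul_pos h0 hR
  have hκR' : κ * T.Rm ≤ T.Rm / 10 := by linarith only [h1, hR, mul_pos_of_neg_of_neg (Mathlib.Tactic.Linarith.sub_neg_of_lt h1) (Mathlib.Tactic.Linarith.sub_neg_of_lt hR)]
  have hκκ : κ * (κ * T.Rm) < κ * T.Rm / 10 := by linarith only [h1, hκR, mul_pos_of_neg_of_neg (Mathlib.Tactic.Linarith.sub_neg_of_lt h1) (Mathlib.Tactic.Linarith.sub_neg_of_lt hκR)]
  have hRp : T.Rm ≤ T.Rp := by rw [hp]; linarith only [hκR]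
  have hκp : 0 < κ * T.Rp := mul_pos h0 (hR.trans_le hRp)
  have radA : ∀ i, T.rad (A i).1 = T.Rm := fun i => by simp [Teeth.rad, nA i]
  have radB : ∀ i, T.rad (B i).1 = T.Rp := fun i => by simp [Teeth.rad, nB i]
  have ampA : ∀ i, T.amp (A i).1 = T.dm := fun i => by simp [Teeth.amp, nA i]
  have ampB : ∀ i, T.amp (B i).1 = -T.dp := fun i => by simp [Teeth.amp, nB i]
  choose ΨA aA cA aA0 cA0 tA zA mA xA pA using fun i =>
    hB T f w τ h hf hw ε hε hε0 (A i).1 (A i).2 (bA i)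
  choose ΨB aB cB aB0 cB0 tB zB mB xB pB using fun i =>
    hB T f w τ h hf hw ε hε hε0 (B i).1 (B i).2 ((bB i).trans (by linarith only [hε, hp, hκR, hκR', hκp]))
  obtain ⟨a, ha, haa⟩ := lens_min (g := fun i => min (aA i) (aB i)) fun i => lt_min (aA0 i) (aB0 i)
  obtain ⟨c, hc, hcc⟩ := lens_min (g := fun i => min (cA i) (cB i)) fun i => lt_min (cA0 i) (cB0 i)
  have hN : (0 : ℝ) ≤ T.N := Nat.cast_nonneg _
  obtain ⟨η, hη, hη1, hη2⟩ : ∃ η : ℝ, 0 < η ∧ η * (4 * (T.N + 1)) ≤ 1 ∧ η * ε ≤ c * a / 8 :=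
    ⟨min (1 / (4 * (T.N + 1))) (c * a / 8 / ε), lt_min (by positivity) (by positivity),
      (le_div_iff₀ (by positivity)).1 (min_le_left _ _), (le_div_iff₀ hε).1 (min_le_right _ _)⟩
  have hη3 : η < 1 := by linarith only [h0, h1, hη1, hη, mul_nonneg_of_nonpos_of_nonpos (Mathlib.Tactic.Linarith.sub_nonpos_of_le (Mathlib.Tactic.Linarith.natCast_nonneg ℝ T.N)) (le_of_lt (Mathlib.Tactic.Linarith.sub_neg_of_lt hη))]
  have hη4 : ∀ j : Fin T.N, η < 1 / (3 * T.N) := fun j => by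
    have : (0 : ℝ) < T.N := by exact_mod_cast j.pos
    rw [lt_div_iff₀ (by positivity)]
    linarith only [h0, h1, hη, hη1]
  obtain ⟨saw, S, q1, q2, q3, q4, q5, q6, q7, q8, q9⟩ := exists_saw hη hη3
  have hs : SawOk η saw S := ⟨q1, q2, q3, q4, q5, q6, q7, q8, q9⟩
  obtain ⟨R1, hR1⟩ : ∃ R1, R1 = (1 - 2 * κ) * T.Rp := ⟨_, rfl⟩
  obtain ⟨r, hr⟩ : ∃ r, r = (1 + 2 * κ) * T.Rm := ⟨_, rfl⟩
  have r0 : 0 < r := by rw [hr]; positivity
  have r1 : r < R1 := by rw [hr, hR1, hp]; linarith only [hκκ]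
  have r2 : R1 ≤ 2 * T.Rm := by rw [hR1, hp]; linarith only [hκR, hκR', hκp, h0, hp, Mathlib.Tactic.Linarith.mul_zero_eq (Mathlib.Tactic.Linarith.sub_neg_of_lt h0) (sub_eq_zero_of_eq hp)]
  have aA' : ∀ i, a ≤ aA i := fun i => (haa i).trans (min_le_left _ _)
  have aB' : ∀ i, a ≤ aB i := fun i => (haa i).trans (min_le_right _ _)
  have cA' : ∀ i, c ≤ cA i := fun i => (hcc i).trans (min_le_left _ _)
  have cB' : ∀ i, c ≤ cB i := fun i => (hcc i).trans (min_le_right _ _)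
  have pA' := fun i (y : VV m) (h1 : lat y < R1) (h2 : |y.2.2| < a) =>
    pA i y (by rw [radA]; linarith only [hp, hκR, hκR', hκp, hR1, h1]) (h2.le.trans (aA' i))
  have pB' := fun i (y : VV m) (h1 : lat y < R1) (h2 : |y.2.2| < a) =>
    pB i y (by rw [radB]; linarith only [hp, hκR, hκR', hκp, hR1, h1]) (h2.le.trans (aB' i))
  choose eA sA vA lA using fun i =>
    lens_par (T.e (A i).1) (ΨA i) (-(a / 2)) fun y h1 h2 => (pA' i y h1 h2).1
  choose eB sB vB lB using fun i =>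
    lens_par (T.e (B i).1) (ΨB i) (a / 2) fun y h1 h2 => (pB' i y h1 h2).1
  have sh : ∀ (σ : ℝ) (y : VV m), (y + σ • es m).2.2 = y.2.2 + σ := fun σ y => by simp [es]
  have sh1 : ∀ (σ : ℝ) (y : VV m), (y + σ • es m).1 = y.1 := fun σ y => by simp [es]
  have sh2 : ∀ (σ : ℝ) (y : VV m), (y + σ • es m).2.1 = y.2.1 := fun σ y => by simp [es]
  have qA := fun i (y : VV m) (hy : y ∈ (eA i).source) => pA' i (y + -(a / 2) • es m)
    (by rw [lat_add_es]; exact ((sA i y).1 hy).1) (by rw [sh]; exact ((sA i y).1 hy).2)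
  have qB := fun i (y : VV m) (hy : y ∈ (eB i).source) => pB' i (y + (a / 2) • es m)
    (by rw [lat_add_es]; exact ((sB i y).1 hy).1) (by rw [sh]; exact ((sB i y).1 hy).2)
  have fA : ∀ i, ∀ y ∈ (eA i).source, f (eA i y) = (ΨA i (y + -(a / 2) • es m)).2.2 :=
    fun i y hy => by rw [vA, h.lev _ _ (qA i y hy).1]
  have fB : ∀ i, ∀ y ∈ (eB i).source, f (eB i y) = (ΨB i (y + (a / 2) • es m)).2.2 :=
    fun i y hy => by rw [vB, h.lev _ _ (qB i y hy).1]
  have low : ∀ {Ψ : Dif (VV m)} {c0 t0 : ℝ}, 0 < c0 → (∀ x t, (Ψ (x, t, 0)).2.2 = t0) →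
      (∀ x t u u', u ≤ u' → c0 * (u' - u) ≤ (Ψ (x, t, u')).2.2 - (Ψ (x, t, u)).2.2) →
      ∀ y : VV m, y.2.2 ≤ 0 → (Ψ y).2.2 - t0 ≤ c0 * y.2.2 := fun {Ψ c0 t0} _ z0 m0 y hy => by
    have := m0 y.1 y.2.1 y.2.2 0 hy
    rw [z0] at this
    change _ ≤ t0 - (Ψ y).2.2 at this
    linarith only [this]
  have high : ∀ {Ψ : Dif (VV m)} {c0 t0 : ℝ}, 0 < c0 → (∀ x t, (Ψ (x, t, 0)).2.2 = t0) →
      (∀ x t u u', u ≤ u' → c0 * (u' - u) ≤ (Ψ (x, t, u')).2.2 - (Ψ (x, t, u)).2.2) →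
      ∀ y : VV m, 0 ≤ y.2.2 → c0 * y.2.2 ≤ (Ψ y).2.2 - t0 := fun {Ψ c0 t0} _ z0 m0 y hy => by
    have := m0 y.1 y.2.1 0 y.2.2 hy
    rw [z0, sub_zero] at this
    exact this
  have hca : 0 < c * a := mul_pos hc ha
  have high' : ∀ {c0 u d : ℝ}, c ≤ c0 → a / 4 ≤ u → c0 * u ≤ d → ε * η < d := fun h1 h2 h3 => by
    have := mul_le_mul h1 h2 (by positivity) (hc.le.trans h1)
    linarith only [hη2, hca, h3, this]
  have arg : ∀ (j : Fin T.N) (k : ℤ) (x : ℝ), x / ε - T.ph j - k = (x - T.ht ε j k) / ε := by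
    intro j k x
    simp only [Teeth.ht]
    field_simp
    ring
  have S0 : ∀ (j : Fin T.N) (k : ℤ) (x : ℝ), x - T.ht ε j k ≤ 0 → S (x / ε - T.ph j - k) = 0 :=
    fun j k x hx => q3 _ (by rw [arg]; exact div_nonpos_of_nonpos_of_nonneg hx hε.le)
  have S1 : ∀ (j : Fin T.N) (k : ℤ) (x : ℝ), ε * η < x - T.ht ε j k → S (x / ε - T.ph j - k) = 1 :=
    fun j k x hx => q4 _ (by rw [arg, le_div_iff₀ hε]; linarith only [hx])
  have near : ∀ {j j' : Fin T.N} {k k' : ℤ} {x : ℝ}, |x - T.ht ε j k| < ε / (3 * T.N) →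
      T.ht ε j' k' ≤ x → x ≤ T.ht ε j' k' + ε * η → (j, k) = (j', k') := by
    intro j j' k k' x h1 h2 h3
    have hN' : (0 : ℝ) < T.N := by exact_mod_cast j.pos
    have h4 : ε * η < ε / (3 * T.N) := by
      have := mul_lt_mul_of_pos_left (hη4 j) hε
      rwa [mul_one_div] at this
    have h5 : ε / T.N = 3 * (ε / (3 * T.N)) := by field_simp
    have h6 : 0 < ε / (3 * T.N) := by positivity
    rw [abs_lt] at h1
    exact lens_sep T hε (by rw [h5, abs_lt]; constructor <;> linarith only [h1, h2, h3, h4, h1.1, h1.2])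
  have sep : ∀ {j j' : Fin T.N} {k k' : ℤ} {x : ℝ}, |x - T.ht ε j k| < ε / (3 * T.N) →
      |x - T.ht ε j' k'| < ε / (3 * T.N) → (j, k) = (j', k') := by
    intro j j' k k' x h1 h2
    have hN' : (0 : ℝ) < T.N := by exact_mod_cast j.pos
    have h5 : ε / T.N = 3 * (ε / (3 * T.N)) := by field_simp
    have h6 : 0 < ε / (3 * T.N) := by positivity
    rw [abs_lt] at h1 h2
    exact lens_sep T hε (by rw [h5, abs_lt]; constructor <;> linarith only [h1, h2, h1.1, h1.2, h2.1, h2.2])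
  have smG : ∀ (Ψ : Dif (VV m)) (j : Fin T.N) (k : ℤ), ContDiff ℝ ∞ fun x =>
      ε * T.amp j * S ((Ψ x).2.2 / ε - T.ph j - k) * T.ρ j (Ψ x) := fun Ψ j k =>
    (contDiff_const.mul (q2.comp (((Ψ.smooth.snd.snd.div_const ε).sub contDiff_const).sub
      contDiff_const))).mul ((h.bump j).1.comp Ψ.smooth)
  have srcA : ∀ i, box m ((r + R1) / 2) 0 a ⊆ (eA i).source := fun i y hy => (sA i y).2
    ⟨by linarith only [r1, hy, hy.1], by rw [abs_lt]; constructor <;> linarith only [ha, hy, hy.2.1, hy.2.2]⟩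
  have srcB : ∀ i, box m ((r + R1) / 2) (-a) 0 ⊆ (eB i).source := fun i y hy => (sB i y).2
    ⟨by linarith only [r1, hy, hy.1], by rw [abs_lt]; constructor <;> linarith only [ha, hy, hy.2.1, hy.2.2]⟩
  have locA : ∀ i, ∀ y ∈ (eA i).source, loc2 (eA i) (fun x => w x + dM (T.al f ε saw) x) y =
      ws m - wedge (fderiv ℝ (fun x => (fun x => ε * T.amp (A i).1 *
        S ((ΨA i x).2.2 / ε - T.ph (A i).1 - (A i).2) * T.ρ (A i).1 (ΨA i x))
          (x + -(a / 2) • es m)) y) (dt m) := fun i y hy => by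
    rw [lA i _ y hy, (qA i y hy).2.2.2 η saw S (hη4 (A i).1) hs, lens_fderiv_shift _ (smG _ _ _)]
  have locB : ∀ i, ∀ y ∈ (eB i).source, loc2 (eB i) (fun x => w x + dM (T.al f ε saw) x) y =
      ws m + wedge (fderiv ℝ (fun x => -(fun x => ε * T.amp (B i).1 *
        S ((ΨB i x).2.2 / ε - T.ph (B i).1 - (B i).2) * T.ρ (B i).1 (ΨB i x))
          (x + (a / 2) • es m) - ε * T.dp) y) (dt m) := fun i y hy => by
    rw [lB i _ y hy, (qB i y hy).2.2.2 η saw S (hη4 (B i).1) hs, fderiv_sub_const, fderiv_fun_neg,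
      lens_fderiv_shift _ (smG _ _ _), ← neg_one_smul ℝ (fderiv ℝ _ _), wedge_smul_left,
      neg_one_smul, sub_eq_add_neg]
  have good : ∀ z, (∀ i, z ∉ eA i '' box m r (a / 2) (3 * a / 4)) → z ∈ T.good κ f ε η := by
    rintro z hz j hj k ⟨x, hx, rfl⟩ ⟨s1, s2⟩
    have hx5 : x ∈ (T.e j).source := h.sub j (closedBall_subset_closedBall (by linarith only [hp, hκR, hκR']) hx)
    rw [h.lev j x hx5] at s1 s2
    rw [mem_closedBall, dist_eq_norm, lens_norm, max_le_iff, max_le_iff] at hx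
    obtain ⟨i, hi⟩ := cov j hj k x.2.2 hx.2 s1 (by (refine le_of_not_gt fun h_nl => ?_; linarith only [h_nl, s2, s1, h0, hε, h1, hη1, mul_nonneg_of_nonpos_of_nonpos (Mathlib.Tactic.Linarith.sub_nonpos_of_le (Mathlib.Tactic.Linarith.natCast_nonneg ℝ T.N)) (Mathlib.Tactic.Linarith.sub_nonpos_of_le s1), mul_nonneg_of_nonpos_of_nonpos (Mathlib.Tactic.Linarith.sub_nonpos_of_le (Mathlib.Tactic.Linarith.natCast_nonneg ℝ T.N)) (Mathlib.Tactic.Linarith.sub_nonpos_of_le s2), mul_pos_of_neg_of_neg (Mathlib.Tactic.Linarith.sub_neg_of_lt h0) (Mathlib.Tactic.Linarith.sub_neg_of_lt hε), mul_pos_of_neg_of_neg (Mathlib.Tactic.Linarith.sub_neg_of_lt h0) (Mathlib.Tactic.Linarith.sub_neg_of_lt h_nl), mul_pos_of_neg_of_neg (Mathlib.Tactic.Linarith.sub_neg_of_lt h1) (Mathlib.Tactic.Linarith.sub_neg_of_lt hε), mul_pos_of_neg_of_neg (Mathlib.Tactic.Linarith.sub_neg_of_lt h1) (Mathlib.Tactic.Linarith.sub_neg_of_lt h_nl), mul_nonneg_of_nonpos_of_nonpos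 (le_of_lt (Mathlib.Tactic.Linarith.sub_neg_of_lt hε)) (Mathlib.Tactic.Linarith.sub_nonpos_of_le hη1)]))
    have hj' : (A i).1 = j := congrArg Prod.fst hi
    have hk' : (A i).2 = k := congrArg Prod.snd hi
    subst hj' hk'
    obtain ⟨y, rfl⟩ : ∃ y, ΨA i y = x := (ΨA i).toEquiv.surjective x
    have u0 : 0 ≤ y.2.2 := by
      by_contra hn
      have h2 := low (cA0 i) (zA i) (mA i) y (not_le.1 hn).le
      linarith only [s1, h2, cA0, hn, mul_neg_of_pos_of_neg (cA0 i) (not_le.1 hn)]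
    have u1 : y.2.2 ≤ a / 4 := by
      by_contra hn
      have := high' (cA' i) (not_le.1 hn).le (high (cA0 i) (zA i) (mA i) y u0)
      linarith only [s2, this]
    have t1 : |y.2.1| ≤ (1 + κ) * T.Rm := by
      have := hx.1.2
      rwa [tA, add_sub_cancel_right] at this
    have x1 := xA i y (by rw [radA]; linarith only [hκR, hκR', t1]) (by rw [abs_of_nonneg u0]; linarith only [ha, u1, aA', aA' i])
    have x2 : ‖y.1‖ ≤ r := by
      have e : y.1 = ((ΨA i y).1 - (T.c (A i).1).1) - ((ΨA i y).1 - (T.c (A i).1).1 - y.1) := by abel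
      have x3 := norm_sub_le ((ΨA i y).1 - (T.c (A i).1).1) ((ΨA i y).1 - (T.c (A i).1).1 - y.1)
      rw [← e] at x3
      rw [radA] at x1
      have x4 : ‖(ΨA i y).1 - (T.c (A i).1).1‖ ≤ (1 + κ) * T.Rm := hx.1.1
      rw [hr]; linarith only [hx, x1, x3]
    refine hz i ⟨y + (a / 2) • es m, ⟨?_, by rw [sh]; linarith only [u0], by rw [sh]; linarith only [u1]⟩, ?_⟩
    · rw [lat_add_es]
      exact max_le x2 (by rw [hr]; linarith only [hκR, t1])
    · rw [vA, add_assoc, ← add_smul, add_neg_cancel, zero_smul, add_zero]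
  have hpos := lensA_pos hE h h0 h1 hf hε hε0 hs
  refine ⟨T.al f ε saw, Teeth.sm_al h h0 h1 hf ε q1, ⟨{
    N := N, eA := eA, eB := eB,
    GA := fun i x => (fun x => ε * T.amp (A i).1 *
      S ((ΨA i x).2.2 / ε - T.ph (A i).1 - (A i).2) * T.ρ (A i).1 (ΨA i x)) (x + -(a / 2) • es m),
    GB := fun i x => -(fun x => ε * T.amp (B i).1 *
      S ((ΨB i x).2.2 / ε - T.ph (B i).1 - (B i).2) * T.ρ (B i).1 (ΨB i x))
        (x + (a / 2) • es m) - ε * T.dp,
    a := a, R := (r + R1) / 2, r := r,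
    Km := ε * T.dm, Kp := ε * T.dp, a_pos := ha, r_pos := r0, r_lt := by linarith only [r1],
    Km_pos := mul_pos hε h.dm_pos, Km_lt := mul_lt_mul_of_pos_left h.dm_lt hε, srcA := srcA,
    srcB := srcB, locA := locA, locB := locB,
    smA := fun i => (smG _ _ _).comp (contDiff_id.add contDiff_const),
    smB := fun i => ((smG _ _ _).comp (contDiff_id.add contDiff_const)).neg.sub contDiff_const,
    A0 := ?_, Ale := ?_, Ad := ?_, B0 := ?_, B1 := ?_, Bd := ?_, disjAA := ?_, disjBB := ?_,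
    disjAB := ?_, pos := fun z hz => hpos z (good z hz),
    htp := (lensA_htp hE h h0 h1 hf hw hθ hT hε hε0 hs).mono fun z hz =>
      good z fun i hi => hz (mem_iUnion.2 ⟨i, hi⟩) }⟩⟩
  · intro i y hy h2
    rcases h2 with h2 | h2
    · have h3 := low (cA0 i) (zA i) (mA i) (y + -(a / 2) • es m) (by rw [sh]; linarith only [h2])
      have h4 : cA i * (y + -(a / 2) • es m).2.2 ≤ 0 :=
        mul_nonpos_of_nonneg_of_nonpos (cA0 i).le (by rw [sh]; linarith only [h2])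
      beta_reduce
      rw [S0 _ _ _ (h3.trans h4), mul_zero, zero_mul]
    · have h3 := (sA i y).1 hy
      have x1 := xA i (y + -(a / 2) • es m)
        (by rw [radA, sh2]; linarith only [hp, hκR, hκR', hκp, hR1, h3, le_max_right ‖y.1‖ |y.2.1|, show max ‖y.1‖ |y.2.1| < R1 from h3.1])
        (by rw [sh]; linarith only [h3, aA', h3.2, aA' i])
      beta_reduce
      rw [(h.bump (A i).1).2.2.2 _ ?_, mul_zero]
      rw [lens_norm, radA, tA, sh2, add_sub_cancel_right]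
      rw [radA, sh1] at x1
      refine le_max_of_le_left ?_
      rcases le_max_iff.1 (show r ≤ max ‖y.1‖ |y.2.1| from h2) with h4 | h4
      · refine le_max_of_le_left ?_
        have x3 := norm_sub_le ((ΨA i (y + -(a / 2) • es m)).1 - (T.c (A i).1).1)
          ((ΨA i (y + -(a / 2) • es m)).1 - (T.c (A i).1).1 - y.1)
        rw [sub_sub_cancel] at x3
        rw [hr] at h4
        linarith only [x1, h4, x3]
      · exact le_max_of_le_right (by rw [hr] at h4; linarith only [hκR, h4])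
  · intro i y _
    beta_reduce
    rw [ampA, mul_assoc]
    exact mul_le_of_le_one_right (mul_pos hε h.dm_pos).le
      (mul_le_one₀ (q5 _).2 ((h.bump _).2.1 _).1 ((h.bump _).2.1 _).2)
  · intro i y hy h2
    have g1 : eA i y ∈ T.good κ f ε η := by
      rintro j _ k - ⟨s1, s2⟩
      rw [fA i y hy] at s1 s2
      have e := near (qA i y hy).2.1 s1 s2
      have h3 := high' (cA' i) (by rw [sh]; linarith only [h2])
        (high (cA0 i) (zA i) (mA i) (y + -(a / 2) • es m) (by rw [sh]; linarith only [ha, h2]))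
      rw [← (Prod.mk.inj e).1, ← (Prod.mk.inj e).2] at s2
      linarith only [s2, h3]
    have g2 := hpos _ g1
    rw [rat_loc _ hy, locA i y hy, lA i τ y hy, div_pos_iff_of_pos_right (qA i y hy).2.2.1,
      sub_eq_add_neg, ← neg_one_smul ℝ (wedge _ _), ← wedge_smul_left, PP_graph] at g2
    rw [neg_one_smul, ContinuousLinearMap.neg_apply] at g2
    exact lt_of_sub_pos (by rwa [sub_eq_add_neg])
  · intro i y hy h2
    have h3 := (sB i y).1 hy
    have h4 := high' (cB' i) (by rw [sh]; linarith only [h2])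
      (high (cB0 i) (zB i) (mB i) (y + (a / 2) • es m) (by rw [sh]; linarith only [ha, h2]))
    have l1 : ‖y.1‖ < R1 := (le_max_left _ _).trans_lt h3.1
    have l2 : |y.2.1| < R1 := (le_max_right _ _).trans_lt h3.1
    have x1 := xB i (y + (a / 2) • es m) (by rw [radB, sh2]; linarith only [hp, hκR, hκR', hκp, hR1, l2])
      (by rw [sh]; linarith only [h3, aB', h3.2, aB' i])
    beta_reduce
    rw [S1 _ _ _ h4, (h.bump (B i).1).2.2.1 _ ?_, ampB]
    · ring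
    rw [lens_norm, radB, tB, sh2, add_sub_cancel_right]
    rw [radB, sh1] at x1
    refine max_le (max_le ?_ (by rw [hR1] at l2; linarith only [hκp, l2])) ?_
    · have x3 := norm_add_le ((ΨB i (y + (a / 2) • es m)).1 - (T.c (B i).1).1 - y.1) y.1
      rw [sub_add_cancel] at x3
      rw [hR1] at l1
      linarith only [l1, x1, x3]
    · have hN' : (1 : ℝ) ≤ T.N := by exact_mod_cast (B i).1.pos
      have y1 := (qB i y hy).2.1
      have y2 : ε / (3 * T.N) ≤ ε := div_le_self hε.le (by linarith only [h0, h1, hN'])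
      have y3 := abs_sub_le (ΨB i (y + (a / 2) • es m)).2.2 (T.ht ε (B i).1 (B i).2)
        (T.c (B i).1).2.2
      linarith only [y1, y2, y3, bB, bB i]
  · intro i y _ h2
    have h3 := low (cB0 i) (zB i) (mB i) (y + (a / 2) • es m) (by rw [sh]; linarith only [h2])
    have h4 : cB i * (y + (a / 2) • es m).2.2 ≤ 0 :=
      mul_nonpos_of_nonneg_of_nonpos (cB0 i).le (by rw [sh]; linarith only [h2])
    beta_reduce
    rw [S0 _ _ _ (h3.trans h4), mul_zero, zero_mul, neg_zero, zero_sub]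
  · intro i y hy
    have g1 : eB i y ∈ T.good κ f ε η := by
      rintro j hj k - ⟨s1, s2⟩
      rw [fB i y hy] at s1 s2
      have e := near (qB i y hy).2.1 s1 s2
      rw [← (Prod.mk.inj e).1, nB i] at hj
      exact Bool.false_ne_true hj
    have g2 := hpos _ g1
    rwa [rat_loc _ hy, locB i y hy, lB i τ y hy, div_pos_iff_of_pos_right (qB i y hy).2.2.1,
      PP_graph] at g2
  · intro i j hij
    refine disjoint_left.2 ?_
    rintro _ ⟨y, hy, rfl⟩ ⟨y', hy', e⟩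
    have h2 := (qA i y (srcA i hy)).2.1
    have h3 := (qA j y' (srcA j hy')).2.1
    rw [← fA _ _ (srcA _ hy)] at h2
    rw [← fA _ _ (srcA _ hy'), e] at h3
    exact hij (iA (sep h2 h3))
  · intro i j hij
    refine disjoint_left.2 ?_
    rintro _ ⟨y, hy, rfl⟩ ⟨y', hy', e⟩
    have h2 := (qB i y (srcB i hy)).2.1
    have h3 := (qB j y' (srcB j hy')).2.1
    rw [← fB _ _ (srcB _ hy)] at h2
    rw [← fB _ _ (srcB _ hy'), e] at h3
    exact hij (iB (sep h2 h3))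
  · intro i j
    refine disjoint_left.2 ?_
    rintro _ ⟨y, hy, rfl⟩ ⟨y', hy', e⟩
    have h2 := (qA i y (srcA i hy)).2.1
    have h3 := (qB j y' (srcB j hy')).2.1
    rw [← fA _ _ (srcA _ hy)] at h2
    rw [← fB _ _ (srcB _ hy'), e] at h3
    have h4 := nA i
    rw [(Prod.mk.inj (sep h2 h3)).1, nB j] at h4
    exact Bool.false_ne_true h4

end Pool.Agent.Work.MP_bf98aa_gt.Ns
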