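import Pool.Agent.Work.MP_bf98aa_gt.Ns.Cut

-- merged part: Pool.Agent.Work.MP_bf98aa_gt.Ns.M3ExA
section
/-!
One-variable data for the three-dimensional model.
-/

set_option autoImplicit false
set_option maxSynthPendingDepth 3
set_option linter.unusedSectionVars false
set_option linter.unusedVariables false

open Set Filter Topology Metric MeasureTheory
open scoped Manifold ContDiff

noncomputable section
namespace Pool.Agent.Work.MP_bf98aa_gt.Ns

theorem m3ex_hd {f : ℝ → ℝ} (hf : ContDiff ℝ ∞ f) (x : ℝ) : HasDerivAt f (deriv f x) x :=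
  (hf.differentiable (by simp) x).hasDerivAt

theorem m3ex_sd {f : ℝ → ℝ} (hf : ContDiff ℝ ∞ f) : ContDiff ℝ ∞ (deriv f) :=
  (contDiff_infty_iff_deriv.1 hf).2

theorem m3ex_min {f : ℝ → ℝ} {x : ℝ} (h : ∀ y, f x ≤ f y) : deriv f x = 0 :=
  IsLocalMin.deriv_eq_zero (Eventually.of_forall h)

theorem m3ex_max {f : ℝ → ℝ} {x : ℝ} (h : ∀ y, f y ≤ f x) : deriv f x = 0 :=
  IsLocalMax.deriv_eq_zero (Eventually.of_forall h)

theorem m3ex_lo {f : ℝ → ℝ} {a k x : ℝ} (h : ∀ y, y ≤ a → f y = k) (hx : x < a) :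
    deriv f x = 0 := by
  have e : f =ᶠ[𝓝 x] fun _ => k := mem_of_superset (Iio_mem_nhds hx) fun y hy => h y (le_of_lt hy)
  rw [e.deriv_eq]; simp

theorem m3ex_hi {f : ℝ → ℝ} {a k x : ℝ} (h : ∀ y, a ≤ y → f y = k) (hx : a < x) :
    deriv f x = 0 := by
  have e : f =ᶠ[𝓝 x] fun _ => k := mem_of_superset (Ioi_mem_nhds hx) fun y hy => h y (le_of_lt hy)
  rw [e.deriv_eq]; simp

theorem m3ex_sign {s X Y : ℝ} (hs : s ≠ 0) (h1 : 0 < s * X) (h2 : 0 < s * Y) : 0 < X * Y := by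
  have h3 : 0 < s ^ 2 * (X * Y) := by
    have := mul_pos h1 h2
    linarith only [this, show s * X * (s * Y) = s ^ 2 * (X * Y) by ring]
  exact (pos_iff_pos_of_mul_pos h3).1 (by positivity)

theorem m3ex_sign' {s X Y : ℝ} (hs : s ≠ 0) (h1 : 0 ≤ s * X) (h2 : 0 ≤ s * Y) : 0 ≤ X * Y := by
  have h3 : 0 ≤ s ^ 2 * (X * Y) := by
    have := mul_nonneg h1 h2
    linarith [show s * X * (s * Y) = s ^ 2 * (X * Y) by ring]
  exact nonneg_of_mul_nonneg_right h3 (by positivity) |> fun h => h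

/-- An even ramp. -/
theorem m3ex_even {x y : ℝ} (hx : 0 ≤ x) (h : x < y) : ∃ (th : ℝ → ℝ) (K : ℝ), ContDiff ℝ ∞ th ∧
    (∀ s, |s| ≤ x → th s = 0) ∧ (∀ s, y ≤ |s| → th s = 1) ∧ (∀ s, 0 ≤ th s ∧ th s ≤ 1) ∧
    (∀ s, 0 ≤ s * deriv th s) ∧ (∀ s, |s| ≤ x ∨ y ≤ |s| → deriv th s = 0) ∧
    0 ≤ K ∧ ∀ s, |deriv th s| ≤ K := by
  obtain ⟨S, s1, s2, s3, s4, s5⟩ := exists_step (show x ^ 2 < y ^ 2 by linarith only [hx, h, mul_nonneg_of_nonpos_of_nonpos (Mathlib.Tactic.Linarith.sub_nonpos_of_le hx) (le_of_lt (Mathlib.Tactic.Linarith.sub_neg_of_lt h)), mul_pos_of_neg_of_neg (Mathlib.Tactic.Linarith.sub_neg_of_lt h) (Mathlib.Tactic.Linarith.sub_neg_of_lt h)])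
  have h1 : ContDiff ℝ ∞ fun s : ℝ => S (s ^ 2) := s1.comp (contDiff_id.pow 2)
  have h2 : ∀ s : ℝ, |s| ≤ x → S (s ^ 2) = 0 := fun s hs =>
    s2 _ (by rw [← sq_abs s]; exact pow_le_pow_left₀ (abs_nonneg s) hs 2)
  have h3 : ∀ s : ℝ, y ≤ |s| → S (s ^ 2) = 1 := fun s hs =>
    s3 _ (by rw [← sq_abs s]; exact pow_le_pow_left₀ (by linarith) hs 2)
  have h4 : ∀ s : ℝ, |s| ≤ x ∨ y ≤ |s| → deriv (fun s : ℝ => S (s ^ 2)) s = 0 := by
    rintro s (hs | hs)
    · exact m3ex_min fun z => by rw [h2 s hs]; exact (s4 _).1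
    · exact m3ex_max fun z => by rw [h3 s hs]; exact (s4 _).2
  obtain ⟨K, hK⟩ := (isCompact_Icc (a := -y) (b := y)).exists_bound_of_continuousOn
    (m3ex_sd h1).continuous.continuousOn
  refine ⟨fun s => S (s ^ 2), max K 0, h1, h2, h3, fun s => s4 _, fun s => ?_, h4, le_max_right _ _,
    fun s => ?_⟩
  · have e : HasDerivAt (fun s : ℝ => S (s ^ 2)) (deriv S (s ^ 2) * (2 * s)) s :=
      (m3ex_hd s1 (s ^ 2)).comp s (by simpa using hasDerivAt_pow 2 s)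
    rw [e.deriv]
    have := mul_nonneg (s5 (s ^ 2)) (sq_nonneg s)
    linarith only [this]
  · by_cases hs : y ≤ |s|
    · rw [h4 s (Or.inr hs)]; simp
    · exact (hK s (abs_le.1 (not_le.1 hs).le)).trans (le_max_left _ _)

theorem m3ex_int_sign {f : ℝ → ℝ} (hf : Continuous f) (h0 : ∀ s, 0 ≤ f s) (h1 : 0 < f 0) {s : ℝ}
    (hs : s ≠ 0) : 0 < s * ∫ z in (0 : ℝ)..s, f z := by
  rcases lt_or_gt_of_ne hs with h | h
  · rw [intervalIntegral.integral_symm]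
    have := intervalIntegral.integral_pos h hf.continuousOn (fun z _ => h0 z)
      ⟨0, ⟨h.le, le_rfl⟩, h1⟩
    linarith only [h, this, mul_pos_of_neg_of_neg (Mathlib.Tactic.Linarith.sub_neg_of_lt h) (Mathlib.Tactic.Linarith.sub_neg_of_lt this)]
  · exact mul_pos h (intervalIntegral.integral_pos h hf.continuousOn (fun z _ => h0 z)
      ⟨0, ⟨le_rfl, h.le⟩, h1⟩)

theorem m3ex_int_bd {f : ℝ → ℝ} {M p : ℝ} (hf : Continuous f) (h0 : ∀ s, 0 ≤ f s ∧ f s ≤ M)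
    (hp : 0 ≤ p) (h1 : ∀ s, p ≤ |s| → f s = 0) (s : ℝ) : |∫ z in (0 : ℝ)..s, f z| ≤ M * p := by
  have hM : 0 ≤ M := (h0 0).1.trans (h0 0).2
  have k : ∀ s : ℝ, |s| ≤ p → |∫ z in (0 : ℝ)..s, f z| ≤ M * p := fun s hs => by
    have := intervalIntegral.norm_integral_le_of_norm_le_const (a := 0) (b := s) (C := M) (f := f)
      fun z _ => by rw [Real.norm_eq_abs, abs_of_nonneg (h0 z).1]; exact (h0 z).2
    rw [Real.norm_eq_abs, sub_zero] at this
    exact this.trans (mul_le_mul_of_nonneg_left hs hM)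
  have hi : ∀ u v, IntervalIntegrable f volume u v := fun u v => hf.intervalIntegrable u v
  rcases le_total s p with h | h
  · rcases le_total (-p) s with h' | h'
    · exact k s (abs_le.2 ⟨h', h⟩)
    · rw [← intervalIntegral.integral_add_adjacent_intervals (hi 0 (-p)) (hi (-p) s),
        intervalIntegral.integral_congr (a := -p) (b := s) (g := fun _ => (0 : ℝ)) fun z hz => ?_]
      · simpa using k (-p) (by rw [abs_neg, abs_of_nonneg hp])
      · rw [uIcc_of_ge h'] at hz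
        exact h1 z (le_abs.2 (Or.inr (by linarith [hz.2])))
  · rw [← intervalIntegral.integral_add_adjacent_intervals (hi 0 p) (hi p s),
      intervalIntegral.integral_congr (a := p) (b := s) (g := fun _ => (0 : ℝ)) fun z hz => ?_]
    · simpa using k p (by rw [abs_of_nonneg hp])
    · rw [uIcc_of_le h] at hz
      exact h1 z (le_abs.2 (Or.inl hz.1))

/-- A primitive that is cut off. -/
theorem m3ex_cut {x y : ℝ} (hx : 0 ≤ x) (h : x < y) : ∃ K : ℝ, 0 ≤ K ∧ ∀ (f : ℝ → ℝ) (M p : ℝ),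
    ContDiff ℝ ∞ f → (∀ s, 0 ≤ f s ∧ f s ≤ M) → 0 < f 0 → 0 ≤ p → p ≤ x →
    (∀ s, p ≤ |s| → f s = 0) → ∃ ζ o : ℝ → ℝ, ContDiff ℝ ∞ ζ ∧ ContDiff ℝ ∞ o ∧
      (∀ s, HasDerivAt ζ (f s - o s) s) ∧ (∀ s, 0 ≤ o s ∧ o s ≤ M * p * K) ∧
      (∀ s, |s| ≤ x → o s = 0) ∧ (∀ s, y ≤ |s| → ζ s = 0 ∧ o s = 0) ∧ ζ 0 = 0 ∧
      (∀ s, 0 ≤ s * ζ s) ∧ ∀ s, |s| ≤ x → s ≠ 0 → 0 < s * ζ s := by
  obtain ⟨th, K, t1, t2, t3, t4, t5, t6, t7, t8⟩ := m3ex_even hx h
  refine ⟨K, t7, fun f M p f1 f2 f3 hp hpx f4 => ?_⟩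
  obtain ⟨i1, i2⟩ := contDiff_prim f1 0
  obtain ⟨I, hI⟩ : ∃ I : ℝ → ℝ, I = fun s => ∫ z in (0 : ℝ)..s, f z := ⟨_, rfl⟩
  have i3 : ∀ s, s ≠ 0 → 0 < s * I s := fun s hs => by
    rw [hI]; exact m3ex_int_sign f1.continuous (fun z => (f2 z).1) f3 hs
  have i4 : ∀ s, |I s| ≤ M * p := fun s => by
    rw [hI]; exact m3ex_int_bd f1.continuous f2 hp f4 s
  have i5 : I 0 = 0 := by rw [hI]; simp
  rw [← hI] at i1 i2
  refine ⟨fun s => I s * (1 - th s), fun s => I s * deriv th s, i1.mul (contDiff_const.sub t1),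
    i1.mul (m3ex_sd t1), fun s => ?_, fun s => ⟨?_, ?_⟩, fun s hs => ?_, fun s hs => ⟨?_, ?_⟩,
    ?_, fun s => ?_, fun s hs hs' => ?_⟩
  · refine ((i2 s).fun_mul ((m3ex_hd t1 s).const_sub 1)).congr_deriv ?_
    rcases le_total |s| x with k | k
    · rw [t2 s k]; ring
    · rw [f4 s (hpx.trans k)]; ring
  · by_cases hs : s = 0
    · simp [hs, i5]
    · exact m3ex_sign' hs (i3 s hs).le (t5 s)
  · refine (le_abs_self _).trans ?_
    rw [abs_mul]
    exact mul_le_mul (i4 s) (t8 s) (abs_nonneg _) ((abs_nonneg _).trans (i4 s))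
  · simp [t6 s (Or.inl hs)]
  · simp [t3 s hs]
  · simp [t6 s (Or.inr hs)]
  · simp [i5]
  · by_cases hs : s = 0
    · simp [hs]
    · have := mul_nonneg (i3 s hs).le (sub_nonneg.2 (t4 s).2)
      show 0 ≤ s * (I s * (1 - th s))
      linarith only [this, show s * (I s * (1 - th s)) = s * I s * (1 - th s) by ring]
  · show 0 < s * (I s * (1 - th s))
    rw [t2 s hs]; simpa using i3 s hs'

/-- The primitive of a bump. -/
theorem m3ex_prim {f : ℝ → ℝ} {x y : ℝ} (hf : ContDiff ℝ ∞ f) (h0 : ∀ w, 0 ≤ f w)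
    (h1 : ∀ w, w ≤ x ∨ y ≤ w → f w = 0) : ∃ I : ℝ → ℝ, ContDiff ℝ ∞ I ∧
      (∀ w, HasDerivAt I (f w) w) ∧ (∀ w, w ≤ x → I w = 0) ∧ (∀ w, y ≤ w → I w = I y) ∧
      (∀ w, 0 ≤ I w ∧ I w ≤ I y) ∧ I y = ∫ z in x..y, f z := by
  obtain ⟨i1, i2⟩ := contDiff_prim hf x
  obtain ⟨I, hI⟩ : ∃ I : ℝ → ℝ, I = fun s => ∫ z in x..s, f z := ⟨_, rfl⟩
  have hi : ∀ u v, IntervalIntegrable f volume u v := fun u v =>
    hf.continuous.intervalIntegrable u v
  have i3 : ∀ w, w ≤ x → I w = 0 := fun w hw => by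
    rw [hI]
    show ∫ z in x..w, f z = 0
    rw [intervalIntegral.integral_congr (g := fun _ => (0 : ℝ)) fun z hz => ?_]
    · simp
    · rw [uIcc_of_ge hw] at hz
      exact h1 z (Or.inl hz.2)
  have i4 : ∀ w, y ≤ w → I w = I y := fun w hw => by
    rw [hI]
    show ∫ z in x..w, f z = ∫ z in x..y, f z
    rw [← intervalIntegral.integral_add_adjacent_intervals (hi x y) (hi y w),
      intervalIntegral.integral_congr (a := y) (b := w) (g := fun _ => (0 : ℝ)) fun z hz => ?_]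
    · simp
    · rw [uIcc_of_le hw] at hz
      exact h1 z (Or.inr hz.1)
  have i6 : I y = ∫ z in x..y, f z := by rw [hI]
  rw [← hI] at i1 i2
  have mono : Monotone I := monotone_of_deriv_nonneg (fun w => (i2 w).differentiableAt)
    fun w => by rw [(i2 w).deriv]; exact h0 w
  refine ⟨I, i1, i2, i3, i4, fun w => ⟨?_, ?_⟩, i6⟩
  · rw [← i3 (min w x) (min_le_right _ _)]; exact mono (min_le_left _ _)
  · rw [← i4 (max w y) (le_max_right _ _)]; exact mono (le_max_left _ _)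

theorem m3ex_glue (x : ℝ) : HasDerivAt expNegInvGlue (x⁻¹ ^ 2 * expNegInvGlue x) x := by
  simpa using expNegInvGlue.hasDerivAt_polynomial_eval_inv_mul 1 x

theorem m3ex_glue_pos {x : ℝ} (hx : 0 < x) : 0 < deriv expNegInvGlue x := by
  rw [(m3ex_glue x).deriv]
  exact mul_pos (by positivity) (expNegInvGlue.pos_of_pos hx)

theorem m3ex_glue_nonneg (x : ℝ) : 0 ≤ deriv expNegInvGlue x := by
  rw [(m3ex_glue x).deriv]
  exact mul_nonneg (by positivity) (expNegInvGlue.nonneg x)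

/-- The functions of the height `s`. -/
structure m3ex_S (L a b0 u : ℝ) where
  b : ℝ → ℝ
  q : ℝ → ℝ
  ζ : ℝ → ℝ
  o : ℝ → ℝ
  c : ℝ
  K : ℝ
  c_pos : 0 < c
  smb : ContDiff ℝ ∞ b
  smq : ContDiff ℝ ∞ q
  smζ : ContDiff ℝ ∞ ζ
  smo : ContDiff ℝ ∞ o
  b_nn : ∀ s, 0 ≤ b s
  o_nn : ∀ s, 0 ≤ o s
  o_le : ∀ s, o s ≤ K
  bo : ∀ s, b s = 0 ∨ o s = 0
  dζ : ∀ s, HasDerivAt ζ (b s - o s) s
  q_nn : ∀ s, 0 ≤ q s
  qb : ∀ s, b0 ≤ q s + b s
  q_le : ∀ s, |s| ≤ L + a / 2 → q s ≤ b0 + u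
  inn : ∀ s, |s| ≤ L → b s = b0 ∧ q s = c * s ^ 2 ∧ o s = 0 ∧ q s ≤ u
  far : ∀ s, L + a / 2 ≤ |s| → b s = 0 ∧ ζ s = 0 ∧ o s = 0
  ζ0 : ζ 0 = 0
  sg : ∀ s x, x ≤ 1 → 0 ≤ (deriv q s + deriv b s * x) * ζ s
  sg' : ∀ s x, x ≤ 1 → b s ≠ 0 → s ≠ 0 → 0 < (deriv q s + deriv b s * x) * ζ s

theorem m3ex_exS {L a b0 u : ℝ} (hL : 0 < L) (ha : 0 < a) (hb : 0 < b0) (hu : 0 < u) :
    Nonempty (m3ex_S L a b0 u) := by
  obtain ⟨th, K0, t1, t2, t3, t4, t5, t6, -, -⟩ :=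
    m3ex_even hL.le (show L < L + a / 4 by linarith only [ha])
  obtain ⟨K, hK, hc⟩ := m3ex_cut (show 0 ≤ L + a / 4 by linarith)
    (show L + a / 4 < L + a / 2 by linarith)
  have b1 : ContDiff ℝ ∞ fun s => b0 * (1 - th s) := contDiff_const.mul (contDiff_const.sub t1)
  have b2 : ∀ s, L + a / 4 ≤ |s| → b0 * (1 - th s) = 0 := fun s hs => by simp [t3 s hs]
  obtain ⟨ζ, o, z1, z2, z3, z4, z5, z6, z7, z8, z9⟩ := hc (fun s => b0 * (1 - th s)) b0 (L + a / 4)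
    b1 (fun s => ⟨mul_nonneg hb.le (sub_nonneg.2 (t4 s).2), by linarith only [hb, t4, (t4 s).1, mul_nonneg_of_nonpos_of_nonpos (le_of_lt (Mathlib.Tactic.Linarith.sub_neg_of_lt hb)) (Mathlib.Tactic.Linarith.sub_nonpos_of_le (t4 s).left)]⟩)
    (by simpa [t2 0 (by simpa using hL.le)] using hb) (by linarith) le_rfl b2
  obtain ⟨c, hc0, hc1⟩ : ∃ c : ℝ, 0 < c ∧ c * (L + a) ^ 2 = u :=
    ⟨u / (L + a) ^ 2, by positivity, by field_simp⟩
  have c2 : ∀ s : ℝ, |s| ≤ L + a → c * s ^ 2 ≤ u := fun s hs => by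
    rw [← hc1, ← sq_abs s]
    exact mul_le_mul_of_nonneg_left (pow_le_pow_left₀ (abs_nonneg s) hs 2) hc0.le
  have key : ∀ s x : ℝ, x ≤ 1 → s ≠ 0 → 0 < s * (deriv (fun s => c * s ^ 2 + b0 * th s) s +
      deriv (fun s => b0 * (1 - th s)) s * x) := fun s x hx hs => by
    have e1 : HasDerivAt (fun s => c * s ^ 2 + b0 * th s) (c * (2 * s) + b0 * deriv th s) s :=
      (HasDerivAt.const_mul c (by simpa using hasDerivAt_pow 2 s)).fun_add
        ((m3ex_hd t1 s).const_mul b0)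
    have e2 : HasDerivAt (fun s => b0 * (1 - th s)) (b0 * -deriv th s) s :=
      ((m3ex_hd t1 s).const_sub 1).const_mul b0
    rw [e1.deriv, e2.deriv]
    have k1 : 0 < c * s ^ 2 := by positivity
    have k2 := mul_nonneg (mul_nonneg hb.le (t5 s)) (sub_nonneg.2 hx)
    linarith only [k1, k2]
  refine ⟨⟨fun s => b0 * (1 - th s), fun s => c * s ^ 2 + b0 * th s, ζ, o, c, b0 * (L + a / 4) * K,
    hc0, b1, (contDiff_const.mul (contDiff_id.pow 2)).add (contDiff_const.mul t1), z1, z2,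
    fun s => mul_nonneg hb.le (sub_nonneg.2 (t4 s).2), fun s => (z4 s).1, fun s => (z4 s).2,
    fun s => ?_, z3, fun s => ?_, fun s => ?_, fun s hs => ?_, fun s hs => ?_, fun s hs => ?_, z7,
    fun s x hx => ?_, fun s x hx hb' hs => ?_⟩⟩
  · rcases le_total |s| (L + a / 4) with k | k
    · exact Or.inr (z5 s k)
    · exact Or.inl (b2 s k)
  · have := mul_nonneg hb.le (t4 s).1
    positivity
  · have : 0 ≤ c * s ^ 2 := by positivity
    linarith only [this]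
  · have := c2 s (by linarith only [ha, hs])
    linarith only [this, hb, t4, (t4 s).2, mul_nonneg_of_nonpos_of_nonpos (le_of_lt (Mathlib.Tactic.Linarith.sub_neg_of_lt hb)) (Mathlib.Tactic.Linarith.sub_nonpos_of_le (t4 s).right)]
  · have := c2 s (by linarith)
    simp only [t2 s hs]
    exact ⟨by ring, by ring, z5 s (by linarith), by linarith⟩
  · exact ⟨b2 s (by linarith only [ha, hs]), z6 s hs⟩
  · by_cases hs : s = 0
    · simp [hs, z7]
    · exact m3ex_sign' hs (key s x hx hs).le (z8 s)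
  · refine m3ex_sign hs (key s x hx hs) (z9 s ?_ hs)
    by_contra k
    exact hb' (b2 s (not_le.1 k).le)

/-- The functions of `t`. -/
structure m3ex_T (η δ κ : ℝ) where
  m : ℝ → ℝ
  ξ : ℝ → ℝ
  n : ℝ → ℝ
  p0 : ℝ
  p0_pos : 0 < p0
  smm : ContDiff ℝ ∞ m
  smξ : ContDiff ℝ ∞ ξ
  smn : ContDiff ℝ ∞ n
  m_nn : ∀ t, 0 ≤ m t
  m_le : ∀ t, m t ≤ 1
  n_nn : ∀ t, 0 ≤ n t
  n_le : ∀ t, n t ≤ δ
  mn : ∀ t, m t = 0 ∨ n t = 0
  dξ : ∀ t, HasDerivAt ξ (m t - n t) t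
  far : ∀ t, η ≤ |t| → m t = 0 ∧ ξ t = 0
  inn : ∀ t, |t| ≤ p0 → κ < m t ∧ n t = 0
  m0 : m 0 = 1
  ξ0 : ξ 0 = 0
  sg : ∀ t, deriv m t * ξ t ≤ 0
  sg' : ∀ t, m t ≠ 0 → t ≠ 0 → deriv m t * ξ t < 0
  dd : deriv (deriv m) 0 < 0

theorem m3ex_exT {η δ κ : ℝ} (hη : 0 < η) (hδ : 0 < δ) (hκ : κ < 1) :
    Nonempty (m3ex_T η δ κ) := by
  obtain ⟨K, hK, hc⟩ := m3ex_cut (show 0 ≤ η / 2 by linarith only [hη]) (show η / 2 < η by linarith)
  obtain ⟨p, hp, hp1, hp2⟩ : ∃ p : ℝ, 0 < p ∧ p ≤ η / 2 ∧ 1 * p * K ≤ δ := by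
    refine ⟨min (η / 2) (δ / (K + 1)), by positivity, min_le_left _ _, ?_⟩
    have h1 := min_le_right (η / 2) (δ / (K + 1))
    have h2 : δ / (K + 1) * K ≤ δ := by
      rw [div_mul_eq_mul_div, div_le_iff₀ (by linarith)]; linarith only [hδ]
    linarith only [h2, hK, h1, mul_nonneg_of_nonpos_of_nonpos (Mathlib.Tactic.Linarith.sub_nonpos_of_le hK) (Mathlib.Tactic.Linarith.sub_nonpos_of_le h1)]
  have g0 : 0 < expNegInvGlue (p ^ 2) := expNegInvGlue.pos_of_pos (by positivity)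
  obtain ⟨m, hm⟩ : ∃ m : ℝ → ℝ,
    m = fun t => expNegInvGlue (p ^ 2 - t ^ 2) / expNegInvGlue (p ^ 2) := ⟨_, rfl⟩
  obtain ⟨k, hk⟩ : ∃ k : ℝ → ℝ,
    k = fun t => 2 * deriv expNegInvGlue (p ^ 2 - t ^ 2) / expNegInvGlue (p ^ 2) := ⟨_, rfl⟩
  have gs : ContDiff ℝ ∞ expNegInvGlue := expNegInvGlue.contDiff
  have sq : ContDiff ℝ ∞ fun t : ℝ => p ^ 2 - t ^ 2 := contDiff_const.sub (contDiff_id.pow 2)
  have m1 : ContDiff ℝ ∞ m := by rw [hm]; exact (gs.comp sq).div_const _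
  have k1 : ContDiff ℝ ∞ k := by
    rw [hk]; exact (contDiff_const.mul ((m3ex_sd gs).comp sq)).div_const _
  have m2 : ∀ t, 0 ≤ m t ∧ m t ≤ 1 := fun t => by
    rw [hm]
    exact ⟨div_nonneg (expNegInvGlue.nonneg _) g0.le,
      (div_le_one g0).2 (expNegInvGlue.monotone (by linarith only [sq_nonneg t, sq_nonneg t]))⟩
  have m3 : m 0 = 1 := by rw [hm]; simp [g0.ne']
  have m4 : ∀ t, p ≤ |t| → m t = 0 := fun t ht => by
    have : p ^ 2 ≤ t ^ 2 := by rw [← sq_abs t]; exact pow_le_pow_left₀ hp.le ht 2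
    rw [hm]; simp [this]
  have m5 : deriv m = fun t => -(t * k t) := by
    funext t
    have e : HasDerivAt (fun t : ℝ => p ^ 2 - t ^ 2) (-(2 * t)) t :=
      HasDerivAt.const_sub _ (by simpa using hasDerivAt_pow 2 t)
    have e2 := ((m3ex_hd gs (p ^ 2 - t ^ 2)).comp t e).div_const (expNegInvGlue (p ^ 2))
    rw [hm, hk]
    exact e2.deriv.trans (by ring)
  have k2 : ∀ t, 0 ≤ k t := fun t => by
    rw [hk]; exact div_nonneg (mul_nonneg zero_le_two (m3ex_glue_nonneg _)) g0.le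
  have k3 : ∀ t, |t| < p → 0 < k t := fun t ht => by
    have : t ^ 2 < p ^ 2 := by rw [← sq_abs t]; exact pow_lt_pow_left₀ ht (abs_nonneg t) two_ne_zero
    rw [hk]; exact div_pos (mul_pos two_pos (m3ex_glue_pos (by linarith only [this]))) g0
  obtain ⟨ξ, n, z1, z2, z3, z4, z5, z6, z7, z8, z9⟩ := hc m 1 p m1 m2 (by rw [m3]; exact one_pos)
    hp.le hp1 m4
  obtain ⟨ε, hε, he⟩ := Metric.eventually_nhds_iff.1
    (m1.continuous.continuousAt.eventually (lt_mem_nhds (show κ < m 0 by rwa [m3])))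
  refine ⟨⟨m, ξ, n, min (ε / 2) p, by positivity, m1, z1, z2, fun t => (m2 t).1, fun t => (m2 t).2,
    fun t => (z4 t).1, fun t => (z4 t).2.trans hp2, fun t => ?_, z3, fun t ht => ?_,
    fun t ht => ⟨he ?_, z5 t ?_⟩, m3, z7, fun t => ?_, fun t h1 h2 => ?_, ?_⟩⟩
  · rcases le_total |t| (η / 2) with h | h
    · exact Or.inr (z5 t h)
    · exact Or.inl (m4 t (hp1.trans h))
  · exact ⟨m4 t (by linarith only [hp, hp1, ht]), (z6 t ht).1⟩
  · have := ht.trans (min_le_left _ _)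
    rw [Real.dist_eq, sub_zero]; linarith only [hε, this]
  · exact (ht.trans (min_le_right _ _)).trans hp1
  · rw [m5]
    have := mul_nonneg (k2 t) (z8 t)
    show -(t * k t) * ξ t ≤ 0
    linarith only [this]
  · have h3 : |t| < p := not_le.1 fun h => h1 (m4 t h)
    have := mul_pos (k3 t h3) (z9 t (h3.le.trans hp1) h2)
    rw [m5]
    show -(t * k t) * ξ t < 0
    linarith only [this]
  · have e : HasDerivAt (fun t => -(t * k t)) (-(1 * k 0 + 0 * deriv k 0)) 0 :=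
      ((hasDerivAt_id' (0 : ℝ)).fun_mul (m3ex_hd k1 0)).fun_neg
    rw [m5, e.deriv]
    have := k3 0 (by simpa using hp)
    linarith only [this]

/-- The functions of `w = r - q s`. -/
structure m3ex_W (u b0 : ℝ) where
  β : ℝ → ℝ
  F : ℝ → ℝ
  E : ℝ → ℝ
  g0 : ℝ
  g0_nn : 0 ≤ g0
  smβ : ContDiff ℝ ∞ β
  smF : ContDiff ℝ ∞ F
  smE : ContDiff ℝ ∞ E
  β_nn : ∀ w, 0 ≤ β w
  β_le : ∀ w, β w ≤ 1
  β_lo : ∀ w, w ≤ 2 * u → β w = 0
  β_mid : ∀ w, 3 * u ≤ w → w ≤ 5 * u → β w = 1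
  β_hi : ∀ w, 6 * u ≤ w → β w = 0
  E_nn : ∀ w, 0 ≤ E w
  E_supp : ∀ w, E w ≠ 0 → 5 * u < w ∧ w < 6 * u
  dβ : ∀ w, E w = 0 → 0 ≤ deriv β w
  dβ' : ∀ w, 3 * u < w → deriv β w = -E w
  β_pos : ∀ w, E w ≠ 0 → 0 < β w
  F_lo : ∀ w, w ≤ 4 * u → F w = 0
  F_hi : ∀ w, 7 * u ≤ w → F w = -g0
  F_le : ∀ w, F w ≤ 0
  F_ge : ∀ w, -g0 ≤ F w + E w
  d1 : ∀ w, deriv F w ≤ 0
  d2 : ∀ w, deriv F w + deriv E w ≤ 0
  d3 : ∀ w, E w ≠ 0 → deriv F w < 0 ∧ deriv F w + deriv E w < 0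
  reg : ∀ w, b0 * E w = 1 → deriv E w ≠ 0

theorem m3ex_bump {u b0 : ℝ} (hu : 0 < u) (hb : u < b0) : ∃ E : ℝ → ℝ, ContDiff ℝ ∞ E ∧
    (∀ w, 0 ≤ E w) ∧ (∀ w, w ≤ 5 * u ∨ 6 * u ≤ w → E w = 0) ∧
    ∫ z in (5 * u)..(6 * u), E z = 1 ∧ ∀ w, b0 * E w = 1 → deriv E w ≠ 0 := by
  have gs : ContDiff ℝ ∞ expNegInvGlue := expNegInvGlue.contDiff
  have sq : ContDiff ℝ ∞ fun w : ℝ => (w - 5 * u) * (6 * u - w) := by fun_prop
  obtain ⟨f, hf⟩ : ∃ f : ℝ → ℝ, f = fun w => expNegInvGlue ((w - 5 * u) * (6 * u - w)) := ⟨_, rfl⟩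
  have f1 : ContDiff ℝ ∞ f := by rw [hf]; exact gs.comp sq
  have f2 : ∀ w, 0 ≤ f w := fun w => by rw [hf]; exact expNegInvGlue.nonneg _
  have f3 : ∀ w, w ≤ 5 * u ∨ 6 * u ≤ w → f w = 0 := fun w hw => by
    rw [hf]
    refine expNegInvGlue.zero_of_nonpos ?_
    rcases hw with h | h <;> linarith only [hu, h, mul_nonneg_of_nonpos_of_nonpos (le_of_lt (Mathlib.Tactic.Linarith.sub_neg_of_lt hu)) (Mathlib.Tactic.Linarith.sub_nonpos_of_le h), mul_nonneg_of_nonpos_of_nonpos (Mathlib.Tactic.Linarith.sub_nonpos_of_le h) (Mathlib.Tactic.Linarith.sub_nonpos_of_le h)]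
  have f4 : ∀ w, f w ≤ f (11 * u / 2) := fun w => by
    rw [hf]
    exact expNegInvGlue.monotone (by linarith only [sq_nonneg (w - 11 * u / 2), sq_nonneg ((2 : ℝ) * w - (1 : ℝ) * (11 : ℝ) * ((1 : ℝ) * u))])
  have f5 : 0 < f (11 * u / 2) := by
    rw [hf]; exact expNegInvGlue.pos_of_pos (by linarith only [hu, mul_pos_of_neg_of_neg (Mathlib.Tactic.Linarith.sub_neg_of_lt hu) (Mathlib.Tactic.Linarith.sub_neg_of_lt hu)])
  obtain ⟨J, hJ⟩ : ∃ J : ℝ, J = ∫ z in (5 * u)..(6 * u), f z := ⟨_, rfl⟩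
  have J1 : 0 < J := by
    rw [hJ]
    exact intervalIntegral.integral_pos (by linarith) f1.continuous.continuousOn (fun z _ => f2 z)
      ⟨11 * u / 2, ⟨by linarith only [hu], by linarith only [hu]⟩, f5⟩
  have J2 : J ≤ f (11 * u / 2) * u := by
    have := intervalIntegral.norm_integral_le_of_norm_le_const (a := 5 * u) (b := 6 * u)
      (C := f (11 * u / 2)) (f := f)
      fun z _ => by rw [Real.norm_eq_abs, abs_of_nonneg (f2 z)]; exact f4 z
    rw [Real.norm_eq_abs, ← hJ, show 6 * u - 5 * u = u by ring, abs_of_pos hu] at this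
    exact (le_abs_self _).trans this
  refine ⟨fun w => f w / J, f1.div_const _, fun w => div_nonneg (f2 w) J1.le,
    fun w hw => by simp [f3 w hw], ?_, fun w hw hd => ?_⟩
  · rw [intervalIntegral.integral_div, ← hJ, div_self J1.ne']
  · have e : HasDerivAt (fun w : ℝ => (w - 5 * u) * (6 * u - w)) (11 * u - 2 * w) w :=
      (((hasDerivAt_id' w).sub_const (5 * u)).fun_mul
        ((hasDerivAt_id' w).const_sub (6 * u))).congr_deriv (by ring)
    have e2 : HasDerivAt (fun w => f w / J)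
        (deriv expNegInvGlue ((w - 5 * u) * (6 * u - w)) * (11 * u - 2 * w) / J) w := by
      rw [hf]; exact ((m3ex_hd gs _).comp w e).div_const J
    rw [e2.deriv, div_eq_zero_iff, mul_eq_zero] at hd
    have hw' : b0 * f w = J := by
      have : b0 * (f w / J) = 1 := hw
      field_simp at this
      exact this
    have h0 : 0 < (w - 5 * u) * (6 * u - w) := by
      by_contra h
      have : f w = 0 := by rw [hf]; exact expNegInvGlue.zero_of_nonpos (not_lt.1 h)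
      rw [this] at hw'; linarith only [J1, hw']
    rcases hd with (h | h) | h
    · exact (m3ex_glue_pos h0).ne' h
    · rw [show w = 11 * u / 2 by linarith only [h]] at hw'
      linarith only [J2, hw', hb, f5, mul_pos_of_neg_of_neg (Mathlib.Tactic.Linarith.sub_neg_of_lt hb) (Mathlib.Tactic.Linarith.sub_neg_of_lt f5)]
    · exact J1.ne' h

theorem m3ex_exW {u b0 : ℝ} (hu : 0 < u) (hb : u < b0) : Nonempty (m3ex_W u b0) := by
  obtain ⟨E, e1, e2, e3, e4, e5⟩ := m3ex_bump hu hb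
  obtain ⟨I, i1, i2, i3, i4, i5, i6⟩ := m3ex_prim e1 e2 e3
  rw [e4] at i6
  rw [i6] at i4 i5
  obtain ⟨S, s1, s2, s3, s4, s5⟩ := exists_step (show 2 * u < 3 * u by linarith)
  obtain ⟨χ, c1, c2, c3, c4⟩ := exists_ball_cut (11 * u / 2) (r := u / 2) (R := 3 * u / 2)
    (by linarith) (by linarith)
  simp only [Real.norm_eq_abs] at c2 c3
  obtain ⟨G, hG⟩ : ∃ G : ℝ → ℝ, G = fun w => (1 + deriv E w ^ 2) * χ w := ⟨_, rfl⟩
  have g1 : ContDiff ℝ ∞ G := by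
    rw [hG]; exact (contDiff_const.add ((m3ex_sd e1).pow 2)).mul c1
  have g2 : ∀ w, 0 ≤ G w := fun w => by rw [hG]; exact mul_nonneg (by positivity) (c4 w).1
  have g3 : ∀ w, w ≤ 4 * u ∨ 7 * u ≤ w → G w = 0 := fun w hw => by
    have : χ w = 0 := c3 w (by
      rcases hw with h | h
      · exact le_abs.2 (Or.inr (by linarith only [h]))
      · exact le_abs.2 (Or.inl (by linarith only [h])))
    rw [hG]; simp [this]
  have es : ∀ w, E w ≠ 0 → 5 * u < w ∧ w < 6 * u := fun w hw =>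
    ⟨not_le.1 fun h => hw (e3 w (Or.inl h)), not_le.1 fun h => hw (e3 w (Or.inr h))⟩
  have g4 : ∀ w, E w ≠ 0 → G w = 1 + deriv E w ^ 2 := fun w hw => by
    have : χ w = 1 := c2 w (abs_le.2 ⟨by linarith only [es, hw, (es w hw).1], by linarith only [es, hw, (es w hw).2]⟩)
    rw [hG]; simp [this]
  have e6 : ∀ w, E w = 0 → deriv E w = 0 := fun w hw => m3ex_min fun z => by rw [hw]; exact e2 z
  obtain ⟨J, j1, j2, j3, j4, j5, -⟩ := m3ex_prim g1 g2 g3
  have dB : ∀ w, deriv (fun w => S w - I w) w = deriv S w - E w := fun w =>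
    ((m3ex_hd s1 w).fun_sub (i2 w)).deriv
  have dF : ∀ w, deriv (fun w => -J w - E w / 2) w = -G w - deriv E w / 2 := fun w =>
    ((j2 w).fun_neg.fun_sub ((m3ex_hd e1 w).div_const 2)).deriv
  have d3 : ∀ w, E w ≠ 0 → -G w - deriv E w / 2 < 0 ∧ -G w - deriv E w / 2 + deriv E w < 0 :=
    fun w hw => by
      rw [g4 w hw]
      constructor <;> linarith only [sq_nonneg (deriv E w + 1), sq_nonneg (deriv E w - 1), sq_nonneg (deriv E w + (1 : ℝ)), sq_nonneg ((1 : ℝ) * deriv E w), sq_nonneg (deriv E w - (1 : ℝ))]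
  refine ⟨⟨fun w => S w - I w, fun w => -J w - E w / 2, E, J (7 * u), (j5 _).1, s1.sub i1,
    j1.neg.sub (e1.div_const 2), e1, fun w => ?_, fun w => ?_, fun w hw => ?_, fun w h1 h2 => ?_,
    fun w hw => ?_, e2, es, fun w hw => ?_, fun w hw => ?_, fun w hw => ?_, fun w hw => ?_,
    fun w hw => ?_, fun w => ?_, fun w => ?_, fun w => ?_, fun w => ?_, fun w hw => ?_, e5⟩⟩
  · rcases le_total w (5 * u) with h | h
    · rw [i3 w h]; linarith [(s4 w).1]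
    · rw [s3 w (by linarith)]; linarith [(i5 w).2]
  · linarith [(s4 w).2, (i5 w).1]
  · rw [s2 w hw, i3 w (by linarith)]; ring
  · rw [s3 w h1, i3 w h2]; ring
  · rw [s3 w (by linarith), i4 w hw]; ring
  · rw [dB, hw]; linarith [s5 w]
  · rw [dB, m3ex_hi s3 hw]; ring
  · rw [s3 w (by linarith [(es w hw).1])]
    refine sub_pos.2 (lt_of_le_of_ne (i5 w).2 fun h => hw ?_)
    rw [← (i2 w).deriv]
    exact m3ex_max fun z => by rw [h]; exact (i5 z).2
  · rw [j3 w hw, e3 w (Or.inl (by linarith))]; ring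
  · rw [j4 w hw, e3 w (Or.inr (by linarith))]; ring
  · linarith [(j5 w).1, e2 w]
  · linarith only [j5, e2, (j5 w).2, e2 w]
  · rw [dF]
    by_cases h : E w = 0
    · rw [e6 w h]; linarith only [g2, g2 w]
    · exact (d3 w h).1.le
  · rw [dF]
    by_cases h : E w = 0
    · rw [e6 w h]; linarith only [g2, g2 w]
    · exact (d3 w h).2.le
  · rw [dF]; exact d3 w hw

end Pool.Agent.Work.MP_bf98aa_gt.Ns
end
end

-- merged part: Pool.Agent.Work.MP_bf98aa_gt.Ns.M3Ex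
section
/-!
The three-dimensional model (step 5 of the paper proof), coordinates (r, t, s).
Constants: b0 in (P1, P2); u > 0 small (8u < P0, u < P1, b0 + 10 u < P2), c > 0 with c (L+a)^2 <= u. Even ramps th, th2 (in s) and th3 (in t) are S (s^2) with steps S of exists_step on [L^2, (L+a/4)^2], [(L+a/4)^2, (L+a/2)^2], [eta^2/4, eta^2].
b = b0 (1 - th), q = c s^2 + b0 th, w = r - q s. E w = cE * expNegInvGlue ((w - 5u)(6u - w)) with integral 1; E' vanishes inside (5u,6u) only at the midpoint, where b0 E > 1. beta = S1 w - int E, S1 a step on [2u,3u].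
G = (1 + E'^2) * bump (1 on [5u,6u], 0 off (4u,7u)), g0 = int G. m t = expNegInvGlue (p1^2 - t^2) / expNegInvGlue (p1^2). zeta = (int_0^s b)(1 - th2), ao = (int_0^s b) th2', xi = (int_0^t m)(1 - th3), ms = (int_0^t m) th3', p1 < eta/2 so small that g0 ao ms < 1.
F1 = - int G - E/2, F2 = - int G + E/2, Fs = - g0 step on [u,2u], Fo = - g0 step on [b0 + 8u, b0 + 9u]. N = 1 + b m beta(w) / r (smooth: beta(w) = 0 for r <= 2u), A = F1(w) zeta m - Fs(r) zeta ms, B = F2(w) b xi - Fo(r) ao xi, C = Fs(r) zeta xi,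
psi = 1 - step on [3u,4u] of w, mu = 1 + (mu0 - 1)(1 - even ramp on [L+a/2, L+3a/4]), mu0 >= max 1 (R/eta) (R/p0) where m b0 > P1 on |t| <= p0 < p1, e r = b0 E r - 1.
pos: dH(Y) = (1 + b m beta')(1 - b m E + (Fo - F1) ao m) + (q' + b' m beta)(G + E'/2) zeta m - b^2 beta m' xi (G - E'/2) when m > 0 (then ms = 0), and = 1 + (F2 - Fs) b ms + (Fs - Fo) ao ms when m = 0.
zer: near (r,0,0) b = b0, q = c s^2, ao = ms = 0; in the directions (r,t,s) Hess H = diag (-b0 E', b0 m''(0) beta, 2c) and DY = diag (-b0 E', -b0 (G - E'/2), b0 (G + E'/2)) (the terms with q' vanish to the needed order at s = 0).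
It helps to first prove a structure of one-variable data with all sign facts (new file M3A), then compute fderiv with HasFDerivAt for products of one-variable functions.
-/

set_option autoImplicit false
set_option maxSynthPendingDepth 3
set_option linter.unusedSectionVars false
set_option linter.unusedVariables false

open Set Filter Topology Metric MeasureTheory
open scoped Manifold ContDiff

noncomputable section
namespace Pool.Agent.Work.MP_bf98aa_gt.Ns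

open Pool.Agent.Work.MP_8c604c_gt

variable {V V' V'' : Type} [NormedAddCommGroup V] [NormedSpace ℝ V] [FiniteDimensional ℝ V]
  [NormedAddCommGroup V'] [NormedSpace ℝ V'] [FiniteDimensional ℝ V']
  [NormedAddCommGroup V''] [NormedSpace ℝ V''] [FiniteDimensional ℝ V''] {m : ℕ}

theorem m3ex_fd {Z : Type} [NormedAddCommGroup Z] [NormedSpace ℝ Z] {F : R3 → Z} {r t s : ℝ}
    (hF : DifferentiableAt ℝ F (r, t, s)) {a b c : Z} (h1 : HasDerivAt (fun x => F (x, t, s)) a r)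
    (h2 : HasDerivAt (fun y => F (r, y, s)) b t) (h3 : HasDerivAt (fun z => F (r, t, z)) c s)
    (v : R3) : fderiv ℝ F (r, t, s) v = v.1 • a + v.2.1 • b + v.2.2 • c := by
  have l1 : HasDerivAt (fun x : ℝ => ((x, t, s) : R3)) (1, 0, 0) r :=
    (hasDerivAt_id' r).prodMk (hasDerivAt_const r (t, s))
  have l2 : HasDerivAt (fun y : ℝ => ((r, y, s) : R3)) (0, 1, 0) t :=
    (hasDerivAt_const t r).prodMk ((hasDerivAt_id' t).prodMk (hasDerivAt_const t s))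
  have l3 : HasDerivAt (fun z : ℝ => ((r, t, z) : R3)) (0, 0, 1) s :=
    (hasDerivAt_const s r).prodMk ((hasDerivAt_const s t).prodMk (hasDerivAt_id' s))
  have e1 := (hF.hasFDerivAt.comp_hasDerivAt r l1).unique h1
  have e2 := (hF.hasFDerivAt.comp_hasDerivAt t l2).unique h2
  have e3 := (hF.hasFDerivAt.comp_hasDerivAt s l3).unique h3
  have ev : v = v.1 • ((1, 0, 0) : R3) + v.2.1 • ((0, 1, 0) : R3) + v.2.2 • ((0, 0, 1) : R3) := by
    ext <;> simp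
  rw [← e1, ← e2, ← e3, ← map_smul, ← map_smul, ← map_smul, ← map_add, ← map_add, ← ev]

theorem m3ex_wr {f : ℝ → ℝ} (hf : ContDiff ℝ ∞ f) (r k : ℝ) :
    HasDerivAt (fun x => f (x - k)) (deriv f (r - k)) r :=
  HasDerivAt.comp_sub_const r k (m3ex_hd hf (r - k))

theorem m3ex_ws {f q : ℝ → ℝ} (hf : ContDiff ℝ ∞ f) (hq : ContDiff ℝ ∞ q) (r s : ℝ) :
    HasDerivAt (fun z => f (r - q z)) (deriv f (r - q s) * -deriv q s) s :=
  (m3ex_hd hf (r - q s)).comp s ((m3ex_hd hq s).const_sub r)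

theorem m3ex_smfld {A B : R3 → ℝ} (hA : ContDiff ℝ ∞ A) (hB : ContDiff ℝ ∞ B) :
    ContDiff ℝ ∞ (fld A B) := by
  have a := hA.fderiv_right (m := ∞) le_rfl
  have b := hB.fderiv_right (m := ∞) le_rfl
  exact ((contDiff_const.add (a.clm_apply contDiff_const)).sub (b.clm_apply contDiff_const)).prodMk
    ((b.clm_apply contDiff_const).prodMk (a.clm_apply contDiff_const).neg)

section Model
variable {L a b0 u η δ κ : ℝ} (S : m3ex_S L a b0 u) (T : m3ex_T η δ κ) (W : m3ex_W u b0)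
  (Fs Fo : ℝ → ℝ)

def m3ex_H (p : R3) : ℝ := p.1 + S.b p.2.2 * T.m p.2.1 * W.β (p.1 - S.q p.2.2)

def m3ex_N (p : R3) : ℝ := 1 + S.b p.2.2 * T.m p.2.1 * W.β (p.1 - S.q p.2.2) / p.1

def m3ex_A (p : R3) : ℝ :=
  W.F (p.1 - S.q p.2.2) * S.ζ p.2.2 * T.m p.2.1 - Fs p.1 * S.ζ p.2.2 * T.n p.2.1

def m3ex_B (p : R3) : ℝ :=
  (W.F (p.1 - S.q p.2.2) + W.E (p.1 - S.q p.2.2)) * S.b p.2.2 * T.ξ p.2.1 -
    Fo p.1 * S.o p.2.2 * T.ξ p.2.1

def m3ex_C (p : R3) : ℝ := Fs p.1 * S.ζ p.2.2 * T.ξ p.2.1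

theorem m3ex_smw {f : ℝ → ℝ} (hf : ContDiff ℝ ∞ f) :
    ContDiff ℝ ∞ fun p : R3 => f (p.1 - S.q p.2.2) :=
  hf.comp (contDiff_fst.sub (S.smq.comp (contDiff_snd.comp contDiff_snd)))

theorem m3ex_smr {f : ℝ → ℝ} (hf : ContDiff ℝ ∞ f) : ContDiff ℝ ∞ fun p : R3 => f p.1 :=
  hf.comp contDiff_fst

theorem m3ex_smt {f : ℝ → ℝ} (hf : ContDiff ℝ ∞ f) : ContDiff ℝ ∞ fun p : R3 => f p.2.1 :=
  hf.comp (contDiff_fst.comp contDiff_snd)

theorem m3ex_sms {f : ℝ → ℝ} (hf : ContDiff ℝ ∞ f) : ContDiff ℝ ∞ fun p : R3 => f p.2.2 :=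
  hf.comp (contDiff_snd.comp contDiff_snd)

theorem m3ex_smH : ContDiff ℝ ∞ (m3ex_H S T W) :=
  contDiff_fst.add (((m3ex_sms S.smb).mul (m3ex_smt T.smm)).mul (m3ex_smw S W.smβ))

theorem m3ex_β0 {p : R3} (hp : p.1 ≤ 2 * u) : W.β (p.1 - S.q p.2.2) = 0 :=
  W.β_lo _ (by linarith [S.q_nn p.2.2])

theorem m3ex_smN (hu : 0 < u) : ContDiff ℝ ∞ (m3ex_N S T W) := by
  refine contDiff_const.add (contDiff_of_supp (U := {p : R3 | 0 < p.1}) (K := {p : R3 | u ≤ p.1})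
    (isOpen_lt continuous_const continuous_fst) (isClosed_le continuous_const continuous_fst)
    (fun p (hp : u ≤ p.1) => hu.trans_le hp) ?_ fun p hp => ?_)
  · exact (((m3ex_sms S.smb).mul (m3ex_smt T.smm)).mul (m3ex_smw S W.smβ)).contDiffOn.div
      contDiffOn_fst fun p (hp : 0 < p.1) => hp.ne'
  · have : p.1 < u := not_le.1 hp
    rw [m3ex_β0 S W (by linarith)]; simp

theorem m3ex_hgt (hu : 0 < u) : hgt (m3ex_N S T W) = m3ex_H S T W := by
  funext p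
  unfold hgt m3ex_N m3ex_H
  by_cases hp : p.1 = 0
  · rw [m3ex_β0 S W (by linarith)]; simp
  · field_simp

variable {Fs Fo}

theorem m3ex_smA (hs : ContDiff ℝ ∞ Fs) : ContDiff ℝ ∞ (m3ex_A S T W Fs) :=
  (((m3ex_smw S W.smF).mul (m3ex_sms S.smζ)).mul (m3ex_smt T.smm)).sub
    (((m3ex_smr hs).mul (m3ex_sms S.smζ)).mul (m3ex_smt T.smn))

theorem m3ex_smB (ho : ContDiff ℝ ∞ Fo) : ContDiff ℝ ∞ (m3ex_B S T W Fo) :=
  ((((m3ex_smw S W.smF).add (m3ex_smw S W.smE)).mul (m3ex_sms S.smb)).mul (m3ex_smt T.smξ)).sub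
    (((m3ex_smr ho).mul (m3ex_sms S.smo)).mul (m3ex_smt T.smξ))

theorem m3ex_smC (hs : ContDiff ℝ ∞ Fs) : ContDiff ℝ ∞ (m3ex_C S T Fs) :=
  ((m3ex_smr hs).mul (m3ex_sms S.smζ)).mul (m3ex_smt T.smξ)

theorem m3ex_dH (r t s : ℝ) (v : R3) : fderiv ℝ (m3ex_H S T W) (r, t, s) v =
    v.1 * (1 + S.b s * T.m t * deriv W.β (r - S.q s)) +
      v.2.1 * (S.b s * deriv T.m t * W.β (r - S.q s)) +
      v.2.2 * (deriv S.b s * T.m t * W.β (r - S.q s) -
        S.b s * T.m t * deriv W.β (r - S.q s) * deriv S.q s) := by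
  refine m3ex_fd ((m3ex_smH S T W).differentiable (by simp) _) ?_ ?_ ?_ v
  · exact (hasDerivAt_id' r).fun_add ((m3ex_wr W.smβ r (S.q s)).const_mul (S.b s * T.m t))
  · exact (((m3ex_hd T.smm t).const_mul (S.b s)).mul_const (W.β (r - S.q s))).const_add r
  · exact ((((m3ex_hd S.smb s).mul_const (T.m t)).fun_mul (m3ex_ws W.smβ S.smq r s)).const_add
      r).congr_deriv (by ring)

theorem m3ex_dA (hs : ContDiff ℝ ∞ Fs) (r t s : ℝ) (v : R3) :
    fderiv ℝ (m3ex_A S T W Fs) (r, t, s) v =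
      v.1 * (deriv W.F (r - S.q s) * S.ζ s * T.m t - deriv Fs r * S.ζ s * T.n t) +
      v.2.1 * (W.F (r - S.q s) * S.ζ s * deriv T.m t - Fs r * S.ζ s * deriv T.n t) +
      v.2.2 * ((W.F (r - S.q s) * (S.b s - S.o s) - deriv W.F (r - S.q s) * deriv S.q s * S.ζ s) *
        T.m t - Fs r * (S.b s - S.o s) * T.n t) := by
  refine m3ex_fd ((m3ex_smA S T W hs).differentiable (by simp) _) ?_ ?_ ?_ v
  · exact (((m3ex_wr W.smF r (S.q s)).mul_const (S.ζ s)).mul_const (T.m t)).fun_sub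
      (((m3ex_hd hs r).mul_const (S.ζ s)).mul_const (T.n t))
  · exact ((m3ex_hd T.smm t).const_mul (W.F (r - S.q s) * S.ζ s)).fun_sub
      ((m3ex_hd T.smn t).const_mul (Fs r * S.ζ s))
  · exact ((((m3ex_ws W.smF S.smq r s).fun_mul (S.dζ s)).mul_const (T.m t)).fun_sub
      (((S.dζ s).const_mul (Fs r)).mul_const (T.n t))).congr_deriv (by ring)

theorem m3ex_dB (ho : ContDiff ℝ ∞ Fo) (r t s : ℝ) : ∃ c : ℝ, ∀ v : R3,
    fderiv ℝ (m3ex_B S T W Fo) (r, t, s) v =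
      v.1 * ((deriv W.F (r - S.q s) + deriv W.E (r - S.q s)) * S.b s * T.ξ t -
        deriv Fo r * S.o s * T.ξ t) +
      v.2.1 * (((W.F (r - S.q s) + W.E (r - S.q s)) * S.b s - Fo r * S.o s) * (T.m t - T.n t)) +
      v.2.2 * c := by
  refine ⟨_, m3ex_fd ((m3ex_smB S T W ho).differentiable (by simp) _) ?_ ?_
    (((((m3ex_ws W.smF S.smq r s).fun_add (m3ex_ws W.smE S.smq r s)).fun_mul
      (m3ex_hd S.smb s)).mul_const (T.ξ t)).fun_sub
      (((m3ex_hd S.smo s).const_mul (Fo r)).mul_const (T.ξ t)))⟩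
  · exact ((((m3ex_wr W.smF r (S.q s)).fun_add (m3ex_wr W.smE r (S.q s))).mul_const
      (S.b s)).mul_const (T.ξ t)).fun_sub (((m3ex_hd ho r).mul_const (S.o s)).mul_const (T.ξ t))
  · exact (((T.dξ t).const_mul ((W.F (r - S.q s) + W.E (r - S.q s)) * S.b s)).fun_sub
      ((T.dξ t).const_mul (Fo r * S.o s))).congr_deriv (by ring)

theorem m3ex_dC (hs : ContDiff ℝ ∞ Fs) (r t s : ℝ) (v : R3) :
    fderiv ℝ (m3ex_C S T Fs) (r, t, s) v = v.1 * (deriv Fs r * S.ζ s * T.ξ t) +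
      v.2.1 * (Fs r * S.ζ s * (T.m t - T.n t)) + v.2.2 * (Fs r * (S.b s - S.o s) * T.ξ t) := by
  refine m3ex_fd ((m3ex_smC S T hs).differentiable (by simp) _) ?_ ?_ ?_ v
  · exact ((m3ex_hd hs r).mul_const (S.ζ s)).mul_const (T.ξ t)
  · exact (T.dξ t).const_mul (Fs r * S.ζ s)
  · exact ((S.dζ s).const_mul (Fs r)).mul_const (T.ξ t)

theorem m3ex_Y (hs : ContDiff ℝ ∞ Fs) (ho : ContDiff ℝ ∞ Fo) (r t s : ℝ) :
    fld (m3ex_A S T W Fs) (m3ex_B S T W Fo) (r, t, s) =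
      (1 + ((W.F (r - S.q s) * (S.b s - S.o s) - deriv W.F (r - S.q s) * deriv S.q s * S.ζ s) *
          T.m t - Fs r * (S.b s - S.o s) * T.n t) -
        ((W.F (r - S.q s) + W.E (r - S.q s)) * S.b s - Fo r * S.o s) * (T.m t - T.n t),
      (deriv W.F (r - S.q s) + deriv W.E (r - S.q s)) * S.b s * T.ξ t - deriv Fo r * S.o s * T.ξ t,
      -(deriv W.F (r - S.q s) * S.ζ s * T.m t - deriv Fs r * S.ζ s * T.n t)) := by
  obtain ⟨c, hc⟩ := m3ex_dB S T W ho r t s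
  unfold fld
  simp only [m3ex_dA S T W hs, hc, one_mul, zero_mul, add_zero, zero_add]

theorem m3ex_lam (hs : ContDiff ℝ ∞ Fs) (r t s : ℝ) (v : R3) :
    lam3 (m3ex_A S T W Fs) (m3ex_B S T W Fo) (m3ex_C S T Fs) (r, t, s) v =
      -(v.1 * (deriv Fs r * S.ζ s * T.ξ t)) + v.2.1 * ((W.F (r - S.q s) - Fs r) * S.ζ s * T.m t) +
        v.2.2 * ((W.F (r - S.q s) + W.E (r - S.q s) - Fs r) * S.b s * T.ξ t +
          (Fs r - Fo r) * S.o s * T.ξ t) := by
  have e : lam3 (m3ex_A S T W Fs) (m3ex_B S T W Fo) (m3ex_C S T Fs) (r, t, s) v =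
      m3ex_A S T W Fs (r, t, s) * v.2.1 + m3ex_B S T W Fo (r, t, s) * v.2.2 -
        fderiv ℝ (m3ex_C S T Fs) (r, t, s) v := rfl
  rw [e, m3ex_dC S T hs]
  unfold m3ex_A m3ex_B
  ring

/-- The sign table. -/
theorem m3ex_pos (hu : 0 < u) (hL : 0 < L) (hs : ContDiff ℝ ∞ Fs) (ho : ContDiff ℝ ∞ Fo)
    (s1 : ∀ r, -W.g0 ≤ Fs r ∧ Fs r ≤ 0) (s2 : ∀ r, 2 * u ≤ r → Fs r = -W.g0)
    (o1 : ∀ r, -W.g0 ≤ Fo r ∧ Fo r ≤ 0) (o2 : ∀ r, r ≤ b0 + 8 * u → Fo r = 0)
    (hδ : W.g0 * (S.K * δ) < 1) (r t s : ℝ) (hp : ¬(b0 * W.E r - 1 = 0 ∧ t = 0 ∧ s = 0)) :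
    0 < fderiv ℝ (m3ex_H S T W) (r, t, s) (fld (m3ex_A S T W Fs) (m3ex_B S T W Fo) (r, t, s)) := by
  rw [m3ex_dH, m3ex_Y S T W hs ho]
  dsimp only
  obtain ⟨w, hw⟩ : ∃ w, w = r - S.q s := ⟨_, rfl⟩
  rw [← hw]
  have hq := S.q_nn s
  have hb := S.b_nn s
  have hoo := S.o_nn s
  by_cases hm : T.m t = 0
  · have hm' : deriv T.m t = 0 := m3ex_min fun z => by rw [hm]; exact T.m_nn z
    have k1 : 0 ≤ W.F w + W.E w - Fs r := by
      rcases le_total (2 * u) r with h | h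
      · rw [s2 r h]; linarith only [W.F_ge w]
      · rw [W.F_lo w (by linarith)]; linarith [W.E_nn w, (s1 r).2]
    have k2 := mul_nonneg (mul_nonneg k1 hb) (T.n_nn t)
    have k3 : S.o s * T.n t ≤ S.K * δ :=
      mul_le_mul (S.o_le s) (T.n_le t) (T.n_nn t) (hoo.trans (S.o_le s))
    have k4 := mul_le_mul_of_nonneg_left k3 W.g0_nn
    have k5 := mul_nonneg (show 0 ≤ Fs r - Fo r + W.g0 by linarith [(s1 r).1, (o1 r).2])
      (mul_nonneg hoo (T.n_nn t))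
    rw [hm, hm']
    linarith only [hδ, k2, k4, k5]
  have hn : T.n t = 0 := (T.mn t).resolve_left hm
  have hm0 : 0 < T.m t := lt_of_le_of_ne (T.m_nn t) (Ne.symm hm)
  have hx : T.m t * W.β w ≤ 1 := mul_le_one₀ (T.m_le t) (W.β_nn w) (W.β_le w)
  have t2 := S.sg s _ hx
  have t3 := T.sg t
  have u2 : 0 ≤ (deriv S.q s + deriv S.b s * (T.m t * W.β w)) * S.ζ s * (-deriv W.F w * T.m t) :=
    mul_nonneg t2 (mul_nonneg (neg_nonneg.2 (W.d1 w)) hm0.le)
  have u3 : 0 ≤ S.b s ^ 2 * W.β w * ((deriv W.F w + deriv W.E w) * (deriv T.m t * T.ξ t)) :=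
    mul_nonneg (mul_nonneg (sq_nonneg _) (W.β_nn w)) (mul_nonneg_of_nonpos_of_nonpos (W.d2 w) t3)
  rw [hn]
  by_cases hb0 : S.b s = 0
  · have k1 : 0 ≤ (Fo r - W.F w) * S.o s := by
      by_cases h : S.o s = 0
      · rw [h, mul_zero]
      refine mul_nonneg ?_ hoo
      rcases le_total r (b0 + 8 * u) with h' | h'
      · rw [o2 r h']; linarith [W.F_le w]
      · have h1 : |s| ≤ L + a / 2 := le_of_not_ge fun k => h (S.far s k).2.2
        rw [W.F_hi w (by linarith only [hw, h', h1, S.q_le s h1])]; linarith only [o1, (o1 r).1]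
    have k2 := mul_nonneg k1 hm0.le
    rw [hb0]
    linarith only [u2, k2]
  have ho0 : S.o s = 0 := (S.bo s).resolve_left hb0
  have hb1 : 0 < S.b s := lt_of_le_of_ne hb (Ne.symm hb0)
  rw [ho0]
  have key : (1 + ((W.F w * (S.b s - 0) - deriv W.F w * deriv S.q s * S.ζ s) * T.m t -
      Fs r * (S.b s - 0) * 0) - ((W.F w + W.E w) * S.b s - Fo r * 0) * (T.m t - 0)) *
        (1 + S.b s * T.m t * deriv W.β w) +
      ((deriv W.F w + deriv W.E w) * S.b s * T.ξ t - deriv Fo r * 0 * T.ξ t) *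
        (S.b s * deriv T.m t * W.β w) +
      -(deriv W.F w * S.ζ s * T.m t - deriv Fs r * S.ζ s * 0) *
        (deriv S.b s * T.m t * W.β w - S.b s * T.m t * deriv W.β w * deriv S.q s) =
      (1 - S.b s * T.m t * W.E w) * (1 + S.b s * T.m t * deriv W.β w) +
      (deriv S.q s + deriv S.b s * (T.m t * W.β w)) * S.ζ s * (-deriv W.F w * T.m t) +
      S.b s ^ 2 * W.β w * ((deriv W.F w + deriv W.E w) * (deriv T.m t * T.ξ t)) := by ring
  rw [key]
  by_cases hE : W.E w = 0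
  · have := mul_nonneg (mul_pos hb1 hm0).le (W.dβ w hE)
    rw [hE]
    linarith only [u2, u3, this]
  rw [W.dβ' w (by linarith only [hu, hE, (W.E_supp w hE).1])]
  have u1 : (1 - S.b s * T.m t * W.E w) * (1 + S.b s * T.m t * -W.E w) =
      (1 - S.b s * T.m t * W.E w) ^ 2 := by ring
  rw [u1]
  have u1' := sq_nonneg (1 - S.b s * T.m t * W.E w)
  by_cases h1 : s = 0
  · by_cases h2 : t = 0
    · have i := S.inn 0 (by simpa using hL.le)
      have h3 : 1 - S.b s * T.m t * W.E w ≠ 0 := by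
        intro h
        refine hp ⟨?_, h2, h1⟩
        rw [hw, h1, h2, i.1, i.2.1, T.m0] at h
        simp only [ne_eq, OfNat.ofNat_ne_zero, not_false_eq_true, zero_pow, mul_zero, sub_zero,
          mul_one] at h
        linarith only [h]
      have := pow_pos (abs_pos.2 h3) 2
      rw [sq_abs] at this
      linarith only [u2, u3, this]
    · have := mul_pos (mul_pos (pow_pos hb1 2) (W.β_pos w hE))
        (mul_pos_of_neg_of_neg (W.d3 w hE).2 (T.sg' t hm h2))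
      linarith only [u2, u1', this]
  · have := mul_pos (S.sg' s _ hx hb0 h1) (mul_pos (neg_pos.2 (W.d3 w hE).1) hm0)
    linarith only [u3, u1', this]

theorem m3ex_s0 (hL : 0 < L) : S.b 0 = b0 ∧ S.q 0 = 0 ∧ S.o 0 = 0 ∧ deriv S.b 0 = 0 ∧
    deriv S.q 0 = 0 ∧ deriv S.o 0 = 0 ∧ deriv (deriv S.b) 0 = 0 ∧
    deriv (deriv S.q) 0 = 2 * S.c := by
  have i := S.inn 0 (by simpa using hL.le)
  have nb : ∀ᶠ s in 𝓝 (0 : ℝ), |s| ≤ L := by
    filter_upwards [Icc_mem_nhds (show -L < 0 by linarith) hL] with s hs using abs_le.2 hs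
  have eb : S.b =ᶠ[𝓝 0] fun _ => b0 := nb.mono fun s hs => (S.inn s hs).1
  have eq : S.q =ᶠ[𝓝 0] fun s => S.c * s ^ 2 := nb.mono fun s hs => (S.inn s hs).2.1
  have e1 : deriv (fun s : ℝ => S.c * s ^ 2) = fun s => S.c * (2 * s) := funext fun s =>
    (HasDerivAt.const_mul S.c (by simpa using hasDerivAt_pow 2 s)).deriv
  refine ⟨i.1, by simpa using i.2.1, i.2.2.1, ?_, ?_, ?_, ?_, ?_⟩
  · rw [eb.deriv_eq]; simp
  · rw [eq.deriv_eq, e1]; simp
  · exact m3ex_min fun z => by rw [i.2.2.1]; exact S.o_nn z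
  · rw [eb.deriv.deriv_eq]; simp
  · rw [eq.deriv.deriv_eq, e1]
    exact (((hasDerivAt_id' (0 : ℝ)).const_mul 2).const_mul S.c).deriv.trans (by ring)

theorem m3ex_t0 : T.n 0 = 0 ∧ deriv T.m 0 = 0 ∧ deriv T.n 0 = 0 := by
  have h : T.n 0 = 0 := (T.mn 0).resolve_left (by rw [T.m0]; exact one_ne_zero)
  exact ⟨h, m3ex_max fun z => by rw [T.m0]; exact T.m_le z,
    m3ex_min fun z => by rw [h]; exact T.n_nn z⟩

theorem m3ex_DY (hL : 0 < L) (hs : ContDiff ℝ ∞ Fs) (ho : ContDiff ℝ ∞ Fo) (r : ℝ) (v : R3) :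
    fderiv ℝ (fld (m3ex_A S T W Fs) (m3ex_B S T W Fo)) (r, 0, 0) v =
      (-(b0 * deriv W.E r * v.1), b0 * (deriv W.F r + deriv W.E r) * v.2.1,
        -(b0 * deriv W.F r * v.2.2)) := by
  obtain ⟨b1, q1, o1, b2, q2, o2, b3, q3⟩ := m3ex_s0 S hL
  obtain ⟨n1, m2, n2⟩ := m3ex_t0 T
  have z0 := S.ζ0
  have x0 := T.ξ0
  have m1 := T.m0
  rw [m3ex_fd ((m3ex_smfld (m3ex_smA S T W hs) (m3ex_smB S T W ho)).differentiable (by simp) _)
    (a := (-(b0 * deriv W.E r), 0, 0)) (b := (0, b0 * (deriv W.F r + deriv W.E r), 0))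
    (c := (0, 0, -(b0 * deriv W.F r)))]
  · ext <;> simp <;> ring
  · have e : (fun x => fld (m3ex_A S T W Fs) (m3ex_B S T W Fo) (x, 0, 0)) =
        fun x => (1 - b0 * W.E x, (0 : ℝ), (0 : ℝ)) := by
      funext x
      rw [m3ex_Y S T W hs ho, b1, q1, o1, z0, x0, m1, n1, sub_zero x]
      ext <;> simp <;> ring
    rw [e]
    exact (((m3ex_hd W.smE r).const_mul b0).const_sub 1).prodMk (hasDerivAt_const r _)
  · have e : (fun y => fld (m3ex_A S T W Fs) (m3ex_B S T W Fo) (r, y, 0)) =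
        fun y => (1 + (-(W.E r * b0) * T.m y + (W.F r + W.E r - Fs r) * b0 * T.n y),
          b0 * (deriv W.F r + deriv W.E r) * T.ξ y, (0 : ℝ)) := by
      funext y
      rw [m3ex_Y S T W hs ho, b1, q1, o1, z0, sub_zero r]
      refine Prod.ext ?_ (Prod.ext ?_ ?_) <;> dsimp only <;> ring
    rw [e]
    refine (((((m3ex_hd T.smm 0).const_mul _).fun_add ((m3ex_hd T.smn 0).const_mul _)).const_add
      1).prodMk (((T.dξ 0).const_mul _).prodMk (hasDerivAt_const _ _))).congr_deriv ?_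
    rw [m1, m2, n1, n2]
    simp
  · have e : (fun z => fld (m3ex_A S T W Fs) (m3ex_B S T W Fo) (r, 0, z)) =
        fun z => (1 - deriv W.F (r - S.q z) * deriv S.q z * S.ζ z - W.E (r - S.q z) * S.b z +
          (Fo r - W.F (r - S.q z)) * S.o z, (0 : ℝ), -(deriv W.F (r - S.q z) * S.ζ z)) := by
      funext z
      rw [m3ex_Y S T W hs ho, x0, m1, n1]
      ext <;> simp <;> ring
    rw [e]
    have f1 := m3ex_ws (m3ex_sd W.smF) S.smq r 0
    refine ((((((f1.fun_mul (m3ex_hd (m3ex_sd S.smq) 0)).fun_mul (S.dζ 0)).const_sub 1).fun_sub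
      ((m3ex_ws W.smE S.smq r 0).fun_mul (m3ex_hd S.smb 0))).fun_add
      (((m3ex_ws W.smF S.smq r 0).const_sub (Fo r)).fun_mul (m3ex_hd S.smo 0))).prodMk
      ((hasDerivAt_const _ _).prodMk (f1.fun_mul (S.dζ 0)).fun_neg)).congr_deriv ?_
    rw [b1, q1, o1, b2, q2, o2, z0, sub_zero r]
    ext <;> simp <;> ring

theorem m3ex_DD (hL : 0 < L) (r : ℝ) (hr : 3 * u < r) (v v' : R3) :
    fderiv ℝ (fderiv ℝ (m3ex_H S T W)) (r, 0, 0) v v' =
      -(b0 * deriv W.E r * v.1 * v'.1) + b0 * deriv (deriv T.m) 0 * W.β r * v.2.1 * v'.2.1 +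
        b0 * W.E r * (2 * S.c) * v.2.2 * v'.2.2 := by
  obtain ⟨b1, q1, o1, b2, q2, o2, b3, q3⟩ := m3ex_s0 S hL
  obtain ⟨n1, m2, n2⟩ := m3ex_t0 T
  have m1 := T.m0
  have hd : DifferentiableAt ℝ (fderiv ℝ (m3ex_H S T W)) (r, 0, 0) :=
    ((m3ex_smH S T W).fderiv_right (m := ∞) le_rfl).differentiable (by simp) _
  have e0 : fderiv ℝ (fderiv ℝ (m3ex_H S T W)) (r, 0, 0) v v' =
      fderiv ℝ (fun p => fderiv ℝ (m3ex_H S T W) p v') (r, 0, 0) v := by
    rw [fderiv_clm_apply hd (differentiableAt_const _)]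
    simp
  have β1 := W.dβ' r hr
  have β2 : deriv (deriv W.β) r = -deriv W.E r := by
    have : deriv W.β =ᶠ[𝓝 r] fun w => -W.E w :=
      mem_of_superset (Ioi_mem_nhds hr) fun w hw => W.dβ' w hw
    rw [this.deriv_eq]
    exact (m3ex_hd W.smE r).fun_neg.deriv
  rw [e0, m3ex_fd (hd.clm_apply (differentiableAt_const _)) (a := -(b0 * deriv W.E r * v'.1))
    (b := b0 * deriv (deriv T.m) 0 * W.β r * v'.2.1) (c := b0 * W.E r * (2 * S.c) * v'.2.2)]
  · simp only [smul_eq_mul]; ring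
  · have e : (fun x => fderiv ℝ (m3ex_H S T W) (x, 0, 0) v') =
        fun x => v'.1 * (1 + b0 * deriv W.β x) := by
      funext x
      rw [m3ex_dH, b1, q1, b2, q2, m1, m2, sub_zero x]
      ring
    rw [e]
    refine ((((m3ex_hd (m3ex_sd W.smβ) r).const_mul b0).const_add 1).const_mul v'.1).congr_deriv ?_
    rw [β2]; ring
  · have e : (fun y => fderiv ℝ (m3ex_H S T W) (r, y, 0) v') =
        fun y => v'.1 + (v'.1 * b0 * deriv W.β r * T.m y + v'.2.1 * b0 * W.β r * deriv T.m y) := by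
      funext y
      rw [m3ex_dH, b1, q1, b2, q2, sub_zero r]
      ring
    rw [e]
    refine ((((m3ex_hd T.smm 0).const_mul _).fun_add
      ((m3ex_hd (m3ex_sd T.smm) 0).const_mul _)).const_add v'.1).congr_deriv ?_
    rw [m2]; ring
  · have e : (fun z => fderiv ℝ (m3ex_H S T W) (r, 0, z) v') =
        fun z => v'.1 * (1 + S.b z * deriv W.β (r - S.q z)) +
          v'.2.2 * (deriv S.b z * W.β (r - S.q z) - S.b z * deriv W.β (r - S.q z) * deriv S.q z) := by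
      funext z
      rw [m3ex_dH, m1, m2]
      ring
    rw [e]
    have f1 := (m3ex_hd S.smb 0).fun_mul (m3ex_ws (m3ex_sd W.smβ) S.smq r 0)
    refine (((f1.const_add 1).const_mul v'.1).fun_add
      ((((m3ex_hd (m3ex_sd S.smb) 0).fun_mul (m3ex_ws W.smβ S.smq r 0)).fun_sub
        (f1.fun_mul (m3ex_hd (m3ex_sd S.smq) 0))).const_mul v'.2.2)).congr_deriv ?_
    rw [b1, q1, b2, q2, b3, q3, sub_zero r, β1]
    ring

end Model

theorem exists_M3 {L a η P0 P1 P2 R : ℝ} (hL : 0 < L) (ha : 0 < a) (hη : 0 < η) (hP0 : 0 < P0)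
    (hP1 : 0 < P1) (hP : P1 < P2) (hR : 0 < R) : Nonempty (M3 L a η P0 P1 P2 R) := by
  obtain ⟨b0, hb1, hb2⟩ := exists_between hP
  have hb : 0 < b0 := hP1.trans hb1
  obtain ⟨u, hu, hu1, hu2, hu3⟩ : ∃ u : ℝ, 0 < u ∧ 8 * u ≤ P0 ∧ u ≤ P1 ∧ b0 + 10 * u ≤ P2 := by
    refine ⟨min (min (P0 / 8) P1) ((P2 - b0) / 10), lt_min (by positivity) (by linarith only [hb2]), ?_, ?_, ?_⟩
    · linarith only [min_le_left (min (P0 / 8) P1) ((P2 - b0) / 10), min_le_left (P0 / 8) P1]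
    · exact (min_le_left _ _).trans (min_le_right _ _)
    · linarith only [min_le_right (min (P0 / 8) P1) ((P2 - b0) / 10)]
  obtain ⟨S⟩ := m3ex_exS hL ha hb hu
  obtain ⟨W⟩ := m3ex_exW hu (hu2.trans_lt hb1)
  have hK : 0 ≤ S.K := (S.o_nn 0).trans (S.o_le 0)
  have hg := W.g0_nn
  obtain ⟨δ, hδ0, hδ⟩ : ∃ δ : ℝ, 0 < δ ∧ W.g0 * (S.K * δ) < 1 := by
    refine ⟨1 / (W.g0 * S.K + 1), by positivity, ?_⟩
    rw [← mul_assoc, mul_one_div, div_lt_one (by positivity)]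
    linarith
  obtain ⟨T⟩ := m3ex_exT hη hδ0 ((div_lt_one hb).2 hb1)
  obtain ⟨S2, a1, a2, a3, a4, -⟩ := exists_step (show u < 2 * u by linarith)
  obtain ⟨S3, c1, c2, c3, c4, -⟩ := exists_step (show b0 + 8 * u < b0 + 9 * u by linarith)
  obtain ⟨S4, d1, d2, d3, -, -⟩ := exists_step (show 3 * u < 4 * u by linarith)
  obtain ⟨th, K0, t1, t2, t3, t4, -⟩ := m3ex_even (show 0 ≤ L + a / 2 by linarith only [hL, ha])
    (show L + a / 2 < L + 3 * a / 4 by linarith only [ha])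
  obtain ⟨Fs, hFs⟩ : ∃ Fs : ℝ → ℝ, Fs = fun r => -W.g0 * S2 r := ⟨_, rfl⟩
  obtain ⟨Fo, hFo⟩ : ∃ Fo : ℝ → ℝ, Fo = fun r => -W.g0 * S3 r := ⟨_, rfl⟩
  have hs : ContDiff ℝ ∞ Fs := by rw [hFs]; exact contDiff_const.mul a1
  have ho : ContDiff ℝ ∞ Fo := by rw [hFo]; exact contDiff_const.mul c1
  have s0 : ∀ r, r ≤ u → Fs r = 0 := fun r hr => by rw [hFs]; simp [a2 r hr]
  have s1 : ∀ r, -W.g0 ≤ Fs r ∧ Fs r ≤ 0 := fun r => by
    rw [hFs]; constructor <;> linarith only [hg, a4, (a4 r).1, (a4 r).2, mul_nonneg_of_nonpos_of_nonpos (Mathlib.Tactic.Linarith.sub_nonpos_of_le hg) (Mathlib.Tactic.Linarith.sub_nonpos_of_le (a4 r).right), mul_nonneg_of_nonpos_of_nonpos (Mathlib.Tactic.Linarith.sub_nonpos_of_le hg) (Mathlib.Tactic.Linarith.sub_nonpos_of_le (a4 r).left)]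
  have s2 : ∀ r, 2 * u ≤ r → Fs r = -W.g0 := fun r hr => by rw [hFs]; simp [a3 r hr]
  have o1 : ∀ r, -W.g0 ≤ Fo r ∧ Fo r ≤ 0 := fun r => by
    rw [hFo]; constructor <;> linarith only [hg, c4, (c4 r).1, (c4 r).2, mul_nonneg_of_nonpos_of_nonpos (Mathlib.Tactic.Linarith.sub_nonpos_of_le hg) (Mathlib.Tactic.Linarith.sub_nonpos_of_le (c4 r).right), mul_nonneg_of_nonpos_of_nonpos (Mathlib.Tactic.Linarith.sub_nonpos_of_le hg) (Mathlib.Tactic.Linarith.sub_nonpos_of_le (c4 r).left)]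
  have o2 : ∀ r, r ≤ b0 + 8 * u → Fo r = 0 := fun r hr => by rw [hFo]; simp [c2 r hr]
  have o3 : ∀ r, b0 + 9 * u ≤ r → Fo r = -W.g0 := fun r hr => by rw [hFo]; simp [c3 r hr]
  have E0 : ∀ w, w ≤ 5 * u ∨ 6 * u ≤ w → W.E w = 0 := fun w hw => by
    by_contra h
    rcases hw with k | k <;> linarith only [k, h, (W.E_supp w h).1, (W.E_supp w h).2]
  have hp0 := T.p0_pos
  obtain ⟨μ0, μ1, μ2, μ3⟩ : ∃ μ0 : ℝ, 1 ≤ μ0 ∧ R ≤ μ0 * η ∧ R ≤ μ0 * T.p0 := by
    have k1 : 0 < R / η := by positivity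
    have k2 : 0 < R / T.p0 := by positivity
    refine ⟨1 + R / η + R / T.p0, by linarith only [k1, k2], ?_, ?_⟩
    · rw [← div_le_iff₀ hη]; linarith only [k2]
    · rw [← div_le_iff₀ hp0]; linarith only [k1]
  have hH := m3ex_hgt S T W hu
  have cw : Continuous fun p : R3 => p.1 - S.q p.2.2 := (m3ex_smw S contDiff_id).continuous
  have ψ0 : ∀ p : R3, 4 * u < p.1 - S.q p.2.2 →
      (fun p : R3 => 1 - S4 (p.1 - S.q p.2.2)) =ᶠ[𝓝 p] fun _ => 0 := fun p hp =>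
    (cw.continuousAt.eventually (lt_mem_nhds hp)).mono fun z hz => by simp [d3 _ hz.le]
  have ψ1 : ∀ p : R3, p.1 - S.q p.2.2 < 3 * u →
      (fun p : R3 => 1 - S4 (p.1 - S.q p.2.2)) =ᶠ[𝓝 p] fun _ => 1 := fun p hp =>
    (cw.continuousAt.eventually (gt_mem_nhds hp)).mono fun z hz => by simp [d2 _ hz.le]
  refine ⟨⟨m3ex_N S T W, m3ex_A S T W Fs, m3ex_B S T W Fo, m3ex_C S T Fs,
    fun p => 1 - S4 (p.1 - S.q p.2.2), fun s => 1 + (μ0 - 1) * (1 - th s),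
    fun r => b0 * W.E r - 1, u, hu, m3ex_smN S T W hu, m3ex_smA S T W hs, m3ex_smB S T W ho,
    m3ex_smC S T hs, contDiff_const.sub (m3ex_smw S d1),
    contDiff_const.add (contDiff_const.mul (contDiff_const.sub t1)),
    (contDiff_const.mul W.smE).sub contDiff_const, fun p => ?_, fun p hp => ?_, ?_, ?_,
    fun r hr => ?_, ?_, fun s => ?_, fun s hs => ?_, fun s hs => ?_, fun p h1 h2 => ?_,
    fun p h1 h2 => ?_⟩⟩
  · unfold m3ex_N
    rcases le_total p.1 (2 * u) with h | h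
    · rw [m3ex_β0 S W h]; simp
    · have := div_nonneg (mul_nonneg (mul_nonneg (S.b_nn p.2.2) (T.m_nn p.2.1))
        (W.β_nn (p.1 - S.q p.2.2))) (show 0 ≤ p.1 by linarith only [hu, h])
      linarith only [this]
  · have hq := S.q_nn p.2.2
    unfold m3ex_N m3ex_A m3ex_B m3ex_C
    rw [m3ex_β0 S W (by linarith only [hu, hp]), W.F_lo _ (by linarith only [hu, hp, hq]), E0 _ (Or.inl (by linarith only [hu, hp, hq])), s0 _ hp,
      o2 _ (by linarith only [hP1, hb1, hu, hp])]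
    simp
  · rintro ⟨r, t, s⟩ hp
    dsimp only at hp
    have k : (S.b s * T.m t * W.β (r - S.q s) = 0) ∧ deriv Fs r * S.ζ s * T.ξ t = 0 ∧
        (W.F (r - S.q s) - Fs r) * S.ζ s * T.m t = 0 ∧
        (W.F (r - S.q s) + W.E (r - S.q s) - Fs r) * S.b s * T.ξ t +
          (Fs r - Fo r) * S.o s * T.ξ t = 0 := by
      have far : L + a / 2 ≤ |s| → (S.b s * T.m t * W.β (r - S.q s) = 0) ∧
          deriv Fs r * S.ζ s * T.ξ t = 0 ∧ (W.F (r - S.q s) - Fs r) * S.ζ s * T.m t = 0 ∧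
          (W.F (r - S.q s) + W.E (r - S.q s) - Fs r) * S.b s * T.ξ t +
            (Fs r - Fo r) * S.o s * T.ξ t = 0 := fun h => by
        obtain ⟨h1, h2, h3⟩ := S.far s h
        rw [h1, h2, h3]; simp
      rcases hp with h | h | h | ⟨h, h'⟩
      · rcases le_total (L + a / 2) |s| with h' | h'
        · exact far h'
        · have hq := S.q_le s h'
          rw [W.β_hi _ (by linarith only [hu, hu3, h, hq]), W.F_hi _ (by linarith only [hu, hu3, h, hq]), E0 _ (Or.inr (by linarith only [hu, hu3, h, hq])),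
            m3ex_hi s2 (by linarith only [hP1, hb1, hu, hu3, h]), s2 r (by linarith only [hP1, hb1, hu, hu3, h]), o3 r (by linarith only [hu, hu3, h])]
          simp
      · obtain ⟨h1, h2⟩ := T.far t h
        rw [h1, h2]; simp
      · exact far h
      · obtain ⟨-, -, h1, hq⟩ := S.inn s h
        rw [W.β_hi _ (by linarith only [hu, hu1, h', hq]), W.F_hi _ (by linarith only [hu1, h', hq]), E0 _ (Or.inr (by linarith only [hu, hu1, h', hq])),
          m3ex_hi s2 (by linarith only [hu, hu1, h']), s2 r (by linarith only [hu, hu1, h']), h1]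
        simp
    refine ⟨?_, ContinuousLinearMap.ext fun v => ?_⟩
    · unfold m3ex_N
      dsimp only
      rw [k.1]; simp
    · rw [m3ex_lam S T W hs, k.2.1, k.2.2.1, k.2.2.2]; simp
  · rintro ⟨r, t, s⟩ hp
    rw [hH]
    exact m3ex_pos S T W hu hL hs ho s1 s2 o1 o2 hδ r t s hp
  · obtain ⟨b1, q1, o1', b2, q2, o2', b3, q3⟩ := m3ex_s0 S hL
    obtain ⟨n1, m2, n2⟩ := m3ex_t0 T
    have h1 : b0 * W.E r = 1 := sub_eq_zero.1 hr
    have hE : W.E r ≠ 0 := fun h => by rw [h] at h1; simp at h1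
    obtain ⟨r1, r2⟩ := W.E_supp r hE
    have h2 := W.reg r h1
    refine ⟨by linarith only [r1, r2], by linarith only [hu1, r1, r2], ?_, ?_, ?_, ψ0 _ ?_, fun v hv => ?_⟩
    · rw [(((m3ex_hd W.smE r).const_mul b0).sub_const 1).deriv]
      exact mul_ne_zero hb.ne' h2
    · rw [m3ex_Y S T W hs ho, b1, q1, o1', S.ζ0, T.ξ0, T.m0, n1, sub_zero r]
      ext
      · simp only [Prod.fst_zero]; linarith only [hr]
      · simp
      · simp
    · rw [hH]
      refine ContinuousLinearMap.ext fun v => ?_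
      rw [m3ex_dH, b1, q1, b2, q2, T.m0, m2, sub_zero r, W.dβ' r (by linarith only [r1, r2])]
      simp only [zero_apply]
      rw [show 1 + b0 * 1 * -W.E r = 0 by linarith only [hr]]
      ring
    · show 4 * u < r - S.q 0
      rw [q1]; linarith only [r1, r2]
    · rw [hH, m3ex_DD S T W hL r (by linarith only [r1, r2]), m3ex_DY S T W hL hs ho, h1]
      dsimp only
      obtain ⟨f1, f2⟩ := W.d3 r hE
      have k1 : 0 < (b0 * deriv W.E r) ^ 2 := by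
        have := mul_ne_zero hb.ne' h2
        positivity
      have k2 : 0 < b0 * b0 * W.β r * (deriv (deriv T.m) 0 * (deriv W.F r + deriv W.E r)) :=
        mul_pos (mul_pos (mul_pos hb hb) (W.β_pos r hE)) (mul_pos_of_neg_of_neg T.dd f2)
      have k3 : 0 < 2 * S.c * b0 * -deriv W.F r :=
        mul_pos (mul_pos (mul_pos two_pos S.c_pos) hb) (neg_pos.2 f1)
      have e : -(b0 * deriv W.E r * v.1 * -(b0 * deriv W.E r * v.1)) +
          b0 * deriv (deriv T.m) 0 * W.β r * v.2.1 * (b0 * (deriv W.F r + deriv W.E r) * v.2.1) +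
          1 * (2 * S.c) * v.2.2 * -(b0 * deriv W.F r * v.2.2) =
          (b0 * deriv W.E r) ^ 2 * v.1 ^ 2 +
          b0 * b0 * W.β r * (deriv (deriv T.m) 0 * (deriv W.F r + deriv W.E r)) * v.2.1 ^ 2 +
          2 * S.c * b0 * -deriv W.F r * v.2.2 ^ 2 := by ring
      rw [e]
      have j1 := mul_nonneg k1.le (sq_nonneg v.1)
      have j2 := mul_nonneg k2.le (sq_nonneg v.2.1)
      have j3 := mul_nonneg k3.le (sq_nonneg v.2.2)
      by_cases v1 : v.1 = 0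
      · by_cases v2 : v.2.1 = 0
        · have v3 : v.2.2 ≠ 0 := fun v3 => hv (Prod.ext v1 (Prod.ext v2 v3))
          have := mul_pos k3 (show 0 < v.2.2 ^ 2 by positivity)
          linarith only [j1, j2, this]
        · have := mul_pos k2 (show 0 < v.2.1 ^ 2 by positivity)
          linarith only [j1, j3, this]
      · have := mul_pos k1 (show 0 < v.1 ^ 2 by positivity)
        linarith only [j2, j3, this]
  · rintro ⟨r, t, s⟩ h1 h2
    rw [hH] at h2 ⊢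
    dsimp only at h1
    have h3 : r + S.b s * T.m t * W.β (r - S.q s) ≤ P1 := h2
    have alt : |t| ≤ T.p0 ∨ L + a / 2 ≤ |s| := by
      by_contra h
      push Not at h
      rw [t2 s h.2.le, abs_mul, abs_of_nonneg (by linarith only [μ1])] at h1
      linarith only [μ3, h1, h, μ1, h.1, mul_nonneg_of_nonpos_of_nonpos (Mathlib.Tactic.Linarith.sub_nonpos_of_le μ1) (le_of_lt (Mathlib.Tactic.Linarith.sub_neg_of_lt h.left))]
    have hq := S.q_nn s
    have hqb := S.qb s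
    have hbm := mul_nonneg (S.b_nn s) (T.m_nn t)
    have hr : r ≤ P1 := by linarith only [h3, hbm, mul_nonneg hbm (W.β_nn (r - S.q s))]
    rcases lt_or_ge (4 * u) (r - S.q s) with h | h
    · exact Or.inl (ψ0 _ h)
    have hw : r - S.q s < 3 * u := by
      by_contra k
      have k' := not_lt.1 k
      rw [W.β_mid _ k' (by linarith only [hu, h])] at h3
      rcases alt with j | j
      · have j1 := (div_lt_iff₀ hb).1 (T.inn t j).1
        have j2 := mul_nonneg hq (sub_nonneg.2 (T.m_le t))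
        have j3 := mul_le_mul_of_nonneg_left hqb (T.m_nn t)
        linarith only [hu, h3, k, j1, j2, j3]
      · rw [(S.far s j).1] at h3 hqb
        linarith only [hb1, hu, h3, hqb, k]
    refine Or.inr ⟨ψ1 _ hw, ?_, ?_⟩
    · rw [m3ex_Y S T W hs ho, W.F_lo _ h, E0 _ (Or.inl (by linarith only [hu, h])),
        m3ex_lo W.F_lo (by linarith only [hu, hw]), m3ex_lo (fun w hw => E0 w (Or.inl hw)) (by linarith only [hu, h]),
        o2 r (by linarith only [hb1, hu, hr]), m3ex_lo o2 (by linarith only [hb1, hu, hr])]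
      rcases alt with j | j
      · rw [(T.inn t j).2]; simp
      · obtain ⟨j1, j2, j3⟩ := S.far s j
        rw [j1, j2, j3]; simp
    · rw [m3ex_dH]
      have := mul_nonneg hbm (W.dβ _ (E0 (r - S.q s) (Or.inl (by linarith only [hu, h]))))
      simp only [one_mul, zero_mul, add_zero]
      linarith only [this]
  · have := mul_nonneg (sub_nonneg.2 μ1) (sub_nonneg.2 (t4 s).2)
    show 1 ≤ 1 + (μ0 - 1) * (1 - th s)
    linarith only [this]
  · show R ≤ (1 + (μ0 - 1) * (1 - th s)) * η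
    rw [t2 s (by linarith only [ha, hs])]
    linarith only [μ2]
  · show 1 + (μ0 - 1) * (1 - th s) = 1
    rw [t3 s hs]; ring
  · have hqb := S.qb p.2.2
    rw [(S.far p.2.2 (by linarith only [ha, h1])).1] at hqb
    show 1 - S4 (p.1 - S.q p.2.2) = 1
    rw [d2 _ (by linarith only [hb1, hu, h2, hqb])]; ring
  · have hq := (S.inn p.2.2 h1).2.2.2
    show 1 - S4 (p.1 - S.q p.2.2) = 0
    rw [d3 _ (by linarith only [hu, hu1, h2, hq])]; ring

end Pool.Agent.Work.MP_bf98aa_gt.Ns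
end
end
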