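import Pool.Agent.Work.MP_bf98aa_gt.Ns.Lin
import Pool.Agent.Work.MP_bf98aa_gt.Ns.Cut

-- merged part: Pool.Agent.Work.MP_bf98aa_gt.Ns.Pf
section
/-!
The Pfaffian. Use Work/MP_8c604c_gt/Lam: with om b = dop (io.comp b), om is linear, om (wedge a c) = 2 io a * io c, lmap L (om b) = om (pb L b) (lmap_dop_io), top_lmap, top_lmap_equiv,
aux_add_pow, top_eq_zero_of_ctr, ctr_dop_io, top_sum_pow_ne. For finrank V = 2k+2: jj b phi theta = (k+1) top (2 io phi io theta (om b)^k).
jj_level: b - b' = wedge phi a + wedge theta a' pointwise when b, b' are skew and agree on ker phi inter ker theta (here with es, et: a, a' are explicit); io phi io theta kills these terms in every power.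
PP_graph: phi = phi(es) ds + phi', jj b phi dt = - jj b dt phi is linear in phi, and vanishes for phi' (contract with es).
-/

set_option autoImplicit false
set_option maxSynthPendingDepth 3
set_option linter.unusedSectionVars false
set_option linter.unusedVariables false

open Set Filter Topology Metric
open scoped Manifold ContDiff

noncomputable section
namespace Pool.Agent.Work.MP_bf98aa_gt.Ns

open Pool.Agent.Work.MP_8c604c_gt

variable {V V' V'' : Type} [NormedAddCommGroup V] [NormedSpace ℝ V] [FiniteDimensional ℝ V]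
  [NormedAddCommGroup V'] [NormedSpace ℝ V'] [FiniteDimensional ℝ V']
  [NormedAddCommGroup V''] [NormedSpace ℝ V''] [FiniteDimensional ℝ V''] {m : ℕ}

/-- The two-form of a bilinear map. -/
def pf_om : B2 V →L[ℝ] Lam V := Lam.dop.comp (ContinuousLinearMap.compL ℝ V (B1 V) (Lam V) Lam.io)

theorem pf_om_apply (b : B2 V) : pf_om b = Lam.dop (Lam.io.comp b) := rfl

theorem pf_def (b : B2 V) : pf b = Lam.top (pf_om b ^ (Module.finrank ℝ V / 2)) := rfl

theorem pf_def' (hV : Module.finrank ℝ V = 2 * m + 2) (b : B2 V) :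
    pf b = Lam.top (pf_om b ^ (m + 1)) := by
  rw [pf_def, hV, show (2 * m + 2) / 2 = m + 1 by omega]

theorem pf_lmap (L : V →L[ℝ] V') (b : B2 V') : Lam.lmap L (pf_om b) = pf_om (pb L b) :=
  Lam.lmap_dop_io L b

theorem pf_comm (b : B2 V) (a : Lam V) : Commute (pf_om b) a := Lam.commute_dop_io b a

theorem pf_wedge (φ θ : B1 V) : pf_om (wedge φ θ) = (2 : ℝ) • (Lam.io φ * Lam.io θ) := by
  have h : ∀ φ θ : B1 V, pf_om (φ.smulRight θ) = Lam.io φ * Lam.io θ := fun φ θ => by
    rw [← Lam.dop_smulRight, pf_om_apply]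
    refine congrArg _ (ContinuousLinearMap.ext fun v => ?_)
    rw [ContinuousLinearMap.comp_apply, ContinuousLinearMap.smulRight_apply,
      ContinuousLinearMap.smulRight_apply, map_smul]
  rw [wedge, map_sub, h, h, Lam.io_anti θ, sub_neg_eq_add, two_smul]

theorem pf_kill (φ θ θ' : B1 V) : Lam.io φ * Lam.io θ * (Lam.io φ * Lam.io θ') = 0 := by
  rw [mul_assoc, ← mul_assoc (Lam.io θ), Lam.io_anti θ, neg_mul, mul_neg, mul_assoc, ← mul_assoc,
    Lam.io_sq, zero_mul, neg_zero]

theorem pf_jj (hV : Module.finrank ℝ V = 2 * m + 2) (b : B2 V) (φ θ : B1 V) :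
    jj b φ θ = ((m : ℝ) + 1) * 2 * Lam.top (Lam.io φ * Lam.io θ * pf_om b ^ m) := by
  rw [jj, pf_def' hV, pf_def' hV, map_add, add_comm, Lam.aux_add_pow (pf_comm _)
    (by rw [pf_wedge, smul_mul_smul_comm, pf_kill, smul_zero]), map_add, add_sub_cancel_left,
    pf_wedge, smul_mul_assoc, smul_smul, map_smul, smul_eq_mul]

theorem pf_anti (hV : Module.finrank ℝ V = 2 * m + 2) (b : B2 V) (φ θ : B1 V) :
    jj b φ θ = -jj b θ φ := by
  rw [pf_jj hV, pf_jj hV, Lam.io_anti φ, neg_mul, map_neg, mul_neg]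

theorem pf_ctr {b : B2 V} (hs : Skew b) (v : V) (k : ℕ) : Lam.ctr v (pf_om b ^ (k + 1)) =
    (((k : ℝ) + 1) * 2) • (Lam.io (b v) * pf_om b ^ k) := by
  have h1 : Lam.ctr v (pf_om b) = (2 : ℝ) • Lam.io (b v) := by
    rw [pf_om_apply, Lam.ctr_dop_io, ← map_smul]
    refine congrArg _ (ContinuousLinearMap.ext fun u => ?_)
    rw [_root_.sub_apply, ContinuousLinearMap.flip_apply, hs u v, _root_.smul_apply, smul_eq_mul]
    ring
  induction k with
  | zero => simp [h1]
  | succ k ih =>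
    have h2 : Lam.invol (pf_om b) = pf_om b := Lam.invol_dop_io b
    rw [pow_succ' _ (k + 1), Lam.ctr_mul, ih, h1, h2, mul_smul_comm, ← mul_assoc, (pf_comm b _).eq,
      mul_assoc, ← pow_succ', smul_mul_assoc]
    push_cast
    module

/-- The increment along a covector dual to a vector. -/
theorem pf_dual (hV : Module.finrank ℝ V = 2 * m + 2) {b : B2 V} (hs : Skew b) (φ : B1 V) (v : V) :
    jj b φ (b v) = φ v * pf b := by
  have h := Lam.top_ctr v (Lam.io φ * pf_om b ^ (m + 1))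
  rw [Lam.ctr_io_mul, pf_ctr hs, map_sub, sub_eq_zero, map_smul, mul_smul_comm, map_smul,
    ← mul_assoc] at h
  rw [pf_jj hV, pf_def' hV]
  exact h.symm

theorem contDiff_pf : ContDiff ℝ ∞ (pf : B2 V → ℝ) := by
  exact Lam.top.contDiff.comp ((pf_om (V := V)).contDiff.pow _)

theorem pf_pb (L : V →L[ℝ] V) (b : B2 V) : pf (pb L b) = L.det * pf b := by
  rw [pf_def, ← pf_lmap, ← map_pow, Lam.top_lmap, pf_def]

theorem pf_equiv (L : V ≃L[ℝ] V') : ∃ κ : ℝ, κ ≠ 0 ∧ ∀ b, pf (pb (L : V →L[ℝ] V') b) = κ * pf b := by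
  obtain ⟨κ, h0, h⟩ := Lam.top_lmap_equiv L
  refine ⟨κ, h0, fun b => ?_⟩
  rw [pf_def, ← pf_lmap, ← map_pow, h, pf_def, L.toLinearEquiv.finrank_eq]

theorem pf_bij {L : V →L[ℝ] V'} (hL : Function.Bijective L) :
    ∃ κ : ℝ, κ ≠ 0 ∧ ∀ b, pf (pb L b) = κ * pf b := by
  exact pf_equiv (LinearEquiv.ofBijective (L : V →ₗ[ℝ] V') hL).toContinuousLinearEquiv

theorem pf_ratio {L : V →L[ℝ] V'} (hL : Function.Bijective L) (b c : B2 V') :
    pf (pb L b) / pf (pb L c) = pf b / pf c := by
  obtain ⟨κ, h0, h⟩ := pf_bij hL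
  rw [h, h, mul_div_mul_left _ _ h0]

theorem jj_ratio {L : V →L[ℝ] V'} (hL : Function.Bijective L) (b c : B2 V') (φ θ : B1 V') :
    jj (pb L b) (φ.comp L) (θ.comp L) / pf (pb L c) = jj b φ θ / pf c := by
  obtain ⟨κ, h0, h⟩ := pf_bij hL
  rw [jj, ← pb_wedge, ← pb_add, h, h, h, ← mul_sub, mul_div_mul_left _ _ h0, jj]

theorem nd_of_pf (hV : Module.finrank ℝ V = 2 * m + 2) {b : B2 V} (hs : Skew b) (h : pf b ≠ 0) :
    Nd b := by
  intro u hu
  by_contra h0
  refine h ((pf_def' hV b).trans (Lam.top_eq_zero_of_ctr h0 ?_))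
  rw [pf_ctr hs, show b u = 0 from ContinuousLinearMap.ext hu, map_zero, zero_mul, smul_zero]

theorem pf_ws_ne : pf (ws m) ≠ 0 := by
  let p : Fin m ⊕ Fin m → B1 (VV m) := fun i => (ContinuousLinearMap.proj i).comp (dx m)
  have h : pf_om (ws m) = ∑ i : Fin (m + 1),
      Lam.io ((Fin.cons ((2 : ℝ) • ds m) fun j => (2 : ℝ) • p (Sum.inl j) : Fin (m + 1) → _) i) *
        Lam.io ((Fin.cons (dt m) fun j => p (Sum.inr j) : Fin (m + 1) → _) i) := by
    rw [Fin.sum_univ_succ, ws, wD, pb_sum, map_add, map_sum, add_comm]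
    simp only [Fin.cons_zero, Fin.cons_succ, pb_wedge, pf_wedge, map_smul, smul_mul_assoc, p]
  rw [pf_def' finrank_VV, h]
  refine Lam.top_sum_pow_ne finrank_VV _ _ fun v h1 h2 => ?_
  have k1 : (2 : ℝ) * v.2.2 = 0 := h1 0
  have k2 : v.2.1 = 0 := h2 0
  refine Prod.ext (funext fun i => ?_) (Prod.ext k2 (by simpa using k1))
  rcases i with j | j
  · have k3 : (2 : ℝ) * v.1 (Sum.inl j) = 0 := h1 j.succ
    simpa using k3
  · exact h2 j.succ

theorem pf_ne (hV : Module.finrank ℝ V = 2 * m + 2) {b : B2 V} (hs : Skew b) (h : Nd b) :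
    pf b ≠ 0 := by
  obtain ⟨L, hL⟩ := ld' hV hs h
  obtain ⟨κ, -, k⟩ := pf_equiv L
  exact fun e => pf_ws_ne (m := m) (by rw [← hL, k, e, mul_zero])

theorem pf_add_wedge (b : B2 V) (φ θ : B1 V) : pf (b + wedge φ θ) = pf b + jj b φ θ := by
  rw [jj, add_sub_cancel]

theorem jj_add (hV : Module.finrank ℝ V = 2 * m + 2) (b : B2 V) (φ θ θ' : B1 V) :
    jj b φ (θ + θ') = jj b φ θ + jj b φ θ' := by
  simp only [pf_jj hV, map_add, mul_add, add_mul]

theorem jj_smul (hV : Module.finrank ℝ V = 2 * m + 2) (b : B2 V) (φ θ : B1 V) (r : ℝ) :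
    jj b φ (r • θ) = r * jj b φ θ := by
  simp only [pf_jj hV, map_smul, mul_smul_comm, smul_mul_assoc, smul_eq_mul]
  ring

theorem jj_zero (b : B2 V) (φ : B1 V) : jj b φ 0 = 0 := by
  rw [jj, wedge_zero_right, add_zero, sub_self]

theorem jj_sum (hV : Module.finrank ℝ V = 2 * m + 2) (b : B2 V) (φ : B1 V) {κ : Type}
    (s : Finset κ) (θ : κ → B1 V) : jj b φ (∑ i ∈ s, θ i) = ∑ i ∈ s, jj b φ (θ i) := by
  simp only [pf_jj hV, map_sum, Finset.mul_sum, Finset.sum_mul]

theorem jj_add_wedge (hV : Module.finrank ℝ V = 2 * m + 2) (b : B2 V) (φ θ θ' : B1 V) :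
    jj (b + wedge φ θ') φ θ = jj b φ θ := by
  have h : ∀ k : ℕ, Lam.io φ * Lam.io θ * pf_om (b + wedge φ θ') ^ k =
      Lam.io φ * Lam.io θ * pf_om b ^ k := fun k => by
    induction k with
    | zero => rw [pow_zero, pow_zero]
    | succ k ih =>
      rw [pow_succ, ← mul_assoc, ih, map_add, mul_add, mul_assoc _ _ (pf_om (wedge φ θ')),
        ← (pf_comm (wedge φ θ') _).eq, ← mul_assoc, pf_wedge, mul_smul_comm, pf_kill, smul_zero,
        zero_mul, add_zero, mul_assoc, ← pow_succ]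
  rw [pf_jj hV, pf_jj hV, h]

theorem PP_ws : PP (ws m) = 1 := by
  exact div_self pf_ws_ne

theorem continuous_PP : Continuous (PP : B2 (VV m) → ℝ) := by
  exact contDiff_pf.continuous.div_const _

theorem continuous_JJ : Continuous (JJ : B2 (VV m) → ℝ) := by
  exact ((contDiff_pf.continuous.comp (continuous_id.add continuous_const)).sub
    contDiff_pf.continuous).div_const _

theorem PP_pb (L : VV m →L[ℝ] VV m) (b : B2 (VV m)) : PP (pb L b) = L.det * PP b := by
  rw [PP, pf_pb, mul_div_assoc, PP]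

theorem nd_of_PP {b : B2 (VV m)} (hs : Skew b) (h : PP b ≠ 0) : Nd b := by
  exact nd_of_pf finrank_VV hs fun e => h (by rw [PP, e, zero_div])

theorem PP_ne {b : B2 (VV m)} (hs : Skew b) (h : Nd b) : PP b ≠ 0 := by
  exact div_ne_zero (pf_ne finrank_VV hs h) pf_ws_ne

theorem pf_es : ws m (es m) = dt m := by
  refine ContinuousLinearMap.ext fun v => ?_
  simp [ws_apply, es, dt_apply]

theorem PP_graph (φ : B1 (VV m)) : PP (ws m + wedge φ (dt m)) = 1 + φ (es m) := by
  rw [PP, pf_add_wedge, ← pf_es, pf_dual finrank_VV skew_ws, add_div, div_self pf_ws_ne,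
    mul_div_cancel_right₀ _ pf_ws_ne]

theorem JJ_ws : JJ (ws m) = 1 := by
  rw [JJ, ← pf_es, pf_dual finrank_VV skew_ws, mul_div_cancel_right₀ _ pf_ws_ne]
  rfl

theorem jj_level {b b' : B2 (VV m)} (hs : Skew b) (hs' : Skew b')
    (h : ∀ u v : XX m, b (u, 0, 0) (v, 0, 0) = b' (u, 0, 0) (v, 0, 0)) : JJ b = JJ b' := by
  have hc := hs.sub hs'
  have h0 : ∀ u v : XX m, (b - b') (u, 0, 0) (v, 0, 0) = 0 := fun u v => sub_eq_zero.2 (h u v)
  have e : b = b' + wedge (ds m) ((b - b') (es m)) +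
      wedge (dt m) ((b - b') (et m) + (b - b') (es m) (et m) • ds m) := by
    rw [add_assoc, ← sub_eq_iff_eq_add']
    generalize b - b' = c at hc h0
    refine b2_ext fun u v => ?_
    have k : ∀ y : VV m, y = (y.1, 0, 0) + y.2.1 • et m + y.2.2 • es m := fun y => by
      simp [et, es]
    have k1 : ∀ y z : VV m, c y z = c y (z.1, 0, 0) + z.2.1 * c y (et m) + z.2.2 * c y (es m) :=
      fun y z => by
        conv_lhs => rw [k z]
        simp only [map_add, map_smul, smul_eq_mul]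
    have k2 := k1 v u
    have k3 := k1 (u.1, 0, 0) v
    have k4 := k1 (es m) u
    have k5 := k1 (et m) u
    rw [hc v u, hc v (u.1, 0, 0), hc v (et m), hc v (es m)] at k2
    rw [h0, hc _ (et m), hc _ (es m)] at k3
    rw [hc.self] at k4 k5
    rw [hc (et m) (es m)] at k5
    simp only [_root_.add_apply, _root_.smul_apply, wedge_apply, smul_eq_mul, ds_apply, dt_apply]
    linear_combination -k2 + k3 + v.2.2 * k4 + v.2.1 * k5
  rw [JJ, JJ, e, pf_anti finrank_VV, jj_add_wedge finrank_VV, ← pf_anti finrank_VV,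
    jj_add_wedge finrank_VV]

theorem JJ_close (m : ℕ) {ε : ℝ} (hε : 0 < ε) : ∃ δ : ℝ, 0 < δ ∧
    ∀ b : B2 (VV m), Skew b → LevClose δ b → |JJ b - 1| ≤ ε := by
  obtain ⟨δ, h0, h⟩ := Metric.continuousAt_iff.1 (continuous_JJ (m := m)).continuousAt ε hε
  refine ⟨δ / 2, by linarith, fun b hs hb => ?_⟩
  let π : VV m →L[ℝ] VV m := (ContinuousLinearMap.inl ℝ (XX m) (ℝ × ℝ)).comp (dx m)
  have hπ : ∀ u, ‖π u‖ ≤ ‖u‖ := fun u => by
    show ‖(u.1, (0 : ℝ × ℝ))‖ ≤ ‖u‖
    rw [Prod.norm_mk, norm_zero, max_eq_left (norm_nonneg _)]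
    exact norm_fst_le u
  have h1 : ‖pb π (b - ws m)‖ ≤ δ / 2 := by
    refine ContinuousLinearMap.opNorm_le_bound₂ _ (by linarith) fun u v => ?_
    rw [pb_apply]
    refine (hb (π u) (π v) rfl rfl).trans ?_
    gcongr
    exacts [hπ u, hπ v]
  have h2 : JJ b = JJ (ws m + pb π (b - ws m)) := by
    refine jj_level hs (skew_ws.add (skew_pb (hs.sub skew_ws) π)) fun u v => ?_
    rw [_root_.add_apply, _root_.add_apply, pb_apply]
    exact (add_sub_cancel _ _).symm
  have h3 := h (x := ws m + pb π (b - ws m)) (by rw [dist_self_add_left]; linarith)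
  rw [JJ_ws, ← h2] at h3
  exact h3.le

/-- The vector dual to `dt` crosses the levels of `s` upwards. -/
theorem cross_pos {b : B2 (VV m)} (hs : Skew b) (hP : 0 < PP b) (hJ : 0 < JJ b) {v : VV m}
    (hv : b v = dt m) : 0 < v.2.2 := by
  rw [JJ, ← hv, pf_dual finrank_VV hs, mul_div_assoc] at hJ
  exact (pos_iff_pos_of_mul_pos hJ).2 hP

end Pool.Agent.Work.MP_bf98aa_gt.Ns
end
end

-- merged part: Pool.Agent.Work.MP_bf98aa_gt.Ns.Morse
section
-- merged part: Pool.Agent.Work.MP_bf98aa_gt.Ns.Par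
section
/-!
Forms on a manifold read in parametrisations.
Hints. Everything reduces to the chain rule for mfderiv (mfderiv_comp, mfderiv_eq_fderiv, contMDiffOn_iff_contDiffOn) and loc1_tr / loc2_tr: to read a form in e near y, pass through the chart at e y.
chart_D_center: mfderiv of the chart at its centre is the identity (mfderiv_chartAt..., tangentCoordChange, or hasMFDerivAt_atlas_symm and tangentBundleCore coordChange_self).
sm1_push1: near a point of e.target use loc1_tr and loc1_push1; off the compact (closed) set e '' K the form vanishes near the point.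
-/

set_option autoImplicit false
set_option maxSynthPendingDepth 3
set_option linter.unusedSectionVars false
set_option linter.unusedVariables false

open Set Filter Topology Metric MeasureTheory
open scoped Manifold ContDiff

noncomputable section
namespace Pool.Agent.Work.MP_bf98aa_gt.Ns

open Pool.Agent.Work.MP_8c604c_gt

variable {V V' E : Type} [NormedAddCommGroup V] [NormedSpace ℝ V] [FiniteDimensional ℝ V]
  [NormedAddCommGroup V'] [NormedSpace ℝ V'] [FiniteDimensional ℝ V']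
  [NormedAddCommGroup E] [NormedSpace ℝ E] [FiniteDimensional ℝ E] {M : Type} [TopologicalSpace M]
  [ChartedSpace E M] [IsManifold 𝓘(ℝ, E) ∞ M] {m : ℕ}

theorem Par.map_src (e : Par V E M) {y : V} (hy : y ∈ e.source) : e y ∈ e.target :=
  e.map_source' hy

theorem Par.map_tgt (e : Par V E M) {z : M} (hz : z ∈ e.target) : e.inv z ∈ e.source :=
  e.map_target' hz

theorem Par.inv_apply (e : Par V E M) {y : V} (hy : y ∈ e.source) : e.inv (e y) = y :=
  e.left_inv' hy

theorem Par.apply_inv (e : Par V E M) {z : M} (hz : z ∈ e.target) : e (e.inv z) = z :=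
  e.right_inv' hz

theorem Par.inj (e : Par V E M) : InjOn e e.source :=
  e.toOpenPartialHomeomorph.injOn

theorem Par.cont (e : Par V E M) : ContinuousOn e e.source :=
  e.continuousOn_toFun

theorem Par.isOpen_image (e : Par V E M) {O : Set V} (hO : IsOpen O) (h : O ⊆ e.source) :
    IsOpen (e '' O) :=
  e.toOpenPartialHomeomorph.isOpen_image_of_subset_source hO h

theorem Par.isCompact_image (e : Par V E M) {K : Set V} (hK : IsCompact K) (h : K ⊆ e.source) :
    IsCompact (e '' K) :=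
  hK.image_of_continuousOn (e.cont.mono h)

theorem par_md (e : Par V E M) {y : V} (hy : y ∈ e.source) :
    MDifferentiableAt 𝓘(ℝ, V) 𝓘(ℝ, E) e y :=
  (e.sm.contMDiffAt (e.open_source.mem_nhds hy)).mdifferentiableAt (by simp)

theorem par_md' (e : Par V E M) {z : M} (hz : z ∈ e.target) :
    MDifferentiableAt 𝓘(ℝ, E) 𝓘(ℝ, V) e.inv z :=
  (e.sm'.contMDiffAt (e.open_target.mem_nhds hz)).mdifferentiableAt (by simp)

theorem Par.D'_D (e : Par V E M) {y : V} (hy : y ∈ e.source) :
    (e.D' (e y)).comp (e.D y) = ContinuousLinearMap.id ℝ V := by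
  have h1 : (e.inv ∘ e) =ᶠ[𝓝 y] id := by
    filter_upwards [e.open_source.mem_nhds hy] with z hz using e.inv_apply hz
  exact ((mfderiv_comp y (par_md' e (e.map_src hy)) (par_md e hy)).symm.trans
    h1.mfderiv_eq).trans mfderiv_id

theorem Par.D_D' (e : Par V E M) {y : V} (hy : y ∈ e.source) :
    (e.D y).comp (e.D' (e y)) = ContinuousLinearMap.id ℝ E := by
  have h1 : (e ∘ e.inv) =ᶠ[𝓝 (e y)] id := by
    filter_upwards [e.open_target.mem_nhds (e.map_src hy)] with z hz using e.apply_inv hz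
  have h2 : (e.D (e.inv (e y))).comp (e.D' (e y)) = ContinuousLinearMap.id ℝ E :=
    ((mfderiv_comp (e y) (par_md e (e.map_tgt (e.map_src hy)))
      (par_md' e (e.map_src hy))).symm.trans h1.mfderiv_eq).trans mfderiv_id
  rwa [e.inv_apply hy] at h2

theorem Par.D_bij (e : Par V E M) {y : V} (hy : y ∈ e.source) : Function.Bijective (e.D y) :=
  ⟨Function.LeftInverse.injective (g := e.D' (e y)) fun v => DFunLike.congr_fun (e.D'_D hy) v,
    Function.RightInverse.surjective (g := e.D' (e y)) fun v => DFunLike.congr_fun (e.D_D' hy) v⟩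

theorem chart_source (p : M) : (Par.chart E p).source = (chartAt E p).target := rfl

theorem chart_target (p : M) : (Par.chart E p).target = (chartAt E p).source := rfl

theorem chart_apply (p : M) (y : E) : Par.chart E p y = (chartAt E p).symm y := rfl

theorem chart_inv (p z : M) : (Par.chart E p).inv z = chartAt E p z := rfl

theorem chart_D_center (z : M) :
    (Par.chart E z).D (chartAt E z z) = ContinuousLinearMap.id ℝ E := by
  have h := mfderivWithin_range_extChartAt_symm (I := 𝓘(ℝ, E)) (x := z)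
  rw [modelWithCornersSelf_coe, range_id, mfderivWithin_univ] at h
  exact h

theorem isOpen_tr (e : Par V E M) (e' : Par V' E M) : IsOpen (e.source ∩ e ⁻¹' e'.target) :=
  e.cont.isOpen_inter_preimage e.open_source e'.open_target

theorem contDiffOn_tr (e : Par V E M) (e' : Par V' E M) :
    ContDiffOn ℝ ∞ (fun y => e'.inv (e y)) (e.source ∩ e ⁻¹' e'.target) :=
  contMDiffOn_iff_contDiffOn.1 (e'.sm'.comp (e.sm.mono inter_subset_left) fun _ hz => hz.2)

theorem D_comp {F : V → M} (e' : Par V' E M) {φ : V → V'} {y : V}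
    (h : F =ᶠ[𝓝 y] fun z => e' (φ z)) (hφ : DifferentiableAt ℝ φ y) (hy : φ y ∈ e'.source) :
    mD E F y = (e'.D (φ y)).comp (fderiv ℝ φ y) := by
  have h1 := mfderiv_comp (I := 𝓘(ℝ, V)) y (par_md e' hy) hφ.mdifferentiableAt
  rw [mfderiv_eq_fderiv] at h1
  exact h.mfderiv_eq.trans h1

theorem loc1_comp (e : Par V E M) (e' : Par V' E M) {φ : V → V'} {y : V}
    (h : (e : V → M) =ᶠ[𝓝 y] fun z => e' (φ z)) (hφ : DifferentiableAt ℝ φ y) (hy : φ y ∈ e'.source)
    (α : M → B1 E) : loc1 e α y = pull1 φ (loc1 e' α) y := by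
  unfold loc1 pull1
  rw [Par.D, D_comp e' h hφ hy, h.self_of_nhds]
  rfl

theorem loc2_comp (e : Par V E M) (e' : Par V' E M) {φ : V → V'} {y : V}
    (h : (e : V → M) =ᶠ[𝓝 y] fun z => e' (φ z)) (hφ : DifferentiableAt ℝ φ y) (hy : φ y ∈ e'.source)
    (w : M → B2 E) : loc2 e w y = pull2 φ (loc2 e' w) y := by
  unfold loc2 pull2
  rw [Par.D, D_comp e' h hφ hy, h.self_of_nhds, pb_comp]

theorem par_nhds (e : Par V E M) (e' : Par V' E M) {y : V} (hy : y ∈ e.source)
    (hy' : e y ∈ e'.target) : e.source ∩ e ⁻¹' e'.target ∈ 𝓝 y :=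
  (isOpen_tr e e').mem_nhds ⟨hy, hy'⟩

theorem par_ev (e : Par V E M) (e' : Par V' E M) {y : V} (hy : y ∈ e.source)
    (hy' : e y ∈ e'.target) : (e : V → M) =ᶠ[𝓝 y] fun z => e' (e'.inv (e z)) := by
  filter_upwards [par_nhds e e' hy hy'] with z hz using (e'.apply_inv hz.2).symm

theorem par_tr (e : Par V E M) (e' : Par V' E M) {y : V} (hy : y ∈ e.source)
    (hy' : e y ∈ e'.target) : ContDiffAt ℝ ∞ (fun z => e'.inv (e z)) y :=
  (contDiffOn_tr e e').contDiffAt (par_nhds e e' hy hy')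

theorem par_d1 {φ : V → V'} {y : V} (h : ContDiffAt ℝ ∞ φ y) : DifferentiableAt ℝ φ y :=
  h.differentiableAt (by simp)

theorem par_D (e : Par V E M) (e' : Par V' E M) {y : V} (hy : y ∈ e.source)
    (hy' : e y ∈ e'.target) :
    e.D y = (e'.D (e'.inv (e y))).comp (fderiv ℝ (fun z => e'.inv (e z)) y) :=
  D_comp e' (par_ev e e' hy hy') (par_d1 (par_tr e e' hy hy')) (e'.map_tgt hy')

theorem par_bij (e : Par V E M) (e' : Par V' E M) {y : V} (hy : y ∈ e.source)
    (hy' : e y ∈ e'.target) : Function.Bijective (fderiv ℝ (fun z => e'.inv (e z)) y) := by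
  have h := e.D_bij hy
  rw [par_D e e' hy hy', ContinuousLinearMap.coe_comp] at h
  exact (Function.Bijective.of_comp_iff' (e'.D_bij (e'.map_tgt hy')) _).1 h

theorem loc1_tr (e : Par V E M) (e' : Par V' E M) {y : V} (hy : y ∈ e.source)
    (hy' : e y ∈ e'.target) (α : M → B1 E) :
    loc1 e α y = pull1 (fun z => e'.inv (e z)) (loc1 e' α) y :=
  loc1_comp e e' (par_ev e e' hy hy') (par_d1 (par_tr e e' hy hy')) (e'.map_tgt hy') α

theorem loc2_tr (e : Par V E M) (e' : Par V' E M) {y : V} (hy : y ∈ e.source)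
    (hy' : e y ∈ e'.target) (w : M → B2 E) :
    loc2 e w y = pull2 (fun z => e'.inv (e z)) (loc2 e' w) y :=
  loc2_comp e e' (par_ev e e' hy hy') (par_d1 (par_tr e e' hy hy')) (e'.map_tgt hy') w

theorem eq_of_loc2 (e : Par V E M) {y : V} (hy : y ∈ e.source) {b c : B2 E}
    (h : pb (e.D y) b = pb (e.D y) c) : b = c := by
  rw [← pb_id b, ← pb_id c, ← e.D_D' hy, pb_comp, pb_comp, h]

theorem par_at1 (e : Par V E M) (e' : Par V' E M) {y : V} (hy : y ∈ e.source)
    (hy' : e y ∈ e'.target) {α : M → B1 E} (h : ContDiffOn ℝ ∞ (loc1 e' α) e'.source) :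
    ContDiffAt ℝ ∞ (loc1 e α) y :=
  ((contDiffOn_pull1 (isOpen_tr e e') (contDiffOn_tr e e') (fun _ hz => e'.map_tgt hz.2) h).congr
    fun _ hz => loc1_tr e e' hz.1 hz.2 α).contDiffAt (par_nhds e e' hy hy')

theorem par_at2 (e : Par V E M) (e' : Par V' E M) {y : V} (hy : y ∈ e.source)
    (hy' : e y ∈ e'.target) {w : M → B2 E} (h : ContDiffOn ℝ ∞ (loc2 e' w) e'.source) :
    ContDiffAt ℝ ∞ (loc2 e w) y :=
  ((contDiffOn_pull2 (isOpen_tr e e') (contDiffOn_tr e e') (fun _ hz => e'.map_tgt hz.2) h).congr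
    fun _ hz => loc2_tr e e' hz.1 hz.2 w).contDiffAt (par_nhds e e' hy hy')

theorem Sm1.loc {α : M → B1 E} (h : Sm1 α) (e : Par V E M) :
    ContDiffOn ℝ ∞ (loc1 e α) e.source :=
  fun y hy =>
    (par_at1 e (Par.chart E (e y)) hy (mem_chart_source E (e y)) (h (e y))).contDiffWithinAt

theorem Sm2.loc {w : M → B2 E} (h : Sm2 w) (e : Par V E M) :
    ContDiffOn ℝ ∞ (loc2 e w) e.source :=
  fun y hy =>
    (par_at2 e (Par.chart E (e y)) hy (mem_chart_source E (e y)) (h (e y))).contDiffWithinAt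

theorem Cl2.loc {w : M → B2 E} (h : Cl2 w) (e : Par V E M) : Form2On e.source (loc2 e w) := by
  refine form_of_local fun y hy => ⟨_, isOpen_tr e (Par.chart E (e y)),
    ⟨hy, mem_chart_source E (e y)⟩, ?_⟩
  exact (Form2On.pull (isOpen_tr e _) (Par.chart E (e y)).open_source (contDiffOn_tr e _)
    (fun _ hz => (Par.chart E (e y)).map_tgt hz.2) (h (e y))).congr (isOpen_tr e _)
    fun _ hz => loc2_tr e _ hz.1 hz.2 w

theorem Cl2.sm2 {w : M → B2 E} (h : Cl2 w) : Sm2 w :=
  fun p => (h p).smooth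

theorem par_center (z : M) : Par.chart E z (chartAt E z z) = z :=
  (chartAt E z).left_inv (mem_chart_source E z)

theorem par_center1 (α : M → B1 E) (z : M) : loc1 (Par.chart E z) α (chartAt E z z) = α z := by
  rw [loc1, chart_D_center, par_center, ContinuousLinearMap.comp_id]

theorem par_center2 (w : M → B2 E) (z : M) : loc2 (Par.chart E z) w (chartAt E z z) = w z := by
  rw [loc2, chart_D_center, par_center, pb_id]

theorem Cl2.skew {w : M → B2 E} (h : Cl2 w) (z : M) : Skew (w z) := by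
  rw [← par_center2 w z]
  exact (h z).skew _ (mem_chart_target E z)

theorem Cl2.add {w w' : M → B2 E} (h : Cl2 w) (h' : Cl2 w') : Cl2 fun z => w z + w' z :=
  fun p => ((h p).add (chartAt E p).open_target (h' p)).congr (chartAt E p).open_target
    fun _ _ => pb_add _ _ _

theorem contDiffOn_fn {f : M → ℝ} (hf : Sm0 E f) (e : Par V E M) :
    ContDiffOn ℝ ∞ (fun y => f (e y)) e.source :=
  contMDiffOn_iff_contDiffOn.1 (hf.comp_contMDiffOn e.sm)

theorem loc1_dfM {f : M → ℝ} (hf : Sm0 E f) (e : Par V E M) {y : V} (hy : y ∈ e.source) :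
    loc1 e (dfM E f) y = fderiv ℝ (fun z => f (e z)) y := by
  have h := mfderiv_comp y (hf.mdifferentiableAt (x := e y) (by simp)) (par_md e hy)
  rw [mfderiv_eq_fderiv] at h
  exact h.symm

theorem sm1_dfM {f : M → ℝ} (hf : Sm0 E f) : Sm1 (dfM E f) :=
  fun p => ((contDiffOn_fn hf (Par.chart E p)).fderiv_of_isOpen (chartAt E p).open_target
    (by simp)).congr fun _ hy => loc1_dfM hf _ hy

theorem dfM_comp {f : M → ℝ} (hf : Sm0 E f) {g : ℝ → ℝ} (hg : ContDiff ℝ ∞ g) (z : M) :
    dfM E (fun x => g (f x)) z = deriv g (f z) • dfM E f z := by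
  have h := mfderiv_comp z (par_d1 (hg.contDiffAt (x := f z))).mdifferentiableAt
    (hf.mdifferentiableAt (x := z) (by simp))
  rw [mfderiv_eq_fderiv] at h
  refine Eq.trans h ?_
  ext v
  change fderiv ℝ g (f z) (dfM E f z v) = deriv g (f z) * dfM E f z v
  rw [fderiv_eq_smul_deriv, smul_eq_mul, mul_comm]

theorem sm1_zero : Sm1 (fun _ : M => (0 : B1 E)) :=
  fun _ => (contDiffOn_const (c := 0)).congr fun _ _ => ContinuousLinearMap.zero_comp _

theorem Sm1.add {α β : M → B1 E} (h : Sm1 α) (h' : Sm1 β) : Sm1 fun z => α z + β z :=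
  fun p => ((h p).add (h' p)).congr fun _ _ => ContinuousLinearMap.add_comp _ _ _

theorem Sm1.sub {α β : M → B1 E} (h : Sm1 α) (h' : Sm1 β) : Sm1 fun z => α z - β z :=
  fun p => ((h p).sub (h' p)).congr fun _ _ => ContinuousLinearMap.sub_comp _ _ _

theorem Sm1.smul {g : M → ℝ} (hg : Sm0 E g) {α : M → B1 E} (h : Sm1 α) :
    Sm1 fun z => g z • α z :=
  fun p => ((contDiffOn_fn hg (Par.chart E p)).smul (h p)).congr
    fun _ _ => ContinuousLinearMap.smul_comp _ _ _

theorem sm1_sum {κ : Type} (s : Finset κ) {α : κ → M → B1 E} (h : ∀ i ∈ s, Sm1 (α i)) :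
    Sm1 fun z => ∑ i ∈ s, α i z :=
  fun p => (ContDiffOn.sum fun i hi => h i hi p).congr
    fun _ _ => ContinuousLinearMap.finsetSum_comp _ _

theorem sm2_zero : Sm2 (fun _ : M => (0 : B2 E)) :=
  fun _ => (contDiffOn_const (c := 0)).congr fun _ _ => pb_zero _

theorem Sm2.add {w w' : M → B2 E} (h : Sm2 w) (h' : Sm2 w') : Sm2 fun z => w z + w' z :=
  fun p => ((h p).add (h' p)).congr fun _ _ => pb_add _ _ _

theorem Sm2.sub {w w' : M → B2 E} (h : Sm2 w) (h' : Sm2 w') : Sm2 fun z => w z - w' z :=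
  fun p => ((h p).sub (h' p)).congr fun _ _ => pb_sub _ _ _

theorem Sm2.smul {g : M → ℝ} (hg : Sm0 E g) {w : M → B2 E} (h : Sm2 w) :
    Sm2 fun z => g z • w z :=
  fun p => ((contDiffOn_fn hg (Par.chart E p)).smul (h p)).congr fun _ _ => pb_smul _ _ _

theorem sm2_sum {κ : Type} (s : Finset κ) {w : κ → M → B2 E} (h : ∀ i ∈ s, Sm2 (w i)) :
    Sm2 fun z => ∑ i ∈ s, w i z :=
  fun p => (ContDiffOn.sum fun i hi => h i hi p).congr fun _ _ => pb_sum _ _ _

theorem sm2_wedge {α β : M → B1 E} (h : Sm1 α) (h' : Sm1 β) : Sm2 fun z => wedge (α z) (β z) :=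
  fun p => (contDiff_wedge.comp_contDiffOn ((h p).prodMk (h' p))).congr
    fun _ _ => pb_wedge _ _ _

theorem par_c1 {α : M → B1 E} (h : Sm1 α) (z : M) :
    DifferentiableAt ℝ (loc1 (Par.chart E z) α) (chartAt E z z) :=
  base_diff (chartAt E z).open_target (h z) (mem_chart_target E z)

theorem loc2_dM {α : M → B1 E} (h : Sm1 α) (e : Par V E M) {y : V} (hy : y ∈ e.source) :
    loc2 e (dM α) y = dd (loc1 e α) y := by
  have hy' : e y ∈ (Par.chart E (e y)).target := mem_chart_source E (e y)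
  have h1 : loc1 e α =ᶠ[𝓝 y]
      pull1 (fun z => (Par.chart E (e y)).inv (e z)) (loc1 (Par.chart E (e y)) α) := by
    filter_upwards [par_nhds e _ hy hy'] with z hz using loc1_tr e _ hz.1 hz.2 α
  rw [dd_congr h1, dd_pull1 (par_tr e _ hy hy') (par_c1 h (e y)), loc2, par_D e _ hy hy',
    chart_inv, chart_D_center, ContinuousLinearMap.id_comp]
  rfl

theorem cl2_dM {α : M → B1 E} (h : Sm1 α) : Cl2 (dM α) :=
  fun p => (form_dd (chartAt E p).open_target (h p)).congr (chartAt E p).open_target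
    fun _ hy => loc2_dM h _ hy

theorem par_tend (z : M) : Tendsto (Par.chart E z) (𝓝 (chartAt E z z)) (𝓝 z) :=
  (chartAt E z).tendsto_symm (mem_chart_source E z)

theorem dM_congr {α β : M → B1 E} {z : M} (h : α =ᶠ[𝓝 z] β) : dM α z = dM β z := by
  refine dd_congr ?_
  filter_upwards [(par_tend z).eventually h] with y hy
  rw [loc1, loc1, hy]

theorem dM_zero (z : M) : dM (fun _ : M => (0 : B1 E)) z = 0 := by
  rw [dM, ← dd_const (0 : B1 E) (chartAt E z z)]
  exact dd_congr (.of_forall fun _ => ContinuousLinearMap.zero_comp _)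

theorem dM_add {α β : M → B1 E} (h : Sm1 α) (h' : Sm1 β) (z : M) :
    dM (fun x => α x + β x) z = dM α z + dM β z :=
  (dd_congr (.of_forall fun _ => ContinuousLinearMap.add_comp _ _ _)).trans
    (dd_add (par_c1 h z) (par_c1 h' z))

theorem dM_sub {α β : M → B1 E} (h : Sm1 α) (h' : Sm1 β) (z : M) :
    dM (fun x => α x - β x) z = dM α z - dM β z :=
  (dd_congr (.of_forall fun _ => ContinuousLinearMap.sub_comp _ _ _)).trans
    (dd_sub (par_c1 h z) (par_c1 h' z))

theorem dM_sum {κ : Type} (s : Finset κ) {α : κ → M → B1 E} (h : ∀ i ∈ s, Sm1 (α i)) (z : M) :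
    dM (fun x => ∑ i ∈ s, α i x) z = ∑ i ∈ s, dM (α i) z :=
  (dd_congr (.of_forall fun _ => ContinuousLinearMap.finsetSum_comp _ _)).trans
    (dd_sum s fun i hi => par_c1 (h i hi) z)

theorem dM_smul {g : M → ℝ} (hg : Sm0 E g) {α : M → B1 E} (h : Sm1 α) (z : M) :
    dM (fun x => g x • α x) z = wedge (dfM E g z) (α z) + g z • dM α z := by
  have h1 := dd_smul (base_diff (chartAt E z).open_target (contDiffOn_fn hg (Par.chart E z))
    (mem_chart_target E z)) (par_c1 h z)
  rw [← loc1_dfM hg _ (mem_chart_target E z), par_center1, par_center1, par_center] at h1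
  exact (dd_congr (.of_forall fun _ => ContinuousLinearMap.smul_comp _ _ _)).trans h1

theorem push0_apply (e : Par V E M) (g : V → ℝ) {y : V} (hy : y ∈ e.source) :
    push0 e g (e y) = g y := by
  rw [push0, if_pos (e.map_src hy), e.inv_apply hy]

theorem loc1_push1 (e : Par V E M) (θ : V → B1 V) {y : V} (hy : y ∈ e.source) :
    loc1 e (push1 e θ) y = θ y := by
  rw [loc1, push1, if_pos (e.map_src hy), e.inv_apply hy, ContinuousLinearMap.comp_assoc,
    e.D'_D hy, ContinuousLinearMap.comp_id]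

theorem loc2_push2 (e : Par V E M) (β : V → B2 V) {y : V} (hy : y ∈ e.source) :
    loc2 e (push2 e β) y = β y := by
  rw [loc2, push2, if_pos (e.map_src hy), e.inv_apply hy, ← pb_comp, e.D'_D hy, pb_id]

theorem push0_zero (e : Par V E M) {g : V → ℝ} {K : Set V} (h0 : ∀ y ∈ e.source, y ∉ K → g y = 0)
    {z : M} (hz : z ∉ e '' K) : push0 e g z = 0 := by
  unfold push0
  split_ifs with h
  · exact h0 _ (e.map_tgt h) fun hK => hz ⟨_, hK, e.apply_inv h⟩
  · rfl

theorem push1_zero (e : Par V E M) {θ : V → B1 V} {K : Set V}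
    (h0 : ∀ y ∈ e.source, y ∉ K → θ y = 0) {z : M} (hz : z ∉ e '' K) : push1 e θ z = 0 := by
  unfold push1
  split_ifs with h
  · rw [h0 _ (e.map_tgt h) fun hK => hz ⟨_, hK, e.apply_inv h⟩, ContinuousLinearMap.zero_comp]
  · rfl

theorem push2_zero (e : Par V E M) {β : V → B2 V} {K : Set V}
    (h0 : ∀ y ∈ e.source, y ∉ K → β y = 0) {z : M} (hz : z ∉ e '' K) : push2 e β z = 0 := by
  unfold push2
  split_ifs with h
  · rw [h0 _ (e.map_tgt h) fun hK => hz ⟨_, hK, e.apply_inv h⟩, pb_zero]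
  · rfl

theorem skew_push2 (e : Par V E M) {β : V → B2 V} (h : ∀ y ∈ e.source, Skew (β y)) (z : M) :
    Skew (push2 e β z) := by
  unfold push2
  split_ifs with hz
  · exact skew_pb (h _ (e.map_tgt hz)) _
  · exact skew_zero

theorem par_off [T2Space M] (e : Par V E M) {K : Set V} (hK : IsCompact K) (hKe : K ⊆ e.source)
    {z : M} (hz : z ∉ e.target) : ∀ᶠ x in 𝓝 z, x ∉ e '' K :=
  (e.isCompact_image hK hKe).isClosed.isOpen_compl.mem_nhds
    fun ⟨_, hy, h⟩ => hz (h ▸ e.map_src (hKe hy))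

theorem par_ct (e : Par V E M) {y : V} (hy : y ∈ e.source) : Tendsto e (𝓝 y) (𝓝 (e y)) :=
  e.cont.continuousAt (e.open_source.mem_nhds hy)

theorem sm0_push0 [T2Space M] (e : Par V E M) {g : V → ℝ} {K : Set V} (hK : IsCompact K)
    (hKe : K ⊆ e.source) (hg : ContDiffOn ℝ ∞ g e.source) (h0 : ∀ y ∈ e.source, y ∉ K → g y = 0) :
    Sm0 E (push0 e g) := by
  intro z
  by_cases hz : z ∈ e.target
  · refine ((hg.contMDiffOn.comp e.sm' fun _ hx => e.map_tgt hx).congr fun x hx => ?_).contMDiffAt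
      (e.open_target.mem_nhds hz)
    exact if_pos hx
  · refine (contMDiffAt_const (c := 0)).congr_of_eventuallyEq ?_
    filter_upwards [par_off e hK hKe hz] with x hx using push0_zero e h0 hx

theorem sm1_push1 [T2Space M] (e : Par V E M) {θ : V → B1 V} {K : Set V} (hK : IsCompact K)
    (hKe : K ⊆ e.source) (hθ : ContDiffOn ℝ ∞ θ e.source) (h0 : ∀ y ∈ e.source, y ∉ K → θ y = 0) :
    Sm1 (push1 e θ) := by
  intro p y hy
  refine ContDiffAt.contDiffWithinAt ?_
  by_cases hz : Par.chart E p y ∈ e.target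
  · exact par_at1 _ e hy hz (hθ.congr fun _ hx => loc1_push1 e θ hx)
  · refine (contDiffAt_const (c := 0)).congr_of_eventuallyEq ?_
    filter_upwards [(par_ct (Par.chart E p) hy).eventually (par_off e hK hKe hz)] with x hx
    rw [loc1, push1_zero e h0 hx, ContinuousLinearMap.zero_comp]

theorem sm2_push2 [T2Space M] (e : Par V E M) {β : V → B2 V} {K : Set V} (hK : IsCompact K)
    (hKe : K ⊆ e.source) (hβ : ContDiffOn ℝ ∞ β e.source) (h0 : ∀ y ∈ e.source, y ∉ K → β y = 0) :
    Sm2 (push2 e β) := by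
  intro p y hy
  refine ContDiffAt.contDiffWithinAt ?_
  by_cases hz : Par.chart E p y ∈ e.target
  · exact par_at2 _ e hy hz (hβ.congr fun _ hx => loc2_push2 e β hx)
  · refine (contDiffAt_const (c := 0)).congr_of_eventuallyEq ?_
    filter_upwards [(par_ct (Par.chart E p) hy).eventually (par_off e hK hKe hz)] with x hx
    rw [loc2, push2_zero e h0 hx, pb_zero]

theorem dM_push1 [T2Space M] (e : Par V E M) {θ : V → B1 V} {K : Set V} (hK : IsCompact K)
    (hKe : K ⊆ e.source) (hθ : ContDiffOn ℝ ∞ θ e.source) (h0 : ∀ y ∈ e.source, y ∉ K → θ y = 0)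
    (z : M) : dM (push1 e θ) z = push2 e (dd θ) z := by
  by_cases hz : z ∈ e.target
  · obtain ⟨y, hy, rfl⟩ : ∃ y ∈ e.source, e y = z := ⟨_, e.map_tgt hz, e.apply_inv hz⟩
    refine eq_of_loc2 e hy (((loc2_dM (sm1_push1 e hK hKe hθ h0) e hy).trans
      (dd_congr ?_)).trans (loc2_push2 e (dd θ) hy).symm)
    filter_upwards [e.open_source.mem_nhds hy] with x hx using loc1_push1 e θ hx
  · rw [push2, if_neg hz, ← dM_zero z]
    refine dM_congr ?_
    filter_upwards [par_off e hK hKe hz] with x hx using push1_zero e h0 hx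

theorem rat_loc (e : Par (VV m) E M) {y : VV m} (hy : y ∈ e.source) (w τ : M → B2 E) :
    rat w τ (e y) = PP (loc2 e w y) / PP (loc2 e τ y) := by
  rw [PP, PP, div_div_div_cancel_right₀ pf_ws_ne, loc2, loc2, pf_ratio (e.D_bij hy), rat]

theorem foldM_of_loc (e : Par V E M) {y : V} (hy : y ∈ e.source) {w : M → B2 E} (hw : Sm2 w)
    (hs : Skew (w (e y))) (h : FoldAt (loc2 e w) y) : FoldM w (e y) := by
  have hy' : e y ∈ (Par.chart E (e y)).target := mem_chart_source E (e y)
  have h1 : chartAt E (e y) (e y) ∈ (Par.chart E (e y)).source := mem_chart_target E (e y)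
  have h2 : Par.chart E (e y) (chartAt E (e y) (e y)) ∈ e.target := by
    rw [par_center]
    exact e.map_src hy
  have h3 : e.inv (Par.chart E (e y) (chartAt E (e y) (e y))) = y := by
    rw [par_center, e.inv_apply hy]
  refine (FoldAt.pull (w := loc2 e w) (par_tr _ e h1 h2) (par_bij _ e h1 h2) ?_ ?_ ?_).congr ?_
  · rw [h3]
    exact base_diff e.open_source (hw.loc e) hy
  · rw [h3]
    exact skew_pb hs _
  · rwa [h3]
  · filter_upwards [par_nhds _ e h1 h2] with z hz using (loc2_tr _ e hz.1 hz.2 w).symm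

theorem subM_of_loc (e : Par V E M) {y : V} (hy : y ∈ e.source) {Z : Set M}
    (h : SubAt (e ⁻¹' Z) y) : SubM E Z (e y) := by
  have h1 : chartAt E (e y) (e y) ∈ (Par.chart E (e y)).source := mem_chart_target E (e y)
  have h2 : Par.chart E (e y) (chartAt E (e y) (e y)) ∈ e.target := by
    rw [par_center]
    exact e.map_src hy
  have h3 : e.inv (Par.chart E (e y) (chartAt E (e y) (e y))) = y := by
    rw [par_center, e.inv_apply hy]
  refine (SubAt.pull (Z := e ⁻¹' Z) (isOpen_tr _ e) ⟨h1, h2⟩ (contDiffOn_tr _ e)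
    (par_bij _ e h1 h2).2 (by rwa [h3])).congr ?_
  filter_upwards [par_nhds _ e h1 h2] with z hz
  rw [mem_preimage, mem_preimage, e.apply_inv hz.2]
  rfl

theorem FoldM.congr {w w' : M → B2 E} {z : M} (h : FoldM w z) (e : w =ᶠ[𝓝 z] w') :
    FoldM w' z := by
  refine FoldAt.congr h ?_
  filter_upwards [(par_tend z).eventually e] with y hy
  rw [loc2, loc2, hy]

theorem SubM.congr {Z Z' : Set M} {z : M} (h : SubM E Z z) (e : ∀ᶠ x in 𝓝 z, x ∈ Z ↔ x ∈ Z') :
    SubM E Z' z :=
  SubAt.congr h ((par_tend z).eventually e)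

end Pool.Agent.Work.MP_bf98aa_gt.Ns
end
end

-- merged part: Pool.Agent.Work.MP_bf98aa_gt.Ns.ParB
section
/-!
Constructions of parametrisations, partitions of unity, removing cells.
Hints. par_of_inj: read F in the chart at F y, inverse function theorem (ContDiffAt.toOpenPartialHomeomorph) gives that F is open on U and that the inverse (Function.invFunOn F U) is smooth near F y; the toFun of the result is F itself.
adapted: with c the chart at z, L from ld for b and phi = dfM f z; g x = the point L.symm (x - c z) with last coordinate replaced by f (c.symm x); its derivative at c z is L.symm; invert locally (par_of_inj or toOpenPartialHomeomorph).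
conn_cell: choose rho > 1 with closedBall 0 rho in the source and its image in O; the shell 1 < norm < rho is preconnected (image of sphere x interval, isConnected_sphere); a separation of O minus C extends to O by adding e (ball 0 rho) to the side of the shell.
-/

set_option autoImplicit false
set_option maxSynthPendingDepth 3
set_option linter.unusedSectionVars false
set_option linter.unusedVariables false

open Set Filter Topology Metric MeasureTheory
open scoped Manifold ContDiff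

noncomputable section
namespace Pool.Agent.Work.MP_bf98aa_gt.Ns

open Pool.Agent.Work.MP_8c604c_gt

variable {V V' E : Type} [NormedAddCommGroup V] [NormedSpace ℝ V] [FiniteDimensional ℝ V]
  [NormedAddCommGroup V'] [NormedSpace ℝ V'] [FiniteDimensional ℝ V']
  [NormedAddCommGroup E] [NormedSpace ℝ E] [FiniteDimensional ℝ E] {M : Type} [TopologicalSpace M]
  [ChartedSpace E M] [IsManifold 𝓘(ℝ, E) ∞ M] {m : ℕ}

theorem parb_pre (e : Par V E M) (h : OpenPartialHomeomorph V' V)
    (h1 : ContDiffOn ℝ ∞ h h.source) (h2 : ContDiffOn ℝ ∞ h.symm h.target) :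
    ∃ e' : Par V' E M, e'.source = h.source ∩ h ⁻¹' e.source ∧ ∀ y, e' y = e (h y) :=
  ⟨⟨h.trans e.toOpenPartialHomeomorph,
    e.sm.comp (h1.contMDiffOn.mono inter_subset_left) fun y hy => hy.2,
    h2.contMDiffOn.comp (e.sm'.mono inter_subset_left) fun y hy => hy.2⟩, rfl, fun y => rfl⟩

theorem parb_loc {g : V → V'} {W : Set V} (hW : IsOpen W) (hg : ContDiffOn ℝ ∞ g W) {y : V}
    (hy : y ∈ W) {L : V ≃L[ℝ] V'} (hL : HasFDerivAt g (L : V →L[ℝ] V') y) :
    ∃ h : OpenPartialHomeomorph V V', (h : V → V') = g ∧ y ∈ h.source ∧ h.source ⊆ W ∧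
      ContDiffOn ℝ ∞ h.symm h.target ∧ HasFDerivAt h.symm (L.symm : V' →L[ℝ] V) (g y) := by
  have : CompleteSpace V := FiniteDimensional.complete ℝ V
  have h1 : ∀ x ∈ W, ContDiffAt ℝ ∞ g x := fun x hx => hg.contDiffAt (hW.mem_nhds hx)
  have h2 : IsOpen (W ∩ fderiv ℝ g ⁻¹' range ((↑) : (V ≃L[ℝ] V') → V →L[ℝ] V')) :=
    (hg.continuousOn_fderiv_of_isOpen hW (by simp)).isOpen_inter_preimage hW
      ContinuousLinearEquiv.isOpen
  obtain ⟨h, e1, e2⟩ : ∃ h : OpenPartialHomeomorph V V', (h : V → V') = g ∧ h.source =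
      ((h1 y hy).toOpenPartialHomeomorph g hL (by simp)).source ∩
        (W ∩ fderiv ℝ g ⁻¹' range ((↑) : (V ≃L[ℝ] V') → V →L[ℝ] V')) :=
    ⟨((h1 y hy).toOpenPartialHomeomorph g hL (by simp)).restrOpen _ h2, rfl,
      OpenPartialHomeomorph.restrOpen_source _ _ _⟩
  have h3 : y ∈ h.source := by
    rw [e2]
    exact ⟨(h1 y hy).mem_toOpenPartialHomeomorph_source hL (by simp), hy, L, hL.fderiv.symm⟩
  subst e1
  refine ⟨h, rfl, h3, fun x hx => (e2.subset hx).2.1, fun a ha => ?_, ?_⟩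
  · obtain ⟨-, k1, L', k2⟩ := e2.subset (h.map_target ha)
    refine (h.contDiffAt_symm (f₀' := L') ha ?_ (h1 _ k1)).contDiffWithinAt
    rw [k2]
    exact ((h1 _ k1).differentiableAt (by simp)).hasFDerivAt
  · refine h.hasFDerivAt_symm (h.map_source h3) ?_
    rw [h.left_inv h3]
    exact hL

theorem par_restr (e : Par V E M) {O : Set V} (hO : IsOpen O) :
    ∃ e' : Par V E M, e'.source = e.source ∩ O ∧ ∀ y, e' y = e y := by
  obtain ⟨e', h1, h2⟩ := parb_pre e (OpenPartialHomeomorph.ofSet O hO) contDiffOn_id contDiffOn_id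
  exact ⟨e', h1.trans (inter_comm _ _), h2⟩

theorem par_dif (e : Par V E M) (φ : Dif V) :
    ∃ e' : Par V E M, e'.source = φ ⁻¹' e.source ∧ ∀ y, e' y = e (φ y) := by
  obtain ⟨e', h1, h2⟩ := parb_pre e (Homeomorph.toOpenPartialHomeomorph
    ⟨φ.toEquiv, φ.smooth.continuous, φ.smooth_inv.continuous⟩) φ.smooth.contDiffOn
    φ.smooth_inv.contDiffOn
  exact ⟨e', h1.trans (univ_inter _), h2⟩

theorem par_lin (e : Par V E M) (L : V' ≃L[ℝ] V) :
    ∃ e' : Par V' E M, e'.source = L ⁻¹' e.source ∧ ∀ y, e' y = e (L y) := by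
  obtain ⟨e', h1, h2⟩ := parb_pre e L.toHomeomorph.toOpenPartialHomeomorph L.contDiff.contDiffOn
    L.symm.contDiff.contDiffOn
  exact ⟨e', h1.trans (univ_inter _), h2⟩

theorem par_of_inj {F : V → M} {U : Set V} (hU : IsOpen U)
    (hF : ContMDiffOn 𝓘(ℝ, V) 𝓘(ℝ, E) ∞ F U) (hi : InjOn F U)
    (hd : ∀ y ∈ U, Function.Bijective (mD E F y)) :
    ∃ e : Par V E M, e.source = U ∧ ∀ y, e y = F y := by
  have key : ∀ y ∈ U, map F (𝓝 y) = 𝓝 (F y) ∧
      ContMDiffAt 𝓘(ℝ, E) 𝓘(ℝ, V) ∞ (Function.invFunOn F U) (F y) := by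
    intro y hy
    have hc := mem_chart_source E (F y)
    have hW : IsOpen (U ∩ F ⁻¹' (chartAt E (F y)).source) :=
      hF.continuousOn.isOpen_inter_preimage hU (chartAt E (F y)).open_source
    have hyW : y ∈ U ∩ F ⁻¹' (chartAt E (F y)).source := ⟨hy, hc⟩
    have hg : ContDiffOn ℝ ∞ (fun x => chartAt E (F y) (F x))
        (U ∩ F ⁻¹' (chartAt E (F y)).source) :=
      (contMDiffOn_chart.comp (hF.mono inter_subset_left) fun x hx => hx.2).contDiffOn
    have hg' := (hg.contDiffAt (hW.mem_nhds hyW)).differentiableAt (by simp)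
    have e1 : F =ᶠ[𝓝 y] fun x => Par.chart E (F y) (chartAt E (F y) (F x)) := by
      filter_upwards [hW.mem_nhds hyW] with x hx
      exact ((chartAt E (F y)).left_inv hx.2).symm
    have e2 := D_comp (Par.chart E (F y)) e1 hg' ((chartAt E (F y)).map_source hc)
    rw [chart_D_center, ContinuousLinearMap.id_comp] at e2
    obtain ⟨L, hL⟩ := cut_equiv (hd y hy)
    obtain ⟨h, k1, k2, k3, k4, -⟩ := parb_loc hW hg hyW (L := L) (by
      rw [hL, e2]; exact hg'.hasFDerivAt)
    have k5 : h y = chartAt E (F y) (F y) := by rw [k1]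
    have e3 : map F (𝓝 y) = 𝓝 (F y) := by
      rw [map_congr e1, ← (chartAt E (F y)).symm_map_nhds_eq hc, ← k5, ← h.map_nhds_eq k2, map_map,
        k1]
      rfl
    refine ⟨e3, ?_⟩
    have k6 : ContDiffAt ℝ ∞ h.symm (chartAt E (F y) (F y)) :=
      k4.contDiffAt (h.open_target.mem_nhds (k5 ▸ h.map_source k2))
    refine (k6.contMDiffAt.comp (F y)
      (contMDiffOn_chart.contMDiffAt (chart_source_mem_nhds E (F y)))).congr_of_eventuallyEq ?_
    rw [← e3, EventuallyEq, eventually_map]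
    filter_upwards [h.open_source.mem_nhds k2] with x hx
    have k7 := h.left_inv hx
    rw [k1] at k7
    exact (hi.leftInvOn_invFunOn (k3 hx).1).trans k7.symm
  have sm' : ContMDiffOn 𝓘(ℝ, E) 𝓘(ℝ, V) ∞ (Function.invFunOn F U) (F '' U) := by
    rintro _ ⟨y, hy, rfl⟩
    exact (key y hy).2.contMDiffWithinAt
  have ho : IsOpen (F '' U) := isOpen_iff_mem_nhds.2 (by
    rintro _ ⟨y, hy, rfl⟩
    rw [← (key y hy).1]
    exact image_mem_map (hU.mem_nhds hy))
  exact ⟨⟨⟨⟨hi.toPartialEquiv F U, hF.continuousOn, sm'.continuousOn⟩, hU, ho⟩, hF, sm'⟩, rfl,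
    fun y => rfl⟩

theorem adapted (hE : Module.finrank ℝ E = 2 * m + 2) {f : M → ℝ} (hf : Sm0 E f) {z : M}
    (hz : dfM E f z ≠ 0) {b : B2 E} (hs : Skew b) (hn : Nd b) :
    ∃ (e : Par (VV m) E M) (y : VV m), y ∈ e.source ∧ e y = z ∧ pb (e.D y) b = ws m ∧
      ∀ x ∈ e.source, f (e x) = x.2.2 := by
  obtain ⟨L, l1, l2⟩ := ld hE hs hn hz
  have hc := mem_chart_source E z
  have hx : chartAt E z z ∈ (Par.chart E z).source := (chartAt E z).map_source hc
  have hz0 : Par.chart E z (chartAt E z z) = z := (chartAt E z).left_inv hc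
  have f1 := contDiffOn_fn hf (Par.chart E z)
  have f2 : HasFDerivAt (fun x => f (Par.chart E z x)) (dfM E f z) (chartAt E z z) := by
    have k := loc1_dfM hf (Par.chart E z) hx
    rw [loc1, hz0, chart_D_center, ContinuousLinearMap.comp_id] at k
    rw [k]
    exact ((f1.contDiffAt ((Par.chart E z).open_source.mem_nhds hx)).differentiableAt
      (by simp)).hasFDerivAt
  have g1 : ContDiffOn ℝ ∞ (fun x => (((dx m).comp (L.symm : E →L[ℝ] VV m) x,
      (dt m).comp (L.symm : E →L[ℝ] VV m) x, f (Par.chart E z x)) : VV m))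
      (Par.chart E z).source :=
    (ContinuousLinearMap.contDiff _).contDiffOn.prodMk
      ((ContinuousLinearMap.contDiff _).contDiffOn.prodMk f1)
  have g2 : ((dx m).comp (L.symm : E →L[ℝ] VV m)).prod
      (((dt m).comp (L.symm : E →L[ℝ] VV m)).prod (dfM E f z)) = (L.symm : E →L[ℝ] VV m) := by
    refine ContinuousLinearMap.ext fun v => Prod.ext rfl (Prod.ext rfl ?_)
    have k := congrArg (fun φ : B1 (VV m) => φ (L.symm v)) l2
    simpa [ds_apply] using k
  obtain ⟨h, k1, k2, k3, k4, k5⟩ := parb_loc (Par.chart E z).open_source g1 hx (L := L.symm) (by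
    rw [← g2]
    exact (ContinuousLinearMap.hasFDerivAt _).prodMk
      ((ContinuousLinearMap.hasFDerivAt _).prodMk f2))
  obtain ⟨e, e1, e2⟩ := parb_pre (Par.chart E z) h.symm k4 (k1 ▸ g1.mono k3)
  have k6 : h.symm (h (chartAt E z z)) = chartAt E z z := h.left_inv k2
  have k7 : HasFDerivAt h.symm (L : VV m →L[ℝ] E) (h (chartAt E z z)) := by
    rw [k1]; exact k5
  refine ⟨e, h (chartAt E z z), e1.superset ⟨h.map_source k2, ?_⟩, by rw [e2, k6, hz0], ?_,
    fun x hx' => ?_⟩
  · rw [mem_preimage, k6]; exact hx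
  · rw [Par.D, D_comp (Par.chart E z) (Eventually.of_forall e2) k7.differentiableAt
      (by rw [k6]; exact hx), k6, chart_D_center, ContinuousLinearMap.id_comp, k7.fderiv, l1]
  · have k8 := h.right_inv (e1.subset hx').1
    rw [k1] at k8
    rw [e2]
    exact congrArg (fun p : VV m => p.2.2) k8

theorem std_par (hE : Module.finrank ℝ E = 2 * m + 2) (z : M) {b : B2 E} (hs : Skew b) (hn : Nd b) :
    ∃ e : Par (VV m) E M, 0 ∈ e.source ∧ e 0 = z ∧ pb (e.D 0) b = ws m := by
  obtain ⟨L, l1⟩ := ld' hE hs hn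
  obtain ⟨φ, hφ⟩ := dif_affine (ContinuousLinearEquiv.refl ℝ E) (chartAt E z z)
  obtain ⟨e1, a1, a2⟩ := par_dif (Par.chart E z) φ
  obtain ⟨e, b1, b2⟩ := par_lin e1 L
  have hc := mem_chart_source E z
  have hx : chartAt E z z ∈ (Par.chart E z).source := (chartAt E z).map_source hc
  have k0 : L 0 + chartAt E z z = chartAt E z z := by simp
  have k1 : ∀ y, e y = Par.chart E z (L y + chartAt E z z) := fun y => by
    rw [b2, a2, hφ]; rfl
  have k2 : HasFDerivAt (fun y => L y + chartAt E z z) (L : VV m →L[ℝ] E) 0 :=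
    L.hasFDerivAt.add_const _
  refine ⟨e, ?_, by rw [k1, k0]; exact (chartAt E z).left_inv hc, ?_⟩
  · rw [b1, a1, mem_preimage, mem_preimage, hφ]
    exact k0.symm ▸ hx
  · rw [Par.D, D_comp (Par.chart E z) (Eventually.of_forall k1) k2.differentiableAt
      (by rw [k0]; exact hx), k0, chart_D_center, ContinuousLinearMap.id_comp, k2.fderiv, l1]

theorem exists_pou [CompactSpace M] [T2Space M] {κ : Type} [Fintype κ] {U : κ → Set M}
    (hU : ∀ i, IsOpen (U i)) (hc : ∀ z, ∃ i, z ∈ U i) : ∃ (χ : κ → M → ℝ) (K : κ → Set M),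
      (∀ i, Sm0 E (χ i)) ∧ (∀ i z, 0 ≤ χ i z) ∧ (∀ z, ∑ i, χ i z = 1) ∧ (∀ i, IsCompact (K i)) ∧
      (∀ i, K i ⊆ U i) ∧ ∀ i z, z ∉ K i → χ i z = 0 := by
  obtain ⟨ρ, hρ⟩ := SmoothPartitionOfUnity.exists_isSubordinate 𝓘(ℝ, E) isClosed_univ U hU
    fun z _ => mem_iUnion.2 (hc z)
  refine ⟨fun i => ρ i, fun i => tsupport (ρ i), fun i => (ρ i).contMDiff, ρ.nonneg, fun z => ?_,
    fun i => (isClosed_tsupport _).isCompact, hρ,
    fun i z hz => image_eq_zero_of_notMem_tsupport hz⟩
  rw [← finsum_eq_sum_of_fintype]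
  exact ρ.sum_eq_one (mem_univ z)

/-- A compact subset of the target is the image of a compact subset of the source. -/
theorem Par.exists_compact (e : Par V E M) {K : Set M} (hK : IsCompact K) (h : K ⊆ e.target) :
    ∃ K' : Set V, IsCompact K' ∧ K' ⊆ e.source ∧ e '' K' = K := by
  refine ⟨e.inv '' K, hK.image_of_continuousOn (e.sm'.continuousOn.mono h), ?_, ?_⟩
  · rintro _ ⟨z, hz, rfl⟩
    exact e.map_tgt (h hz)
  · rw [image_image]
    exact (image_congr fun z hz => e.apply_inv (h hz)).trans (image_id' K)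

theorem Cell.isCompact {C : Set M} (h : Cell V E C) : IsCompact C := by
  obtain ⟨e, h1, rfl⟩ := h
  exact e.isCompact_image (isCompact_closedBall _ _) h1

theorem cell_dif (e : Par V E M) (Λ : Dif V) (h : Λ '' closedBall 0 1 ⊆ e.source) :
    Cell V E (e '' (Λ '' closedBall 0 1)) := by
  obtain ⟨e', h1, h2⟩ := par_dif e Λ
  refine ⟨e', h1.symm ▸ image_subset_iff.1 h, ?_⟩
  rw [image_image]
  exact image_congr fun y _ => (h2 y).symm

theorem cell_box (e : Par (VV m) E M) {R a b : ℝ} (hR : 0 < R) (hab : a < b)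
    (h : box m R a b ⊆ e.source) : Cell (VV m) E (e '' box m R a b) := by
  obtain ⟨L, c, h1⟩ := box_eq_image (m := m) hR hab
  obtain ⟨Λ, h2⟩ := dif_affine L c
  rw [h1, ← funext h2] at h ⊢
  exact cell_dif e Λ h

theorem parb_remove {X : Type} [TopologicalSpace X] {O B C : Set X} (hO : IsPreconnected O)
    (hB : IsOpen B) (hC : IsClosed C) (hCB : C ⊆ B) (h : IsPreconnected (B \ C))
    (hBO : B ⊆ O) : IsPreconnected (O \ C) := by
  have key : ∀ u v : Set X, IsOpen u → IsOpen v → O \ C ⊆ u ∪ v → O \ C ∩ (u ∩ v) = ∅ →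
      B \ C ⊆ u → O \ C ⊆ u ∨ O \ C ⊆ v := by
    intro u v hu hv h1 h2 h3
    rcases isPreconnected_iff_subset_of_disjoint.1 hO (u ∪ B) (v \ C) (hu.union hB)
      (hv.sdiff hC) (fun x hx => by
        by_cases k : x ∈ C
        · exact Or.inl (Or.inr (hCB k))
        · exact (h1 ⟨hx, k⟩).imp Or.inl fun k' => ⟨k', k⟩)
      (eq_empty_of_forall_notMem fun x ⟨k1, k2, k3, k4⟩ => h2.subset
        ⟨⟨k1, k4⟩, k2.elim id fun k => h3 ⟨k, k4⟩, k3⟩) with k | k
    · exact Or.inl fun x hx => (k hx.1).elim id fun k' => h3 ⟨k', hx.2⟩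
    · exact Or.inr fun x hx => (k hx.1).1
  refine isPreconnected_iff_subset_of_disjoint.2 fun u v hu hv h1 h2 => ?_
  have h3 : B \ C ⊆ O \ C := sdiff_subset_sdiff_left hBO
  rcases isPreconnected_iff_subset_of_disjoint.1 h u v hu hv (h3.trans h1)
    (subset_eq_empty (inter_subset_inter_left _ h3) h2) with k | k
  · exact key u v hu hv h1 h2 k
  · exact (key v u hv hu (union_comm u v ▸ h1) (inter_comm u v ▸ h2) k).symm

theorem parb_shell (hV : 2 ≤ Module.finrank ℝ V) (ρ : ℝ) :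
    IsPreconnected (ball (0 : V) ρ \ closedBall 0 1) := by
  have h1 : 1 < Module.rank ℝ V := by
    rw [← Module.finrank_eq_rank]; exact_mod_cast hV
  have h2 : ball (0 : V) ρ \ closedBall 0 1 =
      (fun p : ℝ × V => p.1 • p.2) '' (Ioo 1 ρ ×ˢ sphere 0 1) := by
    ext y
    simp only [Set.mem_sdiff, mem_ball_zero_iff, mem_closedBall_zero_iff, not_le, mem_image, mem_prod,
      mem_Ioo, mem_sphere_zero_iff_norm]
    constructor
    · rintro ⟨k1, k2⟩
      have k3 : ‖y‖ ≠ 0 := (zero_lt_one.trans k2).ne'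
      exact ⟨(‖y‖, ‖y‖⁻¹ • y), ⟨⟨k2, k1⟩, by
        simp only [norm_smul, norm_inv, norm_norm, inv_mul_cancel₀ k3]⟩, smul_inv_smul₀ k3 y⟩
    · rintro ⟨p, ⟨⟨k1, k2⟩, k3⟩, rfl⟩
      rw [norm_smul, k3, mul_one, Real.norm_of_nonneg (zero_le_one.trans k1.le)]
      exact ⟨k2, k1⟩
  rw [h2]
  exact (isPreconnected_Ioo.prod (isPreconnected_sphere h1 0 1)).image _ (by fun_prop)

theorem conn_cell [T2Space M] (hV : 2 ≤ Module.finrank ℝ V) {O C : Set M} (hO : IsOpen O)
    (hc : IsPreconnected O) (hC : Cell V E C) (h : C ⊆ O) : IsPreconnected (O \ C) := by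
  have hcl := hC.isCompact.isClosed
  obtain ⟨e, h1, rfl⟩ := hC
  obtain ⟨δ, d1, d2⟩ := (isCompact_closedBall (0 : V) 1).exists_thickening_subset_open
    (e.cont.isOpen_inter_preimage e.open_source hO) fun y hy => ⟨h1 hy, h ⟨y, hy, rfl⟩⟩
  rw [thickening_closedBall d1 zero_le_one] at d2
  have d3 : ball (0 : V) (δ + 1) ⊆ e.source := fun y hy => (d2 hy).1
  refine parb_remove hc (e.isOpen_image isOpen_ball d3) hcl
    (image_mono (closedBall_subset_ball (by linarith))) ?_
    (image_subset_iff.2 fun y hy => (d2 hy).2)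
  rw [← (e.inj.mono d3).image_sdiff_subset (closedBall_subset_ball (by linarith))]
  exact (parb_shell hV _).image _ (e.cont.mono (sdiff_subset.trans d3))

theorem conn_cells [T2Space M] [PreconnectedSpace M] (hV : 2 ≤ Module.finrank ℝ V) {κ : Type}
    (s : Finset κ) {C : κ → Set M} (hC : ∀ i ∈ s, Cell V E (C i))
    (hd : ∀ i ∈ s, ∀ j ∈ s, i ≠ j → Disjoint (C i) (C j)) : IsPreconnected (⋃ i ∈ s, C i)ᶜ := by
  classical
  induction s using Finset.induction_on with
  | empty => simpa using isPreconnected_univ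
  | insert a s ha ih =>
    have h1 : ∀ i ∈ s, i ∈ insert a s := fun i => Finset.mem_insert_of_mem
    rw [Finset.set_biUnion_insert, compl_union, inter_comm, ← Set.sdiff_eq]
    refine conn_cell hV (isClosed_biUnion_finset fun i hi =>
      (hC i (h1 i hi)).isCompact.isClosed).isOpen_compl
      (ih (fun i hi => hC i (h1 i hi)) fun i hi j hj => hd i (h1 i hi) j (h1 j hj))
      (hC a (Finset.mem_insert_self a s)) (disjoint_left.1 ?_)
    simp only [disjoint_iUnion_right]
    exact fun i hi => hd a (Finset.mem_insert_self a s) i (h1 i hi) fun k => ha (k ▸ hi)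

end Pool.Agent.Work.MP_bf98aa_gt.Ns
end
end

-- merged part: Pool.Agent.Work.MP_bf98aa_gt.Ns.Morse
section
/-!
A smooth function with finitely many critical points.
Hints. Finitely many charts p with compact K p in the chart target covering M and cut-offs rho p = 1 near K p; f_v = sum over p of push0 (chart p) (rho p y * v p y), v p in the dual of E.
In the chart p near K p: f_v = v p y + g y with g depending only on the other v q. The set of v such that f_v has a degenerate critical point in K p is closed, and each slice in v p is null: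
v p = - fderiv g y at a point where the second derivative is singular (addHaar_image_eq_zero_of_det_fderiv_eq_zero after identifying the dual with E by a linear equivalence). Fubini (or induction over p using openness of the good set).
Nondegenerate critical points are isolated (inverse function theorem, or HasStrictFDerivAt ... eventually_ne), the critical set is closed, M is compact.
-/

set_option autoImplicit false
set_option maxSynthPendingDepth 3
set_option linter.unusedSectionVars false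
set_option linter.unusedVariables false

open Set Filter Topology Metric MeasureTheory
open scoped Manifold ContDiff

noncomputable section
namespace Pool.Agent.Work.MP_bf98aa_gt.Ns

open Pool.Agent.Work.MP_8c604c_gt

variable {V V' E : Type} [NormedAddCommGroup V] [NormedSpace ℝ V] [FiniteDimensional ℝ V]
  [NormedAddCommGroup V'] [NormedSpace ℝ V'] [FiniteDimensional ℝ V']
  [NormedAddCommGroup E] [NormedSpace ℝ E] [FiniteDimensional ℝ E] {M : Type} [TopologicalSpace M]
  [ChartedSpace E M] [IsManifold 𝓘(ℝ, E) ∞ M] {m : ℕ}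

theorem morse_pert {w : V → B1 V} {K O : Set V} {ρ : V → ℝ} (hK : IsCompact K)
    (hw : ∀ y ∈ K ∪ O, ContDiffAt ℝ 1 w y) (hO : IsOpen O) (hρ : ContDiff ℝ ∞ ρ)
    (h1 : ∀ y ∈ O, ρ y = 1) (hne : ∀ y ∈ K, y ∉ O → w y ≠ 0) :
    ∃ a : B1 V, {y ∈ K | w y + fderiv ℝ (fun u => ρ u * a u) y = 0}.Finite := by
  have cw : ContinuousOn w K := fun y hy => (hw y (Or.inl hy)).continuousAt.continuousWithinAt
  have cρ : Continuous (fderiv ℝ ρ) := hρ.continuous_fderiv (by simp)
  obtain ⟨k, hm, hm'⟩ := (hK.diff hO).exists_forall_le' (f := fun y => ‖w y‖)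
    (cw.mono sdiff_subset).norm (a := 0) fun y hy => norm_pos_iff.2 (hne y hy.1 hy.2)
  obtain ⟨C, hC⟩ := hK.exists_bound_of_continuousOn
    (f := fun y => |ρ y| + ‖y‖ * ‖fderiv ℝ ρ y‖) (by
      have := hρ.continuous; fun_prop)
  let J : (V →L[ℝ] ℝ) ≃L[ℝ] V := ContinuousLinearEquiv.ofFinrankEq (by
    rw [← (LinearMap.toContinuousLinearMap (𝕜 := ℝ) (E := V) (F' := ℝ)).finrank_eq]
    exact Subspace.dual_finrank_eq)
  let _ : MeasurableSpace V := borel V
  have : BorelSpace V := ⟨rfl⟩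
  let s : Set V := {y ∈ O | ((J : (V →L[ℝ] ℝ) →L[ℝ] V).comp (fderiv ℝ w y)).det = 0}
  have hs : (Measure.addHaar : Measure V) ((fun y => J (w y)) '' s) = 0 :=
    addHaar_image_eq_zero_of_det_fderivWithin_eq_zero _
      (f' := fun y => (J : (V →L[ℝ] ℝ) →L[ℝ] V).comp (fderiv ℝ w y))
      (fun y hy => ((J : (V →L[ℝ] ℝ) →L[ℝ] V).hasFDerivAt.comp y
        ((hw y (Or.inr hy.1)).differentiableAt (by simp)).hasFDerivAt).hasFDerivWithinAt)
      fun y hy => hy.2
  have hop : IsOpen {b : V | ‖J.symm b‖ * (|C| + 1) < k} :=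
    isOpen_lt (by fun_prop) continuous_const
  have hpos := hop.measure_pos (Measure.addHaar : Measure V) ⟨0, by simpa using hm⟩
  obtain ⟨b, hb, hb'⟩ : ∃ b, ‖J.symm b‖ * (|C| + 1) < k ∧ b ∉ (fun y => J (w y)) '' s := by
    by_contra h
    push Not at h
    exact hpos.ne' (measure_mono_null (fun b hb => h b hb) hs)
  set a : V →L[ℝ] ℝ := -J.symm b with ha
  have loc : ∀ y ∈ O, ∀ᶠ u in 𝓝 y, fderiv ℝ (fun u => ρ u * a u) u = a := by
    intro y hy
    filter_upwards [hO.mem_nhds hy] with u hu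
    have : (fun u => ρ u * a u) =ᶠ[𝓝 u] a := by
      filter_upwards [hO.mem_nhds hu] with z hz
      rw [h1 z hz, one_mul]
    rw [this.fderiv_eq, a.fderiv]
  have key : ∀ y ∈ K, w y + fderiv ℝ (fun u => ρ u * a u) y = 0 →
      y ∈ O ∧ Function.Injective (fderiv ℝ w y) := by
    intro y hy h
    have hyO : y ∈ O := by
      by_contra hn
      have e1 := hm' y ⟨hy, hn⟩
      have e0 : fderiv ℝ (fun u => ρ u * a u) y = ρ y • a + a y • fderiv ℝ ρ y :=
        ((hρ.differentiable (by simp) y).hasFDerivAt.mul a.hasFDerivAt).fderiv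
      have e2 : w y = -(ρ y • a + a y • fderiv ℝ ρ y) := by
        rw [← e0]; exact eq_neg_of_add_eq_zero_left h
      have e3 : ‖w y‖ ≤ ‖a‖ * (|ρ y| + ‖y‖ * ‖fderiv ℝ ρ y‖) := by
        rw [e2, norm_neg]
        refine (norm_add_le _ _).trans ?_
        rw [norm_smul, norm_smul, Real.norm_eq_abs]
        have := mul_le_mul_of_nonneg_right (a.le_opNorm y) (norm_nonneg (fderiv ℝ ρ y))
        nlinarith
      have e4 := (le_abs_self _).trans ((hC y hy).trans (le_abs_self C))
      have e5 : ‖a‖ = ‖J.symm b‖ := norm_neg _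
      have e6 := mul_le_mul_of_nonneg_left e4 (norm_nonneg a)
      rw [e5] at e3 e6
      nlinarith [norm_nonneg (J.symm b)]
    refine ⟨hyO, ?_⟩
    rw [(loc y hyO).self_of_nhds] at h
    have e : J (w y) = b := by rw [eq_neg_of_add_eq_zero_left h, ha]; simp
    have hd : ((J : (V →L[ℝ] ℝ) →L[ℝ] V).comp (fderiv ℝ w y)).det ≠ 0 :=
      fun hd => hb' ⟨y, ⟨hyO, hd⟩, e⟩
    have hi := (LinearMap.equivOfDetNeZero _ hd).injective
    exact Function.Injective.of_comp (f := J) hi
  refine ⟨a, IsCompact.finite ?_ ?_⟩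
  · have cc : ContinuousOn (fun y => w y + fderiv ℝ (fun u => ρ u * a u) y) K :=
      cw.add ((hρ.mul a.contDiff).continuous_fderiv (by simp)).continuousOn
    exact hK.of_isClosed_subset (cc.preimage_isClosed_of_isClosed hK.isClosed isClosed_singleton)
      fun y hy => hy.1
  · rw [isDiscrete_iff_nhdsNE]
    intro y hy
    obtain ⟨hyO, hi⟩ := key y hy.1 hy.2
    obtain ⟨k, -, hk⟩ := LinearMap.exists_antilipschitzWith
      (fderiv ℝ w y : V →ₗ[ℝ] (V →L[ℝ] ℝ)) (LinearMap.ker_eq_bot.2 hi)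
    have e := ((hw y (Or.inl hy.1)).differentiableAt (by simp)).hasFDerivAt.eventually_ne
      (c := -a) ⟨k, hk⟩
    rw [inf_principal_eq_bot]
    filter_upwards [e, nhdsWithin_le_nhds (loc y hyO)] with u hu hu' hm
    exact hu (eq_neg_of_add_eq_zero_left (hu' ▸ hm.2))

theorem morse_crit {f : M → ℝ} (hf : Sm0 E f) (e : Par V E M) {y : V} (hy : y ∈ e.source) :
    dfM E f (e y) = 0 ↔ fderiv ℝ (fun z => f (e z)) y = 0 := by
  rw [← loc1_dfM hf e hy]
  refine ⟨fun h => by rw [loc1, h, ContinuousLinearMap.zero_comp], fun h => ?_⟩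
  ext v
  obtain ⟨u, rfl⟩ := (e.D_bij hy).2 v
  exact DFunLike.congr_fun h u

theorem morse_step [T2Space M] (e : Par V E M) {B : Set V} (hB : IsCompact B) (hBe : B ⊆ e.source)
    {A : Set M} (hA : IsClosed A) {f : M → ℝ} (hf : Sm0 E f)
    (hfin : {z ∈ A | dfM E f z = 0}.Finite) :
    ∃ g : M → ℝ, Sm0 E g ∧ {z ∈ A ∪ e '' B | dfM E g z = 0}.Finite := by
  have hC : (e.source ∩ e ⁻¹' {z ∈ A | dfM E f z = 0}).Finite :=
    Set.Finite.of_finite_image (hfin.subset (by rintro _ ⟨y, hy, rfl⟩; exact hy.2))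
      (e.inj.mono inter_subset_left)
  obtain ⟨ρ, S, O, hρ, hS, hSU, hO, hBO, hOS, h1, h0, -⟩ := exists_cut hB
    (e.open_source.sdiff (hC.diff (t := B)).isClosed) fun y hy => ⟨hBe hy, fun h => h.2 hy⟩
  have hSe : S ⊆ e.source := fun y hy => (hSU hy).1
  have hK : IsCompact (S ∩ e ⁻¹' A ∪ B) :=
    (hS.of_isClosed_subset ((e.cont.mono hSe).preimage_isClosed_of_isClosed hS.isClosed hA)
      inter_subset_left).union hB
  have hKS : S ∩ e ⁻¹' A ∪ B ⊆ S := union_subset inter_subset_left (hBO.trans hOS)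
  have sm : ∀ y ∈ e.source, ContDiffAt ℝ ∞ (fun z => f (e z)) y := fun y hy =>
    (contDiffOn_fn hf e).contDiffAt (e.open_source.mem_nhds hy)
  obtain ⟨a, ha⟩ := morse_pert (w := fderiv ℝ fun z => f (e z)) hK
    (fun y hy => (sm y (hSe (hy.elim (fun h => hKS h) fun h => hOS h))).fderiv_right (m := 1)
      (WithTop.coe_le_coe.2 (le_top : ((2 : ℕ) : ℕ∞) ≤ ⊤))) hO hρ h1 fun y hy hy' h => by
      have h2 := hy.resolve_right fun h => hy' (hBO h)
      exact (hSU h2.1).2 ⟨⟨hSe h2.1, h2.2, (morse_crit hf e (hSe h2.1)).2 h⟩,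
        fun h => hy' (hBO h)⟩
  have sg : ContDiff ℝ ∞ fun u => ρ u * a u := hρ.mul a.contDiff
  have z0 : ∀ y ∈ e.source, y ∉ S → ρ y * a y = 0 := fun y _ hy => by rw [h0 y hy, zero_mul]
  have hg : Sm0 E fun z => f z + push0 e (fun u => ρ u * a u) z :=
    hf.add (sm0_push0 e hS hSe sg.contDiffOn z0)
  refine ⟨_, hg, (hfin.union (ha.image e)).subset fun z hz => ?_⟩
  by_cases h : z ∈ e '' S
  · obtain ⟨y, hy, rfl⟩ := h
    refine Or.inr ⟨y, ⟨?_, ?_⟩, rfl⟩
    · refine hz.1.imp (fun h => ⟨hy, h⟩) ?_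
      rintro ⟨x, hx, e'⟩
      rwa [← e.inj (hBe hx) (hSe hy) e']
    · have e1 : (fun z => f (e z) + push0 e (fun u => ρ u * a u) (e z)) =ᶠ[𝓝 y]
          fun z => f (e z) + ρ z * a z := by
        filter_upwards [e.open_source.mem_nhds (hSe hy)] with z hz
        rw [push0_apply e _ hz]
      have e2 := (morse_crit hg e (hSe hy)).1 hz.2
      rwa [e1.fderiv_eq, fderiv_fun_add ((sm y (hSe hy)).differentiableAt (by simp))
        (sg.differentiable (by simp) y)] at e2
  · refine Or.inl ⟨hz.1.resolve_right fun h' => h (image_mono (hBO.trans hOS) h'), ?_⟩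
    have e1 : (fun z => f z + push0 e (fun u => ρ u * a u) z) =ᶠ[𝓝 z] f := by
      filter_upwards [(e.isCompact_image hS hSe).isClosed.isOpen_compl.mem_nhds h] with x hx
      rw [push0_zero e z0 hx, add_zero]
    exact e1.mfderiv_eq.symm.trans hz.2

theorem morse [CompactSpace M] [T2Space M] :
    ∃ f : M → ℝ, Sm0 E f ∧ {z | dfM E f z = 0}.Finite := by
  let G : Set M → Prop := fun A => ∃ f : M → ℝ, Sm0 E f ∧ {z ∈ A | dfM E f z = 0}.Finite
  have key : ∀ A, IsClosed A → G A → ∃ A', IsClosed A' ∧ G A' ∧ A ⊆ A' ∧ univ ⊆ A' := by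
    refine isCompact_univ.induction_on
      (p := fun s => ∀ A, IsClosed A → G A → ∃ A', IsClosed A' ∧ G A' ∧ A ⊆ A' ∧ s ⊆ A')
      (fun A h1 h2 => ⟨A, h1, h2, Subset.rfl, empty_subset _⟩) (fun s t hst h A h1 h2 => ?_)
      (fun s t hs ht A h1 h2 => ?_) fun z _ => ?_
    · obtain ⟨A', a1, a2, a3, a4⟩ := h A h1 h2
      exact ⟨A', a1, a2, a3, hst.trans a4⟩
    · obtain ⟨A', a1, a2, a3, a4⟩ := hs A h1 h2
      obtain ⟨A'', b1, b2, b3, b4⟩ := ht A' a1 a2
      exact ⟨A'', b1, b2, a3.trans b3, union_subset (a4.trans b3) b4⟩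
    · obtain ⟨B, hB, h1, h2⟩ := exists_compact_subset (Par.chart E z).open_source
        (mem_chart_target E z)
      refine ⟨Par.chart E z '' B, mem_nhdsWithin_of_mem_nhds (mem_of_superset
        (((Par.chart E z).isOpen_image isOpen_interior (interior_subset.trans h2)).mem_nhds
          ⟨_, h1, (chartAt E z).left_inv (mem_chart_source E z)⟩) (image_mono interior_subset)),
        fun A hA ⟨f, hf, hfin⟩ => ⟨A ∪ Par.chart E z '' B,
          hA.union ((Par.chart E z).isCompact_image hB h2).isClosed,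
          morse_step _ hB h2 hA hf hfin, subset_union_left, subset_union_right⟩⟩
  obtain ⟨A, -, ⟨f, hf, hfin⟩, -, h⟩ := key ∅ isClosed_empty ⟨fun _ => 0, contMDiff_const, by simp⟩
  exact ⟨f, hf, hfin.subset fun z hz => ⟨h trivial, hz⟩⟩

end Pool.Agent.Work.MP_bf98aa_gt.Ns
end
end
end
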