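import Pool.Agent.Work.MP_bf98aa_gt.Mf.Stmt

/-!
Near-symplectic forms on a smooth manifold of dimension `2 n`: the notions used in the statement.
-/

set_option autoImplicit false

open scoped Manifold ContDiff
open MeasureTheory

namespace Pool.Agent.Work.MP_bf98aa_gt.St

/-- The index `2 i`. -/
def evn {n : ℕ} (i : Fin n) : Fin (2 * n) :=
  ⟨2 * i.1, Nat.mul_lt_mul_of_pos_left i.2 Nat.two_pos⟩

/-- The index `2 i + 1`. -/
def odd {n : ℕ} (i : Fin n) : Fin (2 * n) :=
  ⟨2 * i.1 + 1, Nat.lt_of_lt_of_le (Nat.lt_succ_self _) (Nat.mul_le_mul_left 2 i.2)⟩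

/-- The Pfaffian sum: up to the factor `2 ^ n` the coefficient of the `n`-th exterior power of the
2-form with skew matrix `A`. -/
noncomputable def pfaff {n : ℕ} (A : Fin (2 * n) → Fin (2 * n) → ℝ) : ℝ :=
  ∑ σ : Equiv.Perm (Fin (2 * n)), ((Equiv.Perm.sign σ : ℤ) : ℝ) * ∏ i : Fin n, A (σ (evn i)) (σ (odd i))

section
variable {E : Type} [NormedAddCommGroup E] [NormedSpace ℝ E] {M : Type} [TopologicalSpace M]
  [ChartedSpace E M]

/-- The coordinates of a point in its own chart. -/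
noncomputable def ctr (E : Type) [TopologicalSpace E] {M : Type} [TopologicalSpace M]
    [ChartedSpace E M] (z : M) : E := chartAt E z z

/-- The derivative at `z`, in the direction `a`, of the value of `w` on the constant vectors
`u`, `v` of the chart at `z`. -/
noncomputable def grad (w : Bil E M) (z : M) (a u v : E) : ℝ :=
  fderiv ℝ (fun y => w.loc z y u v) (ctr E z) a

/-- The kernel `K` of `w` at `z` has a basis `k 0, …, k 3` such that the intrinsic gradient
`K → Λ² K*` kills `k 0` and takes nonzero combinations of the other three vectors to nondegenerate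
forms on `K`. -/
def Transverse (w : Bil E M) (z : M) : Prop :=
  ∃ k : Fin 4 → E, LinearIndependent ℝ k ∧
    (∀ u, (∀ v, w.loc z (ctr E z) u v = 0) ↔ u ∈ Submodule.span ℝ (Set.range k)) ∧
    (∀ i j, grad w z (k 0) (k i) (k j) = 0) ∧
    ∀ c : Fin 4 → ℝ, c 0 = 0 → c ≠ 0 →
      Matrix.det (Matrix.of fun i j => grad w z (∑ a, c a • k a) (k i) (k j)) ≠ 0

/-- Near each of its points the set is the zero set of a smooth submersion to `ℝ³`. -/
def CodimThree (E : Type) [NormedAddCommGroup E] [NormedSpace ℝ E] {M : Type} [TopologicalSpace M]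
    [ChartedSpace E M] (Z : Set M) : Prop :=
  ∀ z ∈ Z, ∃ (U : Set E) (g : E → Fin 3 → ℝ), IsOpen U ∧ ctr E z ∈ U ∧ U ⊆ (chartAt E z).target ∧
    ContDiffOn ℝ ∞ g U ∧ Function.Surjective (fderiv ℝ g (ctr E z)) ∧
    ∀ y ∈ U, (chartAt E z).symm y ∈ Z ↔ g y = 0

/-- The image of the closed unit ball under a diffeomorphism of a neighbourhood of it onto an open
subset of `M`. -/
def IsCell (E : Type) [NormedAddCommGroup E] [NormedSpace ℝ E] {M : Type} [TopologicalSpace M]
    [ChartedSpace E M] (C : Set M) : Prop :=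
  ∃ e : OpenPartialHomeomorph E M, Metric.closedBall 0 1 ⊆ e.source ∧
    ContMDiffOn 𝓘(ℝ, E) 𝓘(ℝ, E) ∞ e e.source ∧ ContMDiffOn 𝓘(ℝ, E) 𝓘(ℝ, E) ∞ e.symm e.target ∧
    C = e '' Metric.closedBall 0 1

end

section
variable {ι : Type} [Fintype ι] [DecidableEq ι] {M : Type} [TopologicalSpace M]
  [ChartedSpace (ι → ℝ) M]

/-- Smooth coefficients in all charts. -/
def IsSmooth (w : Bil (ι → ℝ) M) : Prop :=
  ∀ p i j, ContDiffOn ℝ ∞ (coef w p i j) (chartAt (ι → ℝ) p).target

/-- A smooth closed 2-form. -/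
def IsClosedForm (w : Bil (ι → ℝ) M) : Prop :=
  IsSmooth w ∧ (∀ x u v, (w x).ev u v = -(w x).ev v u) ∧
  ∀ p, ∀ y ∈ (chartAt (ι → ℝ) p).target, ∀ i j l,
    pd i (coef w p j l) y + pd j (coef w p l i) y + pd l (coef w p i j) y = 0

/-- Over the set `U` the two fields are joined by a continuous path of nondegenerate 2-forms. -/
def HomotopicOn (U : Set M) (w w' : Bil (ι → ℝ) M) : Prop :=
  ∃ H : ℝ → Bil (ι → ℝ) M,
    (∀ p i j, ContinuousOn (fun z : ℝ × (ι → ℝ) => coef (H z.1) p i j z.2)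
      (Set.Icc 0 1 ×ˢ ((chartAt (ι → ℝ) p).target ∩ (chartAt (ι → ℝ) p).symm ⁻¹' U))) ∧
    (∀ x ∈ U, H 0 x = w x ∧ H 1 x = w' x) ∧
    ∀ t ∈ Set.Icc (0 : ℝ) 1, ∀ x ∈ U, SkewNondeg (H t x)

end

variable {n : ℕ} {M : Type} [TopologicalSpace M] [ChartedSpace (Fin (2 * n) → ℝ) M]

/-- The density of the top power of `w` in the chart at `p`. -/
noncomputable def dens (w : Bil (Fin (2 * n) → ℝ) M) (p : M) (y : Fin (2 * n) → ℝ) : ℝ :=
  pfaff fun i j => coef w p i j y

/-- The quotient of the top powers of two 2-forms, a function on `M`. -/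
noncomputable def ratio (w τ : Bil (Fin (2 * n) → ℝ) M) (x : M) : ℝ :=
  dens w x (ctr (Fin (2 * n) → ℝ) x) / dens τ x (ctr (Fin (2 * n) → ℝ) x)

/-- The measure is the volume of the top power of `τ`. -/
def IsVolume [MeasurableSpace M] (τ : Bil (Fin (2 * n) → ℝ) M) (μ : Measure M) : Prop :=
  ∀ p, ∀ s ⊆ (chartAt (Fin (2 * n) → ℝ) p).target, MeasurableSet s →
    μ ((chartAt (Fin (2 * n) → ℝ) p).symm '' s) = ∫⁻ y in s, ENNReal.ofReal |dens τ p y|

/-- A near-symplectic form for the orientation of `τ`, with singular set `Z`. -/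
def NearSymplectic (τ w : Bil (Fin (2 * n) → ℝ) M) (Z : Set M) : Prop :=
  IsClosedForm w ∧ IsClosed Z ∧ (∀ x, x ∉ Z → 0 < ratio w τ x) ∧
    CodimThree (Fin (2 * n) → ℝ) Z ∧ ∀ z ∈ Z, Transverse w z

end Pool.Agent.Work.MP_bf98aa_gt.St
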