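import Pool.Agent.Work.MP_bf98aa_gt.Ns.CoreZ
import Pool.Agent.Work.MP_8c604c_gt.FormS
import Pool.Agent.Work.MP_bf98aa_gt.Ns.Stmt
import Pool.Agent.Work.MP_bf98aa_gt.Ns.Cut
import Pool.Agent.Work.MP_bf98aa_gt.Ns.Lin

-- merged part: Pool.Agent.Work.MP_bf98aa_gt.Ns.Stk
section
/-!
The integral of the top power depends only on the cohomology class.
Hints. stk_loc: in Om U (Work/MP_8c604c_gt/Form) with a = the form om (w), b = one1 theta, (a + 2 d b)^n - a^n = d (2 b * sum (a + 2 d b)^i a^(n-1-i)) up to the normalisation of dop; copy the proof of stokes from Work/MP_8c604c_gt/StokesA (35 lines; do not import that file).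
stk: std_par and continuity give parametrisations with PP (loc2 e tau) > 0 on the source; finite subcover, exists_pou, alpha = sum chi alpha; add the terms one at a time; the difference of the two quotients is continuous, vanishes off e '' K and is read by Vol.
-/

set_option autoImplicit false
set_option maxSynthPendingDepth 3
set_option linter.unusedSectionVars false
set_option linter.unusedVariables false

open Set Filter Topology Metric MeasureTheory
open scoped Manifold ContDiff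

noncomputable section
namespace Pool.Agent.Work.MP_bf98aa_gt.Ns

open Pool.Agent.Work.MP_8c604c_gt

variable {V V' E : Type} [NormedAddCommGroup V] [NormedSpace ℝ V] [FiniteDimensional ℝ V]
  [NormedAddCommGroup V'] [NormedSpace ℝ V'] [FiniteDimensional ℝ V']
  [NormedAddCommGroup E] [NormedSpace ℝ E] [FiniteDimensional ℝ E] {M : Type} [TopologicalSpace M]
  [ChartedSpace E M] [IsManifold 𝓘(ℝ, E) ∞ M] {m : ℕ}

theorem stk_om (b : B2 V) : pf_om b = ∑ i, ∑ j, b (Lam.bas V i) (Lam.bas V j) •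
    (Lam.io (Lam.cob V i) * Lam.io (Lam.cob V j)) := by
  rw [pf_om_apply, Lam.dop_apply]
  refine Finset.sum_congr rfl fun i _ => ?_
  rw [ContinuousLinearMap.comp_apply]
  conv_lhs => rw [← Lam.aux_sum_cob (b (Lam.bas V i))]
  simp only [map_sum, map_smul, Finset.mul_sum, mul_smul_comm]

theorem stk_flip (b : B2 V) : pf_om b.flip = -pf_om b := by
  rw [stk_om, stk_om, Finset.sum_comm, ← Finset.sum_neg_distrib]
  refine Finset.sum_congr rfl fun i _ => ?_
  rw [← Finset.sum_neg_distrib]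
  refine Finset.sum_congr rfl fun j _ => ?_
  rw [ContinuousLinearMap.flip_apply, Lam.io_anti, smul_neg]

theorem stk_rot {ι A : Type} [Fintype ι] [AddCommMonoid A] (F : ι → ι → ι → A) :
    ∑ i, ∑ j, ∑ k, F j k i = ∑ i, ∑ j, ∑ k, F i j k := by
  rw [Finset.sum_comm]
  exact Finset.sum_congr rfl fun _ _ => Finset.sum_comm

theorem stk_cyc (T : V →L[ℝ] B2 V) (h : ∀ a b c, T a b c + T b c a + T c a b = 0) :
    Lam.dop (pf_om.comp T) = 0 := by
  obtain ⟨g, hg⟩ : ∃ g : Fin (Module.finrank ℝ V) → Fin (Module.finrank ℝ V) →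
      Fin (Module.finrank ℝ V) → Lam V, ∀ i j k, g i j k =
      Lam.io (Lam.cob V i) * (Lam.io (Lam.cob V j) * Lam.io (Lam.cob V k)) := ⟨_, fun _ _ _ => rfl⟩
  have hc : ∀ i j k, g j k i = g i j k := fun i j k => by
    rw [hg, hg, ← mul_assoc, (Lam.aux_commute _ _ _).eq]
  obtain ⟨t, ht⟩ : ∃ t : Fin (Module.finrank ℝ V) → Fin (Module.finrank ℝ V) →
      Fin (Module.finrank ℝ V) → ℝ, ∀ i j k, t i j k =
      T (Lam.bas V i) (Lam.bas V j) (Lam.bas V k) := ⟨_, fun _ _ _ => rfl⟩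
  have e1 : Lam.dop (pf_om.comp T) = ∑ i, ∑ j, ∑ k, t i j k • g i j k := by
    simp only [Lam.dop_apply, ContinuousLinearMap.comp_apply, stk_om, Finset.mul_sum,
      mul_smul_comm, hg, ht]
  have e2 : Lam.dop (pf_om.comp T) = ∑ i, ∑ j, ∑ k, t j k i • g i j k := by
    rw [e1, ← stk_rot fun i j k => t i j k • g i j k]
    simp only [hc]
  have e3 : Lam.dop (pf_om.comp T) = ∑ i, ∑ j, ∑ k, t k i j • g i j k := by
    rw [e2, ← stk_rot fun i j k => t j k i • g i j k]
    simp only [hc]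
  have e4 : (3 : ℝ) • Lam.dop (pf_om.comp T) = 0 := by
    have e5 : (3 : ℝ) • Lam.dop (pf_om.comp T) =
        Lam.dop (pf_om.comp T) + Lam.dop (pf_om.comp T) + Lam.dop (pf_om.comp T) := by module
    rw [e5]
    nth_rewrite 3 [e3]
    nth_rewrite 2 [e2]
    rw [e1]
    simp only [← Finset.sum_add_distrib, ← add_smul, ht, h, zero_smul, Finset.sum_const_zero]
  exact (smul_eq_zero.1 e4).resolve_left three_ne_zero

theorem stk_dpow {U : TopologicalSpace.Opens V} {x : Om U} (hx : Om.d x = 0) (n : ℕ) :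
    Om.d (x ^ n) = 0 := by
  induction n with
  | zero => rw [pow_zero, Om.d_one]
  | succ n ih => rw [pow_succ, Om.d_mul, ih, hx, zero_mul, mul_zero, add_zero]

theorem stk_geom {U : TopologicalSpace.Opens V} {a e : Om U} (ha : Om.d a = 0) (he : Om.d e = 0)
    (hc : ∀ x, Commute e x) (n : ℕ) : ∃ c : Om U, Om.d c = 0 ∧ (a + e) ^ n - a ^ n = e * c := by
  induction n with
  | zero => exact ⟨0, map_zero _, by rw [pow_zero, pow_zero, sub_self, mul_zero]⟩
  | succ n ih =>
    obtain ⟨c, h1, h2⟩ := ih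
    refine ⟨c * a + (a + e) ^ n, ?_, ?_⟩
    · rw [map_add, Om.d_mul, h1, ha, stk_dpow (by rw [map_add, ha, he, add_zero]), zero_mul,
        mul_zero, add_zero, add_zero]
    · rw [mul_add, ← mul_assoc, ← h2, (hc _).eq, pow_succ, pow_succ, mul_add, sub_mul]
      abel

theorem stk_stokes [MeasurableSpace V] [BorelSpace V] (μ : Measure V) [μ.IsAddHaarMeasure]
    {U : TopologicalSpace.Opens V} (γ : Om U) {K : Set V} (hK : IsCompact K) (hKU : K ⊆ U)
    (h0 : ∀ x ∉ K, Om.ev γ x = 0) : ∫ x in K, Lam.top (Om.ev (Om.d γ) x) ∂μ = 0 := by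
  have hz : ∀ x ∉ K, Om.ev γ =ᶠ[𝓝 x] fun _ => 0 := fun x hx =>
    Filter.eventually_of_mem (hK.isClosed.isOpen_compl.mem_nhds hx) h0
  have hs : ContDiff ℝ ∞ (Om.ev γ) := contDiff_iff_contDiffAt.2 fun x => by
    by_cases hx : x ∈ K
    · exact γ.smooth.contDiffAt (U.isOpen.mem_nhds (hKU hx))
    · exact contDiffAt_const.congr_of_eventuallyEq (hz x hx)
  have hc : HasCompactSupport (Om.ev γ) := HasCompactSupport.intro hK h0
  have h1 : ∀ x, Om.ev (Om.d γ) x = Lam.dop (fderiv ℝ (Om.ev γ) x) := fun x => by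
    by_cases hx : x ∈ U
    · exact Om.ev_d γ hx
    · rw [Om.ev_of_not_mem _ hx, (hz x fun h => hx (hKU h)).fderiv_eq, fderiv_fun_const,
        Pi.zero_apply, map_zero]
  have hi : Integrable (fderiv ℝ (Om.ev γ)) μ :=
    (hs.continuous_fderiv (by simp)).integrable_of_hasCompactSupport (hc.fderiv ℝ)
  have h2 : ∫ x, fderiv ℝ (Om.ev γ) x ∂μ = 0 := by
    ext v
    rw [ContinuousLinearMap.integral_apply hi]
    have := integral_smul_fderiv_eq_neg_fderiv_smul_of_integrable (μ := μ)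
      (f := fun _ : V => (1 : ℝ)) (g := Om.ev γ) (v := v) (by simp)
      (by simpa using hi.apply_continuousLinearMap v)
      (by simpa using hs.continuous.integrable_of_hasCompactSupport hc)
      (fun _ _ => differentiableAt_const _) (fun x _ => hs.differentiable (by simp) x)
    simpa using this
  have h3 := (Lam.top.comp Lam.dop).integral_comp_comm hi
  rw [h2, map_zero] at h3
  rw [setIntegral_eq_integral_of_forall_compl_eq_zero fun x hx => by
    rw [h1, (hz x hx).fderiv_eq, fderiv_fun_const, Pi.zero_apply, map_zero, map_zero]]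
  simp only [h1]
  exact h3

theorem stk_gen [MeasurableSpace V] [BorelSpace V] (μ : Measure V) [μ.IsAddHaarMeasure]
    {U : Set V} (hU : IsOpen U) {w : V → B2 V} (hw : Form2On U w) {θ : V → B1 V}
    (hθ : ContDiffOn ℝ ∞ θ U) {K : Set V} (hK : IsCompact K) (hKU : K ⊆ U)
    (h0 : ∀ y ∈ U, y ∉ K → θ y = 0) : ∫ y in K, (pf (w y + dd θ y) - pf (w y)) ∂μ = 0 := by
  let O : TopologicalSpace.Opens V := ⟨U, hU⟩
  have hw' : ContDiffOn ℝ ∞ (fun y => pf_om (w y)) O :=
    (pf_om (V := V)).contDiff.comp_contDiffOn hw.smooth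
  have hθ' : ContDiffOn ℝ ∞ θ O := hθ
  have ha : Om.d (Om.mk _ hw') = 0 := Om.ext fun x hx => by
    rw [Om.ev_d _ hx, Om.Form_fd (F := pf_om ∘ w) (fun y hy => Om.ev_mk _ hw' hy) hx, Om.ev_zero,
      (pf_om.hasFDerivAt.comp x (base_diff hU hw.smooth hx).hasFDerivAt).fderiv]
    exact stk_cyc _ (hw.closed x hx)
  have he : ∀ x ∈ O, Om.ev (Om.d ((2 : ℝ) • Om.one1 θ hθ')) x = pf_om (dd θ x) := fun x hx => by
    rw [map_smul, Om.ev_smul, Om.ev_d_one1 _ _ hx, dd, map_sub, stk_flip, sub_neg_eq_add, two_smul,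
      pf_om_apply]
  have hc : ∀ x : Om O, Commute (Om.d ((2 : ℝ) • Om.one1 θ hθ')) x := fun x =>
    Om.ext fun y hy => by rw [Om.ev_mul, Om.ev_mul, he y hy, (pf_comm _ _).eq]
  obtain ⟨c, h1, h2⟩ := stk_geom ha (Om.d_d _) hc (Module.finrank ℝ V / 2)
  have h3 := stk_stokes μ ((2 : ℝ) • Om.one1 θ hθ' * c) hK hKU fun x hx => by
    by_cases hx' : x ∈ O
    · rw [Om.ev_mul, Om.ev_smul, Om.ev_one1 _ _ hx', h0 x hx' hx, map_zero, smul_zero, zero_mul]
    · exact Om.ev_of_not_mem _ hx'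
  rw [Om.d_mul, h1, mul_zero, add_zero, ← h2] at h3
  refine Eq.trans (setIntegral_congr_fun hK.measurableSet fun x hx => ?_) h3
  have hx' : x ∈ O := hKU hx
  simp only [Om.ev_sub, Om.ev_pow _ _ hx', Om.ev_add, he x hx', Om.ev_mk _ hw' hx', map_sub,
    pf_def, map_add]

theorem stk_loc {U : Set (VV m)} (hU : IsOpen U) {w : VV m → B2 (VV m)} (hw : Form2On U w)
    {θ : VV m → B1 (VV m)} (hθ : ContDiffOn ℝ ∞ θ U) {K : Set (VV m)} (hK : IsCompact K)
    (hKU : K ⊆ U) (h0 : ∀ y ∈ U, y ∉ K → θ y = 0) :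
    ∫ y in K, (PP (w y + dd θ y) - PP (w y)) = 0 := by
  have h1 : (volume : Measure (ℝ × ℝ)).IsAddHaarMeasure := Measure.prod.instIsAddHaarMeasure _ _
  have h2 : (volume : Measure (VV m)).IsAddHaarMeasure := Measure.prod.instIsAddHaarMeasure _ _
  have h3 := stk_gen volume hU hw hθ hK hKU h0
  simp only [PP, ← sub_div]
  rw [integral_div, h3, zero_div]

theorem pos_par (hE : Module.finrank ℝ E = 2 * m + 2) {τ : M → B2 E} (hτ : Sm2 τ) (z : M)
    (hn : Skew (τ z) ∧ Nd (τ z)) :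
    ∃ e : Par (VV m) E M, z ∈ e.target ∧ ∀ y ∈ e.source, 0 < PP (loc2 e τ y) := by
  obtain ⟨e, h0, hz, hb⟩ := std_par hE z hn.1 hn.2
  have hc : ContinuousOn (fun y => PP (loc2 e τ y)) e.source :=
    continuous_PP.comp_continuousOn (hτ.loc e).continuousOn
  obtain ⟨e', hs, he⟩ := par_restr e (hc.isOpen_inter_preimage e.open_source (isOpen_Ioi (a := 0)))
  have h1 : (e' : VV m → M) = e := funext he
  have h2 : ∀ y, loc2 e' τ y = loc2 e τ y := fun y => by
    unfold loc2 Par.D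
    rw [h1]
  have h3 : (0 : VV m) ∈ e'.source := by
    rw [hs]
    refine ⟨h0, h0, ?_⟩
    change 0 < PP (pb (e.D 0) (τ (e 0)))
    rw [hz, hb, PP_ws]
    exact one_pos
  refine ⟨e', ?_, fun y hy => ?_⟩
  · rw [← hz, ← he]
    exact e'.map_src h3
  · rw [hs] at hy
    rw [h2]
    exact hy.2.2

theorem stk_one [CompactSpace M] [T2Space M] [MeasurableSpace M] [BorelSpace M]
    (hE : Module.finrank ℝ E = 2 * m + 2) {τ w : M → B2 E} (hτ : Sm2 τ)
    (hn : ∀ z, Skew (τ z) ∧ Nd (τ z)) {μ : Measure M} (hμ : Vol m τ μ) (hw : Cl2 w)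
    {α : M → B1 E} (hα : Sm1 α) (e : Par (VV m) E M) (he : ∀ y ∈ e.source, 0 < PP (loc2 e τ y))
    {K : Set M} (hK : IsCompact K) (hKe : K ⊆ e.target) (h0 : ∀ z, z ∉ K → α z = 0) :
    ∫ z, rat (fun x => w x + dM α x) τ z ∂μ = ∫ z, rat w τ z ∂μ := by
  obtain ⟨hf, c, hc, hv⟩ := hμ
  obtain ⟨K', hK', hs, rfl⟩ := e.exists_compact hK hKe
  have hp : ∀ z, pf (τ z) ≠ 0 := fun z => pf_ne hE (hn z).1 (hn z).2
  have c1 := continuous_rat (hw.add (cl2_dM hα)).sm2 hτ hp
  have c2 := continuous_rat hw.sm2 hτ hp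
  have i1 : ∀ {f : M → ℝ}, Continuous f → Integrable f μ := fun hf =>
    hf.integrable_of_hasCompactSupport (HasCompactSupport.of_compactSpace _)
  have h1 := hv e K' hK' hs (fun z => rat (fun x => w x + dM α x) τ z - rat w τ z) (c1.sub c2)
    fun z hz => by
      have h2 : α =ᶠ[𝓝 z] fun _ => 0 :=
        Filter.eventually_of_mem (hK.isClosed.isOpen_compl.mem_nhds hz) h0
      simp only [rat, dM_congr h2, dM_zero, add_zero, sub_self]
  have h3 := stk_loc e.open_source (hw.loc e) (hα.loc e) hK' hs fun y hy hy' => by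
    have h4 : e y ∉ e '' K' := fun ⟨x, hx, hxy⟩ => hy' (e.inj (hs hx) hy hxy ▸ hx)
    rw [loc1, h0 _ h4, ContinuousLinearMap.zero_comp]
  rw [← sub_eq_zero, ← integral_sub (i1 c1) (i1 c2), h1,
    setIntegral_congr_fun hK'.measurableSet fun y hy => ?_, h3, mul_zero]
  have h5 : loc2 e (fun x => w x + dM α x) y = loc2 e w y + dd (loc1 e α) y := by
    rw [← loc2_dM hα e (hs hy)]
    exact pb_add _ _ _
  have h6 := he y (hs hy)
  simp only [rat_loc e (hs hy), h5, abs_of_pos h6]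
  field_simp

theorem stk [CompactSpace M] [T2Space M] [MeasurableSpace M] [BorelSpace M]
    (hE : Module.finrank ℝ E = 2 * m + 2) {τ w : M → B2 E} (hτ : Sm2 τ)
    (hn : ∀ z, Skew (τ z) ∧ Nd (τ z)) {μ : Measure M} (hμ : Vol m τ μ) (hw : Cl2 w)
    {α : M → B1 E} (hα : Sm1 α) :
    ∫ z, rat (fun x => w x + dM α x) τ z ∂μ = ∫ z, rat w τ z ∂μ := by
  classical
  choose e he hp using fun z => pos_par hE hτ z (hn z)
  obtain ⟨s, hs⟩ := isCompact_univ.elim_finite_subcover (fun z => (e z).target)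
    (fun z => (e z).open_target) fun z _ => mem_iUnion.2 ⟨z, he z⟩
  obtain ⟨χ, K, h1, -, h2, h3, h4, h5⟩ := exists_pou (E := E) (κ := s)
    (U := fun i => (e i).target) (fun i => (e i).open_target) fun z => by
      obtain ⟨i, hi, hz⟩ := mem_iUnion₂.1 (hs (mem_univ z))
      exact ⟨⟨i, hi⟩, hz⟩
  have h6 : ∀ i, Sm1 fun z => χ i z • α z := fun i => hα.smul (h1 i)
  have h7 : ∀ t : Finset s, ∫ z, rat (fun x => w x + dM (fun y => ∑ i ∈ t, χ i y • α y) x) τ z ∂μ =
      ∫ z, rat w τ z ∂μ := fun t => by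
    induction t using Finset.induction_on with
    | empty => simp only [Finset.sum_empty, dM_zero, add_zero]
    | insert i t hi ih =>
      have h8 : Sm1 fun y => ∑ j ∈ t, χ j y • α y := sm1_sum t fun j _ => h6 j
      rw [← ih, ← stk_one hE hτ hn hμ (hw.add (cl2_dM h8)) (h6 i) (e i) (hp i) (h3 i) (h4 i)
        fun z hz => by rw [h5 i z hz, zero_smul]]
      simp only [Finset.sum_insert hi, dM_add (h6 i) h8, add_assoc,
        add_comm (dM (fun z => χ i z • α z) _)]
  rw [← h7 Finset.univ]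
  simp only [← Finset.sum_smul, h2, one_smul]

end Pool.Agent.Work.MP_bf98aa_gt.Ns
end
end

-- merged part: Pool.Agent.Work.MP_bf98aa_gt.Ns.Bridge
section
/-!
From the working definitions to the definitions of the statement.
Hints. St.coef w p i j y is loc2 (Par.chart E p) (toNs w) y (single i 1) (single j 1) by unfolding. A bilinear-form valued function is smooth iff its coefficients are (contDiffOn_clm_apply, expand in the basis).
pfaff_eq: om b = sum b(e i)(e j) io (proj i) io (proj j); expand the n-th power as a sum over maps Fin n -> index pairs, i.e. over maps g : Fin (2n) -> Fin (2n); top of the product of io (proj (g l)) is kappa * det of the 0-1 matrix (Lam.aux_top_prod after transporting the basis; an alternating multilinear form in 2n covectors), zero unless g is a permutation.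
vol_of: fix a linear equivalence A : VV m -> E; first for K small enough to be mapped into one chart (change of variables integral_image_eq_integral_abs_det_fderiv_smul for the transition map, pf_pb, pf_equiv, addHaar_image_continuousLinearEquiv or map_linearMap_addHaar), then cut K into finitely many measurable pieces.
cell_of: a linear equivalence from Fin (2(m+1)) -> R to VV m that preserves the sup norm.
-/

set_option autoImplicit false
set_option maxSynthPendingDepth 3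
set_option linter.unusedSectionVars false
set_option linter.unusedVariables false

open Set Filter Topology Metric MeasureTheory
open scoped Manifold ContDiff

noncomputable section
namespace Pool.Agent.Work.MP_bf98aa_gt.Ns

open Pool.Agent.Work.MP_8c604c_gt

variable {ι : Type} [Fintype ι] [DecidableEq ι] {M : Type} [TopologicalSpace M] {m : ℕ}

theorem bridge_ind {Q : (ι → ℝ) → Prop} (h0 : Q 0) (h1 : ∀ i, Q (Pi.single i 1))
    (h2 : ∀ u v, Q u → Q v → Q (u + v)) (h3 : ∀ (r : ℝ) u, Q u → Q (r • u)) (u : ι → ℝ) : Q u := by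
  rw [pi_eq_sum_univ' u]
  exact Finset.sum_induction _ Q h2 h0 fun i _ => h3 _ _ (h1 i)

theorem bridge_exp (b : B2 (ι → ℝ)) (u v : ι → ℝ) :
    b u v = ∑ i, ∑ j, u i * v j * b (Pi.single i 1) (Pi.single j 1) := by
  conv_lhs => rw [pi_eq_sum_univ' u, pi_eq_sum_univ' v]
  simp only [map_sum, map_smul, _root_.sum_apply, _root_.smul_apply,
    smul_eq_mul, Finset.mul_sum]
  rw [Finset.sum_comm]
  refine Finset.sum_congr rfl fun i _ => Finset.sum_congr rfl fun j _ => ?_
  ring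

theorem bridge_cyc (T : (ι → ℝ) →L[ℝ] B2 (ι → ℝ))
    (h : ∀ i j l, T (Pi.single i 1) (Pi.single j 1) (Pi.single l 1) +
      T (Pi.single j 1) (Pi.single l 1) (Pi.single i 1) +
      T (Pi.single l 1) (Pi.single i 1) (Pi.single j 1) = 0) (a b c : ι → ℝ) :
    T a b c + T b c a + T c a b = 0 := by
  have k : ∀ b c : ι → ℝ, (∀ i, T (Pi.single i 1) b c + T b c (Pi.single i 1) +
      T c (Pi.single i 1) b = 0) → ∀ a, T a b c + T b c a + T c a b = 0 := by
    intro b c h a
    refine bridge_ind (Q := fun a => T a b c + T b c a + T c a b = 0) (by simp) h ?_ ?_ a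
    · intro u v hu hv
      simp only [map_add, _root_.add_apply]
      linear_combination hu + hv
    · intro r u hu
      simp only [map_smul, _root_.smul_apply, smul_eq_mul]
      linear_combination r * hu
  refine k b c (fun i => ?_) a
  have k1 := k c (Pi.single i 1) (fun j => ?_) b
  · linear_combination k1
  · have k2 := k (Pi.single i 1) (Pi.single j 1) (fun l => h l i j) c
    linear_combination k2

theorem bridge_ev1 {V : Type} [NormedAddCommGroup V] [NormedSpace ℝ V] {θ : V → B1 V} {y : V}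
    (h : DifferentiableAt ℝ θ y) (a b : V) : fderiv ℝ (fun z => θ z b) y a = fderiv ℝ θ y a b := by
  rw [fderiv_clm_apply h (differentiableAt_const b)]
  simp

/-- A field of the statement as a working form. -/
def toNs [ChartedSpace (ι → ℝ) M] (w : St.Bil (ι → ℝ) M) : M → B2 (ι → ℝ) := w

/-- A working form as a field of the statement. -/
def ofNs [ChartedSpace (ι → ℝ) M] (w : M → B2 (ι → ℝ)) : St.Bil (ι → ℝ) M := w

section
variable [ChartedSpace (ι → ℝ) M] [IsManifold 𝓘(ℝ, ι → ℝ) ∞ M]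

theorem toNs_ofNs (w : M → B2 (ι → ℝ)) : toNs (ofNs w) = w := rfl

theorem bridge_coef (w : St.Bil (ι → ℝ) M) (p : M) (i j : ι) : St.coef w p i j =
    fun y => loc2 (Par.chart (ι → ℝ) p) (toNs w) y (Pi.single i 1) (Pi.single j 1) := rfl

theorem bridge_diff {W : Type} [NormedAddCommGroup W] [NormedSpace ℝ W] {p : M}
    {g : (ι → ℝ) → W} (h : ContDiffOn ℝ ∞ g (chartAt (ι → ℝ) p).target) {y : ι → ℝ}
    (hy : y ∈ (chartAt (ι → ℝ) p).target) : DifferentiableAt ℝ g y :=
  (h.contDiffAt ((chartAt (ι → ℝ) p).open_target.mem_nhds hy)).differentiableAt (by simp)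

theorem bridge_pd {w : St.Bil (ι → ℝ) M} (hw : Sm2 (toNs w)) (p : M) {y : ι → ℝ}
    (hy : y ∈ (chartAt (ι → ℝ) p).target) (i j l : ι) : pd i (St.coef w p j l) y =
      fderiv ℝ (loc2 (Par.chart (ι → ℝ) p) (toNs w)) y (Pi.single i 1) (Pi.single j 1)
        (Pi.single l 1) :=
  (base_ev (bridge_diff (hw p) hy) _ _ _).symm

theorem sm2_iff {w : St.Bil (ι → ℝ) M} : St.IsSmooth w ↔ Sm2 (toNs w) := by
  refine forall_congr' fun p => ⟨fun h => ?_, fun h i j => ?_⟩
  · refine contDiffOn_clm_apply.2 fun u => contDiffOn_clm_apply.2 fun v => ?_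
    simp only [bridge_exp _ u v]
    exact ContDiffOn.sum fun i _ => ContDiffOn.sum fun j _ => contDiffOn_const.mul (h i j)
  · exact (h.clm_apply contDiffOn_const).clm_apply contDiffOn_const

theorem cl2_iff {w : St.Bil (ι → ℝ) M} : St.IsClosedForm w ↔ Cl2 (toNs w) := by
  refine ⟨fun h p => ?_, fun h => ⟨sm2_iff.2 h.sm2, h.skew, fun p y hy i j l => ?_⟩⟩
  · have hs := sm2_iff.1 h.1
    refine ⟨hs p, fun y _ => skew_pb (b := toNs w _) (fun u v => h.2.1 _ u v) _,
      fun y hy => bridge_cyc _ fun i j l => ?_⟩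
    rw [← bridge_pd hs p hy, ← bridge_pd hs p hy, ← bridge_pd hs p hy]
    exact h.2.2 p y hy i j l
  · rw [bridge_pd h.sm2 p hy, bridge_pd h.sm2 p hy, bridge_pd h.sm2 p hy]
    exact (h p).closed y hy _ _ _

theorem nondeg_iff {w : St.Bil (ι → ℝ) M} :
    St.Nondeg w ↔ ∀ z, Skew (toNs w z) ∧ Nd (toNs w z) := by
  exact Iff.rfl

theorem cohom_of {w w0 : St.Bil (ι → ℝ) M} {α : M → B1 (ι → ℝ)} (hα : Sm1 α)
    (h : ∀ z, toNs w z = toNs w0 z + dM α z) : St.Cohomologous w w0 := by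
  refine ⟨α, fun p i => (hα p).clm_apply contDiffOn_const, fun p y hy i j => ?_⟩
  have e1 : loc2 (Par.chart (ι → ℝ) p) (toNs w) y = loc2 (Par.chart (ι → ℝ) p) (toNs w0) y +
      dd (loc1 (Par.chart (ι → ℝ) p) α) y := by
    rw [← loc2_dM hα _ hy, loc2, h, pb_add]
    rfl
  have e2 : ∀ i j, pd i (St.coef1 (ι := ι) (M := M) α p j) y =
      fderiv ℝ (loc1 (Par.chart (ι → ℝ) p) α) y (Pi.single i 1) (Pi.single j 1) := fun i j =>
    bridge_ev1 (bridge_diff (hα p) hy) _ _
  rw [e2, e2, bridge_coef, bridge_coef]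
  simp only [e1, _root_.add_apply, dd_apply, add_sub_cancel_left]

theorem homotopic_of {U : Set M} {τ w : St.Bil (ι → ℝ) M} (h : Htp U (toNs τ) (toNs w)) :
    St.HomotopicOn U τ w := by
  obtain ⟨H, h1, h2, h3⟩ := h
  exact ⟨fun t => ofNs (H t), fun p i j =>
    ((h1 p).clm_apply continuousOn_const).clm_apply continuousOn_const, h2, h3⟩

theorem transverse_of {w : St.Bil (ι → ℝ) M} (hw : Sm2 (toNs w)) {z : M} (h : FoldM (toNs w) z) :
    St.Transverse w z := by
  obtain ⟨k, h1, h2, h3, h4⟩ := h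
  have e : ∀ a u v, St.grad w z a u v =
      fderiv ℝ (loc2 (Par.chart (ι → ℝ) z) (toNs w)) (chartAt (ι → ℝ) z z) a u v := fun a u v =>
    (base_ev (bridge_diff (hw z) (mem_chart_target _ z)) a u v).symm
  refine ⟨k, h1, h2, fun i j => ?_, fun c h0 hc => ?_⟩
  · rw [e]
    exact h3 i j
  · simp only [e]
    exact h4 c h0 hc

theorem codim_of {Z : Set M} (h : ∀ z ∈ Z, SubM (ι → ℝ) Z z) : St.CodimThree (ι → ℝ) Z := by
  intro z hz
  obtain ⟨U, g, h1, h2, h3, h4, h5⟩ := h z hz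
  exact ⟨U ∩ (chartAt (ι → ℝ) z).target, g, h1.inter (chartAt (ι → ℝ) z).open_target,
    ⟨h2, mem_chart_target _ z⟩, inter_subset_right, h3.mono inter_subset_left, h4,
    fun y hy => h5 y hy.1⟩

end

/-- The coordinate covectors. -/
def bridge_pr (i : ι) : B1 (ι → ℝ) := ContinuousLinearMap.proj (R := ℝ) (φ := fun _ : ι => ℝ) i

theorem bridge_pr_apply (i : ι) (u : ι → ℝ) : bridge_pr i u = u i := rfl

theorem bridge_om (b : B2 (ι → ℝ)) : pf_om b = ∑ p : ι × ι,
    b (Pi.single p.1 1) (Pi.single p.2 1) • (Lam.io (bridge_pr p.1) * Lam.io (bridge_pr p.2)) := by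
  have h : ∀ φ θ : B1 (ι → ℝ), pf_om (φ.smulRight θ) = Lam.io φ * Lam.io θ := fun φ θ => by
    rw [← Lam.dop_smulRight, pf_om_apply]
    refine congrArg _ (ContinuousLinearMap.ext fun v => ?_)
    rw [ContinuousLinearMap.comp_apply, ContinuousLinearMap.smulRight_apply,
      ContinuousLinearMap.smulRight_apply, map_smul]
  have e : b = ∑ p : ι × ι, b (Pi.single p.1 1) (Pi.single p.2 1) •
      (bridge_pr p.1).smulRight (bridge_pr p.2) := by
    refine b2_ext fun u v => ?_
    rw [bridge_exp b u v, Fintype.sum_prod_type]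
    simp only [_root_.sum_apply, _root_.smul_apply,
      ContinuousLinearMap.smulRight_apply, smul_eq_mul, bridge_pr_apply]
    refine Finset.sum_congr rfl fun i _ => Finset.sum_congr rfl fun j _ => ?_
    ring
  conv_lhs => rw [e]
  simp only [map_sum, map_smul, h]

theorem bridge_pow {A κ : Type} [Ring A] [Algebra ℝ A] [Fintype κ] (c : κ → ℝ) (x : κ → A)
    (n : ℕ) : (∑ p, c p • x p) ^ n =
      ∑ g : Fin n → κ, (∏ l, c (g l)) • (List.ofFn fun l => x (g l)).prod := by
  rw [← MultilinearMap.mkPiAlgebraFin_apply_const (R := ℝ), MultilinearMap.map_sum]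
  refine Finset.sum_congr rfl fun g _ => ?_
  rw [MultilinearMap.map_smul_univ, MultilinearMap.mkPiAlgebraFin_apply]

theorem bridge_list {A : Type} [Monoid A] {n : ℕ} (x : Fin (2 * n) → A) :
    (List.ofFn fun l : Fin n => x (St.evn l) * x (St.odd l)).prod = (List.ofFn x).prod := by
  rw [List.ofFn_mul' x, List.prod_flatten, List.map_ofFn]
  refine congrArg List.prod (congrArg List.ofFn (funext fun l => ?_))
  simp [List.ofFn_succ, St.evn, St.odd]

theorem bridge_bij {κ : Type} [Fintype κ] [DecidableEq κ] (n : ℕ) : Function.Bijective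
    fun (G : Fin (2 * n) → κ) (l : Fin n) => (G (St.evn l), G (St.odd l)) := by
  refine (Fintype.bijective_iff_injective_and_card _).2 ⟨fun G G' h => funext fun k => ?_, ?_⟩
  · have h1 := congrFun h ⟨k.1 / 2, by omega⟩
    rw [Prod.mk.injEq] at h1
    rcases Nat.mod_two_eq_zero_or_one k.1 with h2 | h2
    · have e : St.evn ⟨k.1 / 2, by omega⟩ = k := Fin.ext (by simp only [St.evn]; omega)
      exact e ▸ h1.1
    · have e : St.odd ⟨k.1 / 2, by omega⟩ = k := Fin.ext (by simp only [St.odd]; omega)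
      exact e ▸ h1.2
  · simp [pow_mul, sq]

theorem bridge_top {V : Type} [NormedAddCommGroup V] [NormedSpace ℝ V] [FiniteDimensional ℝ V]
    {N : ℕ} (hN : N = Module.finrank ℝ V) (θ : Fin N → B1 V) :
    Lam.top (List.ofFn fun i => Lam.io (θ i)).prod =
      (Matrix.of fun i j => θ i (Lam.bas V (Fin.cast hN j))).det := by
  subst hN
  exact Lam.aux_top_prod θ

theorem pfaff_eq (n : ℕ) : ∃ κ : ℝ, κ ≠ 0 ∧ ∀ b : B2 (Fin (2 * n) → ℝ),
    (St.pfaff fun i j => b (Pi.single i 1) (Pi.single j 1)) = κ * pf b := by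
  have hN : 2 * n = Module.finrank ℝ (Fin (2 * n) → ℝ) := by simp
  obtain ⟨B, hB⟩ : ∃ B : Matrix (Fin (2 * n)) (Fin (2 * n)) ℝ,
      B = Matrix.of fun i j => bridge_pr i (Lam.bas (Fin (2 * n) → ℝ) (Fin.cast hN j)) := ⟨_, rfl⟩
  have h0 : B.det ≠ 0 := by
    rw [hB, ← bridge_top hN]
    refine Lam.top_prod_ne hN _ (Fintype.linearIndependent_iff.2 fun g hg j => ?_)
    have h1 := congrArg (fun φ : B1 (Fin (2 * n) → ℝ) => φ (Pi.single j 1)) hg
    simpa [bridge_pr_apply, Pi.single_apply] using h1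
  refine ⟨B.det⁻¹, inv_ne_zero h0, fun b => ?_⟩
  rw [eq_inv_mul_iff_mul_eq₀ h0, pf_def, ← hN, Nat.mul_div_cancel_left n two_pos, bridge_om,
    bridge_pow, ← (bridge_bij n).sum_comp, map_sum, St.pfaff, Finset.mul_sum]
  have key : ∀ G : Fin (2 * n) → Fin (2 * n), Lam.top (List.ofFn fun l : Fin n =>
      Lam.io (bridge_pr (G (St.evn l))) * Lam.io (bridge_pr (G (St.odd l)))).prod =
      (B.submatrix G id).det := fun G => by
    rw [bridge_list fun k => Lam.io (bridge_pr (G k)), bridge_top hN, hB]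
    rfl
  refine Fintype.sum_of_injective (fun σ : Equiv.Perm (Fin (2 * n)) => (σ : Fin (2 * n) → Fin (2 * n)))
    DFunLike.coe_injective _ _ (fun G hG => ?_) fun σ => ?_
  · have h1 : ¬ Function.Injective G := fun h =>
      hG ⟨Equiv.ofBijective G (Finite.injective_iff_bijective.1 h), rfl⟩
    obtain ⟨i, j, h2, h3⟩ := Function.not_injective_iff.1 h1
    rw [map_smul, key, Matrix.det_zero_of_row_eq h3 (funext fun k => by
      simp only [Matrix.submatrix_apply, h2]), smul_zero]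
  · rw [map_smul, key, Matrix.det_permute, smul_eq_mul]
    ring

section
variable [ChartedSpace (Fin (2 * (m + 1)) → ℝ) M] [IsManifold 𝓘(ℝ, Fin (2 * (m + 1)) → ℝ) ∞ M]

theorem ratio_eq (w τ : St.Bil (Fin (2 * (m + 1)) → ℝ) M) (x : M) :
    St.ratio w τ x = rat (toNs w) (toNs τ) x := by
  obtain ⟨κ, h0, h⟩ := pfaff_eq (m + 1)
  have e : ∀ w : St.Bil (Fin (2 * (m + 1)) → ℝ) M,
      St.dens w x (St.ctr (Fin (2 * (m + 1)) → ℝ) x) = κ * pf (toNs w x) := fun w => by
    refine (h (loc2 (Par.chart _ x) (toNs w) (chartAt (Fin (2 * (m + 1)) → ℝ) x x))).trans ?_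
    rw [loc2, chart_D_center, pb_id, chart_apply, (chartAt _ x).left_inv (mem_chart_source _ x)]
  rw [St.ratio, e, e, mul_div_mul_left _ _ h0, rat]

theorem cell_of {C : Set M} (h : Cell (VV m) (Fin (2 * (m + 1)) → ℝ) C) :
    St.IsCell (Fin (2 * (m + 1)) → ℝ) C := by
  obtain ⟨e, h1, rfl⟩ := h
  obtain ⟨q⟩ : Nonempty ((Fin m ⊕ Fin m) ⊕ Fin 2 ≃ Fin (2 * (m + 1))) :=
    ⟨Fintype.equivOfCardEq (by simp; ring)⟩
  obtain ⟨L, hL⟩ : ∃ L : (Fin (2 * (m + 1)) → ℝ) ≃L[ℝ] VV m, ∀ y, L y =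
      (fun a => y (q (Sum.inl a)), y (q (Sum.inr 0)), y (q (Sum.inr 1))) :=
    ⟨((LinearEquiv.funCongrLeft ℝ ℝ q).trans ((LinearEquiv.sumArrowLequivProdArrow _ _ ℝ ℝ).trans
      ((LinearEquiv.refl ℝ _).prodCongr (LinearEquiv.finTwoArrow ℝ ℝ)))).toContinuousLinearEquiv,
      fun y => rfl⟩
  have hb : ∀ y, L y ∈ closedBall (0 : VV m) 1 ↔ y ∈ closedBall (0 : Fin (2 * (m + 1)) → ℝ) 1 := by
    intro y
    rw [mem_closedBall_zero_iff, mem_closedBall_zero_iff, hL, norm_prod_le_iff, norm_prod_le_iff,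
      pi_norm_le_iff_of_nonneg zero_le_one, pi_norm_le_iff_of_nonneg zero_le_one,
      q.surjective.forall, Sum.forall (p := fun x => ‖y (q x)‖ ≤ 1), Fin.forall_fin_two]
  obtain ⟨e', s1, s2⟩ := par_lin e L
  refine ⟨e'.toOpenPartialHomeomorph, fun y hy => ?_, e'.sm, e'.sm', ?_⟩
  · rw [s1]
    exact h1 ((hb y).2 hy)
  · ext z
    constructor
    · rintro ⟨y, hy, rfl⟩
      obtain ⟨y', rfl⟩ := L.surjective y
      exact ⟨y', (hb y').1 hy, s2 y'⟩
    · rintro ⟨y, hy, rfl⟩
      exact ⟨L y, (hb y).2 hy, (s2 y).symm⟩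

end

end Pool.Agent.Work.MP_bf98aa_gt.Ns
end
end

-- merged part: Pool.Agent.Work.MP_bf98aa_gt.Ns.Vol
section
/-!
The volume of the statement in all parametrisations.
Hints. Fix a linear equivalence A : VV m -> E. First for a measurable set S in the source that e maps into one chart: mu (e '' S) = c * lintegral over S of |PP (loc2 e tau)| (change of variables lintegral_image_eq_lintegral_abs_det_fderiv_mul for A.symm o chart o e, pf_pb, pf_equiv, pfaff_eq,
the Haar measures volume on VV m and map of volume differ by a constant). Then cover K by finitely many such sets, disjointify; pass from measures to integrals (restrict mu to e '' K is the image of a withDensity measure under e; integral_map, integral_withDensity_eq_integral_smul). Finiteness: finitely many compact pieces of charts.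
-/

set_option autoImplicit false
set_option maxSynthPendingDepth 3
set_option linter.unusedSectionVars false
set_option linter.unusedVariables false

open Set Filter Topology Metric MeasureTheory
open scoped Manifold ContDiff

noncomputable section
namespace Pool.Agent.Work.MP_bf98aa_gt.Ns

open Pool.Agent.Work.MP_8c604c_gt

variable {M : Type} [TopologicalSpace M] {m : ℕ}


theorem vol_haar : (volume : Measure (VV m)).IsAddHaarMeasure := by
  have h1 : (volume : Measure (ℝ × ℝ)).IsAddHaarMeasure :=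
    Measure.prod.instIsAddHaarMeasure (volume : Measure ℝ) (volume : Measure ℝ)
  exact Measure.prod.instIsAddHaarMeasure (volume : Measure (XX m)) (volume : Measure (ℝ × ℝ))

theorem vol_lin (A : VV m ≃L[ℝ] (Fin (2 * (m + 1)) → ℝ)) : ∃ c : ℝ, 0 < c ∧
    ∀ (s : Set (Fin (2 * (m + 1)) → ℝ)) (g : (Fin (2 * (m + 1)) → ℝ) → ENNReal),
      ∫⁻ y in s, g y = ENNReal.ofReal c * ∫⁻ x in A ⁻¹' s, g (A x) := by
  have := vol_haar (m := m)
  have hA : ((volume : Measure (VV m)).map A).IsAddHaarMeasure := A.isAddHaarMeasure_map _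
  have e := Measure.isAddLeftInvariant_eq_smul (volume : Measure (Fin (2 * (m + 1)) → ℝ))
    ((volume : Measure (VV m)).map A)
  have hp := Measure.addHaarScalarFactor_pos_of_isAddHaarMeasure
    (volume : Measure (Fin (2 * (m + 1)) → ℝ)) ((volume : Measure (VV m)).map A)
  generalize Measure.addHaarScalarFactor (volume : Measure (Fin (2 * (m + 1)) → ℝ))
    ((volume : Measure (VV m)).map A) = c at e hp
  refine ⟨c, by exact_mod_cast hp, fun s g => ?_⟩
  have hE : MeasurableEmbedding A := A.toHomeomorph.measurableEmbedding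
  rw [e, Measure.restrict_smul, lintegral_smul_measure, hE.restrict_map, hE.lintegral_map]
  simp [ENNReal.smul_def]

section
variable [ChartedSpace (Fin (2 * (m + 1)) → ℝ) M] [IsManifold 𝓘(ℝ, Fin (2 * (m + 1)) → ℝ) ∞ M]

theorem vol_dens : ∃ κ : ℝ, κ ≠ 0 ∧ ∀ (τ : St.Bil (Fin (2 * (m + 1)) → ℝ) M) (p : M)
    (y : Fin (2 * (m + 1)) → ℝ),
    St.dens τ p y = κ * pf (loc2 (Par.chart (Fin (2 * (m + 1)) → ℝ) p) (toNs τ) y) := by
  obtain ⟨κ, hκ, h⟩ := pfaff_eq (m + 1)
  exact ⟨κ, hκ, fun τ p y => h (loc2 (Par.chart (Fin (2 * (m + 1)) → ℝ) p) (toNs τ) y)⟩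

theorem vol_loc [MeasurableSpace M] {τ : St.Bil (Fin (2 * (m + 1)) → ℝ) M} {μ : Measure M}
    (h : St.IsVolume τ μ) : ∃ c : ℝ, 0 < c ∧ ∀ (e : Par (VV m) (Fin (2 * (m + 1)) → ℝ) M) (p : M)
      (S : Set (VV m)), MeasurableSet S →
      S ⊆ e.source ∩ e ⁻¹' (Par.chart (Fin (2 * (m + 1)) → ℝ) p).target →
      μ (e '' S) = ∫⁻ y in S, ENNReal.ofReal (c * |PP (loc2 e (toNs τ) y)|) := by
  have := vol_haar (m := m)
  have hd : Module.finrank ℝ (VV m) = Module.finrank ℝ (Fin (2 * (m + 1)) → ℝ) := by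
    rw [finrank_VV, Module.finrank_fin_fun]; ring
  let A : VV m ≃L[ℝ] (Fin (2 * (m + 1)) → ℝ) := ContinuousLinearEquiv.ofFinrankEq hd
  obtain ⟨c0, hc0, hA⟩ := vol_lin A
  obtain ⟨κ, hκ, hdens⟩ := vol_dens (M := M) (m := m)
  obtain ⟨κ', hκ', hpf⟩ := pf_equiv A
  have hw := pf_ws_ne (m := m)
  refine ⟨c0 * (|κ| * |pf (ws m)| / |κ'|), by positivity, fun e p S hS hSe => ?_⟩
  set e' := Par.chart (Fin (2 * (m + 1)) → ℝ) p with he'
  let φ : VV m → (Fin (2 * (m + 1)) → ℝ) := fun y => e'.inv (e y)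
  have hφ : ContDiffOn ℝ ∞ φ (e.source ∩ e ⁻¹' e'.target) := contDiffOn_tr e e'
  have hO := isOpen_tr e e'
  have hdφ : ∀ y ∈ S, DifferentiableAt ℝ φ y := fun y hy => base_diff hO hφ (hSe hy)
  have hinj : InjOn φ S := by
    intro x hx y hy hxy
    apply e.inj (hSe hx).1 (hSe hy).1
    rw [← e'.apply_inv (hSe hx).2, ← e'.apply_inv (hSe hy).2]
    exact congrArg e' hxy
  have hm : MeasurableSet (φ '' S) :=
    hS.image_of_continuousOn_injOn (hφ.continuousOn.mono hSe) hinj
  have hsub : φ '' S ⊆ (chartAt (Fin (2 * (m + 1)) → ℝ) p).target := by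
    rintro _ ⟨y, hy, rfl⟩
    exact e'.map_tgt (hSe hy).2
  have him : (chartAt (Fin (2 * (m + 1)) → ℝ) p).symm '' (φ '' S) = e '' S := by
    rw [image_image]
    exact image_congr fun y hy => e'.apply_inv (hSe hy).2
  let f : VV m → VV m := fun y => A.symm (φ y)
  have hpre : A ⁻¹' (φ '' S) = f '' S := by
    ext x
    constructor
    · rintro ⟨y, hy, hyx⟩
      exact ⟨y, hy, by simp only [f, hyx, ContinuousLinearEquiv.symm_apply_apply]⟩
    · rintro ⟨y, hy, rfl⟩
      exact ⟨y, hy, by simp only [f, ContinuousLinearEquiv.apply_symm_apply]⟩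
  have hf' : ∀ y ∈ S, HasFDerivWithinAt f
      ((A.symm : (Fin (2 * (m + 1)) → ℝ) →L[ℝ] VV m).comp (fderiv ℝ φ y)) S y := fun y hy =>
    ((A.symm : (Fin (2 * (m + 1)) → ℝ) →L[ℝ] VV m).hasFDerivAt.comp y
      (hdφ y hy).hasFDerivAt).hasFDerivWithinAt
  have hfi : InjOn f S := fun x hx y hy hxy => hinj hx hy (A.symm.injective hxy)
  rw [← him, h p _ hsub hm, hA, hpre,
    lintegral_image_eq_lintegral_abs_det_fderiv_mul volume hS hf' hfi,
    ← lintegral_const_mul' _ _ ENNReal.ofReal_ne_top]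
  refine setLIntegral_congr_fun hS fun y hy => ?_
  have h1 : A (f y) = φ y := A.apply_symm_apply _
  have h2 : fderiv ℝ φ y = (A : VV m →L[ℝ] (Fin (2 * (m + 1)) → ℝ)).comp
      ((A.symm : (Fin (2 * (m + 1)) → ℝ) →L[ℝ] VV m).comp (fderiv ℝ φ y)) := by
    refine ContinuousLinearMap.ext fun v => ?_
    exact (A.apply_symm_apply _).symm
  have h3 : PP (loc2 e (toNs τ) y) =
      ((A.symm : (Fin (2 * (m + 1)) → ℝ) →L[ℝ] VV m).comp (fderiv ℝ φ y)).det *
        (κ' * pf (loc2 e' (toNs τ) (φ y)) / pf (ws m)) := by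
    rw [loc2_tr e e' (hSe hy).1 (hSe hy).2]
    change PP (pb (fderiv ℝ φ y) (loc2 e' (toNs τ) (φ y))) = _
    conv_lhs => rw [h2]
    rw [pb_comp, PP_pb, PP, hpf]
  rw [h1, hdens, h3, ← ENNReal.ofReal_mul (abs_nonneg _), ← ENNReal.ofReal_mul hc0.le]
  congr 1
  simp only [abs_mul, abs_div]
  have h4 : |κ'| ≠ 0 := abs_ne_zero.2 hκ'
  have h5 : |pf (ws m)| ≠ 0 := abs_ne_zero.2 hw
  field_simp
  rfl

theorem vol_all [CompactSpace M] [T2Space M] [MeasurableSpace M] [BorelSpace M]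
    {τ : St.Bil (Fin (2 * (m + 1)) → ℝ) M} {μ : Measure M}
    (h : St.IsVolume τ μ) : ∃ c : ℝ, 0 < c ∧ ∀ (e : Par (VV m) (Fin (2 * (m + 1)) → ℝ) M)
      (S : Set (VV m)), MeasurableSet S → S ⊆ e.source →
      μ (e '' S) = ∫⁻ y in S, ENNReal.ofReal (c * |PP (loc2 e (toNs τ) y)|) := by
  classical
  obtain ⟨c, hc, H⟩ := vol_loc h
  refine ⟨c, hc, fun e => ?_⟩
  obtain ⟨t, ht⟩ := (isCompact_univ (X := M)).elim_finite_subcover
    (fun p : M => (chartAt (Fin (2 * (m + 1)) → ℝ) p).source)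
    (fun p => (chartAt _ p).open_source) (fun z _ => mem_iUnion.2 ⟨z, mem_chart_source _ z⟩)
  have key : ∀ (t : Finset M) (S : Set (VV m)), MeasurableSet S → S ⊆ e.source →
      (∀ y ∈ S, ∃ p ∈ t, e y ∈ (chartAt (Fin (2 * (m + 1)) → ℝ) p).source) →
      μ (e '' S) = ∫⁻ y in S, ENNReal.ofReal (c * |PP (loc2 e (toNs τ) y)|) := by
    intro t
    induction t using Finset.induction_on with
    | empty =>
      intro S _ _ h0
      have : S = ∅ := eq_empty_of_forall_notMem fun y hy => by simpa using h0 y hy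
      simp [this]
    | insert p t hp ih =>
      intro S hS hSe h0
      have hO := (isOpen_tr e (Par.chart (Fin (2 * (m + 1)) → ℝ) p)).measurableSet
      generalize hU : e.source ∩ e ⁻¹' (Par.chart (Fin (2 * (m + 1)) → ℝ) p).target = U at hO
      have h1 := H e p (S ∩ U) (hS.inter hO) (hU ▸ inter_subset_right)
      have h2 := ih (S \ U) (hS.diff hO) (fun y hy => hSe hy.1) fun y hy => by
        obtain ⟨q, hq, hy'⟩ := h0 y hy.1
        rcases Finset.mem_insert.1 hq with rfl | hq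
        · exact absurd (hU ▸ ⟨hSe hy.1, hy'⟩ : y ∈ U) hy.2
        · exact ⟨q, hq, hy'⟩
      have hm : MeasurableSet (e '' (S \ U)) :=
        (hS.diff hO).image_of_continuousOn_injOn (e.cont.mono fun y hy => hSe hy.1)
          (e.inj.mono fun y hy => hSe hy.1)
      have hd : Disjoint (e '' (S ∩ U)) (e '' (S \ U)) := by
        rw [Set.disjoint_left]
        rintro _ ⟨x, hx, rfl⟩ ⟨y, hy, hxy⟩
        have := e.inj (hSe hy.1) (hSe hx.1) hxy
        exact hy.2 (this ▸ hx.2)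
      rw [← lintegral_inter_add_sdiff _ S hO, ← h1, ← h2, ← measure_union hd hm, ← image_union,
        inter_union_sdiff]
  intro S hS hSe
  refine key t S hS hSe fun y _ => ?_
  simpa using ht (mem_univ (e y))

theorem vol_fin [CompactSpace M] [MeasurableSpace M]
    {τ : St.Bil (Fin (2 * (m + 1)) → ℝ) M} (hτ : Sm2 (toNs τ)) {μ : Measure M}
    (h : St.IsVolume τ μ) : IsFiniteMeasure μ := by
  obtain ⟨κ, hκ, hdens⟩ := vol_dens (M := M) (m := m)
  have : IsLocallyFiniteMeasure μ := by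
    refine ⟨fun z => ?_⟩
    obtain ⟨k, hk, hz, hkt⟩ := exists_compact_subset
      (chartAt (Fin (2 * (m + 1)) → ℝ) z).open_target (mem_chart_target _ z)
    refine ⟨(chartAt (Fin (2 * (m + 1)) → ℝ) z).symm '' k, ?_, ?_⟩
    · have := (chartAt (Fin (2 * (m + 1)) → ℝ) z).symm.image_mem_nhds (mem_chart_target _ z)
        (mem_interior_iff_mem_nhds.1 hz)
      rwa [(chartAt (Fin (2 * (m + 1)) → ℝ) z).left_inv (mem_chart_source _ z)] at this
    · rw [h z k hkt hk.measurableSet]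
      apply Integrable.lintegral_lt_top
      apply ContinuousOn.integrableOn_compact hk
      simp only [hdens]
      exact (continuousOn_const.mul (contDiff_pf.continuous.comp_continuousOn
        ((hτ z).continuousOn.mono hkt))).abs
  infer_instance

end

theorem vol_of [ChartedSpace (Fin (2 * (m + 1)) → ℝ) M] [IsManifold 𝓘(ℝ, Fin (2 * (m + 1)) → ℝ) ∞ M]
    [CompactSpace M] [T2Space M] [MeasurableSpace M] [BorelSpace M]
    {τ : St.Bil (Fin (2 * (m + 1)) → ℝ) M} (hτ : Sm2 (toNs τ)) {μ : Measure M}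
    (h : St.IsVolume τ μ) : Vol m (toNs τ) μ := by
  classical
  obtain ⟨c, hc, H⟩ := vol_all h
  refine ⟨vol_fin hτ h, c, hc, fun e K hK hKe g hg h0 => ?_⟩
  have hKm := hK.measurableSet
  let u : VV m → M := K.piecewise e fun _ => e 0
  have hu : Measurable u := (e.cont.mono hKe).measurable_piecewise continuousOn_const hKm
  have hue : ∀ y ∈ K, u y = e y := fun y hy => piecewise_eq_of_mem _ _ _ hy
  let ρ : VV m → ENNReal := fun y => ENNReal.ofReal (c * |PP (loc2 e (toNs τ) y)|)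
  have hρ : AEMeasurable ρ (volume.restrict K) :=
    ENNReal.measurable_ofReal.comp_aemeasurable
      ((continuousOn_const.mul (continuous_PP.comp_continuousOn
        ((hτ.loc e).continuousOn.mono hKe)).abs).aemeasurable hKm)
  have hμ : μ.restrict (e '' K) = ((volume.restrict K).withDensity ρ).map u := by
    ext T hT
    rw [Measure.restrict_apply hT, Measure.map_apply hu hT, withDensity_apply _ (hu hT),
      Measure.restrict_restrict (hu hT), ← H e _ ((hu hT).inter hKm) fun y hy => hKe hy.2]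
    congr 1
    ext z
    constructor
    · rintro ⟨hz, y, hy, rfl⟩
      exact ⟨y, ⟨by rw [mem_preimage, hue y hy]; exact hz, hy⟩, rfl⟩
    · rintro ⟨y, ⟨hy, hy'⟩, rfl⟩
      exact ⟨by rw [mem_preimage, hue y hy'] at hy; exact hy, y, hy', rfl⟩
  rw [← setIntegral_eq_integral_of_forall_compl_eq_zero h0, hμ,
    integral_map hu.aemeasurable hg.aestronglyMeasurable,
    integral_withDensity_eq_integral_toReal_smul₀ hρ
      (Eventually.of_forall fun y => ENNReal.ofReal_lt_top), ← integral_const_mul]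
  refine setIntegral_congr_fun hKm fun y hy => ?_
  simp only [ρ, hue y hy, smul_eq_mul]
  rw [ENNReal.toReal_ofReal (by positivity)]
  ring

end Pool.Agent.Work.MP_bf98aa_gt.Ns
end
end

-- merged part: Pool.Agent.Work.MP_bf98aa_gt.Ns.Lat
section
/-!
Approximation of a continuous function by sums of plateau bumps.
Hints. One variable: r1 x = S((x + 1)/(2 kappa) + 1/2) - S((x - 1)/(2 kappa) + 1/2) with a step S (0 on x <= 0, 1 on x >= 1): r1 = 1 on |x| <= 1 - kappa, 0 on |x| >= 1 + kappa, and the sum over i in Z of r1 (x - 2 i) is 1 (telescoping; at most two nonzero terms).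
Product over the coordinates of VV m of r1 ((y - c)/R) with centres c in 2R Z^(2m+2). Keep the finitely many centres with g c > 0 (they lie in the compact K), with multiplicity floor (g c / d).
For y: the sum of rho c y over all lattice centres is 1, only centres within distance 2R contribute, uniform continuity of g. Reindex the sigma type by Fin N (Fintype.equivFin).
-/

set_option autoImplicit false
set_option maxSynthPendingDepth 3
set_option linter.unusedSectionVars false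
set_option linter.unusedVariables false

open Set Filter Topology Metric MeasureTheory
open scoped Manifold ContDiff

noncomputable section
namespace Pool.Agent.Work.MP_bf98aa_gt.Ns

open Pool.Agent.Work.MP_8c604c_gt

variable {V V' V'' : Type} [NormedAddCommGroup V] [NormedSpace ℝ V] [FiniteDimensional ℝ V]
  [NormedAddCommGroup V'] [NormedSpace ℝ V'] [FiniteDimensional ℝ V']
  [NormedAddCommGroup V''] [NormedSpace ℝ V''] [FiniteDimensional ℝ V''] {m : ℕ}

/-- A lattice partition of unity by plateau bumps. -/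
def lat_LP (κ R : ℝ) (W : Type) [NormedAddCommGroup W] [NormedSpace ℝ W] : Prop :=
  ∃ (Λ : Type) (c : Λ → W) (ρ : Λ → W → ℝ), (∀ l, Bump κ R (c l) (ρ l)) ∧
    (∀ r : ℝ, {l | ‖c l‖ ≤ r}.Finite) ∧
    ∀ y, ∃ F : Finset Λ, (∀ l, l ∉ F → ρ l y = 0) ∧ ∑ l ∈ F, ρ l y = 1

theorem lat_real {κ R : ℝ} (h0 : 0 < κ) (h1 : κ < 1) (hR : 0 < R) : lat_LP κ R ℝ := by
  have hk : 0 < κ * R := mul_pos h0 hR
  have hk1 : κ * R < R := by linarith only [h1, hR, mul_pos_of_neg_of_neg (Mathlib.Tactic.Linarith.sub_neg_of_lt h1) (Mathlib.Tactic.Linarith.sub_neg_of_lt hR)]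
  obtain ⟨S, hS, hS0, hS1, hS01, -⟩ := exists_step (show -(κ * R) < κ * R by linarith only [hk])
  refine ⟨ℤ, fun i => 2 * R * i, fun i x => S (x - 2 * R * i + R) - S (x - 2 * R * i - R),
    fun i => ⟨?_, fun x => ?_, fun x hx => ?_, fun x hx => ?_⟩, fun r => ?_, fun y => ?_⟩
  · exact (hS.comp (by fun_prop)).sub (hS.comp (by fun_prop))
  · have a := hS01 (x - 2 * R * i + R)
    have b := hS01 (x - 2 * R * i - R)
    refine ⟨?_, by linarith [a.2, b.1]⟩
    show 0 ≤ S (x - 2 * R * i + R) - S (x - 2 * R * i - R)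
    by_cases h : x - 2 * R * i - R ≤ -(κ * R)
    · rw [hS0 _ h]; linarith [a.1]
    · rw [hS1 (x - 2 * R * i + R) (by linarith only [hk1, h, not_le.1 h])]; linarith [b.2]
  · rw [Real.norm_eq_abs, abs_le] at hx
    show S (x - 2 * R * i + R) - S (x - 2 * R * i - R) = 1
    rw [hS1 (x - 2 * R * i + R) (by linarith [hx.1]), hS0 (x - 2 * R * i - R) (by linarith [hx.2])]
    ring
  · rw [Real.norm_eq_abs, le_abs'] at hx
    show S (x - 2 * R * i + R) - S (x - 2 * R * i - R) = 0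
    rcases hx with hx | hx
    · rw [hS0 (x - 2 * R * i + R) (by linarith), hS0 (x - 2 * R * i - R) (by linarith)]
      ring
    · rw [hS1 (x - 2 * R * i + R) (by linarith), hS1 (x - 2 * R * i - R) (by linarith)]
      ring
  · refine (Set.finite_Icc (⌊-(r / (2 * R))⌋) (⌈r / (2 * R)⌉)).subset fun i hi => ?_
    have hi' : |2 * R * (i : ℝ)| ≤ r := hi
    have h2 : 0 < 2 * R := by linarith
    rw [abs_le] at hi'
    have e1 : -(r / (2 * R)) ≤ (i : ℝ) := by
      rw [← neg_div, div_le_iff₀ h2]; linarith [hi'.1]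
    have e2 : (i : ℝ) ≤ r / (2 * R) := by
      rw [le_div_iff₀ h2]; linarith [hi'.2]
    constructor
    · exact_mod_cast (Int.floor_le _).trans e1
    · exact_mod_cast e2.trans (Int.le_ceil _)
  · have h2 : 0 < 2 * R := by linarith
    set k : ℤ := ⌊y / (2 * R)⌋ with hkd
    have e1 : 2 * R * (k : ℝ) ≤ y := by
      have := Int.floor_le (y / (2 * R))
      rw [le_div_iff₀ h2] at this; linarith only [this]
    have e2 : y < 2 * R * ((k : ℝ) + 1) := by
      have := Int.lt_floor_add_one (y / (2 * R))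
      rw [div_lt_iff₀ h2] at this; linarith only [this]
    refine ⟨{k, k + 1}, fun i hi => ?_, ?_⟩
    · simp only [Finset.mem_insert, Finset.mem_singleton, not_or] at hi
      show S (y - 2 * R * i + R) - S (y - 2 * R * i - R) = 0
      rcases lt_or_gt_of_ne hi.1 with h | h
      · have : (i : ℝ) + 1 ≤ k := by exact_mod_cast h
        have : 2 * R * ((i : ℝ) + 1) ≤ 2 * R * k := mul_le_mul_of_nonneg_left this h2.le
        rw [hS1 (y - 2 * R * i + R) (by linarith only [hk, hk1, e1, this]), hS1 (y - 2 * R * i - R) (by linarith)]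
        ring
      · have : (k : ℝ) + 2 ≤ i := by
          have : k + 2 ≤ i := by have := hi.2; omega
          exact_mod_cast this
        have : 2 * R * ((k : ℝ) + 2) ≤ 2 * R * i := mul_le_mul_of_nonneg_left this h2.le
        rw [hS0 (y - 2 * R * i + R) (by linarith only [hk1, e2, this]), hS0 (y - 2 * R * i - R) (by linarith only [hk, hk1, e2, this])]
        ring
    · rw [Finset.sum_pair (by omega)]
      show S (y - 2 * R * k + R) - S (y - 2 * R * k - R) +
        (S (y - 2 * R * ((k + 1 : ℤ) : ℝ) + R) - S (y - 2 * R * ((k + 1 : ℤ) : ℝ) - R)) = 1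
      push_cast
      rw [show y - 2 * R * ((k : ℝ) + 1) + R = y - 2 * R * k - R by ring,
        hS1 (y - 2 * R * k + R) (by linarith), hS0 (y - 2 * R * ((k : ℝ) + 1) - R) (by linarith only [hk1, e2])]
      ring

theorem lat_prod {κ R : ℝ} {W W' : Type} [NormedAddCommGroup W] [NormedSpace ℝ W]
    [NormedAddCommGroup W'] [NormedSpace ℝ W'] (h : lat_LP κ R W) (h' : lat_LP κ R W') :
    lat_LP κ R (W × W') := by
  obtain ⟨Λ, c, ρ, hb, hf, hs⟩ := h
  obtain ⟨Λ', c', ρ', hb', hf', hs'⟩ := h'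
  refine ⟨Λ × Λ', fun l => (c l.1, c' l.2), fun l y => ρ l.1 y.1 * ρ' l.2 y.2,
    fun l => ⟨?_, fun y => ?_, fun y hy => ?_, fun y hy => ?_⟩, fun r => ?_, fun y => ?_⟩
  · exact ((hb l.1).1.comp contDiff_fst).mul ((hb' l.2).1.comp contDiff_snd)
  · have a := (hb l.1).2.1 y.1
    have b := (hb' l.2).2.1 y.2
    exact ⟨mul_nonneg a.1 b.1, mul_le_one₀ a.2 b.1 b.2⟩
  · rw [Prod.norm_def, max_le_iff] at hy
    show ρ l.1 y.1 * ρ' l.2 y.2 = 1
    rw [(hb l.1).2.2.1 y.1 hy.1, (hb' l.2).2.2.1 y.2 hy.2, one_mul]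
  · rw [Prod.norm_def, le_max_iff] at hy
    show ρ l.1 y.1 * ρ' l.2 y.2 = 0
    rcases hy with hy | hy
    · rw [(hb l.1).2.2.2 y.1 hy, zero_mul]
    · rw [(hb' l.2).2.2.2 y.2 hy, mul_zero]
  · refine ((hf r).prod (hf' r)).subset fun l hl => ?_
    have hl' : ‖(c l.1, c' l.2)‖ ≤ r := hl
    rw [Prod.norm_def, max_le_iff] at hl'
    exact ⟨hl'.1, hl'.2⟩
  · obtain ⟨F, hF, hF1⟩ := hs y.1
    obtain ⟨F', hF', hF1'⟩ := hs' y.2
    refine ⟨F ×ˢ F', fun l hl => ?_, ?_⟩
    · show ρ l.1 y.1 * ρ' l.2 y.2 = 0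
      rw [Finset.mem_product, not_and_or] at hl
      rcases hl with hl | hl
      · rw [hF _ hl, zero_mul]
      · rw [hF' _ hl, mul_zero]
    · show ∑ l ∈ F ×ˢ F', ρ l.1 y.1 * ρ' l.2 y.2 = 1
      rw [Finset.sum_product' F F' fun a b => ρ a y.1 * ρ' b y.2, ← Finset.sum_mul_sum, hF1, hF1',
        one_mul]

theorem lat_pi {κ R : ℝ} (h0 : 0 < κ) (hR : 0 < R) {ι : Type} [Fintype ι] (h : lat_LP κ R ℝ) :
    lat_LP κ R (ι → ℝ) := by
  classical
  obtain ⟨Λ, c, ρ, hb, hf, hs⟩ := h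
  refine ⟨ι → Λ, fun l i => c (l i), fun l y => ∏ i, ρ (l i) (y i),
    fun l => ⟨?_, fun y => ?_, fun y hy => ?_, fun y hy => ?_⟩, fun r => ?_, fun y => ?_⟩
  · exact contDiff_prod fun i _ => (hb (l i)).1.comp (contDiff_apply ℝ ℝ i)
  · exact ⟨Finset.prod_nonneg fun i _ => ((hb (l i)).2.1 _).1,
      Finset.prod_le_one (fun i _ => ((hb (l i)).2.1 _).1) fun i _ => ((hb (l i)).2.1 _).2⟩
  · exact Finset.prod_eq_one fun i _ =>
      (hb (l i)).2.2.1 _ ((norm_le_pi_norm (y - fun i => c (l i)) i).trans hy)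
  · have hp : 0 < (1 + κ) * R := by positivity
    have : ∃ i, (1 + κ) * R ≤ ‖(y - fun i => c (l i)) i‖ := by
      by_contra hc
      push Not at hc
      exact absurd ((pi_norm_lt_iff hp).2 hc) (not_lt.2 hy)
    obtain ⟨i, hi⟩ := this
    exact Finset.prod_eq_zero (Finset.mem_univ i) ((hb (l i)).2.2.2 _ hi)
  · refine (Set.Finite.pi' fun _ : ι => hf r).subset fun l hl i => ?_
    exact (norm_le_pi_norm (fun i => c (l i)) i).trans hl
  · choose F hF hF1 using fun i => hs (y i)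
    refine ⟨Fintype.piFinset F, fun l hl => ?_, ?_⟩
    · rw [Fintype.mem_piFinset, not_forall] at hl
      obtain ⟨i, hi⟩ := hl
      exact Finset.prod_eq_zero (Finset.mem_univ i) (hF i _ hi)
    · show ∑ l ∈ Fintype.piFinset F, ∏ i, ρ (l i) (y i) = 1
      rw [← Finset.prod_univ_sum F fun i j => ρ j (y i)]
      exact Finset.prod_eq_one fun i _ => hF1 i

theorem lat_VV {κ R : ℝ} (h0 : 0 < κ) (h1 : κ < 1) (hR : 0 < R) : lat_LP κ R (VV m) :=
  lat_prod (lat_pi h0 hR (lat_real h0 h1 hR)) (lat_prod (lat_real h0 h1 hR) (lat_real h0 h1 hR))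

theorem lat_vol (c : VV m) {r : ℝ} (hr : 0 ≤ r) :
    (volume : Measure (VV m)).real (closedBall c r) = (2 * r) ^ (2 * m + 2) := by
  obtain ⟨x, t, s⟩ := c
  have h2 : 0 ≤ 2 * r := by linarith
  rw [Measure.real, ← closedBall_prod_same, ← closedBall_prod_same, Measure.volume_eq_prod,
    Measure.prod_prod, Measure.volume_eq_prod, Measure.prod_prod, Real.volume_pi_closedBall _ hr,
    Real.volume_closedBall, Real.volume_closedBall, ENNReal.toReal_mul, ENNReal.toReal_mul,
    ENNReal.toReal_ofReal h2, ENNReal.toReal_ofReal (pow_nonneg h2 _), Fintype.card_sum,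
    Fintype.card_fin]
  ring

theorem lat_approx {κ : ℝ} (h0 : 0 < κ) (h1 : κ < 1 / 10) {g : VV m → ℝ} (hg : Continuous g)
    (hg0 : ∀ y, 0 ≤ g y) {K : Set (VV m)} (hK : IsCompact K) (hgK : ∀ y, y ∉ K → g y = 0) {ε : ℝ}
    (hε : 0 < ε) : ∃ r : ℝ, 0 < r ∧ ∀ R ∈ Ioc 0 r, ∀ d ∈ Ioc 0 r,
      ∃ (N : ℕ) (c : Fin N → VV m) (ρ : Fin N → VV m → ℝ), (∀ i, Bump κ R (c i) (ρ i)) ∧
        (∀ i, c i ∈ K) ∧ ∀ y, |d * ∑ i, ρ i y - g y| ≤ ε := by
  classical
  have hc : HasCompactSupport g := HasCompactSupport.intro hK hgK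
  have hu : UniformContinuous g := hc.uniformContinuous_of_continuous hg
  obtain ⟨δ, hδ, hd⟩ := Metric.uniformContinuous_iff.1 hu (ε / 2) (by linarith only [hε])
  refine ⟨min (δ / 2) (ε / 2), lt_min (by linarith) (by linarith), fun R hR d hdd => ?_⟩
  have hRδ : R ≤ δ / 2 := hR.2.trans (min_le_left _ _)
  have hdε : d ≤ ε / 2 := hdd.2.trans (min_le_right _ _)
  obtain ⟨Λ, c, ρ, hb, hf, hs⟩ := lat_VV (m := m) h0 (by linarith only [h0, h1]) hR.1
  obtain ⟨r, hr⟩ := hK.isBounded.exists_norm_le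
  have hA : {l | c l ∈ K}.Finite := (hf r).subset fun l hl => hr _ hl
  let n : Λ → ℕ := fun l => ⌊g (c l) / d⌋₊
  let T : Type := Σ l : hA.toFinset, Fin (n l)
  let e := (Fintype.equivFin T).symm
  refine ⟨Fintype.card T, fun i => c (e i).1, fun i => ρ (e i).1, fun i => hb _,
    fun i => hA.mem_toFinset.1 (e i).1.2, fun y => ?_⟩
  obtain ⟨F, hF, hF1⟩ := hs y
  have e1 : ∑ i, ρ (e i).1 y = ∑ l ∈ F, (n l : ℝ) * ρ l y := by
    rw [Equiv.sum_comp e fun t : T => ρ t.1 y, Fintype.sum_sigma]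
    simp only [Finset.sum_const, Finset.card_univ, Fintype.card_fin, nsmul_eq_mul]
    rw [Finset.sum_coe_sort hA.toFinset fun l => (n l : ℝ) * ρ l y]
    refine Finset.sum_congr_of_eq_on_inter (fun l _ hl => ?_) (fun l _ hl => ?_) fun _ _ _ => rfl
    · rw [hF l hl, mul_zero]
    · have : g (c l) = 0 := hgK _ fun hk => hl (hA.mem_toFinset.2 hk)
      simp [n, this]
  have e2 : d * ∑ i, ρ (e i).1 y - g y = ∑ l ∈ F, (d * n l - g y) * ρ l y := by
    rw [e1, Finset.mul_sum]
    simp only [sub_mul, Finset.sum_sub_distrib, ← Finset.mul_sum, hF1, mul_one, mul_assoc]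
  show |d * ∑ i, ρ (e i).1 y - g y| ≤ ε
  rw [e2]
  calc |∑ l ∈ F, (d * n l - g y) * ρ l y| ≤ ∑ l ∈ F, |(d * n l - g y) * ρ l y| :=
        Finset.abs_sum_le_sum_abs _ _
    _ ≤ ∑ l ∈ F, ε * ρ l y := by
        refine Finset.sum_le_sum fun l _ => ?_
        have p := ((hb l).2.1 y).1
        rw [abs_mul, abs_of_nonneg p]
        by_cases hz : (1 + κ) * R ≤ ‖y - c l‖
        · rw [(hb l).2.2.2 y hz]; simp
        · refine mul_le_mul_of_nonneg_right ?_ p
          have hR0 := hR.1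
          have q : dist y (c l) < δ := by
            rw [dist_eq_norm]; linarith only [hRδ, hz, hR0, h0, h1, hδ, not_le.1 hz, mul_nonneg_of_nonpos_of_nonpos (le_of_lt (Mathlib.Tactic.Linarith.sub_neg_of_lt h0)) (Mathlib.Tactic.Linarith.sub_nonpos_of_le hRδ), mul_pos_of_neg_of_neg (Mathlib.Tactic.Linarith.sub_neg_of_lt h1) (Mathlib.Tactic.Linarith.sub_neg_of_lt hδ)]
          have q1 := hd q
          rw [Real.dist_eq, abs_lt] at q1
          have q2 : (n l : ℝ) ≤ g (c l) / d := Nat.floor_le (div_nonneg (hg0 _) hdd.1.le)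
          have q3 : g (c l) / d < n l + 1 := Nat.lt_floor_add_one _
          rw [le_div_iff₀ hdd.1] at q2
          rw [div_lt_iff₀ hdd.1] at q3
          rw [abs_le]
          constructor <;> linarith only [hdε, q1, q3, q2, q1.1, q1.2]
    _ = ε := by rw [← Finset.mul_sum, hF1, mul_one]

theorem Bump.integral {κ R : ℝ} (h0 : 0 < κ) (h1 : κ < 1) (hR : 0 < R) {c : VV m} {ρ : VV m → ℝ}
    (h : Bump κ R c ρ) : Integrable ρ ∧ (2 * ((1 - κ) * R)) ^ (2 * m + 2) ≤ ∫ y, ρ y ∧
      ∫ y, ρ y ≤ (2 * ((1 + κ) * R)) ^ (2 * m + 2) := by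
  have hs : HasCompactSupport ρ := by
    refine HasCompactSupport.intro (isCompact_closedBall c ((1 + κ) * R)) fun y hy => ?_
    rw [mem_closedBall, dist_eq_norm] at hy
    exact h.2.2.2 y (not_le.1 hy).le
  have hi : Integrable ρ := h.1.continuous.integrable_of_hasCompactSupport hs
  have ind : ∀ r : ℝ, Integrable ((closedBall c r).indicator fun _ => (1 : ℝ)) := fun r =>
    (integrable_indicator_iff measurableSet_closedBall).2
      (integrableOn_const (isCompact_closedBall c r).measure_lt_top.ne)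
  have val : ∀ r : ℝ, 0 ≤ r →
      ∫ y, (closedBall c r).indicator (fun _ => (1 : ℝ)) y = (2 * r) ^ (2 * m + 2) := by
    intro r hr
    rw [integral_indicator_const _ measurableSet_closedBall, smul_eq_mul, mul_one, lat_vol c hr]
  refine ⟨hi, ?_, ?_⟩
  · rw [← val _ (mul_nonneg (by linarith) hR.le)]
    refine integral_mono (ind _) hi fun y => ?_
    by_cases hy : y ∈ closedBall c ((1 - κ) * R)
    · rw [indicator_of_mem hy]
      rw [mem_closedBall, dist_eq_norm] at hy
      exact (h.2.2.1 y hy).ge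
    · rw [indicator_of_notMem hy]
      exact (h.2.1 y).1
  · rw [← val _ (mul_nonneg (by linarith) hR.le)]
    refine integral_mono hi (ind _) fun y => ?_
    by_cases hy : y ∈ closedBall c ((1 + κ) * R)
    · rw [indicator_of_mem hy]
      exact (h.2.1 y).2
    · rw [indicator_of_notMem hy]
      rw [mem_closedBall, dist_eq_norm] at hy
      exact (h.2.2.2 y (not_le.1 hy).le).le

end Pool.Agent.Work.MP_bf98aa_gt.Ns
end
end

-- merged part: Pool.Agent.Work.MP_bf98aa_gt.Ns.TeethEx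
section
/-!
Existence of the teeth (step 3, first half).
Plan. F = rat w tau is continuous, V = its integral > 0, F > 0 on the finite set Crit (there the wedge term vanishes). mu has no atoms (Vol), so there is dl > 0 and an open O0 containing Crit with F >= dl on O0, integral over O0 of |F| < V/10, dl * mu(M) < V/10.
C0 = integral of |dl - F|. Choose kappa so small that (1 + V/(4 (C0 + V))) (1-kappa)^(2m+3) (1+5 kappa) >= (1+kappa)^(2m+3) (1+2 kappa) (1+5 kappa)^(2m+2) (continuity at kappa = 0).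
Given delta: e2 with e2 sup|dl - F| < dl/4, delta2 from JJ_close, d3 = min delta delta2 / 2. At z off O0: adapted for b = w z + wedge df theta, restricted (par_restr) to a ball on which LevClose d3 (loc2 e w) (on levels the wedge term vanishes, loc1_dfM gives ds) and PP (loc2 e tau) > 0.
Finite subcover, exists_pou with O0; g a = chi a (dl - F) PP (loc2 e tau) extended by zero, compact support K a, a compact neighbourhood K' a in the source. lat_approx for the positive part (radius Rm, unit dm) and the negative part (radius Rp, unit dp = (1+kappa) dm), 5 Rp smaller than the margin of K a in K' a.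
est: at z, pf (b + wedge df slope) / pf tau = pf b / pf tau + sum amp rho JJ (loc b) / PP (loc tau) (pf_add_wedge, jj_sum, jj_smul, jj_ratio); the perturbation is eps times a form bounded in each K' a; off all e '' K' a it vanishes and F >= dl.
count: integrate the one-sided bounds (Vol, Bump.integral).
-/

set_option autoImplicit false
set_option maxSynthPendingDepth 3
set_option linter.unusedSectionVars false
set_option linter.unusedVariables false

open Set Filter Topology Metric MeasureTheory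
open scoped Manifold ContDiff

noncomputable section
namespace Pool.Agent.Work.MP_bf98aa_gt.Ns

open Pool.Agent.Work.MP_8c604c_gt

variable {V V' E : Type} [NormedAddCommGroup V] [NormedSpace ℝ V] [FiniteDimensional ℝ V]
  [NormedAddCommGroup V'] [NormedSpace ℝ V'] [FiniteDimensional ℝ V']
  [NormedAddCommGroup E] [NormedSpace ℝ E] [FiniteDimensional ℝ E] {M : Type} [TopologicalSpace M]
  [ChartedSpace E M] [IsManifold 𝓘(ℝ, E) ∞ M] {m : ℕ}

theorem teethex_ds {f : M → ℝ} (hf : Sm0 E f) (e : Par (VV m) E M)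
    (lev : ∀ y ∈ e.source, f (e y) = y.2.2) {y : VV m} (hy : y ∈ e.source) :
    (dfM E f (e y)).comp (e.D y) = ds m := by
  have h : (fun z => f (e z)) =ᶠ[𝓝 y] ds m := by
    filter_upwards [e.open_source.mem_nhds hy] with x hx using lev x hx
  exact (loc1_dfM hf e hy).trans (h.fderiv_eq.trans (ds m).fderiv)

theorem teethex_val {f : M → ℝ} (hf : Sm0 E f) (e : Par (VV m) E M)
    (lev : ∀ y ∈ e.source, f (e y) = y.2.2) (ρ : VV m → ℝ) (b t : B2 E) {y : VV m}
    (hy : y ∈ e.source) :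
    jj b (dfM E f (e y)) (push1 e (fun y => ρ y • dt m) (e y)) / pf t =
      ρ y * JJ (pb (e.D y) b) / PP (pb (e.D y) t) := by
  have h2 : (push1 e (fun y => ρ y • dt m) (e y)).comp (e.D y) = ρ y • dt m := loc1_push1 e _ hy
  rw [← jj_ratio (e.D_bij hy), teethex_ds hf e lev hy, h2, jj_smul finrank_VV, JJ, PP,
    mul_div_assoc, mul_div_assoc, div_div_div_cancel_right₀ pf_ws_ne]

theorem teethex_cont {ι : Type} [Fintype ι] {u τ : M → B2 E} {v : ι → M → B2 E} (hu : Sm2 u)
    (hτ : Sm2 τ) (hv : ∀ i, Sm2 (v i)) (h : ∀ z, pf (τ z) ≠ 0) :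
    Continuous fun p : (ι → ℝ) × M => pf (u p.2 + ∑ i, p.1 i • v i p.2) / pf (τ p.2) := by
  refine continuous_iff_continuousAt.2 fun p => ?_
  set e := Par.chart E p.2 with he
  have hz : p.2 ∈ e.target := mem_chart_source E p.2
  have c0 : ContinuousAt (fun q : (ι → ℝ) × M => e.inv q.2) p :=
    ContinuousAt.comp (g := e.inv) (f := Prod.snd)
      (e.continuousOn_invFun.continuousAt (e.open_target.mem_nhds hz)) continuousAt_snd
  have c1 : ∀ {a : M → B2 E}, Sm2 a → ContinuousAt (fun q : (ι → ℝ) × M => loc2 e a (e.inv q.2)) p :=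
    fun ha => ContinuousAt.comp (f := fun q : (ι → ℝ) × M => e.inv q.2)
      ((ha.loc e).continuousOn.continuousAt (e.open_source.mem_nhds (e.map_tgt hz))) c0
  have c2 : ContinuousAt (fun q : (ι → ℝ) × M => pf (loc2 e u (e.inv q.2) +
      ∑ i, q.1 i • loc2 e (v i) (e.inv q.2)) / pf (loc2 e τ (e.inv q.2))) p := by
    refine ContinuousAt.div (contDiff_pf.continuous.continuousAt.comp ((c1 hu).add ?_))
      (contDiff_pf.continuous.continuousAt.comp (c1 hτ)) ?_
    · exact tendsto_finsetSum _ fun i _ =>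
        (((continuous_apply i).comp continuous_fst).continuousAt.smul (c1 (hv i)))
    · obtain ⟨k, hk, h2⟩ := pf_bij (e.D_bij (e.map_tgt hz))
      rw [loc2, h2]
      exact mul_ne_zero hk (h _)
  refine c2.congr ?_
  filter_upwards [continuousAt_snd.preimage_mem_nhds (e.open_target.mem_nhds hz)] with q hq
  rw [← pf_ratio (e.D_bij (e.map_tgt hq)) (u q.2 + _), pb_add, pb_sum]
  simp only [loc2, pb_smul, e.apply_inv hq]

theorem teethex_lev {δ η : ℝ} {b c : B2 (VV m)} (h : LevClose δ b) (hc : ‖c‖ ≤ η) :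
    LevClose (δ + η) (b + c) := by
  intro u v hu hv
  have h1 : |c u v| ≤ η * ‖u‖ * ‖v‖ := (c.le_opNorm₂ u v).trans (by gcongr)
  have e : (b + c) u v - ws m u v = (b u v - ws m u v) + c u v := by
    simp only [_root_.add_apply]; ring
  rw [e]
  refine (abs_add_le _ _).trans ?_
  linarith only [h1, h, hu, hv, h u v hu hv]

theorem teethex_mono {δ η : ℝ} {b : B2 (VV m)} (h : LevClose δ b) (hc : δ ≤ η) : LevClose η b :=
  fun u v hu hv => (h u v hu hv).trans (by gcongr)

/-- The teeth before the perturbation. -/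
structure teethex_Pre (T : Teeth m E M) (κ δ : ℝ) (f : M → ℝ) (w τ : M → B2 E) : Prop where
  Rm_pos : 0 < T.Rm
  Rp_eq : T.Rp = (1 + 5 * κ) * T.Rm
  dm_pos : 0 < T.dm
  dm_lt : T.dm < T.dp
  bump : ∀ j, Bump κ (T.rad j) (T.c j) (T.ρ j)
  sub : ∀ j, closedBall (T.c j) (5 * T.Rp) ⊆ (T.e j).source
  lev : ∀ j, ∀ y ∈ (T.e j).source, f (T.e j y) = y.2.2
  ori : ∀ j, ∀ y ∈ closedBall (T.c j) (5 * T.Rp), 0 < PP (loc2 (T.e j) τ y)
  count : ((Finset.univ.filter fun j => T.neg j = true).card : ℝ) * ((1 + 2 * κ) * T.Rm) ≤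
    ((Finset.univ.filter fun j => T.neg j = false).card : ℝ) * ((1 - κ) * T.Rp)
  est1 : ∀ z, 0 < pf (w z + wedge (dfM E f z) (T.slope z)) / pf (τ z)
  est3 : ∀ j, ∀ y ∈ closedBall (T.c j) (5 * T.Rp), LevClose δ (loc2 (T.e j) w y)

theorem teethex_B [CompactSpace M] [T2Space M] {f : M → ℝ} (hf : Sm0 E f) {τ w : M → B2 E}
    (hτ : Sm2 τ) (hn : ∀ z, pf (τ z) ≠ 0) (hw : Cl2 w) {κ δ δ' : ℝ} (h0 : 0 < κ) (h1 : κ < 1)
    (hδ : 0 < δ') (h2 : 2 * δ' ≤ δ)
    (hJ : ∀ b : B2 (VV m), Skew b → LevClose (2 * δ') b → 0 ≤ JJ b) {T : Teeth m E M}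
    (h : teethex_Pre T κ δ' f w τ) : ∃ T' : Teeth m E M, T'.Ok κ δ f w τ := by
  have hR : ∀ j, 0 < T.rad j ∧ T.rad j ≤ T.Rp := fun j => by
    have := mul_pos h0 h.Rm_pos
    have := h.Rp_eq
    have := h.Rm_pos
    unfold Teeth.rad
    split_ifs
    · constructor <;> linarith
    · constructor <;> linarith
  have z0 : ∀ j y, y ∉ closedBall (T.c j) (5 * T.Rp) → T.ρ j y • dt m = 0 := fun j y hy => by
    rw [mem_closedBall, dist_eq_norm, not_le] at hy
    rw [(h.bump j).2.2.2 y (by (refine le_of_not_gt fun h_nl => ?_; linarith only [h_nl, hR, h0, hy, h1, hR j, mul_pos_of_neg_of_neg (Mathlib.Tactic.Linarith.sub_neg_of_lt h0) (Mathlib.Tactic.Linarith.sub_neg_of_lt hy), mul_pos_of_neg_of_neg (Mathlib.Tactic.Linarith.sub_neg_of_lt h0) (Mathlib.Tactic.Linarith.sub_neg_of_lt h_nl), mul_pos_of_neg_of_neg (Mathlib.Tactic.Linarith.sub_neg_of_lt h1) (Mathlib.Tactic.Linarith.sub_neg_of_lt hy), mul_pos_of_neg_of_neg (Mathlib.Tactic.Linarith.sub_neg_of_lt h1)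 (Mathlib.Tactic.Linarith.sub_neg_of_lt h_nl), mul_pos_of_neg_of_neg (Mathlib.Tactic.Linarith.sub_neg_of_lt h1) (Mathlib.Tactic.Linarith.sub_neg_of_lt (hR j).left)])), zero_smul]
  have sl : ∀ j, Sm1 (T.lam j) := fun j =>
    sm1_push1 _ (isCompact_closedBall _ _) (h.sub j)
      ((h.bump j).1.smul contDiff_const).contDiffOn fun y _ => z0 j y
  have sd : ∀ j, Cl2 (dM (T.lam j)) := fun j => cl2_dM (sl j)
  have ss : Sm1 T.slope := sm1_sum _ fun j _ => Sm1.smul contMDiff_const (sl j)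
  have e1 : ∀ᶠ s : Fin T.N → ℝ in 𝓝 0, ∀ z ∈ univ, 0 <
      pf (w z + wedge (dfM E f z) (T.slope z) + ∑ j, s j • dM (T.lam j) z) / pf (τ z) := by
    refine isCompact_univ.eventually_forall_of_forall_eventually fun z _ => ?_
    refine (teethex_cont (hw.sm2.add (sm2_wedge (sm1_dfM hf) ss)) hτ (fun j => (sd j).sm2)
      hn).continuousAt.eventually (lt_mem_nhds ?_)
    simpa using h.est1 z
  have e3 : ∀ᶠ s : Fin T.N → ℝ in 𝓝 0, ∀ j, ∀ y ∈ closedBall (T.c j) (5 * T.Rp),
      ‖∑ i, s i • loc2 (T.e j) (dM (T.lam i)) y‖ < δ' := by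
    refine eventually_all.2 fun j =>
      (isCompact_closedBall _ _).eventually_forall_of_forall_eventually fun y hy => ?_
    have c : ContinuousAt (fun q : (Fin T.N → ℝ) × VV m =>
        ∑ i, q.1 i • loc2 (T.e j) (dM (T.lam i)) q.2) (0, y) :=
      tendsto_finsetSum _ fun i _ => ((continuous_apply i).comp continuous_fst).continuousAt.smul
        (ContinuousAt.comp (f := Prod.snd) (((sd i).sm2.loc (T.e j)).continuousOn.continuousAt
          ((T.e j).open_source.mem_nhds (h.sub j hy))) continuousAt_snd)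
    refine c.norm.eventually (gt_mem_nhds ?_)
    simpa using hδ
  obtain ⟨η, hη, hb⟩ := Metric.eventually_nhds_iff.1 (e1.and e3)
  have dp0 : 0 < T.dp := h.dm_pos.trans h.dm_lt
  have key : ∀ ε ∈ Icc 0 (η / (4 * T.dp)), ∀ σ : Fin T.N → ℝ, (∀ j, |σ j| ≤ 2) →
      ∃ s : Fin T.N → ℝ, dist s 0 < η ∧ ∀ z, T.pert w ε σ z = w z + ∑ j, s j • dM (T.lam j) z := by
    intro ε hε σ hσ
    refine ⟨fun j => ε * (T.amp j * σ j), ?_, fun z => ?_⟩
    · rw [dist_zero_right, pi_norm_lt_iff hη]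
      intro j
      have a1 : |T.amp j| ≤ T.dp := by
        unfold Teeth.amp
        split_ifs
        · rw [abs_of_pos h.dm_pos]; exact h.dm_lt.le
        · rw [abs_neg, abs_of_pos dp0]
      have a2 := (le_div_iff₀ (by positivity)).1 hε.2
      rw [Real.norm_eq_abs, abs_mul, abs_mul, abs_of_nonneg hε.1]
      have := mul_le_mul_of_nonneg_left (mul_le_mul a1 (hσ j) (abs_nonneg _) dp0.le) hε.1
      linarith only [hη, a2, this]
    · simp only [Teeth.pert, Finset.smul_sum, smul_smul]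
  have k3 : ∀ ε ∈ Icc 0 (η / (4 * T.dp)), ∀ σ : Fin T.N → ℝ, (∀ j, |σ j| ≤ 2) → ∀ j,
      ∀ y ∈ closedBall (T.c j) (5 * T.Rp),
      LevClose (2 * δ') (pb ((T.e j).D y) (T.pert w ε σ (T.e j y))) := by
    intro ε hε σ hσ j y hy
    obtain ⟨s, hs, e⟩ := key ε hε σ hσ
    rw [e, pb_add, pb_sum, two_mul]
    exact teethex_lev (h.est3 j y hy) ((hb hs).2 j y hy).le
  refine ⟨{ T with ε0 := η / (4 * T.dp) }, h.Rm_pos, h.Rp_eq, h.dm_pos, h.dm_lt,
    by positivity, h.bump, h.sub, h.lev, h.ori, h.count, fun ε hε σ hσ z => ?_,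
    fun ε hε σ hσ j z => ?_, fun ε hε σ hσ j y hy => teethex_mono (k3 ε hε σ hσ j y hy) h2⟩
  · obtain ⟨s, hs, e⟩ := key ε hε σ hσ
    show 0 < pf (T.pert w ε σ z + wedge (dfM E f z) (T.slope z)) / pf (τ z)
    rw [e, add_right_comm]
    exact (hb hs).1 z trivial
  · show 0 ≤ jj (T.pert w ε σ z) (dfM E f z) (T.lam j z) / pf (τ z)
    by_cases hz : z ∈ T.e j '' closedBall (T.c j) (5 * T.Rp)
    · obtain ⟨y, hy, rfl⟩ := hz
      rw [Teeth.lam, teethex_val hf _ (h.lev j) _ _ _ (h.sub j hy)]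
      refine div_nonneg (mul_nonneg ((h.bump j).2.1 y).1 (hJ _ (skew_pb ?_ _)
        (k3 ε hε σ hσ j y hy))) (h.ori j y hy).le
      exact (hw.skew _).add ((skew_sum _ fun i _ => ((sd i).skew _).smul _).smul _)
    · rw [Teeth.lam, push1_zero _ (fun y _ => z0 j y) hz, jj_zero, zero_div]

theorem teethex_chart (hE : Module.finrank ℝ E = 2 * m + 2) {f : M → ℝ} (hf : Sm0 E f)
    {τ w : M → B2 E} (hτ : Sm2 τ) (hw : Cl2 w) {z : M} {θ : B1 E}
    (hT : 0 < pf (w z + wedge (dfM E f z) θ) / pf (τ z)) (hz : dfM E f z ≠ 0) {d : ℝ}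
    (hd : 0 < d) : ∃ e : Par (VV m) E M, z ∈ e.target ∧ ∀ y ∈ e.source,
      f (e y) = y.2.2 ∧ LevClose d (loc2 e w y) ∧ 0 < PP (loc2 e τ y) := by
  have hs : Skew (w z + wedge (dfM E f z) θ) := (hw.skew z).add (skew_wedge _ _)
  obtain ⟨e, y0, hy0, rfl, h1, lev⟩ := adapted hE hf hz hs
    (nd_of_pf hE hs fun h => by rw [h, zero_div] at hT; exact lt_irrefl _ hT)
  have h2 : 0 < PP (loc2 e τ y0) := by
    rw [← pf_ratio (e.D_bij hy0), h1] at hT
    rw [PP, ← inv_div]
    exact inv_pos.2 hT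
  have h3 : LevClose 0 (loc2 e w y0) := by
    intro u v hu hv
    rw [← h1, pb_add, pb_wedge, teethex_ds hf e lev hy0, _root_.add_apply, _root_.add_apply,
      wedge_apply, ds_apply, ds_apply, hu, hv]
    simp [loc2]
  have c1 : ∀ {a : M → B2 E}, Sm2 a → ContinuousAt (loc2 e a) y0 := fun ha =>
    (ha.loc e).continuousOn.continuousAt (e.open_source.mem_nhds hy0)
  have h4 : ∀ᶠ y in 𝓝 y0, ‖loc2 e w y - loc2 e w y0‖ < d ∧ 0 < PP (loc2 e τ y) := by
    refine Eventually.and ?_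
      ((continuous_PP.continuousAt.comp (c1 hτ)).eventually (lt_mem_nhds h2))
    refine ((c1 hw.sm2).sub continuousAt_const).norm.eventually (gt_mem_nhds ?_)
    simpa using hd
  obtain ⟨O, hO, hOo, hy⟩ := _root_.eventually_nhds_iff.1 h4
  obtain ⟨e', hs', he'⟩ := par_restr e hOo
  have ef : (e' : VV m → M) = e := funext he'
  have el : ∀ a : M → B2 E, loc2 e' a = loc2 e a := fun a => by
    funext y
    simp only [loc2, Par.D, ef]
  refine ⟨e', he' y0 ▸ e'.map_src (hs' ▸ ⟨hy0, hy⟩), fun y hy' => ?_⟩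
  rw [hs'] at hy'
  rw [el, el, he']
  refine ⟨lev y hy'.1, ?_, (hO y hy'.2).2⟩
  have := teethex_lev h3 (hO y hy'.2).1.le
  rwa [zero_add, add_sub_cancel] at this

theorem teethex_cover [CompactSpace M] [T2Space M] {O : Set M} (hO : IsOpen O)
    {Q : Par (VV m) E M → Prop} (h : ∀ z, z ∉ O → ∃ e, z ∈ e.target ∧ Q e) :
    ∃ (A : Type) (_ : Fintype A) (e : A → Par (VV m) E M) (χ0 : M → ℝ) (χ : A → M → ℝ)
      (K : A → Set (VV m)), (∀ a, Q (e a)) ∧ Continuous χ0 ∧ (∀ a, Continuous (χ a)) ∧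
      (∀ z, 0 ≤ χ0 z) ∧ (∀ a z, 0 ≤ χ a z) ∧ (∀ z, χ0 z + ∑ a, χ a z = 1) ∧
      (∀ z, z ∉ O → χ0 z = 0) ∧ (∀ a, IsCompact (K a)) ∧ (∀ a, K a ⊆ (e a).source) ∧
      ∀ a z, z ∉ e a '' K a → χ a z = 0 := by
  classical
  choose e h1 h2 using h
  obtain ⟨t, ht⟩ := hO.isClosed_compl.isCompact.elim_nhds_subcover'
    (fun z hz => (e z hz).target) fun z hz => (e z hz).open_target.mem_nhds (h1 z hz)
  obtain ⟨χ, K, a1, a2, a3, a4, a5, a6⟩ := exists_pou (E := E) (κ := Option t)
    (U := fun i => i.elim O fun a => (e a.1.1 a.1.2).target)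
    (fun i => by
      cases i
      · exact hO
      · exact OpenPartialHomeomorph.open_target _)
    fun z => by
      by_cases hz : z ∈ O
      · exact ⟨none, hz⟩
      · obtain ⟨a, ha, hz'⟩ := mem_iUnion₂.1 (ht hz)
        exact ⟨some ⟨a, ha⟩, hz'⟩
  choose K' b1 b2 b3 using fun a : t =>
    (e a.1.1 a.1.2).exists_compact (a4 (some a)) (a5 (some a))
  refine ⟨t, inferInstance, fun a => e a.1.1 a.1.2, χ none, fun a => χ (some a), K',
    fun a => h2 _ _, (a1 _).continuous, fun a => (a1 _).continuous, a2 _, fun a => a2 _,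
    fun z => ?_, fun z hz => a6 _ z fun hK => hz (a5 none hK), b1, b2,
    fun a z hz => a6 _ z (b3 a ▸ hz)⟩
  rw [← a3 z, Fintype.sum_option]

/-- The volume formula with a given constant. -/
def teethex_V (m : ℕ) [MeasurableSpace M] (τ : M → B2 E) (μ : Measure M) (c : ℝ) : Prop :=
  ∀ (e : Par (VV m) E M) (K : Set (VV m)), IsCompact K →
    K ⊆ e.source → ∀ h : M → ℝ, Continuous h → (∀ z, z ∉ e '' K → h z = 0) →
      ∫ z, h z ∂μ = c * ∫ y in K, h (e y) * |PP (loc2 e τ y)|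

theorem teethex_small1 [T2Space M] [MeasurableSpace M] (hE : Module.finrank ℝ E = 2 * m + 2)
    {τ : M → B2 E} (hτ : Sm2 τ) (hn : ∀ z, Skew (τ z) ∧ Nd (τ z)) {μ : Measure M} {c : ℝ}
    (hc : 0 < c) (hμ : teethex_V m τ μ c) (z : M) {η : ℝ} (hη : 0 < η) :
    ∃ ψ : M → ℝ, Continuous ψ ∧ (∀ x, 0 ≤ ψ x) ∧ (∀ᶠ x in 𝓝 z, 1 ≤ ψ x) ∧ ∫ x, ψ x ∂μ ≤ η := by
  obtain ⟨e, hz, -⟩ := pos_par hE hτ z (hn z)
  obtain ⟨y, hy, rfl⟩ : ∃ y ∈ e.source, e y = z := ⟨_, e.map_tgt hz, e.apply_inv hz⟩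
  obtain ⟨r0, hr0, hb⟩ := nhds_basis_closedBall.mem_iff.1 (e.open_source.mem_nhds hy)
  obtain ⟨B, hB⟩ := (isCompact_closedBall y r0).exists_bound_of_continuousOn
    (continuous_PP.comp_continuousOn ((hτ.loc e).continuousOn.mono hb))
  have t1 : Tendsto (fun r => c * (B * (volume (cthickening r {y})).toReal)) (𝓝 0) (𝓝 0) := by
    have : NullSingletonClass (volume : Measure (ℝ × ℝ)) :=
      inferInstanceAs (NullSingletonClass ((volume : Measure ℝ).prod volume))
    have : NullSingletonClass (volume : Measure (VV m)) :=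
      inferInstanceAs (NullSingletonClass ((volume : Measure (XX m)).prod volume))
    have := tendsto_measure_cthickening_of_isCompact (μ := volume) (isCompact_singleton (x := y))
    rw [measure_singleton] at this
    simpa using (((ENNReal.tendsto_toReal ENNReal.zero_ne_top).comp this).const_mul B).const_mul c
  obtain ⟨r, ⟨h1, h2⟩, h3⟩ := ((((t1.eventually (gt_mem_nhds hη)).and
    (gt_mem_nhds hr0)).filter_mono nhdsWithin_le_nhds).and
      (self_mem_nhdsWithin (s := Ioi (0 : ℝ)))).exists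
  have hr : 0 < r := h3
  rw [cthickening_singleton _ hr.le] at h1
  have hs : closedBall y r ⊆ closedBall y r0 := closedBall_subset_closedBall h2.le
  obtain ⟨χ, k1, k2, k3, k4⟩ := exists_ball_cut y (half_pos hr).le (half_lt_self hr)
  have k5 : ∀ x ∈ e.source, x ∉ closedBall y r → χ x = 0 := fun x _ hx => by
    rw [mem_closedBall, dist_eq_norm, not_le] at hx
    exact k3 x hx.le
  have hc' : Continuous (push0 e χ) :=
    (sm0_push0 e (isCompact_closedBall y r) (hs.trans hb) k1.contDiffOn k5).continuous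
  refine ⟨push0 e χ, hc', fun x => ?_, ?_, ?_⟩
  · unfold push0
    split_ifs
    · exact (k4 _).1
    · exact le_rfl
  · have hs' : ball y (r / 2) ⊆ e.source :=
      (ball_subset_closedBall.trans (closedBall_subset_closedBall (by linarith only [h3, h2]))).trans hb
    filter_upwards [(e.isOpen_image isOpen_ball hs').mem_nhds
      ⟨y, mem_ball_self (half_pos hr), rfl⟩]
    rintro _ ⟨x, hx, rfl⟩
    rw [push0_apply e χ (hs' hx), k2 x (mem_ball_iff_norm.1 hx).le]
  · rw [hμ e _ (isCompact_closedBall y r) (hs.trans hb) _ hc' fun x hx => push0_zero e k5 hx]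
    refine le_trans (mul_le_mul_of_nonneg_left ((Real.le_norm_self _).trans
      (norm_setIntegral_le_of_norm_le_const (C := B) (isCompact_closedBall y r).measure_lt_top
        fun x hx => ?_)) hc.le) h1.le
    rw [push0_apply e χ (hb (hs hx)), norm_mul, Real.norm_of_nonneg (k4 x).1, Real.norm_eq_abs,
      abs_abs]
    exact (mul_le_of_le_one_left (abs_nonneg _) (k4 x).2).trans (hB x (hs hx))

theorem teethex_int [CompactSpace M] [MeasurableSpace M] [BorelSpace M] {μ : Measure M}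
    [IsFiniteMeasure μ] {h : M → ℝ} (hh : Continuous h) : Integrable h μ :=
  hh.integrable_of_hasCompactSupport (HasCompactSupport.of_compactSpace h)

theorem teethex_small [CompactSpace M] [T2Space M] [MeasurableSpace M] [BorelSpace M]
    (hE : Module.finrank ℝ E = 2 * m + 2)
    {τ : M → B2 E} (hτ : Sm2 τ) (hn : ∀ z, Skew (τ z) ∧ Nd (τ z)) {μ : Measure M}
    [IsFiniteMeasure μ] {c : ℝ} (hc : 0 < c) (hμ : teethex_V m τ μ c) {S : Set M} (hS : S.Finite) :
    ∀ η : ℝ, 0 < η → ∃ ψ : M → ℝ, Continuous ψ ∧ (∀ x, 0 ≤ ψ x) ∧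
      (∀ z ∈ S, ∀ᶠ x in 𝓝 z, 1 ≤ ψ x) ∧ ∫ x, ψ x ∂μ ≤ η := by
  induction S, hS using Set.Finite.induction_on with
  | empty =>
    exact fun η hη => ⟨fun _ => 0, continuous_const, fun _ => le_rfl, fun _ h => h.elim,
      by simpa using hη.le⟩
  | @insert z S _ _ ih =>
    intro η hη
    obtain ⟨ψ, a1, a2, a3, a4⟩ := ih _ (half_pos hη)
    obtain ⟨φ, b1, b2, b3, b4⟩ := teethex_small1 hE hτ hn hc hμ z (half_pos hη)
    refine ⟨fun x => ψ x + φ x, a1.add b1, fun x => add_nonneg (a2 x) (b2 x), ?_, ?_⟩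
    · rintro x (rfl | hx)
      · exact b3.mono fun y hy => by linarith only [hy, a2, a2 y]
      · exact (a3 x hx).mono fun y hy => by linarith only [hy, b2, b2 y]
    · rw [integral_add (teethex_int a1) (teethex_int b1)]
      linarith only [a4, b4]

theorem teethex_loc [T2Space M] [MeasurableSpace M] {f : M → ℝ} (hf : Sm0 E f) {τ w : M → B2 E}
    (hτ : Sm2 τ) {μ : Measure M} {c : ℝ} (hc : 0 < c) (hμ : teethex_V m τ μ c) {κ : ℝ}
    (h0 : 0 < κ) (h1 : κ < 1 / 10) (e : Par (VV m) E M) {e2 : ℝ} (he2 : e2 ≤ 1)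
    (hq : ∀ y ∈ e.source, f (e y) = y.2.2 ∧ |JJ (loc2 e w y) - 1| ≤ e2 ∧ 0 < PP (loc2 e τ y))
    {K : Set (VV m)} (hK : IsCompact K) (hKe : K ⊆ e.source) {h : M → ℝ} (hh : Continuous h)
    (hh0 : ∀ z, 0 ≤ h z) (hz : ∀ z, z ∉ e '' K → h z = 0) {ε : ℝ} (hε : 0 < ε) :
    ∃ r : ℝ, 0 < r ∧ (∀ y ∈ K, closedBall y r ⊆ e.source) ∧ ∀ R ∈ Ioc 0 r, ∀ d ∈ Ioc 0 r,
      ∃ (N : ℕ) (x : Fin N → VV m) (ρ : Fin N → VV m → ℝ), (∀ i, Bump κ R (x i) (ρ i)) ∧
        (∀ i, x i ∈ K) ∧
        (∀ z, |d * ∑ i, jj (w z) (dfM E f z) (push1 e (fun y => ρ i y • dt m) z) / pf (τ z) - h z| ≤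
          2 * ε + e2 * h z) ∧
        c * (d * (N * (2 * ((1 - κ) * R)) ^ (2 * m + 2))) ≤ ∫ z, h z ∂μ + ε ∧
        ∫ z, h z ∂μ - ε ≤ c * (d * (N * (2 * ((1 + κ) * R)) ^ (2 * m + 2))) := by
  classical
  obtain ⟨r0, hr0, hth⟩ := hK.exists_cthickening_subset_open e.open_source hKe
  have hK' : IsCompact (cthickening r0 K) := hK.cthickening
  have hP : ContinuousOn (fun y => PP (loc2 e τ y)) e.source :=
    continuous_PP.comp_continuousOn (hτ.loc e).continuousOn
  obtain ⟨p0, hp0, hp⟩ : ∃ p0 : ℝ, 0 < p0 ∧ ∀ y ∈ cthickening r0 K, p0 ≤ PP (loc2 e τ y) := by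
    obtain ⟨p0, a, b⟩ := hK'.exists_forall_le' (hP.mono hth) fun y hy => (hq y (hth hy)).2.2
    exact ⟨p0, a, b⟩
  set g : VV m → ℝ := e.source.indicator fun y => h (e y) * PP (loc2 e τ y) with hg
  have g1 : ∀ y ∈ e.source, g y = h (e y) * PP (loc2 e τ y) := fun y hy => indicator_of_mem hy _
  have h2 : ∀ y ∈ e.source, y ∉ K → h (e y) = 0 := fun y hy hy' => hz _ fun ⟨x, hx, ex⟩ =>
    hy' (e.inj (hKe hx) hy ex ▸ hx)
  have g2 : ∀ y, y ∉ K → g y = 0 := fun y hy => by
    by_cases h3 : y ∈ e.source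
    · rw [g1 y h3, h2 y h3 hy, zero_mul]
    · exact indicator_of_notMem h3 _
  have g3 : Continuous g := by
    refine continuous_of_tsupport fun y hy => ?_
    have hy' : y ∈ e.source := hKe (closure_minimal
      (fun x (hx : g x ≠ 0) => by_contra fun hx' => hx (g2 x hx')) hK.isClosed hy)
    exact (((hh.comp_continuousOn e.cont).mul hP).congr g1).continuousAt
      (e.open_source.mem_nhds hy')
  have g0 : ∀ y, 0 ≤ g y := indicator_nonneg fun y hy => mul_nonneg (hh0 _) (hq y hy).2.2.le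
  set W : ℝ := volume.real (cthickening r0 K) with hW
  have W0 : 0 ≤ W := measureReal_nonneg
  obtain ⟨η, hη, η1, η2⟩ : ∃ η : ℝ, 0 < η ∧ η ≤ ε * p0 ∧ c * (η * W) ≤ ε := by
    refine ⟨min (ε * p0) (ε / (c * W + 1)), by positivity, min_le_left _ _, ?_⟩
    have a1 := (le_div_iff₀ (by positivity)).1 (min_le_right (ε * p0) (ε / (c * W + 1)))
    have a2 : 0 < min (ε * p0) (ε / (c * W + 1)) := by positivity
    linarith only [a1, a2]
  obtain ⟨r, hr, hl⟩ := lat_approx h0 h1 g3 g0 hK g2 hη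
  refine ⟨min r (r0 / 2), by positivity, fun y hy => ?_, fun R hR d hd => ?_⟩
  · refine Subset.trans ?_ hth
    exact (closedBall_subset_closedBall ((min_le_right _ _).trans (half_le_self hr0.le))).trans
      (closedBall_subset_cthickening hy r0)
  obtain ⟨N, x, ρ, a1, a2, a3⟩ := hl R ⟨hR.1, hR.2.trans (min_le_left _ _)⟩ d
    ⟨hd.1, hd.2.trans (min_le_left _ _)⟩
  have hR2 := hR.2.trans (min_le_right _ _)
  have a4 : ∀ y, y ∉ cthickening r0 K → d * ∑ i, ρ i y - g y = 0 := fun y hy => by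
    rw [g2 y fun h3 => hy (self_subset_cthickening K h3), Finset.sum_eq_zero, mul_zero, sub_zero]
    refine fun i _ => (a1 i).2.2.2 y (not_lt.1 fun h3 => hy ?_)
    refine mem_cthickening_of_dist_le y (x i) r0 K (a2 i) ?_
    rw [dist_eq_norm]
    linarith only [hR2, h3, hR, h0, h1, hr0, hR.1, mul_nonneg_of_nonpos_of_nonpos (le_of_lt (Mathlib.Tactic.Linarith.sub_neg_of_lt h0)) (Mathlib.Tactic.Linarith.sub_nonpos_of_le hR2), mul_pos_of_neg_of_neg (Mathlib.Tactic.Linarith.sub_neg_of_lt h1) (Mathlib.Tactic.Linarith.sub_neg_of_lt hr0)]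
  have bi := fun i => (a1 i).integral h0 (by linarith only [h0, h1]) hR.1
  have i1 : Integrable fun y => d * ∑ i, ρ i y :=
    (integrable_finsetSum _ fun i _ => (bi i).1).const_mul d
  have i2 : Integrable g := g3.integrable_of_hasCompactSupport (HasCompactSupport.intro hK g2)
  have m1 : ∫ z, h z ∂μ = c * ∫ y, g y := by
    rw [hμ e K hK hKe h hh hz, ← setIntegral_eq_integral_of_forall_compl_eq_zero g2,
      setIntegral_congr_fun hK.measurableSet]
    intro y hy
    show h (e y) * |PP (loc2 e τ y)| = g y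
    rw [g1 y (hKe hy), abs_of_pos (hq y (hKe hy)).2.2]
  have m2 : |d * (∑ i, ∫ y, ρ i y) - ∫ y, g y| ≤ η * W := by
    rw [← integral_finsetSum _ fun i _ => (bi i).1, ← integral_const_mul, ← integral_sub i1 i2,
      ← setIntegral_eq_integral_of_forall_compl_eq_zero a4, ← Real.norm_eq_abs]
    exact norm_setIntegral_le_of_norm_le_const hK'.measure_lt_top fun y _ => a3 y
  have m3 := Finset.card_nsmul_le_sum Finset.univ _ _ fun i _ => (bi i).2.1
  have m4 := Finset.sum_le_card_nsmul Finset.univ _ _ fun i _ => (bi i).2.2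
  rw [Finset.card_univ, Fintype.card_fin, nsmul_eq_mul] at m3 m4
  obtain ⟨m5, m6⟩ := abs_le.1 m2
  refine ⟨N, x, ρ, a1, a2, fun z => ?_, ?_, ?_⟩
  · by_cases h3 : z ∈ e.target
    · obtain ⟨y, hy, rfl⟩ : ∃ y ∈ e.source, e y = z := ⟨_, e.map_tgt h3, e.apply_inv h3⟩
      obtain ⟨-, q2, q3⟩ := hq y hy
      simp only [teethex_val hf e (fun y hy => (hq y hy).1) _ _ _ hy]
      have b1 : |d * ∑ i, ρ i y - g y| ≤ ε * PP (loc2 e τ y) := by
        by_cases h4 : y ∈ cthickening r0 K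
        · exact (a3 y).trans (η1.trans (mul_le_mul_of_nonneg_left (hp y h4) hε.le))
        · rw [a4 y h4, abs_zero]; positivity
      have b2 : d * ∑ i, ρ i y * JJ (pb (e.D y) (w (e y))) / PP (pb (e.D y) (τ (e y))) - h (e y) =
          (d * ∑ i, ρ i y - g y) / PP (loc2 e τ y) * JJ (loc2 e w y) +
            h (e y) * (JJ (loc2 e w y) - 1) := by
        rw [← Finset.sum_div, ← Finset.sum_mul, g1 y hy]
        show d * ((∑ i, ρ i y) * JJ (loc2 e w y) / PP (loc2 e τ y)) - _ = _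
        field_simp
        ring
      rw [b2]
      refine (abs_add_le _ _).trans (add_le_add ?_ ?_)
      · rw [abs_mul, abs_div, abs_of_pos q3, mul_comm 2]
        refine mul_le_mul ((div_le_iff₀ q3).2 b1) ?_ (abs_nonneg _) hε.le
        obtain ⟨q4, q5⟩ := abs_le.1 q2
        exact abs_le.2 ⟨by linarith only [h0, h1, he2, q4], by linarith only [he2, q5]⟩
      · rw [abs_mul, abs_of_nonneg (hh0 _), mul_comm]
        exact mul_le_mul_of_nonneg_right q2 (hh0 _)
    · have b1 : h z = 0 := hz z fun ⟨y, hy, ey⟩ => h3 (ey ▸ e.map_src (hKe hy))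
      simp only [push1, if_neg h3, jj_zero, b1, zero_div, Finset.sum_const_zero, mul_zero, sub_zero,
        abs_zero]
      positivity
  · have := mul_le_mul_of_nonneg_left ((mul_le_mul_of_nonneg_left m3 hd.1.le).trans
      (by linarith only [m6] : _ ≤ (∫ y, g y) + η * W)) hc.le
    rw [m1]
    linarith only [η2, this]
  · have := mul_le_mul_of_nonneg_left ((by linarith only [m5] : (∫ y, g y) - η * W ≤ _).trans
      (mul_le_mul_of_nonneg_left m4 hd.1.le)) hc.le
    rw [m1]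
    linarith only [η2, this]

theorem teethex_count {c t κ X Y a b : ℝ} {n : ℕ} (hc : 0 < c) (ht : 0 < t) (h0 : 0 < κ)
    (h1 : κ < 1) (ha : c * (t * (a * (2 * ((1 - κ) * t)) ^ n)) ≤ X)
    (hb : Y ≤ c * ((1 + κ) * t * (b * (2 * ((1 + κ) * ((1 + 5 * κ) * t))) ^ n)))
    (h : X * ((1 + 2 * κ) * (1 + κ) * ((1 + κ) * (1 + 5 * κ)) ^ n) ≤
      Y * ((1 - κ) * (1 + 5 * κ) * (1 - κ) ^ n)) :
    a * ((1 + 2 * κ) * t) ≤ b * ((1 - κ) * ((1 + 5 * κ) * t)) := by
  have h2 : 0 < 1 - κ := by linarith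
  have k := ((mul_le_mul_of_nonneg_right ha (by positivity)).trans h).trans
    (mul_le_mul_of_nonneg_right hb (by positivity))
  refine le_of_mul_le_mul_left (a := c * (2 * t) ^ n * (1 - κ) ^ n * (1 + κ) *
    ((1 + κ) * (1 + 5 * κ)) ^ n) (le_of_eq_of_le ?_ (k.trans_eq ?_)) (by positivity)
  · simp only [mul_pow]; ring
  · simp only [mul_pow]; ring

theorem teethex_A [CompactSpace M] [T2Space M] [MeasurableSpace M] [BorelSpace M]
    (hE : Module.finrank ℝ E = 2 * m + 2) {f : M → ℝ} (hf : Sm0 E f) {τ w : M → B2 E}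
    (hτ : Sm2 τ) (hw : Cl2 w) (hF : Continuous (rat w τ)) {μ : Measure M} [IsFiniteMeasure μ]
    {c : ℝ} (hc : 0 < c) (hμ : teethex_V m τ μ c) {κ dl v B e2 δ : ℝ} (h0 : 0 < κ)
    (h1 : κ < 1 / 10) (hdl : 0 < dl) (hv : 0 < v) (hB : ∀ z, |dl - rat w τ z| ≤ B) (e20 : 0 ≤ e2)
    (e21 : e2 ≤ 1) (e22 : e2 * B ≤ dl / 4)
    (hJ : ∀ b : B2 (VV m), Skew b → LevClose δ b → |JJ b - 1| ≤ e2) {O : Set M} (hO : IsOpen O)
    (hO1 : ∀ z ∈ O, dl ≤ rat w τ z)
    (hO2 : ∀ z, z ∉ O → ∃ e : Par (VV m) E M, z ∈ e.target ∧ ∀ y ∈ e.source,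
      f (e y) = y.2.2 ∧ LevClose δ (loc2 e w y) ∧ 0 < PP (loc2 e τ y))
    (hm : ∀ χ : M → ℝ, Continuous χ → (∀ z, 0 ≤ χ z ∧ χ z ≤ 1) → (∀ z, z ∉ O → χ z = 0) →
      (∫ z, (1 - χ z) * max (dl - rat w τ z) 0 ∂μ + v) *
        ((1 + 2 * κ) * (1 + κ) * ((1 + κ) * (1 + 5 * κ)) ^ (2 * m + 2)) ≤
      (∫ z, (1 - χ z) * max (rat w τ z - dl) 0 ∂μ - v) *
        ((1 - κ) * (1 + 5 * κ) * (1 - κ) ^ (2 * m + 2))) :
    ∃ T : Teeth m E M, teethex_Pre T κ δ f w τ := by
  classical
  obtain ⟨A, _, e, χ0, χ, K, a1, a2, a3, a4, a5, a6, a7, a8, a9, a10⟩ := teethex_cover hO hO2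
  have a11 : ∀ z, ∑ a, χ a z = 1 - χ0 z := fun z => eq_sub_of_add_eq' (a6 z)
  have a12 : ∀ z, χ0 z ≤ 1 := fun z => by
    have := Finset.sum_nonneg fun a (_ : a ∈ Finset.univ) => a5 a z
    linarith only [this, a6, a6 z]
  let G : Bool → M → ℝ := fun s z => max (if s then dl - rat w τ z else rat w τ z - dl) 0
  have G1 : ∀ s, Continuous (G s) := fun s => by
    cases s
    · exact (hF.sub continuous_const).max continuous_const
    · exact (continuous_const.sub hF).max continuous_const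
  obtain ⟨ε, hε, ε1, ε2⟩ : ∃ ε : ℝ, 0 < ε ∧ Fintype.card A * ε ≤ v ∧ Fintype.card A * ε ≤ dl / 8 := by
    refine ⟨min v (dl / 8) / (Fintype.card A + 1), by positivity, ?_⟩
    rw [← le_min_iff, ← mul_div_assoc, div_le_iff₀ (by positivity)]
    have : 0 < min v (dl / 8) := by positivity
    linarith only [this]
  choose r hr hs hl using fun p : Bool × A => teethex_loc hf hτ hc hμ h0 h1 (e p.2) e21
    (fun y hy => ⟨(a1 _ y hy).1, hJ _ (skew_pb (hw.skew _) _) (a1 _ y hy).2.1, (a1 _ y hy).2.2⟩)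
    (a8 p.2) (a9 p.2) (h := fun z => χ p.2 z * G p.1 z) ((a3 p.2).mul (G1 p.1))
    (fun z => mul_nonneg (a5 _ z) (le_max_right _ _))
    (fun z hz => mul_eq_zero_of_left (a10 _ z hz) _) hε
  obtain ⟨t, ht, htr⟩ : ∃ t : ℝ, 0 < t ∧ ∀ p, 10 * t ≤ r p := by
    have h2 : ∀ᶠ t : ℝ in 𝓝 0, ∀ p, t < r p / 10 :=
      eventually_all.2 fun p => gt_mem_nhds (by linarith only [hr, hr p])
    obtain ⟨t, h3, h4⟩ := ((h2.filter_mono nhdsWithin_le_nhds).and
      (self_mem_nhdsWithin (s := Ioi (0 : ℝ)))).exists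
    exact ⟨t, h4, fun p => by linarith only [h3, h3 p]⟩
  have kt := mul_pos h0 ht
  have kt' : κ * t < t / 10 := by linarith only [h1, ht, mul_pos_of_neg_of_neg (Mathlib.Tactic.Linarith.sub_neg_of_lt h1) (Mathlib.Tactic.Linarith.sub_neg_of_lt ht)]
  choose N x ρ b1 b2 b3 b4 b5 using fun p : Bool × A => hl p
    (if p.1 then t else (1 + 5 * κ) * t)
    (by have := htr p; split_ifs <;> constructor <;> linarith only [kt, kt', this])
    (if p.1 then t else (1 + κ) * t) (by have := htr p; split_ifs <;> constructor <;> linarith only [kt, kt', this])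
  let q := (Fintype.equivFin (Σ p : Bool × A, Fin (N p))).symm
  have sum : ∀ φ : (Σ p : Bool × A, Fin (N p)) → ℝ, ∑ j, φ (q j) =
      ∑ a, ∑ i, φ ⟨(true, a), i⟩ + ∑ a, ∑ i, φ ⟨(false, a), i⟩ := fun φ => by
    rw [q.sum_comp φ, Fintype.sum_sigma, Fintype.sum_prod_type, Fintype.sum_bool]
  have sub : ∀ p i, closedBall (x p i) (5 * ((1 + 5 * κ) * t)) ⊆ (e p.2).source := fun p i =>
    (closedBall_subset_closedBall (by linarith only [kt, kt', htr, htr p])).trans (hs p _ (b2 p i))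
  have mass : ∀ s, ∑ a, ∫ z, χ a z * G s z ∂μ = ∫ z, (1 - χ0 z) * G s z ∂μ := fun s => by
    rw [← integral_finsetSum (f := fun a z => χ a z * G s z) _ fun a _ =>
      teethex_int ((a3 a).mul (G1 s))]
    simp only [← Finset.sum_mul, a11]
  refine ⟨⟨_, fun j => (q j).1.1, fun j => e (q j).1.2, fun j => x (q j).1 (q j).2,
    fun j => ρ (q j).1 (q j).2, t, (1 + 5 * κ) * t, t, (1 + κ) * t, 1⟩, ht, rfl, ht,
    by show t < (1 + κ) * t; linarith only [kt], fun j => b1 _ _, fun j => sub _ _,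
    fun j y hy => (a1 _ y hy).1, fun j y hy => (a1 _ y (sub _ _ hy)).2.2, ?_, fun z => ?_,
    fun j y hy => (a1 _ y (sub _ _ hy)).2.1⟩
  · have c1 := sum fun k => if k.1.1 = true then 1 else 0
    have c2 := sum fun k => if k.1.1 = false then 1 else 0
    simp only [Finset.card_filter, Nat.cast_sum, Nat.cast_ite, Nat.cast_one, Nat.cast_zero]
    rw [c1, c2]
    have d1 := Finset.sum_le_sum fun a (_ : a ∈ Finset.univ) => b4 (true, a)
    have d2 := Finset.sum_le_sum fun a (_ : a ∈ Finset.univ) => b5 (false, a)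
    simp only [Finset.sum_add_distrib, Finset.sum_sub_distrib, ← Finset.mul_sum, ← Finset.sum_mul,
      Finset.sum_const, Finset.card_univ, nsmul_eq_mul, mass, if_true,
      Bool.false_eq_true, if_false] at d1 d2
    simp only [Finset.sum_const, Finset.card_univ, Fintype.card_fin, nsmul_eq_mul, mul_one, if_true,
      Bool.false_eq_true, Bool.true_eq_false, if_false, mul_zero, add_zero, zero_add]
    exact teethex_count hc ht h0 (by linarith only [h0, h1]) (d1.trans (add_le_add le_rfl ε1))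
      ((sub_le_sub_left ε1 _).trans d2) (hm χ0 a2 (fun z => ⟨a4 z, a12 z⟩) a7)
  · have c1 := sum fun k => (if k.1.1 then t else -((1 + κ) * t)) *
      (jj (w z) (dfM E f z) (push1 (e k.1.2) (fun y => ρ k.1 k.2 y • dt m) z) / pf (τ z))
    rw [pf_add_wedge, Teeth.slope, jj_sum hE, add_div, Finset.sum_div]
    simp only [jj_smul hE, mul_div_assoc]
    refine lt_of_lt_of_eq ?_ (congrArg (fun s => pf (w z) / pf (τ z) + s) c1.symm)
    rw [← Finset.sum_add_distrib]
    refine lt_of_lt_of_le ?_ (add_le_add le_rfl (Finset.sum_le_sum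
      (f := fun a => χ a z * (dl - rat w τ z - e2 * B) - 4 * ε) fun a _ => ?_))
    · rw [Finset.sum_sub_distrib, ← Finset.sum_mul, a11, Finset.sum_const, Finset.card_univ,
        nsmul_eq_mul]
      have d1 : 0 ≤ χ0 z * (rat w τ z - dl) := by
        by_cases hz : z ∈ O
        · exact mul_nonneg (a4 z) (sub_nonneg.2 (hO1 z hz))
        · rw [a7 z hz, zero_mul]
      have d2 : 0 ≤ χ0 z * (e2 * B) :=
        mul_nonneg (a4 z) (mul_nonneg e20 ((abs_nonneg _).trans (hB z)))
      show 0 < rat w τ z + _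
      linarith
    · have d1 := (abs_le.1 (b3 (true, a) z)).1
      have d2 := (abs_le.1 (b3 (false, a) z)).2
      simp only [← Finset.mul_sum, if_true, Bool.false_eq_true, if_false, G] at d1 d2 ⊢
      have d3 : max (dl - rat w τ z) 0 - max (rat w τ z - dl) 0 = dl - rat w τ z := by
        rw [← neg_sub dl, max_zero_sub_max_neg_zero_eq_self]
      have d4 : max (dl - rat w τ z) 0 + max (rat w τ z - dl) 0 ≤ B := by
        rw [← neg_sub dl, max_zero_add_max_neg_zero_eq_abs_self]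
        exact hB z
      have d5 := mul_le_mul_of_nonneg_left d4 (mul_nonneg (a5 a z) e20)
      have d6 := congrArg (fun s => χ a z * s) d3
      linarith

theorem teeth [CompactSpace M] [T2Space M] [MeasurableSpace M] [BorelSpace M]
    (hE : Module.finrank ℝ E = 2 * m + 2) {f : M → ℝ} (hf : Sm0 E f)
    (hc : {z | dfM E f z = 0}.Finite) {τ w : M → B2 E} (hτ : Sm2 τ)
    (hn : ∀ z, Skew (τ z) ∧ Nd (τ z)) (hw : Cl2 w) {θ : M → B1 E}
    (hT : ∀ z, 0 < rat (fun x => w x + wedge (dfM E f x) (θ x)) τ z) {μ : Measure M}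
    (hμ : Vol m τ μ) (hpos : 0 < ∫ z, rat w τ z ∂μ) : ∃ κ : ℝ, 0 < κ ∧ κ < 1 / 10 ∧
      ∀ δ : ℝ, 0 < δ → ∃ T : Teeth m E M, T.Ok κ δ f w τ := by
  obtain ⟨hfin, c, hc0, hV⟩ := hμ
  have hp : ∀ z, pf (τ z) ≠ 0 := fun z => pf_ne hE (hn z).1 (hn z).2
  have hF : Continuous (rat w τ) := continuous_rat hw.sm2 hτ hp
  set v : ℝ := ∫ z, rat w τ z ∂μ with hv
  obtain ⟨dl, hdl, d1, d2⟩ : ∃ dl : ℝ, 0 < dl ∧ (∀ z ∈ {z | dfM E f z = 0}, dl < rat w τ z) ∧
      μ.real univ * dl < v / 10 := by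
    have h1 : ∀ᶠ t : ℝ in 𝓝 0, ∀ z ∈ {z | dfM E f z = 0}, t < rat w τ z :=
      (eventually_all_finite hc).2 fun z hz => gt_mem_nhds (by
        have := hT z
        rwa [rat, show dfM E f z = 0 from hz, wedge_zero_left, add_zero] at this)
    have h2 : ∀ᶠ t : ℝ in 𝓝 0, μ.real univ * t < v / 10 :=
      (continuous_const_mul (μ.real univ)).continuousAt.eventually
        (gt_mem_nhds (by beta_reduce; rw [mul_zero]; positivity))
    obtain ⟨t, h3, h4⟩ := (((h1.and h2).filter_mono nhdsWithin_le_nhds).and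
      (self_mem_nhdsWithin (s := Ioi (0 : ℝ)))).exists
    exact ⟨t, h4, h3⟩
  obtain ⟨B, hB0, hB⟩ : ∃ B : ℝ, 0 < B ∧ ∀ z, |dl - rat w τ z| ≤ B := by
    obtain ⟨B, hB⟩ := isCompact_univ.exists_bound_of_continuousOn
      ((continuous_const (y := dl)).sub hF).continuousOn
    exact ⟨max B 1, by positivity, fun z => (hB z trivial).trans (le_max_left _ _)⟩
  obtain ⟨ψ, p1, p2, p3, p4⟩ := teethex_small hE hτ hn hc0 hV hc (v / (10 * B)) (by positivity)
  have cm : Continuous fun z => max (dl - rat w τ z) 0 :=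
    (continuous_const.sub hF).max continuous_const
  have cp : Continuous fun z => max (rat w τ z - dl) 0 :=
    (hF.sub continuous_const).max continuous_const
  set C : ℝ := ∫ z, max (dl - rat w τ z) 0 ∂μ with hC
  have C0 : 0 ≤ C := integral_nonneg fun z => le_max_right _ _
  obtain ⟨κ, h0, h1, hκ⟩ : ∃ κ : ℝ, 0 < κ ∧ κ < 1 / 10 ∧
      (1 + 2 * κ) * (1 + κ) * ((1 + κ) * (1 + 5 * κ)) ^ (2 * m + 2) <
        (1 + v / (4 * (C + v))) * ((1 - κ) * (1 + 5 * κ) * (1 - κ) ^ (2 * m + 2)) := by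
    have h2 : ∀ᶠ κ : ℝ in 𝓝 0, (1 + 2 * κ) * (1 + κ) * ((1 + κ) * (1 + 5 * κ)) ^ (2 * m + 2) <
        (1 + v / (4 * (C + v))) * ((1 - κ) * (1 + 5 * κ) * (1 - κ) ^ (2 * m + 2)) := by
      refine ContinuousAt.eventually_lt (by fun_prop) (by fun_prop) ?_
      have : 0 < v / (4 * (C + v)) := by positivity
      simpa using this
    obtain ⟨t, h3, h4⟩ := (((h2.and (gt_mem_nhds (by norm_num : (0 : ℝ) < 1 / 10))).filter_mono
      nhdsWithin_le_nhds).and (self_mem_nhdsWithin (s := Ioi (0 : ℝ)))).exists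
    exact ⟨t, h4, h3.2, h3.1⟩
  refine ⟨κ, h0, h1, fun δ hδ => ?_⟩
  have e20 : 0 < min 1 (dl / 4 / B) := by positivity
  obtain ⟨δ2, hδ2, hJ⟩ := JJ_close m e20
  have hd : 0 < min δ δ2 / 2 := by positivity
  have m1 := min_le_left δ δ2
  have m2 := min_le_right δ δ2
  refine (teethex_A hE hf hτ hw hF hc0 hV (δ := min δ δ2 / 2) (v := v / 10) h0 h1 hdl
    (by positivity) hB e20.le (min_le_left _ _) ((le_div_iff₀ hB0).1 (min_le_right _ _))
    (fun b hs hb => hJ b hs (teethex_mono hb (by linarith only [hδ2, m2])))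
    (O := interior {z | dl ≤ rat w τ z ∧ 1 ≤ ψ z}) isOpen_interior
    (fun z hz => (interior_subset hz).1)
    (fun z hz => teethex_chart hE hf hτ hw (hT z) (fun h => hz (mem_interior_iff_mem_nhds.2
      (((hF.continuousAt.eventually (lt_mem_nhds (d1 z h))).mono fun _ => le_of_lt).and
        (p3 z h)))) hd) ?_).elim fun T hT' => ?_
  swap
  · refine teethex_B hf hτ hp hw h0 (by linarith only [h0, h1]) hd (by linarith only [m1]) (fun b hs hb => ?_) hT'
    have := (abs_le.1 (hJ b hs (teethex_mono hb (by linarith only [m2])))).1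
    linarith only [this, min_le_left 1 (dl / 4 / B)]
  intro χ x1 x2 x3
  have i1 : Integrable (fun z => (1 - χ z) * max (dl - rat w τ z) 0) μ :=
    teethex_int ((continuous_const.sub x1).mul cm)
  have i2 : Integrable (fun z => (1 - χ z) * max (rat w τ z - dl) 0) μ :=
    teethex_int ((continuous_const.sub x1).mul cp)
  set X : ℝ := ∫ z, (1 - χ z) * max (dl - rat w τ z) 0 ∂μ with hX
  set Y : ℝ := ∫ z, (1 - χ z) * max (rat w τ z - dl) 0 ∂μ with hY
  have X0 : 0 ≤ X := integral_nonneg fun z =>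
    mul_nonneg (sub_nonneg.2 (x2 z).2) (le_max_right _ _)
  have X1 : X ≤ C := integral_mono i1 (teethex_int cm) fun z =>
    mul_le_of_le_one_left (le_max_right _ _) (sub_le_self _ (x2 z).1)
  have Y1 : v - μ.real univ * dl - B * ∫ z, ψ z ∂μ ≤ Y - X := by
    have j1 := teethex_int (μ := μ) hF
    have j2 := teethex_int (μ := μ) (continuous_const (y := dl))
    have j3 := (teethex_int (μ := μ) p1).const_mul B
    have j4 : Integrable (fun z => rat w τ z - dl) μ := j1.sub j2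
    rw [hv, ← smul_eq_mul (μ.real univ), ← integral_const, ← integral_const_mul,
      ← integral_sub j1 j2, ← integral_sub j4 j3, hX, hY, ← integral_sub i2 i1]
    refine integral_mono (j4.sub j3) (i2.sub i1) fun z => ?_
    have d3 : max (rat w τ z - dl) 0 - max (dl - rat w τ z) 0 = rat w τ z - dl := by
      rw [← neg_sub (rat w τ z), max_zero_sub_max_neg_zero_eq_self]
    have d4 : χ z * (rat w τ z - dl) ≤ B * ψ z := by
      by_cases hz : z ∈ interior {z | dl ≤ rat w τ z ∧ 1 ≤ ψ z}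
      · obtain ⟨k1, k2⟩ := interior_subset hz
        rw [mul_comm B]
        exact mul_le_mul ((x2 z).2.trans k2) (by linarith [(abs_le.1 (hB z)).1])
          (sub_nonneg.2 k1) (p2 z)
      · rw [x3 z hz, zero_mul]
        exact mul_nonneg hB0.le (p2 z)
    show rat w τ z - dl - B * ψ z ≤
      (1 - χ z) * max (rat w τ z - dl) 0 - (1 - χ z) * max (dl - rat w τ z) 0
    rw [← mul_sub, d3]
    linarith
  have Y2 : B * ∫ z, ψ z ∂μ ≤ v / 10 := by
    rw [le_div_iff₀ (by positivity)] at p4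
    linarith only [p4]
  have Y3 : (X + v / 10) * (v / (4 * (C + v))) ≤ v / 4 := by
    rw [← mul_div_assoc, div_le_iff₀ (by positivity)]
    linarith only [hpos, X1, mul_pos_of_neg_of_neg (Mathlib.Tactic.Linarith.sub_neg_of_lt hpos) (Mathlib.Tactic.Linarith.sub_neg_of_lt hpos), mul_nonneg_of_nonpos_of_nonpos (le_of_lt (Mathlib.Tactic.Linarith.sub_neg_of_lt hpos)) (Mathlib.Tactic.Linarith.sub_nonpos_of_le X1)]
  have b0 : 0 ≤ 1 - κ := by linarith only [h0, h1]
  refine (mul_le_mul_of_nonneg_left hκ.le (by positivity)).trans ?_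
  rw [← mul_assoc]
  exact mul_le_mul_of_nonneg_right (by linarith only [hpos, d2, Y1, Y2, Y3]) (by positivity)

end Pool.Agent.Work.MP_bf98aa_gt.Ns
end
end
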