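import Pool.Agent.Work.MP_bf98aa_gt.Ns.CoreZ
import Pool.Agent.Work.MP_bf98aa_gt.Ns.M3Ex
import Pool.Agent.Work.MP_bf98aa_gt.Ns.Cor
import Pool.Agent.Work.MP_bf98aa_gt.Ns.Lin
import Pool.Agent.Work.MP_bf98aa_gt.Ns.Morse
import Pool.Agent.Work.MP_bf98aa_gt.Ns.TeethEx
import Pool.Agent.Work.MP_bf98aa_gt.Ns.Lens

-- merged part: Pool.Agent.Work.MP_bf98aa_gt.Ns.Fix
section
-- merged part: Pool.Agent.Work.MP_bf98aa_gt.Ns.Core
section
/-!
The core model (step 5).
Plan. k >= 1 with 2 m r^(2k) < r'^(2k); D from exists_M3 with P0 = eta^(2k), P1 = 2 m r^(2k), P2 = r'^(2k), R = r (eta may be replaced by min eta r'). T y = mu(s) t, beta y = (psi (QQ y) * K (pr y, T y)) fderiv T y, mu = mu0 - beta.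
Near a point with |T| > r or hgt > P1 we have K (pr, T) = 0; otherwise M3.col: beta = 0 near y, or beta = K (pr, T) dT near y, fld = (1,0,0): then the form is wD (J u) (J v) + ds^dt - kap(J .) ^ dT (the T-derivative of K dies in the wedge); if v is in the kernel, use surjectivity of (J, t, s) (inj_col and dimension).
Sign: PP is continuous and nonzero off Z; the complement of {t = s = 0} is preconnected and dense, and PP = 1 + 0 at a point with large s (PP_graph).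
-/

set_option autoImplicit false
set_option maxSynthPendingDepth 3
set_option linter.unusedSectionVars false
set_option linter.unusedVariables false

open Set Filter Topology Metric MeasureTheory
open scoped Manifold ContDiff

noncomputable section
namespace Pool.Agent.Work.MP_bf98aa_gt.Ns

open Pool.Agent.Work.MP_8c604c_gt

variable {V V' V'' : Type} [NormedAddCommGroup V] [NormedSpace ℝ V] [FiniteDimensional ℝ V]
  [NormedAddCommGroup V'] [NormedSpace ℝ V'] [FiniteDimensional ℝ V']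
  [NormedAddCommGroup V''] [NormedSpace ℝ V''] [FiniteDimensional ℝ V''] {m : ℕ}

section Aux
variable {L a η P0 P1 P2 R : ℝ} {k : ℕ}

/-- The stretched coordinate. -/
def core_T (g : ℝ → ℝ) (y : VV m) : ℝ := g y.2.2 * y.2.1

/-- The column function. -/
def core_F (k : ℕ) (D : M3 L a η P0 P1 P2 R) (K : XX m × ℝ → ℝ) (y : VV m) : ℝ :=
  K (pr k D.N y, core_T D.μ y)

/-- The column term. -/
def core_b (k : ℕ) (D : M3 L a η P0 P1 P2 R) (K : XX m × ℝ → ℝ) (y : VV m) : B1 (VV m) :=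
  (D.ψ (QQ k y) * core_F k D K y) • fderiv ℝ (core_T D.μ) y

/-- The model 1-form. -/
def core_mu (k : ℕ) (D : M3 L a η P0 P1 P2 R) (K : XX m × ℝ → ℝ) (y : VV m) : B1 (VV m) :=
  mu0 k D.N D.A D.B D.C y - core_b k D K y

theorem core_smT {g : ℝ → ℝ} (hg : ContDiff ℝ ∞ g) : ContDiff ℝ ∞ (core_T g : VV m → ℝ) :=
  (hg.comp contDiff_snd.snd).mul contDiff_snd.fst

theorem core_dT {g : ℝ → ℝ} (hg : ContDiff ℝ ∞ g) (y : VV m) :
    ∃ α β : ℝ, ∀ u : VV m, fderiv ℝ (core_T g) y u = α * u.2.2 + β * u.2.1 := by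
  have h1 : HasFDerivAt (fun z : VV m => g z.2.2) (deriv g y.2.2 • ds m) y :=
    ((hg.differentiable (by simp)) y.2.2).hasDerivAt.comp_hasFDerivAt y (ds m).hasFDerivAt
  have h2 : HasFDerivAt (core_T g : VV m → ℝ) _ y := h1.mul (dt m).hasFDerivAt
  refine ⟨y.2.1 * deriv g y.2.2, g y.2.2, fun u => ?_⟩
  rw [h2.fderiv]
  show g y.2.2 * u.2.1 + y.2.1 * (deriv g y.2.2 * u.2.2) = _
  ring

theorem core_smF (D : M3 L a η P0 P1 P2 R) {K : XX m × ℝ → ℝ} (hK : ContDiff ℝ ∞ K) :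
    ContDiff ℝ ∞ (core_F k D K) :=
  hK.comp ((contDiff_pr D).prodMk (core_smT D.smμ))

theorem core_smdT {g : ℝ → ℝ} (hg : ContDiff ℝ ∞ g) :
    ContDiff ℝ ∞ (fderiv ℝ (core_T g : VV m → ℝ)) :=
  (core_smT hg).fderiv_right (m := ∞) le_rfl

theorem core_smb (D : M3 L a η P0 P1 P2 R) {K : XX m × ℝ → ℝ} (hK : ContDiff ℝ ∞ K) :
    ContDiff ℝ ∞ (core_b k D K) :=
  ((D.smψ.comp (contDiff_QQ k)).mul (core_smF D hK)).smul (core_smdT D.smμ)

theorem core_smmu (D : M3 L a η P0 P1 P2 R) {K : XX m × ℝ → ℝ} (hK : ContDiff ℝ ∞ K) :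
    ContDiff ℝ ∞ (core_mu k D K) :=
  (contDiff_mu0 D).sub (core_smb D hK)

theorem core_out {N A B C : R3 → ℝ} {y : VV m} (h : N (QQ k y) = 1 ∧ lam3 A B C (QQ k y) = 0) :
    mu0 k N A B C y = 0 ∧ pr k N y = y.1 := by
  have e : ph k N y = 1 := by rw [ph, h.1, Real.one_rpow]
  refine ⟨?_, by rw [pr, e, one_smul]⟩
  rw [mu0, pull1, e, h.2]
  simp

/-- Where the column term vanishes near a point the form is `W0` near that point. -/
theorem core_loc (D : M3 L a η P0 P1 P2 R) {K : XX m × ℝ → ℝ} {y : VV m}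
    (h : ∀ᶠ z in 𝓝 y, D.ψ (QQ k z) * core_F k D K z = 0) :
    W0 k D.N D.A D.B D.C =ᶠ[𝓝 y] fun z => ws m + dd (core_mu k D K) z := by
  have e : mu0 k D.N D.A D.B D.C =ᶠ[𝓝 y] core_mu k D K := by
    filter_upwards [h] with z hz
    rw [core_mu, core_b, hz, zero_smul, sub_zero]
  filter_upwards [e.eventuallyEq_nhds] with z hz
  rw [W0, dd_congr hz]

theorem core_psi (D : M3 L a η P0 P1 P2 R) {y : VV m} {c : ℝ}
    (h : D.ψ =ᶠ[𝓝 (QQ k y)] fun _ => c) : ∀ᶠ z in 𝓝 y, D.ψ (QQ k z) = c :=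
  ((contDiff_QQ k).continuous.continuousAt (x := y)).eventually h

/-- The linear algebra in the column. -/
theorem core_lin {b : B2 (VV m)} {J : VV m →L[ℝ] XX m} {κ : XX m →L[ℝ] ℝ} {α β : ℝ}
    (hJ : ∀ v : VV m, J v = 0 → v.2.1 = 0 → v.2.2 = 0 → v = 0)
    (hb : ∀ u v : VV m, b u v = wD m (J u) (J v) + (u.2.2 * v.2.1 - u.2.1 * v.2.2) -
      (κ (J u) * (α * v.2.2 + β * v.2.1) - (α * u.2.2 + β * u.2.1) * κ (J v))) : Nd b := by
  intro u hu
  have hs : Function.Surjective (J.prod (ContinuousLinearMap.snd ℝ (XX m) (ℝ × ℝ))) := by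
    refine (cut_bij ((injective_iff_map_eq_zero _).2 fun v hv => ?_)).2
    exact hJ v (congrArg Prod.fst hv) (congrArg (fun p : VV m => p.2.1) hv)
      (congrArg (fun p : VV m => p.2.2) hv)
  have key : ∀ (x : XX m) (t s : ℝ), wD m (J u) x + (u.2.2 * t - u.2.1 * s) -
      (κ (J u) * (α * s + β * t) - (α * u.2.2 + β * u.2.1) * κ x) = 0 := fun x t s => by
    obtain ⟨v, hv⟩ := hs (x, t, s)
    have e1 : J v = x := congrArg Prod.fst hv
    have e2 : v.2.1 = t := congrArg (fun p : VV m => p.2.1) hv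
    have e3 : v.2.2 = s := congrArg (fun p : VV m => p.2.2) hv
    rw [← e1, ← e2, ← e3, ← hb, hu]
  have h1 : α * u.2.2 + β * u.2.1 = 0 := by
    have := key 0 (-α) β
    simp only [map_zero] at this
    linarith only [this]
  have h2 : J u = 0 := nd_wD _ fun x => by
    have := key x 0 0
    rw [h1] at this
    linarith only [this]
  have h3 := key 0 1 0
  have h4 := key 0 0 1
  rw [h2] at h3 h4
  simp only [map_zero] at h3 h4
  exact hJ u h2 (by linarith) (by linarith)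

/-- Nondegeneracy in the column. -/
theorem core_col (hk : 1 ≤ k) (D : M3 L a η P0 P1 P2 R) {K : XX m × ℝ → ℝ} (hK : ContDiff ℝ ∞ K)
    {y : VV m} (h1 : D.ψ =ᶠ[𝓝 (QQ k y)] fun _ => 1) (h2 : fld D.A D.B (QQ k y) = (1, 0, 0))
    (h3 : 0 < fderiv ℝ (hgt D.N) (QQ k y) (1, 0, 0)) : Nd (ws m + dd (core_mu k D K) y) := by
  have d0 : DifferentiableAt ℝ (mu0 k D.N D.A D.B D.C) y :=
    (contDiff_mu0 D).differentiable (by simp) y
  have db : DifferentiableAt ℝ (core_b k D K) y := (core_smb D hK).differentiable (by simp) y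
  have dF : DifferentiableAt ℝ (core_F k D K) y := (core_smF D hK).differentiable (by simp) y
  have dp : DifferentiableAt ℝ (pr k D.N) y := (contDiff_pr D).differentiable (by simp) y
  have dT : DifferentiableAt ℝ (core_T D.μ) y := (core_smT D.smμ).differentiable (by simp) y
  have e1 : dd (core_mu k D K) y = dd (mu0 k D.N D.A D.B D.C) y - dd (core_b k D K) y :=
    dd_sub d0 db
  have e2 : core_b k D K =ᶠ[𝓝 y] fun z => core_F k D K z • fderiv ℝ (core_T D.μ) z := by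
    filter_upwards [core_psi D h1] with z hz
    rw [core_b, hz, one_mul]
  have e3 : dd (core_b k D K) y = wedge (fderiv ℝ (core_F k D K) y) (fderiv ℝ (core_T D.μ) y) := by
    rw [dd_congr e2, dd_smul dF ((core_smdT D.smμ).differentiable (by simp) y),
      dd_fderiv (core_smT D.smμ).contDiffAt, smul_zero, add_zero]
  obtain ⟨α, β, hT⟩ := core_dT D.smμ y
  obtain ⟨G, hG⟩ : ∃ G : XX m × ℝ →L[ℝ] ℝ, ∀ u, fderiv ℝ (core_F k D K) y u =
      G (fderiv ℝ (pr k D.N) y u, fderiv ℝ (core_T D.μ) y u) := by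
    refine ⟨fderiv ℝ K (pr k D.N y, core_T D.μ y), fun u => ?_⟩
    have h : HasFDerivAt (core_F k D K) _ y :=
      (hK.differentiable (by simp) _).hasFDerivAt.comp y (dp.hasFDerivAt.prodMk dT.hasFDerivAt)
    rw [h.fderiv]
    rfl
  have hG' : ∀ (x : XX m) (t : ℝ),
      G (x, t) = G.comp (ContinuousLinearMap.inl ℝ (XX m) ℝ) x + t * G (0, 1) := fun x t => by
    have : ((x, t) : XX m × ℝ) = (x, 0) + t • ((0, 1) : XX m × ℝ) := by simp
    rw [this, map_add, map_smul]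
    rfl
  refine core_lin (J := fderiv ℝ (pr k D.N) y) (κ := G.comp (ContinuousLinearMap.inl ℝ (XX m) ℝ))
    (α := α) (β := β) (fun v => inj_col hk D h3) fun u v => ?_
  have e4 : (ws m + dd (core_mu k D K) y) u v = W0 k D.N D.A D.B D.C y u v -
      wedge (fderiv ℝ (core_F k D K) y) (fderiv ℝ (core_T D.μ) y) u v := by
    rw [e1, e3, W0, add_sub]
    rfl
  rw [e4, W0_apply D, h2, wedge_apply, hG, hG, hG' (fderiv ℝ (pr k D.N) y u),
    hG' (fderiv ℝ (pr k D.N) y v), fderiv_QQ, fderiv_QQ, vol3, hT, hT]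
  ring

/-- Nondegeneracy off the singular set. -/
theorem core_nd (hk : 1 ≤ k) (D : M3 L a η P0 P1 P2 R) {K : XX m × ℝ → ℝ} (hK : ContDiff ℝ ∞ K)
    (hK0 : ∀ q : XX m × ℝ, R < |q.2| ∨ P1 < PX k q.1 → K q = 0) {y : VV m}
    (h : ¬(D.e (PX k y.1) = 0 ∧ y.2.1 = 0 ∧ y.2.2 = 0)) : Nd (ws m + dd (core_mu k D K) y) := by
  have A : (∀ᶠ z in 𝓝 y, D.ψ (QQ k z) * core_F k D K z = 0) →
      Nd (ws m + dd (core_mu k D K) y) := fun e => by
    have e' : W0 k D.N D.A D.B D.C y = ws m + dd (core_mu k D K) y := (core_loc D e).eq_of_nhds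
    rw [← e']
    exact nd_W0 hk D h
  by_cases c1 : R < |core_T D.μ y|
  · refine A ?_
    filter_upwards [(isOpen_lt continuous_const (core_smT D.smμ).continuous.abs).mem_nhds c1]
      with z hz
    rw [core_F, hK0 _ (Or.inl hz), mul_zero]
  by_cases c2 : P1 < PX k (pr k D.N y)
  · refine A ?_
    filter_upwards [(isOpen_lt continuous_const
      ((contDiff_PX k).continuous.comp (contDiff_pr D).continuous)).mem_nhds c2] with z hz
    rw [core_F, hK0 (pr k D.N z, core_T D.μ z) (Or.inr hz), mul_zero]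
  rw [PX_pr hk D] at c2
  rcases D.col (QQ k y) (not_lt.1 c1) (not_lt.1 c2) with h0 | ⟨h1, h2, h3⟩
  · refine A ?_
    filter_upwards [core_psi D h0] with z hz
    rw [hz, zero_mul]
  · exact core_col hk D hK h1 h2 h3

/-- The sign argument. -/
theorem core_sign {g : VV m → ℝ} (hg : Continuous g) {y0 : VV m} (h0 : y0.2 ≠ 0) (hp : 0 < g y0)
    (hn : ∀ y : VV m, y.2 ≠ 0 → g y ≠ 0) (y : VV m) : 0 ≤ g y := by
  have hU : IsPreconnected ((univ : Set (XX m)) ×ˢ ({0}ᶜ : Set (ℝ × ℝ))) :=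
    isPreconnected_univ.prod (isConnected_compl_singleton_of_one_lt_rank
      (by rw [← Module.finrank_eq_rank]; simp) _).isPreconnected
  have hD : Dense ((univ : Set (XX m)) ×ˢ ({0}ᶜ : Set (ℝ × ℝ))) :=
    dense_univ.prod (dense_compl_singleton _)
  have h1 : (univ : Set (XX m)) ×ˢ ({0}ᶜ : Set (ℝ × ℝ)) ⊆ {z | 0 ≤ g z} := fun z hz => by
    by_contra hc
    obtain ⟨w, hw, e⟩ := hU.intermediate_value hz (mk_mem_prod (mem_univ y0.1) h0) hg.continuousOn
      (⟨(not_le.1 hc).le, hp.le⟩ : (0 : ℝ) ∈ Icc (g z) (g y0))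
    exact hn w hw.2 e
  exact closure_minimal h1 (isClosed_le continuous_const hg) (hD y)

theorem core_k (hm : 1 ≤ m) {r r' : ℝ} (hr : 0 < r) (hrr : r < r') :
    ∃ k : ℕ, 1 ≤ k ∧ 2 * m * r ^ (2 * k) < r' ^ (2 * k) := by
  have hr' : 0 < r' := hr.trans hrr
  have hm' : (0 : ℝ) < 2 * m := by positivity
  have q0 : 0 < r / r' := div_pos hr hr'
  have q1 : r / r' < 1 := (div_lt_one hr').2 hrr
  obtain ⟨n, hn⟩ := exists_pow_lt_of_lt_one (inv_pos.2 hm') q1
  refine ⟨n + 1, by omega, ?_⟩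
  have h1 : (r / r') ^ (2 * (n + 1)) < (2 * m : ℝ)⁻¹ :=
    (pow_le_pow_of_le_one q0.le q1.le (by omega)).trans_lt hn
  rw [div_pow, div_lt_iff₀ (by positivity), inv_mul_eq_div, lt_div_iff₀ hm'] at h1
  linarith only [h1]

end Aux

theorem core (hm : 1 ≤ m) {L a η r r' : ℝ} (hL : 0 < L) (ha : 0 < a) (hη : 0 < η) (hr : 0 < r)
    (hrr : r < r') (hη' : η ≤ r') {K : XX m × ℝ → ℝ} (hK : ContDiff ℝ ∞ K)
    (hK0 : ∀ q : XX m × ℝ, r ≤ ‖q‖ → K q = 0) : ∃ (μ : VV m → B1 (VV m)) (Z : Set (VV m)),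
      ContDiff ℝ ∞ μ ∧ (∀ y : VV m, L + a ≤ |y.2.2| → μ y = -K (y.1, y.2.1) • dt m) ∧
      (∀ y, r' ≤ lat y → μ y = 0) ∧ (∀ y : VV m, |y.2.2| ≤ L → η ≤ lat y → μ y = 0) ∧
      IsCompact Z ∧ (∀ y ∈ Z, y.2.2 = 0 ∧ lat y < η) ∧ (∀ y, y ∉ Z → 0 < PP (ws m + dd μ y)) ∧
      ∀ y ∈ Z, SubAt Z y ∧ FoldAt (fun z => ws m + dd μ z) y := by
  obtain ⟨k, hk, hP⟩ := core_k hm hr hrr
  have hm' : (0 : ℝ) < 2 * m := by positivity
  have hr' : 0 < r' := hr.trans hrr
  obtain ⟨D⟩ := exists_M3 (P0 := η ^ (2 * k)) hL ha hη (by positivity) (by positivity) hP hr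
  have K1 : ∀ q : XX m × ℝ, r ≤ ‖q.1‖ ∨ r ≤ |q.2| → K q = 0 := fun q h =>
    hK0 q (h.elim (fun h => h.trans (norm_fst_le q)) fun h => h.trans (norm_snd_le q))
  have K2 : ∀ q : XX m × ℝ, 2 * m * r ^ (2 * k) < PX k q.1 → K q = 0 := fun q h => by
    refine K1 q (Or.inl (not_lt.1 fun hc => ?_))
    exact absurd ((PX_le k q.1).trans (mul_le_mul_of_nonneg_left
      (pow_le_pow_left₀ (norm_nonneg _) hc.le _) hm'.le)) (not_le.2 h)
  have big : ∀ (c : ℝ) (x : XX m), 0 ≤ c → c ≤ ‖x‖ → c ^ (2 * k) ≤ PX k x := fun c x h0 h =>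
    (pow_le_pow_left₀ h0 h _).trans (le_PX hm k x)
  have absT : ∀ y : VV m, |core_T D.μ y| = D.μ y.2.2 * |y.2.1| := fun y => by
    rw [core_T, abs_mul, abs_of_nonneg (zero_le_one.trans (D.mu_ge _))]
  have far : ∀ y, r' ≤ lat y → core_mu k D K y = 0 := fun y hy => by
    have h := le_max_iff.1 hy
    obtain ⟨e1, e2⟩ := core_out (D.out (QQ k y) (h.elim (fun h => Or.inl (big _ _ hr'.le h))
      fun h => Or.inr (Or.inl (hη'.trans h))))
    have e3 : core_F k D K y = 0 := by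
      refine K1 _ (h.imp (fun h => ?_) fun h => ?_)
      · show r ≤ ‖pr k D.N y‖
        rw [e2]
        exact hrr.le.trans h
      · show r ≤ |core_T D.μ y|
        rw [absT]
        exact (hrr.le.trans h).trans (le_mul_of_one_le_left (abs_nonneg _) (D.mu_ge _))
    rw [core_mu, core_b, e1, e3, mul_zero, zero_smul, sub_zero]
  have small : ∀ y : VV m, D.e (PX k y.1) = 0 → ‖y.1‖ < η := fun y h =>
    not_le.1 fun hc => absurd (big _ _ hη.le hc) (not_le.2 (D.zer _ h).2.1)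
  have nd : ∀ y : VV m, ¬(D.e (PX k y.1) = 0 ∧ y.2.1 = 0 ∧ y.2.2 = 0) →
      PP (ws m + dd (core_mu k D K) y) ≠ 0 := fun y h =>
    PP_ne (skew_ws.add (skew_dd _ _))
      (core_nd hk D hK (fun q h => h.elim (fun h => K1 q (Or.inr h.le)) (K2 q)) h)
  refine ⟨core_mu k D K, {z : VV m | D.e (PX k z.1) = 0 ∧ z.2.1 = 0 ∧ z.2.2 = 0}, core_smmu D hK,
    fun y hy => ?_, far, fun y hs hy => ?_, ?_, fun y hy => ⟨hy.2.2, ?_⟩, fun y hy => ?_,
    fun y hy => ⟨sub_W0 hk D hy.1 hy.2.1 hy.2.2, ?_⟩⟩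
  · obtain ⟨e1, e2⟩ := core_out (D.out (QQ k y)
      (Or.inr (Or.inr (Or.inl (show L + a / 2 ≤ |y.2.2| by linarith only [ha, hy])))))
    have e3 : core_T D.μ =ᶠ[𝓝 y] dt m := by
      have o : IsOpen {z : VV m | L + 3 * a / 4 < |z.2.2|} :=
        isOpen_lt continuous_const continuous_snd.snd.abs
      filter_upwards [o.mem_nhds (show L + 3 * a / 4 < |y.2.2| by linarith only [ha, hy])] with z hz
      rw [core_T, D.mu_far _ (le_of_lt hz), one_mul, dt_apply]
    have e4 : core_F k D K y = K (y.1, y.2.1) := by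
      rw [core_F, e2, e3.eq_of_nhds, dt_apply]
    rw [core_mu, core_b, e1, e3.fderiv_eq, (dt m).fderiv, e4, zero_sub, neg_smul]
    by_cases c : PX k y.1 ≤ 2 * m * r ^ (2 * k)
    · rw [D.psi_far (QQ k y) hy c, one_mul]
    · rw [K2 (y.1, y.2.1) (not_le.1 c), mul_zero]
  · rcases le_max_iff.1 hy with h | h
    · have h' := big _ _ hη.le h
      rw [core_mu, core_b, (core_out (D.out (QQ k y) (Or.inr (Or.inr (Or.inr ⟨hs, h'⟩))))).1,
        D.psi_in (QQ k y) hs h', zero_mul, zero_smul, sub_zero]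
    · have e3 : core_F k D K y = 0 := by
        refine K1 _ (Or.inr ?_)
        show r ≤ |core_T D.μ y|
        rw [absT]
        exact (D.mu_in _ hs).trans
          (mul_le_mul_of_nonneg_left h (zero_le_one.trans (D.mu_ge _)))
      rw [core_mu, core_b, (core_out (D.out (QQ k y) (Or.inr (Or.inl h)))).1, e3, mul_zero,
        zero_smul, sub_zero]
  · refine (isCompact_closedBall (0 : VV m) η).of_isClosed_subset ?_ fun y hy => ?_
    · exact (isClosed_eq (D.sme.continuous.comp ((contDiff_PX k).continuous.comp continuous_fst))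
        continuous_const).inter ((isClosed_eq continuous_snd.fst continuous_const).inter
          (isClosed_eq continuous_snd.snd continuous_const))
    · rw [mem_closedBall_zero_iff, norm_VV, lat, hy.2.1, hy.2.2, abs_zero]
      exact max_le (max_le (small y hy.1).le hη.le) hη.le
  · rw [lat, hy.2.1, abs_zero]
    exact max_lt (small y hy.1) hη
  · have c : Continuous fun z : VV m => PP (ws m + dd (core_mu k D K) z) :=
      continuous_PP.comp (continuous_const.add (continuousOn_univ.1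
        (contDiffOn_dd isOpen_univ (core_smmu D hK).contDiffOn).continuousOn))
    refine lt_of_le_of_ne (core_sign c (y0 := (0, r' + 1, 0)) (fun h => ?_) ?_
      (fun z hz => nd z fun h => hz (Prod.ext h.2.1 h.2.2)) y) (nd y hy).symm
    · have : r' + 1 = 0 := congrArg Prod.fst h
      linarith only [hr, hrr, this]
    · have e : core_mu k D K =ᶠ[𝓝 ((0, r' + 1, 0) : VV m)] fun _ => 0 := by
        have hl : r' < lat ((0, r' + 1, 0) : VV m) :=
          lt_max_of_lt_right ((lt_add_one r').trans_le (le_abs_self _))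
        filter_upwards [(isOpen_lt continuous_const continuous_lat).mem_nhds hl] with z hz
        exact far z (le_of_lt hz)
      show 0 < PP (ws m + dd (core_mu k D K) (0, r' + 1, 0))
      rw [dd_congr e, dd_const, add_zero, PP_ws]
      exact one_pos
  · refine (fold_W0 hk D hy.1 hy.2.1 hy.2.2).congr (core_loc D ?_)
    have e : QQ k y = (PX k y.1, 0, 0) := by rw [QQ, hy.2.1, hy.2.2]
    have h0 : D.ψ =ᶠ[𝓝 (QQ k y)] fun _ => 0 := by
      rw [e]
      exact (D.zer _ hy.1).2.2.2.2.2.1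
    filter_upwards [core_psi D h0] with z hz
    rw [hz, zero_mul]

end Pool.Agent.Work.MP_bf98aa_gt.Ns
end
end

-- merged part: Pool.Agent.Work.MP_bf98aa_gt.Ns.Fix
section
/-!
Repair of one lens on the beam (step 6).
Plan. r < r3 < r' < R; K = Km * cut-off (exists_ball_cut on XX m x R, 1 on radius r, 0 off r3). core with (L + a/16, a/8, eta/2, r3, r'). S1 a step on [L + 3a/4, L + 7a/8], S2 a step, chi0 from exists_ramp on [-L - a/2 - Kp, -L - a/4] with slope bound Km.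
Delta = mu + (S1 K + (1 - S1) cA GA) dt + S3 K (1 - chi0 (s + GB)) dt, where cA(s) = step on [L + a/4, L + a/2] cuts GA off below, multiplied by a lateral cut-off equal to 1 on radius r3 if needed, and S3(s) = 1 for s <= -L - a/4, 0 for s >= -L - 3a/16 (on the box chi0 = 1 there).
Delta must vanish off a compact subset of the interior of the cell: s >= L + 7a/8, s <= -L - a/2 (inside lat <= R; outside K = 0), lat >= r', and lat >= eta/2 when |s| <= L + a/16.
Lambda (x,t,s) = (lam(sig s) x, lam(sig s) t, sig s), sig = L + 15a/16, lam = eta for |s| <= L, R for |s| >= L + a/16, in between in [eta, R]. Positivity: PP_graph for |s| >= L + 3a/16 + margin, core in the middle where w = ws.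
-/

set_option autoImplicit false
set_option maxSynthPendingDepth 3
set_option linter.unusedSectionVars false
set_option linter.unusedVariables false

open Set Filter Topology Metric MeasureTheory
open scoped Manifold ContDiff

noncomputable section
namespace Pool.Agent.Work.MP_bf98aa_gt.Ns

open Pool.Agent.Work.MP_8c604c_gt

variable {V V' V'' : Type} [NormedAddCommGroup V] [NormedSpace ℝ V] [FiniteDimensional ℝ V]
  [NormedAddCommGroup V'] [NormedSpace ℝ V'] [FiniteDimensional ℝ V']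
  [NormedAddCommGroup V''] [NormedSpace ℝ V''] [FiniteDimensional ℝ V''] {m : ℕ}

theorem fix_box {G G' : VV m → ℝ} {R α β : ℝ} (hR : 0 < R) (h : α < β) {y : VV m}
    (hy : y ∈ box m R α β) (hG : DifferentiableAt ℝ G y) (hG' : DifferentiableAt ℝ G' y)
    (e : ∀ z ∈ box m R α β, G z = G' z) : fderiv ℝ G y = fderiv ℝ G' y := by
  have hu : UniqueDiffOn ℝ (box m R α β) := by
    refine uniqueDiffOn_convex (convex_box _ _ _) ⟨(0, 0, (α + β) / 2), ?_⟩
    refine mem_interior.2 ⟨{z | lat z < R ∧ α < z.2.2 ∧ z.2.2 < β},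
      fun z hz => ⟨hz.1.le, hz.2.1.le, hz.2.2.le⟩, ?_, ?_⟩
    · exact (isOpen_lt continuous_lat continuous_const).inter
        ((isOpen_lt continuous_const (continuous_snd.comp continuous_snd)).inter
          (isOpen_lt (continuous_snd.comp continuous_snd) continuous_const))
    · exact ⟨by simpa [lat] using hR, by simp only; linarith only [h], by simp only; linarith⟩
  rw [← hG.fderivWithin (hu y hy), ← hG'.fderivWithin (hu y hy)]
  exact fderivWithin_congr' (fun z hz => e z hz) hy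

theorem fix_line {H : VV m → ℝ} {y : VV m} (hH : DifferentiableAt ℝ H y) :
    HasDerivAt (fun τ : ℝ => H (y.1, y.2.1, τ)) (fderiv ℝ H y (es m)) y.2.2 := by
  have h1 : HasDerivAt (fun τ : ℝ => ((y.1, y.2.1, τ) : VV m)) (es m) y.2.2 :=
    (hasDerivAt_const _ _).prodMk ((hasDerivAt_const _ _).prodMk (hasDerivAt_id _))
  exact HasFDerivAt.comp_hasDerivAt (l := H) (x := y.2.2) hH.hasFDerivAt h1

theorem fix_lam {L a η R : ℝ} (hL : 0 < L) (ha : 0 < a) (hηR : η ≤ R) : ∃ lam : ℝ → ℝ,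
    ContDiff ℝ ∞ lam ∧ (∀ u, η ≤ lam u ∧ lam u ≤ R) ∧ (∀ u, |u| ≤ L → lam u = η) ∧
      ∀ u, L + a / 16 ≤ |u| → lam u = R := by
  obtain ⟨S, hS, S0, S1, S01, -⟩ := exists_step (a := L) (b := L + a / 16) (by linarith only [ha])
  refine ⟨fun u => η + (R - η) * (S u + S (-u)), ?_, fun u => ?_, fun u hu => ?_, fun u hu => ?_⟩
  · exact contDiff_const.add (contDiff_const.mul (hS.add (hS.comp contDiff_neg)))
  · have h : 0 ≤ S u + S (-u) ∧ S u + S (-u) ≤ 1 := by
      rcases le_total u 0 with h | h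
      · rw [S0 u (by linarith)]
        simpa using S01 (-u)
      · rw [S0 (-u) (by linarith)]
        simpa using S01 u
    have h1 := mul_nonneg (sub_nonneg.2 hηR) h.1
    have h2 := mul_le_mul_of_nonneg_left h.2 (sub_nonneg.2 hηR)
    constructor
    · simp only; linarith
    · simp only; linarith
  · have := abs_le.1 hu
    simp only
    rw [S0 u this.2, S0 (-u) (by linarith)]
    ring
  · simp only
    rcases le_total u 0 with h | h
    · rw [abs_of_nonpos h] at hu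
      rw [S0 u (by linarith), S1 (-u) hu]
      ring
    · rw [abs_of_nonneg h] at hu
      rw [S0 (-u) (by linarith), S1 u hu]
      ring

theorem fix_dif {lam : ℝ → ℝ} (hl : ContDiff ℝ ∞ lam) (hp : ∀ u, 0 < lam u) {σ : ℝ} (hσ : 0 < σ) :
    ∃ Λ : Dif (VV m), Λ '' closedBall 0 1 = {y | |y.2.2| ≤ σ ∧ lat y ≤ lam y.2.2} := by
  have hs : ContDiff ℝ ∞ fun y : VV m => y.2.2 := contDiff_snd.comp contDiff_snd
  have ht : ContDiff ℝ ∞ fun y : VV m => y.2.1 := contDiff_fst.comp contDiff_snd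
  have h1 : ContDiff ℝ ∞ fun y : VV m => lam (σ * y.2.2) := hl.comp (contDiff_const.mul hs)
  have h2 : ContDiff ℝ ∞ fun y : VV m => (lam y.2.2)⁻¹ := (hl.comp hs).inv fun y => (hp _).ne'
  let Λ : Dif (VV m) :=
    { toFun := fun y => (lam (σ * y.2.2) • y.1, lam (σ * y.2.2) * y.2.1, σ * y.2.2)
      invFun := fun y => ((lam y.2.2)⁻¹ • y.1, (lam y.2.2)⁻¹ * y.2.1, σ⁻¹ * y.2.2)
      left_inv := fun y => by
        have := (hp (σ * y.2.2)).ne'
        refine Prod.ext ?_ (Prod.ext ?_ ?_)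
        · simp only [smul_smul, inv_mul_cancel₀ this, one_smul]
        · simp only [← mul_assoc, inv_mul_cancel₀ this, one_mul]
        · simp only [← mul_assoc, inv_mul_cancel₀ hσ.ne', one_mul]
      right_inv := fun y => by
        have := (hp y.2.2).ne'
        have e : σ * (σ⁻¹ * y.2.2) = y.2.2 := by
          rw [← mul_assoc, mul_inv_cancel₀ hσ.ne', one_mul]
        refine Prod.ext ?_ (Prod.ext ?_ ?_)
        · simp only [e, smul_smul, mul_inv_cancel₀ this, one_smul]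
        · simp only [e, ← mul_assoc, mul_inv_cancel₀ this, one_mul]
        · simp only [e]
      smooth := (h1.smul contDiff_fst).prodMk ((h1.mul ht).prodMk (contDiff_const.mul hs))
      smooth_inv := (h2.smul contDiff_fst).prodMk ((h2.mul ht).prodMk (contDiff_const.mul hs)) }
  have key : ∀ z : VV m, z ∈ closedBall (0 : VV m) 1 ↔
      |(Λ z).2.2| ≤ σ ∧ lat (Λ z) ≤ lam (Λ z).2.2 := by
    intro z
    have e1 : lat (Λ z) = lam (σ * z.2.2) * lat z := by
      simp [Λ, lat, norm_smul, abs_of_pos (hp _), mul_max_of_nonneg _ _ (hp _).le]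
    have e2 : (Λ z).2.2 = σ * z.2.2 := rfl
    rw [e1, e2, mem_closedBall_zero_iff, norm_VV, max_le_iff, abs_mul, abs_of_pos hσ,
      mul_le_iff_le_one_right hσ, mul_le_iff_le_one_right (hp _), and_comm]
  refine ⟨Λ, ?_⟩
  ext y
  constructor
  · rintro ⟨z, hz, rfl⟩
    exact (key z).1 hz
  · intro hy
    have e : Λ (Λ.invFun y) = y := Λ.right_inv y
    exact ⟨Λ.invFun y, (key _).2 (by rw [e]; exact hy), e⟩

theorem fix_PP {Δ : VV m → B1 (VV m)} {H : VV m → ℝ} {y : VV m} (hH : DifferentiableAt ℝ H y)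
    (e : Δ =ᶠ[𝓝 y] fun z => H z • dt m) (φ : B1 (VV m)) :
    PP (ws m + wedge φ (dt m) + dd Δ y) = 1 + φ (es m) + fderiv ℝ H y (es m) := by
  rw [dd_congr e, dd_smul_const hH, add_assoc, ← wedge_add_left, PP_graph,
    ContinuousLinearMap.add_apply, add_assoc]

theorem fix (hm : 1 ≤ m) {L a η r R Km Kp : ℝ} (hL : 0 < L) (ha : 0 < a) (hη : 0 < η) (hr : 0 < r)
    (hR : r < R) (hηR : η ≤ R) (hK : 0 < Km) (hKp : Km < Kp) {GA GB : VV m → ℝ}
    (hGA : ContDiff ℝ ∞ GA) (hGB : ContDiff ℝ ∞ GB)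
    (A0 : ∀ y ∈ box m R L (L + a), y.2.2 ≤ L + a / 2 ∨ r ≤ lat y → GA y = 0)
    (Ale : ∀ y ∈ box m R L (L + a), GA y ≤ Km)
    (Ad : ∀ y ∈ box m R L (L + a), L + 3 * a / 4 ≤ y.2.2 → fderiv ℝ GA y (es m) < 1)
    (B0 : ∀ y ∈ box m R (-L - a) (-L), -L - a / 4 ≤ y.2.2 → GB y = 0)
    (B1' : ∀ y ∈ box m R (-L - a) (-L), y.2.2 ≤ -L - a / 2 → GB y = -Kp)
    (Bd : ∀ y ∈ box m R (-L - a) (-L), 0 < 1 + fderiv ℝ GB y (es m)) {w : VV m → B2 (VV m)}
    (hA : ∀ y ∈ box m R L (L + a), w y = ws m - wedge (fderiv ℝ GA y) (dt m))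
    (hB : ∀ y ∈ box m R (-L - a) (-L), w y = ws m + wedge (fderiv ℝ GB y) (dt m))
    (hT : ∀ y ∈ box m η (-L) L, w y = ws m) :
    ∃ (Δ : VV m → B1 (VV m)) (Λ : Dif (VV m)) (Z K : Set (VV m)), ContDiff ℝ ∞ Δ ∧ IsCompact K ∧
      K ⊆ interior (Λ '' closedBall 0 1) ∧ (∀ y, y ∉ K → Δ y = 0) ∧
      Λ '' closedBall 0 1 ⊆ beam m R η L a ∧ box m r (L + a / 2) (L + 3 * a / 4) ⊆ K ∧
      IsCompact Z ∧ Z ⊆ K ∧ (∀ y ∈ beam m R η L a, y ∉ Z → 0 < PP (w y + dd Δ y)) ∧
      ∀ y ∈ Z, SubAt Z y ∧ FoldAt (fun z => w z + dd Δ z) y := by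
  obtain ⟨r3, r', h3, h3', h'R, hη'⟩ : ∃ r3 r' : ℝ, r < r3 ∧ r3 < r' ∧ r' < R ∧ η / 2 ≤ r' :=
    ⟨(r + R) / 2, (r + 3 * R) / 4, by linarith only [hR], by linarith only [hR], by linarith, by linarith only [hr, hR, hηR]⟩
  have hR0 : 0 < R := hr.trans hR
  obtain ⟨c, hc, c1, c0, c01⟩ := exists_ball_cut (0 : XX m × ℝ) hr.le h3
  simp only [sub_zero] at c1 c0
  obtain ⟨μ, Z, hμ, μ1, μ2, μ3, hZ, hZ0, hpos, hfold⟩ := core hm (L := L + a / 16) (a := a / 8)
    (η := η / 2) (r := r3) (r' := r') (by linarith only [hL, ha]) (by linarith only [ha]) (by linarith only [hη]) (hr.trans h3) h3'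
    hη' (K := fun q => Km * c q) (contDiff_const.mul hc) fun q hq => by rw [c0 q hq, mul_zero]
  obtain ⟨S1, hS1, S10, S11, S1b, S1d⟩ :=
    exists_step (a := L + 3 * a / 4) (b := L + 7 * a / 8) (by linarith only [ha])
  obtain ⟨S2, hS2, S20, S21, -, -⟩ := exists_step (a := L + a / 4) (b := L + a / 2) (by linarith only [ha])
  obtain ⟨S3, hS3, S30, S31, -, -⟩ :=
    exists_step (a := -L - a / 4) (b := -L - 3 * a / 16) (by linarith only [ha])
  obtain ⟨S4, hS4, S40, S41, -, -⟩ :=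
    exists_step (a := -L - a) (b := -L - 3 * a / 4) (by linarith only [ha])
  obtain ⟨χ, hχ, χ0, χ1, χd⟩ :=
    exists_ramp (a := -L - a / 2 - Kp) (b := -L - a / 4) hK (by linarith only [ha, hKp])
  obtain ⟨lam, hlam, lb, l0, l1⟩ := fix_lam hL ha hηR
  obtain ⟨Λ, hΛ⟩ := fix_dif (m := m) hlam (fun u => hη.trans_le (lb u).1)
    (σ := L + 15 * a / 16) (by linarith only [hL, ha])
  have hs : ContDiff ℝ ∞ fun y : VV m => y.2.2 := contDiff_snd.comp contDiff_snd
  obtain ⟨k, hk⟩ : ∃ k : VV m → ℝ, ∀ y, k y = c (y.1, y.2.1) := ⟨_, fun _ => rfl⟩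
  have hks : ContDiff ℝ ∞ k := by
    rw [show k = fun y => c (y.1, y.2.1) from funext hk]
    exact hc.comp (contDiff_fst.prodMk (contDiff_fst.comp contDiff_snd))
  have k1 : ∀ y, lat y ≤ r → k y = 1 := fun y h => by rw [hk]; exact c1 _ h
  have k0 : ∀ y, r3 ≤ lat y → k y = 0 := fun y h => by rw [hk]; exact c0 _ h
  have kb : ∀ y, 0 ≤ k y ∧ k y ≤ 1 := fun y => by rw [hk]; exact c01 _
  have kl : ∀ (y : VV m) (τ : ℝ), k (y.1, y.2.1, τ) = k y := fun y τ => by rw [hk, hk]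
  replace μ1 : ∀ y : VV m, L + 3 * a / 16 ≤ |y.2.2| → μ y = -(Km * k y) • dt m := fun y h => by
    rw [hk]
    exact μ1 y (by linarith only [h])
  obtain ⟨FA, hFA⟩ : ∃ FA : VV m → ℝ, ∀ y, FA y =
    S1 y.2.2 * (Km * k y) + (1 - S1 y.2.2) * (S2 y.2.2 * (k y * GA y)) := ⟨_, fun _ => rfl⟩
  obtain ⟨FB, hFB⟩ : ∃ FB : VV m → ℝ, ∀ y, FB y =
    (1 - S3 y.2.2) * (Km * k y * (1 - S4 y.2.2 * χ (y.2.2 + GB y))) := ⟨_, fun _ => rfl⟩
  have sFA : ContDiff ℝ ∞ FA := by
    rw [show FA = _ from funext hFA]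
    exact ((hS1.comp hs).mul (contDiff_const.mul hks)).add
      ((contDiff_const.sub (hS1.comp hs)).mul ((hS2.comp hs).mul (hks.mul hGA)))
  have sFB : ContDiff ℝ ∞ FB := by
    rw [show FB = _ from funext hFB]
    exact (contDiff_const.sub (hS3.comp hs)).mul ((contDiff_const.mul hks).mul
      (contDiff_const.sub ((hS4.comp hs).mul (hχ.comp (hs.add hGB)))))
  have FA0 : ∀ y : VV m, y.2.2 ≤ L + a / 4 → FA y = 0 := fun y h => by
    rw [hFA, S10 _ (by linarith only [ha, h]), S20 _ h]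
    ring
  have FA1 : ∀ y : VV m, L + 7 * a / 8 ≤ y.2.2 → FA y = Km * k y := fun y h => by
    rw [hFA, S11 _ h]
    ring
  have FAb : ∀ y ∈ box m R L (L + a),
      FA y = S1 y.2.2 * (Km * k y) + (1 - S1 y.2.2) * GA y := fun y hy => by
    rw [hFA]
    by_cases h : y.2.2 ≤ L + a / 2 ∨ r ≤ lat y
    · rw [A0 y hy h]
      ring
    · push Not at h
      rw [S21 _ h.1.le, k1 y h.2.le]
      ring
  have FB0 : ∀ y : VV m, -L - a / 4 ≤ y.2.2 → FB y = 0 := fun y h => by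
    rw [hFB]
    by_cases h1 : -L - 3 * a / 16 ≤ y.2.2
    · rw [S31 _ h1]
      ring
    by_cases h2 : lat y ≤ R
    · rw [B0 y ⟨h2, by linarith only [ha, h], by linarith only [ha, h1]⟩ h, χ1 _ (by linarith only [h]), S41 _ (by linarith only [ha, h])]
      ring
    · rw [k0 y (by linarith only [h3', h'R, h2])]
      ring
  have FB1 : ∀ y : VV m, y.2.2 ≤ -L - a / 2 → FB y = Km * k y := fun y h => by
    rw [hFB, S30 _ (by linarith only [ha, h])]
    by_cases h1 : y.2.2 ≤ -L - a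
    · rw [S40 _ h1]
      ring
    by_cases h2 : lat y ≤ R
    · rw [B1' y ⟨h2, by linarith only [h1], by linarith only [h, h1]⟩ h, χ0 _ (by linarith only [h])]
      ring
    · rw [k0 y (by linarith only [h3', h'R, h2])]
      ring
  have FBb : ∀ y ∈ box m R (-L - a) (-L - a / 4),
      FB y = Km * k y * (1 - χ (y.2.2 + GB y)) := fun y hy => by
    rw [hFB, S30 _ hy.2.2]
    by_cases h1 : -L - 3 * a / 4 ≤ y.2.2
    · rw [S41 _ h1]
      ring
    · rw [B1' y ⟨hy.1, hy.2.1, by linarith only [ha, h1]⟩ (by linarith only [ha, h1]), χ0 _ (by linarith only [ha, h1])]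
      ring
  obtain ⟨Δ, hΔ⟩ : ∃ Δ : VV m → B1 (VV m), ∀ y, Δ y = μ y + (FA y + FB y) • dt m :=
    ⟨_, fun _ => rfl⟩
  have sΔ : ContDiff ℝ ∞ Δ := by
    rw [show Δ = _ from funext hΔ]
    exact hμ.add ((sFA.add sFB).smul contDiff_const)
  have Δmid : ∀ y : VV m, |y.2.2| ≤ L + a / 4 → Δ y = μ y := fun y h => by
    have := abs_le.1 h
    rw [hΔ, FA0 y this.2, FB0 y (by linarith only [this])]
    simp
  have Δout : ∀ y : VV m, L + 3 * a / 16 ≤ |y.2.2| →
      Δ y = (-(Km * k y) + (FA y + FB y)) • dt m := fun y h => by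
    rw [hΔ, μ1 y h, ← add_smul]
  have sH : ContDiff ℝ ∞ fun y => -(Km * k y) + (FA y + FB y) :=
    (contDiff_const.mul hks).neg.add (sFA.add sFB)
  have cabs : Continuous fun y : VV m => |y.2.2| := by fun_prop
  have evmid : ∀ y : VV m, |y.2.2| < L + a / 4 → Δ =ᶠ[𝓝 y] μ := fun y h =>
    ((isOpen_lt cabs continuous_const).eventually_mem h).mono fun z hz => Δmid z (le_of_lt hz)
  have evout : ∀ y : VV m, L + a / 4 ≤ |y.2.2| →
      Δ =ᶠ[𝓝 y] fun z => (-(Km * k z) + (FA z + FB z)) • dt m := fun y h =>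
    ((isOpen_lt continuous_const cabs).eventually_mem
      (show y ∈ {z : VV m | L + 3 * a / 16 < |z.2.2|} from by
        simp only [mem_setOf_eq]; linarith only [ha, h])).mono fun z hz => Δout z (le_of_lt hz)
  have dGA : ∀ y, DifferentiableAt ℝ GA y := fun y => hGA.differentiable (by simp) y
  have dGB : ∀ y, DifferentiableAt ℝ GB y := fun y => hGB.differentiable (by simp) y
  have dH : ∀ y, DifferentiableAt ℝ (fun y => -(Km * k y) + (FA y + FB y)) y := fun y =>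
    sH.differentiable (by simp) y
  refine ⟨Δ, Λ, Z, box m r' (-L - a / 2) (L + 7 * a / 8) ∩
    {y | lat y ≤ η / 2 ∨ L + a / 16 ≤ |y.2.2|}, sΔ, ?_, ?_, ?_, ?_, ?_, hZ, ?_, ?_, ?_⟩
  · exact (isCompact_box _ _ _).inter_right
      ((isClosed_le continuous_lat continuous_const).union (isClosed_le continuous_const cabs))
  · intro y hy
    rw [hΛ]
    refine mem_interior.2 ⟨{z | |z.2.2| < L + 15 * a / 16 ∧ lat z < lam z.2.2},
      fun z hz => ⟨hz.1.le, hz.2.le⟩, (isOpen_lt cabs continuous_const).inter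
        (isOpen_lt continuous_lat (hlam.continuous.comp hs.continuous)), ?_, ?_⟩
    · exact abs_lt.2 ⟨by linarith only [ha, hy, hy.1.2.1], by linarith only [ha, hy, hy.1.2.2]⟩
    · rcases hy.2 with h | h
      · linarith only [hη, h, lb, (lb y.2.2).1]
      · rw [l1 _ h]
        linarith only [h'R, hy, hy.1.1]
  · intro y hy
    by_cases h1 : lat y ≤ r'
    · by_cases h2 : -L - a / 2 ≤ y.2.2
      · by_cases h3 : y.2.2 ≤ L + 7 * a / 8
        · have h4 : ¬(lat y ≤ η / 2 ∨ L + a / 16 ≤ |y.2.2|) := fun h => hy ⟨⟨h1, h2, h3⟩, h⟩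
          push Not at h4
          rw [Δmid y (by linarith only [ha, h4]), μ3 y h4.2.le h4.1.le]
        · rw [Δout y (by linarith only [ha, h3, le_abs_self y.2.2]), FA1 y (by linarith only [h3]), FB0 y (by linarith only [hL, ha, h3])]
          simp
      · rw [Δout y (by linarith only [ha, h2, neg_le_abs y.2.2]), FA0 y (by linarith only [hL, ha, h2]), FB1 y (by linarith only [h2])]
        simp
    · rw [hΔ, μ2 y (by linarith only [h1]), hFA, hFB, k0 y (by linarith only [h3', h1])]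
      simp
  · rw [hΛ]
    intro y hy
    have h1 := abs_le.1 hy.1
    have h2 := hy.2.trans (lb y.2.2).2
    by_cases h3 : L ≤ y.2.2
    · exact Or.inl (Or.inl ⟨h2, h3, by linarith only [ha, h1]⟩)
    by_cases h4 : y.2.2 ≤ -L
    · exact Or.inr ⟨h2, by linarith only [ha, h1], h4⟩
    · refine Or.inl (Or.inr ⟨?_, by linarith only [h4], by linarith only [h3]⟩)
      rw [← l0 y.2.2 (abs_le.2 ⟨by linarith only [h4], by linarith only [h3]⟩)]
      exact hy.2
  · intro y hy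
    exact ⟨⟨by linarith only [h3, h3', hy, hy.1], by linarith only [hL, ha, hy, hy.2.1], by linarith only [ha, hy, hy.2.2]⟩,
      Or.inr (by linarith only [ha, hy, le_abs_self y.2.2, hy.2.1])⟩
  · intro y hy
    obtain ⟨h1, h2⟩ := hZ0 y hy
    exact ⟨⟨by linarith only [hη', h2], by linarith only [hL, ha, h1], by linarith only [hL, ha, h1]⟩, Or.inl h2.le⟩
  · intro y hy hyZ
    by_cases h1 : L + a / 4 ≤ y.2.2
    · have hb : y ∈ box m R L (L + a) := by
        rcases hy with (h | h) | h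
        · exact h
        · exact absurd h.2.2 (by linarith only [ha, h1])
        · exact absurd h.2.2 (by linarith only [hL, ha, h1])
      have dS : DifferentiableAt ℝ S1 y.2.2 := hS1.differentiable (by simp) _
      have sG : ContDiff ℝ ∞ fun z : VV m =>
          -(Km * k z) + (S1 z.2.2 * (Km * k z) + (1 - S1 z.2.2) * GA z) :=
        (contDiff_const.mul hks).neg.add (((hS1.comp hs).mul (contDiff_const.mul hks)).add
          ((contDiff_const.sub (hS1.comp hs)).mul hGA))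
      have dG := sG.differentiable (by simp) y
      have e1 := fix_box hR0 (by linarith only [ha] : L < L + a) hb (dH y) dG fun z hz => by
        rw [FAb z hz, FB0 z (by linarith only [hL, ha, hz, hz.2.1]), add_zero]
      have e2 := fix_line dG
      simp only [kl] at e2
      have e3 := (((dS.hasDerivAt.mul_const (Km * k y)).add
        ((dS.hasDerivAt.const_sub 1).mul (fix_line (dGA y)))).const_add (-(Km * k y))).unique e2
      have e4 : ws m - wedge (fderiv ℝ GA y) (dt m) = ws m + wedge (-fderiv ℝ GA y) (dt m) := by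
        rw [← neg_one_smul ℝ (fderiv ℝ GA y), wedge_smul_left, neg_one_smul, sub_eq_add_neg]
      rw [hA y hb, e4, fix_PP (dH y) (evout y (h1.trans (le_abs_self _))), e1, ← e3,
        ContinuousLinearMap.neg_apply]
      have f1 : GA y ≤ Km * k y := by
        rcases le_total (lat y) r with h | h
        · rw [k1 y h, mul_one]
          exact Ale y hb
        · rw [A0 y hb (Or.inr h)]
          exact mul_nonneg hK.le (kb y).1
      have f2 := mul_nonneg (S1d y.2.2) (sub_nonneg.2 f1)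
      have f3 : S1 y.2.2 * fderiv ℝ GA y (es m) < 1 := by
        rcases le_total y.2.2 (L + 3 * a / 4) with h | h
        · rw [S10 _ h, zero_mul]
          exact one_pos
        · have := Ad y hb h
          rcases le_total (fderiv ℝ GA y (es m)) 0 with h' | h'
          · linarith only [S1b, h', mul_nonpos_of_nonneg_of_nonpos (S1b y.2.2).1 h']
          · linarith only [this, h', S1b, mul_le_of_le_one_left h' (S1b y.2.2).2]
      have e5 : ((y.1, y.2.1, y.2.2) : VV m) = y := rfl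
      simp only [e5]
      linarith only [f2, f3]
    by_cases h2 : y.2.2 ≤ -L - a / 4
    · have hb : y ∈ box m R (-L - a) (-L) := by
        rcases hy with (h | h) | h
        · exact absurd h.2.1 (by linarith only [hL, ha, h2])
        · exact absurd h.2.1 (by linarith only [ha, h2])
        · exact h
      have dχ : DifferentiableAt ℝ χ (y.2.2 + GB y) := hχ.differentiable (by simp) _
      have sG : ContDiff ℝ ∞ fun z : VV m => -(Km * k z) * χ (z.2.2 + GB z) :=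
        (contDiff_const.mul hks).neg.mul (hχ.comp (hs.add hGB))
      have dG := sG.differentiable (by simp) y
      have e1 := fix_box hR0 (by linarith only [ha] : -L - a < -L - a / 4) ⟨hb.1, hb.2.1, h2⟩ (dH y) dG
        fun z hz => by
          rw [FBb z hz, FA0 z (by linarith only [hL, ha, hz, hz.2.2])]
          ring
      have e2 := fix_line dG
      simp only [kl] at e2
      have e0 : HasDerivAt (fun τ : ℝ => τ + GB (y.1, y.2.1, τ)) (1 + fderiv ℝ GB y (es m))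
          y.2.2 := (hasDerivAt_id _).add (fix_line (dGB y))
      have e3 := ((HasDerivAt.comp (h₂ := χ) y.2.2 dχ.hasDerivAt e0).const_mul
        (-(Km * k y))).unique e2
      rw [hB y hb, fix_PP (dH y) (evout y (by linarith only [h2, neg_le_abs y.2.2])), e1, ← e3]
      have f1 := Bd y hb
      have f2 := χd (y.2.2 + GB y)
      have f3 : k y * (Km * deriv χ (y.2.2 + GB y)) < 1 :=
        (mul_le_of_le_one_left (mul_nonneg hK.le f2.1) (kb y).2).trans_lt f2.2
      have f4 := mul_pos f1 (sub_pos.2 f3)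
      linarith only [f4]
    · have hw : w y = ws m := by
        rcases hy with (h | h) | h
        · rw [hA y h, fix_box (G' := fun _ => 0) hR0 (by linarith only [ha] : L < L + a / 2)
            ⟨h.1, h.2.1, by linarith only [ha, h1]⟩ (dGA y) (differentiableAt_const _) fun z hz =>
              A0 z ⟨hz.1, hz.2.1, by linarith only [ha, hz, hz.2.2]⟩ (Or.inl hz.2.2)]
          simp [wedge_zero_left]
        · exact hT y h
        · rw [hB y h, fix_box (G' := fun _ => 0) hR0 (by linarith only [ha] : -L - a / 4 < -L)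
            ⟨h.1, by linarith only [h2], h.2.2⟩ (dGB y) (differentiableAt_const _) fun z hz =>
              B0 z ⟨hz.1, by linarith only [ha, hz, hz.2.1], hz.2.2⟩ hz.2.1]
          simp [wedge_zero_left]
      rw [hw, dd_congr (evmid y (abs_lt.2 ⟨by linarith only [h2], by linarith only [h1]⟩))]
      exact hpos y hyZ
  · intro y hy
    obtain ⟨h1, h2⟩ := hZ0 y hy
    refine ⟨(hfold y hy).1, (hfold y hy).2.congr ?_⟩
    have o1 : ∀ᶠ z in 𝓝 y, lat z < η ∧ |z.2.2| < L :=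
      ((isOpen_lt continuous_lat continuous_const).inter
        (isOpen_lt cabs continuous_const)).eventually_mem
          ⟨by simp only [mem_setOf_eq]; linarith only [hη, h2], by simp only [mem_setOf_eq, h1, abs_zero]; exact hL⟩
    refine o1.mono fun z hz => ?_
    have h3 := abs_lt.1 hz.2
    simp only
    rw [hT z ⟨hz.1.le, h3.1.le, h3.2.le⟩, dd_congr (evmid z (by linarith only [ha, hz, hz.2]))]

end Pool.Agent.Work.MP_bf98aa_gt.Ns
end
end
end

-- merged part: Pool.Agent.Work.MP_bf98aa_gt.Ns.Sym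
section
-- merged part: Pool.Agent.Work.MP_bf98aa_gt.Ns.Germ
section
/-!
Compactly supported symplectic diffeomorphisms with a prescribed germ.
Hints. g0: chi = 1 on radius 1/2, 0 off radius 3/4; k0 = id + chi (kap - id) is a Dif (dif_of_lip); l0 z = (1/2) b z; l1 = pull1 k0 l0 - l0 vanishes off radius 3/4 and is closed on the ball of radius 1/2 (dd_pull1, dd_half),
poin1 gives g there, l = l1 - fderiv (chi' g) with chi' = 1 on radius 1/8, 0 off radius 1/4, so l = 0 near 0 and dd l = pull2 k0 b - b is small; moser with U = univ, cut-off 1 on radius 3/4 (so chi l = l everywhere); k = k0 o phi.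
g0r: conjugate by the dilation y -> rho y. g_trans: g0r for y + v. g_germ: L = fderiv kap 0 satisfies pb L b = b; linear maps by sp_ind, tv b c v = (tv b (c/N) v)^N (tv_add) and g0r; then L^-1 o kap is tangent to the identity, g0r on a small ball.
SympC is closed under trans, and germs fixing 0 compose.
-/

set_option autoImplicit false
set_option maxSynthPendingDepth 3
set_option linter.unusedSectionVars false
set_option linter.unusedVariables false

open Set Filter Topology Metric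
open scoped Manifold ContDiff

noncomputable section
namespace Pool.Agent.Work.MP_bf98aa_gt.Ns

open Pool.Agent.Work.MP_8c604c_gt

variable {V V' V'' : Type} [NormedAddCommGroup V] [NormedSpace ℝ V] [FiniteDimensional ℝ V]
  [NormedAddCommGroup V'] [NormedSpace ℝ V'] [FiniteDimensional ℝ V']
  [NormedAddCommGroup V''] [NormedSpace ℝ V''] [FiniteDimensional ℝ V''] {m : ℕ}

theorem germ_diff (k : Dif V) (y : V) : DifferentiableAt ℝ k y :=
  k.smooth.differentiable (by simp) y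

theorem SympC.trans {b : B2 V} {ρ : ℝ} {k k' : Dif V} (h : SympC b ρ k) (h' : SympC b ρ k') :
    SympC b ρ (k.trans k') := by
  refine ⟨fun y => ?_, fun y hy => ?_⟩
  · show pull2 (fun z => k' (k z)) (fun _ => b) y = b
    rw [pull2_comp (germ_diff k y) (germ_diff k' _), funext h'.1, h.1]
  · show k' (k y) = y
    rw [h.2 y hy, h'.2 y hy]

theorem germ_far {r : ℝ} {y : V} (hy : r < ‖y‖) : ∀ᶠ z in 𝓝 y, r < ‖z‖ :=
  (isOpen_lt continuous_const continuous_norm).mem_nhds hy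

theorem germ_near {r : ℝ} {y : V} (hy : ‖y‖ < r) : ∀ᶠ z in 𝓝 y, ‖z‖ < r :=
  (isOpen_lt continuous_norm continuous_const).mem_nhds hy

theorem germ_pb (b : B2 V) {δ : ℝ} (hδ : 0 < δ) : ∃ η : ℝ, 0 < η ∧ ∀ L : V →L[ℝ] V,
    ‖L - ContinuousLinearMap.id ℝ V‖ ≤ η → ‖pb L b - b‖ ≤ δ := by
  have h0 : Continuous fun L : V →L[ℝ] V => (L, b) := continuous_id.prodMk continuous_const
  have h1 : Continuous fun L : V →L[ℝ] V => pb L b :=
    Continuous.comp (g := fun p : (V →L[ℝ] V) × B2 V => pb p.1 p.2) (f := fun L => (L, b))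
      contDiff_pb.continuous h0
  obtain ⟨η, hη, h2⟩ := Metric.continuousAt_iff.1
    (h1.continuousAt (x := ContinuousLinearMap.id ℝ V)) δ hδ
  refine ⟨η / 2, half_pos hη, fun L hL => ?_⟩
  have h3 := h2 (x := L) (by rw [dist_eq_norm]; linarith only [hη, hL])
  rw [dist_eq_norm, pb_id] at h3
  exact h3.le

theorem germ_cut {η : ℝ} (hη : 0 < η) : ∃ ε : ℝ, 0 < ε ∧ ∀ κ : V → V,
    ContDiffOn ℝ ∞ κ (ball 0 1) → (∀ y ∈ ball (0 : V) 1,
      ‖κ y - y‖ ≤ ε ∧ ‖fderiv ℝ κ y - ContinuousLinearMap.id ℝ V‖ ≤ ε) →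
    ∃ k : Dif V, (∀ y, ‖fderiv ℝ k y - ContinuousLinearMap.id ℝ V‖ ≤ η) ∧
      (∀ y, ‖y‖ ≤ 1 / 2 → k y = κ y) ∧ ∀ y, 3 / 4 ≤ ‖y‖ → k y = y := by
  obtain ⟨χ, c1, c2, c3, c4⟩ := exists_ball_cut (0 : V) (r := 1 / 2) (R := 3 / 4) (by norm_num)
    (by norm_num)
  simp only [sub_zero] at c2 c3
  obtain ⟨M, hM⟩ := (isCompact_closedBall (0 : V) 1).exists_bound_of_continuousOn
    (c1.continuous_fderiv (by simp)).continuousOn
  have M0 : 0 ≤ M := (norm_nonneg _).trans (hM 0 (mem_closedBall_self zero_le_one))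
  have m0 : 0 < min η (1 / 2) := lt_min hη one_half_pos
  refine ⟨min η (1 / 2) / (M + 1), by positivity, fun κ hκ h => ?_⟩
  have hg : ContDiff ℝ ∞ fun y => χ y • (κ y - y) :=
    contDiff_of_supp isOpen_ball isClosed_closedBall
      (closedBall_subset_ball (show (3 / 4 : ℝ) < 1 by norm_num))
      (c1.contDiffOn.smul (hκ.sub contDiffOn_id)) fun y hy => by
        rw [mem_closedBall_zero_iff, not_le] at hy
        rw [c3 y hy.le, zero_smul]
  have hd : ∀ y, ‖fderiv ℝ (fun y => χ y • (κ y - y)) y‖ ≤ min η (1 / 2) := fun y => by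
    by_cases hy : y ∈ ball (0 : V) 1
    · have h1 : HasFDerivAt (fun y => χ y • (κ y - y))
          (χ y • (fderiv ℝ κ y - ContinuousLinearMap.id ℝ V) +
            (fderiv ℝ χ y).smulRight (κ y - y)) y :=
        (c1.differentiable (by simp) y).hasFDerivAt.smul
          (((hκ.differentiableOn (by simp)).differentiableAt
            (isOpen_ball.mem_nhds hy)).hasFDerivAt.sub (hasFDerivAt_id y))
      rw [h1.fderiv]
      refine (norm_add_le _ _).trans ?_
      rw [norm_smul, ContinuousLinearMap.norm_smulRight_apply, Real.norm_of_nonneg (c4 y).1]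
      have h2 := mul_le_mul (c4 y).2 (h y hy).2 (norm_nonneg _) zero_le_one
      have h3 := mul_le_mul (hM y (ball_subset_closedBall hy)) (h y hy).1 (norm_nonneg _) M0
      have h4 : (M + 1) * (min η (1 / 2) / (M + 1)) = min η (1 / 2) := by field_simp
      linarith only [h2, h3, h4]
    · rw [mem_ball_zero_iff, not_lt] at hy
      have h1 : (fun y => χ y • (κ y - y)) =ᶠ[𝓝 y] fun _ => 0 := by
        filter_upwards [germ_far (r := 3 / 4) (y := y) (by linarith only [hy])] with z hz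
        rw [c3 z hz.le, zero_smul]
      rw [h1.fderiv_eq, fderiv_fun_const, Pi.zero_apply, norm_zero]
      exact m0.le
  obtain ⟨k, hk⟩ := dif_of_lip hg fun y => (hd y).trans (min_le_right _ _)
  refine ⟨k, fun y => ?_, fun y hy => ?_, fun y hy => ?_⟩
  · have h1 : HasFDerivAt (fun y => y + χ y • (κ y - y)) (ContinuousLinearMap.id ℝ V +
        fderiv ℝ (fun y => χ y • (κ y - y)) y) y :=
      (hasFDerivAt_id y).add (hg.differentiable (by simp) y).hasFDerivAt
    rw [funext hk, h1.fderiv, add_sub_cancel_left]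
    exact (hd y).trans (min_le_left _ _)
  · rw [hk, c2 y hy, one_smul, add_sub_cancel]
  · rw [hk, c3 y hy, zero_smul, add_zero]

theorem germ_prim {b : B2 V} (hs : Skew b) (k : Dif V)
    (h1 : ∀ y, ‖y‖ < 1 / 2 → pull2 k (fun _ => b) y = b) (h2 : ∀ y, 3 / 4 ≤ ‖y‖ → k y = y) :
    ∃ l : V → B1 V, ContDiff ℝ ∞ l ∧ (∀ y, b + dd l y = pull2 k (fun _ => b) y) ∧
      ∀ y, ‖y‖ < 1 / 8 ∨ 3 / 4 < ‖y‖ → l y = 0 := by
  obtain ⟨l0, e0⟩ : ∃ l0 : V → B1 V, l0 = fun z => (1 / 2 : ℝ) • b z := ⟨_, rfl⟩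
  have hl0 : ContDiff ℝ ∞ l0 := e0 ▸ b.contDiff.const_smul _
  have hd0 : dd l0 = fun _ => b := e0 ▸ funext (dd_half hs)
  have hp : ContDiff ℝ ∞ (pull1 k l0) := contDiffOn_univ.1
    (contDiffOn_pull1 isOpen_univ k.smooth.contDiffOn (mapsTo_univ _ _) hl0.contDiffOn)
  have hl1 : ContDiff ℝ ∞ fun z => pull1 k l0 z - l0 z := hp.sub hl0
  have hd1 : ∀ y, dd (fun z => pull1 k l0 z - l0 z) y = pull2 k (fun _ => b) y - b := fun y => by
    rw [dd_sub (hp.differentiable (by simp) y) (hl0.differentiable (by simp) y),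
      dd_pull1 k.smooth.contDiffAt (hl0.differentiable (by simp) _), hd0]
  obtain ⟨g, g1, g2⟩ := poin1 (c := (0 : V)) (r := 1 / 2) hl1.contDiffOn fun y hy => by
    rw [hd1, h1 y (mem_ball_zero_iff.1 hy), sub_self]
  obtain ⟨χ, c1, c2, c3, -⟩ := exists_ball_cut (0 : V) (r := 1 / 8) (R := 1 / 4) (by norm_num)
    (by norm_num)
  simp only [sub_zero] at c2 c3
  have hg : ContDiff ℝ ∞ fun y => χ y * g y :=
    contDiff_of_supp isOpen_ball isClosed_closedBall
      (closedBall_subset_ball (show (1 / 4 : ℝ) < 1 / 2 by norm_num))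
      (c1.contDiffOn.mul g1) fun y hy => by
        rw [mem_closedBall_zero_iff, not_le] at hy
        rw [c3 y hy.le, zero_mul]
  have hg' : ContDiff ℝ ∞ (fderiv ℝ fun y => χ y * g y) := hg.fderiv_right (by simp)
  refine ⟨fun z => pull1 k l0 z - l0 z - fderiv ℝ (fun y => χ y * g y) z, hl1.sub hg', fun y => ?_,
    fun y hy => ?_⟩
  · rw [dd_sub (hl1.differentiable (by simp) y) (hg'.differentiable (by simp) y), hd1,
      dd_fderiv hg.contDiffAt, sub_zero, add_sub_cancel]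
  · show pull1 k l0 y - l0 y - fderiv ℝ (fun y => χ y * g y) y = 0
    rcases hy with hy | hy
    · have h3 : (fun y => χ y * g y) =ᶠ[𝓝 y] g := by
        filter_upwards [germ_near hy] with z hz
        rw [c2 z hz.le, one_mul]
      rw [h3.fderiv_eq, g2 y (mem_ball_zero_iff.2 (by linarith only [hy])), sub_self]
    · have h3 : (fun y => χ y * g y) =ᶠ[𝓝 y] fun _ => 0 := by
        filter_upwards [germ_far hy] with z hz
        rw [c3 z (by linarith only [hz]), zero_mul]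
      have h4 : (k : V → V) =ᶠ[𝓝 y] id := by
        filter_upwards [germ_far hy] with z hz
        exact h2 z hz.le
      rw [h3.fderiv_eq, fderiv_fun_const, Pi.zero_apply, sub_zero, pull1, h4.fderiv_eq, fderiv_id,
        h2 y hy.le, ContinuousLinearMap.comp_id, sub_self]

theorem g0 {b : B2 V} (hs : Skew b) (hn : Nd b) : ∃ ε : ℝ, 0 < ε ∧ ∀ κ : V → V,
    ContDiffOn ℝ ∞ κ (ball 0 1) → (∀ y ∈ ball (0 : V) 1, pull2 κ (fun _ => b) y = b ∧
      ‖κ y - y‖ ≤ ε ∧ ‖fderiv ℝ κ y - ContinuousLinearMap.id ℝ V‖ ≤ ε) →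
    ∃ k : Dif V, SympC b 1 k ∧ ∀ᶠ y in 𝓝 (0 : V), k y = κ y := by
  obtain ⟨δ, C, hδ, hC, hsh⟩ := sharp_bound hn
  obtain ⟨η, hη, hpb⟩ := germ_pb b hδ
  obtain ⟨ε, hε, hcut⟩ := germ_cut (V := V) hη
  refine ⟨ε, hε, fun κ hκ h => ?_⟩
  obtain ⟨k, k1, k2, k3⟩ := hcut κ hκ fun y hy => (h y hy).2
  obtain ⟨l, l1, l2, l3⟩ := germ_prim hs k (fun y hy => by
    have h2 : (k : V → V) =ᶠ[𝓝 y] κ := by
      filter_upwards [germ_near hy] with z hz
      exact k2 z hz.le
    exact (pull2_congr h2 _).trans (h y (mem_ball_zero_iff.2 (by linarith only [hy]))).1) k3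
  have h1 : ∀ s ∈ Icc (0 : ℝ) 1, ∀ y, ‖b + s • dd l y - b‖ ≤ δ := fun s hs y => by
    have h2 := hpb _ (k1 y)
    rw [show pb (fderiv ℝ k y) b = b + dd l y from (l2 y).symm, add_sub_cancel_left] at h2
    rw [add_sub_cancel_left, norm_smul, Real.norm_of_nonneg hs.1]
    exact (mul_le_of_le_one_left (norm_nonneg _) hs.2).trans h2
  obtain ⟨χ, c1, c2, c3, c4⟩ := exists_ball_cut (0 : V) (r := 3 / 4) (R := 1) (by norm_num)
    (by norm_num)
  simp only [sub_zero] at c2 c3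
  obtain ⟨M, hM⟩ := (isCompact_closedBall (0 : V) 1).exists_bound_of_continuousOn
    l1.continuous.continuousOn
  have M0 : 0 ≤ M := (norm_nonneg _).trans (hM 0 (mem_closedBall_self zero_le_one))
  obtain ⟨φ, -, p2, p3⟩ := moser isOpen_univ (form_const hs univ) l1.contDiffOn
    (fun s hs y _ => (hsh _ (h1 s hs y)).1) c1 (isCompact_closedBall (0 : V) 1) (subset_univ _)
    (fun y hy => c3 y (by rw [mem_closedBall_zero_iff, not_le] at hy; exact hy.le)) c4
    (mul_nonneg hC.le M0) fun s hs y hy =>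
      ((hsh _ (h1 s hs y)).2 _).trans (mul_le_mul_of_nonneg_left (hM y hy) hC.le)
  refine ⟨φ.trans k, ⟨fun y => ?_, fun y hy => ?_⟩, ?_⟩
  · show pull2 (fun z => k (φ z)) (fun _ => b) y = b
    rw [pull2_comp (germ_diff φ y) (germ_diff k _), ← funext l2]
    refine p3 univ isOpen_univ subset_rfl (fun z _ => ?_) y (subset_univ _)
    rcases le_or_gt ‖z‖ (3 / 4) with hz | hz
    · rw [c2 z hz, one_smul]
    · rw [l3 z (Or.inr hz), smul_zero]
  · show k (φ y) = y
    rw [p2 y (Or.inr (l3 y (Or.inr (by linarith only [hy])))), k3 y (by linarith only [hy])]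
  · filter_upwards [germ_near (y := (0 : V)) (r := 1 / 8) (by simp)] with y hy
    show k (φ y) = κ y
    rw [p2 y (Or.inr (l3 y (Or.inl hy))), k2 y (by linarith only [hy])]

/-- A dilation. -/
def germ_dil (V : Type) [NormedAddCommGroup V] [NormedSpace ℝ V] {c c' : ℝ} (h : c' * c = 1) :
    Dif V where
  toFun y := c • y
  invFun y := c' • y
  left_inv y := by simp only [smul_smul, h, one_smul]
  right_inv y := by simp only [smul_smul, mul_comm c, h, one_smul]
  smooth := contDiff_const_smul c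
  smooth_inv := contDiff_const_smul c'

theorem germ_fd (f : V → V) {c c' : ℝ} (h : c' * c = 1) (y : V) :
    fderiv ℝ (fun z => c' • f (c • z)) y = fderiv ℝ f (c • y) := by
  have h1 := congrFun (fderiv_const_smul_field (𝕜 := ℝ) (f := fun z => f (c • z)) c') y
  rw [Pi.smul_apply, fderiv_comp_smul, smul_smul, h, one_smul] at h1
  exact h1

theorem g0r {b : B2 V} (hs : Skew b) (hn : Nd b) : ∃ ε : ℝ, 0 < ε ∧ ∀ (ρ : ℝ) (κ : V → V), 0 < ρ →
    ContDiffOn ℝ ∞ κ (ball 0 ρ) → (∀ y ∈ ball (0 : V) ρ, pull2 κ (fun _ => b) y = b ∧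
      ‖κ y - y‖ ≤ ε * ρ ∧ ‖fderiv ℝ κ y - ContinuousLinearMap.id ℝ V‖ ≤ ε) →
    ∃ k : Dif V, SympC b ρ k ∧ ∀ᶠ y in 𝓝 (0 : V), k y = κ y := by
  obtain ⟨ε, hε, H⟩ := g0 hs hn
  refine ⟨ε, hε, fun ρ κ hρ hκ h => ?_⟩
  have e1 : ρ⁻¹ * ρ = 1 := inv_mul_cancel₀ hρ.ne'
  have e2 : ρ * ρ⁻¹ = 1 := mul_inv_cancel₀ hρ.ne'
  have hm : ∀ y ∈ ball (0 : V) 1, ρ • y ∈ ball (0 : V) ρ := fun y hy => by
    rw [mem_ball_zero_iff] at hy ⊢
    rw [norm_smul, Real.norm_of_nonneg hρ.le]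
    exact mul_lt_of_lt_one_right hρ hy
  obtain ⟨k, k1, k2⟩ := H (fun z => ρ⁻¹ • κ (ρ • z))
    ((hκ.comp (contDiff_const_smul ρ).contDiffOn hm).const_smul ρ⁻¹) fun y hy => by
      obtain ⟨h1, h2, h3⟩ := h _ (hm y hy)
      refine ⟨?_, ?_, ?_⟩
      · rw [pull2, germ_fd κ e1]
        exact h1
      · have h4 : ρ⁻¹ • κ (ρ • y) - y = ρ⁻¹ • (κ (ρ • y) - ρ • y) := by
          rw [smul_sub, smul_smul, e1, one_smul]
        rw [h4, norm_smul, Real.norm_of_nonneg (inv_nonneg.2 hρ.le), inv_mul_le_iff₀ hρ, mul_comm]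
        exact h2
      · rwa [germ_fd κ e1]
  refine ⟨((germ_dil V e2).trans k).trans (germ_dil V e1), ⟨fun y => ?_, fun y hy => ?_⟩, ?_⟩
  · show pb (fderiv ℝ (fun z => ρ • k (ρ⁻¹ • z)) y) b = b
    rw [germ_fd k e2]
    exact k1.1 _
  · show ρ • k (ρ⁻¹ • y) = y
    rw [k1.2, smul_smul, e2, one_smul]
    rwa [norm_smul, Real.norm_of_nonneg (inv_nonneg.2 hρ.le), le_inv_mul_iff₀ hρ, mul_one]
  · have h1 : Tendsto (fun y : V => ρ⁻¹ • y) (𝓝 0) (𝓝 0) :=
      (continuous_const_smul ρ⁻¹).tendsto' 0 0 (smul_zero _)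
    filter_upwards [h1.eventually k2] with y hy
    show ρ • k (ρ⁻¹ • y) = κ y
    rw [hy, smul_smul, smul_smul, e2, one_smul, one_smul]

theorem g_trans {b : B2 V} (hs : Skew b) (hn : Nd b) : ∃ ε : ℝ, 0 < ε ∧ ∀ (ρ : ℝ) (v : V), 0 < ρ →
    ‖v‖ ≤ ε * ρ → ∃ k : Dif V, SympC b ρ k ∧ ∀ᶠ y in 𝓝 (0 : V), k y = y + v := by
  obtain ⟨ε, hε, H⟩ := g0r hs hn
  refine ⟨ε, hε, fun ρ v hρ hv => H ρ (fun y => y + v) hρ (contDiff_id.add contDiff_const).contDiffOn
    fun y _ => ?_⟩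
  have h1 : fderiv ℝ (fun y => y + v) y = ContinuousLinearMap.id ℝ V :=
    ((hasFDerivAt_id y).add_const v).fderiv
  refine ⟨?_, by rwa [add_sub_cancel_left], ?_⟩
  · rw [pull2, h1, pb_id]
  · rw [h1, sub_self, norm_zero]
    exact hε.le

theorem germ_comp {b : B2 V} {ρ : ℝ} {f g : V → V} (h0 : f 0 = 0)
    (hf : ∃ k : Dif V, SympC b ρ k ∧ ∀ᶠ y in 𝓝 (0 : V), k y = f y)
    (hg : ∃ k : Dif V, SympC b ρ k ∧ ∀ᶠ y in 𝓝 (0 : V), k y = g y) :
    ∃ k : Dif V, SympC b ρ k ∧ ∀ᶠ y in 𝓝 (0 : V), k y = g (f y) := by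
  obtain ⟨k, k1, k2⟩ := hf
  obtain ⟨k', k1', k2'⟩ := hg
  refine ⟨k.trans k', k1.trans k1', ?_⟩
  have h1 : Tendsto k (𝓝 0) (𝓝 0) := k.smooth.continuous.tendsto' 0 0 (k2.self_of_nhds.trans h0)
  filter_upwards [k2, h1.eventually k2'] with y e1 e2
  show k' (k y) = g (f y)
  rw [e2, e1]

theorem germ_id (b : B2 V) (ρ : ℝ) :
    ∃ k : Dif V, SympC b ρ k ∧ ∀ᶠ y in 𝓝 (0 : V), k y = y := by
  refine ⟨Dif.refl V, ⟨fun y => ?_, fun _ _ => rfl⟩, Eventually.of_forall fun _ => rfl⟩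
  show pb (fderiv ℝ id y) b = b
  rw [fderiv_id, pb_id]

theorem germ_tv {b : B2 V} (hs : Skew b) (hn : Nd b) {ρ : ℝ} (hρ : 0 < ρ) (c : ℝ) (v : V) :
    ∃ k : Dif V, SympC b ρ k ∧ ∀ᶠ y in 𝓝 (0 : V), k y = tv b c v y := by
  obtain ⟨ε, hε, H⟩ := g0r hs hn
  obtain ⟨N, hN⟩ := exists_nat_gt (|c| * ‖(b v).smulRight v‖ / ε)
  have N0 : (0 : ℝ) < N := lt_of_le_of_lt (by positivity) hN
  have h1 : ‖tv b (c / N) v - ContinuousLinearMap.id ℝ V‖ ≤ ε := by
    rw [tv, add_sub_cancel_left, norm_smul, Real.norm_eq_abs, abs_div, abs_of_pos N0,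
      div_mul_eq_mul_div, div_le_iff₀ N0]
    rw [div_lt_iff₀ hε] at hN
    linarith
  have h2 := H ρ (tv b (c / N) v) hρ (tv b (c / N) v).contDiff.contDiffOn fun y hy => by
    refine ⟨?_, ?_, ?_⟩
    · rw [pull2, ContinuousLinearMap.fderiv, pb_tv hs]
    · refine ((tv b (c / N) v - ContinuousLinearMap.id ℝ V).le_opNorm y).trans ?_
      exact mul_le_mul h1 (mem_ball_zero_iff.1 hy).le (norm_nonneg _) hε.le
    · rwa [ContinuousLinearMap.fderiv]
  have h3 : ∀ n : ℕ, ∃ k : Dif V, SympC b ρ k ∧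
      ∀ᶠ y in 𝓝 (0 : V), k y = tv b (n * (c / N)) v y := fun n => by
    induction n with
    | zero => simpa [tv_apply] using germ_id b ρ
    | succ n ih =>
      rw [Nat.cast_succ, add_mul, one_mul, tv_add hs]
      exact germ_comp (f := tv b (c / N) v) (g := tv b (n * (c / N)) v) (map_zero _) h2 ih
  have h4 := h3 N
  rwa [mul_div_cancel₀ c N0.ne'] at h4

theorem g_germ {b : B2 V} (hs : Skew b) (hn : Nd b) {κ : V → V} {U : Set V} (hU : IsOpen U)
    (h0 : (0 : V) ∈ U) (hκ : ContDiffOn ℝ ∞ κ U) (hκ0 : κ 0 = 0)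
    (hb : ∀ y ∈ U, pull2 κ (fun _ => b) y = b) {ρ : ℝ} (hρ : 0 < ρ) :
    ∃ k : Dif V, SympC b ρ k ∧ ∀ᶠ y in 𝓝 (0 : V), k y = κ y := by
  have hd : ∀ y ∈ U, DifferentiableAt ℝ κ y := fun y hy =>
    (hκ.differentiableOn (by simp)).differentiableAt (hU.mem_nhds hy)
  have hL : pb (fderiv ℝ κ 0) b = b := hb 0 h0
  have h1 := sp_ind hs hn
    (Q := fun L => ∃ k : Dif V, SympC b ρ k ∧ ∀ᶠ y in 𝓝 (0 : V), k y = L y) (germ_id b ρ)
    (fun c v L h => germ_comp (f := L) (g := tv b c v) (map_zero L) h (germ_tv hs hn hρ c v)) hL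
  obtain ⟨E, e1, e2⟩ : ∃ E : V →L[ℝ] V, (∀ y, fderiv ℝ κ 0 (E y) = y) ∧
      ∀ y, E (fderiv ℝ κ 0 y) = y := by
    let E := (LinearEquiv.ofInjectiveEndo (fderiv ℝ κ 0 : V →ₗ[ℝ] V)
      (inj_of_nd_pb (hL.symm ▸ hn))).toContinuousLinearEquiv
    exact ⟨E.symm, E.apply_symm_apply, E.symm_apply_apply⟩
  have hE : pb E b = b := by
    conv_lhs => rw [← hL, ← pb_comp]
    rw [show (fderiv ℝ κ 0).comp E = ContinuousLinearMap.id ℝ V from ContinuousLinearMap.ext e1,
      pb_id]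
  have hκ1 : ContDiffOn ℝ ∞ (fun y => E (κ y)) U := E.contDiff.comp_contDiffOn hκ
  have hd1 : ∀ y ∈ U, HasFDerivAt (fun y => E (κ y)) (E.comp (fderiv ℝ κ y)) y := fun y hy =>
    E.hasFDerivAt.comp y (hd y hy).hasFDerivAt
  obtain ⟨ε, hε, H⟩ := g0r hs hn
  have h2 : ∀ᶠ y in 𝓝 (0 : V),
      ‖fderiv ℝ (fun y => E (κ y)) y - ContinuousLinearMap.id ℝ V‖ ≤ ε := by
    have h3 := (hκ1.continuousOn_fderiv_of_isOpen hU (by simp)).continuousAt (hU.mem_nhds h0)
    filter_upwards [Metric.tendsto_nhds.1 h3 ε hε] with y hy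
    rw [dist_eq_norm, (hd1 0 h0).fderiv,
      show E.comp (fderiv ℝ κ 0) = ContinuousLinearMap.id ℝ V from ContinuousLinearMap.ext e2] at hy
    exact hy.le
  obtain ⟨r, r0, hr⟩ := Metric.eventually_nhds_iff_ball.1
    (h2.and ((show ∀ᶠ y in 𝓝 (0 : V), y ∈ U from hU.mem_nhds h0)))
  have hr' : ∀ y ∈ ball (0 : V) (min r ρ), _ := fun y hy =>
    hr y (ball_subset_ball (min_le_left r ρ) hy)
  obtain ⟨k, k1, k2⟩ := H (min r ρ) (fun y => E (κ y)) (lt_min r0 hρ)
    (hκ1.mono fun y hy => (hr' y hy).2) fun y hy => by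
      refine ⟨?_, ?_, (hr' y hy).1⟩
      · rw [pull2, (hd1 y (hr' y hy).2).fderiv, pb_comp, hE]
        exact hb y (hr' y hy).2
      · have h3 := (convex_ball (0 : V) (min r ρ)).norm_image_sub_le_of_norm_fderiv_le'
          (fun x hx => (hd1 x (hr' x hx).2).differentiableAt) (fun x hx => (hr' x hx).1)
          (mem_ball_self (lt_min r0 hρ)) hy
        simp only [hκ0, map_zero, sub_zero, ContinuousLinearMap.id_apply] at h3
        exact h3.trans (mul_le_mul_of_nonneg_left (mem_ball_zero_iff.1 hy).le hε.le)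
  have h4 := germ_comp (f := fun y => E (κ y)) (by rw [hκ0, map_zero])
    ⟨k, ⟨k1.1, fun y hy => k1.2 y ((min_le_right r ρ).trans hy)⟩, k2⟩ h1
  simpa only [e1] using h4

end Pool.Agent.Work.MP_bf98aa_gt.Ns
end
end

-- merged part: Pool.Agent.Work.MP_bf98aa_gt.Ns.Sym
section
/-!
Compactly supported symplectomorphisms act transitively on germs of Darboux charts.
Hints. sym_of_par: g z = e (c + k (e.inv z - c)) on e.target, z elsewhere; k maps the ball of radius rho to itself (it fixes the complement); smooth near e.target, the identity near points off the compact set e '' closedBall c rho.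
darboux_par: std_par, a small ball, darb with w0 = ws, par_dif, par_restr.
sym_germ: call (e,p) ~ (e',p') if the conclusion holds; equivalence relation by refl, symm, trans (use continuity to compose germs). Same point: g_germ for y -> e.inv (e' (p' + y)) - p. Nearby points of one Darboux chart: g_trans.
The set of z in W such that some Darboux germ at z is related to (e,p) is open, and so is its complement in W.
-/

set_option autoImplicit false
set_option maxSynthPendingDepth 3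
set_option linter.unusedSectionVars false
set_option linter.unusedVariables false

open Set Filter Topology Metric MeasureTheory
open scoped Manifold ContDiff

noncomputable section
namespace Pool.Agent.Work.MP_bf98aa_gt.Ns

open Pool.Agent.Work.MP_8c604c_gt

variable {V V' E : Type} [NormedAddCommGroup V] [NormedSpace ℝ V] [FiniteDimensional ℝ V]
  [NormedAddCommGroup V'] [NormedSpace ℝ V'] [FiniteDimensional ℝ V']
  [NormedAddCommGroup E] [NormedSpace ℝ E] [FiniteDimensional ℝ E] {M : Type} [TopologicalSpace M]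
  [ChartedSpace E M] [IsManifold 𝓘(ℝ, E) ∞ M] {m : ℕ}

theorem sym_mE_id (z : M) : mE E (fun x => x) z = ContinuousLinearMap.id ℝ E :=
  mfderiv_id (I := 𝓘(ℝ, E)) (x := z)

theorem sym_mE_comp {g g' : M → M} (hg : ContMDiff 𝓘(ℝ, E) 𝓘(ℝ, E) ∞ g)
    (hg' : ContMDiff 𝓘(ℝ, E) 𝓘(ℝ, E) ∞ g') (z : M) :
    mE E (fun x => g' (g x)) z = (mE E g' (g z)).comp (mE E g z) :=
  mfderiv_comp z (hg'.mdifferentiableAt (by simp)) (hg.mdifferentiableAt (by simp))

theorem sym_mD_comp {g : M → M} (hg : ContMDiff 𝓘(ℝ, E) 𝓘(ℝ, E) ∞ g) (e : Par V E M) {y : V}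
    (hy : y ∈ e.source) : mD E (fun x => g (e x)) y = (mE E g (e y)).comp (e.D y) :=
  mfderiv_comp y (hg.mdifferentiableAt (by simp))
    ((e.sm.contMDiffAt (e.open_source.mem_nhds hy)).mdifferentiableAt (by simp))

theorem sym_refl (w : M → B2 E) (W : Set M) : ∃ g : Sym w W, ∀ z, g.toFun z = z := by
  exact ⟨⟨Equiv.refl M, contMDiff_id, contMDiff_id,
    fun z => (congrArg (pb · (w z)) (sym_mE_id z)).trans (pb_id _),
    ∅, isCompact_empty, empty_subset _, fun _ _ => rfl⟩, fun _ => rfl⟩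

theorem sym_symm {w : M → B2 E} {W : Set M} (g : Sym w W) :
    ∃ g' : Sym w W, ∀ z, g'.toFun z = g.invFun z := by
  obtain ⟨K, k1, k2, k3⟩ := g.supp
  refine ⟨⟨g.toEquiv.symm, g.sm', g.sm, fun z => ?_, K, k1, k2, fun z hz => ?_⟩, fun _ => rfl⟩
  · show pb (mE E g.invFun z) (w (g.invFun z)) = w z
    rw [← g.pres (g.invFun z), ← pb_comp, ← sym_mE_comp g.sm' g.sm, g.right_inv z,
      show (fun x => g.toFun (g.invFun x)) = fun x => x from funext g.right_inv, sym_mE_id, pb_id]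
  · exact (congrArg g.invFun (k3 z hz).symm).trans (g.left_inv z)

theorem sym_trans {w : M → B2 E} {W : Set M} (g g' : Sym w W) :
    ∃ g'' : Sym w W, ∀ z, g''.toFun z = g'.toFun (g.toFun z) := by
  obtain ⟨K, k1, k2, k3⟩ := g.supp
  obtain ⟨K', k1', k2', k3'⟩ := g'.supp
  refine ⟨⟨g.toEquiv.trans g'.toEquiv, g'.sm.comp g.sm, g.sm'.comp g'.sm', fun z => ?_, K ∪ K',
    k1.union k1', union_subset k2 k2', fun z hz => ?_⟩, fun _ => rfl⟩
  · show pb (mE E (fun x => g'.toFun (g.toFun x)) z) (w (g'.toFun (g.toFun z))) = w z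
    rw [sym_mE_comp g.sm g'.sm, pb_comp, g'.pres, g.pres]
  · show g'.toFun (g.toFun z) = z
    rw [k3 z fun h => hz (.inl h), k3' z fun h => hz (.inr h)]

theorem Sym.maps {w : M → B2 E} {W : Set M} (g : Sym w W) (z : M) : g.toFun z ∈ W ↔ z ∈ W := by
  obtain ⟨K, -, k2, k3⟩ := g.supp
  by_cases h : z ∈ K
  · refine iff_of_true (k2 (by_contra fun n => n ?_)) (k2 h)
    rwa [show g.toFun z = z from g.toEquiv.injective (k3 _ n)]
  · rw [k3 z h]

theorem par_sym {w : M → B2 E} {W : Set M} (g : Sym w W) (e : Par V E M) :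
    ∃ e' : Par V E M, e'.source = e.source ∧ (∀ y, e' y = g.toFun (e y)) ∧
      ∀ y ∈ e.source, loc2 e' w y = loc2 e w y := by
  refine ⟨⟨e.toOpenPartialHomeomorph.transHomeomorph
    ⟨g.toEquiv, g.sm.continuous, g.sm'.continuous⟩, g.sm.comp_contMDiffOn e.sm,
    e.sm'.comp g.sm'.contMDiffOn fun _ h => h⟩, rfl, fun _ => rfl, fun y hy => ?_⟩
  show pb (mD E (fun x => g.toFun (e x)) y) (w (g.toFun (e y))) = _
  rw [sym_mD_comp g.sm e hy, pb_comp, g.pres]
  rfl

theorem sym_loc [T2Space M] (e : Par V E M) {ρ : ℝ} (k : Dif V) (hk : ∀ y, ρ ≤ ‖y‖ → k y = y)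
    {c : V} (hc : closedBall c ρ ⊆ e.source) : ∃ G : M → M, ContMDiff 𝓘(ℝ, E) 𝓘(ℝ, E) ∞ G ∧
      (∀ y ∈ e.source, c + k (y - c) ∈ e.source ∧ G (e y) = e (c + k (y - c))) ∧
      ∀ z, z ∉ e '' closedBall c ρ → G z = z := by
  classical
  have h1 : ∀ y ∈ e.source, c + k (y - c) ∈ e.source := fun y hy => by
    by_cases h : ρ ≤ ‖k (y - c)‖
    · rwa [show k (y - c) = y - c from k.toEquiv.injective (hk _ h), add_sub_cancel]
    · exact hc (by simpa using (not_le.1 h).le)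
  obtain ⟨G, hG⟩ : ∃ G : M → M, ∀ z, G z = if z ∈ e.target then e (c + k (e.inv z - c)) else z :=
    ⟨_, fun _ => rfl⟩
  have h2 : ∀ z, z ∉ e '' closedBall c ρ → G z = z := fun z hz => by
    rw [hG]
    split_ifs with h
    · rw [hk _ (not_lt.1 fun m => hz ⟨_, mem_closedBall_iff_norm.2 m.le, e.apply_inv h⟩),
        add_sub_cancel, e.apply_inv h]
    · rfl
  refine ⟨G, fun z => ?_, fun y hy => ⟨h1 y hy, by
    rw [hG, if_pos (e.map_src hy), e.inv_apply hy]⟩, h2⟩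
  by_cases h : z ∈ e.target
  · have s : ContMDiff 𝓘(ℝ, V) 𝓘(ℝ, V) ∞ fun y => c + k (y - c) :=
      (contDiff_const.add (k.smooth.comp (contDiff_id.sub contDiff_const))).contMDiff
    have := (e.sm.comp (s.comp_contMDiffOn e.sm') fun x hx => h1 _ (e.map_tgt hx)).contMDiffAt
      (e.open_target.mem_nhds h)
    exact this.congr_of_eventuallyEq (eventually_of_mem (e.open_target.mem_nhds h) fun x hx =>
      (hG x).trans (if_pos hx))
  · refine contMDiffAt_id.congr_of_eventuallyEq (eventually_of_mem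
      ((e.isCompact_image (isCompact_closedBall c ρ) hc).isClosed.isOpen_compl.mem_nhds ?_) h2)
    rintro ⟨y, hy, rfl⟩
    exact h (e.map_src (hc hy))

theorem sym_of_par [T2Space M] {w : M → B2 E} {W : Set M} (e : Par V E M) {b : B2 V}
    (he : ∀ y ∈ e.source, loc2 e w y = b) {ρ : ℝ} {k : Dif V} (hk : SympC b ρ k) {c : V}
    (hc : closedBall c ρ ⊆ e.source) (hW : e '' closedBall c ρ ⊆ W) :
    ∃ g : Sym w W, ∀ y ∈ e.source, g.toFun (e y) = e (c + k (y - c)) := by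
  have hK := e.isCompact_image (isCompact_closedBall c ρ) hc
  obtain ⟨G, g1, g2, g3⟩ := sym_loc e k hk.2 hc
  obtain ⟨G', g1', g2', g3'⟩ := sym_loc e k.symm
    (fun y hy => (congrArg k.invFun (hk.2 y hy).symm).trans (k.left_inv y)) hc
  have n : ∀ z, z ∉ e.target → z ∉ e '' closedBall c ρ := by
    rintro z h ⟨y, hy, rfl⟩
    exact h (e.map_src (hc hy))
  have o : ∀ z ∈ e.target, ∃ y ∈ e.source, e y = z := fun z h => ⟨_, e.map_tgt h, e.apply_inv h⟩
  refine ⟨⟨⟨G, G', fun z => ?_, fun z => ?_⟩, g1, g1', fun z => ?_, _, hK, hW, g3⟩,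
    fun y hy => (g2 y hy).2⟩
  · by_cases h : z ∈ e.target
    · obtain ⟨y, hy, rfl⟩ := o z h
      rw [(g2 y hy).2, (g2' _ (g2 y hy).1).2, add_sub_cancel_left,
        show k.symm (k (y - c)) = y - c from k.left_inv _, add_sub_cancel]
    · rw [g3 z (n z h), g3' z (n z h)]
  · by_cases h : z ∈ e.target
    · obtain ⟨y, hy, rfl⟩ := o z h
      rw [(g2' y hy).2, (g2 _ (g2' y hy).1).2, add_sub_cancel_left,
        show k (k.symm (y - c)) = y - c from k.right_inv _, add_sub_cancel]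
    · rw [g3' z (n z h), g3 z (n z h)]
  show pb (mE E G z) (w (G z)) = w z
  by_cases h : z ∈ e.target
  · obtain ⟨y, hy, rfl⟩ := o z h
    refine eq_of_loc2 e hy ?_
    have d : DifferentiableAt ℝ (fun x => c + k (x - c)) y :=
      ((germ_diff k _).comp y (differentiableAt_id.sub_const c)).const_add c
    rw [← pb_comp, ← sym_mD_comp g1 e hy, D_comp e (eventually_of_mem (e.open_source.mem_nhds hy)
      fun x hx => (g2 x hx).2) d (g2 y hy).1, pb_comp, (g2 y hy).2, fderiv_const_add,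
      fderiv_comp_sub]
    exact ((congrArg (pb _) (he _ (g2 y hy).1)).trans (hk.1 _)).trans (he y hy).symm
  · have e1 : G =ᶠ[𝓝 z] fun x => x :=
      eventually_of_mem (hK.isClosed.isOpen_compl.mem_nhds (n z h)) g3
    rw [show mE E G z = mE E (fun x => x) z from e1.mfderiv_eq, sym_mE_id, pb_id, g3 z (n z h)]

theorem darboux_par (hE : Module.finrank ℝ E = 2 * m + 2) {w : M → B2 E} (hw : Cl2 w) {z : M}
    (hn : Nd (w z)) : ∃ e : Par (VV m) E M, ∃ p ∈ e.source, e p = z ∧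
      ∀ y ∈ e.source, loc2 e w y = ws m := by
  obtain ⟨e, e0, rfl, e2⟩ := std_par hE z (hw.skew z) hn
  obtain ⟨δ, hδ, H⟩ := darb (skew_ws (m := m)) nd_ws one_pos
  have c := (hw.loc e).smooth.continuousOn.continuousAt (e.open_source.mem_nhds e0)
  have c1 : ∀ᶠ y in 𝓝 0, loc2 e w y ∈ closedBall (ws m) δ :=
    c (by rw [show loc2 e w 0 = ws m from e2]; exact closedBall_mem_nhds _ hδ)
  obtain ⟨r, hr, h⟩ := Metric.mem_nhds_iff.1 (c1.and (e.open_source.mem_nhds e0))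
  obtain ⟨R, rfl⟩ : ∃ R, r = 3 * R := ⟨r / 3, by ring⟩
  obtain ⟨φ, p1, p2⟩ := H R (by linarith only [hr]) _ ((hw.loc e).mono fun y hy => (h hy).2)
    fun y hy => mem_closedBall_iff_norm.1 (h hy).1
  obtain ⟨e1, s1, f1⟩ := par_dif e φ
  obtain ⟨e', s2, f2⟩ := par_restr e1 (isOpen_ball (x := 0) (ε := 2 * R))
  have q : φ (φ.symm 0) = 0 := φ.right_inv 0
  refine ⟨e', φ.symm 0, ?_, by rw [f2, f1, q], fun y hy => ?_⟩
  · have := p1 (φ.symm 0)
    rw [q, zero_sub, norm_neg] at this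
    rw [s2, s1]
    exact ⟨by rwa [mem_preimage, q], mem_ball_zero_iff.2 (by linarith only [hr, this])⟩
  · rw [s2, s1] at hy
    rw [loc2_comp e' e (.of_forall fun x => (f2 x).trans (f1 x)) (germ_diff φ y) hy.1]
    exact (p2 y (mem_ball_zero_iff.1 hy.2).le).2

theorem sym_shrink {w : M → B2 E} {W : Set M} (hW : IsOpen W) (e : Par V E M) {b : B2 V} {p : V}
    (hp : p ∈ e.source) (hpW : e p ∈ W) (h : ∀ᶠ y in 𝓝 p, loc2 e w y = b) :
    ∃ (e1 : Par V E M) (ρ : ℝ), 0 < ρ ∧ (∀ y, e1 y = e y) ∧ closedBall p ρ ⊆ e1.source ∧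
      (∀ y ∈ e1.source, loc2 e1 w y = b) ∧ e1 '' closedBall p ρ ⊆ W := by
  have c := e.cont.continuousAt (e.open_source.mem_nhds hp)
  obtain ⟨O, o1, o2, o3⟩ := _root_.eventually_nhds_iff.1 (h.and (c (hW.mem_nhds hpW)))
  obtain ⟨e1, s1, f1⟩ := par_restr e o2
  obtain ⟨ρ, hρ, k⟩ := nhds_basis_closedBall.mem_iff.1
    (e1.open_source.mem_nhds (s1 ▸ ⟨hp, o3⟩ : p ∈ e1.source))
  refine ⟨e1, ρ, hρ, f1, k, fun y hy => ?_, ?_⟩
  · rw [s1] at hy
    rw [← (o1 y hy.2).1, loc2, loc2, Par.D, Par.D, show (e1 : V → M) = e from funext f1]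
  · rintro _ ⟨y, hy, rfl⟩
    rw [f1]
    exact (o1 y (s1 ▸ k hy :).2).2

theorem sym_push [T2Space M] {w : M → B2 E} {W : Set M} (e : Par V E M) {b : B2 V}
    (he : ∀ y ∈ e.source, loc2 e w y = b) {ρ : ℝ} (hρ : 0 < ρ) {k : Dif V} (hk : SympC b ρ k)
    {c : V} (hc : closedBall c ρ ⊆ e.source) (hW : e '' closedBall c ρ ⊆ W) :
    ∃ g : Sym w W, ∀ᶠ y in 𝓝 (0 : V), g.toFun (e (c + y)) = e (c + k y) := by
  obtain ⟨g, hg⟩ := sym_of_par e he hk hc hW
  refine ⟨g, ?_⟩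
  filter_upwards [closedBall_mem_nhds 0 hρ] with y hy
  rw [hg _ (hc (by simpa using hy)), add_sub_cancel_left]

theorem sym_same [T2Space M] {w : M → B2 E} {W : Set M} (hW : IsOpen W) (e e' : Par V E M)
    {b : B2 V} (hs : Skew b) (hn : Nd b) {p p' : V} (hp : p ∈ e.source) (hp' : p' ∈ e'.source)
    (hpW : e p ∈ W) (q : e' p' = e p) (h : ∀ᶠ y in 𝓝 p, loc2 e w y = b)
    (h' : ∀ᶠ y in 𝓝 p', loc2 e' w y = b) :
    ∃ g : Sym w W, ∀ᶠ y in 𝓝 (0 : V), g.toFun (e (p + y)) = e' (p' + y) := by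
  obtain ⟨e1, ρ, hρ, f1, s1, l1, m1⟩ := sym_shrink hW e hp hpW h
  have hp1 := s1 (mem_closedBall_self hρ.le)
  have q1 : e' p' = e1 p := q.trans (f1 p).symm
  obtain ⟨O, o1, o2, o3⟩ := _root_.eventually_nhds_iff.1
    (h'.and ((isOpen_tr e' e1).mem_nhds ⟨hp', mem_preimage.2 (q1 ▸ e1.map_src hp1)⟩))
  have u1 : IsOpen ((p' + ·) ⁻¹' O) := o2.preimage (continuous_const_add p')
  have u2 : (0 : V) ∈ (p' + ·) ⁻¹' O := by simpa using o3
  obtain ⟨k, k1, k2⟩ := g_germ hs hn (κ := fun y => e1.inv (e' (p' + y)) - p) u1 u2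
    (((contDiffOn_tr e' e1).comp (s := (p' + ·) ⁻¹' O) (f := (p' + ·)) (by fun_prop)
      fun y hy => (o1 (p' + y) hy).2).sub contDiffOn_const)
    (by rw [add_zero, q1, e1.inv_apply hp1, sub_self]) (fun y hy => by
      have := loc2_tr e' e1 (o1 _ hy).2.1 (o1 _ hy).2.2 w
      rw [(o1 _ hy).1, pull2, l1 _ (e1.map_tgt (o1 _ hy).2.2)] at this
      rw [pull2, fderiv_sub_const, fderiv_comp_add_left (f := fun z => e1.inv (e' z)), ← this]) hρ
  obtain ⟨g, hg⟩ := sym_push e1 l1 hρ k1 s1 m1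
  refine ⟨g, ?_⟩
  filter_upwards [hg, k2, u1.mem_nhds u2] with y a1 a2 a3
  rw [← f1, a1, a2, add_sub_cancel, e1.apply_inv (o1 _ a3).2.2]

theorem sym_near [T2Space M] {w : M → B2 E} {W : Set M} (hW : IsOpen W) (e : Par V E M)
    {b : B2 V} (hs : Skew b) (hn : Nd b) {p : V} (hp : p ∈ e.source) (hpW : e p ∈ W)
    (h : ∀ᶠ y in 𝓝 p, loc2 e w y = b) : ∀ᶠ q in 𝓝 p,
      ∃ g : Sym w W, ∀ᶠ y in 𝓝 (0 : V), g.toFun (e (p + y)) = e (q + y) := by
  obtain ⟨e1, ρ, hρ, f1, s1, l1, m1⟩ := sym_shrink hW e hp hpW h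
  obtain ⟨ε, hε, H⟩ := g_trans hs hn
  filter_upwards [closedBall_mem_nhds p (mul_pos hε hρ)] with q hq
  obtain ⟨k, k1, k2⟩ := H ρ (q - p) hρ (mem_closedBall_iff_norm.1 hq)
  obtain ⟨g, hg⟩ := sym_push e1 l1 hρ k1 s1 m1
  refine ⟨g, ?_⟩
  filter_upwards [hg, k2] with y a1 a2
  rw [← f1, a1, a2, f1, show p + (y + (q - p)) = q + y by abel]

theorem sym_rel {w : M → B2 E} {W : Set M} {f f' f'' : V → M}
    (h : ∃ g : Sym w W, ∀ᶠ y in 𝓝 (0 : V), g.toFun (f y) = f' y)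
    (h' : ∃ g : Sym w W, ∀ᶠ y in 𝓝 (0 : V), g.toFun (f' y) = f'' y) :
    ∃ g : Sym w W, ∀ᶠ y in 𝓝 (0 : V), g.toFun (f y) = f'' y := by
  obtain ⟨g, hg⟩ := h
  obtain ⟨g', hg'⟩ := h'
  obtain ⟨u, hu⟩ := sym_trans g g'
  exact ⟨u, (hg.and hg').mono fun y hy => by rw [hu, hy.1, hy.2]⟩

theorem sym_germ [T2Space M] (hE : Module.finrank ℝ E = 2 * m + 2) {w : M → B2 E} (hw : Cl2 w)
    {W : Set M} (hW : IsOpen W) (hc : IsPreconnected W) (hn : ∀ z ∈ W, Nd (w z))
    (e e' : Par (VV m) E M) {p p' : VV m} (hp : p ∈ e.source) (hp' : p' ∈ e'.source)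
    (hpW : e p ∈ W) (hpW' : e' p' ∈ W) (h : ∀ᶠ y in 𝓝 p, loc2 e w y = ws m)
    (h' : ∀ᶠ y in 𝓝 p', loc2 e' w y = ws m) :
    ∃ g : Sym w W, ∀ᶠ y in 𝓝 (0 : VV m), g.toFun (e (p + y)) = e' (p' + y) := by
  have D : ∀ z ∈ W, ∃ e : Par (VV m) E M, ∃ p ∈ e.source, e p = z ∧
      ∀ q ∈ e.source, ∀ᶠ y in 𝓝 q, loc2 e w y = ws m := fun z hz => by
    obtain ⟨e, p, h1, h2, h3⟩ := darboux_par hE hw (hn z hz)
    exact ⟨e, p, h1, h2, fun q hq => eventually_of_mem (e.open_source.mem_nhds hq) h3⟩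
  refine hc.induction₂ (fun z z' => ∀ (e e' : Par (VV m) E M) (p p' : VV m), p ∈ e.source →
    p' ∈ e'.source → e p = z → e' p' = z' → (∀ᶠ y in 𝓝 p, loc2 e w y = ws m) →
    (∀ᶠ y in 𝓝 p', loc2 e' w y = ws m) →
    ∃ g : Sym w W, ∀ᶠ y in 𝓝 (0 : VV m), g.toFun (e (p + y)) = e' (p' + y)) (fun x hx => ?_)
    (fun x y z _ hy _ a1 a2 e e' p p' b1 b2 b3 b4 b5 b6 => ?_)
    (fun x y _ _ a1 e e' p p' b1 b2 b3 b4 b5 b6 => ?_) hpW hpW' e e' p p' hp hp' rfl rfl h h'
  · obtain ⟨u, r, r1, rfl, r2⟩ := D x hx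
    have t := u.open_target.mem_nhds (u.map_src r1)
    have c : Tendsto u.inv (𝓝 (u r)) (𝓝 r) := by
      have := (u.sm'.continuousOn.continuousAt t).tendsto
      rwa [show u.invFun (u r) = r from u.inv_apply r1] at this
    filter_upwards [nhdsWithin_le_nhds (c (sym_near hW u skew_ws nd_ws r1 hx (r2 r r1))),
      nhdsWithin_le_nhds t, self_mem_nhdsWithin] with z z1 z2 z3 e e' p p' b1 b2 b3 b4 b5 b6
    have z4 := u.apply_inv z2
    exact sym_rel (sym_rel (sym_same hW e u skew_ws nd_ws b1 r1 (b3 ▸ hx) b3.symm b5 (r2 r r1)) z1)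
      (sym_same hW u e' skew_ws nd_ws (u.map_tgt z2) b2 (z4.symm ▸ z3) (b4.trans z4.symm)
        (r2 _ (u.map_tgt z2)) b6)
  · obtain ⟨u, r, r1, r3, r2⟩ := D y hy
    exact sym_rel (a1 e u p r b1 r1 b3 r3 b5 (r2 r r1)) (a2 u e' r p' r1 b2 r3 b4 (r2 r r1) b6)
  · obtain ⟨g, hg⟩ := a1 e' e p' p b2 b1 b4 b3 b6 b5
    obtain ⟨u, hu⟩ := sym_symm g
    exact ⟨u, hg.mono fun y hy => by rw [hu, ← hy, g.left_inv]⟩

end Pool.Agent.Work.MP_bf98aa_gt.Ns
end
end
end

-- merged part: Pool.Agent.Work.MP_bf98aa_gt.Ns.Tube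
section
/-!
The tube lemma (step 4).
Plan. W = O minus the two cells. Choose b > 0 so small that the closed balls of radius 2b around 0 lie in the sources, are mapped into O and away from the other cell, and loc2 = ws there. sym_germ gives g with g (eA (-b es + y)) = eB (b es + y) for norm y < k0 (k0 < b).
par_sym gives eA' = g o eA; g = id near both cells (compact support in W). The set of lateral projections of eB.inv of the arc eA' (0,0,s), s in [-b + k0/2, 0], has empty interior (dimH of a locally Lipschitz image of a subset of R is <= 1 < 2m+1: dimH_image_le_of_locally_lipschitzOn, dense_compl_of_dimH_lt_finrank); pick a small lateral zeta outside.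
kink: k (x,t,s) = (x + c s zeta.x, t + c s zeta.t - c' s wD zeta.x x, s) with c = 1 - step. F y = eA' (y - b es) for s >= 0, eB (k (y + b es)) for s < 0; both formulas agree near 0. F is injective on the compact set I0 = A box, axis, B box, locally a parametrisation, hence injective on an open neighbourhood (Set.InjOn.exists_isOpen_superset); par_of_inj; eta by compactness of the axis.
-/

set_option autoImplicit false
set_option maxSynthPendingDepth 3
set_option linter.unusedSectionVars false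
set_option linter.unusedVariables false

open Set Filter Topology Metric MeasureTheory
open scoped Manifold ContDiff

noncomputable section
namespace Pool.Agent.Work.MP_bf98aa_gt.Ns

open Pool.Agent.Work.MP_8c604c_gt

variable {V V' E : Type} [NormedAddCommGroup V] [NormedSpace ℝ V] [FiniteDimensional ℝ V]
  [NormedAddCommGroup V'] [NormedSpace ℝ V'] [FiniteDimensional ℝ V']
  [NormedAddCommGroup E] [NormedSpace ℝ E] [FiniteDimensional ℝ E] {M : Type} [TopologicalSpace M]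
  [ChartedSpace E M] [IsManifold 𝓘(ℝ, E) ∞ M] {m : ℕ}

/-- The kink map. -/
def tube_k (c : ℝ → ℝ) (ζ y : VV m) : VV m :=
  y + c y.2.2 • ζ - (deriv c y.2.2 * wD m ζ.1 y.1) • et m

theorem tube_k2 (c : ℝ → ℝ) {ζ : VV m} (hζ : ζ.2.2 = 0) (y : VV m) :
    (tube_k c ζ y).2.2 = y.2.2 := by
  simp [tube_k, et, hζ]

theorem tube_k1 (c : ℝ → ℝ) (ζ y : VV m) : (tube_k c ζ y).1 = y.1 + c y.2.2 • ζ.1 := by
  simp [tube_k, et]

theorem tube_kk (c : ℝ → ℝ) {ζ : VV m} (hζ : ζ.2.2 = 0) (y : VV m) :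
    tube_k c (-ζ) (tube_k c ζ y) = y := by
  rw [tube_k, tube_k2 c hζ, tube_k1, tube_k]
  simp only [Prod.fst_neg, map_neg, map_add, map_smul, _root_.neg_apply, skew_wD.self, smul_eq_mul]
  module

theorem tube_ksm {c : ℝ → ℝ} (hc : ContDiff ℝ ∞ c) (ζ : VV m) : ContDiff ℝ ∞ (tube_k c ζ) :=
  (contDiff_id.add ((hc.comp (ds m).contDiff).smul contDiff_const)).sub
    ((((contDiff_infty_iff_deriv.1 hc).2.comp (ds m).contDiff).mul
      ((wD m ζ.1).comp (dx m)).contDiff).smul contDiff_const)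

theorem tube_kpb {c : ℝ → ℝ} (hc : ContDiff ℝ ∞ c) {ζ : VV m} (hζ : ζ.2.2 = 0) (y : VV m) :
    pb (fderiv ℝ (tube_k c ζ) y) (ws m) = ws m := by
  obtain ⟨h1, h2⟩ := contDiff_infty_iff_deriv.1 hc
  have d1 := (h1 y.2.2).hasDerivAt.comp_hasFDerivAt y (ds m).hasFDerivAt
  have d2 := ((contDiff_infty_iff_deriv.1 h2).1 y.2.2).hasDerivAt.comp_hasFDerivAt y
    (ds m).hasFDerivAt
  have d3 := ((hasFDerivAt_id y).add (d1.smul_const ζ)).sub
    ((d2.mul ((wD m ζ.1).comp (dx m)).hasFDerivAt).smul_const (et m))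
  rw [show fderiv ℝ (tube_k c ζ) y = _ from d3.fderiv]
  refine b2_ext fun u v => ?_
  simp only [pb_apply, ws_apply, _root_.add_apply, _root_.sub_apply, _root_.smul_apply,
    ContinuousLinearMap.smulRight_apply, ContinuousLinearMap.id_apply,
    ContinuousLinearMap.comp_apply, ds_apply, dx_apply, et, Prod.fst_add, Prod.fst_sub,
    Prod.snd_add, Prod.snd_sub, Prod.smul_fst, Prod.smul_snd, smul_zero, sub_zero, hζ, map_add,
    map_smul, smul_eq_mul, skew_wD.self, Function.comp_apply, skew_wD u.1 ζ.1]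
  ring

/-- An explicit symplectic kink. -/
theorem kink {a b : ℝ} (hab : a < b) {ζ : VV m} (hζ : ζ.2.2 = 0) : ∃ k : Dif (VV m),
    (∀ y, pull2 k (fun _ => ws m) y = ws m) ∧ (∀ y, (k y).2.2 = y.2.2) ∧
    (∀ y : VV m, y.2.2 ≤ a → k y = y + ζ) ∧ (∀ y : VV m, b ≤ y.2.2 → k y = y) ∧
    ∀ s : ℝ, lat (k (s • es m)) ≤ ‖ζ‖ := by
  obtain ⟨S, hS, S0, S1, h1, -⟩ := exists_step hab
  have hc : ContDiff ℝ ∞ fun x => 1 - S x := contDiff_const.sub hS
  refine ⟨⟨⟨tube_k (fun x => 1 - S x) ζ, tube_k (fun x => 1 - S x) (-ζ), tube_kk _ hζ, fun y => ?_⟩,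
    tube_ksm hc _, tube_ksm hc _⟩, tube_kpb hc hζ, tube_k2 _ hζ, fun y hy => ?_, fun y hy => ?_,
    fun s => ?_⟩
  · have := tube_kk (fun x => 1 - S x) (ζ := -ζ) (by simp [hζ]) y
    rwa [neg_neg] at this
  · have : IsLocalMax (fun x => 1 - S x) y.2.2 := Eventually.of_forall fun x => by
      simp only [S0 _ hy]; linarith [(h1 x).1]
    show tube_k (fun x => 1 - S x) ζ y = _
    rw [tube_k, this.deriv_eq_zero, S0 _ hy, zero_mul, zero_smul, sub_zero, sub_zero, one_smul]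
  · have : IsLocalMin (fun x => 1 - S x) y.2.2 := Eventually.of_forall fun x => by
      simp only [S1 _ hy]; linarith [(h1 x).2]
    show tube_k (fun x => 1 - S x) ζ y = _
    rw [tube_k, this.deriv_eq_zero, S1 _ hy, zero_mul, zero_smul, sub_zero, sub_self, zero_smul,
      add_zero]
  · show lat (tube_k (fun x => 1 - S x) ζ (s • es m)) ≤ _
    have e : (s • es m).1 = 0 := smul_zero _
    rw [tube_k, e, map_zero, mul_zero, zero_smul, sub_zero, add_comm, lat_add_es]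
    refine ((le_max_left _ _).trans (norm_VV _).ge).trans ?_
    rw [norm_smul, Real.norm_of_nonneg (sub_nonneg.2 (h1 _).2)]
    exact mul_le_of_le_one_left (norm_nonneg _) (sub_le_self _ (h1 _).1)

theorem tube_glue [T2Space M] {F : V → M} {I : Set V} (hI : IsCompact I) (hi : InjOn F I)
    (h : ∀ y ∈ I, ∃ e : Par V E M, y ∈ e.source ∧ F =ᶠ[𝓝 y] e) :
    ∃ Φ : Par V E M, I ⊆ Φ.source ∧ ∀ y, Φ y = F y := by
  obtain ⟨t, ht, hIt, hit⟩ := hi.exists_isOpen_superset hI (fun y hy => by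
      obtain ⟨e, h1, h2⟩ := h y hy
      exact (e.cont.continuousAt (e.open_source.mem_nhds h1)).congr h2.symm) fun y hy => by
    obtain ⟨e, h1, h2⟩ := h y hy
    exact ⟨_, inter_mem (e.open_source.mem_nhds h1) h2, fun a ha b hb hab =>
      e.inj ha.1 hb.1 (ha.2.symm.trans (hab.trans hb.2))⟩
  have hU : IsOpen {y | ∃ e : Par V E M, y ∈ e.source ∧ F =ᶠ[𝓝 y] e} :=
    isOpen_iff_mem_nhds.2 fun y ⟨e, h1, h2⟩ => by
      filter_upwards [e.open_source.mem_nhds h1, h2.eventuallyEq_nhds] with z z1 z2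
      exact ⟨e, z1, z2⟩
  obtain ⟨Φ, h1, h2⟩ := par_of_inj (E := E) (ht.inter hU) (fun y ⟨_, e, h1, h2⟩ =>
      ((e.sm.contMDiffAt (e.open_source.mem_nhds h1)).congr_of_eventuallyEq h2).contMDiffWithinAt)
    (hit.mono inter_subset_left) fun y ⟨_, e, h1, h2⟩ => by
      rw [show mD E F y = e.D y from h2.mfderiv_eq]
      exact e.D_bij h1
  exact ⟨Φ, h1 ▸ fun y hy => ⟨hIt hy, h y hy⟩, h2⟩

theorem tube_avoid (hm : 1 ≤ m) (e e' : Par (VV m) E M) {δ : ℝ} (hδ : 0 < δ) :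
    ∃ ζ : VV m, ζ.2.2 = 0 ∧ ‖ζ‖ < δ ∧ ∀ s t : ℝ, s • es m ∈ e.source →
      ζ + t • es m ∈ e'.source → e (s • es m) ≠ e' (ζ + t • es m) := by
  have hl : ContDiff ℝ ∞ fun s : ℝ => s • es m := contDiff_id.smul contDiff_const
  have h1 : dimH ((fun s : ℝ => lin_pr m (e'.inv (e (s • es m)))) ''
      {s | s • es m ∈ e.source ∩ e ⁻¹' e'.target}) ≤ 1 :=
    (dimH_image_le_of_locally_lipschitzOn fun s hs => by
      obtain ⟨C, t, h1, h2⟩ := (((lin_pr m).contDiff.contDiffAt.comp s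
        (((contDiffOn_tr e e').contDiffAt ((isOpen_tr e e').mem_nhds hs)).comp s
          hl.contDiffAt)).of_le (show (1 : WithTop ℕ∞) ≤ ∞ by simp)).exists_lipschitzOnWith
      exact ⟨C, t, mem_nhdsWithin_of_mem_nhds h1, h2⟩).trans
      ((dimH_mono (subset_univ _)).trans Real.dimH_univ.le)
  obtain ⟨z, z1, z2⟩ := (dense_compl_of_dimH_lt_finrank (h1.trans_lt (by
    rw [Module.finrank_prod, finrank_XX, Module.finrank_self]
    exact_mod_cast by omega))).inter_open_nonempty _ isOpen_ball ⟨0, mem_ball_self hδ⟩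
  refine ⟨(z.1, z.2, 0), rfl, ?_, fun s t hs ht h => z2 ⟨s, ⟨hs, ?_⟩, ?_⟩⟩
  · rw [norm_VV, abs_zero]
    exact max_lt (mem_ball_zero_iff.1 z1) hδ
  · show e (s • es m) ∈ e'.target
    rw [h]
    exact e'.map_src ht
  · show lin_pr m (e'.inv (e (s • es m))) = z
    rw [h, e'.inv_apply ht]
    exact Prod.ext (show z.1 + t • 0 = _ by simp) (show z.2 + t * 0 = _ by simp)

theorem tube_ev {w : M → B2 E} (Φ e : Par (VV m) E M) (φ : Dif (VV m))
    (hφ : ∀ y, pb (fderiv ℝ φ y) (ws m) = ws m) {p : VV m}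
    (h : (Φ : VV m → M) =ᶠ[𝓝 p] fun x => e (φ x))
    (h' : ∀ᶠ z in 𝓝 (φ p), z ∈ e.source ∧ loc2 e w z = ws m) :
    ∀ᶠ y in 𝓝 p, loc2 Φ w y = ws m := by
  filter_upwards [h.eventuallyEq_nhds, φ.smooth.continuous.continuousAt.eventually h'] with y h1 h2
  rw [loc2_comp Φ e h1 (φ.smooth.differentiable (by simp) y) h2.1, pull2, h2.2]
  exact hφ y

theorem tube_lat0 (s : ℝ) : lat (s • es m) = 0 := by
  simp [lat, es]

theorem tube_lev (s : ℝ) : (s • es m).2.2 = s := mul_one s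

theorem tube_axis {y : VV m} (h : lat y ≤ 0) : y = y.2.2 • es m :=
  Prod.ext ((norm_le_zero_iff.1 ((le_max_left _ _).trans h)).trans (smul_zero _).symm)
    (Prod.ext ((abs_nonpos_iff.1 ((le_max_right _ _).trans h)).trans (mul_zero _).symm)
      (mul_one _).symm)

theorem tube_nrm {y : VV m} {r : ℝ} (h : lat y < r) (h1 : -r < y.2.2) (h2 : y.2.2 < r) :
    ‖y‖ < r := by
  rw [norm_VV]
  exact max_lt h (abs_lt.2 ⟨h1, h2⟩)

theorem tube_eta {L : ℝ} {P : VV m → Prop} (h : ∀ p ∈ box m 0 (-L) L, ∀ᶠ y in 𝓝 p, P y) :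
    ∃ η : ℝ, 0 < η ∧ ∀ y ∈ box m η (-L) L, P y := by
  obtain ⟨η, h1, h2⟩ := (isCompact_box (m := m) 0 (-L) L).exists_cthickening_subset_open
    (isOpen_interior (s := {y | P y})) fun p hp => mem_interior_iff_mem_nhds.2 (h p hp)
  refine ⟨η, h1, fun y hy => interior_subset (h2 (mem_cthickening_of_dist_le y (y.2.2 • es m) η _
    ⟨(tube_lat0 _).le, ?_⟩ ?_))⟩
  · rw [tube_lev]
    exact hy.2
  · rw [dist_eq_norm, norm_VV, lat_sub_es]
    exact max_le hy.1 (by simp [es, h1.le])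

theorem tube_sh (k : Dif V) (c : V) :
    ∃ φ : Dif V, (∀ y, φ y = k y + c) ∧ ∀ y, fderiv ℝ φ y = fderiv ℝ k y :=
  ⟨k.trans ⟨Equiv.addRight c, contDiff_id.add contDiff_const, contDiff_id.add contDiff_const⟩,
    fun _ => rfl, fun _ => fderiv_add_const _⟩

theorem tube_near [T2Space M] {w : M → B2 E} {O C : Set M} (hO : IsOpen O) (hC : IsCompact C)
    (e : Par (VV m) E M) (h0 : 0 ∈ e.source) (h1 : e 0 ∈ O) (h2 : e 0 ∉ C)
    (h3 : ∀ᶠ y in 𝓝 (0 : VV m), loc2 e w y = ws m) :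
    ∀ᶠ y in 𝓝 (0 : VV m), (y ∈ e.source ∧ loc2 e w y = ws m) ∧ e y ∈ O ∧ e y ∉ C :=
  ((e.open_source.eventually_mem h0).and h3).and
    ((e.cont.continuousAt (e.open_source.mem_nhds h0)).eventually
      ((hO.eventually_mem h1).and (hC.isClosed.isOpen_compl.eventually_mem h2)))

theorem tube [T2Space M] (hE : Module.finrank ℝ E = 2 * m + 2) (hm : 1 ≤ m) {w : M → B2 E}
    (hw : Cl2 w) {O : Set M} (hO : IsOpen O) (eA eB : Par (VV m) E M) {a R R' : ℝ} (ha : 0 < a)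
    (hR' : 0 < R') (hR : R' < R) (hA : box m R 0 a ⊆ eA.source) (hB : box m R (-a) 0 ⊆ eB.source)
    (hAO : eA '' box m R 0 a ⊆ O) (hBO : eB '' box m R (-a) 0 ⊆ O)
    (hd : Disjoint (eA '' box m R 0 a) (eB '' box m R (-a) 0))
    (hc : IsPreconnected (O \ (eA '' box m R 0 a ∪ eB '' box m R (-a) 0)))
    (hn : ∀ z ∈ O \ (eA '' box m R 0 a ∪ eB '' box m R (-a) 0), Nd (w z))
    (hA0 : ∀ᶠ y in 𝓝 (0 : VV m), loc2 eA w y = ws m)
    (hB0 : ∀ᶠ y in 𝓝 (0 : VV m), loc2 eB w y = ws m) :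
    ∃ (L η : ℝ) (ζ : VV m) (Φ : Par (VV m) E M), 0 < L ∧ 0 < η ∧ η ≤ R' ∧ ζ.2.2 = 0 ∧
      lat ζ ≤ R - R' ∧ beam m R' η L a ⊆ Φ.source ∧ Φ '' beam m R' η L a ⊆ O ∧
      (∀ y ∈ box m R' L (L + a), (Φ : VV m → M) =ᶠ[𝓝 y] fun x => eA (x - L • es m)) ∧
      (∀ y ∈ box m R' (-L - a) (-L), (Φ : VV m → M) =ᶠ[𝓝 y] fun x => eB (x + L • es m + ζ)) ∧
      ∀ y ∈ box m η (-L) L, loc2 Φ w y = ws m := by
  classical
  have z0 : lat (0 : VV m) ≤ R := by simpa [lat] using (hR'.trans hR).le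
  have zA : (0 : VV m) ∈ box m R 0 a := ⟨z0, le_rfl, ha.le⟩
  have zB : (0 : VV m) ∈ box m R (-a) 0 := ⟨z0, neg_nonpos.2 ha.le, le_rfl⟩
  have cA := eA.isCompact_image (isCompact_box R 0 a) hA
  have cB := eB.isCompact_image (isCompact_box R (-a) 0) hB
  obtain ⟨r, hr, hb⟩ := Metric.eventually_nhds_iff.1 ((tube_near hO cB eA (hA zA)
    (hAO ⟨0, zA, rfl⟩) (disjoint_left.1 hd ⟨0, zA, rfl⟩) hA0).and (tube_near hO cA eB (hB zB)
    (hBO ⟨0, zB, rfl⟩) (disjoint_right.1 hd ⟨0, zB, rfl⟩) hB0))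
  obtain ⟨b, rfl⟩ : ∃ b, r = 2 * b := ⟨r / 2, by ring⟩
  have b0 : 0 < b := by linarith only [hr]
  simp only [dist_zero_right] at hb
  have nA : ∀ s : ℝ, -b ≤ s → s ≤ b → ‖s • es m‖ < 2 * b := fun s h1 h2 =>
    tube_nrm (by rw [tube_lat0]; exact hr) (by rw [tube_lev]; linarith only [b0, h1]) (by rw [tube_lev]; linarith only [b0, h2])
  have evb : ∀ p : VV m, ‖p‖ < 2 * b → ∀ᶠ y in 𝓝 p, ‖y‖ < 2 * b := fun p hp =>
    continuous_norm.continuousAt.eventually_lt continuousAt_const hp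
  have wA : ∀ s, -b ≤ s → s < 0 →
      eA (s • es m) ∈ O \ (eA '' box m R 0 a ∪ eB '' box m R (-a) 0) := fun s h1 h2 => by
    have h := (hb (nA s h1 (by linarith only [b0, h2]))).1
    refine ⟨h.2.1, fun h' => h'.elim (fun ⟨x, x1, x2⟩ => ?_) h.2.2⟩
    rw [eA.inj (hA x1) h.1.1 x2] at x1
    exact h2.not_ge (x1.2.1.trans_eq (tube_lev s))
  have n1 := nA (-b) le_rfl (by linarith only [b0])
  have n2 := nA b (by linarith only [b0]) le_rfl
  obtain ⟨g, hg⟩ := sym_germ hE hw (hO.sdiff (cA.union cB).isClosed) hc hn eA eB (hb n1).1.1.1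
    (hb n2).2.1.1 (wA _ le_rfl (by linarith only [b0])) ⟨(hb n2).2.2.1, fun h' => h'.elim (hb n2).2.2.2
      fun ⟨x, x1, x2⟩ => by
        rw [eB.inj (hB x1) (hb n2).2.1.1 x2] at x1
        exact b0.not_ge ((tube_lev b).symm.trans_le x1.2.2)⟩
    ((evb _ n1).mono fun y hy => (hb hy).1.1.2) ((evb _ n2).mono fun y hy => (hb hy).2.1.2)
  obtain ⟨eA', sA, fA, lA⟩ := par_sym g eA
  obtain ⟨κ, κ0, κb, hκ⟩ : ∃ κ : ℝ, 0 < κ ∧ κ ≤ b ∧ ∀ x : VV m, ‖x‖ < κ →
      eA' (x + -b • es m) = eB (x + b • es m) := by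
    obtain ⟨κ, κ0, hκ⟩ := Metric.eventually_nhds_iff.1 hg
    refine ⟨_, lt_min κ0 b0, min_le_right _ _, fun x hx => ?_⟩
    rw [fA, add_comm x, add_comm x]
    exact hκ ((dist_zero_right x).trans_lt (hx.trans_le (min_le_left _ _)))
  obtain ⟨ζ, hζ, nζ, av⟩ := tube_avoid hm eA' eB (lt_min κ0 (sub_pos.2 hR))
  obtain ⟨nζ, nζ'⟩ := lt_min_iff.1 nζ
  have lζ : lat ζ ≤ R - R' := ((le_max_left _ _).trans (norm_VV ζ).ge).trans nζ'.le
  obtain ⟨k, k1, k2, k3, k4, k5⟩ := kink (show -κ / 2 < -κ / 4 by linarith only [κ0]) hζ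
  obtain ⟨φA, a1, a2⟩ := tube_sh (Dif.refl (VV m)) (-b • es m)
  obtain ⟨φB, b1, b2⟩ := tube_sh k (b • es m)
  replace a1 : ∀ y, φA y = y + -b • es m := a1
  obtain ⟨PA, sPA, fPA⟩ := par_dif eA' φA
  obtain ⟨PB, sPB, fPB⟩ := par_dif eB φB
  obtain ⟨K, hK, KW, gK⟩ := g.supp
  have vA : ∀ y, (φA y).2.2 = y.2.2 - b := fun y => by
    rw [a1, sub_eq_add_neg]; exact congrArg _ (tube_lev _)
  have vB : ∀ y, (φB y).2.2 = y.2.2 + b := fun y => by
    rw [b1, ← k2 y]; exact congrArg _ (tube_lev _)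
  have tA : ∀ y ∈ box m R' b (b + a), φA y ∈ box m R 0 a := fun y hy =>
    ⟨by rw [a1, lat_add_es]; exact hy.1.trans hR.le, by rw [vA]; linarith only [hy, hy.2.1],
      by rw [vA]; linarith only [hy, hy.2.2]⟩
  have tB : ∀ y ∈ box m R' (-b - a) (-b), φB y ∈ box m R (-a) 0 := fun y hy =>
    ⟨by rw [b1, lat_add_es, k3 y (by linarith only [b0, κb, hy, hy.2.2])]; linarith only [lζ, hy, lat_add_le y ζ, hy.1],
      by rw [vB]; linarith only [hy, hy.2.1], by rw [vB]; linarith only [hy, hy.2.2]⟩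
  have mA : ∀ y ∈ box m 0 (-b) b, φA y = (y.2.2 - b) • es m := fun y hy => by
    rw [← vA]
    exact tube_axis (by rw [a1, lat_add_es]; exact hy.1)
  have mB : ∀ y ∈ box m 0 (-b) b, y.2.2 < 0 → ‖φB y‖ < 2 * b := fun y hy h => tube_nrm (by
    rw [b1, lat_add_es, tube_axis hy.1]; linarith only [b0, κb, nζ, k5, k5 y.2.2]) (by rw [vB]; linarith only [b0, hy, hy.2.1])
      (by rw [vB]; linarith only [b0, h])
  have hT : ∀ y ∈ beam m R' 0 b a, 0 ≤ y.2.2 →
      φA y ∈ box m R 0 a ∨ y ∈ box m 0 (-b) b ∧ y.2.2 < b := by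
    rintro y ((h | h) | h) h0
    · exact .inl (tA y h)
    · rcases h.2.2.eq_or_lt with e | e
      · exact .inl (by rw [mA y h, e, sub_self, zero_smul]; exact zA)
      · exact .inr ⟨h, e⟩
    · linarith only [b0, h0, h, h.2.2]
  have hT' : ∀ y ∈ beam m R' 0 b a, 0 ≤ y.2.2 → φA y ∈ eA.source ∧ eA (φA y) ∈ O := fun y hy h0 =>
    (hT y hy h0).elim (fun h => ⟨hA h, hAO ⟨_, h, rfl⟩⟩) fun h => by
      have := (hb (nA (y.2.2 - b) (by linarith only [h0]) (by linarith only [b0, h, h.2]))).1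
      rw [mA y h.1]
      exact ⟨this.1.1, this.2.1⟩
  have hBo : ∀ y ∈ beam m R' 0 b a, y.2.2 < 0 →
      φB y ∈ box m R (-a) 0 ∨ y ∈ box m 0 (-b) b := by
    rintro y ((h | h) | h) h0
    · linarith only [b0, h0, h, h.2.1]
    · exact .inr h
    · exact .inl (tB y h)
  have hB' : ∀ y ∈ beam m R' 0 b a, y.2.2 < 0 →
      φB y ∈ eB.source ∧ eB (φB y) ∈ O ∧ eB (φB y) ∉ eA '' box m R 0 a := fun y hy h0 =>
    (hBo y hy h0).elim (fun h => ⟨hB h, hBO ⟨_, h, rfl⟩, disjoint_right.1 hd ⟨_, h, rfl⟩⟩) fun h =>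
      ⟨(hb (mB y h h0)).2.1.1, (hb (mB y h h0)).2.2⟩
  have cross : ∀ y ∈ beam m R' 0 b a, 0 ≤ y.2.2 → ∀ x ∈ beam m R' 0 b a, x.2.2 < 0 →
      PA y ≠ PB x := by
    intro y hy y0 x hx x0 e
    rw [fPA, fPB] at e
    rcases hT y hy y0 with h | ⟨h, h'⟩
    · refine (hB' x hx x0).2.2 ⟨_, h, ?_⟩
      rw [← e, fA, gK _ fun hk => (KW hk).2 (.inl ⟨_, h, rfl⟩)]
    have s1 := sA ▸ (hT' y hy y0).1
    have s2 := (hB' x hx x0).1
    rcases hBo x hx x0 with h2 | h2
    · have := (g.maps _).2 (wA (y.2.2 - b) (by linarith only [y0]) (by linarith only [h']))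
      rw [← fA, ← mA y h, e] at this
      exact this.2 (.inr ⟨_, h2, rfl⟩)
    rcases le_or_gt x.2.2 (-κ / 2) with h3 | h3
    · have : φB x = ζ + (x.2.2 + b) • es m := by
        rw [b1, k3 x h3, add_smul, ← tube_axis h2.1]; abel
      rw [mA y h] at e s1
      rw [this] at e s2
      exact av _ _ s1 s2 e
    · have n : ‖k x‖ < κ := tube_nrm (by rw [tube_axis h2.1]; linarith only [nζ, k5, k5 x.2.2])
        (by rw [k2]; linarith only [x0, h3]) (by rw [k2]; linarith only [x0, h3])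
      have v : (φA (k x)).2.2 = x.2.2 - b := by rw [vA, k2]
      rw [b1, ← hκ _ n, ← a1] at e
      have := congrArg (fun z : VV m => z.2.2) (eA'.inj s1 (sA ▸ (hb (tube_nrm (by
        rw [a1, lat_add_es, tube_axis h2.1]; linarith only [κb, nζ, x0, h3, k5, k5 x.2.2]) (by rw [v]; linarith only [κb, x0, h3])
        (by rw [v]; linarith only [κb, x0, h3]))).1.1.1) e)
      simp only [v, vA] at this
      linarith only [y0, x0, this]
  obtain ⟨F, hF⟩ : ∃ F : VV m → M, ∀ y, F y = if 0 ≤ y.2.2 then PA y else PB y := ⟨_, fun _ => rfl⟩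
  have cs : Continuous fun y : VV m => y.2.2 := (ds m).continuous
  have FB : ∀ y : VV m, y.2.2 < 0 → F =ᶠ[𝓝 y] PB := fun y h =>
    (cs.continuousAt.eventually_lt continuousAt_const h).mono fun x hx => by
      rw [hF, if_neg hx.not_ge]
  have FA : ∀ y ∈ beam m R' 0 b a, 0 ≤ y.2.2 → F =ᶠ[𝓝 y] PA := fun y hy h => by
    rcases h.eq_or_lt with e | e
    · have y0 : y = 0 := by
        rcases hT y hy h with h' | h'
        · linarith only [b0, e, h', vA, h'.2.1, vA y]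
        · rw [tube_axis h'.1.1, ← e, zero_smul]
      subst y0
      filter_upwards [ball_mem_nhds _ κ0, continuousAt_const.eventually_lt cs.continuousAt
        (show -κ / 4 < (0 : VV m).2.2 by rw [← e]; linarith only [κ0])] with x x1 x2
      rw [hF]
      split_ifs
      · rfl
      · rw [fPA, fPB, a1, b1, k4 x x2.le, hκ x (mem_ball_zero_iff.1 x1)]
    · exact (continuousAt_const.eventually_lt cs.continuousAt e).mono fun x hx => by
        rw [hF, if_pos hx.le]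
  have sA' : ∀ y ∈ beam m R' 0 b a, 0 ≤ y.2.2 → y ∈ PA.source := fun y hy h => by
    rw [sPA, sA]; exact (hT' y hy h).1
  have sB' : ∀ y ∈ beam m R' 0 b a, y.2.2 < 0 → y ∈ PB.source := fun y hy h => by
    rw [sPB]; exact (hB' y hy h).1
  obtain ⟨Φ, hΦ, fΦ⟩ := tube_glue (E := E) (F := F) (isCompact_beam R' 0 b a) (fun y hy x hx e => by
      rcases le_or_gt 0 y.2.2 with h | h <;> rcases le_or_gt 0 x.2.2 with h' | h'
      · rw [(FA y hy h).eq_of_nhds, (FA x hx h').eq_of_nhds] at e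
        exact PA.inj (sA' y hy h) (sA' x hx h') e
      · rw [(FA y hy h).eq_of_nhds, (FB x h').eq_of_nhds] at e
        exact (cross y hy h x hx h' e).elim
      · rw [(FB y h).eq_of_nhds, (FA x hx h').eq_of_nhds] at e
        exact (cross x hx h' y hy h e.symm).elim
      · rw [(FB y h).eq_of_nhds, (FB x h').eq_of_nhds] at e
        exact PB.inj (sB' y hy h) (sB' x hx h') e) fun y hy =>
    (le_or_gt 0 y.2.2).elim (fun h => ⟨PA, sA' y hy h, FA y hy h⟩) fun h => ⟨PB, sB' y hy h, FB y h⟩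
  obtain rfl : (Φ : VV m → M) = F := funext fΦ
  replace FA : ∀ y ∈ beam m R' 0 b a, 0 ≤ y.2.2 → (Φ : VV m → M) =ᶠ[𝓝 y] fun x => eA' (φA x) :=
    fun y hy h => (FA y hy h).trans (.of_forall fPA)
  replace FB : ∀ y : VV m, y.2.2 < 0 → (Φ : VV m → M) =ᶠ[𝓝 y] fun x => eB (φB x) :=
    fun y h => (FB y h).trans (.of_forall fPB)
  have FO : ∀ y ∈ beam m R' 0 b a, Φ y ∈ O := fun y hy => by
    rcases le_or_gt 0 y.2.2 with h | h
    · rw [(FA y hy h).eq_of_nhds, fA]
      by_cases hk : eA (φA y) ∈ K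
      · exact ((g.maps _).2 (KW hk)).1
      · rw [gK _ hk]
        exact (hT' y hy h).2
    · rw [(FB y h).eq_of_nhds]
      exact (hB' y hy h).2.1
  obtain ⟨η, η0, hη⟩ := tube_eta (m := m) (L := b)
      (P := fun y => y ∈ Φ.source ∧ Φ y ∈ O ∧ loc2 Φ w y = ws m) fun p hp => by
    have hp' : p ∈ beam m R' 0 b a := .inl (.inr hp)
    have n := Φ.open_source.mem_nhds (hΦ hp')
    refine Eventually.and n (((Φ.cont.continuousAt n).eventually
      (hO.eventually_mem (FO p hp'))).and ?_)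
    rcases le_or_gt 0 p.2.2 with h | h
    · refine tube_ev Φ eA' φA (fun y => ?_) (FA p hp' h) ?_
      · rw [a2, show fderiv ℝ (Dif.refl (VV m)) y = _ from fderiv_id, pb_id]
      · rw [mA p hp]
        exact (evb _ (nA _ (by linarith only [h]) (by linarith only [b0, hp, hp.2.2]))).mono fun y hy =>
          ⟨sA ▸ (hb hy).1.1.1, (lA y (hb hy).1.1.1).trans (hb hy).1.1.2⟩
    · exact tube_ev Φ eB φB (fun y => b2 y ▸ k1 y) (FB p h)
        ((evb _ (mB p hp h)).mono fun y hy => (hb hy).2.1)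
  have hη' : ∀ y ∈ box m (min η R') (-b) b, _ := fun y hy =>
    hη y ⟨hy.1.trans (min_le_left _ _), hy.2⟩
  refine ⟨b, _, ζ, Φ, b0, lt_min η0 hR', min_le_right _ _, hζ, lζ, ?_, ?_, fun y hy => ?_,
    fun y hy => ?_, fun y hy => (hη' y hy).2.2⟩
  · rintro y ((h | h) | h)
    exacts [hΦ (.inl (.inl h)), (hη' y h).1, hΦ (.inr h)]
  · rintro _ ⟨y, (h | h) | h, rfl⟩
    exacts [FO y (.inl (.inl h)), (hη' y h).2.1, FO y (.inr h)]
  · filter_upwards [FA y (.inl (.inl hy)) (b0.le.trans hy.2.1),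
      ((eA.cont.continuousAt (eA.open_source.mem_nhds (hA (tA y hy)))).comp
        φA.smooth.continuous.continuousAt).eventually (hK.isClosed.isOpen_compl.eventually_mem
          fun hk => (KW hk).2 (.inl ⟨_, tA y hy, rfl⟩))] with x x1 x2
    rw [x1, fA, gK (eA (φA x)) x2, a1, neg_smul, sub_eq_add_neg]
  · filter_upwards [FB y (by linarith only [b0, hy, hy.2.2]), cs.continuousAt.eventually_lt continuousAt_const
      (show y.2.2 < -κ / 2 by linarith only [b0, κb, hy, hy.2.2])] with x x1 x2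
    rw [x1, b1, k3 x x2.le, add_right_comm]

end Pool.Agent.Work.MP_bf98aa_gt.Ns
end
end

-- merged part: Pool.Agent.Work.MP_bf98aa_gt.Ns.Main
section
-- merged part: Pool.Agent.Work.MP_bf98aa_gt.Ns.Ind
section
/-!
Induction over the lenses.
-/

set_option autoImplicit false
set_option maxSynthPendingDepth 3
set_option linter.unusedSectionVars false
set_option linter.unusedVariables false

open Set Filter Topology Metric MeasureTheory
open scoped Manifold ContDiff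

noncomputable section
namespace Pool.Agent.Work.MP_bf98aa_gt.Ns

open Pool.Agent.Work.MP_8c604c_gt

variable {V V' E : Type} [NormedAddCommGroup V] [NormedSpace ℝ V] [FiniteDimensional ℝ V]
  [NormedAddCommGroup V'] [NormedSpace ℝ V'] [FiniteDimensional ℝ V']
  [NormedAddCommGroup E] [NormedSpace ℝ E] [FiniteDimensional ℝ E] {M : Type} [TopologicalSpace M]
  [ChartedSpace E M] [IsManifold 𝓘(ℝ, E) ∞ M] {m : ℕ}

/-- The invariant of the induction. -/
structure IndInv {w τ : M → B2 E} (D : Lenses m w τ) (S : Finset (Fin D.N)) (α : M → B1 E)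
    (Z : Set M) (C : Fin D.N → Set M) : Prop where
  sm : Sm1 α
  cell : ∀ i ∈ S, Cell (VV m) E (C i)
  disj : ∀ i ∈ S, ∀ j ∈ S, i ≠ j → Disjoint (C i) (C j)
  disjA : ∀ i ∈ S, ∀ j, j ∉ S → Disjoint (C i) (D.eA j '' box m D.R 0 D.a)
  disjB : ∀ i ∈ S, ∀ j, j ∉ S → Disjoint (C i) (D.eB j '' box m D.R (-D.a) 0)
  closed : IsClosed Z
  sub : ∀ z ∈ Z, ∃ i ∈ S, z ∈ interior (C i)
  zero : ∀ z, (∀ i ∈ S, z ∉ C i) → α z = 0
  lens : ∀ i ∈ S, D.eA i '' box m D.r (D.a / 2) (3 * D.a / 4) ⊆ C i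
  pos : ∀ z, z ∉ Z → (∀ j, j ∉ S → z ∉ D.eA j '' box m D.r (D.a / 2) (3 * D.a / 4)) →
    0 < rat (fun x => w x + dM α x) τ z
  sing : ∀ z ∈ Z, SubM E Z z ∧ FoldM (fun x => w x + dM α x) z

theorem ind_box_mono {R R' a b a' b' : ℝ} (h : R ≤ R') (ha : a' ≤ a) (hb : b ≤ b') :
    box m R a b ⊆ box m R' a' b' := fun _ hy =>
  ⟨hy.1.trans h, ha.trans hy.2.1, hy.2.2.trans hb⟩

theorem ind_dM_zero {α : M → B1 E} {F : Set M} (hF : IsClosed F) (h : ∀ z, z ∉ F → α z = 0)
    {z : M} (hz : z ∉ F) : dM α z = 0 := by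
  rw [dM_congr (β := fun _ => 0) (Filter.eventually_of_mem (hF.isOpen_compl.mem_nhds hz) h),
    dM_zero]

theorem IndInv.isClosed [T2Space M] {w τ : M → B2 E} {D : Lenses m w τ} {S : Finset (Fin D.N)}
    {α : M → B1 E} {Z : Set M} {C : Fin D.N → Set M} (h : IndInv D S α Z C) :
    IsClosed (⋃ i ∈ S, C i) :=
  S.finite_toSet.isClosed_biUnion fun i hi => (h.cell i hi).isCompact.isClosed

theorem IndInv.dzero [T2Space M] {w τ : M → B2 E} {D : Lenses m w τ} {S : Finset (Fin D.N)}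
    {α : M → B1 E} {Z : Set M} {C : Fin D.N → Set M} (h : IndInv D S α Z C) {z : M}
    (hz : ∀ i ∈ S, z ∉ C i) : dM α z = 0 :=
  ind_dM_zero h.isClosed (fun x hx => h.zero x fun i hi hxi => hx (mem_biUnion hi hxi))
    (fun hx => by
      obtain ⟨i, hi, hxi⟩ := mem_iUnion₂.1 hx
      exact hz i hi hxi)

theorem ind_shift (c : VV m) {w : M → B2 E} (Φ e : Par (VV m) E M) {y : VV m}
    (h : (Φ : VV m → M) =ᶠ[𝓝 y] fun x => e (x + c)) (hy : y + c ∈ e.source) :
    loc2 Φ w y = loc2 e w (y + c) := by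
  have h1 : HasFDerivAt (fun x : VV m => x + c) (ContinuousLinearMap.id ℝ (VV m)) y :=
    (hasFDerivAt_id y).add_const c
  rw [loc2_comp Φ e (φ := fun x => x + c) h h1.differentiableAt hy, pull2, h1.fderiv, pb_id]

theorem ind_fderiv_shift (c : VV m) {G : VV m → ℝ} (hG : ContDiff ℝ ∞ G) (y : VV m) :
    fderiv ℝ (fun x => G (x + c)) y = fderiv ℝ G (y + c) := by
  have h1 : HasFDerivAt (fun x : VV m => x + c) (ContinuousLinearMap.id ℝ (VV m)) y :=
    (hasFDerivAt_id y).add_const c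
  have h2 := ((hG.differentiable (by simp)) (y + c)).hasFDerivAt.comp y h1
  rw [ContinuousLinearMap.comp_id] at h2
  exact h2.fderiv

theorem ind_es (r : ℝ) : (r • es m).2.2 = r := by simp [es]

theorem ind_lat_zero : lat (0 : VV m) = 0 := by simp [lat]

/-- The free region is connected and symplectic. -/
theorem ind_free [T2Space M] [PreconnectedSpace M] {w τ : M → B2 E}
    {D : Lenses m w τ} {S : Finset (Fin D.N)} {α : M → B1 E} {Z : Set M} {C : Fin D.N → Set M}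
    (h : IndInv D S α Z C) {i : Fin D.N} (hi : i ∉ S) : ∃ O : Set M, IsOpen O ∧
      (∀ z, z ∈ O ↔ (∀ j ∈ S, z ∉ C j) ∧ ∀ j, j ∉ S → j ≠ i →
        z ∉ D.eA j '' box m D.R 0 D.a ∧ z ∉ D.eB j '' box m D.R (-D.a) 0) ∧
      IsPreconnected (O \ (D.eA i '' box m D.R 0 D.a ∪ D.eB i '' box m D.R (-D.a) 0)) := by
  classical
  have hR : 0 < D.R := D.r_pos.trans D.r_lt
  have cA : ∀ j, Cell (VV m) E (D.eA j '' box m D.R 0 D.a) := fun j =>
    cell_box _ hR D.a_pos (D.srcA j)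
  have cB : ∀ j, Cell (VV m) E (D.eB j '' box m D.R (-D.a) 0) := fun j =>
    cell_box _ hR (by linarith [D.a_pos]) (D.srcB j)
  refine ⟨{z | (∀ j ∈ S, z ∉ C j) ∧ ∀ j, j ∉ S → j ≠ i →
    z ∉ D.eA j '' box m D.R 0 D.a ∧ z ∉ D.eB j '' box m D.R (-D.a) 0}, ?_, fun _ => Iff.rfl, ?_⟩
  · have e : {z | (∀ j ∈ S, z ∉ C j) ∧ ∀ j, j ∉ S → j ≠ i →
        z ∉ D.eA j '' box m D.R 0 D.a ∧ z ∉ D.eB j '' box m D.R (-D.a) 0} =
        (⋃ j ∈ S, C j)ᶜ ∩ ⋂ j, {z | j ∉ S → j ≠ i →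
          z ∉ D.eA j '' box m D.R 0 D.a ∧ z ∉ D.eB j '' box m D.R (-D.a) 0} := by
      ext z
      simp only [mem_ofPred_eq, mem_inter_iff, mem_compl_iff, mem_iUnion, not_exists, mem_iInter]
    rw [e]
    refine h.isClosed.isOpen_compl.inter (isOpen_iInter_of_finite fun j => ?_)
    by_cases hj : j ∉ S ∧ j ≠ i
    · have e2 : {z | j ∉ S → j ≠ i →
          z ∉ D.eA j '' box m D.R 0 D.a ∧ z ∉ D.eB j '' box m D.R (-D.a) 0} =
          (D.eA j '' box m D.R 0 D.a)ᶜ ∩ (D.eB j '' box m D.R (-D.a) 0)ᶜ := by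
        ext z
        exact ⟨fun hz => hz hj.1 hj.2, fun hz _ _ => hz⟩
      rw [e2]
      exact (cA j).isCompact.isClosed.isOpen_compl.inter (cB j).isCompact.isClosed.isOpen_compl
    · have e2 : {z | j ∉ S → j ≠ i →
          z ∉ D.eA j '' box m D.R 0 D.a ∧ z ∉ D.eB j '' box m D.R (-D.a) 0} = univ :=
        eq_univ_of_forall fun z h1 h2 => absurd ⟨h1, h2⟩ hj
      rw [e2]
      exact isOpen_univ
  · let F : Fin D.N × Bool → Set M := fun p =>
      if p.2 = true then (if p.1 ∈ S then C p.1 else D.eA p.1 '' box m D.R 0 D.a)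
      else D.eB p.1 '' box m D.R (-D.a) 0
    let s : Finset (Fin D.N × Bool) := Finset.univ.filter fun p => p.2 = true ∨ p.1 ∉ S
    have hs : ∀ p, p ∈ s ↔ p.2 = true ∨ p.1 ∉ S := fun p => by simp [s]
    have F1 : ∀ j ∈ S, F (j, true) = C j := fun j hj => by simp [F, hj]
    have F2 : ∀ j, j ∉ S → F (j, true) = D.eA j '' box m D.R 0 D.a := fun j hj => by simp [F, hj]
    have F3 : ∀ j, F (j, false) = D.eB j '' box m D.R (-D.a) 0 := fun j => by simp [F]
    have key := conn_cells (V := VV m) (E := E) (M := M) (by rw [finrank_VV]; omega) s (C := F)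
      (by
        rintro ⟨j, b⟩ _
        cases b
        · rw [F3]; exact cB j
        · by_cases hj : j ∈ S
          · rw [F1 j hj]; exact h.cell j hj
          · rw [F2 j hj]; exact cA j)
      (by
        rintro ⟨j, b⟩ hp ⟨l, b'⟩ hq hne
        have hp' := (hs _).1 hp
        have hq' := (hs _).1 hq
        cases b <;> cases b'
        · rw [F3, F3]; exact D.disjBB j l fun e => hne (by rw [e])
        · have hj : j ∉ S := by simpa using hp'
          by_cases hl : l ∈ S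
          · rw [F3, F1 l hl]; exact (h.disjB l hl j hj).symm
          · rw [F3, F2 l hl]; exact (D.disjAB l j).symm
        · have hl : l ∉ S := by simpa using hq'
          by_cases hj : j ∈ S
          · rw [F3, F1 j hj]; exact h.disjB j hj l hl
          · rw [F3, F2 j hj]; exact D.disjAB j l
        · have hjl : j ≠ l := fun e => hne (by rw [e])
          by_cases hj : j ∈ S <;> by_cases hl : l ∈ S
          · rw [F1 j hj, F1 l hl]; exact h.disj j hj l hl hjl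
          · rw [F1 j hj, F2 l hl]; exact h.disjA j hj l hl
          · rw [F2 j hj, F1 l hl]; exact (h.disjA l hl j hj).symm
          · rw [F2 j hj, F2 l hl]; exact D.disjAA j l hjl)
    have e : {z | (∀ j ∈ S, z ∉ C j) ∧ ∀ j, j ∉ S → j ≠ i →
        z ∉ D.eA j '' box m D.R 0 D.a ∧ z ∉ D.eB j '' box m D.R (-D.a) 0} \
        (D.eA i '' box m D.R 0 D.a ∪ D.eB i '' box m D.R (-D.a) 0) = (⋃ p ∈ s, F p)ᶜ := by
      ext z
      simp only [Set.mem_sdiff, mem_ofPred_eq, mem_union, not_or, mem_compl_iff, mem_iUnion, not_exists]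
      constructor
      · rintro ⟨⟨h1, h2⟩, h3, h4⟩ ⟨j, b⟩ hp
        have hp' := (hs _).1 hp
        cases b
        · have hj : j ∉ S := by simpa using hp'
          rw [F3]
          by_cases hji : j = i
          · rw [hji]; exact h4
          · exact (h2 j hj hji).2
        · by_cases hj : j ∈ S
          · rw [F1 j hj]; exact h1 j hj
          · rw [F2 j hj]
            by_cases hji : j = i
            · rw [hji]; exact h3
            · exact (h2 j hj hji).1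
      · intro hz
        have a1 : ∀ j, j ∉ S → z ∉ D.eA j '' box m D.R 0 D.a := fun j hj => by
          rw [← F2 j hj]; exact hz _ ((hs _).2 (Or.inl rfl))
        have a2 : ∀ j, j ∉ S → z ∉ D.eB j '' box m D.R (-D.a) 0 := fun j hj => by
          rw [← F3 j]; exact hz _ ((hs _).2 (Or.inr hj))
        exact ⟨⟨fun j hj => by rw [← F1 j hj]; exact hz _ ((hs _).2 (Or.inl rfl)),
          fun j hj _ => ⟨a1 j hj, a2 j hj⟩⟩, a1 i hi, a2 i hi⟩
    rw [e]
    exact key

theorem ind_step [T2Space M] [PreconnectedSpace M]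
    (hE : Module.finrank ℝ E = 2 * m + 2) (hm : 1 ≤ m) {w τ : M → B2 E} (hw : Cl2 w) (hτ : Sm2 τ)
    (hn : ∀ z, Skew (τ z) ∧ Nd (τ z)) {D : Lenses m w τ} {S : Finset (Fin D.N)} {α : M → B1 E}
    {Z : Set M} {C : Fin D.N → Set M} (h : IndInv D S α Z C) {i : Fin D.N} (hi : i ∉ S) :
    ∃ α' Z' C', IndInv D (insert i S) α' Z' C' := by
  classical
  obtain ⟨O, hO, memO, hc⟩ := ind_free h hi
  have ha := D.a_pos
  have hr := D.r_pos
  have hrR := D.r_lt
  have hw' : Cl2 fun x => w x + dM α x := hw.add (cl2_dM h.sm)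
  have lensA : ∀ j, D.eA j '' box m D.r (D.a / 2) (3 * D.a / 4) ⊆ D.eA j '' box m D.R 0 D.a :=
    fun j => image_mono (ind_box_mono hrR.le (by linarith) (by linarith))
  have hAO : D.eA i '' box m D.R 0 D.a ⊆ O := fun z hz => (memO z).2
    ⟨fun j hj hzj => disjoint_left.1 (h.disjA j hj i hi) hzj hz, fun j _ hji =>
      ⟨fun hzj => disjoint_left.1 (D.disjAA j i hji) hzj hz,
        fun hzj => disjoint_left.1 (D.disjAB i j) hz hzj⟩⟩
  have hBO : D.eB i '' box m D.R (-D.a) 0 ⊆ O := fun z hz => (memO z).2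
    ⟨fun j hj hzj => disjoint_left.1 (h.disjB j hj i hi) hzj hz, fun j _ hji =>
      ⟨fun hzj => disjoint_left.1 (D.disjAB j i) hzj hz,
        fun hzj => disjoint_left.1 (D.disjBB j i hji) hzj hz⟩⟩
  have notZ : ∀ z ∈ O, z ∉ Z := fun z hz hzZ => by
    obtain ⟨j, hj, hzj⟩ := h.sub z hzZ
    exact ((memO z).1 hz).1 j hj (interior_subset hzj)
  have posO : ∀ z ∈ O, z ∉ D.eA i '' box m D.R 0 D.a → 0 < rat (fun x => w x + dM α x) τ z :=
    fun z hz hzA => h.pos z (notZ z hz) fun j hj hzj => by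
      by_cases hji : j = i
      · exact hzA (hji ▸ lensA j hzj)
      · exact (((memO z).1 hz).2 j hj hji).1 (lensA j hzj)
  have locO : ∀ (e : Par (VV m) E M) (y : VV m), e y ∈ O →
      loc2 e (fun x => w x + dM α x) y = loc2 e w y := fun e y hy => by
    rw [loc2, loc2, h.dzero ((memO _).1 hy).1, add_zero]
  have z0A : (0 : VV m) ∈ box m D.R 0 D.a := ⟨by rw [ind_lat_zero]; linarith, le_rfl, ha.le⟩
  have z0B : (0 : VV m) ∈ box m D.R (-D.a) 0 :=
    ⟨by rw [ind_lat_zero]; linarith, neg_nonpos.2 ha.le, le_rfl⟩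
  have cs : Continuous fun y : VV m => y.2.2 := continuous_snd.snd
  have hA0 : ∀ᶠ y in 𝓝 (0 : VV m), loc2 (D.eA i) (fun x => w x + dM α x) y = ws m := by
    have n1 := (D.eA i).open_source.mem_nhds (D.srcA i z0A)
    have n2 : ∀ᶠ y in 𝓝 (0 : VV m), D.eA i y ∈ O :=
      ((D.eA i).cont.continuousAt n1).eventually (hO.mem_nhds (hAO ⟨0, z0A, rfl⟩))
    have n3 : ∀ᶠ y in 𝓝 (0 : VV m), y ∈ (D.eA i).source ∧ y.2.2 < D.a / 2 :=
      (show ∀ᶠ y in 𝓝 (0 : VV m), y ∈ (D.eA i).source from n1).and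
        (cs.continuousAt.eventually_lt continuousAt_const (half_pos ha))
    filter_upwards [n2, n3.eventually_nhds] with y h2 h3
    have h4 : D.GA i =ᶠ[𝓝 y] fun _ => 0 := h3.mono fun x hx => D.A0 i x hx.1 (Or.inl hx.2.le)
    rw [locO _ _ h2, D.locA i y h3.self_of_nhds.1, h4.fderiv_eq, fderiv_fun_const, Pi.zero_apply,
      wedge_zero_left, sub_zero]
  have hB0 : ∀ᶠ y in 𝓝 (0 : VV m), loc2 (D.eB i) (fun x => w x + dM α x) y = ws m := by
    have n1 := (D.eB i).open_source.mem_nhds (D.srcB i z0B)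
    have n2 : ∀ᶠ y in 𝓝 (0 : VV m), D.eB i y ∈ O :=
      ((D.eB i).cont.continuousAt n1).eventually (hO.mem_nhds (hBO ⟨0, z0B, rfl⟩))
    have n3 : ∀ᶠ y in 𝓝 (0 : VV m), y ∈ (D.eB i).source ∧ -D.a / 4 < y.2.2 :=
      (show ∀ᶠ y in 𝓝 (0 : VV m), y ∈ (D.eB i).source from n1).and
        (continuousAt_const.eventually_lt cs.continuousAt (by change -D.a / 4 < 0; linarith))
    filter_upwards [n2, n3.eventually_nhds] with y h2 h3
    have h4 : D.GB i =ᶠ[𝓝 y] fun _ => 0 := h3.mono fun x hx => D.B0 i x hx.1 hx.2.le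
    rw [locO _ _ h2, D.locB i y h3.self_of_nhds.1, h4.fderiv_eq, fderiv_fun_const, Pi.zero_apply,
      wedge_zero_left, add_zero]
  obtain ⟨L, η, ζ, Φ, hL, hη, hηR, hζ, hζ', hsrc, hΦO, hΦA, hΦB, hΦT⟩ :=
    tube hE hm hw' hO (D.eA i) (D.eB i) (R' := (D.r + D.R) / 2) ha (by linarith) (by linarith)
      (D.srcA i) (D.srcB i) hAO hBO (D.disjAB i i) hc
      (fun z hz => nd_of_pf hE (hw'.skew z) fun h0 => by
        have := posO z hz.1 fun hzA => hz.2 (Or.inl hzA)
        rw [rat, h0, zero_div] at this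
        exact lt_irrefl _ this) hA0 hB0
  have mA : ∀ y ∈ box m ((D.r + D.R) / 2) L (L + D.a), y + -(L • es m) ∈ box m D.R 0 D.a ∧
      (y + -(L • es m)).2.2 = y.2.2 - L ∧ lat (y + -(L • es m)) = lat y := fun y hy => by
    have e1 : (y + -(L • es m)).2.2 = y.2.2 - L := by simp [es, sub_eq_add_neg]
    have e2 : lat (y + -(L • es m)) = lat y := by rw [← sub_eq_add_neg, lat_sub_es]
    exact ⟨⟨by rw [e2]; linarith [hy.1], by rw [e1]; linarith [hy.2.1],
      by rw [e1]; linarith [hy.2.2]⟩, e1, e2⟩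
  have mB : ∀ y ∈ box m ((D.r + D.R) / 2) (-L - D.a) (-L),
      y + (L • es m + ζ) ∈ box m D.R (-D.a) 0 ∧ (y + (L • es m + ζ)).2.2 = y.2.2 + L :=
    fun y hy => by
      have e1 : (y + (L • es m + ζ)).2.2 = y.2.2 + L := by simp [es, hζ]
      have e2 := lat_add_le (y + L • es m) ζ
      rw [lat_add_es, add_assoc] at e2
      exact ⟨⟨by linarith [hy.1], by rw [e1]; linarith [hy.2.1], by rw [e1]; linarith [hy.2.2]⟩, e1⟩
  have hΦA' : ∀ y ∈ box m ((D.r + D.R) / 2) L (L + D.a),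
      (Φ : VV m → M) =ᶠ[𝓝 y] fun x => D.eA i (x + -(L • es m)) := fun y hy => by
    simpa only [sub_eq_add_neg] using hΦA y hy
  have hΦB' : ∀ y ∈ box m ((D.r + D.R) / 2) (-L - D.a) (-L),
      (Φ : VV m → M) =ᶠ[𝓝 y] fun x => D.eB i (x + (L • es m + ζ)) := fun y hy => by
    simpa only [add_assoc] using hΦB y hy
  have sGA : ContDiff ℝ ∞ fun x => D.GA i (x + -(L • es m)) :=
    (D.smA i).comp (contDiff_id.add contDiff_const)
  have sGB : ContDiff ℝ ∞ fun x => D.GB i (x + (L • es m + ζ)) :=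
    (D.smB i).comp (contDiff_id.add contDiff_const)
  have hB : ∀ y ∈ box m ((D.r + D.R) / 2) (-L - D.a) (-L), loc2 Φ (fun x => w x + dM α x) y =
      ws m + wedge (fderiv ℝ (fun x => D.GB i (x + (L • es m + ζ))) y) (dt m) := fun y hy => by
    have h1 := (mB y hy).1
    rw [ind_shift _ Φ (D.eB i) (hΦB' y hy) (D.srcB i h1), locO _ _ (hBO ⟨_, h1, rfl⟩),
      D.locB i _ (D.srcB i h1), ind_fderiv_shift _ (D.smB i)]
  obtain ⟨Δ, Λ, Z0, K, sΔ, hK, hKC, hΔ0, hΛ, hlK, hZ0, hZK, hpos, hsing⟩ :=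
    fix (w := loc2 Φ fun x => w x + dM α x) hm hL ha hη hr (by linarith) hηR D.Km_pos D.Km_lt
      sGA sGB
      (fun y hy h1 => D.A0 i _ (D.srcA i (mA y hy).1) (by
        rw [(mA y hy).2.1, (mA y hy).2.2]
        exact h1.imp (fun h2 => by linarith) id))
      (fun y hy => D.Ale i _ (D.srcA i (mA y hy).1))
      (fun y hy h1 => by
        rw [ind_fderiv_shift _ (D.smA i)]
        exact D.Ad i _ (D.srcA i (mA y hy).1) (by rw [(mA y hy).2.1]; linarith))
      (fun y hy h1 => D.B0 i _ (D.srcB i (mB y hy).1) (by rw [(mB y hy).2]; linarith))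
      (fun y hy h1 => D.B1 i _ (D.srcB i (mB y hy).1) (by rw [(mB y hy).2]; linarith))
      (fun y hy => by
        rw [ind_fderiv_shift _ (D.smB i)]
        exact D.Bd i _ (D.srcB i (mB y hy).1))
      (fun y hy => by
        have h1 := (mA y hy).1
        rw [ind_shift _ Φ (D.eA i) (hΦA' y hy) (D.srcA i h1), locO _ _ (hAO ⟨_, h1, rfl⟩),
          D.locA i _ (D.srcA i h1), ind_fderiv_shift _ (D.smA i)])
      hB hΦT
  have hΛs : Λ '' closedBall 0 1 ⊆ Φ.source := hΛ.trans hsrc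
  have hKΛ : K ⊆ Λ '' closedBall 0 1 := hKC.trans interior_subset
  have hKs : K ⊆ Φ.source := hKΛ.trans hΛs
  have sP : Sm1 (push1 Φ Δ) := sm1_push1 Φ hK hKs sΔ.contDiffOn fun y _ hy => hΔ0 y hy
  have cC : Cell (VV m) E (Φ '' (Λ '' closedBall 0 1)) := cell_dif Φ Λ hΛs
  have CO : Φ '' (Λ '' closedBall 0 1) ⊆ O := (image_mono hΛ).trans hΦO
  have P0 : ∀ z, z ∉ Φ '' (Λ '' closedBall 0 1) → push1 Φ Δ z = 0 := fun z hz =>
    push1_zero Φ (fun y _ hy => hΔ0 y hy) fun hz' => hz (image_mono hKΛ hz')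
  have dP0 : ∀ z, z ∉ Φ '' (Λ '' closedBall 0 1) → dM (push1 Φ Δ) z = 0 := fun z hz =>
    ind_dM_zero cC.isCompact.isClosed P0 hz
  have eW : (fun x => w x + dM (fun z => α z + push1 Φ Δ z) x) =
      fun x => w x + dM α x + dM (push1 Φ Δ) x := by
    funext x
    rw [dM_add h.sm sP, add_assoc]
  have locW : ∀ y ∈ Φ.source, loc2 Φ (fun x => w x + dM α x + dM (push1 Φ Δ) x) y =
      loc2 Φ (fun x => w x + dM α x) y + dd Δ y := fun y hy => by
    have h1 : loc1 Φ (push1 Φ Δ) =ᶠ[𝓝 y] Δ :=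
      Filter.eventually_of_mem (Φ.open_source.mem_nhds hy) fun x hx => loc1_push1 Φ Δ hx
    rw [← dd_congr h1, ← loc2_dM sP Φ hy, loc2, loc2, loc2, pb_add]
  have ori : ∀ y ∈ beam m ((D.r + D.R) / 2) η L D.a, 0 < PP (loc2 Φ τ y) := by
    have hne : ∀ y ∈ beam m ((D.r + D.R) / 2) η L D.a, PP (loc2 Φ τ y) ≠ 0 := fun y hy =>
      PP_ne (skew_pb (hn _).1 _) (nd_pb (hn _).2 (Φ.D_bij (hsrc hy)))
    have hcont : ContinuousOn (fun y => PP (loc2 Φ τ y)) (beam m ((D.r + D.R) / 2) η L D.a) :=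
      continuous_PP.comp_continuousOn ((hτ.loc Φ).continuousOn.mono hsrc)
    have y0 : (-L) • es m ∈ box m ((D.r + D.R) / 2) (-L - D.a) (-L) := by
      have e2 := lat_add_es (0 : VV m) (-L)
      rw [zero_add, ind_lat_zero] at e2
      exact ⟨by rw [e2]; linarith, by rw [ind_es]; linarith, by rw [ind_es]⟩
    have y1 : (-L) • es m ∈ beam m ((D.r + D.R) / 2) η L D.a := Or.inr y0
    have p0 : 0 < PP (loc2 Φ τ ((-L) • es m)) := by
      have h1 : Φ ((-L) • es m) ∈ D.eB i '' box m D.R (-D.a) 0 :=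
        ⟨_, (mB _ y0).1, (hΦB' _ y0).self_of_nhds.symm⟩
      have h2 := posO _ (hBO h1) fun hA => disjoint_left.1 (D.disjAB i i) hA h1
      rw [rat_loc Φ (hsrc y1), hB _ y0, PP_graph, ind_fderiv_shift _ (D.smB i)] at h2
      exact (div_pos_iff_of_pos_left (D.Bd i _ (D.srcB i (mB _ y0).1))).1 h2
    intro y hy
    by_contra hneg
    have h3 := (isPreconnected_beam (m := m) (R := (D.r + D.R) / 2) (by linarith) hη.le hL.le
      ha.le).intermediate_value hy y1 hcont ⟨not_lt.1 hneg, p0.le⟩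
    obtain ⟨x, hx, hx0⟩ := h3
    exact hne x hx hx0
  have up_i : Function.update C i (Φ '' (Λ '' closedBall 0 1)) i = Φ '' (Λ '' closedBall 0 1) :=
    Function.update_self ..
  have up_j : ∀ j ∈ S, Function.update C i (Φ '' (Λ '' closedBall 0 1)) j = C j := fun j hj =>
    Function.update_of_ne (fun e : j = i => hi (e ▸ hj)) ..
  have lensC : D.eA i '' box m D.r (D.a / 2) (3 * D.a / 4) ⊆ Φ '' (Λ '' closedBall 0 1) := by
    rintro _ ⟨y, hy, rfl⟩
    have e1 : (y + L • es m).2.2 = y.2.2 + L := by simp [es]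
    have h1 : y + L • es m ∈ box m D.r (L + D.a / 2) (L + 3 * D.a / 4) :=
      ⟨by rw [lat_add_es]; exact hy.1, by rw [e1]; linarith [hy.2.1], by rw [e1]; linarith [hy.2.2]⟩
    have h2 : y + L • es m ∈ box m ((D.r + D.R) / 2) L (L + D.a) :=
      ind_box_mono (by linarith) (by linarith) (by linarith) h1
    refine ⟨y + L • es m, hKΛ (hlK h1), ?_⟩
    rw [(hΦA' _ h2).self_of_nhds]
    simp only [add_neg_cancel_right]
  have oI : IsOpen (Φ '' interior (Λ '' closedBall 0 1)) :=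
    Φ.isOpen_image isOpen_interior (interior_subset.trans hΛs)
  refine ⟨fun z => α z + push1 Φ Δ z, Z ∪ Φ '' Z0, Function.update C i (Φ '' (Λ '' closedBall 0 1)),
    h.sm.add sP, ?_, ?_, ?_, ?_, ?_, ?_, ?_, ?_, ?_, ?_⟩
  · intro j hj
    rcases Finset.mem_insert.1 hj with rfl | hj
    · rw [up_i]; exact cC
    · rw [up_j j hj]; exact h.cell j hj
  · intro j hj l hl hjl
    have dC : ∀ l ∈ S, Disjoint (Φ '' (Λ '' closedBall 0 1)) (C l) := fun l hl =>
      disjoint_left.2 fun z hz => ((memO z).1 (CO hz)).1 l hl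
    rcases Finset.mem_insert.1 hj with e1 | hj' <;> rcases Finset.mem_insert.1 hl with e2 | hl'
    · exact absurd (e1.trans e2.symm) hjl
    · rw [e1, up_i, up_j l hl']; exact dC l hl'
    · rw [e2, up_i, up_j j hj']; exact (dC j hj').symm
    · rw [up_j j hj', up_j l hl']; exact h.disj j hj' l hl' hjl
  · intro j hj l hl
    have hl' := Finset.mem_insert.not.1 hl
    rcases Finset.mem_insert.1 hj with rfl | hj
    · rw [up_i]
      exact disjoint_left.2 fun z hz =>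
        (((memO z).1 (CO hz)).2 l (fun h1 => hl' (Or.inr h1)) fun h1 => hl' (Or.inl h1)).1
    · rw [up_j j hj]; exact h.disjA j hj l fun h1 => hl' (Or.inr h1)
  · intro j hj l hl
    have hl' := Finset.mem_insert.not.1 hl
    rcases Finset.mem_insert.1 hj with rfl | hj
    · rw [up_i]
      exact disjoint_left.2 fun z hz =>
        (((memO z).1 (CO hz)).2 l (fun h1 => hl' (Or.inr h1)) fun h1 => hl' (Or.inl h1)).2
    · rw [up_j j hj]; exact h.disjB j hj l fun h1 => hl' (Or.inr h1)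
  · exact h.closed.union (Φ.isCompact_image hZ0 (hZK.trans hKs)).isClosed
  · rintro z (hz | ⟨y, hy, rfl⟩)
    · obtain ⟨j, hj, hzj⟩ := h.sub z hz
      exact ⟨j, Finset.mem_insert_of_mem hj, by rw [up_j j hj]; exact hzj⟩
    · refine ⟨i, Finset.mem_insert_self .., ?_⟩
      rw [up_i]
      exact interior_maximal (image_mono interior_subset) oI ⟨y, hKC (hZK hy), rfl⟩
  · intro z hz
    have h1 := hz i (Finset.mem_insert_self ..)
    rw [up_i] at h1
    rw [P0 z h1, h.zero z fun j hj => by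
      rw [← up_j j hj]; exact hz j (Finset.mem_insert_of_mem hj), add_zero]
  · intro j hj
    rcases Finset.mem_insert.1 hj with rfl | hj
    · rw [up_i]; exact lensC
    · rw [up_j j hj]; exact h.lens j hj
  · intro z hz hl
    rw [eW]
    by_cases hzC : z ∈ Φ '' (Λ '' closedBall 0 1)
    · obtain ⟨y, hy, rfl⟩ := hzC
      rw [rat_loc Φ (hΛs hy), locW y (hΛs hy)]
      exact div_pos (hpos y (hΛ hy) fun hy0 => hz (Or.inr ⟨y, hy0, rfl⟩)) (ori y (hΛ hy))
    · have h1 := h.pos z (fun h2 => hz (Or.inl h2)) fun j hj hzj => by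
        by_cases hji : j = i
        · exact hzC (lensC (hji ▸ hzj))
        · exact hl j (fun h3 => (Finset.mem_insert.1 h3).elim hji hj) hzj
      rw [rat] at h1 ⊢
      rw [dP0 z hzC, add_zero]
      exact h1
  · rw [eW]
    rintro z (hz | ⟨y, hy, rfl⟩)
    · have hzC : z ∉ Φ '' (Λ '' closedBall 0 1) := fun h1 => notZ z (CO h1) hz
      have n1 := cC.isCompact.isClosed.isOpen_compl.mem_nhds hzC
      refine ⟨(h.sing z hz).1.congr (Filter.eventually_of_mem n1 fun x hx =>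
        ⟨Or.inl, fun h1 => h1.elim id fun h2 => absurd (image_mono (hZK.trans hKΛ) h2) hx⟩),
        (h.sing z hz).2.congr (Filter.eventually_of_mem n1 fun x hx => ?_)⟩
      change w x + dM α x = w x + dM α x + dM (push1 Φ Δ) x
      rw [dP0 x hx, add_zero]
    · have hys := hKs (hZK hy)
      have hcl := hw'.add (cl2_dM sP)
      refine ⟨subM_of_loc Φ hys ((hsing y hy).1.congr ?_), foldM_of_loc Φ hys hcl.sm2 (hcl.skew _)
        ((hsing y hy).2.congr (Filter.eventually_of_mem (Φ.open_source.mem_nhds hys)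
          fun x hx => (locW x hx).symm))⟩
      filter_upwards [isOpen_interior.mem_nhds (hKC (hZK hy))] with x hx
      have hx' := interior_subset hx
      refine ⟨fun h1 => Or.inr ⟨x, h1, rfl⟩, fun h1 => h1.elim
        (fun h2 => absurd h2 (notZ _ (CO ⟨x, hx', rfl⟩))) fun ⟨x', h2, h3⟩ => ?_⟩
      rwa [← Φ.inj (hKs (hZK h2)) (hΛs hx') h3]

theorem ind [CompactSpace M] [T2Space M] [PreconnectedSpace M]
    (hE : Module.finrank ℝ E = 2 * m + 2) (hm : 1 ≤ m) {w τ : M → B2 E} (hw : Cl2 w) (hτ : Sm2 τ)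
    (hn : ∀ z, Skew (τ z) ∧ Nd (τ z)) (D : Lenses m w τ) :
    ∃ (α : M → B1 E) (Z : Set M) (C : Fin D.N → Set M), Sm1 α ∧ (∀ i, Cell (VV m) E (C i)) ∧
      (∀ i j, i ≠ j → Disjoint (C i) (C j)) ∧ IsClosed Z ∧ Z ⊆ ⋃ i, interior (C i) ∧
      (∀ z, z ∉ Z → 0 < rat (fun x => w x + dM α x) τ z) ∧
      (∀ z ∈ Z, SubM E Z z ∧ FoldM (fun x => w x + dM α x) z) ∧
      Htp (⋃ i, C i)ᶜ τ fun x => w x + dM α x := by
  classical
  have key : ∀ S : Finset (Fin D.N), ∃ α Z C, IndInv D S α Z C := by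
    intro S
    induction S using Finset.induction_on with
    | empty =>
      refine ⟨fun _ => 0, ∅, fun _ => ∅, sm1_zero, by simp, by simp, by simp, by simp,
        isClosed_empty, by simp, fun _ _ => rfl, by simp, fun z _ hz => ?_, by simp⟩
      have := D.pos z fun i => hz i (Finset.notMem_empty i)
      rw [rat] at this ⊢
      rw [dM_zero, add_zero]
      exact this
    | insert i S hi ih =>
      obtain ⟨α, Z, C, h⟩ := ih
      exact ind_step hE hm hw hτ hn h hi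
  obtain ⟨α, Z, C, h⟩ := key Finset.univ
  refine ⟨α, Z, C, h.sm, fun i => h.cell i (Finset.mem_univ i),
    fun i j => h.disj i (Finset.mem_univ i) j (Finset.mem_univ j), h.closed, fun z hz => ?_,
    fun z hz => h.pos z hz fun j hj => absurd (Finset.mem_univ j) hj, h.sing, ?_⟩
  · obtain ⟨i, -, hi⟩ := h.sub z hz
    exact mem_iUnion.2 ⟨i, hi⟩
  · refine (D.htp.mono (compl_subset_compl.2 (iUnion_mono fun i => h.lens i
      (Finset.mem_univ i)))).congr (fun _ _ => rfl) fun x hx => ?_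
    rw [h.dzero fun i _ hi => hx (mem_iUnion.2 ⟨i, hi⟩), add_zero]

end Pool.Agent.Work.MP_bf98aa_gt.Ns
end
end

-- merged part: Pool.Agent.Work.MP_bf98aa_gt.Ns.One
section
/-!
Finitely many disjoint cells lie in one cell.
-/

set_option autoImplicit false
set_option maxSynthPendingDepth 3
set_option linter.unusedSectionVars false
set_option linter.unusedVariables false

open Set Filter Topology Metric MeasureTheory
open scoped Manifold ContDiff

noncomputable section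
namespace Pool.Agent.Work.MP_bf98aa_gt.Ns

open Pool.Agent.Work.MP_8c604c_gt

variable {V V' E : Type} [NormedAddCommGroup V] [NormedSpace ℝ V] [FiniteDimensional ℝ V]
  [NormedAddCommGroup V'] [NormedSpace ℝ V'] [FiniteDimensional ℝ V']
  [NormedAddCommGroup E] [NormedSpace ℝ E] [FiniteDimensional ℝ E] {M : Type} [TopologicalSpace M]
  [ChartedSpace E M] [IsManifold 𝓘(ℝ, E) ∞ M] {m : ℕ}

/-- Diffeomorphisms with compact support in `W`. -/
abbrev Df (E : Type) [NormedAddCommGroup E] [NormedSpace ℝ E] {M : Type} [TopologicalSpace M]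
    [ChartedSpace E M] (W : Set M) : Type := Sym (fun _ : M => (0 : B2 E)) W

theorem one_contract {ρ ε : ℝ} (hρ : 1 < ρ) (hε : 0 < ε) : ∃ k : Dif V,
    (∀ y, ρ ≤ ‖y‖ → k y = y) ∧ ∀ y, ‖y‖ ≤ 1 → ‖k y‖ ≤ ε := by
  obtain ⟨χ, c1, c2, c3, -⟩ := exists_ball_cut (0 : V) zero_le_one hρ
  simp only [sub_zero] at c2 c3
  have g1 : ContDiff ℝ ∞ fun y : V => χ y • y := c1.smul contDiff_id
  obtain ⟨L, hL⟩ := lip_of_const g1 (isCompact_closedBall (0 : V) ρ) (c := 0) fun y hy => by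
    rw [c3 y (not_le.1 (mem_closedBall_zero_iff.not.1 hy)).le, zero_smul]
  obtain ⟨θ, h0, h1, h2⟩ : ∃ θ : ℝ, 0 < θ ∧ θ < 1 ∧ θ * L ≤ 1 / 2 := by
    have : (0 : ℝ) ≤ L := L.2
    refine ⟨1 / (2 * (L + 1)), by positivity, (div_lt_one (by positivity)).2 (by linarith only []), ?_⟩
    rw [div_mul_eq_mul_div, div_le_div_iff₀ (by positivity) (by positivity)]
    linarith
  obtain ⟨φ, hφ⟩ := dif_of_lip (g := fun y : V => (-θ) • (χ y • y)) (g1.const_smul _) fun y => by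
    rw [fderiv_fun_const_smul (g1.differentiable (by simp) y), norm_smul, norm_neg,
      Real.norm_of_nonneg h0.le]
    exact (mul_le_mul_of_nonneg_left (norm_fderiv_le_of_lipschitz ℝ hL) h0.le).trans h2
  have key : ∀ n : ℕ, ∃ k : Dif V, (∀ y, ρ ≤ ‖y‖ → k y = y) ∧
      ∀ y, ‖y‖ ≤ 1 → ‖k y‖ ≤ (1 - θ) ^ n := by
    have key' : ∀ n : ℕ, ∃ k : Dif V, (∀ y, ρ ≤ ‖y‖ → k y = y) ∧
        ∀ y, ‖y‖ ≤ 1 → ‖k y‖ ≤ (1 - θ) ^ n * ‖y‖ := by
      intro n
      induction n with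
      | zero => exact ⟨Dif.refl V, fun _ _ => rfl, fun y _ => by rw [pow_zero, one_mul]; rfl⟩
      | succ n ih =>
        obtain ⟨k, k1, k2⟩ := ih
        refine ⟨φ.trans k, fun y hy => ?_, fun y hy => ?_⟩
        · show k (φ y) = y
          rw [hφ, c3 y hy, zero_smul, smul_zero, add_zero, k1 y hy]
        · show ‖k (φ y)‖ ≤ _
          have e : ‖φ y‖ = (1 - θ) * ‖y‖ := by
            rw [hφ, c2 y hy, one_smul, show y + -θ • y = (1 - θ) • y by module, norm_smul,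
              Real.norm_of_nonneg (by linarith only [h1])]
          have := k2 (φ y) (by rw [e]; linarith only [hy, h0, norm_nonneg y, mul_nonneg_of_nonpos_of_nonpos (le_of_lt (Mathlib.Tactic.Linarith.sub_neg_of_lt h0)) (Mathlib.Tactic.Linarith.sub_nonpos_of_le (norm_nonneg y))])
          rwa [e, ← mul_assoc, ← pow_succ] at this
    intro n
    obtain ⟨k, k1, k2⟩ := key' n
    exact ⟨k, k1, fun y hy => (k2 y hy).trans
      (mul_le_of_le_one_right (pow_nonneg (by linarith only [h1]) _) hy)⟩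
  obtain ⟨n, hn⟩ := exists_pow_lt_of_lt_one hε (show 1 - θ < 1 by linarith only [h0])
  obtain ⟨k, k1, k2⟩ := key n
  exact ⟨k, k1, fun y hy => (k2 y hy).trans hn.le⟩

theorem one_of_par [T2Space M] {W : Set M} (e : Par V E M) {ρ : ℝ} {k : Dif V}
    (hk : ∀ y, ρ ≤ ‖y‖ → k y = y) (hc : closedBall 0 ρ ⊆ e.source) (hW : e '' closedBall 0 ρ ⊆ W) :
    ∃ g : Df E W, ∀ y ∈ e.source, g.toFun (e y) = e (k y) := by
  obtain ⟨g, hg⟩ := sym_of_par (w := fun _ : M => (0 : B2 E)) e (b := 0) (fun _ _ => pb_zero _)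
    ⟨fun _ => pb_zero _, hk⟩ hc hW
  exact ⟨g, fun y hy => by rw [hg y hy, sub_zero, zero_add]⟩

theorem one_shrink [T2Space M] {C W : Set M} (hC : Cell V E C) (hW : IsOpen W) (h : C ⊆ W) :
    ∃ p ∈ C, ∀ U ∈ 𝓝 p, ∃ g : Df E W, ∀ z ∈ C, g.toFun z ∈ U := by
  obtain ⟨e, h1, rfl⟩ := hC
  have h0 : (0 : V) ∈ closedBall (0 : V) 1 := mem_closedBall_self zero_le_one
  refine ⟨e 0, ⟨0, h0, rfl⟩, fun U hU => ?_⟩
  obtain ⟨δ, d1, d2⟩ := (isCompact_closedBall (0 : V) 1).exists_cthickening_subset_open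
    (e.cont.isOpen_inter_preimage e.open_source hW) fun y hy => ⟨h1 hy, h ⟨y, hy, rfl⟩⟩
  rw [cthickening_closedBall d1.le zero_le_one] at d2
  obtain ⟨ε, hε, e1⟩ := nhds_basis_closedBall.mem_iff.1
    (e.cont.continuousAt (e.open_source.mem_nhds (h1 h0)) hU)
  obtain ⟨k, k1, k2⟩ := one_contract (V := V) (show 1 < δ + 1 by linarith) hε
  obtain ⟨g, hg⟩ := one_of_par (W := W) e k1 (fun y hy => (d2 hy).1)
    (image_subset_iff.2 fun y hy => (d2 hy).2)
  refine ⟨g, ?_⟩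
  rintro _ ⟨y, hy, rfl⟩
  rw [hg y (h1 hy)]
  exact e1 (mem_closedBall_zero_iff.2 (k2 y (mem_closedBall_zero_iff.1 hy)))

theorem one_move [T2Space M] (hP : ∀ z : M, ∃ e : Par (VV m) E M, 0 ∈ e.source ∧ e 0 = z)
    {W : Set M} (hW : IsOpen W) (hc : IsPreconnected W) {p q : M} (hp : p ∈ W) (hq : q ∈ W) :
    ∃ g : Df E W, g.toFun p = q := by
  refine hc.induction₂ (fun z z' => ∃ g : Df E W, g.toFun z = z') (fun x hx => ?_)
    (fun x y z _ _ _ a1 a2 => ?_) (fun x y _ _ a1 => ?_) hp hq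
  · obtain ⟨e, e0, rfl⟩ := hP x
    obtain ⟨ρ, hρ, r1⟩ := nhds_basis_closedBall.mem_iff.1 (inter_mem (e.open_source.mem_nhds e0)
      (e.cont.continuousAt (e.open_source.mem_nhds e0) (hW.mem_nhds hx)))
    obtain ⟨ε, hε, H⟩ := g_trans (skew_ws (m := m)) nd_ws
    have t := e.open_target.mem_nhds (e.map_src e0)
    have c : Tendsto e.inv (𝓝 (e 0)) (𝓝 0) := by
      have := (e.sm'.continuousOn.continuousAt t).tendsto
      rwa [show e.invFun (e 0) = 0 from e.inv_apply e0] at this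
    filter_upwards [nhdsWithin_le_nhds (c (closedBall_mem_nhds 0 (mul_pos hε hρ))),
      nhdsWithin_le_nhds t] with z z1 z2
    obtain ⟨k, k1, k2⟩ := H ρ (e.inv z) hρ (mem_closedBall_zero_iff.1 z1)
    obtain ⟨g, hg⟩ := one_of_par (W := W) e k1.2 (fun y hy => (r1 hy).1)
      (image_subset_iff.2 fun y hy => (r1 hy).2)
    exact ⟨g, by rw [hg 0 e0, k2.self_of_nhds, zero_add, e.apply_inv z2]⟩
  · obtain ⟨g, rfl⟩ := a1
    obtain ⟨g', rfl⟩ := a2
    obtain ⟨u, hu⟩ := sym_trans g g'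
    exact ⟨u, hu _⟩
  · obtain ⟨g, rfl⟩ := a1
    obtain ⟨u, hu⟩ := sym_symm g
    exact ⟨u, (hu _).trans (g.left_inv _)⟩

theorem one_univ {W : Set M} (g : Df E W) :
    ∃ g' : Df E (univ : Set M), (∀ z, g'.toFun z = g.toFun z) ∧ ∀ z, z ∉ W → g.toFun z = z := by
  obtain ⟨K, k1, k2, k3⟩ := g.supp
  exact ⟨⟨g.toEquiv, g.sm, g.sm', g.pres, K, k1, subset_univ _, k3⟩, fun _ => rfl,
    fun z hz => k3 z fun h => hz (k2 h)⟩

theorem Cell.image {C W : Set M} (h : Cell V E C) (g : Df E W) : Cell V E (g.toFun '' C) := by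
  obtain ⟨e, h1, rfl⟩ := h
  obtain ⟨e', a1, a2, -⟩ := par_sym g e
  exact ⟨e', a1.symm ▸ h1, by rw [image_image]; exact image_congr fun y _ => (a2 y).symm⟩

theorem one_into [T2Space M] [PreconnectedSpace M]
    (hP : ∀ z : M, ∃ e : Par (VV m) E M, 0 ∈ e.source ∧ e 0 = z) {κ : Type} {C : κ → Set M}
    (hC : ∀ i, Cell (VV m) E (C i)) (hd : ∀ i j, i ≠ j → Disjoint (C i) (C j)) (s : Finset κ) :
    ∀ U : Set M, IsOpen U → U.Nonempty →
      ∃ g : Df E (univ : Set M), ∀ i ∈ s, ∀ z ∈ C i, g.toFun z ∈ U := by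
  classical
  induction s using Finset.induction_on with
  | empty =>
    intro U _ _
    obtain ⟨g, -⟩ := sym_refl (fun _ : M => (0 : B2 E)) univ
    exact ⟨g, fun i hi => absurd hi (Finset.notMem_empty i)⟩
  | insert a s ha ih =>
    rintro U hU ⟨q, hq⟩
    obtain ⟨q', h1, h2⟩ : ∃ q', q' ∈ U ∧ q' ≠ q := by
      obtain ⟨e, e0, rfl⟩ := hP q
      have t : e.source ∩ e ⁻¹' U ∈ 𝓝[≠] (0 : VV m) := nhdsWithin_le_nhds
        (inter_mem (e.open_source.mem_nhds e0)
          (e.cont.continuousAt (e.open_source.mem_nhds e0) (hU.mem_nhds hq)))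
      obtain ⟨y, y1, y2⟩ := Filter.nonempty_of_mem (inter_mem t self_mem_nhdsWithin)
      exact ⟨e y, y1.2, fun h => y2 (e.inj y1.1 e0 h)⟩
    obtain ⟨g, hg⟩ := ih (U \ {q}) (hU.sdiff isClosed_singleton) ⟨q', h1, h2⟩
    have inj : Function.Injective g.toFun := g.toEquiv.injective
    have hW : IsOpen (⋃ i ∈ s, g.toFun '' C i)ᶜ := (s.finite_toSet.isClosed_biUnion fun i _ =>
      ((hC i).image g).isCompact.isClosed).isOpen_compl
    have hc : IsPreconnected (⋃ i ∈ s, g.toFun '' C i)ᶜ :=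
      conn_cells (V := VV m) (E := E) (by rw [finrank_VV]; omega) s (fun i _ => (hC i).image g)
        fun i _ j _ hij => (disjoint_image_iff inj).2 (hd i j hij)
    have ha' : g.toFun '' C a ⊆ (⋃ i ∈ s, g.toFun '' C i)ᶜ := fun z hz hz' => by
      obtain ⟨i, hi, h3⟩ := mem_iUnion₂.1 hz'
      exact disjoint_left.1 ((disjoint_image_iff inj).2 (hd a i fun h => ha (h ▸ hi))) hz h3
    obtain ⟨p, hp, hs⟩ := one_shrink ((hC a).image g) hW ha'
    obtain ⟨g1, e1⟩ := one_move hP hW hc (ha' hp) (q := q) fun hz => by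
      obtain ⟨i, hi, z, h3, h4⟩ := mem_iUnion₂.1 hz
      exact (hg i hi z h3).2 h4
    obtain ⟨g2, e2⟩ := hs (g1.toFun ⁻¹' U)
      (g1.sm.continuous.continuousAt (by rw [e1]; exact hU.mem_nhds hq))
    obtain ⟨g3, e3⟩ := sym_trans g2 g1
    obtain ⟨g4, e4, e4'⟩ := one_univ g3
    obtain ⟨g5, e5⟩ := sym_trans g g4
    refine ⟨g5, fun i hi z hz => ?_⟩
    rw [e5, e4]
    rcases Finset.mem_insert.1 hi with rfl | hi
    · rw [e3]
      exact e2 _ ⟨z, hz, rfl⟩
    · rw [e4' _ (not_not.2 (mem_iUnion₂.2 ⟨i, hi, z, hz, rfl⟩))]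
      exact (hg i hi z hz).1

theorem one_cell [T2Space M] [ConnectedSpace M]
    (hP : ∀ z : M, ∃ e : Par (VV m) E M, 0 ∈ e.source ∧ e 0 = z) {N : ℕ} {C : Fin N → Set M}
    (hC : ∀ i, Cell (VV m) E (C i)) (hd : ∀ i j, i ≠ j → Disjoint (C i) (C j)) :
    ∃ D : Set M, Cell (VV m) E D ∧ ∀ i, C i ⊆ D := by
  obtain ⟨e, e0, -⟩ := hP (Classical.arbitrary M)
  obtain ⟨ρ, hρ, r1⟩ := nhds_basis_closedBall.mem_iff.1 (e.open_source.mem_nhds e0)
  obtain ⟨e1, b1, -⟩ := cell_box e hρ (show -ρ < ρ by linarith only [hρ]) fun y hy =>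
    r1 (mem_closedBall_zero_iff.2 (by
      rw [norm_VV]; exact max_le hy.1 (abs_le.2 ⟨hy.2.1, hy.2.2⟩)))
  obtain ⟨g, hg⟩ := one_into hP hC hd Finset.univ (e1 '' ball 0 1)
    (e1.isOpen_image isOpen_ball (ball_subset_closedBall.trans b1))
    ⟨_, 0, mem_ball_self one_pos, rfl⟩
  obtain ⟨u, hu⟩ := sym_symm g
  refine ⟨_, Cell.image ⟨e1, b1, rfl⟩ u, fun i z hz => ?_⟩
  exact ⟨_, image_mono ball_subset_closedBall (hg i (Finset.mem_univ i) z hz),
    (hu _).trans (g.left_inv z)⟩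

end Pool.Agent.Work.MP_bf98aa_gt.Ns
end
end

-- merged part: Pool.Agent.Work.MP_bf98aa_gt.Ns.Main
section
/-!
Assembly.
-/

set_option autoImplicit false
set_option maxSynthPendingDepth 3
set_option linter.unusedSectionVars false
set_option linter.unusedVariables false

open Set Filter Topology Metric MeasureTheory
open scoped Manifold ContDiff

noncomputable section
namespace Pool.Agent.Work.MP_bf98aa_gt.Ns

open Pool.Agent.Work.MP_8c604c_gt

variable {V V' E : Type} [NormedAddCommGroup V] [NormedSpace ℝ V] [FiniteDimensional ℝ V]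
  [NormedAddCommGroup V'] [NormedSpace ℝ V'] [FiniteDimensional ℝ V']
  [NormedAddCommGroup E] [NormedSpace ℝ E] [FiniteDimensional ℝ E] {M : Type} [TopologicalSpace M]
  [ChartedSpace E M] [IsManifold 𝓘(ℝ, E) ∞ M] {m : ℕ}

theorem main_ns [CompactSpace M] [T2Space M] [PreconnectedSpace M] [MeasurableSpace M]
    [BorelSpace M] (hE : Module.finrank ℝ E = 2 * m + 2) (hm : 1 ≤ m) {w τ : M → B2 E} (hw : Cl2 w)
    (hτ : Sm2 τ) (hn : ∀ z, Skew (τ z) ∧ Nd (τ z)) {μ : Measure M} (hμ : Vol m τ μ)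
    (hpos : 0 < ∫ z, rat w τ z ∂μ) :
    ∃ (α : M → B1 E) (Z : Set M) (N : ℕ) (C : Fin N → Set M), Sm1 α ∧ (∀ i, Cell (VV m) E (C i)) ∧
      (∀ i j, i ≠ j → Disjoint (C i) (C j)) ∧ IsClosed Z ∧ Z ⊆ ⋃ i, interior (C i) ∧
      (∀ z, z ∉ Z → 0 < rat (fun x => w x + dM α x) τ z) ∧
      (∀ z ∈ Z, SubM E Z z ∧ FoldM (fun x => w x + dM α x) z) ∧
      Htp (⋃ i, C i)ᶜ τ fun x => w x + dM α x := by
  obtain ⟨f, hf, hc⟩ := morse (E := E) (M := M)
  obtain ⟨α1, θ, hα1, hθ, hT⟩ := step12 hE hf hc hτ hn hw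
  have hw1 : Cl2 fun z => w z + dM α1 z := hw.add (cl2_dM hα1)
  have hpos1 : 0 < ∫ z, rat (fun x => w x + dM α1 x) τ z ∂μ := by
    rw [stk hE hτ hn hμ hw hα1]; exact hpos
  obtain ⟨κ, h0, h1, hk⟩ := teeth hE hf hc hτ hn hw1 (θ := θ)
    (fun z => hT.rat_pos hE (mem_univ z)) hμ hpos1
  obtain ⟨δ, hδ, hl⟩ := lenses (M := M) hE h0 h1
  obtain ⟨T, hTo⟩ := hk δ hδ
  obtain ⟨α2, hα2, ⟨D⟩⟩ := hl T f _ τ θ hTo hf hw1 hθ hT
  obtain ⟨α3, Z, C, hα3, c1, c2, c3, c4, c5, c6, c7⟩ := ind hE hm (hw1.add (cl2_dM hα2)) hτ hn D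
  have e : (fun x => w x + dM (fun z => α1 z + α2 z + α3 z) x) =
      fun x => w x + dM α1 x + dM α2 x + dM α3 x := by
    funext x
    rw [dM_add (hα1.add hα2) hα3, dM_add hα1 hα2, add_assoc, add_assoc, add_assoc]
  refine ⟨fun z => α1 z + α2 z + α3 z, Z, D.N, C, (hα1.add hα2).add hα3, c1, c2, c3, c4, ?_⟩
  rw [e]
  exact ⟨c5, c6, c7⟩

open Pool.Agent.Work.MP_bf98aa_gt.St in
theorem near_symplectic {M : Type} [TopologicalSpace M] [T2Space M] [CompactSpace M]
    [ConnectedSpace M] [ChartedSpace (Fin (2 * (m + 1)) → ℝ) M]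
    [IsManifold 𝓘(ℝ, Fin (2 * (m + 1)) → ℝ) ∞ M] [MeasurableSpace M] [BorelSpace M] (hm : 1 ≤ m)
    {τ w₀ : Bil (Fin (2 * (m + 1)) → ℝ) M} (hτ : IsSmooth τ) (hτ' : Nondeg τ)
    (hw₀ : IsClosedForm w₀) {μ : Measure M} (hμ : IsVolume τ μ) (hpos : 0 < ∫ x, ratio w₀ τ x ∂μ) :
    ∃ (w : Bil (Fin (2 * (m + 1)) → ℝ) M) (Z C : Set M),
      NearSymplectic τ w Z ∧ Cohomologous w w₀ ∧ IsCell (Fin (2 * (m + 1)) → ℝ) C ∧
      Z ⊆ interior C ∧ HomotopicOn Cᶜ τ w := by
  have hE : Module.finrank ℝ (Fin (2 * (m + 1)) → ℝ) = 2 * m + 2 := by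
    rw [Module.finrank_fintype_fun_eq_card, Fintype.card_fin]; ring
  have h1 := sm2_iff.1 hτ
  have h2 := cl2_iff.1 hw₀
  have hn := nondeg_iff.1 hτ'
  simp only [ratio_eq] at hpos
  obtain ⟨α, Z, N, C, hα, c1, c2, c3, c4, c5, c6, c7⟩ := main_ns hE hm h2 h1 hn (vol_of h1 hμ) hpos
  obtain ⟨D, d1, d2⟩ := one_cell (fun z => by
    obtain ⟨e, e0, e1, -⟩ := std_par hE z (hn z).1 (hn z).2
    exact ⟨e, e0, e1⟩) c1 c2
  have h3 : Cl2 (toNs (ofNs fun x => toNs w₀ x + dM α x)) := h2.add (cl2_dM hα)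
  exact ⟨ofNs fun x => toNs w₀ x + dM α x, Z, D,
    ⟨cl2_iff.2 h3, c3, fun x hx => by rw [ratio_eq]; exact c5 x hx,
      codim_of fun z hz => (c6 z hz).1, fun z hz => transverse_of h3.sm2 (c6 z hz).2⟩,
    cohom_of hα fun _ => rfl, cell_of d1,
    c4.trans (iUnion_subset fun i => interior_mono (d2 i)),
    homotopic_of (c7.mono (compl_subset_compl.2 (iUnion_subset d2)))⟩

end Pool.Agent.Work.MP_bf98aa_gt.Ns
end
end
end
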